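import Pool.Agent.H.MP_83e36b_nt.sp.PDefs

/-!
# Companion matrices and Krylov matrices

PROOF. `aeval_cmp`: `(cmp a)^k e_0 = e_k` for `k < n` and `(cmp a)^n e_0 = - ∑ a_i e_i`, so
`f(cmp a) e_0 = 0` for `f = monicPoly a`, and `f(cmp a) e_k = (cmp a)^k f(cmp a) e_0 = 0`.
(Alternatively `AdjoinRoot.powerBasis` and `charpoly_leftMulMatrix`.)
`charpoly_cmp`: e.g. expand `det (X - cmp a)` along the first row by induction; or over a field:
the minimal polynomial of `cmp a` has degree `≥ n` (the vectors `(cmp a)^k e_0`, `k < n`, are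
linearly independent), `monicPoly a` and the characteristic polynomial both kill `cmp a` and are
monic of degree `n`, so both are equal to the minimal polynomial; for general commutative rings
not needed (`K` is a field here). `kry_cmp`: `(cmp a)^k e_0 = e_k`.
`mul_kryM`: column `j` of `M * kryM M` is `M^(j+1) e_0`; by Cayley-Hamilton
`M^n e_0 = - ∑ (cpc M)_i M^i e_0`. `psum_cpc`: by `mul_kryM`,
`M = K cmp(cpc M) K⁻¹`, `K = kryM M`, so `M^k` is similar to `cmp(cpc M)^k`, same trace.
`cpc_conj`: similar matrices have the same characteristic polynomial. `hk_mul_cmp`: entry `(i, j)`: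
`∑_k T_{i+k} (cmp a)_{kj}` is `T_{i+j+1}` if `j + 1 < n`, and for `j = n - 1` it is
`- ∑_k a_k T_{i+k} = - Tr (C^i ∑ a_k C^k) = Tr (C^i C^n)`, by `aeval_cmp`.
`det_cmp`: constant coefficient of the characteristic polynomial. `det_hk1`: `det_mul`.
`commute_cmp`: if `M C = C M`, write `M e_0 = ∑ y_k e_k = ∑ y_k C^k e_0`; then
`M C^j e_0 = C^j M e_0 = ∑ y_k C^k C^j e_0` and the `C^j e_0 = e_j` are a basis.
`pow_cmp_indep`: apply both sides to `e_0`. `kryM_conj`: if `P e_0 = e_0` and `M P = P M'` then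
`M^k e_0 = M^k P e_0 = P M'^k e_0`.
-/

open Matrix Polynomial

namespace SpinWA

section
variable {R : Type*} [CommRing R] {n : ℕ}

/-- unit vectors, indexed by natural numbers -/
private def kkry_e (R : Type*) [CommRing R] (n k : ℕ) : Fin n → R :=
  fun i => if (i : ℕ) = k then 1 else 0

private theorem kkry_mulVec_e (M : Matrix (Fin n) (Fin n) R) (k : Fin n) :
    M *ᵥ kkry_e R n k = fun i => M i k := by
  ext i
  unfold Matrix.mulVec dotProduct kkry_e
  rw [Finset.sum_eq_single k]
  · rw [if_pos rfl, mul_one]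
  · intro l _ hl
    rw [if_neg (fun h => hl (Fin.ext h)), mul_zero]
  · intro h
    exact absurd (Finset.mem_univ k) h

private theorem kkry_ext {M N : Matrix (Fin n) (Fin n) R}
    (h : ∀ k : Fin n, M *ᵥ kkry_e R n k = N *ᵥ kkry_e R n k) : M = N := by
  ext i k
  have := congrFun (h k) i
  rwa [kkry_mulVec_e, kkry_mulVec_e] at this

private theorem kkry_sum_e (y : Fin n → R) : ∑ k : Fin n, y k • kkry_e R n k = y := by
  ext i
  rw [Finset.sum_apply, Finset.sum_eq_single i]
  · rw [Pi.smul_apply, kkry_e, if_pos rfl, smul_eq_mul, mul_one]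
  · intro l _ hl
    rw [Pi.smul_apply, kkry_e, if_neg (fun h => hl (Fin.ext h).symm), smul_zero]
  · intro h
    exact absurd (Finset.mem_univ i) h

private theorem kkry_pow (a : Fin n → R) (k : ℕ) (hk : k < n) :
    cmp a ^ k *ᵥ e0 R n = kkry_e R n k := by
  induction k with
  | zero =>
    rw [pow_zero, Matrix.one_mulVec]
    rfl
  | succ k ih =>
    rw [pow_succ', ← Matrix.mulVec_mulVec, ih (by omega)]
    have h1 := kkry_mulVec_e (cmp a) ⟨k, by omega⟩
    change cmp a *ᵥ kkry_e R n k = _ at h1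
    rw [h1]
    ext i
    unfold cmp kkry_e
    rw [Matrix.of_apply, if_neg (show ¬ (k + 1 = n) by omega)]

private theorem kkry_pow_n (a : Fin n → R) : cmp a ^ n *ᵥ e0 R n = -a := by
  rcases n with _ | n
  · ext i
    exact i.elim0
  · rw [pow_succ', ← Matrix.mulVec_mulVec, kkry_pow a n (by omega)]
    have h1 := kkry_mulVec_e (cmp a) (Fin.last n)
    change cmp a *ᵥ kkry_e R (n + 1) n = _ at h1
    rw [h1]
    ext i
    unfold cmp
    rw [Matrix.of_apply, if_pos (by rw [Fin.val_last])]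
    rfl

private theorem kkry_zero (a : Fin n → R) {D : Matrix (Fin n) (Fin n) R}
    (h : D * cmp a = cmp a * D) (h0 : D *ᵥ e0 R n = 0) : D = 0 := by
  apply kkry_ext
  intro k
  have hc : Commute D (cmp a ^ (k : ℕ)) := Commute.pow_right h _
  rw [Matrix.zero_mulVec, ← kkry_pow a k k.2, Matrix.mulVec_mulVec, hc.eq,
    ← Matrix.mulVec_mulVec, h0, Matrix.mulVec_zero]

private theorem kkry_sum_comm (a y : Fin n → R) :
    Commute (∑ k, y k • cmp a ^ (k : ℕ)) (cmp a) := by
  apply Commute.sum_left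
  intro k _
  exact ((Commute.refl (cmp a)).pow_left _).smul_left _

private theorem kkry_sum_e0 (a y : Fin n → R) :
    (∑ k, y k • cmp a ^ (k : ℕ)) *ᵥ e0 R n = y := by
  rw [Matrix.sum_mulVec]
  have h1 : ∀ k : Fin n, (y k • cmp a ^ (k : ℕ)) *ᵥ e0 R n = y k • kkry_e R n k := fun k => by
    rw [Matrix.smul_mulVec, kkry_pow a k k.2]
  rw [Finset.sum_congr rfl fun k _ => h1 k, kkry_sum_e]

theorem psum_zero (a : Fin n → R) : psum a 0 = n := by
  unfold psum
  rw [pow_zero, Matrix.trace_one, Fintype.card_fin]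

private theorem kkry_ch (a : Fin n → R) : cmp a ^ n = -∑ k, a k • cmp a ^ (k : ℕ) := by
  have h : cmp a ^ n + ∑ k, a k • cmp a ^ (k : ℕ) = 0 := by
    apply kkry_zero a
    · exact (((Commute.refl (cmp a)).pow_left n).add_left (kkry_sum_comm a a)).eq
    · rw [Matrix.add_mulVec, kkry_pow_n, kkry_sum_e0, neg_add_cancel]
  exact eq_neg_of_add_eq_zero_left h

theorem aeval_cmp (a : Fin n → R) : aeval (cmp a) (AnWA.monicPoly a) = 0 := by
  unfold AnWA.monicPoly
  rw [map_add, map_pow, aeval_X, map_sum]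
  have h1 : ∀ i : Fin n, aeval (cmp a) (C (a i) * X ^ (i : ℕ)) = a i • cmp a ^ (i : ℕ) :=
    fun i => by
      rw [map_mul, aeval_C, map_pow, aeval_X, Algebra.smul_def]
  rw [Finset.sum_congr rfl fun i _ => h1 i, kkry_ch, neg_add_cancel]

theorem kryM_cmp (a : Fin n → R) : kryM (cmp a) = 1 := by
  ext i k
  unfold kryM
  rw [Matrix.of_apply, kkry_pow a k k.2, kkry_e, Matrix.one_apply]
  by_cases h : i = k
  · rw [h, if_pos rfl, if_pos rfl]
  · rw [if_neg h, if_neg (fun h' => h (Fin.ext h'))]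

theorem mul_kryM (M : Matrix (Fin n) (Fin n) R) : M * kryM M = kryM M * cmp (cpc M) := by
  rcases subsingleton_or_nontrivial R with hR | hR
  · exact Subsingleton.elim _ _
  have hch : M ^ n = -∑ k : Fin n, cpc M k • M ^ (k : ℕ) := by
    have h1 : M.charpoly = X ^ n + ∑ i : Fin n, C (M.charpoly.coeff i) * X ^ (i : ℕ) := by
      have h2 := (Matrix.charpoly_monic M).as_sum
      rw [Matrix.charpoly_natDegree_eq_dim, Fintype.card_fin, Finset.sum_range] at h2
      exact h2
    have h3 := Matrix.aeval_self_charpoly M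
    rw [h1, map_add, map_pow, aeval_X, map_sum] at h3
    have h4 : ∀ i : Fin n, aeval M (C (M.charpoly.coeff i) * X ^ (i : ℕ)) =
        cpc M i • M ^ (i : ℕ) := fun i => by
      rw [map_mul, aeval_C, map_pow, aeval_X, Algebra.smul_def]
      rfl
    rw [Finset.sum_congr rfl fun i _ => h4 i] at h3
    exact eq_neg_of_add_eq_zero_left h3
  ext i j
  have hl : (M * kryM M) i j = (M ^ ((j : ℕ) + 1) *ᵥ e0 R n) i := by
    rw [pow_succ', ← Matrix.mulVec_mulVec]
    rfl
  rw [hl, Matrix.mul_apply]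
  by_cases hj : (j : ℕ) + 1 = n
  · have h1 : ∀ k : Fin n, kryM M i k * cmp (cpc M) k j =
        -((cpc M k • M ^ (k : ℕ)) *ᵥ e0 R n) i := fun k => by
      unfold kryM cmp
      rw [Matrix.of_apply, Matrix.of_apply, if_pos hj, Matrix.smul_mulVec, Pi.smul_apply,
        smul_eq_mul]
      ring
    rw [Finset.sum_congr rfl fun k _ => h1 k, hj, hch, Matrix.neg_mulVec, Matrix.sum_mulVec,
      Pi.neg_apply, Finset.sum_apply, Finset.sum_neg_distrib]
  · have hj' : (j : ℕ) + 1 < n := by
      have := j.2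
      omega
    rw [Finset.sum_eq_single ⟨(j : ℕ) + 1, hj'⟩]
    · unfold kryM cmp
      rw [Matrix.of_apply, Matrix.of_apply, if_neg hj, if_pos rfl, mul_one]
    · intro k _ hk
      unfold cmp
      rw [Matrix.of_apply, if_neg hj, if_neg (fun h => hk (Fin.ext h)), mul_zero]
    · intro h
      exact absurd (Finset.mem_univ _) h

theorem kryM_mulVec_e0 (M : Matrix (Fin n) (Fin n) R) : kryM M *ᵥ e0 R n = e0 R n := by
  rcases n with _ | n
  · ext i
    exact i.elim0
  · have h1 := kkry_mulVec_e (kryM M) (0 : Fin (n + 1))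
    change kryM M *ᵥ e0 R (n + 1) = _ at h1
    rw [h1]
    ext i
    unfold kryM
    rw [Matrix.of_apply]
    change (M ^ 0 *ᵥ e0 R (n + 1)) i = _
    rw [pow_zero, Matrix.one_mulVec]

theorem kryM_conj {P M M' : Matrix (Fin n) (Fin n) R} (h0 : P *ᵥ e0 R n = e0 R n)
    (h : M * P = P * M') : kryM M = P * kryM M' := by
  have hk : ∀ k : ℕ, M ^ k * P = P * M' ^ k := by
    intro k
    induction k with
    | zero => rw [pow_zero, pow_zero, Matrix.one_mul, Matrix.mul_one]
    | succ k ih => rw [pow_succ, Matrix.mul_assoc, h, ← Matrix.mul_assoc, ih, Matrix.mul_assoc,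
        ← pow_succ]
  ext i j
  have hr : (P * kryM M') i j = (P *ᵥ (M' ^ (j : ℕ) *ᵥ e0 R n)) i := rfl
  rw [hr, Matrix.mulVec_mulVec, ← hk, ← Matrix.mulVec_mulVec, h0]
  rfl

theorem hk_transpose (a : Fin n → R) : (hk a)ᵀ = hk a := by
  ext i j
  unfold hk
  rw [Matrix.transpose_apply, Matrix.of_apply, Matrix.of_apply, add_comm]

theorem hk1_transpose (a : Fin n → R) : (hk1 a)ᵀ = hk1 a := by
  ext i j
  unfold hk1
  rw [Matrix.transpose_apply, Matrix.of_apply, Matrix.of_apply, add_comm (j : ℕ)]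

theorem hk_mul_cmp (a : Fin n → R) : hk a * cmp a = hk1 a := by
  ext i j
  rw [Matrix.mul_apply]
  unfold hk1
  rw [Matrix.of_apply]
  by_cases hj : (j : ℕ) + 1 = n
  · have h1 : ∀ k : Fin n, hk a i k * cmp a k j =
        -(cmp a ^ (i : ℕ) * (a k • cmp a ^ (k : ℕ))).trace := fun k => by
      unfold hk
      rw [Matrix.of_apply]
      have h2 : cmp a k j = -a k := by
        unfold cmp
        rw [Matrix.of_apply, if_pos hj]
      rw [h2, psum, Matrix.mul_smul, Matrix.trace_smul, ← pow_add, smul_eq_mul]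
      ring
    rw [Finset.sum_congr rfl fun k _ => h1 k, Finset.sum_neg_distrib, ← Matrix.trace_sum,
      ← Matrix.mul_sum, ← Matrix.trace_neg, ← Matrix.mul_neg, ← kkry_ch, ← pow_add, add_assoc, hj]
    rfl
  · have hj' : (j : ℕ) + 1 < n := by
      have := j.2
      omega
    rw [Finset.sum_eq_single ⟨(j : ℕ) + 1, hj'⟩]
    · unfold hk cmp
      rw [Matrix.of_apply, Matrix.of_apply, if_neg hj, if_pos rfl, mul_one, add_assoc]
    · intro k _ hk
      have h2 : cmp a k j = 0 := by
        unfold cmp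
        rw [Matrix.of_apply, if_neg hj, if_neg (fun h => hk (Fin.ext h))]
      rw [h2, mul_zero]
    · intro h
      exact absurd (Finset.mem_univ _) h

theorem commute_cmp (a : Fin n → R) {M : Matrix (Fin n) (Fin n) R} (h : M * cmp a = cmp a * M) :
    ∃ y : Fin n → R, M = ∑ k, y k • cmp a ^ (k : ℕ) := by
  refine ⟨M *ᵥ e0 R n, ?_⟩
  rw [← sub_eq_zero]
  apply kkry_zero a
  · exact (Commute.sub_left h (kkry_sum_comm a _)).eq
  · rw [Matrix.sub_mulVec, kkry_sum_e0, sub_self]

theorem pow_cmp_indep (a : Fin n → R) {y : Fin n → R} (h : ∑ k, y k • cmp a ^ (k : ℕ) = 0) :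
    y = 0 := by
  have h1 := kkry_sum_e0 a y
  rw [h, Matrix.zero_mulVec] at h1
  exact h1.symm

end

end SpinWA
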