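import Pool.Agent.H.MP_83e36b_nt.sp.PDefs
import Pool.Agent.H.MP_83e36b_nt.sp.KKry

/-!
# Companion matrices and Krylov matrices over a field

PROOF. `charpoly_cmp`: e.g. expand `det (X - cmp a)` along the first row by induction; or:
the minimal polynomial of `cmp a` has degree `≥ n` (the vectors `(cmp a)^k e_0 = e_k`, `k < n`, are
linearly independent, `kryM_cmp`), `monicPoly a` (`aeval_cmp`) and the characteristic polynomial both
kill `cmp a` and are monic of degree `n`, so both are equal to the minimal polynomial.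
`cpc_conj`: similar matrices have the same characteristic polynomial. `psum_cpc`: by `mul_kryM`,
`M = K cmp(cpc M) K⁻¹`, `K = kryM M`, so `M^k` is similar to `cmp(cpc M)^k`, same trace.
`det_cmp`: `det M = (-1)^n (charpoly M)(0)`. `det_hk1`: `hk_mul_cmp` and `det_mul`.
-/

open Matrix Polynomial

namespace SpinWA

section
variable {K : Type*} [Field K] {n : ℕ}

private theorem kkryb_monic (a : Fin n → K) : (AnWA.monicPoly a).coeff 0 = cf a 0 := by
  unfold AnWA.monicPoly cf
  rw [coeff_add, finsetSum_coeff]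
  rcases Nat.eq_zero_or_pos n with rfl | hn
  · simp
  · rw [dif_pos hn, coeff_X_pow, if_neg (by omega), zero_add,
      Finset.sum_eq_single (⟨0, hn⟩ : Fin n)]
    · simp
    · intro b _ hb
      have hb' : (b : ℕ) ≠ 0 := fun h => hb (Fin.ext h)
      rw [coeff_C_mul, coeff_X_pow, if_neg (Ne.symm hb'), mul_zero]
    · intro h
      exact absurd (Finset.mem_univ _) h

private theorem kkryb_charpoly (M : Matrix (Fin n) (Fin n) K) :
    M.charpoly = AnWA.monicPoly (cpc M) := by
  have h1 : M.charpoly.natDegree = n := by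
    rw [Matrix.charpoly_natDegree_eq_dim, Fintype.card_fin]
  have h2 := M.charpoly.as_sum_range_C_mul_X_pow
  rw [h1, Finset.sum_range_succ] at h2
  have h3 : M.charpoly.coeff n = 1 := by
    have := M.charpoly_monic.coeff_natDegree
    rwa [h1] at this
  rw [h2, h3, C_1, one_mul, add_comm, Finset.sum_range]
  rfl

theorem cpc_cmp (a : Fin n → K) : cpc (cmp a) = a := by
  have h := mul_kryM (cmp a)
  rw [kryM_cmp, Matrix.mul_one, Matrix.one_mul] at h
  funext i
  have hn : 0 < n := lt_of_le_of_lt (Nat.zero_le _) i.2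
  have h2 := congrFun (congrFun h i) ⟨n - 1, by omega⟩
  have h3 : n - 1 + 1 = n := by omega
  simp only [cmp, Matrix.of_apply, h3, if_true] at h2
  exact (neg_injective h2).symm

theorem charpoly_cmp (a : Fin n → K) : (cmp a).charpoly = AnWA.monicPoly a := by
  rw [kkryb_charpoly, cpc_cmp]

theorem cpc_conj {P M M' : Matrix (Fin n) (Fin n) K} (hP : P.det ≠ 0) (h : M * P = P * M') :
    cpc M = cpc M' := by
  have hu : IsUnit P := (Matrix.isUnit_iff_isUnit_det P).2 (isUnit_iff_ne_zero.2 hP)
  obtain ⟨U, rfl⟩ := hu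
  have h1 : M' = (U⁻¹).val * M * U.val := by
    rw [Matrix.mul_assoc, h, ← Matrix.mul_assoc, Units.inv_mul, Matrix.one_mul]
  have h2 : M'.charpoly = M.charpoly := by
    rw [h1, Matrix.coe_units_inv]
    exact Matrix.charpoly_units_conj' U M
  unfold cpc
  rw [h2]

/-- Traces of powers of a cyclic matrix. -/
theorem psum_cpc {M : Matrix (Fin n) (Fin n) K} (h : (kryM M).det ≠ 0) (k : ℕ) :
    psum (cpc M) k = (M ^ k).trace := by
  have hk : ∀ k : ℕ, M ^ k * kryM M = kryM M * cmp (cpc M) ^ k := by
    intro k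
    induction k with
    | zero => rw [pow_zero, pow_zero, Matrix.one_mul, Matrix.mul_one]
    | succ k ih =>
      rw [pow_succ, Matrix.mul_assoc, mul_kryM, ← Matrix.mul_assoc, ih, Matrix.mul_assoc,
        ← pow_succ]
  have hu : IsUnit (kryM M).det := isUnit_iff_ne_zero.2 h
  have h1 : cmp (cpc M) ^ k = (kryM M)⁻¹ * (M ^ k * kryM M) := by
    rw [hk, ← Matrix.mul_assoc, Matrix.nonsing_inv_mul _ hu, Matrix.one_mul]
  unfold psum
  rw [h1, Matrix.trace_mul_comm, Matrix.mul_assoc, Matrix.mul_nonsing_inv _ hu, Matrix.mul_one]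

theorem det_cmp (a : Fin n → K) : (cmp a).det = (-1) ^ n * cf a 0 := by
  rw [Matrix.det_eq_sign_charpoly_coeff, Fintype.card_fin, charpoly_cmp, kkryb_monic]

theorem det_hk1 (a : Fin n → K) : (hk1 a).det = (-1) ^ n * cf a 0 * (hk a).det := by
  rw [← hk_mul_cmp, Matrix.det_mul, det_cmp]
  ring

end

end SpinWA
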