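import Pool.Agent.H.MP_83e36b_nt.sp.PDefs
import Pool.Agent.H.MP_83e36b_nt.sp.KKry
import Pool.Agent.H.MP_83e36b_nt.sp.KKryB

/-!
# Root coordinates

`V = vandermonde x`, `V_{ij} = x_i ^ j`.

PROOF. Let `f = monicPoly a = ∏ (X - x_i)`, `C = cmp a`. `vand_cmp`: entry `(i, j)`:
`∑_k x_i^k C_{kj} = x_i^{j+1}` (for `j + 1 = n` use `f(x_i) = 0`). `psum_eq_sum`: `x` is
injective, so `V` is invertible (`Matrix.det_vandermonde_ne_zero_iff`) and
`C = V⁻¹ diag(x) V`, so `psum a k = Tr (C^k) = ∑ x_i^k`. `vand_hk`: `(Vᵀ V)_{ij} = ∑_l x_l^{i+j}`.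
`separable_of_det`: suppose `f` is not separable; over the algebraic closure `f = (X - r)^2 h`
(the compatibility of `hk`, `cmp`, `monicPoly` with ring homomorphisms is easy, see also
`PMap.lean`). Let `M = (C - r) h(C)`, a matrix with `M ≠ 0` (`M e_0` is the coefficient vector of
the polynomial `(X - r) h` of degree `n - 1`, since `C^k e_0 = e_k`) and `M^2 = f(C) h(C) = 0`.
For all `j` the matrix `C^j M` is nilpotent (its square is `C^{2j} M^2 = 0`), so its trace is zero
(`Matrix.isNilpotent_trace_of_isNilpotent` or so). With `M = ∑ y_k C^k` (`y = M e_0`) this says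
`∑_k (hk a)_{jk} y_k = 0`, `y ≠ 0`, so `det (hk a) = 0`.
`exists_roots`: over `L` algebraically closed `f` splits, choose an enumeration `x` of the roots
(with multiplicity); they are distinct since `f` is separable.
`det_hk_ne_zero_of_separable`: over the algebraic closure `f = ∏ (X - x_i)` with `x` injective and
`det (hk a) = (det V)^2`.
-/

open Matrix Polynomial

namespace SpinWA

variable {K : Type*} [Field K] {n : ℕ}

theorem croot_degree_lt {R : Type*} [CommRing R] [Nontrivial R] {n : ℕ} (a : Fin n → R) :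
    (∑ i, C (a i) * X ^ (i : ℕ) : R[X]).degree < (n : ℕ) :=
  degree_sum_fin_lt a

theorem croot_monic {R : Type*} [CommRing R] [Nontrivial R] {n : ℕ} (a : Fin n → R) :
    (AnWA.monicPoly a).Monic :=
  monic_X_pow_add (croot_degree_lt a)

theorem croot_natDegree {R : Type*} [CommRing R] [Nontrivial R] {n : ℕ} (a : Fin n → R) :
    (AnWA.monicPoly a).natDegree = n := by
  apply natDegree_eq_of_degree_eq_some
  unfold AnWA.monicPoly
  rw [degree_add_eq_left_of_degree_lt, degree_X_pow]
  rw [degree_X_pow]
  exact croot_degree_lt a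

theorem croot_eval (x a : Fin n → K) (h : AnWA.monicPoly a = ∏ i, (X - C (x i))) (i : Fin n) :
    x i ^ n = - ∑ k, a k * x i ^ (k : ℕ) := by
  have h1 : (AnWA.monicPoly a).eval (x i) = 0 := by
    rw [h, eval_prod]
    exact Finset.prod_eq_zero (Finset.mem_univ i) (by simp)
  unfold AnWA.monicPoly at h1
  rw [eval_add, eval_pow, eval_X, eval_finsetSum] at h1
  simp only [eval_mul, eval_C, eval_pow, eval_X] at h1
  exact eq_neg_of_add_eq_zero_left h1

theorem vand_cmp (x a : Fin n → K) (h : AnWA.monicPoly a = ∏ i, (X - C (x i))) :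
    vandermonde x * cmp a = diagonal x * vandermonde x := by
  ext i j
  rw [mul_apply, diagonal_mul, vandermonde_apply]
  simp only [vandermonde_apply, cmp, of_apply]
  by_cases hj : (j : ℕ) + 1 = n
  · simp only [if_pos hj]
    rw [← pow_succ', hj, croot_eval x a h i, ← Finset.sum_neg_distrib]
    refine Finset.sum_congr rfl fun k _ => ?_
    ring
  · simp only [if_neg hj]
    have hj' : (j : ℕ) + 1 < n := lt_of_le_of_ne j.2 hj
    rw [Finset.sum_eq_single (⟨(j : ℕ) + 1, hj'⟩ : Fin n)]
    · rw [if_pos rfl, mul_one, pow_succ']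
    · intro k _ hk
      rw [if_neg (fun h1 => hk (Fin.ext h1)), mul_zero]
    · intro h1
      exact absurd (Finset.mem_univ _) h1

theorem croot_vand_pow (x a : Fin n → K) (h : AnWA.monicPoly a = ∏ i, (X - C (x i))) (k : ℕ) :
    vandermonde x * cmp a ^ k = diagonal x ^ k * vandermonde x := by
  induction k with
  | zero => rw [pow_zero, pow_zero, one_mul, mul_one]
  | succ k ih =>
    rw [pow_succ, ← mul_assoc, ih, mul_assoc, vand_cmp x a h, ← mul_assoc, ← pow_succ]

theorem psum_eq_sum (x a : Fin n → K) (hx : Function.Injective x)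
    (h : AnWA.monicPoly a = ∏ i, (X - C (x i))) (k : ℕ) : psum a k = ∑ i, x i ^ k := by
  have hV : IsUnit (vandermonde x).det := (det_vandermonde_ne_zero_iff.2 hx).isUnit
  have h1 := croot_vand_pow x a h k
  have h2 : cmp a ^ k = (vandermonde x)⁻¹ * (diagonal x ^ k * vandermonde x) := by
    rw [← h1, ← mul_assoc, nonsing_inv_mul _ hV, one_mul]
  unfold psum
  rw [h2, trace_mul_comm, mul_assoc, mul_nonsing_inv _ hV, mul_one, diagonal_pow, trace_diagonal]
  rfl

theorem vand_hk (x a : Fin n → K) (hx : Function.Injective x)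
    (h : AnWA.monicPoly a = ∏ i, (X - C (x i))) :
    (vandermonde x)ᵀ * vandermonde x = hk a := by
  ext i j
  rw [vandermonde_transpose_mul_vandermonde]
  simp only [hk, of_apply]
  rw [psum_eq_sum x a hx h]

theorem vand_e0 (x : Fin n → K) : vandermonde x *ᵥ e0 K n = fun _ => 1 := by
  ext i
  have hn : 0 < n := lt_of_le_of_lt (Nat.zero_le _) i.2
  simp only [mulVec, dotProduct, vandermonde_apply, e0]
  rw [Finset.sum_eq_single (⟨0, hn⟩ : Fin n)]
  · rw [if_pos rfl, mul_one, pow_zero]
  · intro k _ hk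
    rw [if_neg (fun h1 => hk (Fin.ext h1)), mul_zero]
  · intro h1
    exact absurd (Finset.mem_univ _) h1

theorem croot_cmp_map {L : Type*} [Field L] (φ : K →+* L) (a : Fin n → K) :
    (cmp a).map φ = cmp fun i => φ (a i) := by
  ext i j
  simp only [cmp, map_apply, of_apply]
  split_ifs <;> simp

theorem croot_psum_map {L : Type*} [Field L] (φ : K →+* L) (a : Fin n → K) (k : ℕ) :
    φ (psum a k) = psum (fun i => φ (a i)) k := by
  unfold psum
  rw [← croot_cmp_map φ a, ← RingHom.mapMatrix_apply, ← map_pow]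
  simp only [trace, diag, map_sum, RingHom.mapMatrix_apply, map_apply]

theorem croot_hk_det_map {L : Type*} [Field L] (φ : K →+* L) (a : Fin n → K) :
    φ (hk a).det = (hk fun i => φ (a i)).det := by
  rw [RingHom.map_det]
  congr 1
  ext i j
  simp only [RingHom.mapMatrix_apply, map_apply, hk, of_apply]
  exact croot_psum_map φ a _

/-- The trace form and the traces of polynomials in the companion matrix. -/
theorem croot_hk_mulVec (b : Fin n → K) (p : K[X]) (hp : p.natDegree < n) (j : Fin n) :
    (hk b *ᵥ fun k : Fin n => p.coeff k) j = (aeval (cmp b) (X ^ (j : ℕ) * p)).trace := by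
  have h1 : aeval (cmp b) (X ^ (j : ℕ) * p) =
      ∑ k : Fin n, p.coeff k • cmp b ^ ((j : ℕ) + k) := by
    rw [map_mul, map_pow, aeval_X, aeval_eq_sum_range' hp, Finset.mul_sum, Finset.sum_range]
    refine Finset.sum_congr rfl fun k _ => ?_
    rw [mul_smul_comm, ← pow_add]
  rw [h1, trace_sum]
  simp only [mulVec, dotProduct, hk, of_apply, trace_smul, psum, smul_eq_mul]
  exact Finset.sum_congr rfl fun k _ => mul_comm _ _

/-- A polynomial with a double zero has a degenerate trace form. -/
theorem croot_double (b : Fin n → K) (r : K) (q : K[X])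
    (h : AnWA.monicPoly b = (X - C r) ^ 2 * q) : (hk b).det = 0 := by
  have hf0 : AnWA.monicPoly b ≠ 0 := (croot_monic b).ne_zero
  obtain ⟨p, hp⟩ : ∃ p : K[X], p = (X - C r) * q := ⟨_, rfl⟩
  have hfp : AnWA.monicPoly b = (X - C r) * p := by rw [h, hp]; ring
  have hp0 : p ≠ 0 := by
    intro h1
    rw [h1, mul_zero] at hfp
    exact hf0 hfp
  have hdeg : p.natDegree + 1 = n := by
    have h1 := croot_natDegree b
    rw [hfp, natDegree_mul (X_sub_C_ne_zero r) hp0, natDegree_X_sub_C] at h1
    omega
  have hsq : ∀ j : ℕ, aeval (cmp b) (X ^ j * p) ^ 2 = 0 := by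
    intro j
    have h1 : (X ^ j * p) ^ 2 = AnWA.monicPoly b * (X ^ (2 * j) * q) := by
      rw [h, hp]
      ring
    rw [← map_pow, h1, map_mul, aeval_cmp, zero_mul]
  have htr : ∀ j : ℕ, (aeval (cmp b) (X ^ j * p)).trace = 0 := by
    intro j
    have h1 : IsNilpotent (aeval (cmp b) (X ^ j * p)) := ⟨2, hsq j⟩
    exact (Matrix.isNilpotent_trace_of_isNilpotent h1).eq_zero
  rw [← exists_mulVec_eq_zero_iff]
  refine ⟨fun k : Fin n => p.coeff k, ?_, ?_⟩
  · intro h1
    apply hp0
    have h2 := congrFun h1 ⟨p.natDegree, by omega⟩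
    exact leadingCoeff_eq_zero.1 h2
  · ext j
    rw [croot_hk_mulVec b p (by omega) j, htr]
    rfl

theorem separable_of_det (a : Fin n → K) (h : (hk a).det ≠ 0) :
    (AnWA.monicPoly a).Separable := by
  classical
  let φ := algebraMap K (AlgebraicClosure K)
  rw [← separable_map φ, ← AnWA.monicPoly_map]
  have hb : (hk fun i => φ (a i)).det ≠ 0 := by
    rw [← croot_hk_det_map φ a]
    exact (map_ne_zero φ).2 h
  have hf0 : AnWA.monicPoly (fun i => φ (a i)) ≠ 0 := (croot_monic _).ne_zero
  rw [← nodup_roots_iff_of_splits hf0 (IsAlgClosed.splits _), Multiset.nodup_iff_count_le_one]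
  intro r
  by_contra h1
  rw [not_le, count_roots] at h1
  have h2 : (X - C r) ^ 2 ∣ AnWA.monicPoly (fun i => φ (a i)) :=
    (le_rootMultiplicity_iff hf0).1 h1
  obtain ⟨q, hq⟩ := h2
  exact hb (croot_double _ r q hq)

theorem croot_enum {L : Type*} [Field L] [IsAlgClosed L] (b : Fin n → L)
    (hs : (AnWA.monicPoly b).Separable) :
    ∃ x : Fin n → L, Function.Injective x ∧ AnWA.monicPoly b = ∏ i, (X - C (x i)) := by
  classical
  have hspl : (AnWA.monicPoly b).Splits := IsAlgClosed.splits _
  have hnd := nodup_roots hs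
  have hcard : (AnWA.monicPoly b).roots.toFinset.card = n := by
    rw [Multiset.toFinset_card_of_nodup hnd, ← hspl.natDegree_eq_card_roots, croot_natDegree]
  let e := Finset.equivFinOfCardEq hcard
  refine ⟨fun i => (e.symm i).1, ?_, ?_⟩
  · intro i j hij
    exact e.symm.injective (Subtype.ext hij)
  · conv_lhs => rw [hspl.eq_prod_roots_of_monic (croot_monic b)]
    have h1 : (Multiset.map (fun a => X - C a) (AnWA.monicPoly b).roots).prod =
        ∏ r ∈ (AnWA.monicPoly b).roots.toFinset, (X - C r) := by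
      rw [Finset.prod_multiset_map_count]
      refine Finset.prod_congr rfl fun r hr => ?_
      rw [Multiset.count_eq_one_of_mem hnd (Multiset.mem_toFinset.1 hr), pow_one]
    rw [h1, ← Finset.prod_coe_sort]
    exact (Equiv.prod_comp e.symm
      (fun r : {r // r ∈ (AnWA.monicPoly b).roots.toFinset} => (X - C r.1))).symm

/-- Existence of root coordinates over an algebraically closed extension. -/
theorem exists_roots {L : Type*} [Field L] [IsAlgClosed L] (φ : K →+* L)
    (a : Fin n → K) (h : (hk a).det ≠ 0) :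
    ∃ x : Fin n → L, Function.Injective x ∧
      AnWA.monicPoly (fun i => φ (a i)) = ∏ i, (X - C (x i)) := by
  apply croot_enum
  rw [AnWA.monicPoly_map]
  exact (separable_of_det a h).map

/-- A separable polynomial has a nondegenerate trace form (any characteristic). -/
theorem det_hk_ne_zero_of_separable (a : Fin n → K) (h : (AnWA.monicPoly a).Separable) :
    (hk a).det ≠ 0 := by
  let φ := algebraMap K (AlgebraicClosure K)
  obtain ⟨x, hx, hf⟩ := croot_enum (fun i => φ (a i)) (by
    rw [AnWA.monicPoly_map]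
    exact h.map)
  intro h0
  have h1 := croot_hk_det_map φ a
  rw [h0, map_zero, ← vand_hk x _ hx hf, det_mul, det_transpose] at h1
  exact det_vandermonde_ne_zero_iff.2 hx (mul_self_eq_zero.1 h1.symm)

end SpinWA
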