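import Mathlib

/-!
# The Witt group by generators and relations; congruence of matrices
-/

open Matrix

namespace SpinWA

section Cong
variable {ι κ K L : Type*} [Fintype ι] [DecidableEq ι] [Fintype κ] [DecidableEq κ] [Field K]
  [Field L]

/-- Congruence of square matrices. -/
def Cong (A B : Matrix ι ι K) : Prop := ∃ P : Matrix ι ι K, P.det ≠ 0 ∧ Pᵀ * A * P = B

theorem Cong.refl (A : Matrix ι ι K) : Cong A A := ⟨1, by simp, by simp⟩

theorem Cong.symm {A B : Matrix ι ι K} (h : Cong A B) : Cong B A := by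
  obtain ⟨P, hP, rfl⟩ := h
  refine ⟨P⁻¹, ?_, ?_⟩
  · intro h0
    have h1 : P * P⁻¹ = 1 := Matrix.mul_nonsing_inv P (isUnit_iff_ne_zero.2 hP)
    have h2 := congrArg Matrix.det h1
    rw [Matrix.det_mul, h0, mul_zero, Matrix.det_one] at h2
    exact zero_ne_one h2
  · have h1 : P * P⁻¹ = 1 := Matrix.mul_nonsing_inv P (isUnit_iff_ne_zero.2 hP)
    have h2 : (P⁻¹)ᵀ * Pᵀ = 1 := by rw [← Matrix.transpose_mul, h1, Matrix.transpose_one]
    calc (P⁻¹)ᵀ * (Pᵀ * A * P) * P⁻¹ = ((P⁻¹)ᵀ * Pᵀ) * A * (P * P⁻¹) := by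
          simp only [Matrix.mul_assoc]
      _ = A := by rw [h1, h2, Matrix.one_mul, Matrix.mul_one]

theorem Cong.trans {A B C : Matrix ι ι K} (h : Cong A B) (h' : Cong B C) : Cong A C := by
  obtain ⟨P, hP, rfl⟩ := h
  obtain ⟨R, hR, rfl⟩ := h'
  refine ⟨P * R, ?_, ?_⟩
  · rw [Matrix.det_mul]; exact mul_ne_zero hP hR
  · rw [Matrix.transpose_mul]; simp only [Matrix.mul_assoc]

theorem Cong.transpose {A B : Matrix ι ι K} (h : Cong A B) (hA : Aᵀ = A) : Bᵀ = B := by
  obtain ⟨P, hP, rfl⟩ := h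
  rw [Matrix.transpose_mul, Matrix.transpose_mul, Matrix.transpose_transpose, hA]
  simp only [Matrix.mul_assoc]

theorem Cong.det {A B : Matrix ι ι K} (h : Cong A B) : ∃ c : K, c ≠ 0 ∧ B.det = c ^ 2 * A.det := by
  obtain ⟨P, hP, rfl⟩ := h
  refine ⟨P.det, hP, ?_⟩
  rw [Matrix.det_mul, Matrix.det_mul, Matrix.det_transpose]
  ring

theorem Cong.map {A B : Matrix ι ι K} (h : Cong A B) (φ : K →+* L) :
    Cong (A.map φ) (B.map φ) := by
  obtain ⟨P, hP, rfl⟩ := h
  refine ⟨P.map φ, ?_, ?_⟩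
  · have : (P.map φ).det = φ P.det := (RingHom.map_det φ P).symm
    rw [this]; simpa using hP
  · rw [Matrix.map_mul, Matrix.map_mul, Matrix.transpose_map]

theorem Cong.reindex {A B : Matrix ι ι K} (h : Cong A B) (e : κ ≃ ι) :
    Cong (A.submatrix e e) (B.submatrix e e) := by
  obtain ⟨P, hP, rfl⟩ := h
  refine ⟨P.submatrix e e, ?_, ?_⟩
  · rwa [Matrix.det_submatrix_equiv_self]
  · rw [Matrix.transpose_submatrix, Matrix.submatrix_mul_equiv, Matrix.submatrix_mul_equiv]

end Cong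

section WG
variable (K : Type*) [Field K]

/-- The relations defining the Witt group. -/
def wRels : Set (FreeAbelianGroup Kˣ) :=
  {x | (∃ a b : Kˣ, x = FreeAbelianGroup.of (a * b ^ 2) - FreeAbelianGroup.of a) ∨
    (∃ a b c : Kˣ, (a : K) + b = c ∧ x = FreeAbelianGroup.of a + FreeAbelianGroup.of b -
      FreeAbelianGroup.of c - FreeAbelianGroup.of (a * b * c)) ∨
    x = FreeAbelianGroup.of (1 : Kˣ) + FreeAbelianGroup.of (-1 : Kˣ)}

/-- The Witt group of a field of characteristic different from 2. -/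
def WG : Type _ := FreeAbelianGroup Kˣ ⧸ AddSubgroup.closure (wRels K)

instance instAddCommGroupWG : AddCommGroup (WG K) :=
  inferInstanceAs (AddCommGroup (FreeAbelianGroup Kˣ ⧸ AddSubgroup.closure (wRels K)))

/-- The quotient map. -/
def WG.mk : FreeAbelianGroup Kˣ →+ WG K := QuotientAddGroup.mk' (AddSubgroup.closure (wRels K))

theorem WG.mk_surjective : Function.Surjective (WG.mk K) :=
  QuotientAddGroup.mk'_surjective (AddSubgroup.closure (wRels K))

end WG

section cl
variable {K L : Type*} [Field K] [Field L]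

/-- Class of the one-dimensional form `a x ^ 2`; `0` if `a = 0`. -/
noncomputable def cl (a : K) : WG K :=
  open Classical in
  if h : a = 0 then 0 else
    WG.mk K (FreeAbelianGroup.of (Units.mk0 a h))

theorem cl_zero : cl (0 : K) = 0 := by simp [cl]

theorem cl_unit (a : Kˣ) : cl (a : K) = WG.mk K (FreeAbelianGroup.of a) := by
  have h : (a : K) ≠ 0 := a.ne_zero
  unfold cl
  rw [dif_neg h]
  congr 2
  ext
  rfl

theorem mk_rel {x : FreeAbelianGroup Kˣ} (hx : x ∈ wRels K) : WG.mk K x = 0 :=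
  (QuotientAddGroup.eq_zero_iff x).2 (AddSubgroup.subset_closure hx)

theorem cl_mul_sq (a : K) {b : K} (hb : b ≠ 0) : cl (a * b ^ 2) = cl a := by
  by_cases ha : a = 0
  · rw [ha, zero_mul]
  · have h := mk_rel (K := K) (x := FreeAbelianGroup.of (Units.mk0 a ha * Units.mk0 b hb ^ 2) -
      FreeAbelianGroup.of (Units.mk0 a ha)) (Or.inl ⟨_, _, rfl⟩)
    rw [map_sub, sub_eq_zero, ← cl_unit, ← cl_unit] at h
    simp only [Units.val_mul, Units.val_pow_eq_pow_val, Units.val_mk0] at h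
    exact h

theorem cl_add {a b : K} (ha : a ≠ 0) (hb : b ≠ 0) (hab : a + b ≠ 0) :
    cl a + cl b = cl (a + b) + cl (a * b * (a + b)) := by
  have h := mk_rel (K := K) (x := FreeAbelianGroup.of (Units.mk0 a ha) +
      FreeAbelianGroup.of (Units.mk0 b hb) - FreeAbelianGroup.of (Units.mk0 (a + b) hab) -
      FreeAbelianGroup.of (Units.mk0 a ha * Units.mk0 b hb * Units.mk0 (a + b) hab))
      (Or.inr (Or.inl ⟨_, _, _, by simp, rfl⟩))
  rw [map_sub, map_sub, map_add, ← cl_unit, ← cl_unit, ← cl_unit, ← cl_unit] at h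
  simp only [Units.val_mul, Units.val_mk0] at h
  rw [sub_sub, sub_eq_zero] at h
  exact h

theorem cl_one_neg : cl (1 : K) + cl (-1) = 0 := by
  have h := mk_rel (K := K) (x := FreeAbelianGroup.of 1 + FreeAbelianGroup.of (-1))
    (Or.inr (Or.inr rfl))
  rw [map_add, ← cl_unit, ← cl_unit] at h
  simp only [Units.val_one, Units.val_neg] at h
  exact h

/-- Induction principle. -/
theorem WG.induction {p : WG K → Prop} (x : WG K) (h0 : p 0) (h1 : ∀ a : K, a ≠ 0 → p (cl a))
    (h2 : ∀ x, p x → p (-x)) (h3 : ∀ x y, p x → p y → p (x + y)) : p x := by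
  obtain ⟨z, rfl⟩ := WG.mk_surjective K x
  induction z using FreeAbelianGroup.induction_on with
  | zero => rw [map_zero]; exact h0
  | of a =>
    have := h1 (a : K) a.ne_zero
    rwa [cl_unit] at this
  | neg a ih =>
    rw [map_neg]
    exact h2 _ ih
  | add x y hx hy =>
    rw [map_add]
    exact h3 _ _ hx hy

/-- Homomorphisms out of the Witt group. -/
noncomputable def WG.lift {A : Type*} [AddCommGroup A] (f : K → A)
    (h1 : ∀ a b : K, a ≠ 0 → b ≠ 0 → f (a * b ^ 2) = f a)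
    (h2 : ∀ a b : K, a ≠ 0 → b ≠ 0 → a + b ≠ 0 → f a + f b = f (a + b) + f (a * b * (a + b)))
    (h3 : f 1 + f (-1) = 0) : WG K →+ A :=
  QuotientAddGroup.lift (AddSubgroup.closure (wRels K))
    (FreeAbelianGroup.lift fun a : Kˣ => f (a : K)) (by
      rw [AddSubgroup.closure_le]
      rintro x (⟨a, b, rfl⟩ | ⟨a, b, c, hc, rfl⟩ | rfl)
      · simp [h1 _ _ a.ne_zero b.ne_zero]
      · have hab : (a : K) + b ≠ 0 := by rw [hc]; exact c.ne_zero
        have h := h2 _ _ a.ne_zero b.ne_zero hab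
        rw [hc] at h
        simp [h]
      · simpa using h3)

theorem WG.lift_cl {A : Type*} [AddCommGroup A] (f : K → A)
    (h1 : ∀ a b : K, a ≠ 0 → b ≠ 0 → f (a * b ^ 2) = f a)
    (h2 : ∀ a b : K, a ≠ 0 → b ≠ 0 → a + b ≠ 0 → f a + f b = f (a + b) + f (a * b * (a + b)))
    (h3 : f 1 + f (-1) = 0) {a : K} (ha : a ≠ 0) : WG.lift f h1 h2 h3 (cl a) = f a := by
  have : cl a = cl ((Units.mk0 a ha : Kˣ) : K) := by simp
  rw [this, cl_unit]
  have h5 : WG.lift f h1 h2 h3 (WG.mk K (FreeAbelianGroup.of (Units.mk0 a ha))) =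
      FreeAbelianGroup.lift (fun a : Kˣ => f (a : K)) (FreeAbelianGroup.of (Units.mk0 a ha)) := rfl
  rw [h5, FreeAbelianGroup.lift_apply_of]
  rfl

/-- Functoriality. -/
noncomputable def WG.map (φ : K →+* L) : WG K →+ WG L :=
  WG.lift (fun a => cl (φ a))
    (fun a b _ hb => by
      rw [map_mul, map_pow]
      exact cl_mul_sq _ (by simpa using hb))
    (fun a b ha hb hab => by
      rw [map_add, map_mul, map_mul, map_add]
      exact cl_add (by simpa using ha) (by simpa using hb) (by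
        rw [← map_add]; exact (map_ne_zero φ).2 hab))
    (by rw [map_one, map_neg, map_one]; exact cl_one_neg)

theorem WG.map_cl (φ : K →+* L) (a : K) : WG.map φ (cl a) = cl (φ a) := by
  by_cases ha : a = 0
  · rw [ha, cl_zero, map_zero, map_zero, cl_zero]
  · exact WG.lift_cl _ _ _ _ ha

theorem cl_neg (h2 : (2 : K) ≠ 0) (a : K) : cl a + cl (-a) = 0 := by
  by_cases ha : a = 0
  · rw [ha, neg_zero, cl_zero, add_zero]
  by_cases h1 : a + 1 = 0
  · have : a = -1 := by linear_combination h1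
    rw [this, neg_neg, add_comm]; exact cl_one_neg
  by_cases h1' : a - 1 = 0
  · have : a = 1 := by linear_combination h1'
    rw [this]; exact cl_one_neg
  have hx : (a + 1) / 2 ≠ 0 := div_ne_zero h1 h2
  have hy : (a - 1) / 2 ≠ 0 := div_ne_zero h1' h2
  have e : 1 * ((a + 1) / 2) ^ 2 + -1 * ((a - 1) / 2) ^ 2 = a := by field_simp; ring
  have h3 := cl_add (a := 1 * ((a + 1) / 2) ^ 2) (b := -1 * ((a - 1) / 2) ^ 2)
    (by rw [one_mul]; exact pow_ne_zero _ hx)
    (mul_ne_zero (by norm_num) (pow_ne_zero _ hy)) (by rw [e]; exact ha)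
  rw [e, cl_mul_sq _ hx, cl_mul_sq _ hy, cl_one_neg] at h3
  have e2 : 1 * ((a + 1) / 2) ^ 2 * (-1 * ((a - 1) / 2) ^ 2) * a =
      -a * ((a + 1) / 2 * ((a - 1) / 2)) ^ 2 := by ring
  rw [e2, cl_mul_sq _ (mul_ne_zero hx hy)] at h3
  exact h3.symm

end cl

section cls
variable {ι κ K L : Type*} [Fintype ι] [DecidableEq ι] [Fintype κ] [DecidableEq κ] [Field K]
  [Field L]

/-- The class of a symmetric invertible matrix in the Witt group: diagonalise it. -/
noncomputable def cls (A : Matrix ι ι K) : WG K :=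
  open Classical in
  if h : ∃ d : ι → K, (∀ i, d i ≠ 0) ∧ Cong A (diagonal d) then ∑ i, cl (h.choose i) else 0

end cls

end SpinWA
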