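import Mathlib
import Pool.Agent.H.MP_83e36b_nt.Statement
import Pool.Agent.H.MP_83e36b_nt.sp.WDef

/-!
# Trace forms: basic definitions

Places of `ℚ`, completions, companion matrices, power sums and Hankel matrices.
-/

open Matrix Polynomial

namespace SpinWA

/-- The places of `ℚ`: `none` is the real place. -/
abbrev Pl : Type := Option Nat.Primes

instance instFactPrimes (p : Nat.Primes) : Fact (p : ℕ).Prime := ⟨p.2⟩

/-- The completions of `ℚ`. -/
def Cpl : Pl → Type
  | none => ℝ
  | some p => ℚ_[(p : ℕ)]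

noncomputable instance instCpl : ∀ v : Pl, NontriviallyNormedField (Cpl v)
  | none => inferInstanceAs (NontriviallyNormedField ℝ)
  | some p => inferInstanceAs (NontriviallyNormedField ℚ_[(p : ℕ)])

instance instCplComplete : ∀ v : Pl, CompleteSpace (Cpl v)
  | none => inferInstanceAs (CompleteSpace ℝ)
  | some p => inferInstanceAs (CompleteSpace ℚ_[(p : ℕ)])

instance instCplCharZero : ∀ v : Pl, CharZero (Cpl v)
  | none => inferInstanceAs (CharZero ℝ)
  | some p => inferInstanceAs (CharZero ℚ_[(p : ℕ)])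

/-- The embedding of `ℚ` in a completion. -/
noncomputable def emb (v : Pl) : ℚ →+* Cpl v := Rat.castHom (Cpl v)

section
variable {R : Type*} [CommRing R] {n : ℕ}

/-- Companion matrix of `X ^ n + a_{n-1} X ^ (n-1) + ... + a_0`: multiplication by `X` modulo this
polynomial in the basis `1, X, ..., X ^ (n-1)`. -/
def cmp (a : Fin n → R) : Matrix (Fin n) (Fin n) R :=
  Matrix.of fun i j => if (j : ℕ) + 1 = n then - a i else if (i : ℕ) = j + 1 then 1 else 0

/-- Power sums of the zeros. -/
def psum (a : Fin n → R) (k : ℕ) : R := (cmp a ^ k).trace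

/-- The matrix of the trace form: entries `psum a (i + j)`. -/
def hk (a : Fin n → R) : Matrix (Fin n) (Fin n) R := Matrix.of fun i j => psum a (i + j)

/-- The matrix of the twisted trace form `Tr (x u v)`: entries `psum a (i + j + 1)`. -/
def hk1 (a : Fin n → R) : Matrix (Fin n) (Fin n) R := Matrix.of fun i j => psum a (i + j + 1)

/-- The matrix with the entries `(-1) ^ i * psum a (i + j)`. -/
def gamM (a : Fin n → R) : Matrix (Fin n) (Fin n) R :=
  Matrix.of fun i j => (-1) ^ (i : ℕ) * psum a (i + j)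

/-- The first unit vector. -/
def e0 (R : Type*) [CommRing R] (n : ℕ) : Fin n → R := fun i => if (i : ℕ) = 0 then 1 else 0

/-- Krylov matrix: the columns are `S ^ k e0`. -/
def kryM (S : Matrix (Fin n) (Fin n) R) : Matrix (Fin n) (Fin n) R :=
  Matrix.of fun i k => ((S ^ (k : ℕ)) *ᵥ e0 R n) i

/-- Coefficients of the characteristic polynomial. -/
noncomputable def cpc (M : Matrix (Fin n) (Fin n) R) : Fin n → R := fun i => M.charpoly.coeff i

/-- Coefficients of `s ^ e * g (s ^ 2)`, `n = 2 m + e`. -/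
def dbl {m : ℕ} (e : ℕ) (g : Fin m → R) : Fin (2 * m + e) → R := fun i =>
  if h : (i : ℕ) % 2 = e % 2 ∧ (i : ℕ) / 2 < m then g ⟨(i : ℕ) / 2, h.2⟩ else 0

/-- The strictly upper triangular part of the Calogero-Moser operator. -/
def cmN (a : Fin n → R) : Matrix (Fin n) (Fin n) R :=
  Matrix.of fun i j => (if (i : ℕ) + 1 = j then (j : R) else 0) -
    (if (i : ℕ) < j then psum a (j - 1 - i) else 0)

/-- The coefficients of the polynomial `X ^ n + a_{n-1} X ^ (n-1) + ... + a_0`. -/
def cf (a : Fin n → R) (i : ℕ) : R := if h : i < n then a ⟨i, h⟩ else if i = n then 1 else 0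

/-- The matrix of the reduction modulo `X ^ n + a_{n-1} X ^ (n-1) + ... + a_0` on the polynomials
of degree `≤ n`. -/
def redM (a : Fin n → R) : Matrix (Fin n) (Fin (n + 1)) R :=
  Matrix.of fun i j => if (j : ℕ) = n then - a i else if (i : ℕ) = j then 1 else 0

end

section
variable {K : Type*} [Field K] {n : ℕ}

/-- The Calogero-Moser operator of a polynomial `f`: it is `1/2 f''(C) f'(C)⁻¹ + cmN`, where `C` is
the companion matrix. In the coordinates given by the zeros `x i` of `f` it is the matrix with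
the entries `1 / (x i - x j)`. -/
noncomputable def cmS (a : Fin n → K) : Matrix (Fin n) (Fin n) K :=
  (1 / 2 : K) • (aeval (cmp a) (derivative (derivative (AnWA.monicPoly a))) *
    (aeval (cmp a) (derivative (AnWA.monicPoly a)))⁻¹) + cmN a

/-- The operator dual to `cmS`. -/
noncomputable def xop {m : ℕ} (e : ℕ) (g : Fin m → K) (y : Fin (m + e) → K) :
    Matrix (Fin (2 * m + e)) (Fin (2 * m + e)) K :=
  - cmS (dbl e g) + ∑ l, y l • cmp (dbl e g) ^ (2 * (l : ℕ))

/-- The operator of the second duality: `P = X * g`, `-4 S C S` for `S = cmS P`, `C = cmp P`, and a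
correction of rank one. -/
noncomputable def Wop (g : Fin n → K) (ρ : K) : Matrix (Fin (n + 1)) (Fin (n + 1)) K :=
  (-4 : K) • (cmS (Fin.cons 0 g : Fin (n + 1) → K) * cmp (Fin.cons 0 g : Fin (n + 1) → K) *
    cmS (Fin.cons 0 g : Fin (n + 1) → K)) -
    (ρ / 2) • vecMulVec (fun i : Fin (n + 1) => cf g i / cf g 0) (e0 K (n + 1))

/-- The matrix of the isometry of the second duality. -/
noncomputable def Aop (g : Fin n → K) : Matrix (Fin n ⊕ Fin 1) (Fin (n + 1)) K :=
  Matrix.of (Sum.elim (fun i => ((2 : K) • (redM g * cmS (Fin.cons 0 g : Fin (n + 1) → K))) i)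
    (fun _ => e0 K (n + 1)))

/-- The Witt class `<2> + <2 c g(0)> + 2 H_g - 2 l H1_g`. -/
noncomputable def coreF (c l : K) (g : Fin n → K) : WG K :=
  cl 2 + cl (2 * c * cf g 0) + cls ((2 : K) • hk g) + cls ((-2 * l) • hk1 g)

end

/-- The points of the variety of pairs `(f, B)`, `Bᵀ Q B` = matrix of the trace form of `f`,
`det B ≠ 0`, over a ring `R` with a map `φ` from `ℚ`. -/
def XPts {n : ℕ} (Q : Matrix (Fin n) (Fin n) ℚ) {R : Type*} [CommRing R] (φ : ℚ →+* R) :
    Set ((Fin n → R) × Matrix (Fin n) (Fin n) R) :=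
  {x | x.2ᵀ * Q.map φ * x.2 = hk x.1 ∧ IsUnit x.2.det}

end SpinWA
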