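import Pool.Agent.H.MP_83e36b_nt.sp.WCancel

/-!
# Diagonal forms of the same rank with the same class in the Witt group are congruent

PROOF. For multisets `s t` of units let `RR s t` mean that the diagonal forms with entries `s` and
`t` are congruent. `RR` is an equivalence relation, compatible with `+`, and cancellative (Witt
cancellation). The set `N` of all `F s - F t` (`F` the map to the free abelian group) such that
`RR (s + k H) (t + l H)` for some `k l`, `H = {1, -1}`, is a subgroup which contains the three kinds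
of relations of the Witt group. Counting ranks gives the result.
-/

open Matrix

namespace SpinWA

variable {K : Type*} [Field K]

/-- Two families with the same multiset of values differ by a bijection. -/
private theorem exists_equiv_of_map_eq {ι κ α : Type*} [Fintype ι] [Fintype κ] {f : ι → α}
    {g : κ → α} (h : (Finset.univ : Finset ι).val.map f = (Finset.univ : Finset κ).val.map g) :
    ∃ σ : ι ≃ κ, ∀ i, g (σ i) = f i := by
  classical
  have hc : ∀ x : α, Nonempty ({i // f i = x} ≃ {j // g j = x}) := by
    intro x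
    rw [← Fintype.card_eq]
    have h1 := congrArg (Multiset.count x) h
    rw [Multiset.count_map, Multiset.count_map] at h1
    rw [Fintype.card_subtype, Fintype.card_subtype]
    have e1 : ((Finset.univ : Finset ι).filter
        (fun i => f i = x)).card = ((Finset.univ : Finset ι).val.filter (fun i => x = f i)).card := by
      rw [Finset.card_def, Finset.filter_val]
      congr 1
      exact Multiset.filter_congr fun i _ => eq_comm
    have e2 : ((Finset.univ : Finset κ).filter
        (fun i => g i = x)).card = ((Finset.univ : Finset κ).val.filter (fun i => x = g i)).card := by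
      rw [Finset.card_def, Finset.filter_val]
      congr 1
      exact Multiset.filter_congr fun i _ => eq_comm
    rw [e1, e2]
    exact h1
  let σ : ι ≃ κ := (Equiv.sigmaFiberEquiv f).symm.trans
    ((Equiv.sigmaCongrRight fun x => Classical.choice (hc x)).trans (Equiv.sigmaFiberEquiv g))
  refine ⟨σ, fun i => ?_⟩
  exact ((Classical.choice (hc (f i))) ⟨i, rfl⟩).2

private theorem cong_perm {ι : Type*} [Fintype ι] [DecidableEq ι] (d : ι → K) (σ : Equiv.Perm ι) :
    Cong (diagonal (fun i => d (σ i))) (diagonal d) := by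
  refine ⟨(1 : Matrix ι ι K).submatrix σ id, ?_, ?_⟩
  · rw [Matrix.det_permute, Matrix.det_one, mul_one]
    rcases Int.units_eq_one_or (Equiv.Perm.sign σ) with h | h <;> rw [h] <;> simp
  · have e : diagonal (fun i => d (σ i)) = (diagonal d).submatrix σ σ := by
      rw [Matrix.submatrix_diagonal_equiv]
      rfl
    rw [e, Matrix.transpose_submatrix, Matrix.submatrix_mul_equiv, Matrix.submatrix_mul_equiv]
    simp

private theorem cong_of_map_eq {ι : Type*} [Fintype ι] [DecidableEq ι] {d e : ι → Kˣ}
    (h : (Finset.univ : Finset ι).val.map d = (Finset.univ : Finset ι).val.map e) :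
    Cong (diagonal fun i => (d i : K)) (diagonal fun i => (e i : K)) := by
  obtain ⟨σ, hσ⟩ := exists_equiv_of_map_eq h
  have := cong_perm (fun i => (e i : K)) σ
  simpa only [hσ] using this

/-- The diagonal forms with entries `s` and `t` are congruent. -/
private def RR (s t : Multiset Kˣ) : Prop :=
  ∃ (ι : Type) (_ : Fintype ι) (_ : DecidableEq ι) (d d' : ι → Kˣ),
    (Finset.univ : Finset ι).val.map d = s ∧ (Finset.univ : Finset ι).val.map d' = t ∧
      Cong (diagonal fun i => (d i : K)) (diagonal fun i => (d' i : K))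

private theorem RR.cong {s t : Multiset Kˣ} (h : RR s t) {κ : Type*} [Fintype κ] [DecidableEq κ]
    {f f' : κ → Kˣ} (hf : (Finset.univ : Finset κ).val.map f = s)
    (hf' : (Finset.univ : Finset κ).val.map f' = t) :
    Cong (diagonal fun i => (f i : K)) (diagonal fun i => (f' i : K)) := by
  obtain ⟨ι, _, _, d, d', rfl, rfl, hc⟩ := h
  obtain ⟨σ, hσ⟩ := exists_equiv_of_map_eq hf
  have h1 := hc.reindex σ
  rw [Matrix.submatrix_diagonal_equiv, Matrix.submatrix_diagonal_equiv] at h1
  have e1 : ((fun i => (d i : K)) ∘ σ) = fun i => (f i : K) := by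
    funext i
    simp [hσ]
  rw [e1] at h1
  refine h1.trans ?_
  refine cong_of_map_eq (d := fun i => d' (σ i)) ?_
  rw [hf']
  have := Multiset.map_univ_val_equiv σ
  rw [← this, Multiset.map_map]
  rfl

private theorem exists_fin (s : Multiset Kˣ) :
    ∃ d : Fin s.card → Kˣ, (Finset.univ : Finset (Fin s.card)).val.map d = s := by
  induction s using Quotient.inductionOn with
  | _ l =>
    refine ⟨fun i => l.get i, ?_⟩
    rw [Fin.univ_val_map]
    exact congrArg _ (List.ofFn_get l)

private theorem RR.refl (s : Multiset Kˣ) : RR s s := by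
  obtain ⟨d, hd⟩ := exists_fin s
  exact ⟨Fin s.card, inferInstance, inferInstance, d, d, hd, hd, Cong.refl _⟩

private theorem RR.symm {s t : Multiset Kˣ} (h : RR s t) : RR t s := by
  obtain ⟨ι, i1, i2, d, d', h1, h2, hc⟩ := h
  exact ⟨ι, i1, i2, d', d, h2, h1, hc.symm⟩

private theorem RR.card {s t : Multiset Kˣ} (h : RR s t) : s.card = t.card := by
  obtain ⟨ι, i1, i2, d, d', rfl, rfl, hc⟩ := h
  simp

private theorem RR.trans {s t u : Multiset Kˣ} (h : RR s t) (h' : RR t u) : RR s u := by
  obtain ⟨d, hd⟩ := exists_fin s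
  obtain ⟨e, he⟩ := exists_fin t
  obtain ⟨f, hf⟩ := exists_fin u
  have c1 := h.card
  have c2 := h'.card
  generalize hn : s.card = n at *
  generalize hm : t.card = m at *
  generalize hk : u.card = k at *
  subst c1
  subst c2
  exact ⟨Fin n, inferInstance, inferInstance, d, f, hd, hf, (h.cong hd he).trans (h'.cong he hf)⟩

private theorem RR.add {s t s' t' : Multiset Kˣ} (h : RR s t) (h' : RR s' t') :
    RR (s + s') (t + t') := by
  obtain ⟨ι, i1, i2, d, d', rfl, rfl, P, hP, hPd⟩ := h
  obtain ⟨κ, j1, j2, e, e', rfl, rfl, Q, hQ, hQe⟩ := h'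
  have key : ∀ (u : ι → Kˣ) (v : κ → Kˣ), (Finset.univ : Finset (ι ⊕ κ)).val.map (Sum.elim u v) =
      (Finset.univ : Finset ι).val.map u + (Finset.univ : Finset κ).val.map v := by
    intro u v
    have : (Finset.univ : Finset (ι ⊕ κ)).val = (Finset.univ : Finset ι).val.map Sum.inl +
        (Finset.univ : Finset κ).val.map Sum.inr := rfl
    rw [this, Multiset.map_add, Multiset.map_map, Multiset.map_map]
    rfl
  have key2 : ∀ (u : ι → Kˣ) (v : κ → Kˣ), (diagonal fun i => ((Sum.elim u v i : Kˣ) : K)) =
      fromBlocks (diagonal fun i => (u i : K)) 0 0 (diagonal fun i => (v i : K)) := by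
    intro u v
    rw [Matrix.fromBlocks_diagonal]
    congr 1
    funext i
    rcases i with i | i <;> rfl
  refine ⟨ι ⊕ κ, inferInstance, inferInstance, Sum.elim d e, Sum.elim d' e', key _ _, key _ _,
    fromBlocks P 0 0 Q, ?_, ?_⟩
  · rw [Matrix.det_fromBlocks_zero₂₁]
    exact mul_ne_zero hP hQ
  · rw [key2, key2, Matrix.fromBlocks_transpose, Matrix.fromBlocks_multiply,
      Matrix.fromBlocks_multiply]
    simp [hPd, hQe]

private theorem RR.cancel_one (h2 : (2 : K) ≠ 0) {a : Kˣ} {s t : Multiset Kˣ}
    (h : RR (a ::ₘ s) (a ::ₘ t)) : RR s t := by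
  obtain ⟨d, hd⟩ := exists_fin s
  obtain ⟨e, he⟩ := exists_fin t
  have c1 := h.card
  rw [Multiset.card_cons, Multiset.card_cons] at c1
  have c2 : s.card = t.card := by omega
  clear c1
  generalize hn : s.card = n at *
  generalize hm : t.card = m at *
  subst c2
  have key : ∀ (u : Fin n → Kˣ) (w : Multiset Kˣ), (Finset.univ : Finset (Fin n)).val.map u = w →
      (Finset.univ : Finset (Fin (n + 1))).val.map (Fin.cons a u : Fin (n + 1) → Kˣ) =
        a ::ₘ w := by
    intro u w hw
    rw [← hw, Fin.univ_val_map, Fin.univ_val_map, List.ofFn_cons]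
    rfl
  have h1 := h.cong (key d s hd) (key e t he)
  have key2 : ∀ u : Fin n → Kˣ, (fun i => ((Fin.cons a u : Fin (n + 1) → Kˣ) i : K)) =
      (Fin.cons (a : K) (fun i => (u i : K)) : Fin (n + 1) → K) := by
    intro u
    funext i
    refine Fin.cases ?_ (fun j => ?_) i <;> simp
  rw [key2, key2] at h1
  exact ⟨Fin n, inferInstance, inferInstance, d, e, hd, he, cong_cancel_diag h2 a.ne_zero h1⟩

private theorem RR.cancel (h2 : (2 : K) ≠ 0) {u s t : Multiset Kˣ}
    (h : RR (u + s) (u + t)) : RR s t := by
  induction u using Multiset.induction_on with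
  | empty => simpa using h
  | cons a u ih =>
    rw [Multiset.cons_add, Multiset.cons_add] at h
    exact ih (h.cancel_one h2)

private theorem RR.sq (a b : Kˣ) : RR {a * b ^ 2} {a} := by
  refine ⟨Unit, inferInstance, inferInstance, fun _ => a * b ^ 2, fun _ => a, rfl, rfl,
    diagonal fun _ => ((b⁻¹ : Kˣ) : K), ?_, ?_⟩
  · rw [Matrix.det_diagonal]
    simp
  · rw [Matrix.diagonal_transpose, Matrix.diagonal_mul_diagonal, Matrix.diagonal_mul_diagonal]
    congr 1
    funext _
    have := b.ne_zero
    push_cast
    field_simp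

private theorem RR.pair {a b c : Kˣ} (h : (a : K) + b = c) :
    RR ({a, b} : Multiset Kˣ) {c, a * b * c} := by
  refine ⟨Fin 2, inferInstance, inferInstance, ![a, b], ![c, a * b * c], ?_, ?_,
    !![1, -(b : K); 1, (a : K)], ?_, ?_⟩
  · rfl
  · rfl
  · rw [Matrix.det_fin_two_of]
    have := c.ne_zero
    intro h3
    apply this
    rw [← h]
    linear_combination h3
  · ext i j
    fin_cases i <;> fin_cases j <;>
      simp [Matrix.mul_apply, Fin.sum_univ_two, Matrix.diagonal, Matrix.transpose_apply] <;>
      first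
        | linear_combination h
        | (rw [← h]; ring)
        | ring

/-- The map to the free abelian group. -/
private noncomputable def FF (s : Multiset Kˣ) : FreeAbelianGroup Kˣ :=
  (s.map FreeAbelianGroup.of).sum

private theorem FF_add (s t : Multiset Kˣ) : FF (s + t) = FF s + FF t := by
  simp [FF]

private theorem FF_inj {s t : Multiset Kˣ} (h : FF s = FF t) : s = t := by
  classical
  ext x
  let f : FreeAbelianGroup Kˣ →+ ℤ := FreeAbelianGroup.lift (fun a : Kˣ => if a = x then 1 else 0)
  have key : ∀ u : Multiset Kˣ, f (FF u) = (u.count x : ℤ) := by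
    intro u
    induction u using Multiset.induction_on with
    | empty => simp [FF]
    | cons a u ih =>
      have : FF (a ::ₘ u) = FreeAbelianGroup.of a + FF u := by simp [FF]
      rw [this, map_add, ih]
      have e : f (FreeAbelianGroup.of a) = if a = x then 1 else 0 :=
        FreeAbelianGroup.lift_apply_of _ _
      rw [e, Multiset.count_cons]
      by_cases hx : a = x
      · subst hx
        simp
        ring
      · rw [if_neg hx, if_neg (fun hh => hx hh.symm)]
        simp
  have h1 := congrArg f h
  rw [key, key] at h1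
  exact_mod_cast h1

/-- The hyperbolic plane. -/
private def HH : Multiset Kˣ := {1, -1}

/-- The subgroup of stably trivial differences. -/
private noncomputable def NN : AddSubgroup (FreeAbelianGroup Kˣ) where
  carrier := {z | ∃ (s t : Multiset Kˣ) (k l : ℕ), z = FF s - FF t ∧
    RR (k • HH + s) (l • HH + t)}
  zero_mem' := ⟨0, 0, 0, 0, by simp, RR.refl _⟩
  add_mem' := by
    rintro _ _ ⟨s, t, k, l, rfl, h⟩ ⟨s', t', k', l', rfl, h'⟩
    refine ⟨s + s', t + t', k + k', l + l', ?_, ?_⟩
    · rw [FF_add, FF_add]
      abel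
    · have h3 := h.add h'
      have e : ∀ (m m' : ℕ) (v v' : Multiset Kˣ), m • HH + v + (m' • HH + v') =
          (m + m') • HH + (v + v') := by
        intro m m' v v'
        rw [add_add_add_comm, add_nsmul]
      rw [e, e] at h3
      exact h3
  neg_mem' := by
    rintro _ ⟨s, t, k, l, rfl, h⟩
    exact ⟨t, s, l, k, by abel, h.symm⟩

private theorem closure_le_NN : AddSubgroup.closure (wRels K) ≤ NN := by
  rw [AddSubgroup.closure_le]
  rintro x (⟨a, b, rfl⟩ | ⟨a, b, c, hc, rfl⟩ | rfl)
  · refine ⟨{a * b ^ 2}, {a}, 0, 0, ?_, ?_⟩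
    · simp [FF]
    · rw [zero_nsmul, zero_add, zero_add]
      exact RR.sq a b
  · refine ⟨{a, b}, {c, a * b * c}, 0, 0, ?_, ?_⟩
    · simp [FF, sub_sub]
    · rw [zero_nsmul, zero_add, zero_add]
      exact RR.pair hc
  · refine ⟨{1, -1}, 0, 0, 1, ?_, ?_⟩
    · simp [FF]
    · rw [zero_nsmul, zero_add, one_nsmul, add_zero]
      exact RR.refl _

private theorem FF_univ {n : ℕ} (u : Fin n → Kˣ) :
    FF ((Finset.univ : Finset (Fin n)).val.map u) = ∑ i, FreeAbelianGroup.of (u i) := by
  rw [FF, Multiset.map_map]
  rfl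

/-- Equality in the Witt group implies congruence, in equal rank. -/
theorem diag_inj (h2 : (2 : K) ≠ 0) {n : ℕ} {d d' : Fin n → K} (hd : ∀ i, d i ≠ 0)
    (hd' : ∀ i, d' i ≠ 0) (h : ∑ i, cl (d i) = ∑ i, cl (d' i)) :
    Cong (diagonal d) (diagonal d') := by
  let u : Fin n → Kˣ := fun i => Units.mk0 (d i) (hd i)
  let u' : Fin n → Kˣ := fun i => Units.mk0 (d' i) (hd' i)
  have hu : (fun i => ((u i : Kˣ) : K)) = d := rfl
  have hu' : (fun i => ((u' i : Kˣ) : K)) = d' := rfl
  set D : Multiset Kˣ := (Finset.univ : Finset (Fin n)).val.map u with hD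
  set D' : Multiset Kˣ := (Finset.univ : Finset (Fin n)).val.map u' with hD'
  have h3 : FF D - FF D' ∈ AddSubgroup.closure (wRels K) := by
    rw [← QuotientAddGroup.eq_zero_iff]
    change WG.mk K (FF D - FF D') = 0
    rw [hD, hD', FF_univ, FF_univ, map_sub, map_sum, map_sum, sub_eq_zero]
    have e1 : ∀ i, WG.mk K (FreeAbelianGroup.of (u i)) = cl (d i) := fun i => (cl_unit (u i)).symm
    have e2 : ∀ i, WG.mk K (FreeAbelianGroup.of (u' i)) = cl (d' i) :=
      fun i => (cl_unit (u' i)).symm
    simp only [e1, e2]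
    exact h
  obtain ⟨s, t, k, l, h4, h5⟩ := closure_le_NN h3
  have h6 : D + t = s + D' := by
    apply FF_inj
    rw [FF_add, FF_add]
    exact sub_eq_sub_iff_add_eq_add.1 h4
  have cD : D.card = n := by simp [hD]
  have cD' : D'.card = n := by simp [hD']
  have h7 := congrArg Multiset.card h6
  rw [Multiset.card_add, Multiset.card_add, cD, cD'] at h7
  have h8 := h5.card
  have cH : (HH : Multiset Kˣ).card = 2 := rfl
  rw [Multiset.card_add, Multiset.card_add, Multiset.card_nsmul, Multiset.card_nsmul, cH] at h8
  have h9 : k = l := by omega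
  subst h9
  have h10 : RR s t := h5.cancel h2
  have h11 : RR (t + D) (t + D') := by
    have e : t + D = s + D' := by rw [← h6, add_comm]
    rw [e]
    exact h10.add (RR.refl D')
  have h12 : RR D D' := h11.cancel h2
  exact h12.cong rfl rfl

end SpinWA
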