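import Pool.Agent.H.MP_83e36b_nt.sp.WChain
import Pool.Agent.H.MP_83e36b_nt.sp.WInj

/-!
# The class of a symmetric invertible matrix in the Witt group

PROOF. `cls_eq_sum`: the definition of `cls` chooses some diagonalisation `d0`; compare by `diag_wd`
after reindexing `ι ≃ Fin n` (`Fintype.equivFin`, `Cong.reindex`,
`Matrix.submatrix_diagonal_equiv`, `Equiv.sum_comp`). The rest follows from `cls_eq_sum`,
`exists_diag` and `diag_inj`. `cls_schur`: with `v` the last column, `w` the corner,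
`P = [[1, -A1⁻¹ v],[0, 1]]` congruence to `fromBlocks A1 0 0 s`, `s = det A / det A1`,
`cl s = cl (det A * det A1)` (`cl_mul_sq`).
-/

open Matrix

namespace SpinWA

variable {ι κ K L : Type*} [Fintype ι] [DecidableEq ι] [Fintype κ] [DecidableEq κ] [Field K]
  [Field L]

theorem cls_eq_sum (h2 : (2 : K) ≠ 0) {A : Matrix ι ι K} {d : ι → K} (hd : ∀ i, d i ≠ 0)
    (h : Cong A (diagonal d)) : cls A = ∑ i, cl (d i) := by
  classical
  have hex : ∃ d : ι → K, (∀ i, d i ≠ 0) ∧ Cong A (diagonal d) := ⟨d, hd, h⟩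
  have hcls : cls A = ∑ i, cl (hex.choose i) := by
    unfold cls
    rw [dif_pos hex]
  rw [hcls]
  obtain ⟨hc1, hc2⟩ := hex.choose_spec
  generalize hex.choose = d0 at hc1 hc2
  have h1 : Cong (diagonal d0) (diagonal d) := hc2.symm.trans h
  have h2' := h1.reindex (Fintype.equivFin ι).symm
  rw [Matrix.submatrix_diagonal_equiv, Matrix.submatrix_diagonal_equiv] at h2'
  have h3 := diag_wd h2 (d := d0 ∘ (Fintype.equivFin ι).symm)
    (d' := d ∘ (Fintype.equivFin ι).symm) (fun i => hc1 _) (fun i => hd _) h2'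
  simp only [Function.comp_apply] at h3
  rw [Equiv.sum_comp (Fintype.equivFin ι).symm (fun i => cl (d0 i)),
    Equiv.sum_comp (Fintype.equivFin ι).symm (fun i => cl (d i))] at h3
  exact h3

theorem cls_diagonal (h2 : (2 : K) ≠ 0) {d : ι → K} (hd : ∀ i, d i ≠ 0) :
    cls (diagonal d) = ∑ i, cl (d i) :=
  cls_eq_sum h2 hd (Cong.refl _)

theorem cls_cong (h2 : (2 : K) ≠ 0) {A B : Matrix ι ι K} (hA : Aᵀ = A) (hd : A.det ≠ 0)
    (h : Cong A B) : cls A = cls B := by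
  obtain ⟨d, hd1, hd2⟩ := exists_diag h2 hA hd
  rw [cls_eq_sum h2 hd1 hd2, cls_eq_sum h2 hd1 (h.symm.trans hd2)]

theorem cong_of_cls (h2 : (2 : K) ≠ 0) {A B : Matrix ι ι K} (hA : Aᵀ = A) (hdA : A.det ≠ 0)
    (hB : Bᵀ = B) (hdB : B.det ≠ 0) (h : cls A = cls B) : Cong A B := by
  obtain ⟨d, hd1, hd2⟩ := exists_diag h2 hA hdA
  obtain ⟨d', hd1', hd2'⟩ := exists_diag h2 hB hdB
  rw [cls_eq_sum h2 hd1 hd2, cls_eq_sum h2 hd1' hd2'] at h
  rw [← Equiv.sum_comp (Fintype.equivFin ι).symm (fun i => cl (d i)),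
    ← Equiv.sum_comp (Fintype.equivFin ι).symm (fun i => cl (d' i))] at h
  have h3 := diag_inj h2 (d := d ∘ (Fintype.equivFin ι).symm)
    (d' := d' ∘ (Fintype.equivFin ι).symm) (fun i => hd1 _) (fun i => hd1' _) h
  have h4 := h3.reindex (Fintype.equivFin ι)
  rw [Matrix.submatrix_diagonal_equiv, Matrix.submatrix_diagonal_equiv] at h4
  have e1 : (d ∘ (Fintype.equivFin ι).symm) ∘ (Fintype.equivFin ι) = d := by
    funext i; simp
  have e2 : (d' ∘ (Fintype.equivFin ι).symm) ∘ (Fintype.equivFin ι) = d' := by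
    funext i; simp
  rw [e1, e2] at h4
  exact (hd2.trans h4).trans hd2'.symm

theorem cls_fromBlocks (h2 : (2 : K) ≠ 0) {A : Matrix ι ι K} {B : Matrix κ κ K} (hA : Aᵀ = A)
    (hdA : A.det ≠ 0) (hB : Bᵀ = B) (hdB : B.det ≠ 0) :
    cls (fromBlocks A 0 0 B) = cls A + cls B := by
  obtain ⟨d, hd1, P, hP, hPA⟩ := exists_diag h2 hA hdA
  obtain ⟨d', hd1', R, hR, hRB⟩ := exists_diag h2 hB hdB
  have h3 : Cong (fromBlocks A 0 0 B) (diagonal (Sum.elim d d')) := by
    refine ⟨fromBlocks P 0 0 R, ?_, ?_⟩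
    · rw [Matrix.det_fromBlocks_zero₂₁]
      exact mul_ne_zero hP hR
    · rw [Matrix.fromBlocks_transpose, Matrix.fromBlocks_multiply, Matrix.fromBlocks_multiply,
        ← Matrix.fromBlocks_diagonal, ← hPA, ← hRB]
      simp
  rw [cls_eq_sum h2 hd1 ⟨P, hP, hPA⟩, cls_eq_sum h2 hd1' ⟨R, hR, hRB⟩,
    cls_eq_sum h2 (d := Sum.elim d d') (by rintro (i | i); exacts [hd1 i, hd1' i]) h3,
    Fintype.sum_sum_type]
  rfl

theorem cls_submatrix (h2 : (2 : K) ≠ 0) {A : Matrix ι ι K} (hA : Aᵀ = A) (hd : A.det ≠ 0)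
    (e : κ ≃ ι) : cls (A.submatrix e e) = cls A := by
  obtain ⟨d, hd1, hd2⟩ := exists_diag h2 hA hd
  have h3 := hd2.reindex e
  rw [Matrix.submatrix_diagonal_equiv] at h3
  rw [cls_eq_sum h2 hd1 hd2, cls_eq_sum h2 (d := d ∘ e) (fun i => hd1 _) h3]
  exact Equiv.sum_comp e (fun i => cl (d i))

theorem map_cls (h2 : (2 : K) ≠ 0) (h2' : (2 : L) ≠ 0) (φ : K →+* L) {A : Matrix ι ι K}
    (hA : Aᵀ = A) (hd : A.det ≠ 0) : WG.map φ (cls A) = cls (A.map φ) := by
  obtain ⟨d, hd1, hd2⟩ := exists_diag h2 hA hd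
  have h3 := hd2.map φ
  rw [Matrix.diagonal_map (map_zero φ)] at h3
  rw [cls_eq_sum h2 hd1 hd2, cls_eq_sum h2' (d := fun i => φ (d i))
    (fun i => (map_ne_zero φ).2 (hd1 i)) h3, map_sum]
  exact Finset.sum_congr rfl (fun i _ => WG.map_cl φ (d i))

theorem cls_smul_sq (h2 : (2 : K) ≠ 0) {A : Matrix ι ι K} (hA : Aᵀ = A) (hd : A.det ≠ 0) {c : K}
    (hc : c ≠ 0) : cls (c ^ 2 • A) = cls A := by
  symm
  apply cls_cong h2 hA hd
  refine ⟨c • 1, ?_, ?_⟩
  · rw [Matrix.det_smul, Matrix.det_one, mul_one]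
    exact pow_ne_zero _ hc
  · rw [Matrix.transpose_smul, Matrix.transpose_one, Matrix.smul_mul, Matrix.one_mul,
      Matrix.mul_smul, Matrix.mul_one, smul_smul, sq]

/-- Splitting off the last variable. -/
theorem cls_schur (h2 : (2 : K) ≠ 0) {n : ℕ} {A : Matrix (Fin (n + 1)) (Fin (n + 1)) K}
    (hA : Aᵀ = A) (hd : A.det ≠ 0)
    (hd1 : (A.submatrix (Fin.castSucc : Fin n → Fin (n + 1)) Fin.castSucc).det ≠ 0) :
    cls A = cls (A.submatrix (Fin.castSucc : Fin n → Fin (n + 1)) Fin.castSucc) +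
      cl (A.det * (A.submatrix (Fin.castSucc : Fin n → Fin (n + 1)) Fin.castSucc).det) := by
  classical
  set A1 := A.submatrix (Fin.castSucc : Fin n → Fin (n + 1)) Fin.castSucc with hA1
  set V : Matrix (Fin n) (Fin 1) K := fun i _ => A i.castSucc (Fin.last n) with hV
  set W : Matrix (Fin 1) (Fin 1) K := fun _ _ => A (Fin.last n) (Fin.last n) with hW
  have hA1s : A1ᵀ = A1 := by
    ext i j
    exact congrFun (congrFun hA i.castSucc) j.castSucc
  have hlast : ∀ j : Fin 1, (finSumFinEquiv (Sum.inr j : Fin n ⊕ Fin 1)) = Fin.last n := by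
    intro j
    apply Fin.ext
    have := j.isLt
    simp
  have hcast : ∀ i : Fin n, (finSumFinEquiv (Sum.inl i : Fin n ⊕ Fin 1)) = i.castSucc := by
    intro i
    apply Fin.ext
    simp
  have hblk : A.submatrix (finSumFinEquiv : Fin n ⊕ Fin 1 ≃ Fin (n + 1)) finSumFinEquiv
      = fromBlocks A1 V Vᵀ W := by
    ext i j
    rcases i with i | i <;> rcases j with j | j
    · rw [Matrix.submatrix_apply, hcast, hcast]; rfl
    · rw [Matrix.submatrix_apply, hcast, hlast]; rfl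
    · rw [Matrix.submatrix_apply, hcast, hlast]
      exact (congrFun (congrFun hA (Fin.last n)) j.castSucc).symm
    · rw [Matrix.submatrix_apply, hlast, hlast]; rfl
  have hu : IsUnit A1.det := isUnit_iff_ne_zero.2 hd1
  have hAi : A1 * A1⁻¹ = 1 := Matrix.mul_nonsing_inv A1 hu
  have hiA : A1⁻¹ * A1 = 1 := Matrix.nonsing_inv_mul A1 hu
  have hAis : (A1⁻¹)ᵀ = A1⁻¹ := by rw [Matrix.transpose_nonsing_inv, hA1s]
  set S : Matrix (Fin 1) (Fin 1) K := W - Vᵀ * A1⁻¹ * V with hS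
  set P : Matrix (Fin n ⊕ Fin 1) (Fin n ⊕ Fin 1) K := fromBlocks 1 (-(A1⁻¹ * V)) 0 1 with hP
  have hPd : P.det = 1 := by
    rw [hP, Matrix.det_fromBlocks_zero₂₁, Matrix.det_one, Matrix.det_one, mul_one]
  have hPA : Pᵀ * fromBlocks A1 V Vᵀ W * P = fromBlocks A1 0 0 S := by
    have e1 : (-(A1⁻¹ * V))ᵀ = -(Vᵀ * A1⁻¹) := by
      rw [Matrix.transpose_neg, Matrix.transpose_mul, hAis]
    have e2 : Vᵀ * A1⁻¹ * A1 = Vᵀ := by rw [Matrix.mul_assoc, hiA, Matrix.mul_one]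
    have e3 : A1 * (A1⁻¹ * V) = V := by rw [← Matrix.mul_assoc, hAi, Matrix.one_mul]
    rw [hP, Matrix.fromBlocks_transpose, Matrix.fromBlocks_multiply, Matrix.fromBlocks_multiply, e1]
    simp only [Matrix.transpose_one, Matrix.transpose_zero, Matrix.one_mul, Matrix.zero_mul,
      Matrix.mul_one, Matrix.mul_zero, add_zero, Matrix.neg_mul, Matrix.mul_neg, e2, e3]
    congr 1
    · rw [neg_add_cancel]
    · rw [neg_add_cancel]
    · rw [neg_add_cancel, Matrix.zero_mul, neg_zero, zero_add, hS, neg_add_eq_sub]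
  have hcong : Cong (fromBlocks A1 V Vᵀ W) (fromBlocks A1 0 0 S) :=
    ⟨P, by rw [hPd]; exact one_ne_zero, hPA⟩
  have hdet : A.det = A1.det * S.det := by
    have h1 := congrArg Matrix.det hPA
    rw [Matrix.det_mul, Matrix.det_mul, Matrix.det_transpose, hPd, one_mul, mul_one,
      Matrix.det_fromBlocks_zero₂₁, ← hblk, Matrix.det_submatrix_equiv_self] at h1
    exact h1
  have hS0 : S.det ≠ 0 := by
    intro h0
    rw [h0, mul_zero] at hdet
    exact hd hdet
  have hSs : Sᵀ = S := by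
    ext i j
    rw [Matrix.transpose_apply, Subsingleton.elim i j]
  have hSd : S = diagonal (fun _ : Fin 1 => S.det) := by
    ext i j
    rw [Matrix.det_fin_one, Subsingleton.elim i 0, Subsingleton.elim j 0, Matrix.diagonal_apply_eq]
  have hAe : cls A = cls (fromBlocks A1 V Vᵀ W) := by
    rw [← hblk]
    exact (cls_submatrix h2 hA hd finSumFinEquiv).symm
  have hbt : (fromBlocks A1 V Vᵀ W)ᵀ = fromBlocks A1 V Vᵀ W := by
    rw [← hblk, Matrix.transpose_submatrix, hA]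
  have hbd : (fromBlocks A1 V Vᵀ W).det ≠ 0 := by
    rw [← hblk, Matrix.det_submatrix_equiv_self]
    exact hd
  rw [hAe, cls_cong h2 hbt hbd hcong, cls_fromBlocks h2 hA1s hd1 hSs hS0, hdet]
  congr 1
  have e4 : A1.det * S.det * A1.det = S.det * A1.det ^ 2 := by ring
  rw [e4, cl_mul_sq _ hd1]
  conv_lhs => rw [hSd]
  rw [cls_diagonal h2 (fun _ => hS0)]
  simp

end SpinWA
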