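import Pool.Agent.H.MP_83e36b_nt.sp.PDefs
import Pool.Agent.H.MP_83e36b_nt.sp.WApi

/-!
# Compatibility with ring homomorphisms

PROOF. Unfold the definitions; `Matrix.map_pow` / `map_pow φ.mapMatrix`, `RingHom.map_trace` or
`map_sum`, `Matrix.charpoly_map`, `Polynomial.coeff_map`, `RingHom.map_det`,
`AnWA.monicPoly_map`, `Polynomial.derivative_map`, `Matrix.map_mul`. For `cmS_map`: `aeval` of a
matrix over `R` commutes with `mapMatrix` (`Polynomial.aeval_def`, `Polynomial.hom_eval₂`, or by
induction on the polynomial), and `(A⁻¹).map φ = (A.map φ)⁻¹` for matrices over fields (e.g.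
by `Matrix.inv_def`, `RingHom.map_adjugate` and `map_inv₀`). `WG.map_map`: check on `cl a` by
`WG.induction`. `coreF_map`: `map_cls` for `2 • hk g`, `(-2 l) • hk1 g`, both symmetric with
nonzero determinant (hypotheses).
-/

open Matrix Polynomial

namespace SpinWA

section
variable {R R' : Type*} [CommRing R] [CommRing R'] (φ : R →+* R') {n : ℕ}

theorem cmp_map (a : Fin n → R) : (cmp a).map φ = cmp fun i => φ (a i) := by
  ext i j
  simp only [cmp, Matrix.map_apply, Matrix.of_apply]
  split_ifs <;> simp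

theorem psum_map (a : Fin n → R) (k : ℕ) : φ (psum a k) = psum (fun i => φ (a i)) k := by
  unfold psum
  rw [← cmp_map φ a, ← RingHom.mapMatrix_apply, ← map_pow, RingHom.mapMatrix_apply]
  exact AddMonoidHom.map_trace φ.toAddMonoidHom _

theorem hk_map (a : Fin n → R) : (hk a).map φ = hk fun i => φ (a i) := by
  ext i j
  simp only [hk, Matrix.map_apply, Matrix.of_apply, psum_map φ]

theorem hk1_map (a : Fin n → R) : (hk1 a).map φ = hk1 fun i => φ (a i) := by
  ext i j
  simp only [hk1, Matrix.map_apply, Matrix.of_apply, psum_map φ]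

theorem hk_det_map (a : Fin n → R) : φ (hk a).det = (hk fun i => φ (a i)).det := by
  rw [RingHom.map_det, RingHom.mapMatrix_apply, hk_map]

theorem hk1_det_map (a : Fin n → R) : φ (hk1 a).det = (hk1 fun i => φ (a i)).det := by
  rw [RingHom.map_det, RingHom.mapMatrix_apply, hk1_map]

theorem gamM_map (a : Fin n → R) : (gamM a).map φ = gamM fun i => φ (a i) := by
  ext i j
  simp only [gamM, Matrix.map_apply, Matrix.of_apply, map_mul, map_pow, map_neg, map_one,
    psum_map φ]

theorem e0_map (i : Fin n) : φ (e0 R n i) = e0 R' n i := by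
  unfold e0
  split_ifs <;> simp

theorem kryM_map (M : Matrix (Fin n) (Fin n) R) : (kryM M).map φ = kryM (M.map φ) := by
  ext i k
  simp only [kryM, Matrix.map_apply, Matrix.of_apply]
  rw [RingHom.map_mulVec]
  rw [← RingHom.mapMatrix_apply, ← RingHom.mapMatrix_apply, map_pow]
  congr 2
  funext j
  exact e0_map φ j

theorem kryM_det_map (M : Matrix (Fin n) (Fin n) R) : φ (kryM M).det = (kryM (M.map φ)).det := by
  rw [RingHom.map_det, RingHom.mapMatrix_apply, kryM_map]

theorem cpc_map (M : Matrix (Fin n) (Fin n) R) (i : Fin n) : φ (cpc M i) = cpc (M.map φ) i := by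
  unfold cpc
  rw [Matrix.charpoly_map, Polynomial.coeff_map]

theorem dbl_map (e : ℕ) (g : Fin n → R) (i : Fin (2 * n + e)) :
    φ (dbl e g i) = dbl e (fun i => φ (g i)) i := by
  unfold dbl
  split_ifs <;> simp

theorem cmN_map (a : Fin n → R) : (cmN a).map φ = cmN fun i => φ (a i) := by
  ext i j
  simp only [cmN, Matrix.map_apply, Matrix.of_apply, map_sub]
  split_ifs <;> simp [psum_map φ]

theorem cf_map (a : Fin n → R) (i : ℕ) : φ (cf a i) = cf (fun i => φ (a i)) i := by
  unfold cf
  split_ifs <;> simp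

theorem redM_map (a : Fin n → R) : (redM a).map φ = redM fun i => φ (a i) := by
  ext i j
  simp only [redM, Matrix.map_apply, Matrix.of_apply]
  split_ifs <;> simp

end

section
variable {K L : Type*} [Field K] [Field L] (φ : K →+* L) {n : ℕ}

private theorem PMap_smul {m m' : Type*} (c : K) (A : Matrix m m' K) :
    (c • A).map φ = φ c • A.map φ := by
  ext i j
  simp only [Matrix.map_apply, Matrix.smul_apply, smul_eq_mul, map_mul]

theorem cmS_map (a : Fin n → K) : (cmS a).map φ = cmS fun i => φ (a i) := by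
  have h1 : ∀ p : K[X], (aeval (cmp a) p).map φ
      = aeval (cmp fun i => φ (a i)) (p.map φ) := by
    intro p
    rw [← cmp_map φ a, ← RingHom.mapMatrix_apply, Polynomial.aeval_def, Polynomial.aeval_def,
      Polynomial.hom_eval₂, Polynomial.eval₂_map]
    congr 1
    ext x i j
    simp only [RingHom.comp_apply, RingHom.mapMatrix_apply, Matrix.map_apply,
      Matrix.algebraMap_matrix_apply]
    split_ifs <;> simp
  have h2 : ∀ A : Matrix (Fin n) (Fin n) K, (A⁻¹).map φ = (A.map φ)⁻¹ := by
    intro A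
    rw [Matrix.inv_def, Matrix.inv_def]
    ext i j
    have h3 : (A.map φ).adjugate = A.adjugate.map φ := by
      rw [← RingHom.mapMatrix_apply, ← RingHom.mapMatrix_apply, RingHom.map_adjugate]
    have h4 : (A.map φ).det = φ A.det := by
      rw [RingHom.map_det, RingHom.mapMatrix_apply]
    rw [h3, h4]
    simp only [Matrix.map_apply, Matrix.smul_apply, smul_eq_mul, map_mul, Ring.inverse_eq_inv',
      map_inv₀]
  unfold cmS
  rw [Matrix.map_add φ (map_add φ), cmN_map]
  congr 1
  rw [PMap_smul φ]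
  rw [Matrix.map_mul, h2, h1, h1, AnWA.monicPoly_map, Polynomial.derivative_map,
    Polynomial.derivative_map]
  congr 1
  rw [map_div₀, map_one, show φ 2 = 2 from map_ofNat φ 2]

theorem xop_map (e : ℕ) (g : Fin n → K) (y : Fin (n + e) → K) :
    (xop e g y).map φ = xop e (fun i => φ (g i)) fun i => φ (y i) := by
  unfold xop
  rw [Matrix.map_add φ (map_add φ)]
  have hd : (fun i => φ (dbl e g i)) = dbl e (fun i => φ (g i)) := by
    funext i
    exact dbl_map φ e g i
  congr 1
  · rw [Matrix.map_neg φ (map_neg φ), cmS_map, hd]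
  · have h1 : ∀ A : Matrix (Fin (2 * n + e)) (Fin (2 * n + e)) K, A.map φ = φ.mapMatrix A :=
      fun A => rfl
    rw [h1, map_sum]
    refine Finset.sum_congr rfl fun l _ => ?_
    rw [← h1, PMap_smul φ, h1, map_pow, ← h1, cmp_map, hd]

theorem Wop_map (g : Fin n → K) (ρ : K) :
    (Wop g ρ).map φ = Wop (fun i => φ (g i)) (φ ρ) := by
  have hc : (fun i => φ ((Fin.cons 0 g : Fin (n + 1) → K) i))
      = (Fin.cons 0 (fun i => φ (g i)) : Fin (n + 1) → L) := by
    funext i
    refine Fin.cases ?_ (fun i => ?_) i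
    · simp
    · simp
  unfold Wop
  rw [Matrix.map_sub φ (map_sub φ), PMap_smul φ,
    PMap_smul φ, Matrix.map_mul, Matrix.map_mul, cmS_map, cmp_map, hc]
  congr 1
  · rw [map_neg, show φ 4 = 4 from map_ofNat φ 4]
  · congr 1
    · rw [map_div₀, show φ 2 = 2 from map_ofNat φ 2]
    · ext i j
      simp only [Matrix.map_apply, Matrix.vecMulVec_apply, map_mul, map_div₀, cf_map φ, e0_map φ]

theorem Aop_map (g : Fin n → K) : (Aop g).map φ = Aop fun i => φ (g i) := by
  have hc : (fun i => φ ((Fin.cons 0 g : Fin (n + 1) → K) i))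
      = (Fin.cons 0 (fun i => φ (g i)) : Fin (n + 1) → L) := by
    funext i
    refine Fin.cases ?_ (fun i => ?_) i
    · simp
    · simp
  ext i j
  rcases i with i | i
  · have h : ((2 : K) • (redM g * cmS (Fin.cons 0 g : Fin (n + 1) → K))).map φ
        = (2 : L) • (redM (fun i => φ (g i)) *
          cmS (Fin.cons 0 (fun i => φ (g i)) : Fin (n + 1) → L)) := by
      rw [PMap_smul φ, Matrix.map_mul, cmS_map, redM_map, hc, show φ 2 = 2 from map_ofNat φ 2]
    exact congrFun (congrFun h i) j
  · simp only [Aop, Matrix.map_apply, Matrix.of_apply, Sum.elim_inr]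
    exact e0_map φ j

theorem WG.map_map {K' : Type*} [Field K'] (ψ : L →+* K') (x : WG K) :
    WG.map ψ (WG.map φ x) = WG.map (ψ.comp φ) x := by
  induction x using WG.induction with
  | h0 => rw [map_zero, map_zero, map_zero]
  | h1 a ha => rw [WG.map_cl, WG.map_cl, WG.map_cl, RingHom.comp_apply]
  | h2 x hx => rw [map_neg, map_neg, map_neg, hx]
  | h3 x y hx hy => rw [map_add, map_add, map_add, hx, hy]

theorem coreF_map (h2 : (2 : K) ≠ 0) (h2' : (2 : L) ≠ 0) (c l : K) (g : Fin n → K)
    (hd : (hk g).det ≠ 0) (hd1 : (hk1 g).det ≠ 0) (hl : l ≠ 0) :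
    WG.map φ (coreF c l g) = coreF (φ c) (φ l) fun i => φ (g i) := by
  have hs : (hk g)ᵀ = hk g := by
    ext i j
    simp only [hk, Matrix.transpose_apply, Matrix.of_apply]
    rw [add_comm]
  have hs1 : (hk1 g)ᵀ = hk1 g := by
    ext i j
    simp only [hk1, Matrix.transpose_apply, Matrix.of_apply]
    rw [add_comm (j : ℕ)]
  unfold coreF
  rw [map_add, map_add, map_add, WG.map_cl, WG.map_cl, map_cls h2 h2', map_cls h2 h2']
  · rw [PMap_smul φ, PMap_smul φ, hk_map, hk1_map]
    simp only [map_mul, map_neg, map_ofNat, cf_map φ]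
  · rw [Matrix.transpose_smul, hs1]
  · rw [Matrix.det_smul]
    exact mul_ne_zero (pow_ne_zero _ (mul_ne_zero (neg_ne_zero.2 h2) hl)) hd1
  · rw [Matrix.transpose_smul, hs]
  · rw [Matrix.det_smul]
    exact mul_ne_zero (pow_ne_zero _ h2) hd

end

end SpinWA
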