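import Pool.Agent.H.MP_83e36b_nt.sp.PDefs
import Pool.Agent.H.MP_83e36b_nt.sp.CRoot
import Pool.Agent.H.MP_ffe2f0_al.NDefs

/-!
# The Calogero-Moser operator in root coordinates

PROOF. `V = vandermonde x`, `f = monicPoly a = ∏ (X - x_i)`, `C = cmp a`.
`vand_cmS` (x injective): `V C = diag(x) V` gives `V p(C) = diag(p(x_i)) V` for all polynomials `p`.
`p = f'`: `f'(x_i) ≠ 0`, so `f'(C)` is invertible and `V f''(C) f'(C)⁻¹ = diag(f''(x_i)/f'(x_i)) V`.
And `f''(x_i)/f'(x_i) = 2 ∑_{l ≠ i} 1/(x_i - x_l)` (`f' = ∑_i ∏_{l≠i}`; `f = (X - x_i) h`,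
`f'(x_i) = h(x_i)`, `f''(x_i) = 2 h'(x_i)`, `h'/h = ∑_{l≠i} 1/(X - x_l)`). So
`(V S)_{ij} = (∑_{l≠i} 1/(x_i - x_l)) x_i^j + ∑_k x_i^k N_{kj}`,
`∑_k x_i^k N_{kj} = j x_i^{j-1} - ∑_{k<j} x_i^k T_{j-1-k}`, `T_r = ∑_l x_l^r`. On the other side
`(cm V)_{ij} = ∑_{l≠i} x_l^j/(x_i - x_l)`, and
`x_l^j = x_i^j - (x_i - x_l) ∑_{k<j} x_i^k x_l^{j-1-k}`, so it is
`(∑_{l≠i} 1/(x_i-x_l)) x_i^j - ∑_{l≠i} ∑_{k<j} x_i^k x_l^{j-1-k}`, and
`∑_{l≠i} x_l^{j-1-k} = T_{j-1-k} - x_i^{j-1-k}`: the last sum is
`- ∑_{k<j} x_i^k T_{j-1-k} + j x_i^{j-1}`. (The second derivative and the division by 2 need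
characteristic `≠ 2`, we assume `CharZero`.)
-/

open Matrix Polynomial

namespace SpinWA

variable {K : Type*} [Field K] {n : ℕ}

theorem croots_aeval (x a : Fin n → K) (h : AnWA.monicPoly a = ∏ i, (X - C (x i))) (p : K[X]) :
    vandermonde x * aeval (cmp a) p = diagonal (fun i => p.eval (x i)) * vandermonde x := by
  induction p using Polynomial.induction_on' with
  | add p q hp hq =>
    rw [map_add, mul_add, hp, hq]
    ext i j
    simp only [Matrix.add_apply, diagonal_mul, eval_add]
    ring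
  | monomial k c =>
    have h1 : aeval (cmp a) (monomial k c) = c • cmp a ^ k := by
      rw [aeval_monomial, ← Algebra.smul_def]
    rw [h1, mul_smul_comm, croot_vand_pow x a h k, diagonal_pow]
    ext i j
    rw [Matrix.smul_apply, diagonal_mul, diagonal_mul, eval_monomial, Pi.pow_apply, smul_eq_mul,
      mul_assoc]

theorem croots_deriv (x a : Fin n → K) (hx : Function.Injective x)
    (h : AnWA.monicPoly a = ∏ i, (X - C (x i))) (i : Fin n) :
    (derivative (AnWA.monicPoly a)).eval (x i) ≠ 0 ∧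
      (derivative (derivative (AnWA.monicPoly a))).eval (x i) =
        2 * ((derivative (AnWA.monicPoly a)).eval (x i) * ∑ l, (x i - x l)⁻¹) := by
  classical
  obtain ⟨q, hq⟩ : ∃ q : K[X], q = ∏ l ∈ Finset.univ.erase i, (X - C (x l)) := ⟨_, rfl⟩
  have hf : AnWA.monicPoly a = (X - C (x i)) * q := by
    rw [h, hq, Finset.mul_prod_erase Finset.univ (fun l => X - C (x l)) (Finset.mem_univ i)]
  have h1 : (derivative (AnWA.monicPoly a)).eval (x i) = q.eval (x i) := by
    rw [hf, derivative_mul]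
    simp
  have h2 : (derivative (derivative (AnWA.monicPoly a))).eval (x i) =
      2 * (derivative q).eval (x i) := by
    rw [hf, derivative_mul, derivative_add, derivative_mul, derivative_mul]
    simp
    ring
  have hne : ∀ l ∈ Finset.univ.erase i, x i - x l ≠ 0 := by
    intro l hl h3
    exact (Finset.mem_erase.1 hl).1 (hx (sub_eq_zero.1 h3)).symm
  have h3 : q.eval (x i) = ∏ l ∈ Finset.univ.erase i, (x i - x l) := by
    rw [hq, eval_prod]
    simp only [eval_sub, eval_X, eval_C]
  have h4 : (derivative q).eval (x i) = q.eval (x i) * ∑ l, (x i - x l)⁻¹ := by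
    rw [← Finset.add_sum_erase Finset.univ (fun l => (x i - x l)⁻¹) (Finset.mem_univ i), sub_self,
      _root_.inv_zero, zero_add, h3, hq, derivative_prod_finset, eval_finsetSum, Finset.mul_sum]
    refine Finset.sum_congr rfl fun l hl => ?_
    rw [eval_mul, eval_prod]
    simp only [eval_sub, eval_X, eval_C, derivative_sub, derivative_X, derivative_C, sub_zero,
      eval_one, mul_one]
    rw [← Finset.mul_prod_erase (Finset.univ.erase i) (fun l => x i - x l) hl]
    rw [mul_comm (x i - x l), mul_assoc, mul_inv_cancel₀ (hne l hl), mul_one]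
  refine ⟨?_, ?_⟩
  · rw [h1, h3]
    exact Finset.prod_ne_zero_iff.2 hne
  · rw [h2, h1, h4]

theorem croots_cmN (x a : Fin n → K) (hx : Function.Injective x)
    (h : AnWA.monicPoly a = ∏ i, (X - C (x i))) (i j : Fin n) :
    (vandermonde x * cmN a) i j = (j : K) * x i ^ ((j : ℕ) - 1) -
      ∑ k ∈ Finset.range j, x i ^ k * ∑ l, x l ^ ((j : ℕ) - 1 - k) := by
  rw [mul_apply]
  simp only [vandermonde_apply, cmN, of_apply, mul_sub, Finset.sum_sub_distrib]
  congr 1
  · rcases Nat.eq_zero_or_pos (j : ℕ) with hj | hj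
    · rw [hj, Nat.cast_zero, zero_mul]
      refine Finset.sum_eq_zero fun k _ => ?_
      rw [if_neg (by omega), mul_zero]
    · have hj' : (j : ℕ) - 1 < n := by omega
      rw [Finset.sum_eq_single (⟨(j : ℕ) - 1, hj'⟩ : Fin n)]
      · rw [if_pos (by simp only; omega), mul_comm]
      · intro k _ hk
        rw [if_neg (fun h1 => hk (Fin.ext (by simp only; omega))), mul_zero]
      · intro h1
        exact absurd (Finset.mem_univ _) h1
  · have h1 : ∑ k : Fin n, x i ^ (k : ℕ) *
        (if (k : ℕ) < j then psum a ((j : ℕ) - 1 - k) else 0) =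
        ∑ k ∈ Finset.range n,
          x i ^ k * (if k < (j : ℕ) then psum a ((j : ℕ) - 1 - k) else 0) :=
      (Finset.sum_range (fun k : ℕ =>
        x i ^ k * (if k < (j : ℕ) then psum a ((j : ℕ) - 1 - k) else 0))).symm
    rw [h1]
    have h2 : Finset.range (j : ℕ) ⊆ Finset.range n := Finset.range_subset_range.2 j.2.le
    rw [← Finset.sum_subset h2]
    · refine Finset.sum_congr rfl fun k hk => ?_
      simp only [if_pos (Finset.mem_range.1 hk), psum_eq_sum x a hx h]
    · intro k _ hk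
      simp only [if_neg (fun h3 => hk (Finset.mem_range.2 h3)), mul_zero]

theorem vand_cmS [CharZero K] (x a : Fin n → K) (hx : Function.Injective x)
    (h : AnWA.monicPoly a = ∏ i, (X - C (x i))) :
    vandermonde x * cmS a = NoetherAn.cm x * vandermonde x := by
  classical
  obtain ⟨A, hA⟩ : ∃ A, A = aeval (cmp a) (derivative (AnWA.monicPoly a)) := ⟨_, rfl⟩
  obtain ⟨B, hB⟩ : ∃ B, B = aeval (cmp a) (derivative (derivative (AnWA.monicPoly a))) := ⟨_, rfl⟩
  have hVA := croots_aeval x a h (derivative (AnWA.monicPoly a))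
  have hVB := croots_aeval x a h (derivative (derivative (AnWA.monicPoly a)))
  rw [← hA] at hVA
  rw [← hB] at hVB
  have hV : (vandermonde x).det ≠ 0 := det_vandermonde_ne_zero_iff.2 hx
  have hAu : IsUnit A.det := by
    have h1 := congrArg Matrix.det hVA
    rw [det_mul, det_mul, det_diagonal, mul_comm] at h1
    have h2 := mul_right_cancel₀ hV h1
    rw [h2]
    exact (Finset.prod_ne_zero_iff.2 fun i _ => (croots_deriv x a hx h i).1).isUnit
  have hVAi : vandermonde x * A⁻¹ =
      diagonal (fun i => ((derivative (AnWA.monicPoly a)).eval (x i))⁻¹) * vandermonde x := by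
    have h1 : vandermonde x =
        diagonal (fun i => ((derivative (AnWA.monicPoly a)).eval (x i))⁻¹) *
          (vandermonde x * A) := by
      rw [hVA, ← mul_assoc, diagonal_mul_diagonal]
      have h2 : (fun i => ((derivative (AnWA.monicPoly a)).eval (x i))⁻¹ *
          (derivative (AnWA.monicPoly a)).eval (x i)) = fun _ => 1 := by
        funext i
        exact inv_mul_cancel₀ (croots_deriv x a hx h i).1
      rw [h2, diagonal_one, one_mul]
    conv_lhs => rw [h1]
    rw [mul_assoc, mul_assoc, mul_nonsing_inv _ hAu, mul_one]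
  have hBA : vandermonde x * (B * A⁻¹) = diagonal (fun i => 2 * ∑ l, (x i - x l)⁻¹) *
      vandermonde x := by
    rw [← mul_assoc, hVB, mul_assoc, hVAi, ← mul_assoc, diagonal_mul_diagonal]
    congr 2
    funext i
    obtain ⟨h1, h2⟩ := croots_deriv x a hx h i
    rw [h2]
    field_simp
  have hcmS : vandermonde x * cmS a = (1 / 2 : K) • (vandermonde x * (B * A⁻¹)) +
      vandermonde x * cmN a := by
    unfold cmS
    rw [← hA, ← hB, mul_add, mul_smul_comm]
  rw [hcmS, hBA]
  ext i j
  rw [Matrix.add_apply, Matrix.smul_apply, diagonal_mul, croots_cmN x a hx h i j, mul_apply,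
    vandermonde_apply]
  simp only [NoetherAn.cm, of_apply, vandermonde_apply, smul_eq_mul]
  have key : ∀ l, (x i - x l)⁻¹ * x l ^ (j : ℕ) = (x i - x l)⁻¹ * x i ^ (j : ℕ) -
      (∑ k ∈ Finset.range j, x i ^ k * x l ^ ((j : ℕ) - 1 - k)) +
        (if l = i then (j : K) * x i ^ ((j : ℕ) - 1) else 0) := by
    intro l
    by_cases hl : l = i
    · rw [hl, sub_self, _root_.inv_zero, zero_mul, if_pos rfl]
      have h1 : ∑ k ∈ Finset.range (j : ℕ), x i ^ k * x i ^ ((j : ℕ) - 1 - k) =
          (j : K) * x i ^ ((j : ℕ) - 1) := by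
        rw [Finset.sum_congr rfl (g := fun _ => x i ^ ((j : ℕ) - 1)), Finset.sum_const,
          Finset.card_range, nsmul_eq_mul]
        intro k hk
        rw [← pow_add]
        congr 1
        have := Finset.mem_range.1 hk
        omega
      rw [h1]
      ring
    · rw [if_neg hl, add_zero]
      have h1 : x i - x l ≠ 0 := fun h2 => hl (hx (sub_eq_zero.1 h2)).symm
      have h2 := geom_sum₂_mul (x i) (x l) (j : ℕ)
      have h3 : (∑ k ∈ Finset.range (j : ℕ), x i ^ k * x l ^ ((j : ℕ) - 1 - k)) =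
          (x i - x l)⁻¹ * (x i ^ (j : ℕ) - x l ^ (j : ℕ)) := by
        rw [← h2, mul_comm, mul_assoc, mul_inv_cancel₀ h1, mul_one]
      rw [h3]
      ring
  rw [Finset.sum_congr rfl fun l _ => key l, Finset.sum_add_distrib, Finset.sum_sub_distrib,
    Finset.sum_ite_eq' Finset.univ i, if_pos (Finset.mem_univ i), ← Finset.sum_mul,
    Finset.sum_comm]
  simp only [← Finset.mul_sum]
  have h2 : (2 : K) ≠ 0 := two_ne_zero
  field_simp
  ring

end SpinWA
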