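import Pool.Agent.H.MP_83e36b_nt.sp.PMap
import Pool.Agent.H.MP_83e36b_nt.sp.CRoot
import Pool.Agent.H.MP_83e36b_nt.sp.CRootS
import Pool.Agent.H.MP_ffe2f0_al.NComm

/-!
# Identities of the Calogero-Moser operator

PROOF. All identities may be checked after an embedding of `K` in an algebraically closed field `L`
(`hk_map`, `cmp_map`, `cmS_map`; `Matrix.map_injective`), where root coordinates `x` exist
(`exists_roots`), `V = vandermonde x` invertible. Then `C = V⁻¹ diag(x) V`, `S = V⁻¹ cm(x) V`,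
`H = Vᵀ V`, `V e_0 = 1`. `commutator_cmS`: `C S - S C = V⁻¹ (diag(x) cm(x) - cm(x) diag(x)) V
= V⁻¹ (J - 1) V` (`NoetherAn.commutator`), where `J` is the matrix with all entries 1,
`J = (V e_0) (V e_0)ᵀ`, so `V⁻¹ J V = e_0 (e_0ᵀ Vᵀ V) = e_0 (e_0ᵀ H)` and the entries of
`e_0ᵀ H` are `psum a j`. `hk_cmS_antisymm`: `H S = Vᵀ cm(x) V` and `cm(x)ᵀ = - cm(x)`
(`NoetherAn.cm_transpose`). `aeval_derivative_det`: `f'(C) = V⁻¹ diag(f'(x_i)) V`, `f'(x_i) ≠ 0`
(or: `f` is separable, `u f + v f' = 1`, so `v(C) f'(C) = 1`).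
`trace_pow_identity`: multiply the commutator identity by `M^k` and take traces: for matrices `M`,
`Z` and vectors `u`, `w` with `M Z - Z M = u wᵀ - 1`, the trace of `(M Z - Z M) M^k` is zero and
`Tr (u wᵀ M^k) = wᵀ M^k u`.
-/

open Matrix Polynomial

namespace SpinWA

/-- If `M Z - Z M = u wᵀ - 1` then `wᵀ M^k u = Tr (M^k)`. -/
theorem trace_pow_identity {R : Type*} [CommRing R] {n : ℕ} {M Z : Matrix (Fin n) (Fin n) R}
    {u w : Fin n → R} (h : M * Z - Z * M = vecMulVec u w - 1) (k : ℕ) :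
    w ⬝ᵥ (M ^ k *ᵥ u) = (M ^ k).trace := by
  have h1 : ((M * Z - Z * M) * M ^ k).trace = 0 := by
    rw [Matrix.sub_mul, Matrix.trace_sub, Matrix.mul_assoc M Z, Matrix.trace_mul_comm M,
      Matrix.mul_assoc Z, Matrix.mul_assoc Z, ← pow_succ, ← pow_succ', sub_self]
  rw [h, Matrix.sub_mul, Matrix.one_mul, Matrix.trace_sub, Matrix.vecMulVec_mul,
    Matrix.trace_vecMulVec, sub_eq_zero] at h1
  rw [← h1, Matrix.dotProduct_mulVec, dotProduct_comm]

/-- If `M Z - Z M = 1 - u wᵀ` then `wᵀ M^k u = Tr (M^k)`. -/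
theorem trace_pow_identity' {R : Type*} [CommRing R] {n : ℕ} {M Z : Matrix (Fin n) (Fin n) R}
    {u w : Fin n → R} (h : Z * M - M * Z = vecMulVec u w - 1) (k : ℕ) :
    w ⬝ᵥ (M ^ k *ᵥ u) = (M ^ k).trace := by
  have h1 : ((Z * M - M * Z) * M ^ k).trace = 0 := by
    rw [Matrix.sub_mul, Matrix.trace_sub, Matrix.mul_assoc M Z, Matrix.trace_mul_comm M,
      Matrix.mul_assoc Z, Matrix.mul_assoc Z, ← pow_succ, ← pow_succ', sub_self]
  rw [h, Matrix.sub_mul, Matrix.one_mul, Matrix.trace_sub, Matrix.vecMulVec_mul,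
    Matrix.trace_vecMulVec, sub_eq_zero] at h1
  rw [← h1, Matrix.dotProduct_mulVec, dotProduct_comm]

/-- The first row of `hk a`. -/
theorem e0_vecMul_hk {R : Type*} [CommRing R] {n : ℕ} (a : Fin n → R) :
    e0 R n ᵥ* hk a = fun j : Fin n => psum a (j : ℕ) := by
  funext j
  have hn : 0 < n := lt_of_le_of_lt (Nat.zero_le _) j.isLt
  rw [Matrix.vecMul, dotProduct, Finset.sum_eq_single (⟨0, hn⟩ : Fin n)]
  · simp [e0, hk]
  · intro i _ hi
    have hi0 : (i : ℕ) ≠ 0 := fun h => hi (Fin.ext h)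
    simp [e0, hi0]
  · intro hh
    exact absurd (Finset.mem_univ _) hh

/-- The identities in root coordinates. -/
private theorem CId_root {L : Type*} [Field L] [CharZero L] {n : ℕ} (x a : Fin n → L)
    (hx : Function.Injective x) (h : AnWA.monicPoly a = ∏ i, (X - C (x i))) :
    cmp a * cmS a - cmS a * cmp a = vecMulVec (e0 L n) (fun j : Fin n => psum a (j : ℕ)) - 1 ∧
      (hk a * cmS a)ᵀ = - (hk a * cmS a) := by
  have hV : IsUnit (vandermonde x).det :=
    isUnit_iff_ne_zero.2 (Matrix.det_vandermonde_ne_zero_iff.2 hx)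
  have h1 := vand_cmp x a h
  have h2 := vand_cmS x a hx h
  have h3 := vand_hk x a hx h
  have h4 := vand_e0 x
  have h5 := NoetherAn.commutator hx
  constructor
  · have key : vandermonde x * (cmp a * cmS a - cmS a * cmp a) =
        vandermonde x * (vecMulVec (e0 L n) (fun j : Fin n => psum a (j : ℕ)) - 1) := by
      have e1 : vandermonde x * (cmp a * cmS a) =
          diagonal x * NoetherAn.cm x * vandermonde x := by
        rw [← Matrix.mul_assoc, h1, Matrix.mul_assoc, h2, Matrix.mul_assoc]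
      have e2 : vandermonde x * (cmS a * cmp a) =
          NoetherAn.cm x * diagonal x * vandermonde x := by
        rw [← Matrix.mul_assoc, h2, Matrix.mul_assoc, h1, Matrix.mul_assoc]
      have e3 : (fun j : Fin n => psum a (j : ℕ)) = (fun _ : Fin n => (1 : L)) ᵥ* vandermonde x := by
        rw [← e0_vecMul_hk a, ← h3, ← Matrix.vecMul_vecMul, Matrix.vecMul_transpose, h4]
      rw [Matrix.mul_sub, e1, e2, ← Matrix.sub_mul, h5, Matrix.mul_sub, Matrix.mul_one,
        Matrix.sub_mul, Matrix.one_mul, Matrix.mul_vecMulVec, h4, e3]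
      congr 1
      rw [← Matrix.vecMulVec_mul]
      congr 1
      ext i j
      simp [Matrix.vecMulVec_apply]
    have h6 := congrArg (fun M => (vandermonde x)⁻¹ * M) key
    simp only [← Matrix.mul_assoc, Matrix.nonsing_inv_mul _ hV, Matrix.one_mul] at h6
    exact h6
  · have e1 : hk a * cmS a = (vandermonde x)ᵀ * NoetherAn.cm x * vandermonde x := by
      rw [← h3, Matrix.mul_assoc, h2, Matrix.mul_assoc]
    rw [e1, Matrix.transpose_mul, Matrix.transpose_mul, Matrix.transpose_transpose,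
      NoetherAn.cm_transpose, Matrix.neg_mul, Matrix.mul_neg, Matrix.mul_assoc]

variable {K : Type*} [Field K] {n : ℕ}

theorem aeval_derivative_det (a : Fin n → K) (h : (hk a).det ≠ 0) :
    (aeval (cmp a) (derivative (AnWA.monicPoly a))).det ≠ 0 := by
  obtain ⟨u, v, huv⟩ := separable_of_det a h
  have h1 := congrArg (aeval (cmp a)) huv
  rw [map_add, map_mul, map_mul, aeval_cmp, mul_zero, zero_add, map_one] at h1
  intro h0
  have h2 := congrArg Matrix.det h1
  rw [Matrix.det_mul, h0, mul_zero, Matrix.det_one] at h2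
  exact zero_ne_one h2

/-- `C S - S C = e_0 e_0ᵀ H - 1`. -/
theorem commutator_cmS [CharZero K] (a : Fin n → K) (h : (hk a).det ≠ 0) :
    cmp a * cmS a - cmS a * cmp a = vecMulVec (e0 K n) (fun j : Fin n => psum a (j : ℕ)) - 1 := by
  let φ : K →+* AlgebraicClosure K := algebraMap K (AlgebraicClosure K)
  have hφ : Function.Injective φ := φ.injective
  have : CharZero (AlgebraicClosure K) := charZero_of_injective_algebraMap hφ
  obtain ⟨x, hx, hxa⟩ := exists_roots φ a h
  have h1 := (CId_root x _ hx hxa).1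
  apply Matrix.map_injective hφ
  show (cmp a * cmS a - cmS a * cmp a).map φ = (vecMulVec (e0 K n) (fun j : Fin n => psum a (j : ℕ)) - 1).map φ
  have e1 : (cmp a * cmS a - cmS a * cmp a).map φ =
      (cmp a).map φ * (cmS a).map φ - (cmS a).map φ * (cmp a).map φ := by
    rw [← Matrix.map_mul, ← Matrix.map_mul, Matrix.map_sub _ (map_sub φ)]
  have e2 : (vecMulVec (e0 K n) (fun j : Fin n => psum a (j : ℕ)) - 1).map φ =
      vecMulVec (e0 (AlgebraicClosure K) n)
        (fun j : Fin n => psum (fun i => φ (a i)) (j : ℕ)) - 1 := by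
    ext i j
    rw [Matrix.map_apply, Matrix.sub_apply, Matrix.sub_apply, map_sub, Matrix.vecMulVec_apply,
      Matrix.vecMulVec_apply, map_mul, e0_map, psum_map, Matrix.one_apply, Matrix.one_apply]
    split_ifs <;> simp
  rw [e1, e2, cmp_map, cmS_map]
  exact h1

theorem hk_cmS_antisymm [CharZero K] (a : Fin n → K) (h : (hk a).det ≠ 0) :
    (hk a * cmS a)ᵀ = - (hk a * cmS a) := by
  let φ : K →+* AlgebraicClosure K := algebraMap K (AlgebraicClosure K)
  have hφ : Function.Injective φ := φ.injective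
  have : CharZero (AlgebraicClosure K) := charZero_of_injective_algebraMap hφ
  obtain ⟨x, hx, hxa⟩ := exists_roots φ a h
  have h1 := (CId_root x _ hx hxa).2
  apply Matrix.map_injective hφ
  show ((hk a * cmS a)ᵀ).map φ = (-(hk a * cmS a)).map φ
  have e0' : (hk a * cmS a).map φ = hk (fun i => φ (a i)) * cmS (fun i => φ (a i)) := by
    rw [Matrix.map_mul, hk_map, cmS_map]
  have e1 : ((hk a * cmS a)ᵀ).map φ = ((hk a * cmS a).map φ)ᵀ := by
    rw [Matrix.transpose_map]
  have e2 : (-(hk a * cmS a)).map φ = -((hk a * cmS a).map φ) := by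
    ext i j
    rw [Matrix.map_apply, Matrix.neg_apply, Matrix.neg_apply, Matrix.map_apply, map_neg]
  rw [e1, e2, e0']
  exact h1

end SpinWA
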