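import Pool.Agent.H.MP_83e36b_nt.sp.PDefs
import Pool.Agent.H.MP_83e36b_nt.sp.CId

/-!
# Continuity

PROOF. `cmp a`, `psum a k`, `hk a`, ... are polynomial in the entries of `a`
(`continuous_matrix`, `continuous_pi`, `Continuous.matrix_mul`, `Continuous.matrix_trace`,
`Continuous.matrix_det`, `Continuous.pow`). `cpc`: the coefficients of the characteristic
polynomial are polynomials in the entries of the matrix: `Matrix.charpoly` of `M` is the
image of `Matrix.charpoly.univ` (`Matrix.charpoly.univ_map_eval₂Hom`), or expand the
determinant of `charmatrix`: coefficients of finite sums of finite products of polynomials with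
continuous coefficients. `cmS`: `aeval (cmp a) p'` with `p = monicPoly a`: `f'(C) = n C^(n-1) +
∑ i a_i C^(i-1)` (derivative of the finite sum) is continuous in `a`; the inverse is
`(det A)⁻¹ • adjugate A`, continuous at points with `det A ≠ 0` (`aeval_derivative_det`).
`xop`, `Wop`, `Aop`: compositions with the continuous maps `g ↦ dbl e g`, `g ↦ Fin.cons 0 g`,
products, and division by `cf g 0 ≠ 0`.
-/

open Topology Matrix Polynomial

namespace SpinWA

variable {K : Type*} [NontriviallyNormedField K] {n : ℕ}

theorem continuous_cmp : Continuous fun a : Fin n → K => cmp a := by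
  refine continuous_matrix fun i j => ?_
  simp only [cmp, Matrix.of_apply]
  split_ifs
  · exact (continuous_apply i).neg
  · exact continuous_const
  · exact continuous_const

theorem continuous_psum (k : ℕ) : Continuous fun a : Fin n → K => psum a k := by
  unfold psum
  exact (continuous_cmp.pow k).matrix_trace

theorem continuous_hk : Continuous fun a : Fin n → K => hk a := by
  refine continuous_matrix fun i j => ?_
  simp only [hk, Matrix.of_apply]
  exact continuous_psum _

theorem continuous_hk1 : Continuous fun a : Fin n → K => hk1 a := by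
  refine continuous_matrix fun i j => ?_
  simp only [hk1, Matrix.of_apply]
  exact continuous_psum _

theorem continuous_gamM : Continuous fun a : Fin n → K => gamM a := by
  refine continuous_matrix fun i j => ?_
  simp only [gamM, Matrix.of_apply]
  exact continuous_const.mul (continuous_psum _)

theorem continuous_kryM : Continuous fun M : Matrix (Fin n) (Fin n) K => kryM M := by
  refine continuous_matrix fun i j => ?_
  simp only [kryM, Matrix.of_apply]
  exact (continuous_apply i).comp
    ((continuous_id.pow (j : ℕ)).matrix_mulVec continuous_const)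

theorem continuous_cpc : Continuous fun M : Matrix (Fin n) (Fin n) K => cpc M := by
  refine continuous_pi fun i => ?_
  have h : (fun M : Matrix (Fin n) (Fin n) K => cpc M i) = fun M : Matrix (Fin n) (Fin n) K =>
      MvPolynomial.eval (fun p : Fin n × Fin n => M p.1 p.2)
        ((Matrix.charpoly.univ K (Fin n)).coeff (i : ℕ)) := by
    funext M
    have h1 := Matrix.charpoly.univ_coeff_eval₂Hom (Fin n) (RingHom.id K)
      (fun p : Fin n × Fin n => M p.1 p.2) (i : ℕ)
    have h2 : Matrix.of (Function.curry (fun p : Fin n × Fin n => M p.1 p.2)) = M := rfl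
    rw [h2] at h1
    show M.charpoly.coeff (i : ℕ) = _
    rw [← h1]
    rfl
  rw [h]
  refine (MvPolynomial.continuous_eval _).comp ?_
  exact continuous_pi fun p => continuous_id.matrix_elem p.1 p.2

theorem continuous_cf (i : ℕ) : Continuous fun a : Fin n → K => cf a i := by
  unfold cf
  split_ifs with h h'
  · exact continuous_apply _
  · exact continuous_const
  · exact continuous_const

theorem continuous_dbl (e : ℕ) : Continuous fun g : Fin n → K => dbl e g := by
  refine continuous_pi fun i => ?_
  unfold dbl
  split_ifs with h
  · exact continuous_apply _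
  · exact continuous_const

private theorem PCont_coeff (i : ℕ) :
    Continuous fun a : Fin n → K => (AnWA.monicPoly a).coeff i := by
  unfold AnWA.monicPoly
  simp only [coeff_add, finsetSum_coeff, coeff_C_mul]
  exact continuous_const.add (continuous_finsetSum _ fun j _ =>
    (continuous_apply j).mul continuous_const)

private theorem PCont_natDegree (a : Fin n → K) : (AnWA.monicPoly a).natDegree ≤ n := by
  unfold AnWA.monicPoly
  refine (natDegree_add_le _ _).trans (max_le (by simp) ?_)
  refine natDegree_sum_le_of_forall_le _ _ fun i _ => ?_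
  exact (natDegree_C_mul_X_pow_le _ _).trans i.isLt.le

private theorem PCont_aeval (p : (Fin n → K) → K[X]) (N : ℕ) (hN : ∀ a, (p a).natDegree < N)
    (hc : ∀ i, Continuous fun a => (p a).coeff i) :
    Continuous fun a => aeval (cmp a) (p a) := by
  have h : (fun a => aeval (cmp a) (p a)) = fun a : Fin n → K =>
      ∑ i ∈ Finset.range N, (p a).coeff i • cmp a ^ i := by
    funext a
    exact aeval_eq_sum_range' (hN a) _
  rw [h]
  exact continuous_finsetSum _ fun i _ => (hc i).smul (continuous_cmp.pow i)

private theorem PCont_der1 :
    Continuous fun a : Fin n → K => aeval (cmp a) (derivative (AnWA.monicPoly a)) := by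
  refine PCont_aeval _ (n + 1) (fun a => ?_) fun i => ?_
  · exact Nat.lt_succ_of_le ((natDegree_derivative_le _).trans
      ((Nat.sub_le _ _).trans (PCont_natDegree a)))
  · simp only [coeff_derivative]
    exact (PCont_coeff _).mul continuous_const

private theorem PCont_der2 :
    Continuous fun a : Fin n → K =>
      aeval (cmp a) (derivative (derivative (AnWA.monicPoly a))) := by
  refine PCont_aeval _ (n + 1) (fun a => ?_) fun i => ?_
  · exact Nat.lt_succ_of_le ((natDegree_derivative_le _).trans
      ((Nat.sub_le _ _).trans ((natDegree_derivative_le _).trans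
      ((Nat.sub_le _ _).trans (PCont_natDegree a)))))
  · simp only [coeff_derivative]
    exact ((PCont_coeff _).mul continuous_const).mul continuous_const

private theorem PCont_cmN : Continuous fun a : Fin n → K => cmN a := by
  refine continuous_matrix fun i j => ?_
  simp only [cmN, Matrix.of_apply]
  refine continuous_const.sub ?_
  split_ifs
  · exact continuous_psum _
  · exact continuous_const

theorem continuousAt_cmS [CharZero K] {a : Fin n → K} (h : (hk a).det ≠ 0) :
    ContinuousAt (fun a : Fin n → K => cmS a) a := by
  have h0 := aeval_derivative_det a h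
  have h1 : ContinuousAt Ring.inverse
      (aeval (cmp a) (derivative (AnWA.monicPoly a)) : Matrix (Fin n) (Fin n) K).det := by
    rw [Ring.inverse_eq_inv']
    exact continuousAt_inv₀ h0
  have h2 : ContinuousAt (fun a : Fin n → K =>
      (aeval (cmp a) (derivative (AnWA.monicPoly a)) : Matrix (Fin n) (Fin n) K)⁻¹) a :=
    ContinuousAt.comp (g := fun M : Matrix (Fin n) (Fin n) K => M⁻¹)
      (f := fun a : Fin n → K =>
        (aeval (cmp a) (derivative (AnWA.monicPoly a)) : Matrix (Fin n) (Fin n) K))
      (continuousAt_matrix_inv _ h1) PCont_der1.continuousAt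
  unfold cmS
  exact (((PCont_der2.continuousAt).mul h2).const_smul (1 / 2 : K)).add PCont_cmN.continuousAt

theorem continuousAt_xop [CharZero K] (e : ℕ) {g : Fin n → K} (y : Fin (n + e) → K)
    (h : (hk (dbl e g)).det ≠ 0) :
    ContinuousAt (fun p : (Fin n → K) × (Fin (n + e) → K) => xop e p.1 p.2) (g, y) := by
  have h1 : ContinuousAt (fun p : (Fin n → K) × (Fin (n + e) → K) => cmS (dbl e p.1)) (g, y) :=
    ContinuousAt.comp (g := fun a : Fin (2 * n + e) → K => cmS a)
      (f := fun p : (Fin n → K) × (Fin (n + e) → K) => dbl e p.1)
      (continuousAt_cmS h) ((continuous_dbl e).comp continuous_fst).continuousAt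
  have h2 : Continuous fun p : (Fin n → K) × (Fin (n + e) → K) =>
      ∑ l, p.2 l • cmp (dbl e p.1) ^ (2 * (l : ℕ)) :=
    continuous_finsetSum _ fun l _ =>
      ((continuous_apply l).comp continuous_snd).smul
        ((continuous_cmp.comp ((continuous_dbl e).comp continuous_fst)).pow _)
  unfold xop
  exact h1.neg.add h2.continuousAt

private theorem PCont_cons : Continuous fun g : Fin n → K => (Fin.cons 0 g : Fin (n + 1) → K) := by
  refine continuous_pi fun i => ?_
  refine Fin.cases ?_ (fun j => ?_) i
  · simp only [Fin.cons_zero]
    exact continuous_const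
  · simp only [Fin.cons_succ]
    exact continuous_apply j

theorem continuousAt_Wop [CharZero K] {g : Fin n → K} (ρ : K)
    (h : (hk (Fin.cons 0 g : Fin (n + 1) → K)).det ≠ 0) (h0 : cf g 0 ≠ 0) :
    ContinuousAt (fun p : (Fin n → K) × K => Wop p.1 p.2) (g, ρ) := by
  have h1 : ContinuousAt (fun p : (Fin n → K) × K =>
      cmS (Fin.cons 0 p.1 : Fin (n + 1) → K)) (g, ρ) :=
    ContinuousAt.comp (g := fun a : Fin (n + 1) → K => cmS a)
      (f := fun p : (Fin n → K) × K => (Fin.cons 0 p.1 : Fin (n + 1) → K))
      (continuousAt_cmS h) (PCont_cons.comp continuous_fst).continuousAt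
  have h2 : ContinuousAt (fun p : (Fin n → K) × K =>
      cmp (Fin.cons 0 p.1 : Fin (n + 1) → K)) (g, ρ) :=
    (continuous_cmp.comp (PCont_cons.comp continuous_fst)).continuousAt
  have h3 : ContinuousAt (fun p : (Fin n → K) × K =>
      vecMulVec (fun i : Fin (n + 1) => cf p.1 i / cf p.1 0) (e0 K (n + 1))) (g, ρ) := by
    refine tendsto_pi_nhds.2 fun i => tendsto_pi_nhds.2 fun j => ?_
    simp only [vecMulVec_apply]
    refine ContinuousAt.mul ?_ continuousAt_const
    exact ((continuous_cf _).comp continuous_fst).continuousAt.div
      ((continuous_cf _).comp continuous_fst).continuousAt h0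
  unfold Wop
  exact (((h1.mul h2).mul h1).const_smul (-4 : K)).sub
    (((continuous_snd.div_const 2).continuousAt).smul h3)

theorem continuousAt_Aop [CharZero K] {g : Fin n → K}
    (h : (hk (Fin.cons 0 g : Fin (n + 1) → K)).det ≠ 0) :
    ContinuousAt (fun g : Fin n → K => Aop g) g := by
  have h1 : ContinuousAt (fun g : Fin n → K => cmS (Fin.cons 0 g : Fin (n + 1) → K)) g :=
    ContinuousAt.comp (g := fun a : Fin (n + 1) → K => cmS a)
      (f := fun g : Fin n → K => (Fin.cons 0 g : Fin (n + 1) → K))
      (continuousAt_cmS h) PCont_cons.continuousAt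
  have h2 : Continuous fun g : Fin n → K => redM g := by
    refine continuous_matrix fun i j => ?_
    simp only [redM, Matrix.of_apply]
    split_ifs
    · exact (continuous_apply i).neg
    · exact continuous_const
    · exact continuous_const
  have h3 : ContinuousAt (fun g : Fin n → K =>
      (2 : K) • (redM g * cmS (Fin.cons 0 g : Fin (n + 1) → K))) g := by
    refine ContinuousAt.const_smul ?_ (2 : K)
    have h4 : Continuous fun p : Matrix (Fin n) (Fin (n + 1)) K ×
        Matrix (Fin (n + 1)) (Fin (n + 1)) K => p.1 * p.2 :=
      Continuous.matrix_mul (A := fun p : Matrix (Fin n) (Fin (n + 1)) K ×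
        Matrix (Fin (n + 1)) (Fin (n + 1)) K => p.1) (B := fun p => p.2)
        continuous_fst continuous_snd
    exact ContinuousAt.comp
      (g := fun p : Matrix (Fin n) (Fin (n + 1)) K × Matrix (Fin (n + 1)) (Fin (n + 1)) K =>
        p.1 * p.2)
      (f := fun g : Fin n → K => (redM g, cmS (Fin.cons 0 g : Fin (n + 1) → K)))
      h4.continuousAt (h2.continuousAt.prodMk h1)
  refine tendsto_pi_nhds.2 fun i => tendsto_pi_nhds.2 fun j => ?_
  rcases i with i | i
  · exact (tendsto_pi_nhds.1 ((tendsto_pi_nhds.1 h3) i)) j
  · exact tendsto_const_nhds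

end SpinWA
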