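import Pool.Agent.H.MP_83e36b_nt.sp.CDbl

/-!
# The class and the determinant of `gamM (dbl e g)`

PROOF. By `gam_reindex` the matrix `gamM P`, `P = dbl e g`, becomes `fromBlocks A 0 0 B` after
reordering, `B = (-2) • hk1 g`, and `A = 2 • hk g` if `e = 0` (the correction is 0; `m + 0 = m`),
`A = (rA g)ᵀ (2 • hk g ⊕ 1) (rA g)` if `e = 1` (`rA_form` with `c = 2`, `d = 1`). Do the two cases
`e = 0`, `e = 1` separately (`subst`/`interval_cases`).
`det_gam`: `e = 0`: `det = 2^m det (hk g) * (-2)^m det (hk1 g)`, `det_hk1`; `e = 1`: additional factor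
`det (rA)^2 = (cf g 0)^2` (`rect_det`, `rA_det`).
`cls_gam`: `cls_submatrix`, `cls_fromBlocks`, `cls_rect`, `cls_blocks_one`. The determinants are
nonzero since `det_gam` is nonzero.
`det_hk_dbl`: `det (gamM P) = ± det (hk P)` (`gamM_eq`, `sgM_mul_self`).
-/

open Matrix Polynomial

namespace SpinWA

variable {K : Type*} [Field K] [CharZero K] {m e : ℕ}

private theorem CCls_blk1 (g : Fin m → K) :
    (rA g)ᵀ * fromBlocks ((2 : K) • hk g) 0 0 (diagonal fun _ : Fin 1 => (1 : K)) * rA g =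
      Matrix.of fun i j : Fin (m + 1) => 2 * psum g ((i : ℕ) + j) +
        (if (i : ℕ) + j = 0 then ((1 : ℕ) : K) else 0) := by
  rw [rA_form]
  simp

private theorem CCls_blk0 (g : Fin m → K) :
    (Matrix.of fun i j : Fin (m + 0) => 2 * psum g ((i : ℕ) + j) +
        (if (i : ℕ) + j = 0 then ((0 : ℕ) : K) else 0)) = (2 : K) • hk g := by
  ext i j
  simp [hk]

private theorem CCls_detB (g : Fin m → K) :
    ((-2 : K) • hk1 g).det = 2 ^ m * (hk g).det * cf g 0 := by
  rw [Matrix.det_smul, det_hk1, Fintype.card_fin]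
  have : (-2 : K) ^ m * (-1) ^ m = 2 ^ m := by rw [← mul_pow]; norm_num
  linear_combination (cf g 0 * (hk g).det) * this

private theorem CCls_detA (g : Fin m → K) :
    ((2 : K) • hk g).det = 2 ^ m * (hk g).det := by
  rw [Matrix.det_smul, Fintype.card_fin]

private theorem CCls_detD (g : Fin m → K) :
    (Matrix.of fun i j : Fin (m + 1) => 2 * psum g ((i : ℕ) + j) +
        (if (i : ℕ) + j = 0 then ((1 : ℕ) : K) else 0)).det = cf g 0 ^ 2 * (2 ^ m * (hk g).det) := by
  rw [rect_det (rA g) finSumFinEquiv (CCls_blk1 g), rA_det, Matrix.det_fromBlocks_zero₂₁,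
    CCls_detA]
  simp

theorem det_gam (he : e ≤ 1) (g : Fin m → K) :
    (gamM (dbl e g)).det = (2 ^ m * (hk g).det * cf g 0 ^ e) ^ 2 * cf g 0 := by
  obtain ⟨σ, hσ⟩ := gam_reindex (K := K) (m := m) he
  rw [← Matrix.det_submatrix_equiv_self σ, hσ g, Matrix.det_fromBlocks_zero₂₁, CCls_detB]
  interval_cases e
  · rw [CCls_blk0, CCls_detA]
    ring
  · rw [CCls_detD]
    ring

private theorem CCls_symD (g : Fin m → K) :
    (Matrix.of fun i j : Fin (m + e) => 2 * psum g ((i : ℕ) + j) +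
        (if (i : ℕ) + j = 0 then (e : K) else 0))ᵀ =
    Matrix.of fun i j : Fin (m + e) => 2 * psum g ((i : ℕ) + j) +
        (if (i : ℕ) + j = 0 then (e : K) else 0) := by
  ext i j
  simp only [Matrix.transpose_apply, Matrix.of_apply]
  rw [add_comm (j : ℕ) (i : ℕ)]

theorem cls_gam (he : e ≤ 1) (g : Fin m → K) (hd : (hk g).det ≠ 0) (h0 : cf g 0 ≠ 0) :
    cls (gamM (dbl e g)) = (e : ℕ) • cl 1 + cls ((2 : K) • hk g) + cls ((-2 : K) • hk1 g) := by
  have h2 : (2 : K) ≠ 0 := two_ne_zero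
  obtain ⟨σ, hσ⟩ := gam_reindex (K := K) (m := m) he
  have hdet : (gamM (dbl e g)).det ≠ 0 := by
    rw [det_gam he]
    exact mul_ne_zero (pow_ne_zero _ (mul_ne_zero (mul_ne_zero (pow_ne_zero _ h2) hd)
      (pow_ne_zero _ h0))) h0
  have hB : ((-2 : K) • hk1 g)ᵀ = (-2 : K) • hk1 g := by
    rw [Matrix.transpose_smul, hk1_transpose]
  have hdB : ((-2 : K) • hk1 g).det ≠ 0 := by
    rw [CCls_detB]
    exact mul_ne_zero (mul_ne_zero (pow_ne_zero _ h2) hd) h0
  have hA : ((2 : K) • hk g)ᵀ = (2 : K) • hk g := by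
    rw [Matrix.transpose_smul, hk_transpose]
  have hdA : ((2 : K) • hk g).det ≠ 0 := by
    rw [CCls_detA]
    exact mul_ne_zero (pow_ne_zero _ h2) hd
  rw [← cls_submatrix h2 (gamM_transpose he g) hdet σ, hσ g]
  rw [cls_fromBlocks h2 (CCls_symD g) ?_ hB hdB]
  · congr 1
    interval_cases e
    · rw [CCls_blk0]
      simp
    · have hAs : (fromBlocks ((2 : K) • hk g) 0 0 (diagonal fun _ : Fin 1 => (1 : K)))ᵀ =
          fromBlocks ((2 : K) • hk g) 0 0 (diagonal fun _ : Fin 1 => (1 : K)) := by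
        rw [Matrix.fromBlocks_transpose, hA]
        simp
      rw [cls_rect h2 (rA g) finSumFinEquiv (CCls_blk1 g) ?_ hAs,
        cls_blocks_one h2 hA hdA one_ne_zero]
      · simp [add_comm]
      · rw [CCls_detD]
        exact mul_ne_zero (pow_ne_zero _ h0) (mul_ne_zero (pow_ne_zero _ h2) hd)
  · interval_cases e
    · rw [CCls_blk0]
      exact hdA
    · rw [CCls_detD]
      exact mul_ne_zero (pow_ne_zero _ h0) (mul_ne_zero (pow_ne_zero _ h2) hd)

theorem det_hk_dbl (he : e ≤ 1) (g : Fin m → K) :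
    (hk (dbl e g)).det ≠ 0 ↔ (gamM (dbl e g)).det ≠ 0 := by
  have h1 : (sgM K (2 * m + e)).det * (sgM K (2 * m + e)).det = 1 := by
    rw [← Matrix.det_mul, sgM_mul_self, Matrix.det_one]
  have h2 : (sgM K (2 * m + e)).det ≠ 0 := by
    intro h
    rw [h, zero_mul] at h1
    exact zero_ne_one h1
  rw [gamM_eq, Matrix.det_mul]
  constructor
  · intro h
    exact mul_ne_zero h2 h
  · intro h
    exact right_ne_zero_of_mul h

end SpinWA
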