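import Pool.Agent.H.MP_83e36b_nt.sp.DUniq
import Pool.Agent.H.MP_83e36b_nt.sp.CId

/-!
# The second duality, forward

PROOF. Let `n = k + 1` (odd), `H = hk a`, `w = cmp a`, `S = cmS a`, `N = -4 S w S`, `R = kryM N`
invertible. `Sᵀ H = - H S` (`hk_cmS_antisymm`), `H w` symmetric (`hk_mul_cmp`), so `H N` is
symmetric: `H S w S = - Sᵀ (H w) S`. `e_0ᵀ H N^j e_0 = Tr (N^j)`: by `commutator_cmS`
`w S - S w = e_0 (psum a ·) - 1`; multiply by `N^j` and take traces: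
`e_0ᵀ H N^j e_0 - Tr (N^j) = Tr (w S N^j) - Tr (S w N^j)` and this is zero:
`N^j = (-4)^j (S w S)^j`, `w S (S w S)^j = (w S S)^j w S` and `S w (S w S)^j` have the same trace
(`(S w S)^j = S (w S S)^(j-1) w S` for `j ≥ 1`, so `w S (S w S)^j = (w S S)^j w S`, whose trace is
`Tr (w S (w S S)^j)`; and `Tr (S w (S w S)^j) = Tr (w (S w S)^j S) = Tr (w S (w S S)^j)`, since
`(S w S)^j S = S (w S S)^j`).
So with `P' = cpc N`: `Rᵀ H R` has the entries `e_0ᵀ (Nᵀ)^i H N^j e_0 = e_0ᵀ H N^{i+j} e_0 =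
Tr (N^{i+j}) = psum P' (i+j)` (`psum_cpc`): `Rᵀ H R = hk P'`. `P'_0 = ± det N = 0`, since
`det S = 0`: `H S` is antisymmetric of odd size, `det H ≠ 0`. So `P' = Fin.cons 0 g`,
`g = Fin.tail P'`. `det (hk P') = det(R)^2 det H ≠ 0` gives `cf g 0 ≠ 0`, `det (hk g) ≠ 0` by
`det_hk_cons`. Let `S' = R⁻¹ S R`, `W = R⁻¹ w R`. Then (conjugating; `R e_0 = e_0`
(`kryM_mulVec_e0`), `(psum a ·) R = e_0ᵀ H R = e_0ᵀ Rᵀ H R = e_0ᵀ hk P' = psum P' ·`)
`hk P' * S' = Rᵀ H S R` is antisymmetric, `hk P' * W = Rᵀ H w R` symmetric,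
`-4 S' W S' = R⁻¹ N R = cmp P'` (`mul_kryM`), `W S' - S' W = e_0 (psum P' ·) - 1`. By `Wop_unique`
`W = Wop g ρ` and `det (cmS g) ≠ 0`; `cmp a * R = R * W`.
-/

open Matrix Polynomial

namespace SpinWA

variable {K : Type*} [Field K] [CharZero K] {k : ℕ}

private theorem DFwd_trace {R : Type*} [CommRing R] {n : ℕ} (S w : Matrix (Fin n) (Fin n) R)
    (j : ℕ) : (w * S * (S * w * S) ^ j).trace = (S * w * (S * w * S) ^ j).trace := by
  have h1 : SemiconjBy S (w * S * S) (S * w * S) := by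
    unfold SemiconjBy
    simp only [Matrix.mul_assoc]
  have h2 : SemiconjBy (w * S) (S * w * S) (w * S * S) := by
    unfold SemiconjBy
    simp only [Matrix.mul_assoc]
  have h3 := (h1.pow_right j).eq
  have h4 := (h2.pow_right j).eq
  rw [h4, Matrix.trace_mul_comm, Matrix.mul_assoc w S, h3, ← Matrix.mul_assoc,
    Matrix.trace_mul_comm, ← Matrix.mul_assoc]

private theorem DFwd_moment (a : Fin (k + 1) → K) (hd : (hk a).det ≠ 0) (j : ℕ) :
    e0 K (k + 1) ⬝ᵥ (hk a *ᵥ (((-4 : K) • (cmS a * cmp a * cmS a)) ^ j *ᵥ e0 K (k + 1))) =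
      (((-4 : K) • (cmS a * cmp a * cmS a)) ^ j).trace := by
  have hc := commutator_cmS a hd
  have h1 := DFwd_trace (cmS a) (cmp a) j
  have h2 : ((cmp a * cmS a - cmS a * cmp a) * (cmS a * cmp a * cmS a) ^ j).trace = 0 := by
    rw [Matrix.sub_mul, Matrix.trace_sub, h1, sub_self]
  rw [hc, Matrix.sub_mul, Matrix.one_mul, Matrix.trace_sub, Matrix.vecMulVec_mul,
    Matrix.trace_vecMulVec, sub_eq_zero, ← e0_vecMul_hk] at h2
  rw [_root_.smul_pow, Matrix.trace_smul, ← h2, Matrix.smul_mulVec, Matrix.mulVec_smul,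
    dotProduct_smul, Matrix.dotProduct_mulVec, Matrix.dotProduct_mulVec, dotProduct_comm]

private theorem DFwd_skew {R : Type*} [CommRing R] {n : ℕ} {H N : Matrix (Fin n) (Fin n) R}
    (h : Nᵀ * H = H * N) (i : ℕ) : (N ^ i)ᵀ * H = H * N ^ i := by
  rw [Matrix.transpose_pow]
  induction i with
  | zero => simp
  | succ i ih =>
    rw [pow_succ, Matrix.mul_assoc, h, ← Matrix.mul_assoc, ih, Matrix.mul_assoc, ← pow_succ]

private theorem DFwd_sym (a : Fin (k + 1) → K) (hd : (hk a).det ≠ 0) :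
    ((-4 : K) • (cmS a * cmp a * cmS a))ᵀ * hk a =
      hk a * ((-4 : K) • (cmS a * cmp a * cmS a)) := by
  have h1 : (cmS a)ᵀ * hk a = - (hk a * cmS a) := by
    have h2 := hk_cmS_antisymm a hd
    rw [Matrix.transpose_mul, hk_transpose] at h2
    exact h2
  have h3 : (cmp a)ᵀ * hk a = hk a * cmp a := by
    have h4 := hk1_transpose a
    rw [← hk_mul_cmp, Matrix.transpose_mul, hk_transpose] at h4
    exact h4
  rw [Matrix.transpose_smul, Matrix.smul_mul, Matrix.mul_smul, Matrix.transpose_mul,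
    Matrix.transpose_mul]
  congr 1
  calc (cmS a)ᵀ * ((cmp a)ᵀ * (cmS a)ᵀ) * hk a
      = (cmS a)ᵀ * ((cmp a)ᵀ * ((cmS a)ᵀ * hk a)) := by simp only [Matrix.mul_assoc]
    _ = - ((cmS a)ᵀ * ((cmp a)ᵀ * hk a * cmS a)) := by
        rw [h1, Matrix.mul_neg, Matrix.mul_neg, Matrix.mul_assoc (cmp a)ᵀ]
    _ = - ((cmS a)ᵀ * hk a * (cmp a * cmS a)) := by
        rw [h3]
        simp only [Matrix.mul_assoc]
    _ = hk a * (cmS a * cmp a * cmS a) := by
        rw [h1, Matrix.neg_mul, neg_neg]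
        simp only [Matrix.mul_assoc]

private theorem DFwd_form (a : Fin (k + 1) → K) (hd : (hk a).det ≠ 0)
    (hN : (kryM ((-4 : K) • (cmS a * cmp a * cmS a))).det ≠ 0) :
    (kryM ((-4 : K) • (cmS a * cmp a * cmS a)))ᵀ * hk a *
      kryM ((-4 : K) • (cmS a * cmp a * cmS a)) =
      hk (cpc ((-4 : K) • (cmS a * cmp a * cmS a))) := by
  have hm := DFwd_moment a hd
  have hs := DFwd_sym a hd
  generalize (-4 : K) • (cmS a * cmp a * cmS a) = N at hN hm hs ⊢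
  ext i j
  have h1 : ((kryM N)ᵀ * hk a * kryM N) i j =
      (N ^ (i : ℕ) *ᵥ e0 K (k + 1)) ⬝ᵥ (hk a *ᵥ (N ^ (j : ℕ) *ᵥ e0 K (k + 1))) := by
    rw [Matrix.mul_assoc]
    rfl
  have h2 : (N ^ (i : ℕ) *ᵥ e0 K (k + 1)) ⬝ᵥ (hk a *ᵥ (N ^ (j : ℕ) *ᵥ e0 K (k + 1))) =
      e0 K (k + 1) ⬝ᵥ (((N ^ (i : ℕ))ᵀ * hk a) *ᵥ (N ^ (j : ℕ) *ᵥ e0 K (k + 1))) := by
    rw [← Matrix.mulVec_mulVec, Matrix.dotProduct_mulVec (e0 K (k + 1)),
      Matrix.vecMul_transpose]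
  rw [h1, h2, DFwd_skew hs, ← Matrix.mulVec_mulVec, Matrix.mulVec_mulVec _ (N ^ (i : ℕ)),
    ← pow_add, hm, ← psum_cpc hN]
  rfl

private theorem DFwd_zero (hk2 : Even k) (a : Fin (k + 1) → K) (hd : (hk a).det ≠ 0) :
    cpc ((-4 : K) • (cmS a * cmp a * cmS a)) 0 = 0 := by
  have h1 : (cmS a).det = 0 := by
    have h2 := congrArg Matrix.det (hk_cmS_antisymm a hd)
    rw [Matrix.det_transpose, Matrix.det_neg, Fintype.card_fin, (hk2.add_one).neg_one_pow,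
      neg_one_mul, self_eq_neg, Matrix.det_mul] at h2
    exact (mul_eq_zero.mp h2).resolve_left hd
  have h3 := Matrix.det_eq_sign_charpoly_coeff ((-4 : K) • (cmS a * cmp a * cmS a))
  rw [Matrix.det_smul, Matrix.det_mul, h1, mul_zero, mul_zero] at h3
  have h4 : (-1 : K) ^ Fintype.card (Fin (k + 1)) ≠ 0 :=
    pow_ne_zero _ (neg_ne_zero.mpr one_ne_zero)
  exact (mul_eq_zero.mp h3.symm).resolve_left h4

theorem fwd2 (hk2 : Even k) (a : Fin (k + 1) → K) (hd : (hk a).det ≠ 0)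
    (hN : (kryM ((-4 : K) • (cmS a * cmp a * cmS a))).det ≠ 0) :
    ∃ (g : Fin k → K) (ρ : K) (R : Matrix (Fin (k + 1)) (Fin (k + 1)) K),
      (hk g).det ≠ 0 ∧ cf g 0 ≠ 0 ∧ (cmS g).det ≠ 0 ∧ R.det ≠ 0 ∧
      Rᵀ * hk a * R = hk (Fin.cons 0 g : Fin (k + 1) → K) ∧
      cmp a * R = R * Wop g ρ ∧ R *ᵥ e0 K (k + 1) = e0 K (k + 1) := by
  have hform := DFwd_form a hd hN
  have hz := DFwd_zero hk2 a hd
  have hRe := kryM_mulVec_e0 ((-4 : K) • (cmS a * cmp a * cmS a))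
  have hRN := mul_kryM ((-4 : K) • (cmS a * cmp a * cmS a))
  have hR := hN
  obtain ⟨P', hP'⟩ : ∃ P', P' = cpc ((-4 : K) • (cmS a * cmp a * cmS a)) := ⟨_, rfl⟩
  obtain ⟨R, hRdef⟩ : ∃ R, R = kryM ((-4 : K) • (cmS a * cmp a * cmS a)) := ⟨_, rfl⟩
  rw [← hP'] at hform hz hRN
  rw [← hRdef] at hform hRe hRN hR
  obtain ⟨g, hg⟩ : ∃ g : Fin k → K, P' = Fin.cons 0 g :=
    ⟨Fin.tail P', by rw [← hz, Fin.cons_self_tail]⟩
  rw [hg] at hform hRN
  have hu : IsUnit R.det := isUnit_iff_ne_zero.mpr hR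
  have hdP : (hk (Fin.cons 0 g : Fin (k + 1) → K)).det ≠ 0 := by
    rw [← hform, Matrix.det_mul, Matrix.det_mul, Matrix.det_transpose]
    exact mul_ne_zero (mul_ne_zero hR hd) hR
  rw [det_hk_cons] at hdP
  have hdg : (hk g).det ≠ 0 := right_ne_zero_of_mul hdP
  have h0 : cf g 0 ≠ 0 := fun h => left_ne_zero_of_mul hdP (by rw [h]; ring)
  have e1 : R * R⁻¹ = 1 := Matrix.mul_nonsing_inv R hu
  have e2 : R⁻¹ * R = 1 := Matrix.nonsing_inv_mul R hu
  have key : ∀ M : Matrix (Fin (k + 1)) (Fin (k + 1)) K,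
      Rᵀ * hk a * R * (R⁻¹ * M * R) = Rᵀ * (hk a * M) * R := by
    intro M
    calc Rᵀ * hk a * R * (R⁻¹ * M * R) = Rᵀ * hk a * (R * R⁻¹) * M * R := by
          simp only [Matrix.mul_assoc]
      _ = Rᵀ * (hk a * M) * R := by
          rw [e1, Matrix.mul_one]
          simp only [Matrix.mul_assoc]
  have cjm : ∀ M M' : Matrix (Fin (k + 1)) (Fin (k + 1)) K,
      (R⁻¹ * M * R) * (R⁻¹ * M' * R) = R⁻¹ * (M * M') * R := by
    intro M M'
    calc (R⁻¹ * M * R) * (R⁻¹ * M' * R) = R⁻¹ * M * (R * R⁻¹) * M' * R := by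
          simp only [Matrix.mul_assoc]
      _ = R⁻¹ * (M * M') * R := by
          rw [e1, Matrix.mul_one]
          simp only [Matrix.mul_assoc]
  obtain ⟨ρ, hρ, hS⟩ := Wop_unique hk2 g hdg h0 (R⁻¹ * cmS a * R) (R⁻¹ * cmp a * R)
    (by
      rw [← hform, key, Matrix.transpose_mul, Matrix.transpose_mul, Matrix.transpose_transpose,
        hk_cmS_antisymm a hd, Matrix.neg_mul, Matrix.mul_neg]
      simp only [Matrix.mul_assoc])
    (by
      rw [← hform, key, Matrix.transpose_mul, Matrix.transpose_mul, Matrix.transpose_transpose,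
        hk_mul_cmp, hk1_transpose, Matrix.mul_assoc])
    (by
      rw [cjm, cjm, ← Matrix.smul_mul, ← Matrix.mul_smul, Matrix.mul_assoc, hRN,
        ← Matrix.mul_assoc, e2, Matrix.one_mul])
    (by
      rw [cjm, cjm, ← Matrix.sub_mul, ← Matrix.mul_sub, commutator_cmS a hd, Matrix.mul_sub,
        Matrix.sub_mul, Matrix.mul_one, e2, Matrix.mul_vecMulVec, Matrix.vecMulVec_mul]
      congr 2
      · conv_lhs => rw [← hRe, Matrix.mulVec_mulVec, e2, Matrix.one_mulVec]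
      · rw [← e0_vecMul_hk, ← e0_vecMul_hk, ← hform, ← Matrix.vecMul_vecMul,
          ← Matrix.vecMul_vecMul, Matrix.vecMul_transpose, hRe])
  refine ⟨g, ρ, R, hdg, h0, hS, hR, hform, ?_, hRe⟩
  rw [← hρ, ← Matrix.mul_assoc, ← Matrix.mul_assoc, e1, Matrix.one_mul]

end SpinWA
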