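import Pool.Agent.H.MP_83e36b_nt.sp.WApi

/-!
# Congruences with rectangular index types

PROOF. `P' = P.submatrix id e` is a square matrix over `κ` and
`A.submatrix e e = P'ᵀ B P'`; determinants (`Matrix.det_submatrix_equiv_self`, `det_mul`) give
`det P' ≠ 0`, `det B ≠ 0`. So `cls A = cls (A.submatrix e e) = cls B` (`cls_submatrix`, `cls_cong`).
`Bᵀ = B` is needed for `cls_cong`.
`cls_blocks_one`: `cls_fromBlocks` and `cls_diagonal`.
-/

open Matrix

namespace SpinWA

variable {ι κ K : Type*} [Fintype ι] [DecidableEq ι] [Fintype κ] [DecidableEq κ] [Field K]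

private theorem wRect_sub {A : Matrix ι ι K} {B : Matrix κ κ K} (P : Matrix κ ι K)
    (e : κ ≃ ι) (h : Pᵀ * B * P = A) :
    (P.submatrix id e)ᵀ * B * (P.submatrix id e) = A.submatrix e e := by
  rw [← h, Matrix.transpose_submatrix]
  ext i j
  simp [Matrix.mul_apply]

theorem rect_det {A : Matrix ι ι K} {B : Matrix κ κ K} (P : Matrix κ ι K)
    (e : κ ≃ ι) (h : Pᵀ * B * P = A) : A.det = (P.submatrix id e).det ^ 2 * B.det := by
  have h1 := congrArg Matrix.det (wRect_sub P e h)
  rw [Matrix.det_mul, Matrix.det_mul, Matrix.det_transpose,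
    Matrix.det_submatrix_equiv_self] at h1
  rw [← h1]
  ring

theorem cls_rect (h2 : (2 : K) ≠ 0) {A : Matrix ι ι K} {B : Matrix κ κ K} (P : Matrix κ ι K)
    (e : κ ≃ ι) (h : Pᵀ * B * P = A) (hA : A.det ≠ 0) (hB : Bᵀ = B) : cls A = cls B := by
  have hdet := rect_det P e h
  have hB0 : B.det ≠ 0 := by
    intro h0
    rw [h0, mul_zero] at hdet
    exact hA hdet
  have hP0 : (P.submatrix id e).det ≠ 0 := by
    intro h0
    rw [h0] at hdet
    apply hA
    rw [hdet]
    ring
  have hAs : Aᵀ = A := by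
    rw [← h, Matrix.transpose_mul, Matrix.transpose_mul, Matrix.transpose_transpose, hB,
      Matrix.mul_assoc]
  have hc : Cong B (A.submatrix e e) := ⟨P.submatrix id e, hP0, wRect_sub P e h⟩
  rw [← cls_submatrix h2 hAs hA e, cls_cong h2 hB hB0 hc]

theorem cls_blocks_one (h2 : (2 : K) ≠ 0) {A : Matrix ι ι K} (hA : Aᵀ = A) (hd : A.det ≠ 0)
    {c : K} (hc : c ≠ 0) :
    cls (fromBlocks A 0 0 (diagonal fun _ : Fin 1 => c)) = cls A + cl c := by
  rw [cls_fromBlocks h2 hA hd (Matrix.diagonal_transpose _) (by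
    rw [Matrix.det_diagonal]
    simpa using hc), cls_diagonal h2 (fun _ => hc)]
  simp

end SpinWA
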