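import Pool.Agent.H.MP_83e36b_nt.sp.DForm
import Pool.Agent.H.MP_83e36b_nt.sp.WRect
import Pool.Agent.H.MP_83e36b_nt.sp.KKryB

/-!
# Classes and determinants in the second duality

PROOF. `P = cons 0 g`, `W = Wop g ρ`, `Rᵀ (hk a) R = hk P`, `cmp a * R = R * W`.
`hk1 a = hk a * cmp a` (`hk_mul_cmp`), so `Rᵀ (hk1 a) R = Rᵀ (hk a) R W = hk P * W`.
`det_second`: determinants in `Aop_form`: with `A' = (Aop g).submatrix id finSumFinEquiv`
(`rect_det`): `(-2)^(k+1) det (hk P) det W = det(A')^2 (-2)^k det (hk1 g) ρ`;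
`det (hk P) = (cf g 0)^2 det (hk g)` (`det_hk_cons`), `det (hk1 g) = (-1)^k cf g 0 det (hk g)`
(`det_hk1`), `det W = det (cmp a) = (-1)^(k+1) cf a 0` (`det_cmp`, `W` and `cmp a` are
conjugate). Dividing by `2^k cf g 0 det (hk g)`: `2 cf g 0 cf a 0 = det(A')^2 ρ`.
`cls_second`: `cls (2 • hk a) = cls (2 • hk P) = cls (2 • hk g) + cl 2` (`cls_cong`, `cls_hk_cons`),
`cls ((-2) • hk1 a) = cls ((-2) • (hk P * W)) = cls ((-2) • hk1 g) + cl ρ` (`Aop_form`, `cls_rect`,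
`cls_blocks_one`). Nonvanishing of the determinants: `det (hk a) ≠ 0` from `det (hk P) ≠ 0`;
`cf a 0 ≠ 0` is assumed or follows from `det_second`, `ρ ≠ 0` and `det A' ≠ 0`. In `cls_second` we
assume `cf a 0 ≠ 0` and `ρ ≠ 0`.
-/

open Matrix Polynomial

namespace SpinWA

variable {K : Type*} [Field K] [CharZero K] {k : ℕ}

theorem DSec_conj (g : Fin k → K) (ρ : K) (a : Fin (k + 1) → K)
    (R : Matrix (Fin (k + 1)) (Fin (k + 1)) K)
    (h1 : Rᵀ * hk a * R = hk (Fin.cons 0 g : Fin (k + 1) → K))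
    (h2 : cmp a * R = R * Wop g ρ) :
    Rᵀ * hk1 a * R = hk (Fin.cons 0 g : Fin (k + 1) → K) * Wop g ρ := by
  rw [← hk_mul_cmp, ← h1, Matrix.mul_assoc Rᵀ (hk a * cmp a), Matrix.mul_assoc (hk a), h2]
  simp only [Matrix.mul_assoc]

theorem det_second (g : Fin k → K) (ρ : K) (hd : (hk g).det ≠ 0) (h0 : cf g 0 ≠ 0)
    (a : Fin (k + 1) → K) (R : Matrix (Fin (k + 1)) (Fin (k + 1)) K) (hR : R.det ≠ 0)
    (h1 : Rᵀ * hk a * R = hk (Fin.cons 0 g : Fin (k + 1) → K))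
    (h2 : cmp a * R = R * Wop g ρ) :
    2 * cf g 0 * cf a 0 = ((Aop g).submatrix id finSumFinEquiv).det ^ 2 * ρ := by
  have h3 := rect_det (Aop g) finSumFinEquiv (Aop_form g ρ hd h0)
  have hW : (Wop g ρ).det = (-1) ^ (k + 1) * cf a 0 := by
    have h4 := congrArg Matrix.det h2
    rw [Matrix.det_mul, Matrix.det_mul, mul_comm] at h4
    rw [← mul_left_cancel₀ hR h4, det_cmp]
  rw [Matrix.det_smul, Matrix.det_mul, Fintype.card_fin, hW, det_hk_cons,
    Matrix.det_fromBlocks_zero₂₁, Matrix.det_smul, Fintype.card_fin, det_hk1,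
    Matrix.det_diagonal] at h3
  simp only [Finset.univ_unique, Finset.prod_const, Finset.card_singleton, pow_one] at h3
  have h5 : (2 : K) ^ k ≠ 0 := pow_ne_zero _ two_ne_zero
  have h6 : (-2 : K) ^ (k + 1) * (-1) ^ (k + 1) = 2 ^ (k + 1) := by
    rw [← mul_pow]
    norm_num
  have h7 : (-2 : K) ^ k * (-1) ^ k = 2 ^ k := by
    rw [← mul_pow]
    norm_num
  have h8 : (2 ^ k * (cf g 0 * (hk g).det)) * (2 * cf g 0 * cf a 0) =
      (2 ^ k * (cf g 0 * (hk g).det)) *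
        (((Aop g).submatrix id finSumFinEquiv).det ^ 2 * ρ) := by
    calc (2 ^ k * (cf g 0 * (hk g).det)) * (2 * cf g 0 * cf a 0)
        = 2 ^ (k + 1) * (cf g 0 ^ 2 * (hk g).det) * cf a 0 := by ring
      _ = (-2 : K) ^ (k + 1) * (cf g 0 ^ 2 * (hk g).det * ((-1) ^ (k + 1) * cf a 0)) := by
          rw [← h6]; ring
      _ = _ := by rw [h3]
      _ = ((-2 : K) ^ k * (-1) ^ k) * (cf g 0 * (hk g).det) *
            (((Aop g).submatrix id finSumFinEquiv).det ^ 2 * ρ) := by ring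
      _ = _ := by rw [h7]
  exact mul_left_cancel₀ (mul_ne_zero h5 (mul_ne_zero h0 hd)) h8

theorem cls_second (g : Fin k → K) {ρ : K} (hρ : ρ ≠ 0) (hd : (hk g).det ≠ 0) (h0 : cf g 0 ≠ 0)
    (a : Fin (k + 1) → K) (ha : cf a 0 ≠ 0) (R : Matrix (Fin (k + 1)) (Fin (k + 1)) K)
    (hR : R.det ≠ 0) (h1 : Rᵀ * hk a * R = hk (Fin.cons 0 g : Fin (k + 1) → K))
    (h2 : cmp a * R = R * Wop g ρ) :
    (hk a).det ≠ 0 ∧ cls ((2 : K) • hk a) + cls ((-2 : K) • hk1 a) =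
      cls ((2 : K) • hk g) + cl 2 + (cls ((-2 : K) • hk1 g) + cl ρ) := by
  have t2 : (2 : K) ≠ 0 := two_ne_zero
  have t2' : (-2 : K) ≠ 0 := neg_ne_zero.mpr t2
  have hda : (hk a).det ≠ 0 := by
    intro h3
    have h4 := congrArg Matrix.det h1
    rw [Matrix.det_mul, Matrix.det_mul, h3, mul_zero, zero_mul, det_hk_cons] at h4
    exact mul_ne_zero (pow_ne_zero 2 h0) hd h4.symm
  have hd1a : (hk1 a).det ≠ 0 := by
    rw [det_hk1]
    exact mul_ne_zero (mul_ne_zero (pow_ne_zero _ (neg_ne_zero.mpr one_ne_zero)) ha) hda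
  have hd1g : (hk1 g).det ≠ 0 := by
    rw [det_hk1]
    exact mul_ne_zero (mul_ne_zero (pow_ne_zero _ (neg_ne_zero.mpr one_ne_zero)) h0) hd
  refine ⟨hda, ?_⟩
  have h3 : cls ((2 : K) • hk a) = cls ((2 : K) • hk g) + cl 2 := by
    rw [← cls_hk_cons t2 g hd h0]
    refine cls_cong t2 ?_ ?_ ⟨R, hR, ?_⟩
    · rw [Matrix.transpose_smul, hk_transpose]
    · rw [Matrix.det_smul]
      exact mul_ne_zero (pow_ne_zero _ t2) hda
    · rw [Matrix.mul_smul, Matrix.smul_mul, h1]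
  have h5 : cls ((-2 : K) • hk1 a) =
      cls ((-2 : K) • (hk (Fin.cons 0 g : Fin (k + 1) → K) * Wop g ρ)) := by
    refine cls_cong t2 ?_ ?_ ⟨R, hR, ?_⟩
    · rw [Matrix.transpose_smul, hk1_transpose]
    · rw [Matrix.det_smul]
      exact mul_ne_zero (pow_ne_zero _ t2') hd1a
    · rw [Matrix.mul_smul, Matrix.smul_mul, DSec_conj g ρ a R h1 h2]
  have h6 : cls ((-2 : K) • (hk (Fin.cons 0 g : Fin (k + 1) → K) * Wop g ρ)) =
      cls (fromBlocks ((-2 : K) • hk1 g) 0 0 (diagonal fun _ : Fin 1 => ρ)) := by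
    refine cls_rect t2 (Aop g) finSumFinEquiv (Aop_form g ρ hd h0) ?_ ?_
    · rw [← DSec_conj g ρ a R h1 h2, Matrix.det_smul, Matrix.det_mul, Matrix.det_mul,
        Matrix.det_transpose]
      exact mul_ne_zero (pow_ne_zero _ t2') (mul_ne_zero (mul_ne_zero hR hd1a) hR)
    · rw [Matrix.fromBlocks_transpose, Matrix.transpose_smul, hk1_transpose,
        Matrix.transpose_zero, Matrix.transpose_zero, Matrix.diagonal_transpose]
  rw [h3, h5, h6, cls_blocks_one t2 _ _ hρ]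
  · rw [Matrix.transpose_smul, hk1_transpose]
  · rw [Matrix.det_smul]
    exact mul_ne_zero (pow_ne_zero _ t2') hd1g

end SpinWA
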