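import Pool.Agent.H.MP_83e36b_nt.sp.DForm
import Pool.Agent.H.MP_83e36b_nt.sp.CId

/-!
# The second duality, backward

PROOF. `det_cm`: `vandermonde x * cmS g = cm(x) * vandermonde x`, so `det (cmS g) = det (cm x)`.
`trace_Wop`: after the embedding in an algebraic closure, in root coordinates: let `D = diag(y)`,
`M = cm(y)`, `M1 = cm(x)` (invertible since `det (cmS g) ≠ 0`), `Σ` = the matrix with row and column 0
zero and the block `(1/4) M1⁻¹` in the rows and columns `1..k`. Claim: `Wrt Σ - Σ Wrt = J - 1`, `J` the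
all-one matrix. The block `(i, j ≥ 1)` of `Wrt` is `-4 M1 diag(x) M1` (since `y_0 = 0`), so
that block of `Wrt Σ - Σ Wrt` is `- M1 diag(x) + diag(x) M1 = J - 1` (`NoetherAn.commutator`). The row 0
of `Wrt` (columns `j ≥ 1`): `-4 ∑_l M_{0l} x_l (M1)_{lj}`, `M_{0l} = -1/x_l`: `4 ∑_l (M1)_{lj}`, i.e.
`4 1ᵀ M1`; times `(1/4) M1⁻¹`: `1ᵀ`: entry `(0, j)` of `Wrt Σ - Σ Wrt` is 1. Column 0 of `Wrt`
(rows `i ≥ 1`): `-4 ∑_l (M1)_{il} x_l (1/x_l) = -4 (M1 1)_i`; entry `(i, 0)` of `Wrt Σ - Σ Wrt` is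
`- (1/4) M1⁻¹ (-4 M1 1) = 1`. Entry `(0,0)` is `0 = 1 - 1`. Conjugating with `V` (`V e_0 = 1`,
`1ᵀ V = e_0ᵀ Vᵀ V = e_0ᵀ hk P = psum P ·`) we get
`W Z - Z W = vecMulVec e_0 (psum P ·) - 1`, `Z = V⁻¹ Σ V`, and `trace_pow_identity`.
`bwd2`: `R = (kryM W)⁻¹`, `a = cpc W`. `(kryM W)ᵀ (hk P) (kryM W)` has the entries
`e_0ᵀ (Wᵀ)^i (hk P) W^j e_0 = e_0ᵀ (hk P) W^{i+j} e_0` (`hk_Wop_transpose`, `hk_transpose`)
`= Tr (W^{i+j}) = psum a (i+j)` (`psum_cpc`), so it is `hk a`; hence `Rᵀ (hk a) R = hk P`.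
`W (kryM W) = (kryM W) cmp a` (`mul_kryM`), so `cmp a * R = R * W`.
-/

open Matrix Polynomial

namespace SpinWA

section
variable {L : Type*} [Field L] {k : ℕ}

/-- The matrix with row and column `0` zero and the block `(1/4) N`. -/
private def DTr_S (N : Matrix (Fin k) (Fin k) L) : Matrix (Fin (k + 1)) (Fin (k + 1)) L :=
  Matrix.of fun i j => Fin.cases (motive := fun _ => L) 0
    (fun i' => Fin.cases (motive := fun _ => L) 0 (fun j' => (1 / 4) * N i' j') j) i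

private theorem DTr_S_zero (N : Matrix (Fin k) (Fin k) L) (j : Fin (k + 1)) :
    DTr_S N 0 j = 0 := rfl

private theorem DTr_S_zero' (N : Matrix (Fin k) (Fin k) L) (i : Fin (k + 1)) :
    DTr_S N i 0 = 0 := by
  refine Fin.cases rfl (fun i' => ?_) i
  rfl

private theorem DTr_S_succ (N : Matrix (Fin k) (Fin k) L) (i j : Fin k) :
    DTr_S N i.succ j.succ = (1 / 4) * N i j := rfl

private theorem DTr_e0_succ (i : Fin k) : e0 L (k + 1) i.succ = 0 := by
  unfold e0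
  rw [Fin.val_succ, if_neg (Nat.succ_ne_zero _)]

private theorem DTr_A (x : Fin k → L) (i j : Fin (k + 1)) :
    (NoetherAn.cm (Fin.cons 0 x : Fin (k + 1) → L) * diagonal (Fin.cons 0 x : Fin (k + 1) → L) *
      NoetherAn.cm (Fin.cons 0 x : Fin (k + 1) → L)) i j =
      ∑ l : Fin k, NoetherAn.cm (Fin.cons 0 x : Fin (k + 1) → L) i l.succ * x l *
        NoetherAn.cm (Fin.cons 0 x : Fin (k + 1) → L) l.succ j := by
  rw [Matrix.mul_apply, Fin.sum_univ_succ]
  simp only [Matrix.mul_diagonal, Fin.cons_zero, mul_zero, zero_mul, zero_add, Fin.cons_succ]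

private theorem DTr_W_left (x : Fin k → L) (ρ : L) (i : Fin (k + 1)) (j : Fin k) :
    Wrt x ρ i j.succ = -4 * ∑ l : Fin k, NoetherAn.cm (Fin.cons 0 x : Fin (k + 1) → L) i l.succ *
      x l * NoetherAn.cm x l j := by
  unfold Wrt
  rw [Matrix.sub_apply, Matrix.smul_apply, Matrix.smul_apply, Matrix.vecMulVec_apply, DTr_e0_succ,
    mul_zero, smul_zero, sub_zero, DTr_A, smul_eq_mul]
  congr 1

private theorem DTr_W_right (x : Fin k → L) (ρ : L) (i : Fin k) (j : Fin (k + 1)) :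
    Wrt x ρ i.succ j = -4 * ∑ l : Fin k, NoetherAn.cm x i l *
      x l * NoetherAn.cm (Fin.cons 0 x : Fin (k + 1) → L) l.succ j := by
  unfold Wrt
  rw [Matrix.sub_apply, Matrix.smul_apply, Matrix.smul_apply, Matrix.vecMulVec_apply, DTr_e0_succ,
    zero_mul, smul_zero, sub_zero, DTr_A, smul_eq_mul]
  congr 1

private theorem DTr_comm [CharZero L] (x : Fin k → L) (ρ : L)
    (hy : Function.Injective (Fin.cons 0 x : Fin (k + 1) → L))
    (hdet : (NoetherAn.cm x).det ≠ 0) :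
    Wrt x ρ * DTr_S (NoetherAn.cm x)⁻¹ - DTr_S (NoetherAn.cm x)⁻¹ * Wrt x ρ =
      Matrix.of (fun _ _ => (1 : L)) - 1 := by
  have hx : Function.Injective x := by
    intro a b hab
    have h1 : (Fin.cons 0 x : Fin (k + 1) → L) a.succ = (Fin.cons 0 x : Fin (k + 1) → L) b.succ := by
      rw [Fin.cons_succ, Fin.cons_succ, hab]
    exact Fin.succ_injective _ (hy h1)
  have hx0 : ∀ i, x i ≠ 0 := by
    intro i h0
    have h1 : (Fin.cons 0 x : Fin (k + 1) → L) i.succ = (Fin.cons 0 x : Fin (k + 1) → L) 0 := by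
      rw [Fin.cons_succ, Fin.cons_zero, h0]
    exact absurd (hy h1) (Fin.succ_ne_zero i)
  have hu : IsUnit (NoetherAn.cm x).det := isUnit_iff_ne_zero.2 hdet
  have h1 : NoetherAn.cm x * (NoetherAn.cm x)⁻¹ = 1 := Matrix.mul_nonsing_inv _ hu
  have h2 : (NoetherAn.cm x)⁻¹ * NoetherAn.cm x = 1 := Matrix.nonsing_inv_mul _ hu
  have h4 : (4 : L) ≠ 0 := by norm_num
  have hcomm := NoetherAn.commutator hx
  generalize hN : (NoetherAn.cm x)⁻¹ = N at h1 h2 ⊢
  have hl : ∀ i j : Fin k, ∑ l : Fin k, NoetherAn.cm x i l * N l j = if i = j then 1 else 0 := by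
    intro i j
    have := congrFun (congrFun h1 i) j
    rw [Matrix.mul_apply, Matrix.one_apply] at this
    exact this
  have hr : ∀ i j : Fin k, ∑ l : Fin k, N i l * NoetherAn.cm x l j = if i = j then 1 else 0 := by
    intro i j
    have := congrFun (congrFun h2 i) j
    rw [Matrix.mul_apply, Matrix.one_apply] at this
    exact this
  -- the products
  have hWS : ∀ (i : Fin (k + 1)) (j : Fin k), (Wrt x ρ * DTr_S N) i j.succ =
      - ∑ l : Fin k, NoetherAn.cm (Fin.cons 0 x : Fin (k + 1) → L) i l.succ * x l *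
        (if l = j then 1 else 0) := by
    intro i j
    rw [Matrix.mul_apply, Fin.sum_univ_succ, DTr_S_zero, mul_zero, zero_add]
    have e1 : ∀ l' : Fin k, Wrt x ρ i l'.succ * DTr_S N l'.succ j.succ =
        - ∑ l : Fin k, NoetherAn.cm (Fin.cons 0 x : Fin (k + 1) → L) i l.succ * x l *
          (NoetherAn.cm x l l' * N l' j) := by
      intro l'
      rw [DTr_W_left, DTr_S_succ, Finset.mul_sum, Finset.sum_mul, ← Finset.sum_neg_distrib]
      refine Finset.sum_congr rfl fun l _ => ?_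
      field_simp
    rw [Finset.sum_congr rfl fun l' _ => e1 l', Finset.sum_neg_distrib, Finset.sum_comm]
    congr 1
    refine Finset.sum_congr rfl fun l _ => ?_
    rw [← Finset.mul_sum, hl]
  have hSW : ∀ (i : Fin k) (j : Fin (k + 1)), (DTr_S N * Wrt x ρ) i.succ j =
      - ∑ l : Fin k, (if i = l then 1 else 0) * x l *
        NoetherAn.cm (Fin.cons 0 x : Fin (k + 1) → L) l.succ j := by
    intro i j
    rw [Matrix.mul_apply, Fin.sum_univ_succ, DTr_S_zero', zero_mul, zero_add]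
    have e1 : ∀ l' : Fin k, DTr_S N i.succ l'.succ * Wrt x ρ l'.succ j =
        - ∑ l : Fin k, (N i l' * NoetherAn.cm x l' l) * x l *
          NoetherAn.cm (Fin.cons 0 x : Fin (k + 1) → L) l.succ j := by
      intro l'
      rw [DTr_W_right, DTr_S_succ, Finset.mul_sum, Finset.mul_sum, ← Finset.sum_neg_distrib]
      refine Finset.sum_congr rfl fun l _ => ?_
      field_simp
    rw [Finset.sum_congr rfl fun l' _ => e1 l', Finset.sum_neg_distrib, Finset.sum_comm]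
    congr 1
    refine Finset.sum_congr rfl fun l _ => ?_
    rw [← hr i l, Finset.sum_mul, Finset.sum_mul]
  have hWS0 : ∀ i : Fin (k + 1), (Wrt x ρ * DTr_S N) i 0 = 0 := by
    intro i
    rw [Matrix.mul_apply]
    exact Finset.sum_eq_zero fun l _ => by rw [DTr_S_zero', mul_zero]
  have hSW0 : ∀ j : Fin (k + 1), (DTr_S N * Wrt x ρ) 0 j = 0 := by
    intro j
    rw [Matrix.mul_apply]
    exact Finset.sum_eq_zero fun l _ => by rw [DTr_S_zero, zero_mul]
  have hcm : ∀ i j : Fin (k + 1), NoetherAn.cm (Fin.cons 0 x : Fin (k + 1) → L) i j =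
      ((Fin.cons 0 x : Fin (k + 1) → L) i - (Fin.cons 0 x : Fin (k + 1) → L) j)⁻¹ :=
    fun _ _ => rfl
  ext i j
  rw [Matrix.sub_apply, Matrix.sub_apply, Matrix.of_apply, Matrix.one_apply]
  refine Fin.cases ?_ (fun i' => ?_) i
  · refine Fin.cases ?_ (fun j' => ?_) j
    · rw [hWS0, hSW0, if_pos rfl]
      ring
    · rw [hWS, hSW0, if_neg (Fin.succ_ne_zero j').symm]
      rw [Finset.sum_eq_single j']
      · rw [if_pos rfl, hcm, Fin.cons_zero, Fin.cons_succ]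
        have := hx0 j'
        field_simp
        ring
      · intro l _ hlj
        rw [if_neg hlj, mul_zero]
      · intro h
        exact absurd (Finset.mem_univ _) h
  · refine Fin.cases ?_ (fun j' => ?_) j
    · rw [hWS0, hSW, if_neg (Fin.succ_ne_zero i')]
      rw [Finset.sum_eq_single i']
      · rw [if_pos rfl, hcm, Fin.cons_zero, Fin.cons_succ]
        have := hx0 i'
        field_simp
        ring
      · intro l _ hlj
        rw [if_neg (Ne.symm hlj), zero_mul, zero_mul]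
      · intro h
        exact absurd (Finset.mem_univ _) h
    · rw [hWS, hSW, Finset.sum_eq_single j', Finset.sum_eq_single i', if_pos rfl, if_pos rfl]
      · have h5 := congrFun (congrFun hcomm i') j'
        rw [Matrix.sub_apply, Matrix.sub_apply, Matrix.of_apply, Matrix.one_apply,
          Matrix.diagonal_mul, Matrix.mul_diagonal] at h5
        have h6 : (if i'.succ = j'.succ then (1 : L) else 0) = if i' = j' then 1 else 0 := by
          simp only [Fin.succ_inj]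
        rw [h6, ← h5, hcm]
        show _ = x i' * (x i' - x j')⁻¹ - (x i' - x j')⁻¹ * x j'
        rw [Fin.cons_succ, Fin.cons_succ]
        ring
      · intro l _ hlj
        rw [if_neg (Ne.symm hlj), zero_mul, zero_mul]
      · intro h
        exact absurd (Finset.mem_univ _) h
      · intro l _ hlj
        rw [if_neg hlj, mul_zero]
      · intro h
        exact absurd (Finset.mem_univ _) h

private theorem DTr_root [CharZero L] (g x : Fin k → L) (ρ : L)
    (hy : Function.Injective (Fin.cons 0 x : Fin (k + 1) → L)) (hx : Function.Injective x)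
    (hg : AnWA.monicPoly g = ∏ i, (X - C (x i)))
    (hP : AnWA.monicPoly (Fin.cons 0 g : Fin (k + 1) → L) =
      ∏ i, (X - C ((Fin.cons 0 x : Fin (k + 1) → L) i)))
    (hS : (cmS g).det ≠ 0) (j : ℕ) :
    (fun i : Fin (k + 1) => psum (Fin.cons 0 g : Fin (k + 1) → L) (i : ℕ)) ⬝ᵥ
      (Wop g ρ ^ j *ᵥ e0 L (k + 1)) = (Wop g ρ ^ j).trace := by
  have hVx : (vandermonde x).det ≠ 0 := Matrix.det_vandermonde_ne_zero_iff.2 hx
  have hcm : (NoetherAn.cm x).det ≠ 0 := by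
    intro h0
    have h1 := congrArg Matrix.det (vand_cmS x g hx hg)
    rw [Matrix.det_mul, Matrix.det_mul, h0, zero_mul] at h1
    exact (mul_ne_zero hVx hS) h1
  have h1 := DTr_comm x ρ hy hcm
  generalize hSdef : DTr_S (NoetherAn.cm x)⁻¹ = S at h1
  have hV : IsUnit (vandermonde (Fin.cons 0 x : Fin (k + 1) → L)).det :=
    isUnit_iff_ne_zero.2 (Matrix.det_vandermonde_ne_zero_iff.2 hy)
  have h2 := vand_Wop g x ρ hy hg
  have h3 := vand_hk _ _ hy hP
  have h4 := vand_e0 (Fin.cons 0 x : Fin (k + 1) → L)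
  generalize (vandermonde (Fin.cons 0 x : Fin (k + 1) → L)) = V at hV h2 h3 h4
  have hVV : V * V⁻¹ = 1 := Matrix.mul_nonsing_inv _ hV
  have hVV' : V⁻¹ * V = 1 := Matrix.nonsing_inv_mul _ hV
  have hW : Wop g ρ = V⁻¹ * Wrt x ρ * V := by
    rw [Matrix.mul_assoc, ← h2, ← Matrix.mul_assoc, hVV', Matrix.one_mul]
  refine trace_pow_identity (Z := V⁻¹ * S * V) ?_ j
  have e1 : Wop g ρ * (V⁻¹ * S * V) = V⁻¹ * (Wrt x ρ * S) * V := by
    rw [hW]
    calc V⁻¹ * Wrt x ρ * V * (V⁻¹ * S * V) = V⁻¹ * Wrt x ρ * (V * V⁻¹) * S * V := by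
          simp only [Matrix.mul_assoc]
      _ = V⁻¹ * (Wrt x ρ * S) * V := by rw [hVV, Matrix.mul_one]; simp only [Matrix.mul_assoc]
  have e2 : (V⁻¹ * S * V) * Wop g ρ = V⁻¹ * (S * Wrt x ρ) * V := by
    rw [hW]
    calc V⁻¹ * S * V * (V⁻¹ * Wrt x ρ * V) = V⁻¹ * S * (V * V⁻¹) * Wrt x ρ * V := by
          simp only [Matrix.mul_assoc]
      _ = V⁻¹ * (S * Wrt x ρ) * V := by rw [hVV, Matrix.mul_one]; simp only [Matrix.mul_assoc]
  have e3 : (fun i : Fin (k + 1) => psum (Fin.cons 0 g : Fin (k + 1) → L) (i : ℕ)) =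
      (fun _ : Fin (k + 1) => (1 : L)) ᵥ* V := by
    rw [← e0_vecMul_hk (Fin.cons 0 g : Fin (k + 1) → L), ← h3, ← Matrix.vecMul_vecMul,
      Matrix.vecMul_transpose, h4]
  have e4 : V⁻¹ *ᵥ (fun _ : Fin (k + 1) => (1 : L)) = e0 L (k + 1) := by
    rw [← h4, Matrix.mulVec_mulVec, hVV', Matrix.one_mulVec]
  have e5 : (Matrix.of (fun _ _ => (1 : L)) : Matrix (Fin (k + 1)) (Fin (k + 1)) L) =
      vecMulVec (fun _ => 1) (fun _ => 1) := by
    ext i j
    rw [Matrix.of_apply, Matrix.vecMulVec_apply, mul_one]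
  rw [e1, e2, ← Matrix.sub_mul, ← Matrix.mul_sub, h1, Matrix.mul_sub, Matrix.sub_mul,
    Matrix.mul_one, hVV', e5, Matrix.mul_vecMulVec, e4, Matrix.vecMulVec_mul, e3]

end

variable {K : Type*} [Field K] [CharZero K] {k : ℕ}

theorem trace_Wop (g : Fin k → K) (ρ : K) (hd : (hk g).det ≠ 0) (h0 : cf g 0 ≠ 0)
    (hS : (cmS g).det ≠ 0) (j : ℕ) :
    (fun i : Fin (k + 1) => psum (Fin.cons 0 g : Fin (k + 1) → K) (i : ℕ)) ⬝ᵥ
      (Wop g ρ ^ j *ᵥ e0 K (k + 1)) = (Wop g ρ ^ j).trace := by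
  let φ : K →+* AlgebraicClosure K := algebraMap K (AlgebraicClosure K)
  have hφ : Function.Injective φ := φ.injective
  have : CharZero (AlgebraicClosure K) := charZero_of_injective_algebraMap hφ
  obtain ⟨x, hy, hx, hx0, hg, hP⟩ := exists_roots_cons φ g hd h0
  have hS' : (cmS fun i => φ (g i)).det ≠ 0 := by
    rw [← cmS_map φ, ← RingHom.mapMatrix_apply, ← RingHom.map_det]
    intro h1
    exact hS ((map_eq_zero φ).1 h1)
  have h1 := DTr_root (fun i => φ (g i)) x (φ ρ) hy hx hg hP hS' j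
  apply hφ
  have hc : (fun i => φ ((Fin.cons 0 g : Fin (k + 1) → K) i)) =
      (Fin.cons 0 (fun i => φ (g i)) : Fin (k + 1) → AlgebraicClosure K) := by
    funext i
    refine Fin.cases ?_ (fun i => ?_) i
    · simp
    · simp
  have e1 : φ (Wop g ρ ^ j).trace = (Wop (fun i => φ (g i)) (φ ρ) ^ j).trace := by
    rw [← Wop_map φ, ← RingHom.mapMatrix_apply, ← map_pow, RingHom.mapMatrix_apply]
    exact AddMonoidHom.map_trace φ.toAddMonoidHom _
  have e2 : φ ((fun i : Fin (k + 1) => psum (Fin.cons 0 g : Fin (k + 1) → K) (i : ℕ)) ⬝ᵥ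
      (Wop g ρ ^ j *ᵥ e0 K (k + 1))) =
      (fun i : Fin (k + 1) => psum (Fin.cons 0 (fun i => φ (g i)) :
        Fin (k + 1) → AlgebraicClosure K) (i : ℕ)) ⬝ᵥ
      (Wop (fun i => φ (g i)) (φ ρ) ^ j *ᵥ e0 (AlgebraicClosure K) (k + 1)) := by
    rw [RingHom.map_dotProduct]
    congr 1
    · funext i
      rw [Function.comp_apply, psum_map φ, hc]
    · funext i
      rw [Function.comp_apply, RingHom.map_mulVec, ← RingHom.mapMatrix_apply, map_pow,
        RingHom.mapMatrix_apply, Wop_map φ]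
      congr 2
      funext i
      exact e0_map φ i
  rw [e1, e2]
  exact h1

theorem bwd2 (g : Fin k → K) (ρ : K) (hd : (hk g).det ≠ 0) (h0 : cf g 0 ≠ 0)
    (hS : (cmS g).det ≠ 0) (hW : (kryM (Wop g ρ)).det ≠ 0) :
    ∃ R : Matrix (Fin (k + 1)) (Fin (k + 1)) K, R.det ≠ 0 ∧
      Rᵀ * hk (cpc (Wop g ρ)) * R = hk (Fin.cons 0 g : Fin (k + 1) → K) ∧
      cmp (cpc (Wop g ρ)) * R = R * Wop g ρ := by
  have hu : IsUnit (kryM (Wop g ρ)).det := isUnit_iff_ne_zero.2 hW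
  have hT : ∀ i : ℕ, (Wop g ρ ^ i)ᵀ * hk (Fin.cons 0 g : Fin (k + 1) → K) =
      hk (Fin.cons 0 g : Fin (k + 1) → K) * Wop g ρ ^ i := by
    have h0' : (Wop g ρ)ᵀ * hk (Fin.cons 0 g : Fin (k + 1) → K) =
        hk (Fin.cons 0 g : Fin (k + 1) → K) * Wop g ρ := by
      have h1 := hk_Wop_transpose g ρ hd h0
      rw [Matrix.transpose_mul, hk_transpose] at h1
      exact h1
    intro i
    rw [Matrix.transpose_pow]
    induction i with
    | zero => simp
    | succ i ih =>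
      rw [pow_succ, Matrix.mul_assoc, h0', ← Matrix.mul_assoc, ih, Matrix.mul_assoc, ← pow_succ]
  have hkey : (kryM (Wop g ρ))ᵀ * hk (Fin.cons 0 g : Fin (k + 1) → K) * kryM (Wop g ρ) =
      hk (cpc (Wop g ρ)) := by
    ext i j
    have h1 : ((kryM (Wop g ρ))ᵀ * hk (Fin.cons 0 g : Fin (k + 1) → K) * kryM (Wop g ρ)) i j =
        (Wop g ρ ^ (i : ℕ) *ᵥ e0 K (k + 1)) ⬝ᵥ
          (hk (Fin.cons 0 g : Fin (k + 1) → K) *ᵥ (Wop g ρ ^ (j : ℕ) *ᵥ e0 K (k + 1))) := by
      rw [Matrix.mul_assoc]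
      rfl
    have h2 : (Wop g ρ ^ (i : ℕ) *ᵥ e0 K (k + 1)) ⬝ᵥ
          (hk (Fin.cons 0 g : Fin (k + 1) → K) *ᵥ (Wop g ρ ^ (j : ℕ) *ᵥ e0 K (k + 1))) =
        e0 K (k + 1) ⬝ᵥ (((Wop g ρ ^ (i : ℕ))ᵀ * hk (Fin.cons 0 g : Fin (k + 1) → K)) *ᵥ
          (Wop g ρ ^ (j : ℕ) *ᵥ e0 K (k + 1))) := by
      rw [← Matrix.mulVec_mulVec, Matrix.dotProduct_mulVec (e0 K (k + 1)),
        Matrix.vecMul_transpose]
    rw [h1, h2, hT, ← Matrix.mulVec_mulVec, Matrix.mulVec_mulVec _ (Wop g ρ ^ (i : ℕ)),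
      ← pow_add, Matrix.dotProduct_mulVec, e0_vecMul_hk, trace_Wop g ρ hd h0 hS, ← psum_cpc hW]
    rfl
  have h1 : kryM (Wop g ρ) * (kryM (Wop g ρ))⁻¹ = 1 := Matrix.mul_nonsing_inv _ hu
  have h2 : (kryM (Wop g ρ))⁻¹ * kryM (Wop g ρ) = 1 := Matrix.nonsing_inv_mul _ hu
  refine ⟨(kryM (Wop g ρ))⁻¹, ?_, ?_, ?_⟩
  · intro h3
    have h4 := congrArg Matrix.det h1
    rw [Matrix.det_mul, h3, mul_zero, Matrix.det_one] at h4
    exact zero_ne_one h4
  · rw [← hkey]
    calc ((kryM (Wop g ρ))⁻¹)ᵀ * ((kryM (Wop g ρ))ᵀ * hk (Fin.cons 0 g : Fin (k + 1) → K) *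
          kryM (Wop g ρ)) * (kryM (Wop g ρ))⁻¹
        = (((kryM (Wop g ρ))⁻¹)ᵀ * (kryM (Wop g ρ))ᵀ) * hk (Fin.cons 0 g : Fin (k + 1) → K) *
          (kryM (Wop g ρ) * (kryM (Wop g ρ))⁻¹) := by simp only [Matrix.mul_assoc]
      _ = hk (Fin.cons 0 g : Fin (k + 1) → K) := by
          rw [h1, ← Matrix.transpose_mul, h1, Matrix.transpose_one, Matrix.one_mul,
            Matrix.mul_one]
  · have h3 := mul_kryM (Wop g ρ)
    calc cmp (cpc (Wop g ρ)) * (kryM (Wop g ρ))⁻¹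
        = (kryM (Wop g ρ))⁻¹ * (kryM (Wop g ρ) * cmp (cpc (Wop g ρ))) * (kryM (Wop g ρ))⁻¹ := by
          rw [← Matrix.mul_assoc, h2, Matrix.one_mul]
      _ = (kryM (Wop g ρ))⁻¹ * Wop g ρ := by
          rw [← h3, Matrix.mul_assoc, Matrix.mul_assoc, h1, Matrix.mul_one]

end SpinWA
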