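import Pool.Agent.H.MP_83e36b_nt.sp.PDefs

/-!
# Nonvanishing of polynomials near a given point

PROOF. `exists_near_ne`: the neighbourhood `U` contains a product of infinite sets `s_i` (balls in a
nontrivially normed field are infinite). If `Φ` vanished on the product then `Φ.map φ = 0` by
`MvPolynomial.funext_set` (or `MvPolynomial.funext_set`-like lemma: a polynomial vanishing on a
product of infinite sets is zero), contradiction with `φ` injective.
`exists_rat_ne`: `ℚ` is infinite, `MvPolynomial.funext`.
-/

open Topology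

namespace SpinWA

theorem exists_near_ne {K : Type*} [NontriviallyNormedField K] (φ : ℚ →+* K) {n : ℕ}
    (Φ : MvPolynomial (Fin n) ℚ) (hΦ : Φ ≠ 0) (a : Fin n → K) {U : Set (Fin n → K)}
    (hU : U ∈ 𝓝 a) : ∃ a' ∈ U, MvPolynomial.eval₂ φ a' Φ ≠ 0 := by
  obtain ⟨ε, hε, hball⟩ := Metric.mem_nhds_iff.1 hU
  by_contra hcon
  push Not at hcon
  have hinf : ∀ i : Fin n, (Metric.ball (a i) ε).Infinite := fun i =>
    infinite_of_mem_nhds (a i) (Metric.ball_mem_nhds (a i) hε)
  have hzero : MvPolynomial.map φ Φ = 0 := by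
    apply MvPolynomial.funext_set (fun i => Metric.ball (a i) ε) hinf
    intro x hx
    have hxU : x ∈ U := by
      apply hball
      rw [Metric.mem_ball, dist_pi_lt_iff hε]
      intro i
      exact hx i (Set.mem_univ i)
    rw [map_zero, MvPolynomial.eval_map]
    exact hcon x hxU
  exact hΦ (MvPolynomial.map_injective φ φ.injective (by rw [hzero, map_zero]))

theorem exists_rat_ne {n : ℕ} (Φ : MvPolynomial (Fin n) ℚ) (hΦ : Φ ≠ 0) :
    ∃ a : Fin n → ℚ, MvPolynomial.eval a Φ ≠ 0 := by
  by_contra hcon
  push Not at hcon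
  exact hΦ (MvPolynomial.funext fun x => by rw [hcon x, map_zero])

end SpinWA
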