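import Pool.Agent.H.MP_83e36b_nt.sp.PMap
import Pool.Agent.H.MP_83e36b_nt.sp.CId
import Pool.Agent.H.MP_83e36b_nt.sp.GDense

/-!
# Generic nonvanishing conditions are given by polynomials

PROOF. For a commutative ring `R` and `a : Fin n → R`, `f = monicPoly a`, `C = cmp a`, let
`δ = det (f'(C))` and `gS a = f''(C) * adjugate (f'(C)) + (2 δ) • cmN a`. It commutes with ring
homomorphisms, and over a field of characteristic `≠ 2` with `δ ≠ 0` `gS a = (2 δ) • cmS a`
(`A⁻¹ = (det A)⁻¹ • adjugate A`).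
`generic_poly`: take `Φ = det (hk X) * δ(X) * det (kryM (F X))` in `MvPolynomial (Fin n) ℚ`, where
`X = MvPolynomial.X` is the generic coefficient vector and `F a = gS a` (`poly1`) resp.
`F a = gS a * cmp a * gS a` (`poly2`). For a ring homomorphism `φ : ℚ → K` and `a : Fin n → K`,
`eval₂ φ a Φ = det (hk a) δ(a) det (kryM (F a))` by compatibility with the ring homomorphism
`MvPolynomial.eval₂Hom φ a`. If it is nonzero then `det (hk a) ≠ 0`, and since
`kryM (c • M) = kryM M * diagonal (c^k)`, `det (kryM (cmS a)) ≠ 0` resp.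
`det (kryM ((-4) • (cmS a * cmp a * cmS a))) ≠ 0`.
Conversely, if for some point `a` over some field `L` of characteristic 0 we have `det (hk a) ≠ 0`
(so `δ(a) ≠ 0` by `aeval_derivative_det`) and `det (kryM (cmS a)) ≠ 0` (resp. the other determinant)
then `eval₂ … Φ ≠ 0`, so `Φ ≠ 0`. `kryM_smul`: `(c M)^k e_0 = c^k M^k e_0`.
-/

open Matrix Polynomial

namespace SpinWA

theorem kryM_smul {R : Type*} [CommRing R] {n : ℕ} (c : R) (M : Matrix (Fin n) (Fin n) R) :
    kryM (c • M) = kryM M * diagonal fun k : Fin n => c ^ (k : ℕ) := by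
  ext i k
  rw [Matrix.mul_diagonal]
  simp only [kryM, Matrix.of_apply]
  rw [_root_.smul_pow, Matrix.smul_mulVec, Pi.smul_apply, smul_eq_mul, mul_comm]

theorem GPolyA_det_smul {R : Type*} [CommRing R] {n : ℕ} (c : R)
    (M : Matrix (Fin n) (Fin n) R) :
    (kryM (c • M)).det = (kryM M).det * ∏ k : Fin n, c ^ (k : ℕ) := by
  rw [kryM_smul, Matrix.det_mul, Matrix.det_diagonal]

theorem GPolyA_det_smul_iff {K : Type*} [Field K] {n : ℕ} {c : K} (hc : c ≠ 0)
    (M : Matrix (Fin n) (Fin n) K) :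
    (kryM (c • M)).det ≠ 0 ↔ (kryM M).det ≠ 0 := by
  rw [GPolyA_det_smul, mul_ne_zero_iff]
  constructor
  · intro h
    exact h.1
  · intro h
    exact ⟨h, Finset.prod_ne_zero_iff.2 fun k _ => pow_ne_zero _ hc⟩

section
variable {R R' : Type*} [CommRing R] [CommRing R'] (φ : R →+* R') {n : ℕ}

/-- The matrix `f'(C)`. -/
noncomputable def GPolyA_D (a : Fin n → R) : Matrix (Fin n) (Fin n) R :=
  aeval (cmp a) (derivative (AnWA.monicPoly a))

/-- The matrix `2 δ S`. -/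
noncomputable def GPolyA_gS (a : Fin n → R) : Matrix (Fin n) (Fin n) R :=
  aeval (cmp a) (derivative (derivative (AnWA.monicPoly a))) * (GPolyA_D a).adjugate +
    (2 * (GPolyA_D a).det) • cmN a

theorem GPolyA_aeval_map (a : Fin n → R) (p : R[X]) :
    (aeval (cmp a) p).map φ = aeval (cmp fun i => φ (a i)) (p.map φ) := by
  rw [← cmp_map φ a, ← RingHom.mapMatrix_apply, Polynomial.aeval_def, Polynomial.aeval_def,
    Polynomial.hom_eval₂, Polynomial.eval₂_map]
  congr 1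
  ext x i j
  simp only [RingHom.comp_apply, RingHom.mapMatrix_apply, Matrix.map_apply,
    Matrix.algebraMap_matrix_apply]
  split_ifs <;> simp

theorem GPolyA_D_map (a : Fin n → R) : (GPolyA_D a).map φ = GPolyA_D fun i => φ (a i) := by
  unfold GPolyA_D
  rw [GPolyA_aeval_map, AnWA.monicPoly_map, Polynomial.derivative_map]

theorem GPolyA_D_det_map (a : Fin n → R) :
    φ (GPolyA_D a).det = (GPolyA_D fun i => φ (a i)).det := by
  rw [RingHom.map_det, RingHom.mapMatrix_apply, GPolyA_D_map]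

theorem GPolyA_gS_map (a : Fin n → R) : (GPolyA_gS a).map φ = GPolyA_gS fun i => φ (a i) := by
  unfold GPolyA_gS
  have h3 : (GPolyA_D a).adjugate.map φ = (GPolyA_D fun i => φ (a i)).adjugate := by
    rw [← RingHom.mapMatrix_apply, RingHom.map_adjugate, RingHom.mapMatrix_apply, GPolyA_D_map]
  have h4 : ((2 * (GPolyA_D a).det) • cmN a).map φ
      = (2 * (GPolyA_D fun i => φ (a i)).det) • cmN fun i => φ (a i) := by
    rw [← cmN_map, ← GPolyA_D_det_map]
    ext i j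
    simp only [Matrix.map_apply, Matrix.smul_apply, smul_eq_mul, map_mul, map_ofNat]
  rw [Matrix.map_add φ (map_add φ), h4, Matrix.map_mul, h3, GPolyA_aeval_map,
    AnWA.monicPoly_map, Polynomial.derivative_map, Polynomial.derivative_map]

end

theorem GPolyA_gS_eq {K : Type*} [Field K] [CharZero K] {n : ℕ} (a : Fin n → K)
    (hd : (GPolyA_D a).det ≠ 0) : GPolyA_gS a = (2 * (GPolyA_D a).det) • cmS a := by
  have h2 : (2 : K) ≠ 0 := two_ne_zero
  unfold GPolyA_gS cmS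
  rw [smul_add, smul_smul]
  congr 1
  rw [show (aeval (cmp a) (derivative (AnWA.monicPoly a))) = GPolyA_D a from rfl,
    Matrix.inv_def, Ring.inverse_eq_inv', Matrix.mul_smul, smul_smul]
  rw [show 2 * (GPolyA_D a).det * (1 / 2) * ((GPolyA_D a).det)⁻¹ = 1 by field_simp, one_smul]

section
variable {K : Type*} [Field K] {n : ℕ} (φ : ℚ →+* K) (a : Fin n → K)

theorem GPolyA_eval_hk :
    MvPolynomial.eval₂ φ a (hk (MvPolynomial.X : Fin n → MvPolynomial (Fin n) ℚ)).det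
      = (hk a).det := by
  rw [← MvPolynomial.coe_eval₂Hom, hk_det_map]
  simp only [MvPolynomial.coe_eval₂Hom, MvPolynomial.eval₂_X]

theorem GPolyA_eval_D : MvPolynomial.eval₂ φ a
    (GPolyA_D (MvPolynomial.X : Fin n → MvPolynomial (Fin n) ℚ)).det = (GPolyA_D a).det := by
  rw [← MvPolynomial.coe_eval₂Hom, GPolyA_D_det_map]
  simp only [MvPolynomial.coe_eval₂Hom, MvPolynomial.eval₂_X]

theorem GPolyA_eval_k1 : MvPolynomial.eval₂ φ a
    (kryM (GPolyA_gS (MvPolynomial.X : Fin n → MvPolynomial (Fin n) ℚ))).det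
      = (kryM (GPolyA_gS a)).det := by
  rw [← MvPolynomial.coe_eval₂Hom, kryM_det_map, GPolyA_gS_map]
  simp only [MvPolynomial.coe_eval₂Hom, MvPolynomial.eval₂_X]

theorem GPolyA_eval_k2 : MvPolynomial.eval₂ φ a
    (kryM (GPolyA_gS (MvPolynomial.X : Fin n → MvPolynomial (Fin n) ℚ) * cmp MvPolynomial.X *
      GPolyA_gS MvPolynomial.X)).det
      = (kryM (GPolyA_gS a * cmp a * GPolyA_gS a)).det := by
  rw [← MvPolynomial.coe_eval₂Hom, kryM_det_map, Matrix.map_mul, Matrix.map_mul, GPolyA_gS_map,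
    cmp_map]
  simp only [MvPolynomial.coe_eval₂Hom, MvPolynomial.eval₂_X]

theorem GPolyA_quad [CharZero K] (hd : (GPolyA_D a).det ≠ 0) : GPolyA_gS a * cmp a * GPolyA_gS a =
    ((2 * (GPolyA_D a).det) ^ 2 * (-4)⁻¹) • ((-4 : K) • (cmS a * cmp a * cmS a)) := by
  rw [GPolyA_gS_eq a hd, Matrix.smul_mul, Matrix.smul_mul, Matrix.mul_smul, smul_smul, smul_smul]
  congr 1
  ring

end

theorem poly1 {L : Type*} [Field L] [CharZero L] {n : ℕ} (a0 : Fin n → L)
    (h1 : (hk a0).det ≠ 0) (h2 : (kryM (cmS a0)).det ≠ 0) :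
    ∃ Φ : MvPolynomial (Fin n) ℚ, Φ ≠ 0 ∧ ∀ (K : Type) [Field K] [CharZero K] (φ : ℚ →+* K)
      (a : Fin n → K), MvPolynomial.eval₂ φ a Φ ≠ 0 →
        (hk a).det ≠ 0 ∧ (kryM (cmS a)).det ≠ 0 := by
  refine ⟨(hk MvPolynomial.X).det * (GPolyA_D MvPolynomial.X).det *
    (kryM (GPolyA_gS MvPolynomial.X)).det, ?_, ?_⟩
  · intro h0
    have hd := aeval_derivative_det a0 h1
    have hd' : (GPolyA_D a0).det ≠ 0 := hd
    have h3 := congrArg (MvPolynomial.eval₂ (Rat.castHom L) a0) h0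
    rw [MvPolynomial.eval₂_mul, MvPolynomial.eval₂_mul, GPolyA_eval_hk, GPolyA_eval_D,
      GPolyA_eval_k1, MvPolynomial.eval₂_zero, GPolyA_gS_eq a0 hd'] at h3
    have h4 := (GPolyA_det_smul_iff (mul_ne_zero two_ne_zero hd') (cmS a0)).2 h2
    exact mul_ne_zero (mul_ne_zero h1 hd') h4 h3
  · intro K _ _ φ a h0
    rw [MvPolynomial.eval₂_mul, MvPolynomial.eval₂_mul, GPolyA_eval_hk, GPolyA_eval_D,
      GPolyA_eval_k1] at h0
    have h5 := left_ne_zero_of_mul h0
    have h6 := right_ne_zero_of_mul h0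
    have h7 := left_ne_zero_of_mul h5
    have h8 := right_ne_zero_of_mul h5
    rw [GPolyA_gS_eq a h8] at h6
    exact ⟨h7, (GPolyA_det_smul_iff (mul_ne_zero two_ne_zero h8) (cmS a)).1 h6⟩

theorem poly2 {L : Type*} [Field L] [CharZero L] {n : ℕ} (a0 : Fin n → L)
    (h1 : (hk a0).det ≠ 0) (h2 : (kryM ((-4 : L) • (cmS a0 * cmp a0 * cmS a0))).det ≠ 0) :
    ∃ Φ : MvPolynomial (Fin n) ℚ, Φ ≠ 0 ∧ ∀ (K : Type) [Field K] [CharZero K] (φ : ℚ →+* K)
      (a : Fin n → K), MvPolynomial.eval₂ φ a Φ ≠ 0 →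
        (hk a).det ≠ 0 ∧ (kryM ((-4 : K) • (cmS a * cmp a * cmS a))).det ≠ 0 := by
  refine ⟨(hk MvPolynomial.X).det * (GPolyA_D MvPolynomial.X).det *
    (kryM (GPolyA_gS MvPolynomial.X * cmp MvPolynomial.X * GPolyA_gS MvPolynomial.X)).det, ?_, ?_⟩
  · intro h0
    have hd := aeval_derivative_det a0 h1
    have hd' : (GPolyA_D a0).det ≠ 0 := hd
    have h3 := congrArg (MvPolynomial.eval₂ (Rat.castHom L) a0) h0
    rw [MvPolynomial.eval₂_mul, MvPolynomial.eval₂_mul, GPolyA_eval_hk, GPolyA_eval_D,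
      GPolyA_eval_k2, MvPolynomial.eval₂_zero, GPolyA_quad a0 hd'] at h3
    have h4 := (GPolyA_det_smul_iff (mul_ne_zero (pow_ne_zero 2 (mul_ne_zero two_ne_zero hd'))
      (inv_ne_zero (by norm_num : (-4 : L) ≠ 0))) ((-4 : L) • (cmS a0 * cmp a0 * cmS a0))).2 h2
    exact mul_ne_zero (mul_ne_zero h1 hd') h4 h3
  · intro K _ _ φ a h0
    rw [MvPolynomial.eval₂_mul, MvPolynomial.eval₂_mul, GPolyA_eval_hk, GPolyA_eval_D,
      GPolyA_eval_k2] at h0
    have h5 := left_ne_zero_of_mul h0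
    have h6 := right_ne_zero_of_mul h0
    have h7 := left_ne_zero_of_mul h5
    have h8 := right_ne_zero_of_mul h5
    rw [GPolyA_quad a h8] at h6
    exact ⟨h7, (GPolyA_det_smul_iff (mul_ne_zero (pow_ne_zero 2 (mul_ne_zero two_ne_zero h8))
      (inv_ne_zero (by norm_num : (-4 : K) ≠ 0)))
      ((-4 : K) • (cmS a * cmp a * cmS a))).1 h6⟩

end SpinWA
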