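import Pool.Agent.H.MP_83e36b_nt.sp.GPt1

/-!
# A point where the second duality is defined

PROOF. `n = M + 1`, `M ≥ 2` even, `L` algebraically closed of characteristic 0. Points: `x_0 = 0` and
`x_i`, `i = 1..M` the `M`-th roots of unity (`NoetherAn.np_roots`). `a` = coefficient vector of
`∏ (X - x_i)` (`exists_coeffs`), `V = vandermonde x`. By `vand_cmp`, `vand_cmS`, `vand_e0`:
`V N^k e_0 = 𝒩^k 1` with `N = -4 S C S` and `𝒩 = -4 cm(x) diag(x) cm(x)`, so it is enough that the
vectors `𝒩^k 1`, `k = 0..M`, are linearly independent. Write vectors as `(α; v)`, `α` = value at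
the point 0, `v` = function on the roots of unity. For `1 ≤ k ≤ M` (`np_roots`, second-last
property with `l = k - 1`, extended by the point 0):
`cm (α; z^k) = (- ∑_w w^(k-1); α z^(-1) + (k - (M+1)/2) z^(k-1))`, where `z^(-1) = z^(M-1)` and
`∑_w w^(k-1) = M` if `k = 1` and `0` if `2 ≤ k ≤ M`.
So `cm (1; 1) = cm (1; z^M) = (0; ((M+1)/2) z^(M-1))`, `diag` multiplies by `z`:
`(0; ((M+1)/2) z^M)`, and `cm` of it is `(0; ((M+1)/2) ((M-1)/2) z^(M-1))`:
`𝒩 (1; 1) = -(M^2 - 1) (0; z^(M-1))`.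
For `2 ≤ k ≤ M - 1`: `𝒩 (0; z^k) = -4 (k - (M+1)/2)^2 (0; z^(k-1))`, the factor is nonzero since `M` is
even. For `k = 1`: `cm (0; z) = (-M; -((M-1)/2) z^M)`, times `diag`: `(0; -((M-1)/2) z)`, `cm`:
`-((M-1)/2) (-M; -((M-1)/2) z^M)`; so `𝒩 (0; z) = 2 (M-1) (-M; -((M-1)/2) 1) = -(M-1) (2 M; (M-1) 1)`.
So up to nonzero factors the vectors `𝒩^k 1` are `(1; 1), (0; z^(M-1)), (0; z^(M-2)), …, (0; z),
(2 M; (M-1) 1)`: the `(0; z^k)`, `1 ≤ k ≤ M - 1`, together with `(0; 1)` and `(1; 0)` are a basis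
(Vandermonde), and `(1; 1)`, `(2 M; M - 1)` are independent because `2 M ≠ M - 1`.
See the proof of `NoetherAn.np_odd` in `Pool/Agent/H/MP_ffe2f0_al/NPoint.lean` for a very similar
computation.
-/

open Matrix Polynomial

namespace SpinWA

/-- The coefficients of the Krylov vectors. -/
private def gpt2c (L : Type*) [Field L] (m : ℕ) : ℕ → L
  | 0 => -(((m : L) + 1) * ((m : L) - 1))
  | k + 1 => gpt2c L m k * (-4 * (((m : L) - k - 2) - (m - 1) / 2) ^ 2)

private theorem gpt2c_ne_zero (L : Type*) [Field L] [CharZero L] (m : ℕ) (h2 : 2 ≤ m)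
    (hm : Even m) (k : ℕ) : gpt2c L m k ≠ 0 := by
  induction k with
  | zero =>
    refine neg_ne_zero.2 (mul_ne_zero ?_ ?_)
    · have : ((m + 1 : ℕ) : L) ≠ 0 := by exact_mod_cast Nat.succ_ne_zero m
      simpa using this
    · intro h
      have h1 : ((m : ℕ) : L) = ((1 : ℕ) : L) := by
        push_cast
        linear_combination h
      have h3 : m = 1 := by exact_mod_cast h1
      omega
  | succ k ih =>
    refine mul_ne_zero ih (mul_ne_zero (by norm_num) (pow_ne_zero _ ?_))
    intro h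
    have h1 : ((m : ℕ) : L) = ((2 * k + 3 : ℕ) : L) := by
      push_cast
      linear_combination 2 * h
    have h2 : m = 2 * k + 3 := by exact_mod_cast h1
    obtain ⟨c, hc⟩ := hm
    omega

private theorem gpt2_pow {L : Type*} [Field L] {n : ℕ} {V N N' : Matrix (Fin n) (Fin n) L}
    (h : V * N = N' * V) (k : ℕ) : V * N ^ k = N' ^ k * V := by
  induction k with
  | zero => rw [pow_zero, pow_zero, one_mul, mul_one]
  | succ k ih =>
    rw [pow_succ, ← mul_assoc, ih, mul_assoc, h, ← mul_assoc, ← pow_succ]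

private theorem gpt2_mulVec {L : Type*} [Field L] {n : ℕ} (x f : Fin n → L) (i : Fin n) :
    (((-4 : L) • (NoetherAn.cm x * diagonal x * NoetherAn.cm x)) *ᵥ f) i =
      -4 * ∑ a, (x i - x a)⁻¹ * (x a * ∑ b, (x a - x b)⁻¹ * f b) := by
  have h1 : ∀ (g : Fin n → L) (i : Fin n),
      (NoetherAn.cm x *ᵥ g) i = ∑ b, (x i - x b)⁻¹ * g b := fun _ _ => rfl
  rw [Matrix.smul_mulVec, Pi.smul_apply, smul_eq_mul, ← mulVec_mulVec, ← mulVec_mulVec, h1]
  congr 1
  refine Finset.sum_congr rfl fun a _ => ?_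
  rw [mulVec_diagonal, h1]

theorem exists_point2 (M : ℕ) (hM : Even M) (h2 : 2 ≤ M) :
    ∃ a : Fin (M + 1) → AlgebraicClosure ℚ,
      (hk a).det ≠ 0 ∧
        (kryM ((-4 : AlgebraicClosure ℚ) • (cmS a * cmp a * cmS a))).det ≠ 0 := by
  have hM0 : M ≠ 0 := by omega
  have : NeZero M := ⟨hM0⟩
  obtain ⟨y, hinj, hy1, hact, hsum⟩ := NoetherAn.np_roots (AlgebraicClosure ℚ) M
  have hyne : ∀ i, y i ≠ 0 := by
    intro i h
    have := hy1 i
    rw [h, zero_pow hM0] at this
    exact zero_ne_one this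
  have hyinv : ∀ (i : Fin M) (l : ℕ), (y i)⁻¹ * y i ^ (l + 1) = y i ^ l := by
    intro i l
    have := hyne i
    field_simp
    ring
  obtain ⟨x, hx⟩ : ∃ x : Fin (M + 1) → AlgebraicClosure ℚ, x = Fin.cons 0 y := ⟨_, rfl⟩
  have hx0 : x 0 = 0 := by rw [hx]; rfl
  have hxs : ∀ i : Fin M, x i.succ = y i := by intro i; rw [hx]; rfl
  have hxinj : Function.Injective x := by
    intro a b
    refine Fin.cases ?_ (fun a => ?_) a <;> refine Fin.cases ?_ (fun b => ?_) b
    · intro _; rfl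
    · intro h; rw [hx0, hxs] at h; exact absurd h.symm (hyne b)
    · intro h; rw [hx0, hxs] at h; exact absurd h (hyne a)
    · intro h; rw [hxs, hxs] at h; rw [hinj h]
  have hV : (vandermonde x).det ≠ 0 := det_vandermonde_ne_zero_iff.2 hxinj
  obtain ⟨a, ha⟩ := exists_coeffs x
  refine ⟨a, ?_, ?_⟩
  · rw [← vand_hk x a hxinj ha, det_mul, det_transpose]
    exact mul_ne_zero hV hV
  -- the action of `cm` on the powers
  have hcm : ∀ (g : Fin (M + 1) → AlgebraicClosure ℚ) (β : AlgebraicClosure ℚ) (k : ℕ),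
      k < M → g 0 = 0 → (∀ i : Fin M, g i.succ = β * y i ^ (k + 1)) →
      (∀ i : Fin M, ∑ b, (x i.succ - x b)⁻¹ * g b =
        β * ((k : AlgebraicClosure ℚ) - (M - 1) / 2) * y i ^ k) ∧
      ∑ b, (x 0 - x b)⁻¹ * g b = - (β * ∑ j, y j ^ k) := by
    intro g β k hk hg0 hg
    constructor
    · intro i
      rw [Fin.sum_univ_succ, hg0, mul_zero, zero_add, hxs]
      have h1 : ∀ b : Fin M, (y i - x b.succ)⁻¹ * g b.succ =
          β * ((y i - y b)⁻¹ * y b ^ (k + 1)) := by
        intro b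
        rw [hg, hxs]
        ring
      rw [Finset.sum_congr rfl fun b _ => h1 b, ← Finset.mul_sum, hact k hk]
      ring
    · rw [Fin.sum_univ_succ, hg0, mul_zero, zero_add, hx0, Finset.mul_sum,
        ← Finset.sum_neg_distrib]
      refine Finset.sum_congr rfl fun b _ => ?_
      rw [hg, hxs, zero_sub, inv_neg, ← hyinv b k]
      ring
  -- one step
  have hstep : ∀ (f : Fin (M + 1) → AlgebraicClosure ℚ) (γ : AlgebraicClosure ℚ) (k : ℕ),
      k < M → (∀ i : Fin M, ∑ b, (x i.succ - x b)⁻¹ * f b = γ * y i ^ k) →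
      (∀ i : Fin M, (((-4 : AlgebraicClosure ℚ) •
        (NoetherAn.cm x * diagonal x * NoetherAn.cm x)) *ᵥ f) i.succ =
          -4 * γ * ((k : AlgebraicClosure ℚ) - (M - 1) / 2) * y i ^ k) ∧
      (((-4 : AlgebraicClosure ℚ) •
        (NoetherAn.cm x * diagonal x * NoetherAn.cm x)) *ᵥ f) 0 =
          4 * γ * ∑ j, y j ^ k := by
    intro f γ k hk hf
    have h1 := hcm (fun a => x a * ∑ b, (x a - x b)⁻¹ * f b) γ k hk
      (by simp only [hx0, zero_mul]) (by
        intro i
        rw [hf, hxs]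
        ring)
    constructor
    · intro i
      rw [gpt2_mulVec, h1.1 i]
      ring
    · rw [gpt2_mulVec, h1.2]
      ring
  obtain ⟨N', hN'⟩ : ∃ N', N' = (-4 : AlgebraicClosure ℚ) •
    (NoetherAn.cm x * diagonal x * NoetherAn.cm x) := ⟨_, rfl⟩
  rw [← hN'] at hstep
  have hcomm : vandermonde x * ((-4 : AlgebraicClosure ℚ) • (cmS a * cmp a * cmS a)) =
      N' * vandermonde x := by
    have e1 := vand_cmS x a hxinj ha
    have e2 := vand_cmp x a ha
    rw [hN', mul_smul_comm, smul_mul_assoc]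
    congr 1
    rw [← mul_assoc, ← mul_assoc, e1, mul_assoc (NoetherAn.cm x), e2, mul_assoc, mul_assoc, e1]
    simp only [mul_assoc]
  obtain ⟨w, hw⟩ : ∃ w : ℕ → Fin (M + 1) → AlgebraicClosure ℚ,
    w = fun k => N' ^ k *ᵥ (fun _ => 1) := ⟨_, rfl⟩
  have hw0 : ∀ i, w 0 i = 1 := by
    intro i
    rw [hw]
    simp only [pow_zero, one_mulVec]
  have hws : ∀ k, w (k + 1) = N' *ᵥ w k := by
    intro k
    rw [hw]
    simp only
    rw [mulVec_mulVec, pow_succ']
  have hkry : ∀ k, k < M → (∀ i : Fin M, w (k + 1) i.succ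
        = gpt2c (AlgebraicClosure ℚ) M k * y i ^ (M - 1 - k)) ∧
      (k + 1 < M → w (k + 1) 0 = 0) := by
    intro k
    induction k with
    | zero =>
      intro _
      have h1 : ∀ i : Fin M, ∑ b, (x i.succ - x b)⁻¹ * w 0 b =
          (((M : AlgebraicClosure ℚ) + 1) / 2) * y i ^ (M - 1) := by
        intro i
        rw [Fin.sum_univ_succ, hw0, hx0, hxs, sub_zero, mul_one]
        have h1 : ∀ a : Fin M, (y i - x a.succ)⁻¹ * w 0 a.succ
            = (y i - y a)⁻¹ * y a ^ ((M - 1) + 1) := by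
          intro a
          rw [hw0, hxs, Nat.sub_add_cancel (by omega), hy1]
        rw [Finset.sum_congr rfl fun a _ => h1 a, hact _ (by omega)]
        have h2 : ((M - 1 : ℕ) : AlgebraicClosure ℚ) = (M : AlgebraicClosure ℚ) - 1 := by
          rw [Nat.cast_sub (by omega)]; simp
        have h3 : (y i)⁻¹ = y i ^ (M - 1) := by
          rw [← hyinv i (M - 1), Nat.sub_add_cancel (by omega), hy1, mul_one]
        rw [h2, h3]
        ring
      have h3 := hstep (w 0) _ (M - 1) (by omega) h1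
      have h2 : ((M - 1 : ℕ) : AlgebraicClosure ℚ) = (M : AlgebraicClosure ℚ) - 1 := by
        rw [Nat.cast_sub (by omega)]; simp
      refine ⟨fun i => ?_, fun _ => ?_⟩
      · rw [hws, h3.1 i, h2, Nat.sub_zero]
        simp only [gpt2c]
        ring
      · rw [hws, h3.2, hsum _ (by omega) (by omega), mul_zero]
    | succ k ih =>
      intro hk
      obtain ⟨ih1, ih2⟩ := ih (by omega)
      have ih2 := ih2 hk
      have h1 := (hcm (w (k + 1)) (gpt2c (AlgebraicClosure ℚ) M k) (M - 2 - k) (by omega) ih2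
        (by
          intro i
          rw [ih1 i, show M - 1 - k = M - 2 - k + 1 by omega])).1
      have h3 := hstep (w (k + 1)) _ (M - 2 - k) (by omega) h1
      have h2 : ((M - 2 - k : ℕ) : AlgebraicClosure ℚ) = (M : AlgebraicClosure ℚ) - k - 2 := by
        rw [Nat.cast_sub (by omega), Nat.cast_sub (by omega)]
        push_cast
        ring
      refine ⟨fun i => ?_, fun hk' => ?_⟩
      · rw [hws, h3.1 i, h2, show M - 1 - (k + 1) = M - 2 - k by omega]
        simp only [gpt2c]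
        ring
      · rw [hws, h3.2, hsum _ (by omega) (by omega), mul_zero]
  have hlast : w M 0 = - (2 * M * (M - 1) * gpt2c (AlgebraicClosure ℚ) M (M - 2)) := by
    obtain ⟨ih1, ih2⟩ := hkry (M - 2) (by omega)
    have ih2 := ih2 (by omega)
    have h1 := (hcm (w (M - 2 + 1)) (gpt2c (AlgebraicClosure ℚ) M (M - 2)) 0 (by omega) ih2
      (by
        intro i
        rw [ih1 i, show M - 1 - (M - 2) = 0 + 1 by omega])).1
    have h3 := (hstep (w (M - 2 + 1)) _ 0 (by omega) h1).2
    rw [← hws, show M - 2 + 1 + 1 = M by omega] at h3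
    rw [h3]
    simp only [pow_zero, Finset.sum_const, Finset.card_univ, Fintype.card_fin, nsmul_eq_mul]
    push_cast
    ring
  have hprod : ∀ i k, (vandermonde x *
      kryM ((-4 : AlgebraicClosure ℚ) • (cmS a * cmp a * cmS a))) i k = w k i := by
    intro i k
    have h1 : (vandermonde x * kryM ((-4 : AlgebraicClosure ℚ) • (cmS a * cmp a * cmS a))) i k =
        (vandermonde x *ᵥ (((-4 : AlgebraicClosure ℚ) • (cmS a * cmp a * cmS a)) ^ (k : ℕ) *ᵥ
          e0 (AlgebraicClosure ℚ) (M + 1))) i := rfl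
    rw [h1, mulVec_mulVec, gpt2_pow hcomm, ← mulVec_mulVec, vand_e0, hw]
  intro hdet0
  have hdet : (vandermonde x *
      kryM ((-4 : AlgebraicClosure ℚ) • (cmS a * cmp a * cmS a))).det = 0 := by
    rw [det_mul, hdet0, mul_zero]
  obtain ⟨v, hv0, hv⟩ := Matrix.exists_mulVec_eq_zero_iff.mpr hdet
  have hv' : ∀ j, v 0 + ∑ i : Fin M, w ((i : ℕ) + 1) j * v i.succ = 0 := by
    intro j
    have h4 := congrFun hv j
    simp only [Matrix.mulVec, dotProduct, Pi.zero_apply, hprod] at h4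
    rw [Fin.sum_univ_succ] at h4
    rw [Fin.val_zero, hw0, one_mul] at h4
    exact h4
  have hc0 := gpt2c_ne_zero (AlgebraicClosure ℚ) M h2 hM
  -- the equations at the roots of unity
  have h3 : (fun i : Fin M => gpt2c (AlgebraicClosure ℚ) M (Fin.rev i : Fin M) *
      v (Fin.rev i).succ + (if i = 0 then v 0 else 0)) = 0 := by
    refine Matrix.eq_zero_of_forall_index_sum_pow_mul_eq_zero hinj fun j => ?_
    refine Eq.trans ?_ (hv' j.succ)
    simp only [mul_add, Finset.sum_add_distrib, mul_ite, mul_zero]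
    rw [Finset.sum_ite_eq' Finset.univ (0 : Fin M), if_pos (Finset.mem_univ _), Fin.val_zero,
      pow_zero, one_mul, add_comm]
    congr 1
    refine Fintype.sum_equiv Fin.revPerm _ _ fun i => ?_
    rw [Fin.revPerm_apply, (hkry _ (Fin.is_lt _)).1 j]
    have h6 : M - 1 - ((Fin.rev i : Fin M) : ℕ) = (i : ℕ) := by
      rw [Fin.val_rev]; omega
    rw [h6]
    ring
  have hvs : ∀ i : Fin M, (i : ℕ) + 1 < M → v i.succ = 0 := by
    intro i hi
    have h7 := congrFun h3 (Fin.rev i)
    have h8 : Fin.rev i ≠ 0 := by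
      intro h
      have := congrArg Fin.val h
      rw [Fin.val_rev, Fin.val_zero] at this
      omega
    simp only [Fin.rev_rev, Pi.zero_apply, if_neg h8, add_zero] at h7
    exact (mul_eq_zero.mp h7).resolve_left (hc0 _)
  obtain ⟨z, hz⟩ : ∃ z : Fin M, z = Fin.rev 0 := ⟨_, rfl⟩
  have hzval : (z : ℕ) = M - 1 := by rw [hz, Fin.val_rev, Fin.val_zero]
  have hA : gpt2c (AlgebraicClosure ℚ) M (M - 1) * v z.succ + v 0 = 0 := by
    have h7 := congrFun h3 0
    simp only [if_true, Pi.zero_apply] at h7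
    rw [← hz, hzval] at h7
    exact h7
  have hB : v 0 - 2 * M * (M - 1) * gpt2c (AlgebraicClosure ℚ) M (M - 2) * v z.succ = 0 := by
    refine Eq.trans ?_ (hv' 0)
    rw [Finset.sum_eq_single z]
    · rw [hzval, Nat.sub_add_cancel (by omega), hlast]
      ring
    · intro b _ hb
      have hb' : (b : ℕ) + 1 < M := by
        have h9 : (b : ℕ) ≠ z := fun h => hb (Fin.ext h)
        have := b.is_lt
        omega
      rw [hvs b hb', mul_zero]
    · intro h; exact absurd (Finset.mem_univ _) h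
  have hrec : gpt2c (AlgebraicClosure ℚ) M (M - 1) =
      - (gpt2c (AlgebraicClosure ℚ) M (M - 2) * ((M : AlgebraicClosure ℚ) - 1) ^ 2) := by
    have h9 : gpt2c (AlgebraicClosure ℚ) M (M - 2 + 1) = gpt2c (AlgebraicClosure ℚ) M (M - 2)
        * (-4 * (((M : AlgebraicClosure ℚ) - ((M - 2 : ℕ) : AlgebraicClosure ℚ) - 2) -
          (M - 1) / 2) ^ 2) := rfl
    rw [show M - 1 = M - 2 + 1 by omega, h9, Nat.cast_sub h2]
    push_cast
    ring
  have hM1K : (M : AlgebraicClosure ℚ) + 1 ≠ 0 := by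
    have : ((M + 1 : ℕ) : AlgebraicClosure ℚ) ≠ 0 := by exact_mod_cast Nat.succ_ne_zero M
    simpa using this
  have hM2K : (M : AlgebraicClosure ℚ) - 1 ≠ 0 := by
    intro h
    have h1 : ((M : ℕ) : AlgebraicClosure ℚ) = ((1 : ℕ) : AlgebraicClosure ℚ) := by
      push_cast
      linear_combination h
    have h3 : M = 1 := by exact_mod_cast h1
    omega
  have hC : (gpt2c (AlgebraicClosure ℚ) M (M - 2) *
      (((M : AlgebraicClosure ℚ) + 1) * ((M : AlgebraicClosure ℚ) - 1))) * v z.succ = 0 := by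
    rw [hrec] at hA
    linear_combination hA - hB
  have hvz : v z.succ = 0 :=
    (mul_eq_zero.mp hC).resolve_left (mul_ne_zero (hc0 _) (mul_ne_zero hM1K hM2K))
  have hv00 : v 0 = 0 := by rw [hvz, mul_zero, zero_add] at hA; exact hA
  apply hv0
  funext i
  refine Fin.cases hv00 (fun i => ?_) i
  by_cases hi : (i : ℕ) + 1 < M
  · exact hvs i hi
  · have : i = z := by
      apply Fin.ext
      have := i.is_lt
      omega
    rw [this]
    exact hvz

end SpinWA
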