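import Pool.Agent.H.MP_83e36b_nt.sp.KCore
import Pool.Agent.H.MP_83e36b_nt.sp.DFwd
import Pool.Agent.H.MP_83e36b_nt.sp.DTr
import Pool.Agent.H.MP_83e36b_nt.sp.DSec
import Pool.Agent.H.MP_83e36b_nt.sp.GPt2
import Pool.Agent.H.MP_83e36b_nt.sp.GPolyA

/-!
# Odd degree: local part

`m = k + 1 + 1` is odd, `k + 1` even.

PROOF. (1) Perturbation. `exists_point2` (`M = k + 1`) and `poly2` give a polynomial `Φ ≠ 0`.
Choose by `exists_near_ne` a vector `a` close to `g` with `Φ ≠ 0` there, so `det (hk a) ≠ 0`,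
`det (kryM (-4 S w S)) ≠ 0`; `cf a 0 / cf g 0` is close to 1, so it is `r^2` with `r` close to 1
(`sqrt_nhds`), put `σ = r τ`: `cf a 0 = c σ^2`, `σ` close to `τ`, and
`cls (2 • hk a) = cls (2 • hk g)`, `cls ((-2) • hk1 a) = cls ((-2) • hk1 g)` (`cls_hk_nhds`),
`a ∈ interior U`, `σ ∈ interior W`, `σ ≠ 0`.
(2) `fwd2` (with `k + 1` for `k`) gives `g' : Fin (k + 1) → K`, `ρ`, `R`.
`det_second`: `2 cf g' 0 cf a 0 = A^2 ρ` with
`A = ((Aop g').submatrix id finSumFinEquiv).det`; so `A ≠ 0`, `ρ ≠ 0`. Let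
`η = σ / A`: `ρ = 2 c cf g' 0 η^2` and `A η = σ`. By `cls_second`
`cls (2 • hk a) + cls ((-2) • hk1 a) = cls (2 • hk g') + cl 2 + (cls ((-2) • hk1 g') + cl ρ)`, and
`cl ρ = cl (2 c cf g' 0)` (`cl_mul_sq`).
(3) The map `(g', ρ) ↦ Wop g' ρ` is continuous at `(g', ρ)` (`continuousAt_Wop`;
`det (hk (cons 0 g')) ≠ 0` by `det_hk_cons`); `cpc (Wop g' ρ) = cpc (cmp a) = a` (`cpc_conj`,
`cpc_cmp`). `det (kryM (Wop g' ρ)) ≠ 0`: `kryM_conj` with `R e_0 = e_0`: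
`1 = kryM (cmp a) = R * kryM (Wop g' ρ)` (`kryM_cmp`); `det (cmS g') ≠ 0` by `fwd2`. All the
conditions of the last conclusion hold at `(g', η)` (with `ρ = 2 c cf g' 0 η^2`) and are open
conditions, by continuity (`continuousAt_Wop`, `continuousAt_cmS`, `continuous_kryM`,
`continuous_cpc`, `continuous_cf`, `continuousAt_Aop`, `continuous_hk`; use `interior U ∋ a`,
`interior W ∋ σ`, `ContinuousAt.eventually_mem`, `Filter.Eventually.and`).
-/

open Topology Matrix Polynomial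

namespace SpinWA

theorem StarLoc_det {K X : Type} [NontriviallyNormedField K] [TopologicalSpace X] {m : ℕ}
    {f : X → Matrix (Fin m) (Fin m) K} {x : X} (h : ContinuousAt f x) :
    ContinuousAt (fun y => (f y).det) x :=
  (Continuous.matrix_det continuous_id).continuousAt.comp h

/-- The conditions on a pair are open. -/
theorem StarLoc_open {K : Type} [NontriviallyNormedField K] [CompleteSpace K] [CharZero K]
    {k : ℕ} {c : K} {g' : Fin (k + 1) → K} {η : K} {U : Set (Fin (k + 1 + 1) → K)} {W : Set K}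
    (hd : (hk g').det ≠ 0) (h0 : cf g' 0 ≠ 0) (hη : η ≠ 0) (hS : (cmS g').det ≠ 0)
    (hkr : (kryM (Wop g' (2 * c * cf g' 0 * η ^ 2))).det ≠ 0)
    (hU : U ∈ 𝓝 (cpc (Wop g' (2 * c * cf g' 0 * η ^ 2))))
    (hA : ((Aop g').submatrix id finSumFinEquiv).det ≠ 0)
    (hW : W ∈ 𝓝 (((Aop g').submatrix id finSumFinEquiv).det * η)) :
    ∀ᶠ p : (Fin (k + 1) → K) × K in 𝓝 (g', η), (hk p.1).det ≠ 0 ∧ cf p.1 0 ≠ 0 ∧
        p.2 ≠ 0 ∧ (cmS p.1).det ≠ 0 ∧ (kryM (Wop p.1 (2 * c * cf p.1 0 * p.2 ^ 2))).det ≠ 0 ∧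
        cpc (Wop p.1 (2 * c * cf p.1 0 * p.2 ^ 2)) ∈ U ∧
        ((Aop p.1).submatrix id finSumFinEquiv).det ≠ 0 ∧
        ((Aop p.1).submatrix id finSumFinEquiv).det * p.2 ∈ W := by
  have hcd : (hk (Fin.cons 0 g' : Fin (k + 1 + 1) → K)).det ≠ 0 := by
    rw [det_hk_cons]
    exact mul_ne_zero (pow_ne_zero _ h0) hd
  have c0 : ContinuousAt (fun p : (Fin (k + 1) → K) × K => p.1) (g', η) := continuousAt_fst
  have c3 : ContinuousAt (fun p : (Fin (k + 1) → K) × K => p.2) (g', η) := continuousAt_snd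
  have c1 : ContinuousAt (fun p : (Fin (k + 1) → K) × K => (hk p.1).det) (g', η) :=
    ((continuous_hk.comp continuous_fst).matrix_det).continuousAt
  have c2 : ContinuousAt (fun p : (Fin (k + 1) → K) × K => cf p.1 0) (g', η) :=
    ((continuous_cf 0).comp continuous_fst).continuousAt
  have c4' : ContinuousAt (fun p : (Fin (k + 1) → K) × K => cmS p.1) (g', η) :=
    ContinuousAt.comp' (continuousAt_cmS hd) c0
  have c4 : ContinuousAt (fun p : (Fin (k + 1) → K) × K => (cmS p.1).det) (g', η) :=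
    StarLoc_det c4'
  have c5 : ContinuousAt (fun p : (Fin (k + 1) → K) × K =>
      Wop p.1 (2 * c * cf p.1 0 * p.2 ^ 2)) (g', η) :=
    ContinuousAt.comp' (g := fun q : (Fin (k + 1) → K) × K => Wop q.1 q.2)
      (f := fun p : (Fin (k + 1) → K) × K => (p.1, 2 * c * cf p.1 0 * p.2 ^ 2))
      (continuousAt_Wop _ hcd h0) (c0.prodMk ((continuousAt_const.mul c2).mul (c3.pow 2)))
  have c6 : ContinuousAt (fun p : (Fin (k + 1) → K) × K =>
      (kryM (Wop p.1 (2 * c * cf p.1 0 * p.2 ^ 2))).det) (g', η) :=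
    StarLoc_det (ContinuousAt.comp' continuous_kryM.continuousAt c5)
  have c7 : ContinuousAt (fun p : (Fin (k + 1) → K) × K =>
      cpc (Wop p.1 (2 * c * cf p.1 0 * p.2 ^ 2))) (g', η) :=
    ContinuousAt.comp' continuous_cpc.continuousAt c5
  have c8 : ContinuousAt (fun p : (Fin (k + 1) → K) × K =>
      ((Aop p.1).submatrix id finSumFinEquiv).det) (g', η) := by
    have h1 : ContinuousAt (fun p : (Fin (k + 1) → K) × K => Aop p.1) (g', η) :=
      ContinuousAt.comp' (continuousAt_Aop hcd) c0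
    have h2 : Continuous (fun M : Matrix (Fin (k + 1) ⊕ Fin 1) (Fin (k + 1 + 1)) K =>
        (M.submatrix id finSumFinEquiv).det) :=
      (continuous_id.matrix_submatrix _ _).matrix_det
    exact ContinuousAt.comp' (g := fun M : Matrix (Fin (k + 1) ⊕ Fin 1) (Fin (k + 1 + 1)) K =>
      (M.submatrix id finSumFinEquiv).det) h2.continuousAt h1
  filter_upwards [c1.eventually_ne hd, c2.eventually_ne h0, c3.eventually_ne hη,
    c4.eventually_ne hS, c6.eventually_ne hkr, c7.eventually_mem hU, c8.eventually_ne hA,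
    (c8.mul c3).eventually_mem hW] with p h1 h2 h3 h4 h5 h6 h7 h8
  exact ⟨h1, h2, h3, h4, h5, h6, h7, h8⟩

theorem star_loc {K : Type} [NontriviallyNormedField K] [CompleteSpace K] [CharZero K]
    (φ : ℚ →+* K) {k : ℕ} (h1k : 1 ≤ k) (hev : Even (k + 1)) (g : Fin (k + 1 + 1) → K)
    {τ c : K} (hc : c ≠ 0) (hgd : (hk g).det ≠ 0) (hτ0 : τ ≠ 0) (hτ : cf g 0 = c * τ ^ 2)
    {U : Set (Fin (k + 1 + 1) → K)} (hU : U ∈ 𝓝 g) {W : Set K} (hW : W ∈ 𝓝 τ) :
    ∃ (g' : Fin (k + 1) → K) (η : K), (hk g').det ≠ 0 ∧ cf g' 0 ≠ 0 ∧ η ≠ 0 ∧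
      cls ((2 : K) • hk g) + cls ((-2 : K) • hk1 g) =
        cls ((2 : K) • hk g') + cl 2 + (cls ((-2 : K) • hk1 g') + cl (2 * c * cf g' 0)) ∧
      ∀ᶠ p : (Fin (k + 1) → K) × K in 𝓝 (g', η), (hk p.1).det ≠ 0 ∧ cf p.1 0 ≠ 0 ∧
        p.2 ≠ 0 ∧ (cmS p.1).det ≠ 0 ∧ (kryM (Wop p.1 (2 * c * cf p.1 0 * p.2 ^ 2))).det ≠ 0 ∧
        cpc (Wop p.1 (2 * c * cf p.1 0 * p.2 ^ 2)) ∈ U ∧
        ((Aop p.1).submatrix id finSumFinEquiv).det ≠ 0 ∧
        ((Aop p.1).submatrix id finSumFinEquiv).det * p.2 ∈ W := by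
  obtain ⟨a0, hp1, hp2⟩ := exists_point2 (k + 1) hev (by omega)
  obtain ⟨Φ, hΦ0, hΦ⟩ := poly2 a0 hp1 hp2
  have h0 : cf g 0 ≠ 0 := by
    rw [hτ]
    exact mul_ne_zero hc (pow_ne_zero 2 hτ0)
  have hset : {r : K | r ≠ 0 ∧ r * τ ∈ interior W} ∈ 𝓝 (1 : K) := by
    have h1 : ∀ᶠ r in 𝓝 (1 : K), r ≠ 0 := continuousAt_id.eventually_ne one_ne_zero
    have h2 : ∀ᶠ r in 𝓝 (1 : K), r * τ ∈ interior W := by
      have h3 : ContinuousAt (fun r : K => r * τ) 1 :=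
        (continuous_id.mul continuous_const).continuousAt
      refine h3.eventually_mem ?_
      rw [one_mul]
      exact interior_mem_nhds.2 hW
    exact h1.and h2
  have hq : ∀ᶠ a in 𝓝 g, ∃ r ∈ {r : K | r ≠ 0 ∧ r * τ ∈ interior W}, r ^ 2 = cf a 0 / cf g 0 := by
    have h1 : ContinuousAt (fun a : Fin (k + 1 + 1) → K => cf a 0 / cf g 0) g :=
      ((continuous_cf 0).div_const _).continuousAt
    have h2 := sqrt_nhds (two_ne_zero : (2 : K) ≠ 0) hset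
    have h3 : Filter.Tendsto (fun a : Fin (k + 1 + 1) → K => cf a 0 / cf g 0) (𝓝 g)
        (𝓝 (1 : K)) := by
      have h4 := h1.tendsto
      rwa [div_self h0] at h4
    exact h3.eventually h2
  obtain ⟨a, ⟨⟨haU, hal⟩, r, ⟨hr0, hrW⟩, hr⟩, ha⟩ := exists_near_ne φ Φ hΦ0 g
    (Filter.inter_mem (Filter.inter_mem (interior_mem_nhds.2 hU) (cls_hk_nhds g hgd h0)) hq)
  obtain ⟨-, ha0, hcl1, hcl2⟩ := hal
  obtain ⟨hda, hka⟩ := hΦ K φ a ha
  have hcfa : cf a 0 = c * (r * τ) ^ 2 := by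
    rw [eq_div_iff h0, hτ] at hr
    rw [← hr]
    ring
  obtain ⟨g', ρ, R, hd', h0', hS', hR, hf, hw, he⟩ := fwd2 hev a hda hka
  have hdet := det_second g' ρ hd' h0' a R hR hf hw
  have hcs := (cls_second g' (ρ := ρ) · hd' h0' a ha0 R hR hf hw)
  obtain ⟨A, hAdef⟩ : ∃ A, A = ((Aop g').submatrix id finSumFinEquiv).det := ⟨_, rfl⟩
  rw [← hAdef] at hdet
  have hne : 2 * cf g' 0 * cf a 0 ≠ 0 := mul_ne_zero (mul_ne_zero two_ne_zero h0') ha0
  have hA : A ≠ 0 := by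
    intro h
    apply hne
    rw [hdet, h]
    ring
  have hρ : ρ ≠ 0 := by
    intro h
    apply hne
    rw [hdet, h]
    ring
  have hσ : r * τ ≠ 0 := mul_ne_zero hr0 hτ0
  have hη : r * τ / A ≠ 0 := div_ne_zero hσ hA
  have hρη : 2 * c * cf g' 0 * (r * τ / A) ^ 2 = ρ := by
    rw [hcfa] at hdet
    field_simp
    linear_combination hdet
  have hcpc : cpc (Wop g' ρ) = a := by
    rw [← cpc_conj hR hw, cpc_cmp]
  have hkry : (kryM (Wop g' ρ)).det ≠ 0 := by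
    intro h
    have h1 := congrArg Matrix.det (kryM_conj he hw)
    rw [kryM_cmp, Matrix.det_one, Matrix.det_mul, h, mul_zero] at h1
    exact one_ne_zero h1
  refine ⟨g', r * τ / A, hd', h0', hη, ?_, ?_⟩
  · rw [← hcl1, ← hcl2, (hcs hρ).2, ← hρη, cl_mul_sq _ hη]
  · refine StarLoc_open hd' h0' hη hS' ?_ ?_ ?_ ?_
    · rw [hρη]; exact hkry
    · rw [hρη, hcpc]; exact mem_interior_iff_mem_nhds.1 haU
    · rw [← hAdef]; exact hA
    · rw [← hAdef, mul_div_cancel₀ _ hA]; exact mem_interior_iff_mem_nhds.1 hrW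

end SpinWA
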