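import Pool.Agent.H.MP_83e36b_nt.sp.CParB

/-!
# The first duality, backward

PROOF. `P = dbl e g`, `X = xop e g y`, `Γ = gamM P = sgM * hk P`, `R = kryM X` invertible.
`Γ X` is symmetric (`gam_cmS_symm`, `gam_even_symm`, `gamM_transpose`), so `Xᵀ Γ = Γ X` and
`(Rᵀ Γ R)_{ij} = e_0ᵀ (Xᵀ)^i Γ X^j e_0 = e_0ᵀ Γ X^{i+j} e_0`. And
`X cmp(P) - cmp(P) X = - cmS(P) cmp(P) + cmp(P) cmS(P) = e_0 (psum P ·)ᵀ - 1` (`commutator_cmS`),
so by `trace_pow_identity` `(psum P ·) X^k e_0 = Tr (X^k) = psum (cpc X) k` (`psum_cpc`), where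
`e_0ᵀ Γ = e_0ᵀ hk P = psum P ·` (`e0_vecMul_hk`, `e_0ᵀ sgM = e_0ᵀ`).
-/

open Matrix Polynomial

namespace SpinWA

variable {K : Type*} [Field K] [CharZero K] {m e : ℕ}

omit [CharZero K] in
private theorem CBwd_e0_sgM (n : ℕ) : e0 K n ᵥ* sgM K n = e0 K n := by
  funext j
  unfold sgM
  rw [Matrix.vecMul_diagonal]
  unfold e0
  by_cases hj : (j : ℕ) = 0
  · rw [if_pos hj, hj, pow_zero, mul_one]
  · rw [if_neg hj, zero_mul]

private theorem CBwd_e0_gam {n : ℕ} (a : Fin n → K) :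
    e0 K n ᵥ* gamM a = fun j : Fin n => psum a (j : ℕ) := by
  rw [gamM_eq, ← Matrix.vecMul_vecMul, CBwd_e0_sgM, e0_vecMul_hk]

private theorem CBwd_symm (he : e ≤ 1) (g : Fin m → K) (y : Fin (m + e) → K)
    (h : (hk (dbl e g)).det ≠ 0) :
    (xop e g y)ᵀ * gamM (dbl e g) = gamM (dbl e g) * xop e g y := by
  have h1 : (gamM (dbl e g) * xop e g y)ᵀ = gamM (dbl e g) * xop e g y := by
    unfold xop
    rw [Matrix.mul_add, Matrix.transpose_add, Matrix.mul_neg, Matrix.transpose_neg,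
      gam_cmS_symm he g h, gam_even_symm he g y]
  rwa [Matrix.transpose_mul, gamM_transpose he g] at h1

private theorem CBwd_symm_pow (he : e ≤ 1) (g : Fin m → K) (y : Fin (m + e) → K)
    (h : (hk (dbl e g)).det ≠ 0) (i : ℕ) :
    (xop e g y ^ i)ᵀ * gamM (dbl e g) = gamM (dbl e g) * xop e g y ^ i := by
  rw [Matrix.transpose_pow]
  induction i with
  | zero => rw [pow_zero, pow_zero, Matrix.one_mul, Matrix.mul_one]
  | succ i ih =>
    rw [pow_succ, Matrix.mul_assoc, CBwd_symm he g y h, ← Matrix.mul_assoc, ih,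
      Matrix.mul_assoc, ← pow_succ]

private theorem CBwd_comm (g : Fin m → K) (y : Fin (m + e) → K)
    (h : (hk (dbl e g)).det ≠ 0) :
    xop e g y * cmp (dbl e g) - cmp (dbl e g) * xop e g y =
      vecMulVec (e0 K (2 * m + e)) (fun j : Fin (2 * m + e) => psum (dbl e g) (j : ℕ)) - 1 := by
  rw [← commutator_cmS (dbl e g) h]
  have h1 : (∑ l, y l • cmp (dbl e g) ^ (2 * (l : ℕ))) * cmp (dbl e g) =
      cmp (dbl e g) * ∑ l, y l • cmp (dbl e g) ^ (2 * (l : ℕ)) := by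
    rw [Matrix.sum_mul, Matrix.mul_sum]
    refine Finset.sum_congr rfl fun l _ => ?_
    rw [Matrix.smul_mul, Matrix.mul_smul, ← pow_succ, ← pow_succ']
  unfold xop
  rw [Matrix.add_mul, Matrix.mul_add, h1, Matrix.neg_mul, Matrix.mul_neg]
  abel

theorem bwd (he : e ≤ 1) (g : Fin m → K) (y : Fin (m + e) → K)
    (h : (hk (dbl e g)).det ≠ 0) (hX : (kryM (xop e g y)).det ≠ 0) :
    (kryM (xop e g y))ᵀ * gamM (dbl e g) * kryM (xop e g y) = hk (cpc (xop e g y)) := by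
  ext i j
  have hcol : ∀ k : Fin (2 * m + e), (fun l => kryM (xop e g y) l k) =
      xop e g y ^ (k : ℕ) *ᵥ e0 K (2 * m + e) := by
    intro k
    ext l
    rfl
  have h1 : ((kryM (xop e g y))ᵀ * gamM (dbl e g) * kryM (xop e g y)) i j =
      (xop e g y ^ (i : ℕ) *ᵥ e0 K (2 * m + e)) ⬝ᵥ
        (gamM (dbl e g) *ᵥ (xop e g y ^ (j : ℕ) *ᵥ e0 K (2 * m + e))) := by
    rw [Matrix.mul_assoc, ← hcol i, ← hcol j]
    rfl
  have h2 : (xop e g y ^ (i : ℕ) *ᵥ e0 K (2 * m + e)) ⬝ᵥ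
        (gamM (dbl e g) *ᵥ (xop e g y ^ (j : ℕ) *ᵥ e0 K (2 * m + e))) =
      e0 K (2 * m + e) ⬝ᵥ (((xop e g y ^ (i : ℕ))ᵀ * gamM (dbl e g)) *ᵥ
        (xop e g y ^ (j : ℕ) *ᵥ e0 K (2 * m + e))) := by
    rw [← Matrix.mulVec_mulVec, Matrix.dotProduct_mulVec (e0 K (2 * m + e)),
      Matrix.vecMul_transpose]
  rw [h1, h2, CBwd_symm_pow he g y h,
    ← Matrix.mulVec_mulVec, Matrix.mulVec_mulVec _ (xop e g y ^ (i : ℕ)), ← pow_add,
    Matrix.dotProduct_mulVec, CBwd_e0_gam, trace_pow_identity (CBwd_comm g y h), ← psum_cpc hX]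
  rfl

end SpinWA
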