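import Pool.Agent.H.MP_83e36b_nt.sp.GPolyA
import Pool.Agent.H.MP_83e36b_nt.sp.CRootS
import Pool.Agent.H.MP_ffe2f0_al.NPoint

/-!
# A point where the first duality is defined

PROOF. Let `L` be an algebraic closure of `ℚ` (or `ℂ`). `NoetherAn.exists_kry_ne_zero` gives distinct
`x i` in `L` with `det (kry x) ≠ 0`. Let `a` be the coefficient vector of `∏ (X - x_i)`
(`monicPoly a = ∏ (X - C (x i))`, the product is monic of degree `n`), `V = vandermonde x`
(invertible). `vand_hk`: `det (hk a) = (det V)^2 ≠ 0`. `vand_cmS`, `vand_e0`: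
`V S^k e_0 = cm(x)^k V e_0 = cm(x)^k 1`, so `V * kryM (cmS a) = kry x` and
`det (kryM (cmS a)) ≠ 0`.
-/

open Matrix Polynomial

namespace SpinWA

theorem exists_coeffs {L : Type*} [Field L] {n : ℕ} (x : Fin n → L) :
    ∃ a : Fin n → L, AnWA.monicPoly a = ∏ i, (X - C (x i)) := by
  have hm : (∏ i, (X - C (x i)) : L[X]).Monic := monic_prod_of_monic _ _ fun i _ => monic_X_sub_C _
  have hd : (∏ i, (X - C (x i)) : L[X]).natDegree = n := by
    rw [natDegree_prod_of_monic _ _ fun i _ => monic_X_sub_C _]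
    simp
  refine ⟨fun i => (∏ i, (X - C (x i)) : L[X]).coeff i, ?_⟩
  have h2 := hm.as_sum
  rw [hd, Finset.sum_range] at h2
  exact h2.symm

private theorem gpt1_pow {L : Type*} [Field L] [CharZero L] {n : ℕ} (x a : Fin n → L)
    (hx : Function.Injective x) (h : AnWA.monicPoly a = ∏ i, (X - C (x i))) (k : ℕ) :
    vandermonde x * cmS a ^ k = NoetherAn.cm x ^ k * vandermonde x := by
  induction k with
  | zero => rw [pow_zero, pow_zero, one_mul, mul_one]
  | succ k ih =>
    rw [pow_succ, ← mul_assoc, ih, mul_assoc, vand_cmS x a hx h, ← mul_assoc, ← pow_succ]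

private theorem gpt1_kry {L : Type*} [Field L] [CharZero L] {n : ℕ} (x a : Fin n → L)
    (hx : Function.Injective x) (h : AnWA.monicPoly a = ∏ i, (X - C (x i))) :
    vandermonde x * kryM (cmS a) = NoetherAn.kry x := by
  ext i k
  have h1 : (vandermonde x * kryM (cmS a)) i k =
      (vandermonde x *ᵥ (cmS a ^ (k : ℕ) *ᵥ e0 L n)) i := rfl
  rw [h1, mulVec_mulVec, gpt1_pow x a hx h, ← mulVec_mulVec, vand_e0]
  unfold NoetherAn.kry mulVec dotProduct
  rw [of_apply]
  simp only [mul_one]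

theorem exists_point1 (n : ℕ) : ∃ a : Fin n → AlgebraicClosure ℚ,
    (hk a).det ≠ 0 ∧ (kryM (cmS a)).det ≠ 0 := by
  obtain ⟨x, hx, hk0⟩ := NoetherAn.exists_kry_ne_zero (AlgebraicClosure ℚ) n
  obtain ⟨a, ha⟩ := exists_coeffs x
  refine ⟨a, ?_, ?_⟩
  · rw [← vand_hk x a hx ha, det_mul, det_transpose]
    have hV : (vandermonde x).det ≠ 0 := det_vandermonde_ne_zero_iff.2 hx
    exact mul_ne_zero hV hV
  · intro h0
    apply hk0
    rw [← gpt1_kry x a hx ha, det_mul, h0, mul_zero]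

end SpinWA
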