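import Pool.Agent.H.MP_83e36b_nt.sp.LCong
import Pool.Agent.H.MP_83e36b_nt.sp.WApi
import Pool.Agent.H.MP_83e36b_nt.sp.PDefs

/-!
# The Witt class is locally constant

PROOF. `cls_nhds`: `cong_nhds` with `U = {C | C.det ≠ 0}` (a neighbourhood of 1 by continuity of the
determinant, `Continuous.matrix_det`) gives `A' = Cᵀ A C`, `Cong A A'`, `cls_cong`; the determinant
of `A'` is nonzero near `A`. `cl_nhds`: the case of `1 × 1` matrices (`cls_diagonal`), or: `a'/a` is
near 1, so it is a square. `isSquare_nhds`: `cong_nhds` for the `1 × 1` matrix `(1)`: `a = c * 1 * c`;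
more precisely every `a` near `1` is `r^2` with `r` near `1`.
`cong_mul_nhds`: if `Cᵀ A C = A'`... apply `cong_nhds` at the symmetric matrix
`B = Cᵀ Q C` (its determinant is nonzero) with the neighbourhood `{P | C * P ∈ U}` of `1`: for `B'`
near `B` symmetric there is `P` near `1` with `Pᵀ B P = B'`, so `(C P)ᵀ Q (C P) = B'`.
-/

open Topology Matrix

namespace SpinWA

section
variable {K : Type*} [NontriviallyNormedField K] [CompleteSpace K] {n : ℕ}

theorem cls_nhds (h2 : (2 : K) ≠ 0) {A : Matrix (Fin n) (Fin n) K} (hA : Aᵀ = A)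
    (hd : A.det ≠ 0) : ∀ᶠ A' in 𝓝 A, A'ᵀ = A' → A'.det ≠ 0 ∧ cls A' = cls A := by
  have hU : {C : Matrix (Fin n) (Fin n) K | C.det ≠ 0} ∈ 𝓝 (1 : Matrix (Fin n) (Fin n) K) := by
    have hc : Continuous (fun C : Matrix (Fin n) (Fin n) K => C.det) :=
      Continuous.matrix_det continuous_id
    have h1 : (1 : Matrix (Fin n) (Fin n) K).det ≠ 0 := by
      rw [det_one]
      exact one_ne_zero
    exact hc.continuousAt.eventually_ne h1
  obtain ⟨V, hV, hVA⟩ := cong_nhds h2 hA hd hU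
  filter_upwards [hV] with A' hA' hsymm
  obtain ⟨C, hC, hCA⟩ := hVA A' hA' hsymm
  have hC0 : C.det ≠ 0 := hC
  refine ⟨?_, (cls_cong h2 hA hd ⟨C, hC0, hCA⟩).symm⟩
  rw [← hCA, det_mul, det_mul, det_transpose]
  exact mul_ne_zero (mul_ne_zero hC0 hd) hC0

theorem lcls_cont : Continuous (fun a : K => diagonal (fun _ : Fin 1 => a)) := by
  apply Continuous.matrix_diagonal
  exact continuous_pi fun _ => continuous_id

theorem cl_nhds (h2 : (2 : K) ≠ 0) {a : K} (ha : a ≠ 0) : ∀ᶠ a' in 𝓝 a, cl a' = cl a := by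
  have hd : (diagonal (fun _ : Fin 1 => a)).det ≠ 0 := by
    rw [det_diagonal]
    simpa using ha
  have h1 := cls_nhds h2 (A := diagonal (fun _ : Fin 1 => a)) (diagonal_transpose _) hd
  have h3 := (lcls_cont (K := K)).continuousAt.eventually h1
  filter_upwards [h3] with a' ha'
  obtain ⟨h4, h5⟩ := ha' (diagonal_transpose _)
  have h6 : a' ≠ 0 := by
    rw [det_diagonal] at h4
    simpa using h4
  rw [cls_diagonal h2 (fun _ => h6), cls_diagonal h2 (fun _ => ha)] at h5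
  simpa using h5

/-- Numbers near 1 are squares of numbers near 1. -/
theorem sqrt_nhds (h2 : (2 : K) ≠ 0) {U : Set K} (hU : U ∈ 𝓝 (1 : K)) :
    ∀ᶠ a in 𝓝 (1 : K), ∃ r ∈ U, r ^ 2 = a := by
  have hU' : {C : Matrix (Fin 1) (Fin 1) K | C 0 0 ∈ U} ∈ 𝓝 (1 : Matrix (Fin 1) (Fin 1) K) := by
    have hc : Continuous (fun C : Matrix (Fin 1) (Fin 1) K => C 0 0) :=
      Continuous.matrix_elem continuous_id 0 0
    have h1 : U ∈ 𝓝 ((1 : Matrix (Fin 1) (Fin 1) K) 0 0) := by
      rw [one_apply_eq]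
      exact hU
    exact hc.continuousAt h1
  have hd : (1 : Matrix (Fin 1) (Fin 1) K).det ≠ 0 := by
    rw [det_one]
    exact one_ne_zero
  obtain ⟨V, hV, hVA⟩ := cong_nhds h2 (transpose_one (α := K)) hd hU'
  have h1 : diagonal (fun _ : Fin 1 => (1 : K)) = 1 := diagonal_one
  rw [← h1] at hV
  have h3 := (lcls_cont (K := K)).continuousAt (x := (1 : K)) hV
  filter_upwards [h3] with a ha
  obtain ⟨C, hC, hCA⟩ := hVA _ ha (diagonal_transpose _)
  refine ⟨C 0 0, hC, ?_⟩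
  have hCA' : Cᵀ * 1 * C = diagonal (fun _ : Fin 1 => a) := hCA
  have h4 := congrFun (congrFun hCA' 0) 0
  rw [Matrix.mul_one, mul_apply, diagonal_apply_eq] at h4
  simp only [Finset.univ_unique, Fin.default_eq_zero, Fin.isValue, Finset.sum_singleton,
    transpose_apply] at h4
  rw [← h4]
  ring

/-- Deformation of an isometry. -/
theorem cong_mul_nhds (h2 : (2 : K) ≠ 0) {Q C : Matrix (Fin n) (Fin n) K} (hQ : Qᵀ = Q)
    (hd : Q.det ≠ 0) (hC : C.det ≠ 0) {U : Set (Matrix (Fin n) (Fin n) K)} (hU : U ∈ 𝓝 C) :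
    ∀ᶠ B in 𝓝 (Cᵀ * Q * C), Bᵀ = B → ∃ C' ∈ U, C'ᵀ * Q * C' = B := by
  have hU' : {P : Matrix (Fin n) (Fin n) K | C * P ∈ U} ∈ 𝓝 (1 : Matrix (Fin n) (Fin n) K) := by
    have hc : Continuous (fun P : Matrix (Fin n) (Fin n) K => C * P) :=
      Continuous.matrix_mul continuous_const continuous_id
    have h1 : U ∈ 𝓝 (C * (1 : Matrix (Fin n) (Fin n) K)) := by
      rw [Matrix.mul_one]
      exact hU
    exact hc.continuousAt h1
  have hB : (Cᵀ * Q * C)ᵀ = Cᵀ * Q * C := by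
    rw [transpose_mul, transpose_mul, transpose_transpose, hQ, Matrix.mul_assoc]
  have hBd : (Cᵀ * Q * C).det ≠ 0 := by
    rw [det_mul, det_mul, det_transpose]
    exact mul_ne_zero (mul_ne_zero hC hd) hC
  obtain ⟨V, hV, hVA⟩ := cong_nhds h2 hB hBd hU'
  filter_upwards [hV] with B' hB' hsymm
  obtain ⟨P, hP, hPB⟩ := hVA B' hB' hsymm
  refine ⟨C * P, hP, ?_⟩
  rw [← hPB, transpose_mul]
  simp only [Matrix.mul_assoc]

end

end SpinWA
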