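import Pool.Agent.H.MP_83e36b_nt.sp.CFwd
import Pool.Agent.H.MP_83e36b_nt.sp.CBwd
import Pool.Agent.H.MP_83e36b_nt.sp.GPt1
import Pool.Agent.H.MP_83e36b_nt.sp.PCont
import Pool.Agent.H.MP_83e36b_nt.sp.LCls
import Pool.Agent.H.MP_83e36b_nt.sp.CCls

/-!
# The first duality near a local point

PROOF. `n = 2 m + e`, `x = (a0, B0)`, `det (hk a0) = det(B0)^2 det Q ≠ 0`.
(1) `exists_point1` and `poly1` give a polynomial `Φ ≠ 0`. Choose
by `exists_near_ne` a vector `a` near `a0` with `Φ ≠ 0` there, so near that there is `B` near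
`B0` with `Bᵀ Q B = hk a` (`cong_mul_nhds`, `continuous_hk`, `hk_transpose`),
`(a, B) ∈ interior U`, `det B ≠ 0`, `det (kryM (cmS a)) ≠ 0`, `det (hk a) ≠ 0`.
(2) `fwd` gives `g`, `y`; let `P = kryM (cmS a)`, `C = B * P`, `X = xop e g y`: `Cᵀ Q C = Pᵀ (hk a) P =
gamM (dbl e g)`, `det C ≠ 0`, `cmp a * P = P * X`.
(3) `Ψ(g, y, C) = (cpc (xop e g y), C * kryM (xop e g y))` is continuous at `(g, y, C)`
(`continuousAt_xop`, `continuous_cpc`, `continuous_kryM`) with value `(a, B)`: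
`cpc X = cpc (cmp a) = a` (`cpc_conj`, `cpc_cmp`); `kryM_conj` (`kryM_mulVec_e0`, `kryM_cmp`):
`1 = kryM (cmp a) = P * kryM X`, so `C * kryM X = B * (P * kryM X) = B`.
In particular `det (kryM X) ≠ 0`. So the conditions hold near `(g, y, C)`.
-/

open Topology Matrix Polynomial

namespace SpinWA

theorem x_loc {K : Type} [NontriviallyNormedField K] [CompleteSpace K] [CharZero K]
    (φ : ℚ →+* K) {m e : ℕ} (he : e ≤ 1) {Q : Matrix (Fin (2 * m + e)) (Fin (2 * m + e)) K}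
    (hQ : Qᵀ = Q) (hd : Q.det ≠ 0)
    (x : (Fin (2 * m + e) → K) × Matrix (Fin (2 * m + e)) (Fin (2 * m + e)) K)
    (hx : x.2ᵀ * Q * x.2 = hk x.1) (hx2 : x.2.det ≠ 0)
    {U : Set ((Fin (2 * m + e) → K) × Matrix (Fin (2 * m + e)) (Fin (2 * m + e)) K)}
    (hU : U ∈ 𝓝 x) :
    ∃ (g : Fin m → K) (y : Fin (m + e) → K)
      (C : Matrix (Fin (2 * m + e)) (Fin (2 * m + e)) K),
      Cᵀ * Q * C = gamM (dbl e g) ∧ C.det ≠ 0 ∧
      ∀ᶠ p : (Fin m → K) × (Fin (m + e) → K) ×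
          Matrix (Fin (2 * m + e)) (Fin (2 * m + e)) K in 𝓝 (g, y, C),
        (kryM (xop e p.1 p.2.1)).det ≠ 0 ∧
        (cpc (xop e p.1 p.2.1), p.2.2 * kryM (xop e p.1 p.2.1)) ∈ U := by
  have h2 : (2 : K) ≠ 0 := two_ne_zero
  obtain ⟨a0, B0⟩ := x
  simp only at hx hx2
  rw [nhds_prod_eq, Filter.mem_prod_iff] at hU
  obtain ⟨V1', hV1', V2', hV2', hsub'⟩ := hU
  obtain ⟨V1, hV1s, hV1o, hV1m⟩ := mem_nhds_iff.mp hV1'
  obtain ⟨V2, hV2s, hV2o, hV2m⟩ := mem_nhds_iff.mp hV2'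
  have hsub : V1 ×ˢ V2 ⊆ U := (Set.prod_mono hV1s hV2s).trans hsub'
  have hdetc : Continuous (fun C : Matrix (Fin (2 * m + e)) (Fin (2 * m + e)) K => C.det) :=
    Continuous.matrix_det continuous_id
  have hV3 : V2 ∩ {C | C.det ≠ 0} ∈ 𝓝 B0 :=
    Filter.inter_mem (hV2o.mem_nhds hV2m) (hdetc.continuousAt.eventually_ne hx2)
  have h3 := cong_mul_nhds h2 hQ hd hx2 hV3
  rw [hx] at h3
  have h4 : ∀ᶠ a in 𝓝 a0, (hk a)ᵀ = hk a → ∃ C' ∈ V2 ∩ {C | C.det ≠ 0},
      C'ᵀ * Q * C' = hk a := (continuous_hk.continuousAt (x := a0)).eventually h3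
  obtain ⟨b0, hb1, hb2⟩ := exists_point1 (2 * m + e)
  obtain ⟨Φ, hΦ, hpoly⟩ := poly1 b0 hb1 hb2
  obtain ⟨a, ⟨haV, haB⟩, haΦ⟩ := exists_near_ne φ Φ hΦ a0
    (Filter.inter_mem (hV1o.mem_nhds hV1m) h4)
  obtain ⟨B, ⟨hBV, hBd⟩, hBQ⟩ := haB (hk_transpose a)
  obtain ⟨hka, hkry⟩ := hpoly K φ a haΦ
  obtain ⟨g, y, hgram, hdet, hconj⟩ := fwd he a hka hkry
  have hBd' : B.det ≠ 0 := hBd
  have hkk : (1 : Matrix (Fin (2 * m + e)) (Fin (2 * m + e)) K) =
      kryM (cmS a) * kryM (xop e g y) := by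
    rw [← kryM_cmp a]
    exact kryM_conj (kryM_mulVec_e0 (cmS a)) hconj
  have hXd : (kryM (xop e g y)).det ≠ 0 := by
    intro h0
    have h1 := congrArg Matrix.det hkk
    rw [Matrix.det_mul, h0, mul_zero, Matrix.det_one] at h1
    exact one_ne_zero h1
  have hcpc : cpc (xop e g y) = a := by
    rw [← cpc_conj hkry hconj, cpc_cmp]
  refine ⟨g, y, B * kryM (cmS a), ?_, ?_, ?_⟩
  · rw [← hgram, ← hBQ, Matrix.transpose_mul]
    simp only [Matrix.mul_assoc]
  · rw [Matrix.det_mul]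
    exact mul_ne_zero hBd' hkry
  · have hc1 : ContinuousAt (fun p : (Fin m → K) × (Fin (m + e) → K) ×
        Matrix (Fin (2 * m + e)) (Fin (2 * m + e)) K => xop e p.1 p.2.1)
        (g, y, B * kryM (cmS a)) :=
      ContinuousAt.comp (g := fun p : (Fin m → K) × (Fin (m + e) → K) => xop e p.1 p.2)
        (f := fun p : (Fin m → K) × (Fin (m + e) → K) ×
          Matrix (Fin (2 * m + e)) (Fin (2 * m + e)) K => (p.1, p.2.1))
        (continuousAt_xop e y hdet)
        (continuous_fst.prodMk (continuous_fst.comp continuous_snd)).continuousAt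
    have hc2 : ContinuousAt (fun p : (Fin m → K) × (Fin (m + e) → K) ×
        Matrix (Fin (2 * m + e)) (Fin (2 * m + e)) K => kryM (xop e p.1 p.2.1))
        (g, y, B * kryM (cmS a)) :=
      ContinuousAt.comp (g := fun M : Matrix (Fin (2 * m + e)) (Fin (2 * m + e)) K => kryM M)
        continuous_kryM.continuousAt hc1
    have hc3 : ContinuousAt (fun p : (Fin m → K) × (Fin (m + e) → K) ×
        Matrix (Fin (2 * m + e)) (Fin (2 * m + e)) K => (kryM (xop e p.1 p.2.1)).det)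
        (g, y, B * kryM (cmS a)) :=
      ContinuousAt.comp (g := fun M : Matrix (Fin (2 * m + e)) (Fin (2 * m + e)) K => M.det)
        hdetc.continuousAt hc2
    have hc4 : ContinuousAt (fun p : (Fin m → K) × (Fin (m + e) → K) ×
        Matrix (Fin (2 * m + e)) (Fin (2 * m + e)) K => cpc (xop e p.1 p.2.1))
        (g, y, B * kryM (cmS a)) :=
      ContinuousAt.comp (g := fun M : Matrix (Fin (2 * m + e)) (Fin (2 * m + e)) K => cpc M)
        continuous_cpc.continuousAt hc1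
    have hc5 : ContinuousAt (fun p : (Fin m → K) × (Fin (m + e) → K) ×
        Matrix (Fin (2 * m + e)) (Fin (2 * m + e)) K => p.2.2 * kryM (xop e p.1 p.2.1))
        (g, y, B * kryM (cmS a)) := by
      have hm : Continuous (fun q : Matrix (Fin (2 * m + e)) (Fin (2 * m + e)) K ×
          Matrix (Fin (2 * m + e)) (Fin (2 * m + e)) K => q.1 * q.2) :=
        Continuous.matrix_mul continuous_fst continuous_snd
      exact ContinuousAt.comp
        (g := fun q : Matrix (Fin (2 * m + e)) (Fin (2 * m + e)) K ×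
          Matrix (Fin (2 * m + e)) (Fin (2 * m + e)) K => q.1 * q.2)
        (f := fun p : (Fin m → K) × (Fin (m + e) → K) ×
          Matrix (Fin (2 * m + e)) (Fin (2 * m + e)) K => (p.2.2, kryM (xop e p.1 p.2.1)))
        hm.continuousAt
        ((continuous_snd.comp continuous_snd).continuousAt.prodMk hc2)
    have hne : ∀ᶠ p : (Fin m → K) × (Fin (m + e) → K) ×
        Matrix (Fin (2 * m + e)) (Fin (2 * m + e)) K in 𝓝 (g, y, B * kryM (cmS a)),
        (kryM (xop e p.1 p.2.1)).det ≠ 0 := hc3.eventually_ne hXd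
    have hval : B * kryM (cmS a) * kryM (xop e g y) = B := by
      rw [Matrix.mul_assoc, ← hkk, Matrix.mul_one]
    have hin1 : ∀ᶠ p : (Fin m → K) × (Fin (m + e) → K) ×
        Matrix (Fin (2 * m + e)) (Fin (2 * m + e)) K in 𝓝 (g, y, B * kryM (cmS a)),
        cpc (xop e p.1 p.2.1) ∈ V1 := by
      refine hc4.eventually_mem (hV1o.mem_nhds ?_)
      simp only [hcpc]
      exact haV
    have hin2 : ∀ᶠ p : (Fin m → K) × (Fin (m + e) → K) ×
        Matrix (Fin (2 * m + e)) (Fin (2 * m + e)) K in 𝓝 (g, y, B * kryM (cmS a)),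
        p.2.2 * kryM (xop e p.1 p.2.1) ∈ V2 := by
      refine hc5.eventually_mem (hV2o.mem_nhds ?_)
      simp only [hval]
      exact hBV
    filter_upwards [hne, hin1, hin2] with p hp1 hp2 hp3
    exact ⟨hp1, hsub ⟨hp2, hp3⟩⟩

end SpinWA
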