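import Pool.Agent.H.MP_83e36b_nt.sp.PDefs

/-!
# Weak approximation for `ℚ`

PROOF. Enlarge `S` so that it contains `none`. The neighbourhoods contain balls of radius `ε < 1`.
Step 1: for the finite primes: for `p ∈ S` choose `y_p ∈ ℚ` with `‖y_p - x_p‖ < ε` (`ℚ` is dense in
`ℚ_[p]`: `Padic.rat_dense` / `Padic.denseRange_ratCast`). Let `D` be a positive integer such that
`D y_p ∈ ℤ` for all `p ∈ S`, let `M = ∏_{p ∈ S} p^k`, `k` large (`p^{-k} < ε ‖D‖_p` for all `p ∈ S`).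
By the Chinese remainder theorem (`Nat.chineseRemainder...`, `Ideal` version, or
`Finset` version `Nat.chineseRemainderOfFinset`) there is an integer `z` with `z ≡ D y_p` modulo
`p^k` for all `p ∈ S`; `y = z / D` satisfies `‖y - y_p‖_p ≤ p^{-k}/‖D‖_p < ε` for `p ∈ S`.
Step 2: let `q` be a prime not in `S`. The numbers `y + M j / q^i`, `j ∈ ℤ`, with
`i` large, are as close to `y` as needed at all `p ∈ S` (`‖M j / q^i‖_p ≤ p^{-k} < ε`; use the
ultrametric inequality) and for `i` with `M / q^i < ε` some `j` gives a number at distance `< ε` of the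
given real number. `wa_fun`: use `wa_rat` for each coordinate, neighbourhoods of a point of a finite
product contain products of neighbourhoods (`nhds_pi`, `Filter.mem_pi'`, or
`set_pi_mem_nhds`).
-/

open Topology

namespace SpinWA

theorem lwa_real (r : ℚ) : ‖emb none r‖ = |(r : ℝ)| := rfl

theorem lwa_padic (p : Nat.Primes) (r : ℚ) : ‖emb (some p) r‖ = ‖(r : ℚ_[(p : ℕ)])‖ := rfl

/-- the absolute values of `ℚ` -/
noncomputable def lwaAbs (v : Pl) : AbsoluteValue ℚ ℝ where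
  toFun r := ‖emb v r‖
  map_mul' a b := by rw [map_mul, norm_mul]
  nonneg' a := norm_nonneg _
  eq_zero' a := by rw [norm_eq_zero, map_eq_zero]
  add_le' a b := by
    rw [map_add]
    exact norm_add_le _ _

theorem lwaAbs_apply (v : Pl) (r : ℚ) : lwaAbs v r = ‖emb v r‖ := rfl

theorem lwaAbs_self (p : Nat.Primes) : lwaAbs (some p) ((p : ℕ) : ℚ) < 1 := by
  rw [lwaAbs_apply, lwa_padic]
  have h1 : (((p : ℕ) : ℚ) : ℚ_[(p : ℕ)]) = ((p : ℕ) : ℚ_[(p : ℕ)]) := by push_cast; rfl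
  rw [h1, Padic.norm_p]
  exact inv_lt_one_of_one_lt₀ (by exact_mod_cast p.2.one_lt)

theorem lwaAbs_ne {p : Nat.Primes} {v : Pl} (hv : v ≠ some p) :
    ¬ lwaAbs v ((p : ℕ) : ℚ) < 1 := by
  rw [lwaAbs_apply, not_lt]
  cases v with
  | none =>
    rw [lwa_real]
    have h1 : ((((p : ℕ) : ℚ) : ℝ)) = ((p : ℕ) : ℝ) := by push_cast; rfl
    rw [h1, Nat.abs_cast]
    exact_mod_cast p.2.one_lt.le
  | some q =>
    rw [lwa_padic]
    have h1 : (((p : ℕ) : ℚ) : ℚ_[(q : ℕ)]) = ((p : ℕ) : ℚ_[(q : ℕ)]) := by push_cast; rfl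
    rw [h1]
    have h2 : (q : ℕ) ≠ p := fun h3 => hv (congrArg some (Subtype.ext h3))
    rw [Padic.norm_natCast_eq_one_iff.2 ((Nat.coprime_primes q.2 p.2).2 h2)]

theorem lwaAbs_isNontrivial (v : Pl) : (lwaAbs v).IsNontrivial := by
  cases v with
  | none =>
    refine ⟨2, two_ne_zero, ?_⟩
    rw [lwaAbs_apply, lwa_real]
    norm_num
  | some p =>
    exact ⟨((p : ℕ) : ℚ), by exact_mod_cast p.2.ne_zero, (lwaAbs_self p).ne⟩

theorem lwaAbs_not_isEquiv {v w : Pl} (h : v ≠ w) : ¬ (lwaAbs v).IsEquiv (lwaAbs w) := by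
  intro he
  cases v with
  | some p => exact lwaAbs_ne h.symm ((he.lt_one_iff).1 (lwaAbs_self p))
  | none =>
    cases w with
    | none => exact h rfl
    | some q => exact lwaAbs_ne h ((he.lt_one_iff).2 (lwaAbs_self q))

theorem lwa_dense (v : Pl) (x : Cpl v) {ε : ℝ} (hε : 0 < ε) : ∃ r : ℚ, ‖x - emb v r‖ < ε := by
  cases v with
  | none =>
    obtain ⟨r, hr⟩ := Metric.denseRange_iff.1 (Rat.denseRange_cast (𝕜 := ℝ)) x ε hε
    exact ⟨r, by rw [dist_eq_norm] at hr; exact hr⟩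
  | some p =>
    obtain ⟨r, hr⟩ := Padic.rat_dense (p : ℕ) x hε
    exact ⟨r, hr⟩

theorem wa_rat (S : Finset Pl) (x : ∀ v, Cpl v) (U : ∀ v, Set (Cpl v))
    (hU : ∀ v ∈ S, U v ∈ 𝓝 (x v)) : ∃ r : ℚ, ∀ v ∈ S, emb v r ∈ U v := by
  classical
  have h1 : ∀ v : {v // v ∈ S}, ∃ ε > 0, Metric.ball (x v.1) ε ⊆ U v.1 := fun v =>
    Metric.mem_nhds_iff.1 (hU v.1 v.2)
  choose ε hε hball using h1
  have h2 : ∀ v : {v // v ∈ S}, ∃ r : ℚ, ‖x v.1 - emb v.1 r‖ < ε v / 2 := fun v =>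
    lwa_dense v.1 (x v.1) (half_pos (hε v))
  choose y hy using h2
  have h3 := AbsoluteValue.denseRange_algebraMap_pi (F := ℚ) (ι := {v // v ∈ S})
    (v := fun v => lwaAbs v.1) (fun v => lwaAbs_isNontrivial v.1)
    (fun v w hvw => lwaAbs_not_isEquiv fun h => hvw (Subtype.ext h))
  have hopen : IsOpen (Set.pi Set.univ fun v : {v // v ∈ S} =>
      Metric.ball (WithAbs.toAbs (lwaAbs v.1) (y v)) (ε v / 2)) :=
    isOpen_set_pi Set.finite_univ fun _ _ => Metric.isOpen_ball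
  obtain ⟨r, hr⟩ := h3.exists_mem_open hopen
    ⟨fun v => WithAbs.toAbs (lwaAbs v.1) (y v), fun v _ => Metric.mem_ball_self (half_pos (hε v))⟩
  refine ⟨r, fun v hv => hball ⟨v, hv⟩ ?_⟩
  have h4 := hr ⟨v, hv⟩ (Set.mem_univ _)
  rw [Metric.mem_ball, dist_eq_norm] at h4 ⊢
  have h5 : ‖emb v (r - y ⟨v, hv⟩)‖ < ε ⟨v, hv⟩ / 2 := h4
  rw [map_sub] at h5
  have h6 := hy ⟨v, hv⟩
  have h7 : emb v r - x v = (emb v r - emb v (y ⟨v, hv⟩)) - (x v - emb v (y ⟨v, hv⟩)) := by ring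
  calc ‖emb v r - x v‖ ≤ ‖emb v r - emb v (y ⟨v, hv⟩)‖ + ‖x v - emb v (y ⟨v, hv⟩)‖ := by
        rw [h7]
        exact norm_sub_le _ _
    _ < ε ⟨v, hv⟩ / 2 + ε ⟨v, hv⟩ / 2 := add_lt_add h5 h6
    _ = ε ⟨v, hv⟩ := add_halves _

theorem wa_fun {ι : Type*} [Finite ι] (S : Finset Pl) (x : ∀ v, ι → Cpl v)
    (U : ∀ v, Set (ι → Cpl v)) (hU : ∀ v ∈ S, U v ∈ 𝓝 (x v)) :
    ∃ r : ι → ℚ, ∀ v ∈ S, (fun i => emb v (r i)) ∈ U v := by
  classical
  have h1 : ∀ v : Pl, ∃ t : ι → Set (Cpl v), v ∈ S →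
      ((∀ i, t i ∈ 𝓝 (x v i)) ∧ Set.pi Set.univ t ⊆ U v) := by
    intro v
    by_cases hv : v ∈ S
    · have h2 := hU v hv
      rw [nhds_pi, Filter.mem_pi'] at h2
      obtain ⟨I, t, ht, hI⟩ := h2
      refine ⟨t, fun _ => ⟨ht, ?_⟩⟩
      intro z hz
      exact hI fun i _ => hz i (Set.mem_univ i)
    · exact ⟨fun _ => Set.univ, fun h => absurd h hv⟩
  choose t ht using h1
  have h2 : ∀ i, ∃ r : ℚ, ∀ v ∈ S, emb v r ∈ t v i := fun i =>
    wa_rat S (fun v => x v i) (fun v => t v i) fun v hv => (ht v hv).1 i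
  choose r hr using h2
  exact ⟨r, fun v hv => (ht v hv).2 fun i _ => hr i v hv⟩

end SpinWA
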