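import Pool.Agent.H.MP_83e36b_nt.sp.WDef

/-!
# Diagonalisation

PROOF. Apply Mathlib: the bilinear form `Matrix.toBilin' A` is symmetric and nondegenerate;
`LinearMap.BilinForm.exists_orthogonal_basis` gives an orthogonal basis (needs `Invertible 2`);
take `P` = matrix of this basis; or use
`QuadraticForm.equivalent_weightedSumSquares_units_of_nondegenerate'`; or induct on `Fin n`: some
`xᵀ A x ≠ 0` (else polarise), complete `x` to a basis and split off. Then reindex to `ι`.
-/

open Matrix

namespace SpinWA

variable {ι K : Type*} [Fintype ι] [DecidableEq ι] [Field K]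

/-- Every symmetric invertible matrix is congruent to a diagonal matrix. -/
theorem exists_diag (h2 : (2 : K) ≠ 0) {A : Matrix ι ι K} (hA : Aᵀ = A) (hd : A.det ≠ 0) :
    ∃ d : ι → K, (∀ i, d i ≠ 0) ∧ Cong A (diagonal d) := by
  let _ : Invertible (2 : K) := invertibleOfNonzero h2
  have hsymm : LinearMap.IsSymm (Matrix.toBilin' A) := by
    refine ⟨fun x y => ?_⟩
    simp only [RingHom.id_apply, Matrix.toBilin'_apply']
    rw [Matrix.dotProduct_mulVec, ← Matrix.mulVec_transpose, hA, dotProduct_comm]
  obtain ⟨v, hv⟩ := LinearMap.BilinForm.exists_orthogonal_basis hsymm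
  have hcard : Fintype.card (Fin (Module.finrank K (ι → K))) = Fintype.card ι := by
    rw [Fintype.card_fin, Module.finrank_fintype_fun_eq_card]
  let e : Fin (Module.finrank K (ι → K)) ≃ ι := Fintype.equivOfCardEq hcard
  let w := v.reindex e
  have hw : ∀ i j, i ≠ j → Matrix.toBilin' A (w i) (w j) = 0 := by
    intro i j hij
    have h3 : e.symm i ≠ e.symm j := fun h => hij (e.symm.injective h)
    have h4 := hv h3
    show Matrix.toBilin' A (v.reindex e i) (v.reindex e j) = 0
    rw [Module.Basis.reindex_apply, Module.Basis.reindex_apply]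
    exact h4
  let P : Matrix ι ι K := Matrix.of fun i j => w j i
  have hP : P.det ≠ 0 := by
    have h5 : P = (Pi.basisFun K ι).toMatrix w := by
      ext i j
      simp [P, Module.Basis.toMatrix_apply]
    have h6 := Module.Basis.toMatrix_mul_toMatrix_flip (Pi.basisFun K ι) w
    intro h0
    have h7 := congrArg Matrix.det h6
    rw [Matrix.det_mul, ← h5, h0, zero_mul, Matrix.det_one] at h7
    exact zero_ne_one h7
  have hPAP : Pᵀ * A * P = diagonal fun i => Matrix.toBilin' A (w i) (w i) := by
    ext i j
    have h8 : (Pᵀ * A * P) i j = Matrix.toBilin' A (w i) (w j) := by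
      rw [Matrix.toBilin'_apply', Matrix.mul_assoc, Matrix.mul_apply]
      simp only [dotProduct, Matrix.mulVec, Matrix.mul_apply, Matrix.transpose_apply, P,
        Matrix.of_apply]
    rw [h8]
    by_cases hij : i = j
    · subst hij
      rw [Matrix.diagonal_apply_eq]
    · rw [Matrix.diagonal_apply_ne _ hij, hw i j hij]
  refine ⟨fun i => Matrix.toBilin' A (w i) (w i), ?_, P, hP, hPAP⟩
  have h9 : (diagonal fun i => Matrix.toBilin' A (w i) (w i)).det ≠ 0 := by
    rw [← hPAP, Matrix.det_mul, Matrix.det_mul, Matrix.det_transpose]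
    exact mul_ne_zero (mul_ne_zero hP hd) hP
  rw [Matrix.det_diagonal] at h9
  exact fun i => Finset.prod_ne_zero_iff.1 h9 i (Finset.mem_univ i)

end SpinWA
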