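import Pool.Agent.H.MP_83e36b_nt.sp.WDef

/-!
# Reflections

PROOF. `rf Q x y = y - 2 B(x,y)/q(x) x` with `B(x,y) = xᵀ Q y`, `q x = B(x,x)`.
`rf_isom`, `rf_mul_self`: direct computation. `rf_det`: `det (1 - u vᵀ) = 1 - v ⬝ u`
(`Matrix.det_one_add_mul_comm`, `Matrix.det_one_sub_mul_comm` or similar with
`Matrix.vecMulVec`/`replicateCol`): `1 - 2 = -1`. `refl_prod_isom`: induction on the list.
`rf_swap`: `q w = q v`, `B(w - v, w) = q w - B(v, w)` and `q (w - v) = 2 q w - 2 B(v, w)`, so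
`rf Q (w - v) w = w - (w - v) = v`. `rf_fix`: `B(x, v) = 0`. `rf_swap_neg`: apply `rf_swap` to
`w`, `-v`. `qf_add_sub`: parallelogram law. `exists_qf_ne`: otherwise `B(x, y) = 0` for all `x y`
by polarisation (`qf_add_sub`-like identity `q (x + y) = q x + q y + 2 B(x,y)`), so `Q = 0`.
-/

open Matrix

namespace SpinWA

variable {ι K : Type*} [Fintype ι] [DecidableEq ι] [Field K]

/-- The quadratic form `xᵀ Q x`. -/
def qf (Q : Matrix ι ι K) (x : ι → K) : K := x ⬝ᵥ (Q *ᵥ x)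

/-- The reflection in the vector `x`. -/
noncomputable def rf (Q : Matrix ι ι K) (x : ι → K) : Matrix ι ι K :=
  1 - (2 / qf Q x) • vecMulVec x (Q *ᵥ x)

theorem wrefl_symm {Q : Matrix ι ι K} (hQ : Qᵀ = Q) (x y : ι → K) :
    x ⬝ᵥ (Q *ᵥ y) = y ⬝ᵥ (Q *ᵥ x) := by
  rw [dotProduct_mulVec, ← mulVec_transpose, hQ, dotProduct_comm]

theorem wrefl_vecMul {Q : Matrix ι ι K} (hQ : Qᵀ = Q) (x : ι → K) : x ᵥ* Q = Q *ᵥ x := by
  rw [← mulVec_transpose, hQ]

theorem wrefl_mulVec (Q : Matrix ι ι K) (x y : ι → K) :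
    rf Q x *ᵥ y = y - ((2 / qf Q x) * (y ⬝ᵥ (Q *ᵥ x))) • x := by
  unfold rf
  rw [sub_mulVec, one_mulVec, smul_mulVec, vecMulVec_mulVec, dotProduct_comm (Q *ᵥ x) y]
  ext i
  simp only [Pi.sub_apply, Pi.smul_apply, smul_eq_mul, MulOpposite.smul_eq_mul_unop,
    MulOpposite.unop_op]
  ring

theorem rf_isom {Q : Matrix ι ι K} (hQ : Qᵀ = Q) {x : ι → K} (hx : qf Q x ≠ 0) :
    (rf Q x)ᵀ * Q * rf Q x = Q := by
  unfold rf
  have h1 : (vecMulVec x (Q *ᵥ x))ᵀ = vecMulVec (Q *ᵥ x) x := transpose_vecMulVec _ _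
  have h2 : vecMulVec (Q *ᵥ x) x * Q = vecMulVec (Q *ᵥ x) (Q *ᵥ x) := by
    rw [vecMulVec_mul, wrefl_vecMul hQ]
  have h3 : Q * vecMulVec x (Q *ᵥ x) = vecMulVec (Q *ᵥ x) (Q *ᵥ x) := mul_vecMulVec _ _ _
  have h4 : vecMulVec (Q *ᵥ x) (Q *ᵥ x) * vecMulVec x (Q *ᵥ x) =
      qf Q x • vecMulVec (Q *ᵥ x) (Q *ᵥ x) := by
    rw [vecMulVec_mul_vecMulVec, vecMulVec_smul, dotProduct_comm]
    rfl
  rw [transpose_sub, transpose_one, transpose_smul, h1, sub_mul, sub_mul, mul_sub, Matrix.one_mul,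
    Matrix.mul_one, Matrix.smul_mul, Matrix.mul_smul, h2, h3, mul_sub, Matrix.mul_one,
    Matrix.smul_mul, Matrix.mul_smul, h4]
  ext i j
  simp only [Matrix.sub_apply, Matrix.smul_apply, smul_eq_mul]
  field_simp
  ring

theorem rf_mul_self {Q : Matrix ι ι K} (hQ : Qᵀ = Q) {x : ι → K} (hx : qf Q x ≠ 0) :
    rf Q x * rf Q x = 1 := by
  unfold rf
  have h4 : vecMulVec x (Q *ᵥ x) * vecMulVec x (Q *ᵥ x) = qf Q x • vecMulVec x (Q *ᵥ x) := by
    rw [vecMulVec_mul_vecMulVec, vecMulVec_smul, dotProduct_comm]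
    rfl
  rw [sub_mul, Matrix.one_mul, mul_sub, Matrix.mul_one, Matrix.smul_mul,
    Matrix.mul_smul, h4]
  ext i j
  simp only [Matrix.sub_apply, Matrix.smul_apply, smul_eq_mul]
  field_simp
  ring

theorem rf_det {Q : Matrix ι ι K} (hQ : Qᵀ = Q) {x : ι → K} (hx : qf Q x ≠ 0) :
    (rf Q x).det = -1 := by
  unfold rf
  have h1 : (1 : Matrix ι ι K) - (2 / qf Q x) • vecMulVec x (Q *ᵥ x) =
      1 + replicateCol Unit ((-(2 / qf Q x)) • x) * replicateRow Unit (Q *ᵥ x) := by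
    rw [← vecMulVec_eq Unit, smul_vecMulVec, neg_smul, sub_eq_add_neg]
  rw [h1, det_one_add_replicateCol_mul_replicateRow, dotProduct_smul, dotProduct_comm, smul_eq_mul]
  have h2 : x ⬝ᵥ (Q *ᵥ x) = qf Q x := rfl
  rw [h2]
  field_simp
  ring

/-- Products of reflections: their determinant and isometry property. -/
theorem refl_prod_isom {Q : Matrix ι ι K} (hQ : Qᵀ = Q) (l : List (ι → K))
    (hl : ∀ x ∈ l, qf Q x ≠ 0) : ((l.map (rf Q)).prod)ᵀ * Q * (l.map (rf Q)).prod = Q ∧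
      ((l.map (rf Q)).prod).det = (-1) ^ l.length := by
  induction l with
  | nil => simp
  | cons x l ih =>
    obtain ⟨h1, h2⟩ := ih (fun y hy => hl y (List.mem_cons_of_mem _ hy))
    have hx := hl x List.mem_cons_self
    rw [List.map_cons, List.prod_cons, List.length_cons]
    constructor
    · calc (rf Q x * (l.map (rf Q)).prod)ᵀ * Q * (rf Q x * (l.map (rf Q)).prod)
          = ((l.map (rf Q)).prod)ᵀ * ((rf Q x)ᵀ * Q * rf Q x) * (l.map (rf Q)).prod := by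
            rw [transpose_mul]
            simp only [Matrix.mul_assoc]
        _ = Q := by rw [rf_isom hQ hx, h1]
    · rw [det_mul, rf_det hQ hx, h2]
      ring

theorem qf_add_sub (Q : Matrix ι ι K) (x y : ι → K) :
    qf Q (x + y) + qf Q (x - y) = 2 * qf Q x + 2 * qf Q y := by
  unfold qf
  rw [mulVec_add, mulVec_sub, add_dotProduct, sub_dotProduct, dotProduct_add, dotProduct_add,
    dotProduct_sub, dotProduct_sub]
  ring

theorem wrefl_qf_sub {Q : Matrix ι ι K} (hQ : Qᵀ = Q) (w v : ι → K) :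
    qf Q (w - v) = qf Q w + qf Q v - 2 * (w ⬝ᵥ (Q *ᵥ v)) := by
  unfold qf
  rw [mulVec_sub, sub_dotProduct, dotProduct_sub, dotProduct_sub, wrefl_symm hQ v w]
  ring

/-- The reflection in `w - v` maps `w` to `v` if they have the same length. -/
theorem rf_swap {Q : Matrix ι ι K} (hQ : Qᵀ = Q) {v w : ι → K} (h : qf Q w = qf Q v)
    (hx : qf Q (w - v) ≠ 0) : rf Q (w - v) *ᵥ w = v := by
  rw [wrefl_mulVec]
  have h1 : (2 / qf Q (w - v)) * (w ⬝ᵥ (Q *ᵥ (w - v))) = 1 := by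
    have h2 : 2 * (w ⬝ᵥ (Q *ᵥ (w - v))) = qf Q (w - v) := by
      rw [wrefl_qf_sub hQ, ← h, mulVec_sub, dotProduct_sub]
      have h3 : w ⬝ᵥ (Q *ᵥ w) = qf Q w := rfl
      rw [h3]
      ring
    rw [div_mul_eq_mul_div, h2, div_self hx]
  rw [h1, one_smul]
  abel

theorem wrefl_qf_neg (Q : Matrix ι ι K) (v : ι → K) : qf Q (-v) = qf Q v := by
  unfold qf
  rw [mulVec_neg, neg_dotProduct, dotProduct_neg, neg_neg]

theorem rf_swap_neg {Q : Matrix ι ι K} (hQ : Qᵀ = Q) {v w : ι → K} (h : qf Q w = qf Q v)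
    (hx : qf Q (w + v) ≠ 0) : rf Q (w + v) *ᵥ w = - v := by
  have h1 : w + v = w - -v := by abel
  rw [h1] at hx ⊢
  exact rf_swap hQ (by rw [wrefl_qf_neg, h]) hx

theorem rf_self {Q : Matrix ι ι K} {v : ι → K} (hx : qf Q v ≠ 0) : rf Q v *ᵥ (-v) = v := by
  rw [wrefl_mulVec, neg_dotProduct]
  have h3 : v ⬝ᵥ (Q *ᵥ v) = qf Q v := rfl
  rw [h3]
  have h1 : 2 / qf Q v * -qf Q v = -2 := by
    field_simp
  rw [h1]
  ext i
  simp only [Pi.sub_apply, Pi.neg_apply, Pi.smul_apply, smul_eq_mul]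
  ring

/-- The reflection in `x` fixes the vectors orthogonal to `x`. -/
theorem rf_fix {Q : Matrix ι ι K} (hQ : Qᵀ = Q) {x v : ι → K} (h : x ⬝ᵥ (Q *ᵥ v) = 0) :
    rf Q x *ᵥ v = v := by
  rw [wrefl_mulVec, wrefl_symm hQ v x, h, mul_zero, zero_smul, sub_zero]

/-- A vector of nonzero length exists if the form is nonzero. -/
theorem exists_qf_ne (h2 : (2 : K) ≠ 0) {Q : Matrix ι ι K} [Nonempty ι] (hQ : Qᵀ = Q)
    (hd : Q.det ≠ 0) : ∃ x : ι → K, qf Q x ≠ 0 := by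
  by_contra hcon
  push Not at hcon
  apply hd
  have h1 : ∀ x y : ι → K, x ⬝ᵥ (Q *ᵥ y) = 0 := by
    intro x y
    have h3 := wrefl_qf_sub hQ x y
    rw [hcon, hcon, hcon, add_zero, zero_sub] at h3
    have h4 : 2 * (x ⬝ᵥ (Q *ᵥ y)) = 0 := by
      rw [← neg_eq_zero]
      exact h3.symm
    exact (mul_eq_zero.1 h4).resolve_left h2
  have h5 : Q = 0 := by
    ext i j
    have h6 := h1 (Pi.single i 1) (Pi.single j 1)
    rw [single_dotProduct, one_mul, mulVec_single_one] at h6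
    exact h6
  rw [h5]
  exact det_zero

end SpinWA
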