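import Pool.Agent.H.MP_83e36b_nt.sp.WDef
import Pool.Agent.H.MP_83e36b_nt.sp.WDiag
import Pool.Agent.H.MP_83e36b_nt.sp.WRefl

/-!
# Witt cancellation

PROOF. Let `Q1 = <a> ⊕ A`, `Q2 = <a> ⊕ B`, `Pᵀ Q1 P = Q2`, `det P ≠ 0`. Let `u = e_0` (the `Unit`
basis vector) and `w = P e_0`; `qf Q1 w = qf Q2 e_0 = a = qf Q1 u`. As in `WRefl.lean` one or two
reflections `R` (isometries of `Q1`) map `w` to `u` (`q (w-u) + q (w+u) = 4a ≠ 0`). Replace `P` by
`R P`: now `P e_0 = e_0`. Then `P = [[1, x],[0, P']]`, and `Pᵀ Q1 P = Q2` gives: entry (0, j):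
`a x_j = 0`, so `x = 0`, and `P'ᵀ A P' = B`; `det P = det P'`.
-/

open Matrix

namespace SpinWA

variable {ι K : Type*} [Fintype ι] [DecidableEq ι] [Field K]

theorem wcancel_qf (Q : Matrix ι ι K) (P : Matrix ι ι K) (x : ι → K) :
    qf Q (P *ᵥ x) = qf (Pᵀ * Q * P) x := by
  unfold qf
  rw [← Matrix.mulVec_mulVec, ← Matrix.mulVec_mulVec, Matrix.dotProduct_mulVec,
    Matrix.dotProduct_mulVec x Pᵀ, Matrix.vecMul_transpose, ← Matrix.dotProduct_mulVec]

/-- An isometry mapping `w` to `u`. -/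
theorem wcancel_exists_isom (h2 : (2 : K) ≠ 0) {Q : Matrix ι ι K} (hQ : Qᵀ = Q) {u w : ι → K}
    (h : qf Q w = qf Q u) (hu : qf Q u ≠ 0) :
    ∃ R : Matrix ι ι K, R.det ≠ 0 ∧ Rᵀ * Q * R = Q ∧ R *ᵥ w = u := by
  by_cases h1 : qf Q (w - u) = 0
  · have h3 : qf Q (w + u) ≠ 0 := by
      intro h0
      have h4 := qf_add_sub Q w u
      rw [h0, h1, h, zero_add] at h4
      have h5 : (2 : K) * (2 * qf Q u) = 0 := by linear_combination -h4
      exact mul_ne_zero h2 (mul_ne_zero h2 hu) h5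
    refine ⟨rf Q u * rf Q (w + u), ?_, ?_, ?_⟩
    · rw [Matrix.det_mul, rf_det hQ hu, rf_det hQ h3]
      simp
    · rw [Matrix.transpose_mul]
      have e1 := rf_isom hQ hu
      have e2 := rf_isom hQ h3
      calc (rf Q (w + u))ᵀ * (rf Q u)ᵀ * Q * (rf Q u * rf Q (w + u))
          = (rf Q (w + u))ᵀ * ((rf Q u)ᵀ * Q * rf Q u) * rf Q (w + u) := by
            simp only [Matrix.mul_assoc]
        _ = Q := by rw [e1, e2]
    · rw [← Matrix.mulVec_mulVec, rf_swap_neg hQ h h3, rf_self hu]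
  · exact ⟨rf Q (w - u), by rw [rf_det hQ h1]; simp, rf_isom hQ h1, rf_swap hQ h h1⟩

/-- Witt cancellation. -/
theorem cong_cancel (h2 : (2 : K) ≠ 0) {a : K} (ha : a ≠ 0) {A B : Matrix ι ι K} (hA : Aᵀ = A)
    (h : Cong (fromBlocks (diagonal fun _ : Unit => a) 0 0 A)
      (fromBlocks (diagonal fun _ : Unit => a) 0 0 B)) : Cong A B := by
  obtain ⟨P, hP, hPQ⟩ := h
  set Q1 : Matrix (Unit ⊕ ι) (Unit ⊕ ι) K :=
    fromBlocks (diagonal fun _ : Unit => a) 0 0 A with hQ1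
  have hQ1t : Q1ᵀ = Q1 := by
    rw [hQ1, Matrix.fromBlocks_transpose, hA, Matrix.diagonal_transpose]
    simp
  have hun : ∀ C : Matrix ι ι K,
      qf (fromBlocks (diagonal fun _ : Unit => a) 0 0 C) (Pi.single (Sum.inl ()) 1) = a := by
    intro C
    unfold qf
    rw [Matrix.mulVec_single_one, single_one_dotProduct]
    simp
  set u : Unit ⊕ ι → K := Pi.single (Sum.inl ()) 1 with hu
  have hw : qf Q1 (P *ᵥ u) = qf Q1 u := by
    rw [wcancel_qf, hPQ, hun, hQ1, hun]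
  obtain ⟨R, hR, hRQ, hRu⟩ := wcancel_exists_isom h2 hQ1t hw (by rw [hQ1, hun]; exact ha)
  set P1 : Matrix (Unit ⊕ ι) (Unit ⊕ ι) K := R * P with hP1
  have hP1d : P1.det ≠ 0 := by
    rw [hP1, Matrix.det_mul]
    exact mul_ne_zero hR hP
  have hP1Q : P1ᵀ * Q1 * P1 = fromBlocks (diagonal fun _ : Unit => a) 0 0 B := by
    rw [← hPQ, hP1, Matrix.transpose_mul]
    calc Pᵀ * Rᵀ * Q1 * (R * P) = Pᵀ * (Rᵀ * Q1 * R) * P := by simp only [Matrix.mul_assoc]
      _ = Pᵀ * Q1 * P := by rw [hRQ]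
  have hP1u : P1 *ᵥ u = u := by
    rw [hP1, ← Matrix.mulVec_mulVec, hRu]
  rw [hu, Matrix.mulVec_single_one] at hP1u
  have c11 : P1.toBlocks₁₁ = 1 := by
    ext i j
    have := congrFun hP1u (Sum.inl ())
    simpa [Matrix.toBlocks₁₁] using this
  have c21 : P1.toBlocks₂₁ = 0 := by
    ext i j
    have := congrFun hP1u (Sum.inr i)
    simpa [Matrix.toBlocks₂₁] using this
  have hb : P1 = fromBlocks 1 P1.toBlocks₁₂ 0 P1.toBlocks₂₂ := by
    conv_lhs => rw [← Matrix.fromBlocks_toBlocks P1]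
    rw [c11, c21]
  set x := P1.toBlocks₁₂ with hx
  set P' := P1.toBlocks₂₂ with hP'
  rw [hb, hQ1, Matrix.fromBlocks_transpose, Matrix.fromBlocks_multiply,
    Matrix.fromBlocks_multiply, Matrix.fromBlocks_inj] at hP1Q
  obtain ⟨-, q12, -, q22⟩ := hP1Q
  have hx0 : x = 0 := by
    ext i j
    have := congrFun (congrFun q12 i) j
    simp at this
    rcases this with h0 | h0
    · exact absurd h0 ha
    · exact h0
  refine ⟨P', ?_, ?_⟩
  · rw [hb, Matrix.det_fromBlocks_zero₂₁, Matrix.det_one, one_mul] at hP1d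
    exact hP1d
  · rw [hx0] at q22
    simpa using q22

/-- Cancellation of the first entry of diagonal forms. -/
theorem cong_cancel_diag (h2 : (2 : K) ≠ 0) {n : ℕ} {a : K} (ha : a ≠ 0) {d d' : Fin n → K}
    (h : Cong (diagonal (Fin.cons a d : Fin (n + 1) → K)) (diagonal (Fin.cons a d'))) :
    Cong (diagonal d) (diagonal d') := by
  have hbij : Function.Bijective (Sum.elim (fun _ => 0) Fin.succ : Unit ⊕ Fin n → Fin (n + 1)) := by
    constructor
    · rintro (x | x) (y | y) hxy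
      · rfl
      · simp only [Sum.elim_inl, Sum.elim_inr] at hxy
        exact absurd hxy.symm (Fin.succ_ne_zero y)
      · simp only [Sum.elim_inl, Sum.elim_inr] at hxy
        exact absurd hxy (Fin.succ_ne_zero x)
      · simp only [Sum.elim_inr, Fin.succ_inj] at hxy
        rw [hxy]
    · intro y
      rcases Fin.eq_zero_or_eq_succ y with rfl | ⟨z, rfl⟩
      · exact ⟨Sum.inl (), rfl⟩
      · exact ⟨Sum.inr z, rfl⟩
  have key : ∀ c : Fin n → K,
      (diagonal (Fin.cons a c : Fin (n + 1) → K)).submatrix (Equiv.ofBijective _ hbij)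
        (Equiv.ofBijective _ hbij) = fromBlocks (diagonal fun _ : Unit => a) 0 0 (diagonal c) := by
    intro c
    rw [Matrix.submatrix_diagonal_equiv]
    rw [Matrix.fromBlocks_diagonal]
    congr 1
    funext x
    rcases x with x | x
    · rfl
    · rfl
  have h3 := h.reindex (Equiv.ofBijective _ hbij)
  rw [key, key] at h3
  exact cong_cancel h2 ha (Matrix.diagonal_transpose d) h3

end SpinWA
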