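import Pool.Agent.H.MP_83e36b_nt.sp.CParB
import Pool.Agent.H.MP_ffe2f0_al.NComm

/-!
# The first duality, forward

PROOF. Let `C = cmp a`, `S = cmS a`, `H = hk a`, `R = kryM S` invertible, `c' = cpc S`.
`S R = R cmp(c')` (`mul_kryM`).
(1) `Rᵀ H R`: entry `(i, j)` is `e_0ᵀ (Sᵀ)^i H S^j e_0 = (-1)^i e_0ᵀ H S^{i+j} e_0` since
`Sᵀ H = - H S` (`hk_cmS_antisymm`, `hk_transpose`). By `commutator_cmS` and `trace_pow_identity'`
(with `M = S`, `Z = C`, `w = psum a ·`, `e_0ᵀ H = psum a ·` is `e0_vecMul_hk`)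
`e_0ᵀ H S^k e_0 = Tr (S^k) = psum c' k` (`psum_cpc`). So `Rᵀ H R = gamM c'`.
(2) `c'_i = 0` for `n + i` odd: `charpoly (-S) = charpoly (-Sᵀ) = charpoly S` since
`- Sᵀ = H S H⁻¹`, and `NoetherAn.charpoly_neg_coeff`. By `dbl_iff` `c' = dbl e g`.
So `det (hk (dbl e g)) ≠ 0`, since `gamM = sgM * hk` and `det (Rᵀ H R) ≠ 0`.
(3) Let `P` = `dbl e g`, `X = R⁻¹ C R`. Conjugating `commutator_cmS a` by `R`:
`X cmp(P) - cmp(P) X = R⁻¹ e_0 (e_0ᵀ H R) - 1`, where `R⁻¹ e_0 = e_0` (`kryM_mulVec_e0`) and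
`(e_0ᵀ H R)_j = e_0ᵀ H S^j e_0 = psum P j`. By `commutator_cmS P` this is
`cmp(P) cmS(P) - cmS(P) cmp(P)`. So `X + cmS(P)` commutes with `cmp P`. `Γ X = Rᵀ H C R` is
symmetric (`H C = hk1 a`), `Γ cmS(P)` is symmetric (`gam_cmS_symm`). By `even_of_symm`
`X + cmS P = ∑ y_l cmp(P)^(2l)`, i.e. `X = xop e g y`, `R X = C R`.
-/

open Matrix Polynomial

namespace SpinWA

variable {K : Type*} [Field K] [CharZero K] {m e : ℕ}

private theorem CFwd_skew (a : Fin (2 * m + e) → K) (h : (hk a).det ≠ 0) :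
    (cmS a)ᵀ * hk a = hk a * (- cmS a) := by
  have h1 := hk_cmS_antisymm a h
  rw [Matrix.transpose_mul, hk_transpose] at h1
  rw [h1, Matrix.mul_neg]

private theorem CFwd_skew_pow (a : Fin (2 * m + e) → K) (h : (hk a).det ≠ 0) (i : ℕ) :
    (cmS a ^ i)ᵀ * hk a = (-1 : K) ^ i • (hk a * cmS a ^ i) := by
  rw [Matrix.transpose_pow]
  induction i with
  | zero => simp
  | succ i ih =>
    rw [pow_succ, Matrix.mul_assoc, CFwd_skew a h, ← Matrix.mul_assoc, ih, Matrix.smul_mul,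
      Matrix.mul_neg, Matrix.mul_assoc, ← pow_succ, pow_succ (-1 : K), mul_neg_one, neg_smul,
      smul_neg]

private theorem CFwd_w (a : Fin (2 * m + e) → K) (h : (hk a).det ≠ 0) (k : ℕ) :
    (fun j : Fin (2 * m + e) => psum a (j : ℕ)) ⬝ᵥ (cmS a ^ k *ᵥ e0 K (2 * m + e)) =
      (cmS a ^ k).trace :=
  trace_pow_identity' (commutator_cmS a h) k

private theorem CFwd_gram (a : Fin (2 * m + e) → K) (h : (hk a).det ≠ 0)
    (hS : (kryM (cmS a)).det ≠ 0) :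
    (kryM (cmS a))ᵀ * hk a * kryM (cmS a) = gamM (cpc (cmS a)) := by
  ext i j
  have hcol : ∀ k : Fin (2 * m + e), (fun l => kryM (cmS a) l k) =
      cmS a ^ (k : ℕ) *ᵥ e0 K (2 * m + e) := by
    intro k
    ext l
    rfl
  have h1 : ((kryM (cmS a))ᵀ * hk a * kryM (cmS a)) i j =
      (cmS a ^ (i : ℕ) *ᵥ e0 K (2 * m + e)) ⬝ᵥ
        (hk a *ᵥ (cmS a ^ (j : ℕ) *ᵥ e0 K (2 * m + e))) := by
    rw [Matrix.mul_assoc, ← hcol i, ← hcol j]
    rfl
  have h2 : (cmS a ^ (i : ℕ) *ᵥ e0 K (2 * m + e)) ⬝ᵥ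
        (hk a *ᵥ (cmS a ^ (j : ℕ) *ᵥ e0 K (2 * m + e))) =
      e0 K (2 * m + e) ⬝ᵥ (((cmS a ^ (i : ℕ))ᵀ * hk a) *ᵥ
        (cmS a ^ (j : ℕ) *ᵥ e0 K (2 * m + e))) := by
    rw [← Matrix.mulVec_mulVec, Matrix.dotProduct_mulVec (e0 K (2 * m + e)),
      Matrix.vecMul_transpose]
  rw [h1, h2, CFwd_skew_pow a h, Matrix.smul_mulVec, dotProduct_smul,
    ← Matrix.mulVec_mulVec, Matrix.mulVec_mulVec _ (cmS a ^ (i : ℕ)), ← pow_add,
    Matrix.dotProduct_mulVec, e0_vecMul_hk, CFwd_w a h, ← psum_cpc hS]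
  rfl

private theorem CFwd_parity (a : Fin (2 * m + e) → K) (h : (hk a).det ≠ 0)
    (i : Fin (2 * m + e)) (hi : Odd (2 * m + e + i)) : cpc (cmS a) i = 0 := by
  have h1 : cpc (cmS a)ᵀ = cpc (- cmS a) := cpc_conj h (CFwd_skew a h)
  have h2 : cpc (cmS a)ᵀ i = cpc (- cmS a) i := by rw [h1]
  have h3 : cpc (cmS a)ᵀ i = cpc (cmS a) i := by
    change (cmS a)ᵀ.charpoly.coeff i = (cmS a).charpoly.coeff i
    rw [Matrix.charpoly_transpose]
  have h4 : cpc (- cmS a) i = (-1) ^ (2 * m + e) * ((-1) ^ (i : ℕ) * cpc (cmS a) i) :=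
    NoetherAn.charpoly_neg_coeff (cmS a) i
  rw [h3, h4, ← mul_assoc, ← pow_add, hi.neg_one_pow, neg_one_mul] at h2
  exact self_eq_neg.mp h2

theorem fwd (he : e ≤ 1) (a : Fin (2 * m + e) → K) (h : (hk a).det ≠ 0)
    (hS : (kryM (cmS a)).det ≠ 0) :
    ∃ (g : Fin m → K) (y : Fin (m + e) → K),
      (kryM (cmS a))ᵀ * hk a * kryM (cmS a) = gamM (dbl e g) ∧
      (hk (dbl e g)).det ≠ 0 ∧
      cmp a * kryM (cmS a) = kryM (cmS a) * xop e g y := by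
  obtain ⟨g, hg⟩ := dbl_iff he (cpc (cmS a)) (CFwd_parity a h)
  have hgram : (kryM (cmS a))ᵀ * hk a * kryM (cmS a) = gamM (dbl e g) := by
    rw [CFwd_gram a h hS, hg]
  have hdet : (hk (dbl e g)).det ≠ 0 := by
    intro h0
    have h1 := congrArg Matrix.det hgram
    rw [Matrix.det_mul, Matrix.det_mul, Matrix.det_transpose, gamM_eq, Matrix.det_mul, h0,
      mul_zero] at h1
    exact mul_ne_zero (mul_ne_zero hS h) hS h1
  set R := kryM (cmS a) with hR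
  have hRu : IsUnit R.det := isUnit_iff_ne_zero.mpr hS
  have hRR : R⁻¹ * R = 1 := Matrix.nonsing_inv_mul R hRu
  have hRR' : R * R⁻¹ = 1 := Matrix.mul_nonsing_inv R hRu
  have hSR : cmS a * R = R * cmp (dbl e g) := by rw [hR, mul_kryM, hg]
  set X := R⁻¹ * cmp a * R with hX
  have hRX : R * X = cmp a * R := by
    rw [hX, ← Matrix.mul_assoc, ← Matrix.mul_assoc, hRR', Matrix.one_mul]
  have he0 : R⁻¹ *ᵥ e0 K (2 * m + e) = e0 K (2 * m + e) := by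
    have h1 := kryM_mulVec_e0 (cmS a)
    rw [← hR] at h1
    calc R⁻¹ *ᵥ e0 K (2 * m + e) = R⁻¹ *ᵥ (R *ᵥ e0 K (2 * m + e)) := by rw [h1]
      _ = e0 K (2 * m + e) := by rw [Matrix.mulVec_mulVec, hRR, Matrix.one_mulVec]
  have hw : (fun j : Fin (2 * m + e) => psum a (j : ℕ)) ᵥ* R =
      fun j : Fin (2 * m + e) => psum (dbl e g) (j : ℕ) := by
    ext j
    have h1 := CFwd_w a h j
    rw [← hg, psum_cpc hS, ← h1]
    rfl
  have hcomm : X * cmp (dbl e g) - cmp (dbl e g) * X =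
      vecMulVec (e0 K (2 * m + e)) (fun j : Fin (2 * m + e) => psum (dbl e g) (j : ℕ)) - 1 := by
    have hSR' : R⁻¹ * cmS a = cmp (dbl e g) * R⁻¹ := by
      calc R⁻¹ * cmS a = R⁻¹ * (cmS a * R) * R⁻¹ := by
            rw [Matrix.mul_assoc, Matrix.mul_assoc, hRR', Matrix.mul_one]
        _ = R⁻¹ * (R * cmp (dbl e g)) * R⁻¹ := by rw [hSR]
        _ = cmp (dbl e g) * R⁻¹ := by rw [← Matrix.mul_assoc, hRR, Matrix.one_mul]
    have h1 : X * cmp (dbl e g) = R⁻¹ * (cmp a * cmS a) * R := by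
      rw [hX, Matrix.mul_assoc (R⁻¹ * cmp a), ← hSR]
      simp only [Matrix.mul_assoc]
    have h2 : cmp (dbl e g) * X = R⁻¹ * (cmS a * cmp a) * R := by
      rw [hX, ← Matrix.mul_assoc, ← Matrix.mul_assoc, ← hSR']
      simp only [Matrix.mul_assoc]
    rw [h1, h2, ← Matrix.sub_mul, ← Matrix.mul_sub, commutator_cmS a h, Matrix.mul_sub,
      Matrix.sub_mul, Matrix.mul_one, hRR, Matrix.mul_vecMulVec, Matrix.vecMulVec_mul, he0, hw]
  have hM : (X + cmS (dbl e g)) * cmp (dbl e g) = cmp (dbl e g) * (X + cmS (dbl e g)) := by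
    have h1 := commutator_cmS (dbl e g) hdet
    rw [← hcomm] at h1
    rw [Matrix.add_mul, Matrix.mul_add, ← sub_eq_zero]
    have h2 : X * cmp (dbl e g) + cmS (dbl e g) * cmp (dbl e g) -
        (cmp (dbl e g) * X + cmp (dbl e g) * cmS (dbl e g)) =
        (X * cmp (dbl e g) - cmp (dbl e g) * X) -
          (cmp (dbl e g) * cmS (dbl e g) - cmS (dbl e g) * cmp (dbl e g)) := by abel
    rw [h2, h1, sub_self]
  have hsX : (gamM (dbl e g) * X)ᵀ = gamM (dbl e g) * X := by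
    have h1 : gamM (dbl e g) * X = Rᵀ * hk1 a * R := by
      rw [← hgram, Matrix.mul_assoc, hRX, ← Matrix.mul_assoc, Matrix.mul_assoc Rᵀ, hk_mul_cmp]
    rw [h1, Matrix.transpose_mul, Matrix.transpose_mul, Matrix.transpose_transpose,
      hk1_transpose, Matrix.mul_assoc]
  have hs : (gamM (dbl e g) * (X + cmS (dbl e g)))ᵀ = gamM (dbl e g) * (X + cmS (dbl e g)) := by
    rw [Matrix.mul_add, Matrix.transpose_add, hsX, gam_cmS_symm he g hdet]
  obtain ⟨y, hy⟩ := even_of_symm he g hdet hM hs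
  refine ⟨g, y, hgram, hdet, ?_⟩
  have hxop : xop e g y = X := by
    unfold xop
    rw [← hy]
    abel
  rw [hxop, hRX]

end SpinWA
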