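import Pool.Agent.H.MP_83e36b_nt.sp.KScale
import Pool.Agent.H.MP_83e36b_nt.sp.LWa
import Pool.Agent.H.MP_83e36b_nt.sp.PCont

/-!
# The core theorem, third part: scaling

PROOF. `m = k + 1` even. For `v ∈ S` let `r_v ≠ 0` with `r_v^2 = l`. By `wa_rat` choose `ρ ∈ ℚ` close to
`1 / r_v` for `v ∈ S` (so `ρ ≠ 0`), `μ = l ρ^2` is close to `1`. Let `G' = scl μ G`
(`G'_i = μ^(m-i) G_i`), `κ = μ^(m/2)`. `G'_0 = μ^m G_0 = G_0 κ^2`. By continuity (`μ → 1`) the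
embedded `G'` is in `U v` and `κ ∈ W v`, for `v ∈ S` (`none ∈ S` gives `ρ ≠ 0`: choose the
neighbourhood without 0). `coreF c 1 G' = coreF c l G`: `cl (2 c G'_0) = cl (2 c G_0)`
(`cl_mul_sq`), `cls (2 • hk G') = cls (2 • hk G)` (`cls_hk_scl`), `cls ((-2 * 1) • hk1 G')
= cls ((-2 μ) • hk1 G) = cls ((-2 l) • hk1 G)` (`cls_hk1_scl`, `cls_smul_mul_sq`).
`det (hk G') ≠ 0` (`det_hk_scl`); `det (hk1 G) ≠ 0` (`det_hk1`; `cf G 0 = G 0`).
-/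

open Topology Matrix Polynomial

namespace SpinWA

theorem core_scale {k : ℕ} (hev : Even (k + 1)) (S : Finset Pl) (hS : none ∈ S) (c l : ℚ)
    (hc0 : c ≠ 0) (hl : l ≠ 0) (G : Fin (k + 1) → ℚ) (hM : (hk G).det ≠ 0) (h0 : G 0 ≠ 0)
    (hs : ∀ v ∈ S, ∃ r : Cpl v, r ≠ 0 ∧ r ^ 2 = emb v l)
    (U : ∀ v, Set (Fin (k + 1) → Cpl v)) (hU : ∀ v ∈ S, U v ∈ 𝓝 (fun i => emb v (G i)))
    (W : ∀ v, Set (Cpl v)) (hW : ∀ v ∈ S, W v ∈ 𝓝 (1 : Cpl v)) :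
    ∃ (κ : ℚ) (G' : Fin (k + 1) → ℚ), κ ≠ 0 ∧ G' 0 = G 0 * κ ^ 2 ∧ (hk G').det ≠ 0 ∧
      coreF c 1 G' = coreF c l G ∧
      ∀ v ∈ S, (fun i => emb v (G' i)) ∈ U v ∧ emb v κ ∈ W v := by
  classical
  choose! r hr0 hr2 using hs
  have hcf : cf G 0 = G 0 := by
    unfold cf
    rw [dif_pos (Nat.succ_pos k)]
    rfl
  have key : ∀ v ∈ S, {y : Cpl v | (fun i : Fin (k + 1) =>
      (emb v l * y ^ 2) ^ (k + 1 - (i : ℕ)) * emb v (G i)) ∈ U v ∧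
      (emb v l * y ^ 2) ^ ((k + 1) / 2) ∈ W v ∧ y ≠ 0} ∈ 𝓝 ((r v)⁻¹) := by
    intro v hv
    have hone : emb v l * ((r v)⁻¹) ^ 2 = 1 := by
      rw [← hr2 v hv, ← mul_pow, mul_inv_cancel₀ (hr0 v hv), one_pow]
    have hF : Continuous fun y : Cpl v => (fun i : Fin (k + 1) =>
        (emb v l * y ^ 2) ^ (k + 1 - (i : ℕ)) * emb v (G i)) := by
      apply continuous_pi
      intro i
      fun_prop
    have hK : Continuous fun y : Cpl v => (emb v l * y ^ 2) ^ ((k + 1) / 2) := by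
      fun_prop
    have h1 : ∀ᶠ y in 𝓝 ((r v)⁻¹), (fun i : Fin (k + 1) =>
        (emb v l * y ^ 2) ^ (k + 1 - (i : ℕ)) * emb v (G i)) ∈ U v := by
      apply hF.continuousAt.eventually_mem
      simp only [hone, one_pow, one_mul]
      exact hU v hv
    have h2 : ∀ᶠ y in 𝓝 ((r v)⁻¹), (emb v l * y ^ 2) ^ ((k + 1) / 2) ∈ W v := by
      apply hK.continuousAt.eventually_mem
      simp only [hone, one_pow]
      exact hW v hv
    have h3 : ∀ᶠ y in 𝓝 ((r v)⁻¹), y ≠ 0 := by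
      exact (continuous_id.continuousAt).eventually_ne (inv_ne_zero (hr0 v hv))
    filter_upwards [h1, h2, h3] with y hy1 hy2 hy3
    exact ⟨hy1, hy2, hy3⟩
  obtain ⟨ρ, hρ⟩ := wa_rat S (fun v => (r v)⁻¹) _ key
  have hρ0 : ρ ≠ 0 := by
    intro h
    have := (hρ none hS).2.2
    rw [h, map_zero] at this
    exact this rfl
  have hμ0 : l * ρ ^ 2 ≠ 0 := mul_ne_zero hl (pow_ne_zero _ hρ0)
  have h2Q : (2 : ℚ) ≠ 0 := two_ne_zero
  have hkk : (k + 1) / 2 * 2 = k + 1 := Nat.div_mul_cancel hev.two_dvd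
  have hG0 : scl (l * ρ ^ 2) G 0 = G 0 * ((l * ρ ^ 2) ^ ((k + 1) / 2)) ^ 2 := by
    rw [← pow_mul, hkk]
    unfold scl
    rw [Fin.val_zero, Nat.sub_zero, mul_comm]
  have hcf' : cf (scl (l * ρ ^ 2) G) 0 = scl (l * ρ ^ 2) G 0 := by
    unfold cf
    rw [dif_pos (Nat.succ_pos k)]
    rfl
  have hd1 : (hk1 G).det ≠ 0 := by
    rw [det_hk1, hcf]
    exact mul_ne_zero (mul_ne_zero (pow_ne_zero _ (neg_ne_zero.2 one_ne_zero)) h0) hM
  refine ⟨(l * ρ ^ 2) ^ ((k + 1) / 2), scl (l * ρ ^ 2) G, pow_ne_zero _ hμ0, hG0,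
    (det_hk_scl hμ0 G).2 hM, ?_, ?_⟩
  · unfold coreF
    rw [hcf', hG0, hcf, ← mul_assoc, cl_mul_sq _ (pow_ne_zero _ hμ0),
      cls_hk_scl h2Q hμ0 G hM h2Q,
      cls_hk1_scl h2Q hμ0 G hd1 (mul_ne_zero (neg_ne_zero.2 h2Q) one_ne_zero), mul_one,
      ← mul_assoc, cls_smul_mul_sq h2Q (hk1_transpose G) hd1
        (mul_ne_zero (neg_ne_zero.2 h2Q) hl) hρ0]
  · intro v hv
    obtain ⟨hv1, hv2, -⟩ := hρ v hv
    constructor
    · have h4 : (fun i => emb v (scl (l * ρ ^ 2) G i)) = fun i : Fin (k + 1) =>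
          (emb v l * emb v ρ ^ 2) ^ (k + 1 - (i : ℕ)) * emb v (G i) := by
        funext i
        unfold scl
        simp only [map_mul, map_pow]
      rw [h4]
      exact hv1
    · rw [map_pow, map_mul, map_pow]
      exact hv2

end SpinWA
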