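import Mathlib

/-!
# Choice of the prime `l`

PROOF. Chinese remainder theorem for the moduli `8`, the odd primes `p ∈ B` and the `p ∈ D`
(`p ≠ 2`, disjoint from `B`): a unit class modulo `q = 8 ∏_{p ∈ B, p ≠ 2} p ∏_{p ∈ D} p`
(e.g. `ZMod.prodEquivPi`, `Nat.chineseRemainderOfFinset`, or induction on the finite sets), then
Dirichlet's theorem `Nat.forall_exists_prime_gt_and_eq_mod`.
-/

namespace SpinWA

theorem exists_ell (B D : Finset Nat.Primes) (hBD : Disjoint B D) (h2 : ∀ p ∈ D, (p : ℕ) ≠ 2)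
    (u : ∀ p : Nat.Primes, ZMod (p : ℕ)) (hu : ∀ p ∈ D, u p ≠ 0) (L : ℕ) :
    ∃ l : ℕ, l.Prime ∧ L < l ∧ l % 8 = 1 ∧
      (∀ p ∈ B, (p : ℕ) ≠ 2 → (l : ZMod (p : ℕ)) = 1) ∧ ∀ p ∈ D, (l : ZMod (p : ℕ)) = u p := by
  classical
  set S : Finset Nat.Primes := (B.filter fun p => (p : ℕ) ≠ 2) ∪ D with hS
  let s : Option Nat.Primes → ℕ := fun o => o.elim 8 (fun p => (p : ℕ))
  let a : Option Nat.Primes → ℕ := fun o => o.elim 1 (fun p => if p ∈ D then (u p).val else 1)
  have hSodd : ∀ p ∈ S, (p : ℕ) ≠ 2 := by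
    intro p hp
    rw [hS, Finset.mem_union, Finset.mem_filter] at hp
    rcases hp with hp | hp
    · exact hp.2
    · exact h2 p hp
  have h8 : ∀ p ∈ S, Nat.Coprime 8 (p : ℕ) := by
    intro p hp
    have h3 : (8 : ℕ) = 2 ^ 3 := by norm_num
    rw [h3]
    exact Nat.Coprime.pow_left 3 ((Nat.coprime_primes Nat.prime_two p.2).2 (hSodd p hp).symm)
  have hs : ∀ i ∈ S.insertNone, s i ≠ 0 := by
    intro i _
    cases i with
    | none => exact (by norm_num : (8 : ℕ) ≠ 0)
    | some p => exact p.2.ne_zero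
  have pp : Set.Pairwise (S.insertNone : Set (Option Nat.Primes)) (Function.onFun Nat.Coprime s) := by
    intro i hi j hj hij
    cases i with
    | none =>
      cases j with
      | none => exact absurd rfl hij
      | some p => exact h8 p (by simpa using hj)
    | some p =>
      cases j with
      | none => exact (h8 p (by simpa using hi)).symm
      | some r =>
        have hne : (p : ℕ) ≠ (r : ℕ) := fun h => hij (by rw [Nat.Primes.coe_nat_injective h])
        exact (Nat.coprime_primes p.2 r.2).2 hne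
  obtain ⟨k, hk⟩ := Nat.chineseRemainderOfFinset a s S.insertNone hs pp
  have hacop : ∀ i ∈ S.insertNone, Nat.Coprime (a i) (s i) := by
    intro i _
    cases i with
    | none => exact Nat.coprime_one_left 8
    | some p =>
      show Nat.Coprime (if p ∈ D then (u p).val else 1) (p : ℕ)
      split_ifs with hp
      · have : Fact (p : ℕ).Prime := ⟨p.2⟩
        have h1 : IsUnit (((u p).val : ℕ) : ZMod (p : ℕ)) := by
          rw [ZMod.natCast_zmod_val]
          exact (hu p hp).isUnit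
        exact (ZMod.isUnit_iff_coprime _ _).1 h1
      · exact Nat.coprime_one_left _
  set q : ℕ := ∏ i ∈ S.insertNone, s i with hq
  have hkq : Nat.Coprime k q := by
    rw [hq]
    apply Nat.Coprime.prod_right
    intro i hi
    have h1 : Nat.gcd k (s i) = Nat.gcd (a i) (s i) := (hk i hi).gcd_eq
    rw [Nat.coprime_iff_gcd_eq_one, h1]
    exact hacop i hi
  have hq0 : q ≠ 0 := Finset.prod_ne_zero_iff.2 hs
  have : NeZero q := ⟨hq0⟩
  have hunit : IsUnit ((k : ℕ) : ZMod q) := (ZMod.isUnit_iff_coprime k q).2 hkq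
  obtain ⟨l, hlL, hlp, hlk⟩ := Nat.forall_exists_prime_gt_and_eq_mod hunit L
  have hmod : ∀ i ∈ S.insertNone, l ≡ a i [MOD s i] := by
    intro i hi
    have h1 : l ≡ k [MOD q] := (ZMod.natCast_eq_natCast_iff l k q).1 hlk
    have h3 : s i ∣ q := Finset.dvd_prod_of_mem s hi
    exact (h1.of_dvd h3).trans (hk i hi)
  have hval : ∀ p ∈ S, (l : ZMod (p : ℕ)) = ((a (some p) : ℕ) : ZMod (p : ℕ)) := by
    intro p hp
    exact (ZMod.natCast_eq_natCast_iff _ _ _).2 (hmod (some p) (by simpa using hp))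
  refine ⟨l, hlp, hlL, ?_, ?_, ?_⟩
  · have h1 : l ≡ 1 [MOD 8] := hmod none (by simp)
    exact h1
  · intro p hp hp2
    have hpS : p ∈ S := by
      rw [hS, Finset.mem_union, Finset.mem_filter]
      exact Or.inl ⟨hp, hp2⟩
    have hpD : p ∉ D := fun h => Finset.disjoint_left.1 hBD hp h
    rw [hval p hpS]
    show (((if p ∈ D then (u p).val else 1 : ℕ)) : ZMod (p : ℕ)) = 1
    rw [if_neg hpD, Nat.cast_one]
  · intro p hp
    have : Fact (p : ℕ).Prime := ⟨p.2⟩
    have hpS : p ∈ S := by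
      rw [hS, Finset.mem_union]
      exact Or.inr hp
    rw [hval p hpS]
    show (((if p ∈ D then (u p).val else 1 : ℕ)) : ZMod (p : ℕ)) = u p
    rw [if_pos hp, ZMod.natCast_zmod_val]

end SpinWA
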