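import Pool.Agent.H.MP_83e36b_nt.sp.RFin
import Pool.Agent.H.MP_83e36b_nt.sp.KEll

/-!
# The prime `l` is a square in the completions at `S`

PROOF. `v = none`: `l > 0`, `r = √l`. `v = some p`, `p` odd: `‖l - 1‖_p < 1` (`l ≡ 1` mod `p`:
`ZMod.natCast_eq_natCast_iff`, `padicNorm`), `isSquare_of_norm`. `p = 2`: `l = 1 + 8 j`; Hensel's lemma
(`hensels_lemma`) for `X^2 - l` at `1` in `ℤ_[2]`: `‖1 - l‖ ≤ 1/8 < 1/4 = ‖2‖^2`.
`norm_natCast_eq_one`: `l ≠ p` primes.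
-/

open Topology

namespace SpinWA

theorem norm_prime_eq_one (p l : Nat.Primes) (h : p ≠ l) : ‖((l : ℕ) : ℚ_[(p : ℕ)])‖ = 1 := by
  have h2 : (p : ℕ) ≠ (l : ℕ) := fun h3 => h (Subtype.ext h3)
  exact Padic.norm_natCast_eq_one_iff.2 ((Nat.coprime_primes p.2 l.2).2 h2)

theorem norm_sub_one_lt (p : Nat.Primes) (l : ℕ) (h : (l : ZMod (p : ℕ)) = 1) :
    ‖((l : ℚ) : ℚ_[(p : ℕ)]) - 1‖ < 1 := by
  have h1 : (((l : ℤ) - 1 : ℤ) : ZMod (p : ℕ)) = 0 := by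
    push_cast
    rw [h, sub_self]
  have h2 : ((p : ℕ) : ℤ) ∣ (l : ℤ) - 1 := (ZMod.intCast_zmod_eq_zero_iff_dvd _ _).1 h1
  have h3 := (Padic.norm_intCast_lt_one_iff (p := (p : ℕ)) (k := (l : ℤ) - 1)).2 h2
  have h4 : ((((l : ℤ) - 1 : ℤ)) : ℚ_[(p : ℕ)]) = ((l : ℚ) : ℚ_[(p : ℕ)]) - 1 := by
    push_cast
    ring
  rw [h4] at h3
  exact h3

theorem ksq_two (l : ℕ) (h8 : l % 8 = 1) : ∃ r : ℚ_[2], r ≠ 0 ∧ r ^ 2 = ((l : ℚ) : ℚ_[2]) := by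
  have hfact : Fact (Nat.Prime 2) := ⟨Nat.prime_two⟩
  obtain ⟨j, hj⟩ : ∃ j : ℕ, l = 1 + 8 * j := ⟨l / 8, by omega⟩
  have e1 : (Polynomial.X ^ 2 - Polynomial.C (l : ℤ_[2]) : Polynomial ℤ_[2]).aeval (1 : ℤ_[2])
      = 1 - (l : ℤ_[2]) := by
    simp
  have e2 : (Polynomial.derivative (Polynomial.X ^ 2 - Polynomial.C (l : ℤ_[2]) :
      Polynomial ℤ_[2])).aeval (1 : ℤ_[2]) = 2 := by
    simp
    try norm_num
  have hn2 : ‖(2 : ℤ_[2])‖ = 2⁻¹ := by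
    have := PadicInt.norm_p (p := 2)
    exact_mod_cast this
  have hn8 : ‖(1 : ℤ_[2]) - (l : ℤ_[2])‖ ≤ 8⁻¹ := by
    have e3 : (1 : ℤ_[2]) - (l : ℤ_[2]) = -((2 : ℤ_[2]) ^ 3 * (j : ℤ_[2])) := by
      rw [hj]
      push_cast
      ring
    rw [e3, norm_neg, norm_mul, norm_pow, hn2]
    have h4 := PadicInt.norm_le_one (j : ℤ_[2])
    calc ((2 : ℝ)⁻¹) ^ 3 * ‖(j : ℤ_[2])‖ ≤ ((2 : ℝ)⁻¹) ^ 3 * 1 := by gcongr
      _ = 8⁻¹ := by norm_num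
  have hnorm : ‖(Polynomial.X ^ 2 - Polynomial.C (l : ℤ_[2]) : Polynomial ℤ_[2]).aeval (1 : ℤ_[2])‖ <
      ‖(Polynomial.derivative (Polynomial.X ^ 2 - Polynomial.C (l : ℤ_[2]) :
        Polynomial ℤ_[2])).aeval (1 : ℤ_[2])‖ ^ 2 := by
    rw [e1, e2, hn2]
    refine hn8.trans_lt ?_
    norm_num
  obtain ⟨z, hz, -⟩ := hensels_lemma hnorm
  have e3 : (Polynomial.X ^ 2 - Polynomial.C (l : ℤ_[2]) : Polynomial ℤ_[2]).aeval z =
      z ^ 2 - (l : ℤ_[2]) := by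
    simp
  rw [e3, sub_eq_zero] at hz
  have hz' : (z : ℚ_[2]) ^ 2 = ((l : ℚ) : ℚ_[2]) := by
    rw [← PadicInt.coe_pow, hz]
    push_cast
    rfl
  refine ⟨(z : ℚ_[2]), ?_, hz'⟩
  intro h0
  rw [h0] at hz'
  have h5 : ((l : ℚ) : ℚ_[2]) ≠ 0 := by
    have h6 : (l : ℚ) ≠ 0 := by
      have : l ≠ 0 := by omega
      exact_mod_cast this
    exact_mod_cast h6
  apply h5
  rw [← hz']
  ring

theorem ell_square (S : Finset Pl) (l : ℕ) (hl : l.Prime) (h8 : l % 8 = 1)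
    (hp : ∀ p : Nat.Primes, some p ∈ S → (p : ℕ) ≠ 2 → (l : ZMod (p : ℕ)) = 1) :
    ∀ v ∈ S, ∃ r : Cpl v, r ≠ 0 ∧ r ^ 2 = emb v (l : ℚ) := by
  intro v hv
  cases v with
  | none =>
    have h0 : (0 : ℝ) < (l : ℝ) := by exact_mod_cast hl.pos
    have h1 : ∃ r : ℝ, r ≠ 0 ∧ r ^ 2 = (((l : ℚ) : ℝ)) := by
      refine ⟨Real.sqrt l, (Real.sqrt_pos.2 h0).ne', ?_⟩
      rw [Real.sq_sqrt h0.le]
      push_cast
      rfl
    exact h1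
  | some p =>
    by_cases h2 : (p : ℕ) = 2
    · have h3 : p = ⟨2, Nat.prime_two⟩ := Subtype.ext h2
      subst h3
      exact ksq_two l h8
    · exact isSquare_of_norm h2 (norm_sub_one_lt p l (hp p hv h2))

/-- All but finitely many primes are good for a nonzero rational number. -/
theorem norm_eq_one_finite (x : ℚ) (hx : x ≠ 0) :
    {p : Nat.Primes | ‖(x : ℚ_[(p : ℕ)])‖ ≠ 1}.Finite := by
  have hn : x.num.natAbs * x.den ≠ 0 :=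
    mul_ne_zero (Int.natAbs_ne_zero.mpr (Rat.num_ne_zero.mpr hx)) x.den_ne_zero
  have hf : {p : Nat.Primes | (p : ℕ) ∣ x.num.natAbs * x.den}.Finite := by
    have h1 : ((Nat.divisors (x.num.natAbs * x.den) : Finset ℕ) : Set ℕ).Finite :=
      Finset.finite_toSet _
    refine (h1.preimage (Set.injOn_of_injective Nat.Primes.coe_nat_injective)).subset ?_
    intro p hp
    exact Finset.mem_coe.mpr (Nat.mem_divisors.mpr ⟨hp, hn⟩)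
  refine hf.subset ?_
  intro p hp
  by_contra hp'
  apply hp
  have hv : ((x : ℚ_[(p : ℕ)])).valuation = 0 := rfin_val_zero hp'
  have hx' : (x : ℚ_[(p : ℕ)]) ≠ 0 := by exact_mod_cast hx
  rw [Padic.norm_eq_zpow_neg_valuation hx', hv]
  simp

end SpinWA
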