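import Pool.Agent.H.MP_83e36b_nt.sp.WDef

/-!
# Signature and 2-adic parity of the discriminant

PROOF. `WG.lift`; the relations are checked by cases on the signs, resp. with
`padicValRat.mul`, `padicValRat.pow`: `v(a) + v(b) = v(a+b) + v(a b (a+b))` modulo 2.
-/

open Matrix

namespace SpinWA

/-- The signature. -/
theorem exists_sgn : ∃ f : WG ℝ →+ ℤ, ∀ a : ℝ, a ≠ 0 → f (cl a) = (SignType.sign a : ℤ) := by
  refine ⟨WG.lift (fun a : ℝ => (SignType.sign a : ℤ)) ?_ ?_ ?_, ?_⟩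
  · intro a b ha hb
    have hb2 : 0 < b ^ 2 := by positivity
    rw [sign_mul, sign_pos hb2, mul_one]
  · intro a b ha hb hab
    rw [sign_mul, sign_mul]
    rcases lt_or_gt_of_ne ha with h1 | h1 <;> rcases lt_or_gt_of_ne hb with h2 | h2 <;>
      rcases lt_or_gt_of_ne hab with h3 | h3
    · simp [sign_neg h1, sign_neg h2, sign_neg h3]
    · linarith
    · simp [sign_neg h1, sign_pos h2, sign_neg h3]
    · simp [sign_neg h1, sign_pos h2, sign_pos h3]
    · simp [sign_pos h1, sign_neg h2, sign_neg h3]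
    · simp [sign_pos h1, sign_neg h2, sign_pos h3]
    · linarith
    · simp [sign_pos h1, sign_pos h2, sign_pos h3]
  · rw [sign_pos (one_pos : (0 : ℝ) < 1), sign_neg (by norm_num : (-1 : ℝ) < 0)]
    simp
  · intro a ha
    exact WG.lift_cl _ _ _ _ ha

noncomputable def sgnW : WG ℝ →+ ℤ := exists_sgn.choose

theorem sgnW_cl {a : ℝ} (ha : a ≠ 0) : sgnW (cl a) = (SignType.sign a : ℤ) :=
  exists_sgn.choose_spec a ha

theorem rsgn_add_self : ∀ x : ZMod 2, x + x = 0 := by decide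

/-- Parity of the 2-adic valuation of the discriminant. -/
theorem exists_v2 : ∃ f : WG ℚ →+ ZMod 2, ∀ a : ℚ, a ≠ 0 →
    f (cl a) = ((padicValRat 2 a : ℤ) : ZMod 2) := by
  refine ⟨WG.lift (fun a : ℚ => ((padicValRat 2 a : ℤ) : ZMod 2)) ?_ ?_ ?_, ?_⟩
  · intro a b ha hb
    rw [padicValRat.mul ha (pow_ne_zero 2 hb), padicValRat.pow]
    push_cast
    have h0 : (2 : ZMod 2) = 0 := rfl
    rw [h0, zero_mul, add_zero]
  · intro a b ha hb hab
    rw [padicValRat.mul (mul_ne_zero ha hb) hab, padicValRat.mul ha hb]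
    push_cast
    have h0 : ∀ x : ZMod 2, x + x = 0 := rsgn_add_self
    linear_combination -h0 ((padicValRat 2 (a + b) : ℤ) : ZMod 2)
  · simp
  · intro a ha
    exact WG.lift_cl _ _ _ _ ha

noncomputable def v2W : WG ℚ →+ ZMod 2 := exists_v2.choose

theorem v2W_cl {a : ℚ} (ha : a ≠ 0) : v2W (cl a) = ((padicValRat 2 a : ℤ) : ZMod 2) :=
  exists_v2.choose_spec a ha

end SpinWA
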