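import Pool.Agent.H.MP_83e36b_nt.sp.PDefs

/-!
# The unit part of a `p`-adic number modulo `p`

PROOF. `‖a‖ = p ^ (-a.valuation)` (`Padic.norm_eq_zpow_neg_valuation`), so
`a * p ^ (-a.valuation)` has norm 1 (`a ≠ 0`) and is a unit of `ℤ_[p]`; `PadicInt.toZMod` is a ring
homomorphism with kernel the maximal ideal. `Padic.valuation_mul`. For the sum: if
`v(a) < v(b)` then `v (a + b) = v a` (ultrametric inequality, `Padic.add_eq_max_of_ne` or so) and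
`(a + b) p^(-v a) = a p^(-v a) + b p^(-v a)`, the last term in the maximal ideal.
If `v a = v b` and `unitMod a + unitMod b ≠ 0` the same computation shows that
`(a + b) p^(-v a)` is a unit. If `unitMod a + unitMod b = 0` and `a + b ≠ 0` then
`v (a + b) > v a`.
-/

open Matrix

namespace SpinWA

/-- The unit part of a `p`-adic number, modulo `p`. -/
noncomputable def unitMod (p : ℕ) [Fact p.Prime] (a : ℚ_[p]) : ZMod p :=
  open Classical in
  if h : ‖a * (p : ℚ_[p]) ^ (-a.valuation)‖ ≤ 1 then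
    PadicInt.toZMod (⟨a * (p : ℚ_[p]) ^ (-a.valuation), h⟩ : ℤ_[p]) else 0

theorem runit_isUnit_iff (p : ℕ) [Fact p.Prime] (u : ℤ_[p]) :
    IsUnit u ↔ PadicInt.toZMod u ≠ 0 := by
  constructor
  · intro h
    exact (h.map (PadicInt.toZMod (p := p))).ne_zero
  · intro h
    by_contra hu
    apply h
    have h1 : u ∈ IsLocalRing.maximalIdeal ℤ_[p] := (IsLocalRing.mem_maximalIdeal _).mpr hu
    rw [← PadicInt.ker_toZMod] at h1
    exact (RingHom.mem_ker).mp h1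

theorem runit_val_unit (p : ℕ) [Fact p.Prime] (u : ℤ_[p]) (hu : IsUnit u) :
    (u : ℚ_[p]).valuation = 0 := by
  have h1 : ‖(u : ℚ_[p])‖ = 1 := by
    have := PadicInt.isUnit_iff.mp hu
    rwa [PadicInt.norm_def] at this
  have hu0 : (u : ℚ_[p]) ≠ 0 := by
    intro h
    rw [h, norm_zero] at h1
    exact zero_ne_one h1
  rw [Padic.norm_eq_zpow_neg_valuation hu0] at h1
  have hp1 : (1 : ℝ) < p := by exact_mod_cast (Fact.out : p.Prime).one_lt
  have h2 : (p : ℝ) ^ (-(u : ℚ_[p]).valuation) = (p : ℝ) ^ (0 : ℤ) := by rw [h1, zpow_zero]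
  have h3 := zpow_right_injective₀ (by linarith) hp1.ne' h2
  omega

theorem runit_coe_ne (p : ℕ) [Fact p.Prime] (u : ℤ_[p]) (hu : IsUnit u) :
    (u : ℚ_[p]) ≠ 0 := by
  intro h
  exact hu.ne_zero (PadicInt.coe_eq_zero.mp h)

theorem runit_p_ne (p : ℕ) [Fact p.Prime] : (p : ℚ_[p]) ≠ 0 := by
  exact_mod_cast (Fact.out : p.Prime).ne_zero

theorem valuation_pow_mul (p : ℕ) [Fact p.Prime] (k : ℤ) (u : ℤ_[p]) (hu : IsUnit u) :
    ((p : ℚ_[p]) ^ k * (u : ℚ_[p])).valuation = k := by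
  rw [Padic.valuation_mul (zpow_ne_zero _ (runit_p_ne p)) (runit_coe_ne p u hu),
    Padic.valuation_zpow, Padic.valuation_p, runit_val_unit p u hu]
  ring

/-- `p ^ k u` has unit part `u`. -/
theorem unitMod_pow_mul (p : ℕ) [Fact p.Prime] (k : ℤ) (u : ℤ_[p]) (hu : IsUnit u) :
    unitMod p ((p : ℚ_[p]) ^ k * (u : ℚ_[p])) = PadicInt.toZMod u := by
  unfold unitMod
  rw [valuation_pow_mul p k u hu]
  have h1 : (p : ℚ_[p]) ^ k * (u : ℚ_[p]) * (p : ℚ_[p]) ^ (-k) = (u : ℚ_[p]) := by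
    rw [mul_comm ((p : ℚ_[p]) ^ k), mul_assoc, ← zpow_add₀ (runit_p_ne p), add_neg_cancel,
      zpow_zero, mul_one]
  have h2 : ‖(p : ℚ_[p]) ^ k * (u : ℚ_[p]) * (p : ℚ_[p]) ^ (-k)‖ ≤ 1 := by
    rw [h1]; exact u.2
  rw [dif_pos h2]
  congr 1
  exact Subtype.ext h1

/-- Every nonzero number is `p ^ k u`, `u` a unit. -/
theorem exists_pow_mul (p : ℕ) [Fact p.Prime] {a : ℚ_[p]} (ha : a ≠ 0) :
    ∃ u : ℤ_[p], IsUnit u ∧ a = (p : ℚ_[p]) ^ a.valuation * (u : ℚ_[p]) := by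
  have hp0 : (p : ℝ) ≠ 0 := by exact_mod_cast (Fact.out : p.Prime).ne_zero
  have h1 : ‖a * (p : ℚ_[p]) ^ (-a.valuation)‖ = 1 := by
    rw [norm_mul, Padic.norm_eq_zpow_neg_valuation ha, Padic.norm_p_zpow, ← zpow_add₀ hp0,
      neg_neg, neg_add_cancel, zpow_zero]
  refine ⟨⟨a * (p : ℚ_[p]) ^ (-a.valuation), h1.le⟩, ?_, ?_⟩
  · exact PadicInt.isUnit_iff.mpr h1
  · show a = (p : ℚ_[p]) ^ a.valuation * (a * (p : ℚ_[p]) ^ (-a.valuation))
    rw [mul_comm, mul_assoc, ← zpow_add₀ (runit_p_ne p), neg_add_cancel, zpow_zero, mul_one]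

theorem unitMod_ne_zero (p : ℕ) [Fact p.Prime] {a : ℚ_[p]} (ha : a ≠ 0) : unitMod p a ≠ 0 := by
  obtain ⟨u, hu, h⟩ := exists_pow_mul p ha
  rw [h, unitMod_pow_mul p _ u hu]
  exact (runit_isUnit_iff p u).mp hu

theorem unitMod_mul (p : ℕ) [Fact p.Prime] {a b : ℚ_[p]} (ha : a ≠ 0) (hb : b ≠ 0) :
    unitMod p (a * b) = unitMod p a * unitMod p b := by
  obtain ⟨u, hu, h⟩ := exists_pow_mul p ha
  obtain ⟨w, hw, h'⟩ := exists_pow_mul p hb
  generalize a.valuation = m at h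
  generalize b.valuation = n at h'
  subst h
  subst h'
  have h1 : (p : ℚ_[p]) ^ m * (u : ℚ_[p]) * ((p : ℚ_[p]) ^ n * (w : ℚ_[p]))
      = (p : ℚ_[p]) ^ (m + n) * ((u * w : ℤ_[p]) : ℚ_[p]) := by
    rw [zpow_add₀ (runit_p_ne p), PadicInt.coe_mul]
    ring
  rw [h1, unitMod_pow_mul p _ _ (hu.mul hw), unitMod_pow_mul p _ _ hu, unitMod_pow_mul p _ _ hw,
    map_mul]

theorem unitMod_neg (p : ℕ) [Fact p.Prime] (a : ℚ_[p]) : unitMod p (-a) = - unitMod p a := by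
  by_cases ha : a = 0
  · subst ha
    rw [neg_zero]
    unfold unitMod
    have h2 : ‖(0 : ℚ_[p]) * (p : ℚ_[p]) ^ (-(0 : ℚ_[p]).valuation)‖ ≤ 1 := by
      rw [zero_mul, norm_zero]; exact zero_le_one
    rw [dif_pos h2]
    have h3 : (show ℤ_[p] from ⟨(0 : ℚ_[p]) * (p : ℚ_[p]) ^ (-(0 : ℚ_[p]).valuation), h2⟩) = 0 := by
      apply PadicInt.ext
      exact zero_mul _
    have h4 := congrArg (PadicInt.toZMod (p := p)) h3
    rw [map_zero] at h4
    have h5 : (PadicInt.toZMod (p := p)) ⟨(0 : ℚ_[p]) * (p : ℚ_[p]) ^ (-(0 : ℚ_[p]).valuation), h2⟩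
        = 0 := h4
    rw [h5, neg_zero]
  · obtain ⟨u, hu, h⟩ := exists_pow_mul p ha
    generalize a.valuation = m at h
    subst h
    have h1 : -((p : ℚ_[p]) ^ m * (u : ℚ_[p])) = (p : ℚ_[p]) ^ m * ((-u : ℤ_[p]) : ℚ_[p]) := by
      rw [PadicInt.coe_neg, mul_neg]
    rw [h1, unitMod_pow_mul p _ _ hu.neg, unitMod_pow_mul p _ _ hu, map_neg]

theorem valuation_add_lt (p : ℕ) [Fact p.Prime] {a b : ℚ_[p]} (ha : a ≠ 0) (hb : b ≠ 0)
    (h : a.valuation < b.valuation) :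
    (a + b).valuation = a.valuation ∧ unitMod p (a + b) = unitMod p a := by
  obtain ⟨u, hu, h1⟩ := exists_pow_mul p ha
  obtain ⟨w, hw, h2⟩ := exists_pow_mul p hb
  generalize a.valuation = m at h h1 ⊢
  generalize b.valuation = n at h h2
  subst h1
  subst h2
  obtain ⟨k, hk⟩ : ∃ k : ℕ, n = m + (k + 1 : ℕ) := ⟨(n - m - 1).toNat, by
    push_cast
    rw [Int.toNat_of_nonneg (by omega)]
    ring⟩
  have h3 : (p : ℚ_[p]) ^ m * (u : ℚ_[p]) + (p : ℚ_[p]) ^ n * (w : ℚ_[p])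
      = (p : ℚ_[p]) ^ m * ((u + (p : ℤ_[p]) ^ (k + 1) * w : ℤ_[p]) : ℚ_[p]) := by
    rw [hk, zpow_add₀ (runit_p_ne p), zpow_natCast]
    push_cast
    ring
  have h4 : PadicInt.toZMod (u + (p : ℤ_[p]) ^ (k + 1) * w) = PadicInt.toZMod u := by
    rw [map_add, map_mul, map_pow, map_natCast, ZMod.natCast_self, zero_pow (by omega), zero_mul,
      add_zero]
  have h5 : IsUnit (u + (p : ℤ_[p]) ^ (k + 1) * w) := by
    rw [runit_isUnit_iff, h4, ← runit_isUnit_iff]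
    exact hu
  rw [h3]
  exact ⟨valuation_pow_mul p _ _ h5, by
    rw [unitMod_pow_mul p _ _ h5, unitMod_pow_mul p _ _ hu, h4]⟩

theorem valuation_add_eq (p : ℕ) [Fact p.Prime] {a b : ℚ_[p]} (ha : a ≠ 0) (hb : b ≠ 0)
    (h : a.valuation = b.valuation) (hu : unitMod p a + unitMod p b ≠ 0) :
    (a + b).valuation = a.valuation ∧ unitMod p (a + b) = unitMod p a + unitMod p b := by
  obtain ⟨u, huu, h1⟩ := exists_pow_mul p ha
  obtain ⟨w, hw, h2⟩ := exists_pow_mul p hb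
  rw [← h] at h2
  generalize a.valuation = m at h h1 h2 ⊢
  subst h1
  subst h2
  rw [unitMod_pow_mul p _ _ huu, unitMod_pow_mul p _ _ hw, ← map_add] at hu ⊢
  have h5 : IsUnit (u + w) := (runit_isUnit_iff p _).mpr hu
  have h3 : (p : ℚ_[p]) ^ m * (u : ℚ_[p]) + (p : ℚ_[p]) ^ m * (w : ℚ_[p])
      = (p : ℚ_[p]) ^ m * ((u + w : ℤ_[p]) : ℚ_[p]) := by
    rw [PadicInt.coe_add]
    ring
  rw [h3]
  exact ⟨valuation_pow_mul p _ _ h5, unitMod_pow_mul p _ _ h5⟩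

end SpinWA
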