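import Pool.Agent.H.MP_83e36b_nt.sp.RRes
import Pool.Agent.H.MP_83e36b_nt.sp.RSgn
import Pool.Agent.H.MP_83e36b_nt.sp.RUnit

/-!
# Finiteness of the set of bad primes, parity of the discriminant

PROOF. `res_finite`: `WG.induction`: for `x = cl a`, `a ≠ 0`: `P0` = the primes dividing the numerator
or the denominator of `a`: for `p ∉ P0` the valuation of `a` in `ℚ_[p]` is `0` (`Padic.valuation_ratCast`,
`padicValRat`), so the residue is 0 (`resW_cl`, `resW_two`, `WG.map_cl`); sums: union of the sets.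
`v2W_eq_zero`: there is a homomorphism `f : WG ℚ_[2] →+ ZMod 2` with `f (cl a) = a.valuation` for
`a ≠ 0` (`WG.lift`; relations: `v(a b^2) = v a + 2 v b`; `v(a) + v(b) = v(a+b) + v(a b (a+b))` modulo 2;
`v(1) = v(-1) = 0`), and `v2W x = f (WG.map (Rat.castHom ℚ_[2]) x)`: both sides are homomorphisms
and agree on `cl a` (`Padic.valuation_ratCast`), use `WG.induction`.
`resW_cl_unit`: valuation 0.
-/

open Matrix

namespace SpinWA

theorem rfin_val_zero {p : ℕ} [Fact p.Prime] {a : ℚ} (h : ¬ p ∣ a.num.natAbs * a.den) :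
    ((a : ℚ_[p])).valuation = 0 := by
  have h1 : ¬ (p : ℤ) ∣ a.num := by
    intro h1
    apply h
    exact Dvd.dvd.mul_right (Int.natCast_dvd.mp h1) _
  have h2 : ¬ p ∣ a.den := fun h2 => h (Dvd.dvd.mul_left h2 _)
  rw [Padic.valuation_ratCast, padicValRat, padicValInt.eq_zero_of_not_dvd h1,
    padicValNat.eq_zero_of_not_dvd h2]
  simp

theorem rfin_cl (a : ℚ) (ha : a ≠ 0) : ∃ P0 : Finset Nat.Primes, ∀ p : Nat.Primes, p ∉ P0 →
    resW (p : ℕ) (WG.map (Rat.castHom ℚ_[(p : ℕ)]) (cl a)) = 0 := by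
  have hn : a.num.natAbs * a.den ≠ 0 :=
    mul_ne_zero (Int.natAbs_ne_zero.mpr (Rat.num_ne_zero.mpr ha)) a.den_ne_zero
  have hf : {p : Nat.Primes | (p : ℕ) ∣ a.num.natAbs * a.den}.Finite := by
    have h1 : ((Nat.divisors (a.num.natAbs * a.den) : Finset ℕ) : Set ℕ).Finite :=
      Finset.finite_toSet _
    refine (h1.preimage (Set.injOn_of_injective Nat.Primes.coe_nat_injective)).subset ?_
    intro p hp
    exact Finset.mem_coe.mpr (Nat.mem_divisors.mpr ⟨hp, hn⟩)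
  refine ⟨hf.toFinset, ?_⟩
  intro p hp
  have hp' : ¬ (p : ℕ) ∣ a.num.natAbs * a.den := fun h => hp (hf.mem_toFinset.mpr h)
  by_cases h2 : (p : ℕ) = 2
  · have h3 : p = ⟨2, Nat.prime_two⟩ := Subtype.ext h2
    subst h3
    exact resW_two _
  · have ha' : ((a : ℚ) : ℚ_[(p : ℕ)]) ≠ 0 := by exact_mod_cast ha
    have h4 : (Rat.castHom ℚ_[(p : ℕ)]) a = ((a : ℚ) : ℚ_[(p : ℕ)]) := rfl
    rw [WG.map_cl, h4, resW_cl h2 ha', if_pos]
    rw [rfin_val_zero hp']
    exact Even.zero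

theorem res_finite (x : WG ℚ) : ∃ P0 : Finset Nat.Primes, ∀ p : Nat.Primes, p ∉ P0 →
    resW (p : ℕ) (WG.map (Rat.castHom ℚ_[(p : ℕ)]) x) = 0 := by
  classical
  induction x using WG.induction with
  | h0 => exact ⟨∅, fun p _ => by rw [map_zero, map_zero]⟩
  | h1 a ha => exact rfin_cl a ha
  | h2 x ih =>
    obtain ⟨P0, h⟩ := ih
    exact ⟨P0, fun p hp => by rw [map_neg, map_neg, h p hp, neg_zero]⟩
  | h3 x y hx hy =>
    obtain ⟨P1, h1⟩ := hx
    obtain ⟨P2, h2⟩ := hy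
    refine ⟨P1 ∪ P2, fun p hp => ?_⟩
    rw [Finset.mem_union, not_or] at hp
    rw [map_add, map_add, h1 p hp.1, h2 p hp.2, add_zero]

theorem rfin_neg (p : ℕ) [Fact p.Prime] : ((-1 : ℚ_[p])).valuation = 0 := by
  have h : ((-1 : ℚ_[p])).valuation + ((-1 : ℚ_[p])).valuation = 0 := by
    rw [← Padic.valuation_mul (by norm_num) (by norm_num)]
    norm_num
  omega

theorem rfin_exists : ∃ f : WG ℚ_[2] →+ ZMod 2, ∀ a : ℚ_[2], a ≠ 0 →
    f (cl a) = ((a.valuation : ℤ) : ZMod 2) := by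
  refine ⟨WG.lift (fun a : ℚ_[2] => ((a.valuation : ℤ) : ZMod 2)) ?_ ?_ ?_, ?_⟩
  · intro a b ha hb
    rw [Padic.valuation_mul ha (pow_ne_zero 2 hb), pow_two, Padic.valuation_mul hb hb]
    push_cast
    rw [rsgn_add_self, add_zero]
  · intro a b ha hb hab
    rw [Padic.valuation_mul (mul_ne_zero ha hb) hab, Padic.valuation_mul ha hb]
    push_cast
    linear_combination -rsgn_add_self (((a + b).valuation : ℤ) : ZMod 2)
  · rw [rfin_neg, Padic.valuation_one]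
    simp
  · intro a ha
    exact WG.lift_cl _ _ _ _ ha

theorem v2W_eq_zero {x : WG ℚ} (h : WG.map (Rat.castHom ℚ_[2]) x = 0) : v2W x = 0 := by
  obtain ⟨f, hf⟩ := rfin_exists
  have key : ∀ y : WG ℚ, v2W y = f (WG.map (Rat.castHom ℚ_[2]) y) := by
    intro y
    induction y using WG.induction with
    | h0 => rw [map_zero, map_zero, map_zero]
    | h1 a ha =>
      have ha' : ((a : ℚ) : ℚ_[2]) ≠ 0 := by exact_mod_cast ha
      have h4 : (Rat.castHom ℚ_[2]) a = ((a : ℚ) : ℚ_[2]) := rfl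
      rw [v2W_cl ha, WG.map_cl, h4, hf _ ha', Padic.valuation_ratCast]
    | h2 x ih => rw [map_neg, map_neg, map_neg, ih]
    | h3 x y hx hy => rw [map_add, map_add, map_add, hx, hy]
  rw [key, h, map_zero]

theorem resW_cl_unit {p : ℕ} [Fact p.Prime] {a : ℚ_[p]} (ha : ‖a‖ = 1) : resW p (cl a) = 0 := by
  by_cases h2 : p = 2
  · subst h2
    exact resW_two _
  · obtain ⟨u, rfl⟩ : ∃ u : ℤ_[p], (u : ℚ_[p]) = a := ⟨⟨a, ha.le⟩, rfl⟩
    have hu : IsUnit u := by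
      rw [PadicInt.isUnit_iff, PadicInt.norm_def]
      exact ha
    have hv : (u : ℚ_[p]).valuation = 0 := runit_val_unit p u hu
    rw [resW_cl h2 (runit_coe_ne p u hu), if_pos]
    rw [hv]
    exact Even.zero

/-- A `p`-adic unit which is a square modulo `p` is a square (`p` odd); auxiliary form. -/
theorem rfin_hensel {p : ℕ} [Fact p.Prime] (hp : p ≠ 2) {a : ℤ_[p]} (ha : IsUnit a)
    (h : IsSquare (PadicInt.toZMod a)) : ∃ r : ℚ_[p], r ≠ 0 ∧ r ^ 2 = a := by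
  obtain ⟨s, hs⟩ := h
  obtain ⟨b, hb⟩ : ∃ b : ℤ_[p], PadicInt.toZMod b = s := by
    refine ⟨((s.val : ℕ) : ℤ_[p]), ?_⟩
    rw [map_natCast, ZMod.natCast_zmod_val]
  have hs0 : s ≠ 0 := by
    intro h0
    rw [h0, mul_zero] at hs
    exact (runit_isUnit_iff p a).mp ha hs
  have hp2 : (2 : ZMod p) ≠ 0 := by
    intro h
    have h1 : ((2 : ℕ) : ZMod p) = 0 := by exact_mod_cast h
    rw [ZMod.natCast_eq_zero_iff] at h1
    exact hp ((Nat.prime_dvd_prime_iff_eq (Fact.out : p.Prime) Nat.prime_two).1 h1)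
  have h2b : IsUnit (2 * b) := by
    rw [runit_isUnit_iff, map_mul, hb, map_ofNat]
    exact mul_ne_zero hp2 hs0
  have hn2 : ‖2 * b‖ = 1 := PadicInt.isUnit_iff.mp h2b
  have hn1 : ‖b ^ 2 - a‖ < 1 := by
    have h3 : ¬ IsUnit (b ^ 2 - a) := by
      rw [runit_isUnit_iff, map_sub, map_pow, hb, hs, not_not]
      ring
    rcases lt_or_eq_of_le (PadicInt.norm_le_one (b ^ 2 - a)) with h4 | h4
    · exact h4
    · exact absurd (PadicInt.isUnit_iff.mpr h4) h3
  have e1 : (Polynomial.X ^ 2 - Polynomial.C a : Polynomial ℤ_[p]).aeval b = b ^ 2 - a := by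
    simp
  have e2 : (Polynomial.derivative (Polynomial.X ^ 2 - Polynomial.C a : Polynomial ℤ_[p])).aeval b
      = 2 * b := by
    simp
    left
    norm_num
  have hnorm : ‖(Polynomial.X ^ 2 - Polynomial.C a : Polynomial ℤ_[p]).aeval b‖ <
      ‖(Polynomial.derivative (Polynomial.X ^ 2 - Polynomial.C a :
        Polynomial ℤ_[p])).aeval b‖ ^ 2 := by
    rw [e1, e2, hn2, one_pow]
    exact hn1
  obtain ⟨z, hz, -⟩ := hensels_lemma hnorm
  have e3 : (Polynomial.X ^ 2 - Polynomial.C a : Polynomial ℤ_[p]).aeval z = z ^ 2 - a := by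
    simp
  rw [e3, sub_eq_zero] at hz
  refine ⟨(z : ℚ_[p]), ?_, ?_⟩
  · intro h0
    have h5 : z = 0 := PadicInt.coe_eq_zero.mp h0
    rw [h5] at hz
    apply ha.ne_zero
    rw [← hz]
    ring
  · rw [← hz, PadicInt.coe_pow]

/-- A `p`-adic number congruent to 1 is a square (`p` odd). -/
theorem isSquare_of_norm {p : ℕ} [Fact p.Prime] (hp : p ≠ 2) {a : ℚ_[p]} (ha : ‖a - 1‖ < 1) :
    ∃ r : ℚ_[p], r ≠ 0 ∧ r ^ 2 = a := by
  have h1 : ‖a‖ ≤ 1 := by
    have h2 : a = (a - 1) + 1 := by ring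
    rw [h2]
    refine (Padic.nonarchimedean _ _).trans ?_
    rw [norm_one]
    exact max_le ha.le le_rfl
  obtain ⟨u, rfl⟩ : ∃ u : ℤ_[p], (u : ℚ_[p]) = a := ⟨⟨a, h1⟩, rfl⟩
  have h3 : PadicInt.toZMod u = 1 := by
    have h4 : ¬ IsUnit (u - 1) := by
      intro h5
      have h6 : ‖u - 1‖ = 1 := PadicInt.isUnit_iff.mp h5
      have h7 : ‖u - 1‖ = ‖(u : ℚ_[p]) - 1‖ := by
        rw [PadicInt.norm_def, PadicInt.coe_sub, PadicInt.coe_one]
      rw [h7] at h6
      exact absurd h6 ha.ne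
    rw [runit_isUnit_iff, not_not, map_sub, map_one, sub_eq_zero] at h4
    exact h4
  have hu : IsUnit u := by
    rw [runit_isUnit_iff, h3]
    exact one_ne_zero
  exact rfin_hensel hp hu (by rw [h3]; exact IsSquare.one)

/-- A `p`-adic unit which is a square modulo `p` is a square (`p` odd). -/
theorem isSquare_of_toZMod {p : ℕ} [Fact p.Prime] (hp : p ≠ 2) {a : ℤ_[p]} (ha : IsUnit a)
    (h : IsSquare (PadicInt.toZMod a)) : ∃ r : ℚ_[p], r ≠ 0 ∧ r ^ 2 = a :=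
  rfin_hensel hp ha h

end SpinWA
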