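import Pool.Agent.H.MP_83e36b_nt.sp.WDef

/-!
# Milnor's computation of the Witt group of `ℚ`: the section

`lowW p` = subgroup of `WG ℚ` generated by all `cl a`, `a ≠ 0` an integer all of whose prime factors
are `< p`.

PROOF. `milnor_key`: note that `cl` of a product of nonzero integers of absolute value `< p` is in
`lowW p`, and `cl (p^2 z) = cl z`. Induction on the list `l` (generalising `n`, `k`):
`l = []`: `n ≡ 1`, as the case `l = [1]`.
`l = [n_1]`: `n = n_1` (trivial) or `n = n_1 + e p` with `e = ±1` (since `|n - n_1| < 2 p` and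
`p ∣ n - n_1`); relation `cl_add` with `a = p n_1 y`, `b = e p^2 y`, `a + b = p n y`, `y = k.prod`:
`cl (p n_1 y) + cl (e p^2 y) = cl (p n y) + cl (p n_1 y * e p^2 y * p n y)`, where
`cl (e p^2 y) = cl (e y)` and the last class is `cl (e n_1 n y (p^2 y)^2) = cl (e n_1 n y)`: both in
`lowW p`.
`l = n_1 :: n_2 :: l'`: `p` does not divide `n_1 n_2`; choose `n'` with `0 < n' < p`,
`n_1 n_2 = n' + p m`, `|m| < p` (division with remainder). First
`cl (p n' y) - cl (p n_1 n_2 y) ∈ lowW p` for `y = l'.prod * k.prod`: if `m = 0` trivial; if `m ≠ 0`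
use `cl_add` with `a = p n' y`, `b = p^2 m y`, `a + b = p n_1 n_2 y`:
`cl (p n' y) + cl (m y) = cl (p n_1 n_2 y) + cl (n' m n_1 n_2 y)` (up to squares). Then apply the
induction hypothesis to `n` and the shorter list `n' :: l'`.
`milnor_sec`: `WG.lift` with `u ↦ class of cl (p * u.val)` (`0 < u.val < p` for `u ≠ 0`). By
`milnor_key` (lists of length 1) the class of `cl (p n)` depends only on `n` modulo `p` for
`0 < |n| < p`. Relation 1: `milnor_key` with `n = (u b^2).val`, `l = [u.val, b.val, b.val]` and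
`cl (p u b^2) = cl (p u)`. Relation 3: `-1` is represented by the integer `-1`, and
`cl p + cl (-p) = 0` (`cl_neg`). Relation 2: choose the representatives `u_0 = u.val > 0` of `u` and
`v_0 = v.val - p < 0` of `v`, so `0 < |u_0 + v_0| < p` (it is nonzero since `u + v ≠ 0`), then
`cl (p u_0) + cl (p v_0) = cl (p (u_0 + v_0)) + cl (p u_0 v_0 (u_0 + v_0))` by `cl_add` (and
`cl_mul_sq`), and `milnor_key` with `l = [u_0, v_0, u_0 + v_0]`.
-/

open Matrix

namespace SpinWA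

/-- The subgroup generated by the classes of the integers with all prime factors `< p`. -/
def lowW (p : ℕ) : AddSubgroup (WG ℚ) :=
  AddSubgroup.closure {x | ∃ a : ℤ, a ≠ 0 ∧ (∀ q : ℕ, q.Prime → (q : ℤ) ∣ a → q < p) ∧
    x = cl (a : ℚ)}

/-- Nonzero integers with all prime factors `< p`. -/
def rmilkeySm (p : ℕ) (a : ℤ) : Prop := a ≠ 0 ∧ ∀ q : ℕ, q.Prime → (q : ℤ) ∣ a → q < p

theorem rmilkey_small {p : ℕ} {z : ℤ} (h0 : z ≠ 0) (h : |z| < p) : rmilkeySm p z := by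
  refine ⟨h0, fun q _ hq => ?_⟩
  have h1 : (q : ℤ) ∣ |z| := (dvd_abs _ _).2 hq
  have h2 : (q : ℤ) ≤ |z| := Int.le_of_dvd (abs_pos.2 h0) h1
  have h3 : (q : ℤ) < p := h2.trans_lt h
  exact_mod_cast h3

theorem rmilkey_mul {p : ℕ} {a b : ℤ} (ha : rmilkeySm p a) (hb : rmilkeySm p b) :
    rmilkeySm p (a * b) := by
  refine ⟨mul_ne_zero ha.1 hb.1, fun q hq h => ?_⟩
  rcases (Nat.prime_iff_prime_int.1 hq).dvd_or_dvd h with h1 | h1
  · exact ha.2 q hq h1
  · exact hb.2 q hq h1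

theorem rmilkey_unit {p : ℕ} {e : ℤ} (he : e = 1 ∨ e = -1) : rmilkeySm p e := by
  refine ⟨by rcases he with rfl | rfl <;> norm_num, fun q hq h => ?_⟩
  exfalso
  have h1 : (q : ℤ) ∣ 1 := by
    rcases he with rfl | rfl
    · exact h
    · exact (dvd_neg).1 h
  have h2 : q ∣ 1 := by exact_mod_cast h1
  exact hq.one_lt.ne' (Nat.dvd_one.1 h2)

theorem rmilkey_prod {p : ℕ} (l : List ℤ) (hl : ∀ z ∈ l, z ≠ 0 ∧ |z| < p) :
    rmilkeySm p l.prod := by
  induction l with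
  | nil => exact rmilkey_unit (Or.inl rfl)
  | cons a l ih =>
    rw [List.prod_cons]
    have h1 := hl a List.mem_cons_self
    exact rmilkey_mul (rmilkey_small h1.1 h1.2)
      (ih fun z hz => hl z (List.mem_cons_of_mem _ hz))

theorem rmilkey_mem {p : ℕ} {a : ℤ} (ha : rmilkeySm p a) : cl (a : ℚ) ∈ lowW p :=
  AddSubgroup.subset_closure ⟨a, ha.1, ha.2, rfl⟩

/-- The basic relation. -/
theorem rmilkey_rel {p : ℕ} (hp : 0 < p) {a b m y : ℤ} (ha : rmilkeySm p a) (hb : rmilkeySm p b)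
    (hm : rmilkeySm p m) (hy : rmilkeySm p y) (h : a = b + p * m) :
    cl ((p : ℚ) * a * y) - cl ((p : ℚ) * b * y) ∈ lowW p := by
  have hp' : (p : ℚ) ≠ 0 := by exact_mod_cast hp.ne'
  have ha' : (a : ℚ) ≠ 0 := by exact_mod_cast ha.1
  have hb' : (b : ℚ) ≠ 0 := by exact_mod_cast hb.1
  have hm' : (m : ℚ) ≠ 0 := by exact_mod_cast hm.1
  have hy' : (y : ℚ) ≠ 0 := by exact_mod_cast hy.1
  have hq : (a : ℚ) = b + p * m := by exact_mod_cast h
  have e1 : (p : ℚ) * b * y + (m * y) * (p : ℚ) ^ 2 = (p : ℚ) * a * y := by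
    rw [hq]; ring
  have h1 := cl_add (a := (p : ℚ) * b * y) (b := (m * y) * (p : ℚ) ^ 2)
    (mul_ne_zero (mul_ne_zero hp' hb') hy')
    (mul_ne_zero (mul_ne_zero hm' hy') (pow_ne_zero _ hp'))
    (by rw [e1]; exact mul_ne_zero (mul_ne_zero hp' ha') hy')
  rw [e1, cl_mul_sq _ hp'] at h1
  have e2 : (p : ℚ) * b * y * ((m * y) * (p : ℚ) ^ 2) * ((p : ℚ) * a * y) =
      (((b * m * a * y : ℤ) : ℚ)) * ((p : ℚ) ^ 2 * y) ^ 2 := by
    push_cast; ring
  rw [e2, cl_mul_sq _ (mul_ne_zero (pow_ne_zero _ hp') hy')] at h1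
  have e3 : cl ((p : ℚ) * a * y) - cl ((p : ℚ) * b * y) =
      cl (((m * y : ℤ)) : ℚ) - cl (((b * m * a * y : ℤ)) : ℚ) := by
    have e4 : ((m * y : ℤ) : ℚ) = (m : ℚ) * y := by push_cast; ring
    rw [e4, sub_eq_sub_iff_add_eq_add, add_comm (cl ((m : ℚ) * y)), h1]
  rw [e3]
  exact AddSubgroup.sub_mem _ (rmilkey_mem (rmilkey_mul hm hy))
    (rmilkey_mem (rmilkey_mul (rmilkey_mul (rmilkey_mul hb hm) ha) hy))

/-- Lists of length one. -/
theorem rmilkey_one {p : ℕ} (hp : 0 < p) {a b y : ℤ} (ha : a ≠ 0) (ha' : |a| < p) (hb : b ≠ 0)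
    (hb' : |b| < p) (hy : rmilkeySm p y) (h : (p : ℤ) ∣ a - b) :
    cl ((p : ℚ) * a * y) - cl ((p : ℚ) * b * y) ∈ lowW p := by
  obtain ⟨e, he⟩ := h
  have hpz : (0 : ℤ) < p := by exact_mod_cast hp
  rw [abs_lt] at ha' hb'
  have h1 : e < 2 := by
    by_contra h2
    rw [not_lt] at h2
    nlinarith
  have h2 : -2 < e := by
    by_contra h2
    rw [not_lt] at h2
    nlinarith
  by_cases h0 : e = 0
  · rw [h0, mul_zero] at he
    have : a = b := by linarith
    rw [this, sub_self]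
    exact AddSubgroup.zero_mem _
  · have he1 : e = 1 ∨ e = -1 := by omega
    exact rmilkey_rel hp (rmilkey_small ha (abs_lt.2 ha')) (rmilkey_small hb (abs_lt.2 hb'))
      (rmilkey_unit he1) hy (by linarith)

theorem rmilkey_cons {p : ℕ} (hp : p.Prime) (l : List ℤ) :
    ∀ (n₁ n y : ℤ), n₁ ≠ 0 → |n₁| < p → (∀ z ∈ l, z ≠ 0 ∧ |z| < p) → n ≠ 0 → |n| < p →
      rmilkeySm p y → (p : ℤ) ∣ n - n₁ * l.prod →
      cl ((p : ℚ) * n * y) - cl ((p : ℚ) * ((n₁ * l.prod : ℤ) : ℚ) * y) ∈ lowW p := by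
  have hpz : (0 : ℤ) < p := by exact_mod_cast hp.pos
  induction l with
  | nil =>
    intro n₁ n y h1 h2 _ h4 h5 h6 h7
    rw [List.prod_nil, mul_one] at h7 ⊢
    exact rmilkey_one hp.pos h4 h5 h1 h2 h6 h7
  | cons n₂ l ih =>
    intro n₁ n y h1 h2 h3 h4 h5 h6 h7
    have h8 := h3 n₂ List.mem_cons_self
    have h9 : ∀ z ∈ l, z ≠ 0 ∧ |z| < p := fun z hz => h3 z (List.mem_cons_of_mem _ hz)
    have hpi : Prime (p : ℤ) := Nat.prime_iff_prime_int.1 hp
    have hnd : ∀ z : ℤ, z ≠ 0 → |z| < p → ¬ (p : ℤ) ∣ z := by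
      intro z hz hz' hd
      have := Int.le_of_dvd (abs_pos.2 hz) ((dvd_abs _ _).2 hd)
      omega
    have hd12 : ¬ (p : ℤ) ∣ n₁ * n₂ := by
      intro hd
      rcases hpi.dvd_or_dvd hd with hd | hd
      · exact hnd _ h1 h2 hd
      · exact hnd _ h8.1 h8.2 hd
    set n' := (n₁ * n₂) % p with hn'
    set m := (n₁ * n₂) / p with hm
    have hdiv : n₁ * n₂ = n' + p * m := (Int.emod_add_mul_ediv _ _).symm
    have hn0 : 0 ≤ n' := Int.emod_nonneg _ hpz.ne'
    have hn1 : n' < p := Int.emod_lt_of_pos _ hpz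
    have hn'0 : n' ≠ 0 := by
      intro h10
      apply hd12
      rw [hdiv, h10, zero_add]
      exact dvd_mul_right _ _
    have hn'a : |n'| < p := by rwa [abs_of_nonneg hn0]
    have hmb : |m| < p := by
      have h10 : |n₁ * n₂| ≤ (p - 1) * (p - 1) := by
        rw [abs_mul]
        apply mul_le_mul (by omega) (by have := h8.2; omega) (abs_nonneg _) (by omega)
      rw [abs_le] at h10
      rw [abs_lt]
      constructor
      · by_contra h11
        rw [not_lt] at h11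
        nlinarith [h10.1]
      · by_contra h11
        rw [not_lt] at h11
        nlinarith [h10.2]
    have hY : rmilkeySm p (l.prod * y) := rmilkey_mul (rmilkey_prod l h9) h6
    have k1 : cl ((p : ℚ) * ((n₁ * n₂ : ℤ) : ℚ) * ((l.prod * y : ℤ) : ℚ)) -
        cl ((p : ℚ) * n' * ((l.prod * y : ℤ) : ℚ)) ∈ lowW p := by
      by_cases hm0 : m = 0
      · rw [hm0, mul_zero, add_zero] at hdiv
        rw [hdiv, sub_self]
        exact AddSubgroup.zero_mem _
      · exact rmilkey_rel hp.pos (rmilkey_mul (rmilkey_small h1 h2) (rmilkey_small h8.1 h8.2))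
          (rmilkey_small hn'0 hn'a) (rmilkey_small hm0 hmb) hY hdiv
    have k2 := ih n' n y hn'0 hn'a h9 h4 h5 h6 (by
      have e1 : n - n' * l.prod = (n - n₁ * (n₂ :: l).prod) + p * (m * l.prod) := by
        rw [List.prod_cons, ← mul_assoc, hdiv]
        ring
      rw [e1]
      exact dvd_add h7 (dvd_mul_right _ _))
    have e2 : (p : ℚ) * ((n₁ * (n₂ :: l).prod : ℤ) : ℚ) * y =
        (p : ℚ) * ((n₁ * n₂ : ℤ) : ℚ) * ((l.prod * y : ℤ) : ℚ) := by
      rw [List.prod_cons]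
      push_cast
      ring
    have e3 : (p : ℚ) * n' * ((l.prod * y : ℤ) : ℚ) =
        (p : ℚ) * ((n' * l.prod : ℤ) : ℚ) * y := by
      push_cast
      ring
    rw [e3] at k1
    rw [e2]
    have k3 := AddSubgroup.sub_mem _ k2 k1
    have e4 : ∀ A B C : WG ℚ, A - B - (C - B) = A - C := by
      intro A B C; abel
    rw [e4] at k3
    exact k3

theorem milnor_key (p : ℕ) (hp : p.Prime) (h2 : p ≠ 2) (n : ℤ) (hn : n ≠ 0) (hn' : |n| < p)
    (l k : List ℤ) (hl : ∀ z ∈ l, z ≠ 0 ∧ |z| < p) (hk : ∀ z ∈ k, z ≠ 0 ∧ |z| < p)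
    (h : (p : ℤ) ∣ n - l.prod) :
    cl ((p : ℚ) * n * (k.prod : ℤ)) - cl ((p : ℚ) * (l.prod : ℤ) * (k.prod : ℤ)) ∈ lowW p := by
  have hy := rmilkey_prod k hk
  cases l with
  | nil =>
    rw [List.prod_nil] at h ⊢
    have h1 : |(1 : ℤ)| < p := by
      rw [abs_one]
      exact_mod_cast hp.one_lt
    exact rmilkey_one hp.pos hn hn' one_ne_zero h1 hy h
  | cons a l =>
    have h1 := hl a List.mem_cons_self
    rw [List.prod_cons] at h ⊢
    exact rmilkey_cons hp l a n k.prod h1.1 h1.2 (fun z hz => hl z (List.mem_cons_of_mem _ hz))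
      hn hn' hy h

theorem rmilkey_cast_ne {p : ℕ} [Fact p.Prime] {z : ℤ} (hz : z ≠ 0) (hz' : |z| < p) :
    (z : ZMod p) ≠ 0 := by
  intro h
  rw [ZMod.intCast_zmod_eq_zero_iff_dvd] at h
  have := Int.le_of_dvd (abs_pos.2 hz) ((dvd_abs _ _).2 h)
  omega

theorem rmilkey_list (p : ℕ) [Fact p.Prime] (h2 : p ≠ 2) (l : List ℤ)
    (hl : ∀ z ∈ l, z ≠ 0 ∧ |z| < p) (u : ZMod p) (hu : ((l.prod : ℤ) : ZMod p) = u) :
    (QuotientAddGroup.mk (cl ((p : ℚ) * ((l.prod : ℤ) : ℚ))) : WG ℚ ⧸ lowW p) =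
      QuotientAddGroup.mk (cl ((p : ℚ) * ((u.val : ℤ) : ℚ))) := by
  have hp : p.Prime := Fact.out
  have hu0 : u ≠ 0 := by
    rw [← hu]
    clear hu
    induction l with
    | nil =>
      rw [List.prod_nil, Int.cast_one]
      exact one_ne_zero
    | cons a l ih =>
      rw [List.prod_cons, Int.cast_mul]
      have h1 := hl a List.mem_cons_self
      exact mul_ne_zero (rmilkey_cast_ne h1.1 h1.2)
        (ih fun z hz => hl z (List.mem_cons_of_mem _ hz))
  have hv0 : ((u.val : ℕ) : ℤ) ≠ 0 := by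
    intro h
    have h3 : u.val = 0 := by exact_mod_cast h
    exact hu0 ((ZMod.val_eq_zero u).1 h3)
  have hv1 : |((u.val : ℕ) : ℤ)| < p := by
    rw [Nat.abs_cast]
    exact_mod_cast ZMod.val_lt u
  have hd : (p : ℤ) ∣ ((u.val : ℕ) : ℤ) - l.prod := by
    rw [← ZMod.intCast_zmod_eq_zero_iff_dvd, Int.cast_sub, hu, Int.cast_natCast,
      ZMod.natCast_zmod_val, sub_self]
  have h3 := milnor_key p hp h2 ((u.val : ℕ) : ℤ) hv0 hv1 l [] hl (by simp) hd
  rw [List.prod_nil, Int.cast_one, mul_one, mul_one] at h3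
  rw [QuotientAddGroup.eq]
  rw [neg_add_eq_sub]
  exact h3

theorem milnor_sec (p : ℕ) [Fact p.Prime] (h2 : p ≠ 2) :
    ∃ s : WG (ZMod p) →+ (WG ℚ ⧸ lowW p), ∀ n : ℤ, n ≠ 0 → |n| < p →
      s (cl (n : ZMod p)) = QuotientAddGroup.mk (cl ((p : ℚ) * n)) := by
  have hp : p.Prime := Fact.out
  have hp0 : (p : ℚ) ≠ 0 := by exact_mod_cast hp.ne_zero
  have hpz : (1 : ℤ) < p := by exact_mod_cast hp.one_lt
  have hv : ∀ u : ZMod p, u ≠ 0 → ((u.val : ℕ) : ℤ) ≠ 0 ∧ |((u.val : ℕ) : ℤ)| < p ∧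
      0 < ((u.val : ℕ) : ℤ) ∧ ((u.val : ℕ) : ℤ) < p := by
    intro u hu
    have h1 : ((u.val : ℕ) : ℤ) ≠ 0 := by
      intro h
      have h3 : u.val = 0 := by exact_mod_cast h
      exact hu ((ZMod.val_eq_zero u).1 h3)
    have h3 : ((u.val : ℕ) : ℤ) < p := by exact_mod_cast ZMod.val_lt u
    refine ⟨h1, ?_, by omega, h3⟩
    rw [Nat.abs_cast]
    exact h3
  have hcast : ∀ u : ZMod p, (((u.val : ℕ) : ℤ) : ZMod p) = u := by
    intro u
    rw [Int.cast_natCast, ZMod.natCast_zmod_val]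
  set f : ZMod p → WG ℚ ⧸ lowW p := fun u =>
    QuotientAddGroup.mk (cl ((p : ℚ) * ((u.val : ℤ) : ℚ))) with hf
  have key : ∀ (l : List ℤ) (u : ZMod p), (∀ z ∈ l, z ≠ 0 ∧ |z| < p) →
      ((l.prod : ℤ) : ZMod p) = u →
      f u = QuotientAddGroup.mk (cl ((p : ℚ) * ((l.prod : ℤ) : ℚ))) :=
    fun l u hl hu => (rmilkey_list p h2 l hl u hu).symm
  have key1 : ∀ (z : ℤ) (u : ZMod p), z ≠ 0 → |z| < p → (z : ZMod p) = u →
      f u = QuotientAddGroup.mk (cl ((p : ℚ) * (z : ℚ))) := by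
    intro z u hz hz' hu
    have h3 := key [z] u (by
      intro w hw
      rw [List.mem_singleton] at hw
      rw [hw]
      exact ⟨hz, hz'⟩) (by rw [List.prod_singleton]; exact hu)
    rwa [List.prod_singleton] at h3
  have f1 : ∀ a b : ZMod p, a ≠ 0 → b ≠ 0 → f (a * b ^ 2) = f a := by
    intro a b ha hb
    obtain ⟨a1, a2, a3, a4⟩ := hv a ha
    obtain ⟨b1, b2, b3, b4⟩ := hv b hb
    have h3 := key [((a.val : ℕ) : ℤ), ((b.val : ℕ) : ℤ), ((b.val : ℕ) : ℤ)] (a * b ^ 2) (by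
      intro w hw
      simp only [List.mem_cons, List.not_mem_nil, or_false] at hw
      rcases hw with rfl | rfl | rfl
      · exact ⟨a1, a2⟩
      · exact ⟨b1, b2⟩
      · exact ⟨b1, b2⟩) (by
      rw [List.prod_cons, List.prod_cons, List.prod_singleton, Int.cast_mul, Int.cast_mul,
        hcast, hcast]
      ring)
    rw [h3, List.prod_cons, List.prod_cons, List.prod_singleton]
    have e1 : (p : ℚ) * (((((a.val : ℕ) : ℤ) * (((b.val : ℕ) : ℤ) * ((b.val : ℕ) : ℤ)) : ℤ)) : ℚ) =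
        (p : ℚ) * (((a.val : ℕ) : ℤ) : ℚ) * ((((b.val : ℕ) : ℤ)) : ℚ) ^ 2 := by
      push_cast
      ring
    have b5 : ((((b.val : ℕ) : ℤ)) : ℚ) ≠ 0 := by exact_mod_cast b1
    rw [e1, cl_mul_sq _ b5]
  have f2 : ∀ a b : ZMod p, a ≠ 0 → b ≠ 0 → a + b ≠ 0 →
      f a + f b = f (a + b) + f (a * b * (a + b)) := by
    intro a b ha hb hab
    obtain ⟨a1, a2, a3, a4⟩ := hv a ha
    obtain ⟨b1, b2, b3, b4⟩ := hv b hb
    obtain ⟨u, hu⟩ : ∃ u : ℤ, u = ((a.val : ℕ) : ℤ) := ⟨_, rfl⟩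
    obtain ⟨v, hv'⟩ : ∃ v : ℤ, v = ((b.val : ℕ) : ℤ) - p := ⟨_, rfl⟩
    have cu : (u : ZMod p) = a := by rw [hu]; exact hcast a
    have cv : (v : ZMod p) = b := by
      rw [hv', Int.cast_sub, hcast, Int.cast_natCast, ZMod.natCast_self, sub_zero]
    have u0 : u ≠ 0 := by omega
    have v0 : v ≠ 0 := by omega
    have u1 : |u| < p := by rw [abs_lt]; constructor <;> omega
    have v1 : |v| < p := by rw [abs_lt]; constructor <;> omega
    have w0 : u + v ≠ 0 := by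
      intro h
      apply hab
      rw [← cu, ← cv, ← Int.cast_add, h, Int.cast_zero]
    have w1 : |u + v| < p := by rw [abs_lt]; constructor <;> omega
    have g1 := key1 u a u0 u1 cu
    have g2 := key1 v b v0 v1 cv
    have g3 := key1 (u + v) (a + b) w0 w1 (by rw [Int.cast_add, cu, cv])
    have g4 := key [u, v, u + v] (a * b * (a + b)) (by
      intro w hw
      simp only [List.mem_cons, List.not_mem_nil, or_false] at hw
      rcases hw with rfl | rfl | rfl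
      · exact ⟨u0, u1⟩
      · exact ⟨v0, v1⟩
      · exact ⟨w0, w1⟩) (by
      rw [List.prod_cons, List.prod_cons, List.prod_singleton, Int.cast_mul, Int.cast_mul,
        Int.cast_add, cu, cv]
      ring)
    rw [g1, g2, g3, g4, List.prod_cons, List.prod_cons, List.prod_singleton,
      ← QuotientAddGroup.mk_add, ← QuotientAddGroup.mk_add]
    congr 1
    have uq : (u : ℚ) ≠ 0 := by exact_mod_cast u0
    have vq : (v : ℚ) ≠ 0 := by exact_mod_cast v0
    have wq : ((u + v : ℤ) : ℚ) ≠ 0 := by exact_mod_cast w0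
    have e1 : (p : ℚ) * u + (p : ℚ) * v = (p : ℚ) * ((u + v : ℤ) : ℚ) := by
      push_cast; ring
    have h3 := cl_add (a := (p : ℚ) * u) (b := (p : ℚ) * v) (mul_ne_zero hp0 uq)
      (mul_ne_zero hp0 vq) (by rw [e1]; exact mul_ne_zero hp0 wq)
    rw [h3, e1]
    congr 1
    have e2 : (p : ℚ) * u * ((p : ℚ) * v) * ((p : ℚ) * ((u + v : ℤ) : ℚ)) =
        (p : ℚ) * ((u * (v * (u + v)) : ℤ) : ℚ) * (p : ℚ) ^ 2 := by
      push_cast; ring
    rw [e2, cl_mul_sq _ hp0]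
  have f3 : f 1 + f (-1) = 0 := by
    have g1 := key1 1 1 one_ne_zero (by rw [abs_one]; exact hpz) (by rw [Int.cast_one])
    have g2 := key1 (-1) (-1) (by norm_num) (by rw [abs_neg, abs_one]; exact hpz)
      (by rw [Int.cast_neg, Int.cast_one])
    rw [g1, g2, ← QuotientAddGroup.mk_add]
    have e1 : (p : ℚ) * ((-1 : ℤ) : ℚ) = -((p : ℚ) * ((1 : ℤ) : ℚ)) := by
      push_cast; ring
    rw [e1, cl_neg two_ne_zero, QuotientAddGroup.mk_zero]
  refine ⟨WG.lift f f1 f2 f3, fun n hn hn' => ?_⟩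
  rw [WG.lift_cl f f1 f2 f3 (rmilkey_cast_ne hn hn')]
  exact key1 n (n : ZMod p) hn hn' rfl

end SpinWA
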