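import Pool.Agent.H.MP_83e36b_nt.sp.WDef
import Pool.Agent.H.MP_83e36b_nt.sp.PDefs
import Pool.Agent.H.MP_83e36b_nt.sp.RUnit

/-!
# The residue homomorphism

PROOF. `WG.lift` with the function `a ↦ if Even a.valuation then 0 else cl (unitMod p a)`.
Relation 1: `valuation (a b^2)` has the same parity,
`unitMod p (a b^2) = unitMod p a * (unitMod p b)^2`, `cl_mul_sq`. Relation 2, `i = v a`, `j = v b`:
if `i < j` then `a + b` has valuation `i` and `unitMod p (a+b) = unitMod p a`
(`valuation_add_lt`), and `a b (a+b)` has valuation `2 i + j` and `unitMod` equal to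
`(unitMod a)^2 unitMod b`: both sides equal. Symmetric for `j < i`. If `i = j` and
`unitMod a + unitMod b ≠ 0` (`valuation_add_eq`): `i` even: `a b (a+b)` has valuation `3 i`: all
terms 0; `i` odd: this is `cl_add` in `ZMod p`. If `i = j` and `unitMod a + unitMod b = 0`: let
`k` be the valuation of `a + b` and `w` its unit part; `a b (a+b)` has valuation `2 i + k` and unit
part `u (-u) w`: the right hand side is `cl w + cl (-u^2 w) = cl w + cl (-w) = 0` or `0 + 0`
(`cl_neg`, `2 ≠ 0` in `ZMod p`), the left hand side is `cl u + cl (-u) = 0` or `0`. Relation 3: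
valuations of `1`, `-1` are 0.
-/

open Matrix

namespace SpinWA

private theorem rres_neg (p : ℕ) [Fact p.Prime] : ((-1 : ℚ_[p])).valuation = 0 := by
  have h : ((-1 : ℚ_[p])).valuation + ((-1 : ℚ_[p])).valuation = 0 := by
    rw [← Padic.valuation_mul (by norm_num) (by norm_num)]
    norm_num
  omega

/-- The value on the generators. -/
private noncomputable def rresF (p : ℕ) [Fact p.Prime] (a : ℚ_[p]) : WG (ZMod p) :=
  open Classical in if Even a.valuation then 0 else cl (unitMod p a)

private theorem rresF_even (p : ℕ) [Fact p.Prime] {a : ℚ_[p]} (h : Even a.valuation) :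
    rresF p a = 0 := by
  unfold rresF
  rw [if_pos h]

private theorem rresF_odd (p : ℕ) [Fact p.Prime] {a : ℚ_[p]} (h : ¬ Even a.valuation) :
    rresF p a = cl (unitMod p a) := by
  unfold rresF
  rw [if_neg h]

private theorem rresF_congr (p : ℕ) [Fact p.Prime] {a b : ℚ_[p]}
    (h : Even a.valuation ↔ Even b.valuation) (h' : cl (unitMod p a) = cl (unitMod p b)) :
    rresF p a = rresF p b := by
  by_cases h1 : Even a.valuation
  · rw [rresF_even p h1, rresF_even p (h.1 h1)]
  · rw [rresF_odd p h1, rresF_odd p (fun h2 => h1 (h.2 h2)), h']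

private theorem rresF_lt (p : ℕ) [Fact p.Prime] {a b : ℚ_[p]} (ha : a ≠ 0) (hb : b ≠ 0)
    (hab : a + b ≠ 0) (h : a.valuation < b.valuation) :
    rresF p a + rresF p b = rresF p (a + b) + rresF p (a * b * (a + b)) := by
  obtain ⟨h1, h2⟩ := valuation_add_lt p ha hb h
  have e1 : rresF p a = rresF p (a + b) := rresF_congr p (by rw [h1]) (by rw [h2])
  have e2 : rresF p b = rresF p (a * b * (a + b)) := by
    apply rresF_congr p
    · rw [Padic.valuation_mul (mul_ne_zero ha hb) hab, Padic.valuation_mul ha hb, h1]
      constructor <;> intro h3 <;> · rw [Int.even_iff] at *; omega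
    · rw [unitMod_mul p (mul_ne_zero ha hb) hab, unitMod_mul p ha hb, h2]
      have h4 : unitMod p a * unitMod p b * unitMod p a = unitMod p b * unitMod p a ^ 2 := by ring
      rw [h4, cl_mul_sq _ (unitMod_ne_zero p ha)]
  rw [e1, e2]

private theorem rresF_add (p : ℕ) [Fact p.Prime] (hp : p ≠ 2) {a b : ℚ_[p]} (ha : a ≠ 0)
    (hb : b ≠ 0) (hab : a + b ≠ 0) :
    rresF p a + rresF p b = rresF p (a + b) + rresF p (a * b * (a + b)) := by
  have hp2 : (2 : ZMod p) ≠ 0 := by
    intro h
    have h1 : ((2 : ℕ) : ZMod p) = 0 := by exact_mod_cast h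
    rw [ZMod.natCast_eq_zero_iff] at h1
    exact hp ((Nat.prime_dvd_prime_iff_eq (Fact.out : p.Prime) Nat.prime_two).1 h1)
  rcases lt_trichotomy a.valuation b.valuation with h | h | h
  · exact rresF_lt p ha hb hab h
  · have hv : (a * b * (a + b)).valuation = a.valuation + b.valuation + (a + b).valuation := by
      rw [Padic.valuation_mul (mul_ne_zero ha hb) hab, Padic.valuation_mul ha hb]
    have hu : unitMod p (a * b * (a + b)) = unitMod p a * unitMod p b * unitMod p (a + b) := by
      rw [unitMod_mul p (mul_ne_zero ha hb) hab, unitMod_mul p ha hb]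
    by_cases hs : unitMod p a + unitMod p b = 0
    · have hb' : unitMod p b = - unitMod p a := by linear_combination hs
      have e1 : rresF p a + rresF p b = 0 := by
        by_cases h1 : Even a.valuation
        · rw [rresF_even p h1, rresF_even p (h ▸ h1), add_zero]
        · rw [rresF_odd p h1, rresF_odd p (h ▸ h1), hb']
          exact cl_neg hp2 _
      have e2 : rresF p (a + b) + rresF p (a * b * (a + b)) = 0 := by
        by_cases h1 : Even (a + b).valuation
        · rw [rresF_even p h1, rresF_even p, add_zero]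
          rw [hv, h, Int.even_iff] at *
          omega
        · rw [rresF_odd p h1, rresF_odd p, hu, hb']
          · have h4 : unitMod p a * -unitMod p a * unitMod p (a + b) =
                -unitMod p (a + b) * unitMod p a ^ 2 := by ring
            rw [h4, cl_mul_sq _ (unitMod_ne_zero p ha)]
            exact cl_neg hp2 _
          · rw [hv, h, Int.even_iff] at *
            omega
      rw [e1, e2]
    · obtain ⟨h1, h2⟩ := valuation_add_eq p ha hb h hs
      by_cases h3 : Even a.valuation
      · rw [rresF_even p h3, rresF_even p (h ▸ h3), rresF_even p (h1 ▸ h3), rresF_even p]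
        rw [hv, h1, ← h, Int.even_iff] at *
        omega
      · rw [rresF_odd p h3, rresF_odd p (h ▸ h3), rresF_odd p (h1 ▸ h3), rresF_odd p, hu, h2]
        · exact cl_add (unitMod_ne_zero p ha) (unitMod_ne_zero p hb) hs
        · rw [hv, h1, ← h, Int.even_iff] at *
          omega
  · have h1 := rresF_lt p hb ha (by rwa [add_comm]) h
    rw [add_comm (rresF p a), h1, add_comm b a, mul_comm b a]

theorem exists_res (p : ℕ) [Fact p.Prime] (hp : p ≠ 2) :
    ∃ f : WG ℚ_[p] →+ WG (ZMod p), ∀ a : ℚ_[p], a ≠ 0 →
      f (cl a) = open Classical in if Even a.valuation then 0 else cl (unitMod p a) := by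
  refine ⟨WG.lift (rresF p) ?_ ?_ ?_, ?_⟩
  · intro a b ha hb
    apply rresF_congr p
    · rw [Padic.valuation_mul ha (pow_ne_zero 2 hb), pow_two, Padic.valuation_mul hb hb]
      constructor <;> intro h3 <;> · rw [Int.even_iff] at *; omega
    · rw [unitMod_mul p ha (pow_ne_zero 2 hb), pow_two, unitMod_mul p hb hb, ← pow_two,
        cl_mul_sq _ (unitMod_ne_zero p hb)]
  · intro a b ha hb hab
    exact rresF_add p hp ha hb hab
  · rw [rresF_even p, rresF_even p, add_zero]
    · rw [rres_neg]; exact Even.zero
    · rw [Padic.valuation_one]; exact Even.zero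
  · intro a ha
    exact WG.lift_cl (rresF p) _ _ _ ha

/-- The residue homomorphism at an odd prime (`0` if `p = 2`). -/
noncomputable def resW (p : ℕ) [Fact p.Prime] : WG ℚ_[p] →+ WG (ZMod p) :=
  open Classical in if hp : p ≠ 2 then (exists_res p hp).choose else 0

theorem resW_cl {p : ℕ} [Fact p.Prime] (hp : p ≠ 2) {a : ℚ_[p]} (ha : a ≠ 0) :
    resW p (cl a) = open Classical in if Even a.valuation then 0 else cl (unitMod p a) := by
  unfold resW
  rw [dif_pos hp]
  exact (exists_res p hp).choose_spec a ha

theorem resW_two (x : WG ℚ_[2]) : resW 2 x = 0 := by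
  unfold resW
  rw [dif_neg (by simp)]
  rfl

end SpinWA
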