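import Pool.Agent.H.MP_83e36b_nt.sp.RSgn
import Pool.Agent.H.MP_83e36b_nt.sp.RRes
import Pool.Agent.H.MP_83e36b_nt.sp.RMilKey

/-!
# Milnor's theorem: the Witt group of the rational numbers

PROOF. `milnor_step`: let `s` be as in `milnor_sec`. The two homomorphisms
`s ∘ resW p ∘ WG.map` and the quotient map agree on `lowW (p + 1)`: check on generators `cl a`, all
prime factors of `a` `≤ p`: modulo squares (`cl_mul_sq`) `a = a'` or `a = p a'` with `a'` an integer
all of whose prime factors are `< p` (so `a'` is a product of `±1` and of primes `< p`, i.e. the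
product of a list `l` as in `milnor_key`). For `a = a'` the residue is 0 (valuation 0) and the class
of `cl a'` in the quotient is zero. For `a = p a'` the residue is `cl (a' mod p)`, choose the
integer `n`, `0 < n < p`, `n ≡ a'`; `s (cl n) = class of cl (p n) = class of cl (p a')` by
`milnor_key` with `k = []`. So `resW p x = 0` implies that the class of `x` is zero, `x ∈ lowW p`.
`milnor`: every `x` lies in some `lowW N` (`WG.induction`; for `cl a` write `a = b / c`,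
`cl a = cl (b c)`; `lowW` is monotone). Go down from `N` to `3`: `lowW (q + 1) = lowW q` if `q` is not
prime, and `milnor_step` for `q` an odd prime. So `x ∈ lowW 3`, generated by the `cl a`,
`a = ± 2^i`, i.e. by `cl (±1)`, `cl (±2)`, so `x = i • cl 1 + j • cl 2` (`cl (-a) = - cl a` by
`cl_neg`). `2 • cl 1 = 2 • cl 2` (`cl_add` with `a = b = 1`: `cl 1 + cl 1 = cl 2 + cl 2`).
`sgnW`: `i + j = 0`; `v2W`: `j` even. So `x = j • (cl 2 - cl 1) = (j/2) • (2 • cl 2 - 2 • cl 1) = 0`.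
-/

open Matrix

namespace SpinWA

theorem rmilnor_cl_pow (p : ℚ) (hp : p ≠ 0) (b : ℚ) (k : ℕ) :
    cl (p ^ k * b) = if Even k then cl b else cl (p * b) := by
  split_ifs with h
  · obtain ⟨m, rfl⟩ := h
    have : p ^ (m + m) * b = b * (p ^ m) ^ 2 := by ring
    rw [this, cl_mul_sq _ (pow_ne_zero m hp)]
  · rw [Nat.not_even_iff_odd] at h
    obtain ⟨m, rfl⟩ := h
    have : p ^ (2 * m + 1) * b = p * b * (p ^ m) ^ 2 := by ring
    rw [this, cl_mul_sq _ (pow_ne_zero m hp)]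

theorem rmilnor_list (p : ℕ) (hp : 1 < p) (b : ℤ) (hb : b ≠ 0)
    (hq : ∀ q : ℕ, q.Prime → (q : ℤ) ∣ b → q < p) :
    ∃ l : List ℤ, (∀ z ∈ l, z ≠ 0 ∧ |z| < p) ∧ l.prod = b := by
  have hb' : b.natAbs ≠ 0 := Int.natAbs_ne_zero.2 hb
  refine ⟨b.sign :: (b.natAbs.primeFactorsList.map fun q : ℕ => (q : ℤ)), ?_, ?_⟩
  · intro z hz
    rw [List.mem_cons] at hz
    rcases hz with rfl | hz
    · have h7 : b.sign = 1 ∨ b.sign = -1 := by
        rcases lt_or_gt_of_ne hb with h8 | h8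
        · exact Or.inr (Int.sign_eq_neg_one_of_neg h8)
        · exact Or.inl (Int.sign_eq_one_of_pos h8)
      have hp' : (1 : ℤ) < p := by exact_mod_cast hp
      rcases h7 with h7 | h7
      · rw [h7]
        exact ⟨one_ne_zero, by rwa [abs_one]⟩
      · rw [h7]
        exact ⟨by norm_num, by rwa [abs_neg, abs_one]⟩
    · obtain ⟨q, hq1, rfl⟩ := List.mem_map.1 hz
      have hq2 := Nat.prime_of_mem_primeFactorsList hq1
      have hq3 := Nat.dvd_of_mem_primeFactorsList hq1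
      refine ⟨by exact_mod_cast hq2.ne_zero, ?_⟩
      rw [Nat.abs_cast]
      exact_mod_cast hq q hq2 (Int.natCast_dvd.2 hq3)
  · rw [List.prod_cons]
    have h1 : (b.natAbs.primeFactorsList.map fun q : ℕ => (q : ℤ)).prod = (b.natAbs : ℤ) := by
      have h2 := Nat.prod_primeFactorsList hb'
      conv_rhs => rw [← h2]
      rw [Nat.cast_list_prod]
    rw [h1]
    exact Int.sign_mul_natAbs b

theorem rmilnor_pow (p : ℕ) (hp : 1 < p) (a : ℤ) (ha : a ≠ 0) :
    ∃ (k : ℕ) (b : ℤ), a = (p : ℤ) ^ k * b ∧ ¬ (p : ℤ) ∣ b := by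
  have hfin : FiniteMultiplicity (p : ℤ) a := by
    rw [Int.finiteMultiplicity_iff]
    refine ⟨?_, ha⟩
    rw [Int.natAbs_natCast]
    omega
  obtain ⟨b, hb⟩ := hfin.exists_eq_pow_mul_and_not_dvd
  exact ⟨_, b, hb.1, hb.2⟩

theorem rmilnor_gen (p : ℕ) [Fact p.Prime] (h2 : p ≠ 2) (s : WG (ZMod p) →+ (WG ℚ ⧸ lowW p))
    (hs : ∀ n : ℤ, n ≠ 0 → |n| < p →
      s (cl (n : ZMod p)) = QuotientAddGroup.mk (cl ((p : ℚ) * n)))
    (a : ℤ) (ha : a ≠ 0) (hq : ∀ q : ℕ, q.Prime → (q : ℤ) ∣ a → q < p + 1) :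
    s (resW p (WG.map (Rat.castHom ℚ_[p]) (cl (a : ℚ)))) = QuotientAddGroup.mk (cl (a : ℚ)) := by
  have hpp : p.Prime := Fact.out
  have hp1 : 1 < p := hpp.one_lt
  obtain ⟨k, b, hab, hb⟩ := rmilnor_pow p hp1 a ha
  have hb0 : b ≠ 0 := by
    rintro rfl
    exact hb (dvd_zero _)
  have hqb : ∀ q : ℕ, q.Prime → (q : ℤ) ∣ b → q < p := by
    intro q hq1 hq2
    have h3 := hq q hq1 (by rw [hab]; exact hq2.mul_left _)
    rcases Nat.lt_or_ge q p with h4 | h4
    · exact h4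
    · have h5 : q = p := by omega
      rw [h5] at hq2
      exact absurd hq2 hb
  have hpq : (p : ℚ) ≠ 0 := by exact_mod_cast hpp.ne_zero
  have hpp' : (p : ℚ_[p]) ≠ 0 := by exact_mod_cast hpp.ne_zero
  have hu : IsUnit (b : ℤ_[p]) := by
    rw [PadicInt.isUnit_iff]
    rcases lt_or_eq_of_le (PadicInt.norm_le_one (b : ℤ_[p])) with h4 | h4
    · exact absurd ((PadicInt.norm_int_lt_one_iff_dvd b).1 h4) hb
    · exact h4
  have hcast : (((a : ℤ) : ℚ_[p])) = (p : ℚ_[p]) ^ (k : ℤ) * ((b : ℤ_[p]) : ℚ_[p]) := by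
    rw [hab, zpow_natCast]
    push_cast
    rfl
  have ha' : ((a : ℤ) : ℚ_[p]) ≠ 0 := by exact_mod_cast ha
  have hval : ((a : ℤ) : ℚ_[p]).valuation = (k : ℤ) := by
    rw [hcast]
    exact valuation_pow_mul p k _ hu
  have hunit : unitMod p ((a : ℤ) : ℚ_[p]) = ((b : ℤ) : ZMod p) := by
    rw [hcast, unitMod_pow_mul p k _ hu, map_intCast]
  have hres : resW p (WG.map (Rat.castHom ℚ_[p]) (cl (a : ℚ))) =
      if Even k then 0 else cl ((b : ℤ) : ZMod p) := by
    rw [WG.map_cl, map_intCast, resW_cl h2 ha', hval, hunit]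
    by_cases hk : Even k
    · rw [if_pos hk, if_pos ((Int.even_coe_nat k).2 hk)]
    · rw [if_neg hk, if_neg (fun h => hk ((Int.even_coe_nat k).1 h))]
  have hcl : cl (a : ℚ) = if Even k then cl (b : ℚ) else cl ((p : ℚ) * b) := by
    have : (a : ℚ) = (p : ℚ) ^ k * b := by
      rw [hab]
      push_cast
      rfl
    rw [this, rmilnor_cl_pow _ hpq]
  rw [hres, hcl]
  by_cases hk : Even k
  · rw [if_pos hk, if_pos hk, map_zero]
    symm
    rw [QuotientAddGroup.eq_zero_iff]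
    exact AddSubgroup.subset_closure ⟨b, hb0, hqb, rfl⟩
  · rw [if_neg hk, if_neg hk]
    obtain ⟨l, hl, hlb⟩ := rmilnor_list p hp1 b hb0 hqb
    have hn0 : b % (p : ℤ) ≠ 0 := fun h => hb (Int.dvd_of_emod_eq_zero h)
    have hppos : (0 : ℤ) < p := by exact_mod_cast hpp.pos
    have hn1 : 0 ≤ b % (p : ℤ) := Int.emod_nonneg _ hppos.ne'
    have hn2 : b % (p : ℤ) < p := Int.emod_lt_of_pos _ hppos
    have hn3 : |b % (p : ℤ)| < p := by rwa [abs_of_nonneg hn1]
    have hdvd : (p : ℤ) ∣ b % (p : ℤ) - b := by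
      have h5 := Int.emod_add_mul_ediv b p
      refine ⟨-(b / p), ?_⟩
      linear_combination h5
    have h4 := milnor_key p hpp h2 (b % (p : ℤ)) hn0 hn3 l [] hl (by simp) (by rw [hlb]; exact hdvd)
    have hz : ((b : ℤ) : ZMod p) = ((b % (p : ℤ) : ℤ) : ZMod p) := by
      rw [← sub_eq_zero, ← Int.cast_sub, ZMod.intCast_zmod_eq_zero_iff_dvd]
      rw [← dvd_neg, neg_sub]
      exact hdvd
    rw [hz, hs _ hn0 hn3, QuotientAddGroup.eq]
    rw [hlb, List.prod_nil, Int.cast_one, mul_one, mul_one] at h4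
    have h5 := (lowW p).neg_mem h4
    rw [neg_sub, sub_eq_neg_add] at h5
    exact h5

theorem rmilnor_mono {m n : ℕ} (h : m ≤ n) : lowW m ≤ lowW n := by
  apply AddSubgroup.closure_mono
  rintro x ⟨a, ha, hq, rfl⟩
  exact ⟨a, ha, fun q h1 h2 => (hq q h1 h2).trans_le h, rfl⟩

theorem rmilnor_exists (x : WG ℚ) : ∃ n, x ∈ lowW n := by
  refine WG.induction (p := fun x => ∃ n, x ∈ lowW n) x ⟨0, zero_mem _⟩ ?_ ?_ ?_
  · intro a ha
    have hn : a.num * (a.den : ℤ) ≠ 0 :=
      mul_ne_zero (Rat.num_ne_zero.2 ha) (by exact_mod_cast a.den_nz)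
    refine ⟨(a.num * (a.den : ℤ)).natAbs + 1, AddSubgroup.subset_closure
      ⟨a.num * (a.den : ℤ), hn, ?_, ?_⟩⟩
    · intro q _ hq
      have h1 := Nat.le_of_dvd (Nat.pos_of_ne_zero (Int.natAbs_ne_zero.2 hn))
        (Int.natCast_dvd.1 hq)
      omega
    · have hd : (a.den : ℚ) ≠ 0 := by exact_mod_cast a.den_nz
      have h1 : ((a.num * (a.den : ℤ) : ℤ) : ℚ) = a * (a.den : ℚ) ^ 2 := by
        push_cast
        have h2 := Rat.mul_den_eq_num a
        rw [← h2]
        ring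
      rw [h1, cl_mul_sq _ hd]
  · rintro y ⟨n, hn⟩
    exact ⟨n, neg_mem hn⟩
  · rintro y z ⟨m, hm⟩ ⟨n, hn⟩
    exact ⟨max m n, add_mem (rmilnor_mono (le_max_left _ _) hm)
      (rmilnor_mono (le_max_right _ _) hn)⟩

theorem rmilnor_three {x : WG ℚ} (hx : x ∈ lowW 3) :
    x ∈ AddSubgroup.closure {cl (1 : ℚ), cl (2 : ℚ)} := by
  have h2q : (2 : ℚ) ≠ 0 := by norm_num
  have m1 : cl (1 : ℚ) ∈ AddSubgroup.closure {cl (1 : ℚ), cl (2 : ℚ)} :=
    AddSubgroup.subset_closure (by simp)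
  have m2 : cl (2 : ℚ) ∈ AddSubgroup.closure {cl (1 : ℚ), cl (2 : ℚ)} :=
    AddSubgroup.subset_closure (by simp)
  refine (AddSubgroup.closure_le _).2 ?_ hx
  rintro y ⟨a, ha, hq, rfl⟩
  obtain ⟨k, b, hab, hb⟩ := rmilnor_pow 2 (by norm_num) a ha
  have hb1 : b = 1 ∨ b = -1 := by
    have h3 : b.natAbs = 1 := by
      by_contra h4
      obtain ⟨q, hq1, hq2⟩ := Nat.exists_prime_and_dvd h4
      have hq3 : (q : ℤ) ∣ b := Int.natCast_dvd.2 hq2
      have h5 := hq q hq1 (by rw [hab]; exact hq3.mul_left _)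
      have h6 := hq1.two_le
      have h7 : q = 2 := by omega
      rw [h7] at hq3
      exact hb hq3
    omega
  have hcl : cl (a : ℚ) = if Even k then cl (b : ℚ) else cl ((2 : ℚ) * b) := by
    have : (a : ℚ) = (2 : ℚ) ^ k * b := by
      rw [hab]
      push_cast
      rfl
    rw [this, rmilnor_cl_pow _ h2q]
  have n1 : cl (-1 : ℚ) = - cl (1 : ℚ) := eq_neg_of_add_eq_zero_right (cl_neg h2q 1)
  have n2 : cl (-2 : ℚ) = - cl (2 : ℚ) := eq_neg_of_add_eq_zero_right (cl_neg h2q 2)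
  rw [hcl]
  rcases hb1 with rfl | rfl
  · split_ifs
    · simpa using m1
    · simpa using m2
  · split_ifs
    · have : (((-1 : ℤ)) : ℚ) = -1 := by norm_num
      rw [this, n1]
      exact neg_mem m1
    · have : (2 : ℚ) * (((-1 : ℤ)) : ℚ) = -2 := by norm_num
      rw [this, n2]
      exact neg_mem m2

theorem milnor_step (p : ℕ) [Fact p.Prime] (h2 : p ≠ 2) {x : WG ℚ} (hx : x ∈ lowW (p + 1))
    (h : resW p (WG.map (Rat.castHom ℚ_[p]) x) = 0) : x ∈ lowW p := by
  obtain ⟨s, hs⟩ := milnor_sec p h2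
  have key : ∀ y ∈ lowW (p + 1),
      s (resW p (WG.map (Rat.castHom ℚ_[p]) y)) = QuotientAddGroup.mk y := by
    intro y hy
    refine AddSubgroup.closure_induction (p := fun y _ =>
      s (resW p (WG.map (Rat.castHom ℚ_[p]) y)) = QuotientAddGroup.mk y) ?_ ?_ ?_ ?_ hy
    · rintro z ⟨a, ha, hq, rfl⟩
      exact rmilnor_gen p h2 s hs a ha hq
    · rw [map_zero, map_zero, map_zero]
      rfl
    · intro u v _ _ hu hv
      rw [map_add, map_add, map_add, hu, hv]
      rfl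
    · intro u _ hu
      rw [map_neg, map_neg, map_neg, hu]
      rfl
  have h1 := key x hx
  rw [h, map_zero] at h1
  exact (QuotientAddGroup.eq_zero_iff x).1 h1.symm

/-- An element of the Witt group of `ℚ` with signature zero, vanishing residues at the odd primes
and even 2-adic valuation of the discriminant is zero. -/
theorem milnor (x : WG ℚ) (h0 : sgnW (WG.map (Rat.castHom ℝ) x) = 0) (h2 : v2W x = 0)
    (hp : ∀ p : Nat.Primes, (p : ℕ) ≠ 2 →
      resW (p : ℕ) (WG.map (Rat.castHom ℚ_[(p : ℕ)]) x) = 0) : x = 0 := by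
  obtain ⟨n, hn⟩ := rmilnor_exists x
  have hdown : ∀ m : ℕ, x ∈ lowW (3 + m) → x ∈ lowW 3 := by
    intro m
    induction m with
    | zero => exact fun h => h
    | succ m ih =>
      intro h
      apply ih
      by_cases hq : (3 + m).Prime
      · haveI : Fact (3 + m).Prime := ⟨hq⟩
        exact milnor_step (3 + m) (by omega) h (hp ⟨3 + m, hq⟩ (by show 3 + m ≠ 2; omega))
      · have hle : lowW (3 + (m + 1)) ≤ lowW (3 + m) := by
          apply AddSubgroup.closure_mono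
          rintro y ⟨a, ha, hq', rfl⟩
          refine ⟨a, ha, fun q h1 h2 => ?_, rfl⟩
          have h3 := hq' q h1 h2
          have h4 : q ≠ 3 + m := by
            rintro rfl
            exact hq h1
          omega
        exact hle h
  have h3 : x ∈ lowW 3 := hdown n (rmilnor_mono (by omega) hn)
  obtain ⟨i, j, hij⟩ := AddSubgroup.mem_closure_pair.1 (rmilnor_three h3)
  have s1 : sgnW (WG.map (Rat.castHom ℝ) (cl (1 : ℚ))) = 1 := by
    rw [WG.map_cl, map_one, sgnW_cl one_ne_zero]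
    simp
  have s2 : sgnW (WG.map (Rat.castHom ℝ) (cl (2 : ℚ))) = 1 := by
    have : (Rat.castHom ℝ) (2 : ℚ) = 2 := by simp
    rw [WG.map_cl, this, sgnW_cl two_ne_zero]
    simp
  have v1 : v2W (cl (1 : ℚ)) = 0 := by
    rw [v2W_cl one_ne_zero]
    simp
  have v2 : v2W (cl (2 : ℚ)) = 1 := by
    rw [v2W_cl two_ne_zero]
    have : padicValRat 2 (2 : ℚ) = 1 := by
      have := padicValRat.self (p := 2) (by norm_num)
      simpa using this
    rw [this]
    simp
  have e1 : i + j = 0 := by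
    rw [← hij, map_add, map_add, map_zsmul, map_zsmul, map_zsmul, map_zsmul, s1, s2] at h0
    simpa using h0
  have e2 : ((j : ℤ) : ZMod 2) = 0 := by
    rw [← hij, map_add, map_zsmul, map_zsmul, v1, v2] at h2
    simpa using h2
  obtain ⟨t, ht⟩ := (ZMod.intCast_zmod_eq_zero_iff_dvd j 2).1 e2
  have hadd := cl_add (K := ℚ) (a := 1) (b := 1) one_ne_zero one_ne_zero (by norm_num)
  have e3 : (1 : ℚ) + 1 = 2 := by norm_num
  have e4 : (1 : ℚ) * 1 * (1 + 1) = 2 := by norm_num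
  rw [e4, e3] at hadd
  have hi : i = -(t * 2) := by
    push_cast at ht
    omega
  have hj : j = t * 2 := by
    push_cast at ht
    omega
  have e5 : (2 : ℤ) • cl (1 : ℚ) = (2 : ℤ) • cl (2 : ℚ) := by
    rw [two_zsmul, two_zsmul]
    exact hadd
  rw [← hij, hi, hj, neg_zsmul, mul_zsmul, mul_zsmul, e5, neg_add_cancel]

end SpinWA
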