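import Pool.Agent.H.MP_83e36b_nt.sp.WDef

/-!
# The invariant modulo 8 of forms over finite fields

PROOF. `WG.lift` with `u ↦ (p - 1) + (if IsSquare u then 0 else 4)` in `ZMod 8`. Write
`[u] = 1` for nonsquares; `[uv] = [u] + [v]` modulo 2 (`quadraticChar`, `ZMod.χ`, or
`legendreSym`). Relation 2: `[u] + [v] ≡ [u+v] + [u v (u+v)]` modulo 2. Relation 3:
`2 (p - 1) + 4 [-1] = 0` in `ZMod 8`: `-1` is a square iff `p % 4 = 1` (or `p % 4 ≠ 3`,
`ZMod.exists_sq_eq_neg_one_iff`); `p` odd.
-/

open Matrix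

namespace SpinWA

theorem rGam_mul {p : ℕ} [Fact p.Prime] {u v : ZMod p} (hu : u ≠ 0) (hv : v ≠ 0) :
    IsSquare (u * v) ↔ (IsSquare u ↔ IsSquare v) := by
  rw [← quadraticChar_one_iff_isSquare hu, ← quadraticChar_one_iff_isSquare hv,
    ← quadraticChar_one_iff_isSquare (mul_ne_zero hu hv), map_mul]
  rcases quadraticChar_dichotomy hu with h1 | h1 <;> rcases quadraticChar_dichotomy hv with h2 | h2 <;>
    rw [h1, h2] <;> norm_num

theorem exists_gam (p : ℕ) [Fact p.Prime] (hp : p ≠ 2) :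
    ∃ f : WG (ZMod p) →+ ZMod 8, ∀ u : ZMod p, u ≠ 0 →
      f (cl u) = ((p : ZMod 8) - 1) + (open Classical in if IsSquare u then 0 else 4) := by
  classical
  have h8 : (4 : ZMod 8) + 4 = 0 := by decide
  let f : ZMod p → ZMod 8 := fun u => ((p : ZMod 8) - 1) + (if IsSquare u then 0 else 4)
  have h1 : ∀ a b : ZMod p, a ≠ 0 → b ≠ 0 → f (a * b ^ 2) = f a := by
    intro a b ha hb
    have h : IsSquare (a * b ^ 2) ↔ IsSquare a := by
      rw [rGam_mul ha (pow_ne_zero 2 hb)]
      have : IsSquare (b ^ 2) := ⟨b, pow_two b⟩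
      tauto
    simp only [f, h]
  have h2 : ∀ a b : ZMod p, a ≠ 0 → b ≠ 0 → a + b ≠ 0 →
      f a + f b = f (a + b) + f (a * b * (a + b)) := by
    intro a b ha hb hab
    have h := rGam_mul ha hb
    have h' := rGam_mul (mul_ne_zero ha hb) hab
    rw [h] at h'
    simp only [f]
    by_cases h3 : IsSquare a <;> by_cases h4 : IsSquare b <;> by_cases h5 : IsSquare (a + b) <;>
      simp only [h3, h4, h5, h', iff_true, iff_false, not_true, if_true, if_false, iff_self] <;>
      first
        | linear_combination (0 : ZMod 8) * h8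
        | linear_combination h8
        | linear_combination -h8
  have h3 : f 1 + f (-1) = 0 := by
    simp only [f]
    rw [if_pos (IsSquare.one)]
    have hodd : p % 2 = 1 := (Nat.Prime.eq_two_or_odd (Fact.out : p.Prime)).resolve_left hp
    have hcast : (p : ZMod 8) = ((p % 8 : ℕ) : ZMod 8) := (ZMod.natCast_mod p 8).symm
    have hsq : IsSquare (-1 : ZMod p) ↔ p % 4 ≠ 3 := ZMod.exists_sq_eq_neg_one_iff
    have hlt : p % 8 < 8 := Nat.mod_lt _ (by norm_num)
    have h4 : p % 8 % 4 = p % 4 := Nat.mod_mod_of_dvd p (by norm_num)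
    have h2' : p % 8 % 2 = p % 2 := Nat.mod_mod_of_dvd p (by norm_num)
    rw [hcast]
    simp only [hsq, ← h4]
    rw [hodd] at h2'
    generalize p % 8 = q at *
    interval_cases q <;> first | omega | decide
  exact ⟨WG.lift f h1 h2 h3, fun u hu => WG.lift_cl f h1 h2 h3 hu⟩

/-- The invariant of forms over `ZMod p` with values in `ZMod 8` (`0` if `p = 2`). -/
noncomputable def gamW (p : ℕ) [Fact p.Prime] : WG (ZMod p) →+ ZMod 8 :=
  open Classical in if hp : p ≠ 2 then (exists_gam p hp).choose else 0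

theorem gamW_cl {p : ℕ} [Fact p.Prime] (hp : p ≠ 2) {u : ZMod p} (hu : u ≠ 0) :
    gamW p (cl u) = ((p : ZMod 8) - 1) + (open Classical in if IsSquare u then 0 else 4) := by
  unfold gamW
  rw [dif_pos hp]
  exact (exists_gam p hp).choose_spec u hu

end SpinWA
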