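import Pool.Agent.H.MP_83e36b_nt.sp.WDef

/-!
# The 2-adic invariant modulo 8 (oddity)

PROOF. `WG.lift` with the function `odd8 a = u + (4 if the valuation is odd and u = 3 or 5)`,
where `u = unitMod8 a` is the unit part of `a` modulo 8. `unitMod8` is multiplicative with values in
`{1, 3, 5, 7}`. Relation 1: valuation parity unchanged, `u b^2 = u` modulo 8. Relation 2, with
`a = 2^i u`, `b = 2^j v` (units `u, v` of `ℤ_[2]`): by symmetry `i ≤ j`, and one can divide by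
`2^(2k)`, so only the parity of `i` matters. `j ≥ i + 3`: `a + b` has the same valuation and unit
part mod 8 as `a`, and `a b (a+b)` has valuation `≡ j` and unit part `u^2 v = v`. `j = i + 1`,
`j = i + 2`: `a + b = 2^i (u + 2^(j-i) v)`; the unit part mod 8 of `a+b` is `u + 2^(j-i) v` mod 8 which
depends on `u`, `v` mod 8 only: finite check (`decide` over `ZMod 8`). `j = i`:
`a + b = 2^i (u + v)`, `u + v = 2^k w`, `k ≥ 1`. If `k ≥ 3`: `v = -u` mod 8, `u v = -1` mod 8; the unit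
part of `a b (a+b)` is `u v w = -w` mod 8, and both sides are 0. If `k = 1` or `2`: `w` mod 8 is
determined by `u, v` mod 32: work with `u, v` in `ZMod 32` or write `v = 2^k w - u` and let
`u, w` mod 8 vary: `v` mod 8 is `2^k w - u`: finite check over `u, w` in `ZMod 8` odd. Relation 3:
`1 + 7 = 0`.
-/

open Matrix

namespace SpinWA

/-- The unit part of a 2-adic number, modulo 8. -/
noncomputable def unitMod8 (a : ℚ_[2]) : ZMod 8 :=
  open Classical in
  if h : ‖a * (2 : ℚ_[2]) ^ (-a.valuation)‖ ≤ 1 then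
    PadicInt.toZModPow 3 (⟨a * (2 : ℚ_[2]) ^ (-a.valuation), h⟩ : ℤ_[2]) else 0

/-- The value of the invariant on `a x ^ 2`. -/
noncomputable def odd8 (a : ℚ_[2]) : ZMod 8 :=
  open Classical in
  unitMod8 a + (if ¬ Even a.valuation ∧ (unitMod8 a = 3 ∨ unitMod8 a = 5) then 4 else 0)

/-! ### Auxiliary facts -/

/-- reduction modulo 8 -/
private noncomputable def rgt_red : ℤ_[2] →+* ZMod 8 := PadicInt.toZModPow 3

private def rgt_F (p : Bool) (r : ZMod 8) : ZMod 8 :=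
  r + if p = true ∧ (r = 3 ∨ r = 5) then 4 else 0

private def rgt_par (n : ℤ) : Bool := decide (n % 2 = 1)

private theorem rgt_par_congr {m n : ℤ} (h : m % 2 = n % 2) : rgt_par m = rgt_par n := by
  unfold rgt_par
  rw [h]

private theorem rgt_par_succ {m n : ℤ} (h : (m + 1) % 2 = n % 2) : rgt_par n = !rgt_par m := by
  unfold rgt_par
  by_cases h1 : m % 2 = 1
  · have h2 : n % 2 = 0 := by omega
    simp [h1, h2]
  · have h2 : n % 2 = 1 := by omega
    simp [h1, h2]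

private theorem rgt_odd8 (a : ℚ_[2]) : odd8 a = rgt_F (rgt_par a.valuation) (unitMod8 a) := by
  unfold odd8 rgt_F rgt_par
  congr 1
  have h : (¬ Even a.valuation) ↔ a.valuation % 2 = 1 := by
    rw [Int.even_iff]
    omega
  by_cases h1 : a.valuation % 2 = 1
  · by_cases h2 : unitMod8 a = 3 ∨ unitMod8 a = 5
    · rw [if_pos ⟨h.2 h1, h2⟩, if_pos ⟨by simpa using h1, h2⟩]
    · rw [if_neg (fun h3 => h2 h3.2), if_neg (fun h3 => h2 h3.2)]
  · rw [if_neg (fun h3 => h1 (h.1 h3.1)), if_neg (fun h3 => h1 (by simpa using h3.1))]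

private theorem rgt_two_ne : (2 : ℚ_[2]) ≠ 0 := two_ne_zero

private theorem rgt_norm_two : ‖(2 : ℚ_[2])‖ = 2⁻¹ := by
  have h := Padic.norm_p (p := 2)
  simpa using h

private theorem rgt_val_unit {u : ℤ_[2]} (hu : IsUnit u) : (u : ℚ_[2]).valuation = 0 := by
  have h0 : (u : ℚ_[2]) ≠ 0 := by
    intro h
    have h1 := PadicInt.isUnit_iff.1 hu
    rw [PadicInt.norm_def, h, norm_zero] at h1
    exact zero_ne_one h1
  have h1 := PadicInt.isUnit_iff.1 hu
  rw [PadicInt.norm_def, Padic.norm_eq_zpow_neg_valuation h0] at h1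
  have h2 : ((2 : ℕ) : ℝ) ^ (-(u : ℚ_[2]).valuation) = ((2 : ℕ) : ℝ) ^ (0 : ℤ) := by
    rw [h1, zpow_zero]
  have h3 := zpow_right_injective₀ (by norm_num) (by norm_num) h2
  simpa using h3

private theorem rgt_unit_ne {u : ℤ_[2]} (hu : IsUnit u) : (u : ℚ_[2]) ≠ 0 := by
  intro h
  have h1 := PadicInt.isUnit_iff.1 hu
  rw [PadicInt.norm_def, h, norm_zero] at h1
  exact zero_ne_one h1

private theorem rgt_val {u : ℤ_[2]} (hu : IsUnit u) (n : ℤ) :
    ((u : ℚ_[2]) * 2 ^ n).valuation = n := by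
  rw [Padic.valuation_mul (rgt_unit_ne hu) (zpow_ne_zero _ rgt_two_ne), rgt_val_unit hu,
    Padic.valuation_zpow]
  have h := Padic.valuation_p (p := 2)
  have h2 : (2 : ℚ_[2]).valuation = 1 := h
  rw [h2]
  ring

private theorem rgt_unitMod8 {u : ℤ_[2]} (hu : IsUnit u) (n : ℤ) :
    unitMod8 ((u : ℚ_[2]) * 2 ^ n) = rgt_red u := by
  have h1 : (u : ℚ_[2]) * 2 ^ n * 2 ^ (-((u : ℚ_[2]) * 2 ^ n).valuation) = u := by
    rw [rgt_val hu, mul_assoc, ← zpow_add₀ rgt_two_ne, add_neg_cancel, zpow_zero, mul_one]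
  have h2 : ‖(u : ℚ_[2]) * 2 ^ n * 2 ^ (-((u : ℚ_[2]) * 2 ^ n).valuation)‖ ≤ 1 := by
    rw [h1]
    exact u.2
  unfold unitMod8
  rw [dif_pos h2]
  have h3 : (⟨(u : ℚ_[2]) * 2 ^ n * 2 ^ (-((u : ℚ_[2]) * 2 ^ n).valuation), h2⟩ : ℤ_[2]) = u :=
    Subtype.ext h1
  rw [h3]
  rfl

private theorem rgt_eval {u : ℤ_[2]} (hu : IsUnit u) (n : ℤ) :
    odd8 ((u : ℚ_[2]) * 2 ^ n) = rgt_F (rgt_par n) (rgt_red u) := by
  rw [rgt_odd8, rgt_val hu, rgt_unitMod8 hu]

private theorem rgt_rep {a : ℚ_[2]} (ha : a ≠ 0) :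
    ∃ (u : ℤ_[2]) (n : ℤ), IsUnit u ∧ a = (u : ℚ_[2]) * 2 ^ n := by
  have h1 : ‖a * 2 ^ (-a.valuation)‖ = 1 := by
    rw [norm_mul, norm_zpow, rgt_norm_two, Padic.norm_eq_zpow_neg_valuation ha,
      _root_.inv_zpow,
      ← _root_.zpow_neg, neg_neg]
    have h2 : ((2 : ℕ) : ℝ) = 2 := by norm_num
    rw [h2, ← zpow_add₀ (by norm_num), neg_add_cancel, zpow_zero]
  refine ⟨⟨a * 2 ^ (-a.valuation), h1.le⟩, a.valuation, ?_, ?_⟩
  · rw [PadicInt.isUnit_iff, PadicInt.norm_def]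
    exact h1
  · change a = a * 2 ^ (-a.valuation) * 2 ^ a.valuation
    rw [mul_assoc, ← zpow_add₀ rgt_two_ne, neg_add_cancel, zpow_zero, mul_one]

private theorem rgt_sq_aux : ∀ x y : ZMod 8, x * y = 1 → x * x = 1 := by decide

private theorem rgt_sq {u : ℤ_[2]} (hu : IsUnit u) : rgt_red u * rgt_red u = 1 := by
  obtain ⟨w, hw⟩ := hu.map rgt_red
  rw [← hw]
  exact rgt_sq_aux _ _ (Units.mul_inv w)

private theorem rgt_c1 : ∀ (p : Bool) (u v : ZMod 8), u * u = 1 → v * v = 1 →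
    rgt_F p u + rgt_F (!p) v = rgt_F p (u + 2 * v) + rgt_F (!p) (u * v * (u + 2 * v)) := by
  decide

private theorem rgt_c2 : ∀ (p : Bool) (u v : ZMod 8), u * u = 1 → v * v = 1 →
    rgt_F p u + rgt_F p v = rgt_F p (u + 4 * v) + rgt_F p (u * v * (u + 4 * v)) := by
  decide

private theorem rgt_d1 : ∀ (p : Bool) (u w : ZMod 8), u * u = 1 → w * w = 1 →
    rgt_F p u + rgt_F p (2 * w - u) = rgt_F (!p) w + rgt_F (!p) (u * (2 * w - u) * w) := by
  decide

private theorem rgt_d2 : ∀ (p : Bool) (u w : ZMod 8), u * u = 1 → w * w = 1 →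
    rgt_F p u + rgt_F p (4 * w - u) = rgt_F p w + rgt_F p (u * (4 * w - u) * w) := by
  decide

private theorem rgt_d3 : ∀ (p q : Bool) (u w : ZMod 8), u * u = 1 → w * w = 1 →
    rgt_F p u + rgt_F p (-u) = rgt_F q w + rgt_F q (u * (-u) * w) := by
  decide

private theorem rgt_e1 : ∀ u v w : ZMod 8, u * u = 1 → v * v = 1 → w * w = 1 →
    u + v ≠ w := by
  decide

private theorem rgt_e2 : ∀ u v w : ZMod 8, u * u = 1 → u + 2 * v ≠ 2 * w := by
  decide

private theorem rgt_pow3 (k : ℕ) : (2 : ZMod 8) ^ (k + 3) = 0 := by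
  rw [pow_add]
  have h : (2 : ZMod 8) ^ 3 = 0 := by decide
  rw [h, mul_zero]

private theorem rgt_coe_two : ((2 : ℤ_[2]) : ℚ_[2]) = 2 := rfl

private theorem rgt_red_two : rgt_red 2 = 2 := map_ofNat rgt_red 2

private theorem rgt_rel {u v : ℤ_[2]} (hu : IsUnit u) (hv : IsUnit v) (i : ℤ) (k : ℕ)
    (hs : (u : ℚ_[2]) * 2 ^ i + v * 2 ^ (i + k) ≠ 0) :
    odd8 ((u : ℚ_[2]) * 2 ^ i) + odd8 ((v : ℚ_[2]) * 2 ^ (i + k)) =
      odd8 ((u : ℚ_[2]) * 2 ^ i + v * 2 ^ (i + k)) +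
        odd8 ((u : ℚ_[2]) * 2 ^ i * (v * 2 ^ (i + k)) * (u * 2 ^ i + v * 2 ^ (i + k))) := by
  have e1 : (u : ℚ_[2]) * 2 ^ i + v * 2 ^ (i + k) = ((u + 2 ^ k * v : ℤ_[2]) : ℚ_[2]) * 2 ^ i := by
    rw [PadicInt.coe_add, PadicInt.coe_mul, PadicInt.coe_pow, rgt_coe_two,
      zpow_add₀ rgt_two_ne, zpow_natCast]
    ring
  have hs0 : u + 2 ^ k * v ≠ 0 := by
    intro h
    apply hs
    rw [e1, h]
    simp
  obtain ⟨w, m, hw, hwm⟩ : ∃ (w : ℤ_[2]) (m : ℕ), IsUnit w ∧ u + 2 ^ k * v = w * 2 ^ m := by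
    refine ⟨PadicInt.unitCoeff hs0, (u + 2 ^ k * v).valuation,
      (PadicInt.unitCoeff hs0).isUnit, ?_⟩
    have h1 := PadicInt.unitCoeff_spec hs0
    rw [Nat.cast_ofNat] at h1
    exact h1
  have e2 : (u : ℚ_[2]) * 2 ^ i + v * 2 ^ (i + k) = (w : ℚ_[2]) * 2 ^ (i + m) := by
    rw [e1, hwm, PadicInt.coe_mul, PadicInt.coe_pow, rgt_coe_two, zpow_add₀ rgt_two_ne,
      zpow_natCast]
    ring
  have e3 : (u : ℚ_[2]) * 2 ^ i * (v * 2 ^ (i + k)) * (w * 2 ^ (i + m)) =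
      ((u * v * w : ℤ_[2]) : ℚ_[2]) * 2 ^ (i + (i + k) + (i + m)) := by
    push_cast
    rw [zpow_add₀ rgt_two_ne (i + (i + k)), zpow_add₀ rgt_two_ne i (i + k)]
    ring
  rw [e2, e3, rgt_eval hu, rgt_eval hv, rgt_eval hw, rgt_eval ((hu.mul hv).mul hw), map_mul,
    map_mul]
  have hz : rgt_red u + 2 ^ k * rgt_red v = rgt_red w * 2 ^ m := by
    have h1 := congrArg rgt_red hwm
    rwa [map_add, map_mul, map_mul, map_pow, map_pow, rgt_red_two] at h1
  have su := rgt_sq hu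
  have sv := rgt_sq hv
  have sw := rgt_sq hw
  set U := rgt_red u
  set V := rgt_red v
  set W := rgt_red w
  rcases k with _ | k
  · rw [pow_zero, one_mul] at hz
    rcases m with _ | m
    · rw [pow_zero, mul_one] at hz
      exact absurd hz (rgt_e1 _ _ _ su sv sw)
    have hp0 : rgt_par (i + ((0 : ℕ) : ℤ)) = rgt_par i := rgt_par_congr (by push_cast; omega)
    rw [hp0]
    rcases m with _ | m
    · have hV : V = 2 * W - U := by
        linear_combination hz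
      have hp1 : rgt_par (i + ((0 + 1 : ℕ) : ℤ)) = !rgt_par i :=
        rgt_par_succ (by push_cast; omega)
      have hp2 : rgt_par (i + (i + ((0 : ℕ) : ℤ)) + (i + ((0 + 1 : ℕ) : ℤ))) = !rgt_par i :=
        rgt_par_succ (by push_cast; omega)
      rw [hp1, hp2, hV]
      exact rgt_d1 _ _ _ su sw
    rcases m with _ | m
    · have hV : V = 4 * W - U := by
        linear_combination hz
      have hp1 : rgt_par (i + ((0 + 1 + 1 : ℕ) : ℤ)) = rgt_par i :=
        rgt_par_congr (by push_cast; omega)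
      have hp2 : rgt_par (i + (i + ((0 : ℕ) : ℤ)) + (i + ((0 + 1 + 1 : ℕ) : ℤ))) = rgt_par i :=
        rgt_par_congr (by push_cast; omega)
      rw [hp1, hp2, hV]
      exact rgt_d2 _ _ _ su sw
    · have hV : V = -U := by
        have h8 := rgt_pow3 m
        have h9 : (2 : ZMod 8) ^ (m + 1 + 1 + 1) = 0 := h8
        rw [h9, mul_zero] at hz
        linear_combination hz
      have hp2 : rgt_par (i + (i + ((0 : ℕ) : ℤ)) + (i + ((m + 1 + 1 + 1 : ℕ) : ℤ))) =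
          rgt_par (i + ((m + 1 + 1 + 1 : ℕ) : ℤ)) :=
        rgt_par_congr (by push_cast; omega)
      rw [hp2, hV]
      exact rgt_d3 _ _ _ _ su sw
  · have hm : m = 0 := by
      by_contra hm
      obtain ⟨m', rfl⟩ := Nat.exists_eq_succ_of_ne_zero hm
      apply rgt_e2 U (2 ^ k * V) (W * 2 ^ m') su
      rw [Nat.succ_eq_add_one, pow_succ, pow_succ] at hz
      linear_combination hz
    subst hm
    rw [pow_zero, mul_one] at hz
    have hp0 : rgt_par (i + ((0 : ℕ) : ℤ)) = rgt_par i := rgt_par_congr (by push_cast; omega)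
    have hp2 : rgt_par (i + (i + ((k + 1 : ℕ) : ℤ)) + (i + ((0 : ℕ) : ℤ))) =
        rgt_par (i + ((k + 1 : ℕ) : ℤ)) := rgt_par_congr (by push_cast; omega)
    rw [hp0, hp2, ← hz]
    rcases k with _ | k
    · have hp1 : rgt_par (i + ((0 + 1 : ℕ) : ℤ)) = !rgt_par i :=
        rgt_par_succ (by push_cast; omega)
      rw [hp1]
      have := rgt_c1 (rgt_par i) U V su sv
      simpa using this
    rcases k with _ | k
    · have hp1 : rgt_par (i + ((0 + 1 + 1 : ℕ) : ℤ)) = rgt_par i :=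
        rgt_par_congr (by push_cast; omega)
      rw [hp1]
      have h4 : (2 : ZMod 8) ^ (0 + 1 + 1) = 4 := by decide
      rw [h4]
      exact rgt_c2 (rgt_par i) U V su sv
    · have h9 : (2 : ZMod 8) ^ (k + 1 + 1 + 1) = 0 := rgt_pow3 k
      rw [h9, zero_mul, add_zero]
      have h10 : U * V * U = V := by linear_combination V * su
      rw [h10]

theorem exists_gam2 : ∃ f : WG ℚ_[2] →+ ZMod 8, ∀ a : ℚ_[2], a ≠ 0 → f (cl a) = odd8 a := by
  refine ⟨WG.lift odd8 ?_ ?_ ?_, fun a ha => WG.lift_cl _ _ _ _ ha⟩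
  · intro a b ha hb
    obtain ⟨u, n, hu, rfl⟩ := rgt_rep ha
    obtain ⟨v, m, hv, rfl⟩ := rgt_rep hb
    have e1 : (u : ℚ_[2]) * 2 ^ n * ((v : ℚ_[2]) * 2 ^ m) ^ 2 =
        ((u * (v * v) : ℤ_[2]) : ℚ_[2]) * 2 ^ (n + (m + m)) := by
      push_cast
      rw [zpow_add₀ rgt_two_ne, zpow_add₀ rgt_two_ne]
      ring
    rw [e1, rgt_eval (hu.mul (hv.mul hv)), rgt_eval hu, map_mul, map_mul, rgt_sq hv, mul_one,
      rgt_par_congr (m := n + (m + m)) (n := n) (by omega)]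
  · intro a b ha hb hab
    obtain ⟨u, n, hu, rfl⟩ := rgt_rep ha
    obtain ⟨v, m, hv, rfl⟩ := rgt_rep hb
    rcases le_total n m with h | h
    · obtain ⟨k, rfl⟩ := Int.le.dest h
      exact rgt_rel hu hv n k hab
    · obtain ⟨k, rfl⟩ := Int.le.dest h
      rw [add_comm ((u : ℚ_[2]) * 2 ^ (m + (k : ℤ)))] at hab
      have := rgt_rel hv hu m k hab
      rw [add_comm (odd8 _), add_comm ((u : ℚ_[2]) * 2 ^ (m + (k : ℤ))),
        mul_comm ((u : ℚ_[2]) * 2 ^ (m + (k : ℤ)))]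
      exact this
  · have e1 : (1 : ℚ_[2]) = ((1 : ℤ_[2]) : ℚ_[2]) * 2 ^ (0 : ℤ) := by simp
    have e2 : (-1 : ℚ_[2]) = ((-1 : ℤ_[2]) : ℚ_[2]) * 2 ^ (0 : ℤ) := by simp
    rw [e2, e1, rgt_eval isUnit_one, rgt_eval isUnit_one.neg, map_neg, map_one]
    decide

noncomputable def gam2W : WG ℚ_[2] →+ ZMod 8 := exists_gam2.choose

theorem gam2W_cl {a : ℚ_[2]} (ha : a ≠ 0) : gam2W (cl a) = odd8 a :=
  exists_gam2.choose_spec a ha

end SpinWA
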