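import Mathlib

/-!
# Reciprocity: the arithmetic statement

PROOF. Let `m = ∏_{p ∈ P} p` (odd), `a = ε 2^f m`. The number of `p ∈ P` such that
`ε 2^f (m/p)` is a nonsquare modulo `p` has the parity given by the product
`∏_{p ∈ P} (ε 2^f (m/p) / p) = (ε/m) (2/m)^f ∏_{p<q} (p/q)(q/p)` of Legendre symbols, and
`(p/q)(q/p) = (-1)^((p-1)/2 (q-1)/2)`; `(2/m) = -1` iff `m = 3, 5 mod 8`. The rest is the congruence
`m = ∏ (1 + (p-1)) = 1 + ∑ (p - 1) + ∑_{p<q} (p-1)(q-1)` modulo 8, `4 · ((p-1)/2)((q-1)/2) =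
(p-1)(q-1)` and `2 (p - 1) = 4 [p = 3 mod 4]` in `ZMod 8`.
Convenient: induction on `P` (`Finset.induction_on`: add one prime `q ∉ P`): the difference of the
left hand sides for `insert q P` and `P` is
`(q - 1) + 4 [ (ε 2^f m / q) = -1 ] + ∑_{p ∈ P} 4 [ (q / p) = -1 ]`, because the symbol of
`ε 2^f (m q/p)` modulo `p` is the product of the symbol of `ε 2^f m/p` and `(q/p)`. Here
`∑_{p ∈ P} [(q/p) = -1]` has the parity of the Jacobi symbol `(q/m)`, and
`(q/m)(m/q) = (-1)^((q-1)/2 (m-1)/2)` (`jacobiSym.quadratic_reciprocity`), `(ε/q)`, `(2/q)` by the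
supplementary laws (`legendreSym.at_neg_one`, `ZMod.exists_sq_eq_two_iff`). So the difference is
`(q - 1) + 4 [(ε/q) = -1] + 4 f [q = 3, 5 mod 8] + (q-1)(m-1)` and this must be equal to the
difference of the right hand sides, a finite check over the classes of `q`, `m` modulo 8
(`decide`).
It may be convenient to prove the lemma with the left hand side written with `jacobiSym`.
-/

namespace SpinWA

/-- `4` for a nonresidue, `0` for a residue -/
def RRecArith_g (s : ℤ) : ZMod 8 := if s = -1 then 4 else 0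

theorem RRecArith_mul {s t : ℤ} (hs : s = 1 ∨ s = -1) (ht : t = 1 ∨ t = -1) :
    RRecArith_g (s * t) = RRecArith_g s + RRecArith_g t := by
  rcases hs with rfl | rfl <;> rcases ht with rfl | rfl <;> decide

/-- the product of the primes in `P` -/
def RRecArith_M (P : Finset Nat.Primes) : ℕ := ∏ q ∈ P, (q : ℕ)

theorem RRecArith_M_insert {P : Finset Nat.Primes} {q : Nat.Primes} (h : q ∉ P) :
    RRecArith_M (insert q P) = q * RRecArith_M P := by
  unfold RRecArith_M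
  rw [Finset.prod_insert h]

theorem RRecArith_cast (P : Finset Nat.Primes) :
    ∏ q ∈ P, ((q : ℕ) : ℤ) = ((RRecArith_M P : ℕ) : ℤ) := by
  unfold RRecArith_M
  push_cast
  rfl

theorem RRecArith_cop {P : Finset Nat.Primes} {q : Nat.Primes} (h : q ∉ P) :
    Nat.Coprime (RRecArith_M P) q := by
  unfold RRecArith_M
  refine Nat.Coprime.prod_left fun p hp => ?_
  rw [Nat.coprime_primes p.2 q.2]
  intro h1
  exact h ((Subtype.ext h1 : p = q) ▸ hp)

theorem RRecArith_odd {P : Finset Nat.Primes} (h2 : ∀ p ∈ P, (p : ℕ) ≠ 2) :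
    Odd (RRecArith_M P) := by
  unfold RRecArith_M
  refine Finset.prod_induction _ Odd (fun a b ha hb => ha.mul hb) odd_one fun p hp => ?_
  exact p.2.odd_of_ne_two (h2 p hp)

theorem RRecArith_ne {P : Finset Nat.Primes} : RRecArith_M P ≠ 0 := by
  unfold RRecArith_M
  exact Finset.prod_ne_zero_iff.2 fun p _ => p.2.ne_zero

theorem RRecArith_pm {a : ℤ} {b : ℕ} (h : Nat.Coprime a.natAbs b) :
    jacobiSym a b = 1 ∨ jacobiSym a b = -1 := by
  apply jacobiSym.eq_one_or_neg_one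
  rw [Int.gcd_eq_natAbs, Int.natAbs_natCast]
  exact h

theorem RRecArith_sum (q : Nat.Primes) (P : Finset Nat.Primes) (h : q ∉ P) :
    ∑ p ∈ P, RRecArith_g (jacobiSym ((q : ℕ) : ℤ) p)
      = RRecArith_g (jacobiSym ((q : ℕ) : ℤ) (RRecArith_M P)) := by
  induction P using Finset.induction_on with
  | empty =>
    unfold RRecArith_M
    simp [RRecArith_g]
  | insert p P hp ih =>
    rw [Finset.mem_insert, not_or] at h
    rw [Finset.sum_insert hp, ih h.2, RRecArith_M_insert hp,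
      jacobiSym.mul_right' _ p.2.ne_zero RRecArith_ne, RRecArith_mul]
    · apply RRecArith_pm
      rw [Int.natAbs_natCast, Nat.coprime_primes q.2 p.2]
      exact fun h1 => h.1 (Subtype.ext h1)
    · apply RRecArith_pm
      rw [Int.natAbs_natCast]
      exact (RRecArith_cop h.2).symm

theorem RRecArith_recip {q m : ℕ} (hq : Odd q) (hm : Odd m) (h : Nat.Coprime q m) :
    RRecArith_g (jacobiSym (m : ℤ) q) + RRecArith_g (jacobiSym (q : ℤ) m)
      = if ((q : ZMod 8) = 3 ∨ (q : ZMod 8) = 7) ∧ ((m : ZMod 8) = 3 ∨ (m : ZMod 8) = 7)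
        then 4 else 0 := by
  have hq2 : q % 2 = 1 := Nat.odd_iff.1 hq
  have hm2 : m % 2 = 1 := Nat.odd_iff.1 hm
  have key : ∀ n : ℕ, ((n : ZMod 8) = 3 ∨ (n : ZMod 8) = 7) ↔ n % 4 = 3 := by
    intro n
    have h3 : (n : ZMod 8) = 3 ↔ n % 8 = 3 := by
      have := ZMod.natCast_eq_natCast_iff' n 3 8
      simpa using this
    have h7 : (n : ZMod 8) = 7 ↔ n % 8 = 7 := by
      have := ZMod.natCast_eq_natCast_iff' n 7 8
      simpa using this
    rw [h3, h7]
    omega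
  have h1 : jacobiSym (q : ℤ) m = 1 ∨ jacobiSym (q : ℤ) m = -1 :=
    RRecArith_pm (by rw [Int.natAbs_natCast]; exact h)
  by_cases h3 : q % 4 = 3 ∧ m % 4 = 3
  · rw [if_pos ⟨(key q).2 h3.1, (key m).2 h3.2⟩,
      jacobiSym.quadratic_reciprocity_three_mod_four h3.2 h3.1]
    rcases h1 with h1 | h1 <;> rw [h1] <;> decide
  · rw [if_neg (fun hh => h3 ⟨(key q).1 hh.1, (key m).1 hh.2⟩)]
    have h4 : jacobiSym (m : ℤ) q = jacobiSym (q : ℤ) m := by
      by_cases h5 : q % 4 = 1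
      · exact jacobiSym.quadratic_reciprocity_one_mod_four' hm h5
      · have h6 : m % 4 = 1 := by
          by_contra h6
          exact h3 ⟨by omega, by omega⟩
        exact jacobiSym.quadratic_reciprocity_one_mod_four h6 hq
    rw [h4]
    rcases h1 with h1 | h1 <;> rw [h1] <;> decide

theorem RRecArith_odd8 {n : ℕ} (hn : Odd n) :
    (n : ZMod 8) = 1 ∨ (n : ZMod 8) = 3 ∨ (n : ZMod 8) = 5 ∨ (n : ZMod 8) = 7 := by
  have h2 : n % 2 = 1 := Nat.odd_iff.1 hn
  have h : ((n % 8 : ℕ) : ZMod 8) = n := ZMod.natCast_mod n 8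
  rw [← h]
  have h4 : n % 8 = 1 ∨ n % 8 = 3 ∨ n % 8 = 5 ∨ n % 8 = 7 := by omega
  rcases h4 with h4 | h4 | h4 | h4 <;> rw [h4] <;> decide

theorem RRecArith_neg_one {q : ℕ} (hq : Odd q) :
    RRecArith_g (jacobiSym (-1) q) = if (q : ZMod 8) = 3 ∨ (q : ZMod 8) = 7 then 4 else 0 := by
  rw [jacobiSym.at_neg_one hq]
  have h2 : q % 2 = 1 := Nat.odd_iff.1 hq
  have h3 : (q : ZMod 8) = 3 ↔ q % 8 = 3 := by
    have := ZMod.natCast_eq_natCast_iff' q 3 8
    simpa using this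
  have h7 : (q : ZMod 8) = 7 ↔ q % 8 = 7 := by
    have := ZMod.natCast_eq_natCast_iff' q 7 8
    simpa using this
  by_cases h : q % 4 = 1
  · rw [ZMod.χ₄_nat_one_mod_four h, if_neg (by rw [h3, h7]; omega)]
    decide
  · rw [ZMod.χ₄_nat_three_mod_four (by omega), if_pos (by rw [h3, h7]; omega)]
    decide

theorem RRecArith_two {q : ℕ} (hq : Odd q) :
    RRecArith_g (jacobiSym 2 q) = if (q : ZMod 8) = 3 ∨ (q : ZMod 8) = 5 then 4 else 0 := by
  rw [jacobiSym.at_two hq]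
  rcases RRecArith_odd8 hq with h | h | h | h <;> rw [h] <;> decide

theorem RRecArith_dec0 : ∀ a b e : ZMod 8, (a = 1 ∨ a = 3 ∨ a = 5 ∨ a = 7) →
    (b = 1 ∨ b = 3 ∨ b = 5 ∨ b = 7) → e = 1 →
    (a - 1) + (0 + (if (a = 3 ∨ a = 7) ∧ (b = 3 ∨ b = 7) then 4 else 0)) + e * b
      = e * (a * b) := by
  decide

theorem RRecArith_dec1 : ∀ a b e : ZMod 8, (a = 1 ∨ a = 3 ∨ a = 5 ∨ a = 7) →
    (b = 1 ∨ b = 3 ∨ b = 5 ∨ b = 7) → e = 1 →
    (a - 1) + ((if a = 3 ∨ a = 5 then 4 else 0) +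
      (if (a = 3 ∨ a = 7) ∧ (b = 3 ∨ b = 7) then 4 else 0)) +
      (e * b + if e * b = 3 ∨ e * b = 5 then 4 else 0)
      = e * (a * b) + if e * (a * b) = 3 ∨ e * (a * b) = 5 then 4 else 0 := by
  decide

theorem RRecArith_dec2 : ∀ a b e : ZMod 8, (a = 1 ∨ a = 3 ∨ a = 5 ∨ a = 7) →
    (b = 1 ∨ b = 3 ∨ b = 5 ∨ b = 7) → e = -1 →
    (a - 1) + ((if a = 3 ∨ a = 7 then 4 else 0) +
      (if (a = 3 ∨ a = 7) ∧ (b = 3 ∨ b = 7) then 4 else 0)) + e * b
      = e * (a * b) := by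
  decide

theorem RRecArith_dec3 : ∀ a b e : ZMod 8, (a = 1 ∨ a = 3 ∨ a = 5 ∨ a = 7) →
    (b = 1 ∨ b = 3 ∨ b = 5 ∨ b = 7) → e = -1 →
    (a - 1) + (((if a = 3 ∨ a = 7 then 4 else 0) + (if a = 3 ∨ a = 5 then 4 else 0)) +
      (if (a = 3 ∨ a = 7) ∧ (b = 3 ∨ b = 7) then 4 else 0)) +
      (e * b + if e * b = 3 ∨ e * b = 5 then 4 else 0)
      = e * (a * b) + if e * (a * b) = 3 ∨ e * (a * b) = 5 then 4 else 0 := by
  decide

/-- the right hand side -/
def RRecArith_R (ε : ℤ) (f : ℕ) (m : ℕ) : ZMod 8 :=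
  ((ε * m : ℤ) : ZMod 8) +
    (open Classical in
      if f = 1 ∧ (((ε * m : ℤ) : ZMod 8) = 3 ∨ ((ε * m : ℤ) : ZMod 8) = 5) then 4 else 0)

theorem RRecArith_step (ε : ℤ) (hε : ε = 1 ∨ ε = -1) (f : ℕ) (hf : f = 0 ∨ f = 1)
    {q m : ℕ} (hq : Odd q) (hm : Odd m) (h : Nat.Coprime q m) :
    ((q : ZMod 8) - 1) + (RRecArith_g (jacobiSym (ε * 2 ^ f * m) q) +
      RRecArith_g (jacobiSym (q : ℤ) m)) + RRecArith_R ε f m = RRecArith_R ε f (q * m) := by
  have hr := RRecArith_recip hq hm h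
  have a8 := RRecArith_odd8 hq
  have b8 := RRecArith_odd8 hm
  have c1 : jacobiSym (m : ℤ) q = 1 ∨ jacobiSym (m : ℤ) q = -1 :=
    RRecArith_pm (by rw [Int.natAbs_natCast]; exact h.symm)
  have c2 : jacobiSym 2 q = 1 ∨ jacobiSym 2 q = -1 :=
    RRecArith_pm (by
      have : Nat.Coprime 2 q := (Nat.coprime_two_left).2 hq
      exact this)
  have c3 : jacobiSym (-1) q = 1 ∨ jacobiSym (-1) q = -1 :=
    RRecArith_pm (by
      have : Nat.Coprime 1 q := Nat.coprime_one_left q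
      exact this)
  have c23 : jacobiSym (-1 * 2) q = 1 ∨ jacobiSym (-1 * 2) q = -1 :=
    RRecArith_pm (by
      have : Nat.Coprime 2 q := (Nat.coprime_two_left).2 hq
      exact this)
  unfold RRecArith_R
  rcases hε with rfl | rfl <;> rcases hf with rfl | rfl
  · rw [pow_zero, one_mul, one_mul, hr]
    have h0 := RRecArith_dec0 (q : ZMod 8) (m : ZMod 8) 1 a8 b8 rfl
    simp only [zero_ne_one, false_and, if_false, add_zero]
    push_cast
    simp only [zero_add, one_mul] at h0 ⊢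
    exact h0
  · rw [pow_one, one_mul, jacobiSym.mul_left, RRecArith_mul c2 c1,
      add_assoc (RRecArith_g (jacobiSym 2 q)), hr,
      RRecArith_two hq]
    have h0 := RRecArith_dec1 (q : ZMod 8) (m : ZMod 8) 1 a8 b8 rfl
    simp only [true_and]
    push_cast
    convert h0 using 2
  · rw [pow_zero, mul_one, jacobiSym.mul_left, RRecArith_mul c3 c1,
      add_assoc (RRecArith_g (jacobiSym (-1) q)), hr,
      RRecArith_neg_one hq]
    have h0 := RRecArith_dec2 (q : ZMod 8) (m : ZMod 8) (-1) a8 b8 rfl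
    simp only [zero_ne_one, false_and, if_false, add_zero]
    push_cast
    exact h0
  · rw [pow_one, jacobiSym.mul_left, RRecArith_mul c23 c1, jacobiSym.mul_left,
      RRecArith_mul c3 c2,
      add_assoc (RRecArith_g (jacobiSym (-1) q) + RRecArith_g (jacobiSym 2 q)), hr,
      RRecArith_neg_one hq, RRecArith_two hq]
    have h0 := RRecArith_dec3 (q : ZMod 8) (m : ZMod 8) (-1) a8 b8 rfl
    simp only [true_and]
    push_cast
    convert h0 using 2

theorem RRecArith_main (ε : ℤ) (hε : ε = 1 ∨ ε = -1) (f : ℕ) (hf : f = 0 ∨ f = 1)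
    (P : Finset Nat.Primes) (h2 : ∀ p ∈ P, (p : ℕ) ≠ 2) :
    (ε : ZMod 8) + ∑ p ∈ P, ((((p : ℕ) : ZMod 8) - 1) +
      RRecArith_g (jacobiSym (ε * 2 ^ f * RRecArith_M (P.erase p)) p)) =
    RRecArith_R ε f (RRecArith_M P) := by
  induction P using Finset.induction_on with
  | empty =>
    unfold RRecArith_R RRecArith_M
    rcases hε with rfl | rfl <;> rcases hf with rfl | rfl <;> simp <;> decide
  | insert q P hq ih =>
    have h2' : ∀ p ∈ P, (p : ℕ) ≠ 2 := fun p hp => h2 p (Finset.mem_insert_of_mem hp)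
    have ih' := ih h2'
    have hodd : Odd (q : ℕ) := q.2.odd_of_ne_two (h2 q (Finset.mem_insert_self q P))
    rw [Finset.sum_insert hq, Finset.erase_insert hq, RRecArith_M_insert hq,
      ← RRecArith_step ε hε f hf hodd (RRecArith_odd h2') (RRecArith_cop hq).symm, ← ih',
      ← RRecArith_sum q P hq]
    have h3 : ∀ p ∈ P, ((((p : ℕ) : ZMod 8) - 1) +
        RRecArith_g (jacobiSym (ε * 2 ^ f * RRecArith_M ((insert q P).erase p)) p))
        = RRecArith_g (jacobiSym ((q : ℕ) : ℤ) p) + ((((p : ℕ) : ZMod 8) - 1) +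
        RRecArith_g (jacobiSym (ε * 2 ^ f * RRecArith_M (P.erase p)) p)) := by
      intro p hp
      have hpq : q ≠ p := fun h => hq (h ▸ hp)
      have hnot : q ∉ P.erase p := fun h => hq (Finset.mem_of_mem_erase h)
      rw [Finset.erase_insert_of_ne hpq, RRecArith_M_insert hnot]
      have h4 : (ε * 2 ^ f * ((((q : ℕ) * RRecArith_M (P.erase p) : ℕ)) : ℤ))
          = ((q : ℕ) : ℤ) * (ε * 2 ^ f * (RRecArith_M (P.erase p) : ℤ)) := by
        push_cast
        ring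
      rw [h4, jacobiSym.mul_left, RRecArith_mul]
      · ring
      · apply RRecArith_pm
        rw [Int.natAbs_natCast, Nat.coprime_primes q.2 p.2]
        exact fun h1 => hpq (Subtype.ext h1)
      · apply RRecArith_pm
        have hp2 : Odd (p : ℕ) := p.2.odd_of_ne_two (h2' p hp)
        have e1 : (ε * 2 ^ f * (RRecArith_M (P.erase p) : ℤ)).natAbs
            = 2 ^ f * RRecArith_M (P.erase p) := by
          rw [Int.natAbs_mul, Int.natAbs_mul, Int.natAbs_natCast, Int.natAbs_pow]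
          rcases hε with rfl | rfl <;> simp
        rw [e1]
        refine Nat.Coprime.mul_left ?_ (RRecArith_cop (Finset.notMem_erase p P))
        exact Nat.Coprime.pow_left f ((Nat.coprime_two_left).2 hp2)
    rw [Finset.sum_congr rfl h3, Finset.sum_add_distrib]
    ring

theorem recip_arith (ε : ℤ) (hε : ε = 1 ∨ ε = -1) (f : ℕ) (hf : f = 0 ∨ f = 1)
    (P : Finset Nat.Primes) (h2 : ∀ p ∈ P, (p : ℕ) ≠ 2) :
    (ε : ZMod 8) + ∑ p ∈ P, ((((p : ℕ) : ZMod 8) - 1) +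
      (open Classical in
        if IsSquare (((ε * 2 ^ f * ∏ q ∈ P.erase p, ((q : ℕ) : ℤ) : ℤ)) : ZMod (p : ℕ))
          then 0 else 4)) =
    ((ε * ∏ q ∈ P, ((q : ℕ) : ℤ) : ℤ) : ZMod 8) +
      (open Classical in
        if f = 1 ∧ (((ε * ∏ q ∈ P, ((q : ℕ) : ℤ) : ℤ) : ZMod 8) = 3 ∨
          ((ε * ∏ q ∈ P, ((q : ℕ) : ℤ) : ℤ) : ZMod 8) = 5) then 4 else 0) := by
  have h := RRecArith_main ε hε f hf P h2
  unfold RRecArith_R at h
  rw [RRecArith_cast, ← h]
  refine congrArg _ (Finset.sum_congr rfl fun p hp => ?_)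
  congr 1
  rw [RRecArith_cast]
  unfold RRecArith_g
  have : Fact (p : ℕ).Prime := ⟨p.2⟩
  by_cases hs : IsSquare (((ε * 2 ^ f * (RRecArith_M (P.erase p) : ℤ) : ℤ)) : ZMod (p : ℕ))
  · rw [if_pos hs, if_neg]
    intro h3
    exact ZMod.nonsquare_iff_jacobiSym_eq_neg_one.1 h3 hs
  · rw [if_neg hs, if_pos]
    exact ZMod.nonsquare_iff_jacobiSym_eq_neg_one.2 hs

end SpinWA
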