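import Pool.Agent.H.MP_83e36b_nt.sp.RSgn
import Pool.Agent.H.MP_83e36b_nt.sp.RRes
import Pool.Agent.H.MP_83e36b_nt.sp.RGam
import Pool.Agent.H.MP_83e36b_nt.sp.RGamTwo
import Pool.Agent.H.MP_83e36b_nt.sp.RRecArith

/-!
# Reciprocity

PROOF. By `WG.induction` it is enough to treat `x = cl a`, `a ≠ 0` (the statement is stable under
sums and negatives: take the union of the finite sets). Modulo squares (`cl_mul_sq`) `a` is a
squarefree integer `ε 2^f m`, `ε = ±1`, `f = 0, 1`, `m` odd positive squarefree (multiply `a` by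
`(denominator)^2`, then `Nat.sq_mul_squarefree`), `P0` = set of the prime factors of `m`,
`m = ∏_{p ∈ P0} p`.
For `p ∉ P0` odd the valuation of `a` is 0 and the term vanishes; the term for `p = 2` is zero
(`resW_two`). For `p ∈ P0` the valuation of `a` is 1, `unitMod p a` is the class of the integer
`a / p = ε 2^f ∏_{q ∈ P0.erase p} q` (`unitMod_pow_mul`) and the term is
`p - 1 + (4 if a / p is not a square modulo p)` (`resW_cl`, `gamW_cl`, `WG.map_cl`). The signature is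
`ε`; on the right, `odd8 a`: the valuation is `f`, the unit part modulo 8 is `ε m`. So this is
`recip_arith`.
-/

open Matrix

namespace SpinWA

theorem rrecip_unit (p : ℕ) [Fact p.Prime] {z : ℤ} (h : ¬ (p : ℤ) ∣ z) :
    IsUnit (z : ℤ_[p]) := by
  rw [PadicInt.isUnit_iff]
  rcases lt_or_eq_of_le (PadicInt.norm_le_one (z : ℤ_[p])) with h1 | h1
  · exact absurd ((PadicInt.norm_int_lt_one_iff_dvd z).1 h1) h
  · exact h1

theorem rrecip_int (p : ℕ) [Fact p.Prime] {z z' : ℤ} (k : ℕ) (hz : z = (p : ℤ) ^ k * z') :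
    (z : ℚ_[p]) = (p : ℚ_[p]) ^ (k : ℤ) * (((z' : ℤ_[p])) : ℚ_[p]) := by
  rw [hz]
  push_cast
  rw [zpow_natCast]

theorem rrecip_val (p : ℕ) [Fact p.Prime] {z z' : ℤ} (k : ℕ) (hz : z = (p : ℤ) ^ k * z')
    (h : ¬ (p : ℤ) ∣ z') :
    (z : ℚ_[p]).valuation = k ∧ unitMod p (z : ℚ_[p]) = (z' : ZMod p) := by
  rw [rrecip_int p k hz]
  refine ⟨valuation_pow_mul p k _ (rrecip_unit p h), ?_⟩
  rw [unitMod_pow_mul p k _ (rrecip_unit p h), map_intCast]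

theorem rrecip_eight {z z' : ℤ} (k : ℕ) (hz : z = (2 : ℤ) ^ k * z') (h : ¬ (2 : ℤ) ∣ z') :
    (z : ℚ_[2]).valuation = k ∧ unitMod8 (z : ℚ_[2]) = (z' : ZMod 8) := by
  have h1 := rrecip_val 2 k (by simpa using hz) (by simpa using h)
  refine ⟨h1.1, ?_⟩
  have h2 := rrecip_int 2 k (z := z) (z' := z') (by simpa using hz)
  have h3 : (z : ℚ_[2]) * (2 : ℚ_[2]) ^ (-(z : ℚ_[2]).valuation) = (((z' : ℤ_[2])) : ℚ_[2]) := by
    rw [h1.1, h2]
    have h4 : ((2 : ℕ) : ℚ_[2]) ≠ 0 := by norm_num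
    push_cast
    rw [mul_comm, ← mul_assoc, ← zpow_add₀ (by norm_num : (2 : ℚ_[2]) ≠ 0), neg_add_cancel,
      zpow_zero, one_mul]
  have h5 : ‖(z : ℚ_[2]) * (2 : ℚ_[2]) ^ (-(z : ℚ_[2]).valuation)‖ ≤ 1 := by
    rw [h3]
    exact PadicInt.norm_le_one _
  unfold unitMod8
  rw [dif_pos h5]
  have h6 : (⟨(z : ℚ_[2]) * (2 : ℚ_[2]) ^ (-(z : ℚ_[2]).valuation), h5⟩ : ℤ_[2])
      = (z' : ℤ_[2]) := Subtype.ext h3
  rw [h6, map_intCast]

theorem rrecip_notdvd (ε : ℤ) (hε : ε = 1 ∨ ε = -1) (f : ℕ) (Q : Finset Nat.Primes)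
    (p : ℕ) (hp : p.Prime) (hf : p ≠ 2 ∨ f = 0) (hQ : ∀ q ∈ Q, (q : ℕ) ≠ p) :
    ¬ (p : ℤ) ∣ ε * 2 ^ f * ∏ q ∈ Q, ((q : ℕ) : ℤ) := by
  intro h
  have hpi : Prime (p : ℤ) := Nat.prime_iff_prime_int.1 hp
  rcases hpi.dvd_mul.1 h with h1 | h1
  · rcases hpi.dvd_mul.1 h1 with h2 | h2
    · rcases hε with h3 | h3
      · rw [h3] at h2
        exact hpi.not_isUnit (isUnit_of_dvd_one h2)
      · rw [h3] at h2
        exact hpi.not_isUnit (isUnit_of_dvd_one ((dvd_neg).1 h2))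
    · rcases hf with h3 | h3
      · have h4 := hpi.dvd_of_dvd_pow h2
        have h5 : p ∣ 2 := by exact_mod_cast h4
        exact h3 ((Nat.prime_dvd_prime_iff_eq hp Nat.prime_two).1 h5)
      · rw [h3, pow_zero] at h2
        exact hpi.not_isUnit (isUnit_of_dvd_one h2)
  · obtain ⟨q, hq, hq'⟩ := (Prime.dvd_finsetProd_iff hpi _).1 h1
    have h2 : p ∣ (q : ℕ) := by exact_mod_cast hq'
    exact hQ q hq ((Nat.prime_dvd_prime_iff_eq hp q.2).1 h2).symm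

open Classical in
/-- the case of a squarefree integer -/
theorem rrecip_key (ε : ℤ) (hε : ε = 1 ∨ ε = -1) (f : ℕ) (hf : f = 0 ∨ f = 1)
    (P0 : Finset Nat.Primes) (h2 : ∀ p ∈ P0, (p : ℕ) ≠ 2) (P : Finset Nat.Primes) (hP : P0 ⊆ P) :
    ((sgnW (WG.map (Rat.castHom ℝ)
      (cl (((ε * 2 ^ f * ∏ q ∈ P0, ((q : ℕ) : ℤ) : ℤ)) : ℚ))) : ℤ) : ZMod 8) +
      ∑ p ∈ P, gamW (p : ℕ) (resW (p : ℕ) (WG.map (Rat.castHom ℚ_[(p : ℕ)])
        (cl (((ε * 2 ^ f * ∏ q ∈ P0, ((q : ℕ) : ℤ) : ℤ)) : ℚ)))) =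
    gam2W (WG.map (Rat.castHom ℚ_[2])
      (cl (((ε * 2 ^ f * ∏ q ∈ P0, ((q : ℕ) : ℤ) : ℤ)) : ℚ))) := by
  set a : ℤ := ε * 2 ^ f * ∏ q ∈ P0, ((q : ℕ) : ℤ) with ha
  have hprod : 0 < ∏ q ∈ P0, ((q : ℕ) : ℤ) :=
    Finset.prod_pos fun q _ => by exact_mod_cast q.2.pos
  have hε0 : ε ≠ 0 := by rcases hε with h | h <;> rw [h] <;> norm_num
  have ha0 : a ≠ 0 := by
    rw [ha]
    exact mul_ne_zero (mul_ne_zero hε0 (pow_ne_zero _ (by norm_num))) hprod.ne'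
  -- signature
  have e1 : sgnW (WG.map (Rat.castHom ℝ) (cl ((a : ℤ) : ℚ))) = ε := by
    rw [WG.map_cl, map_intCast, sgnW_cl (by exact_mod_cast ha0)]
    rcases hε with h | h
    · have h3 : (0 : ℝ) < (a : ℝ) := by
        have : 0 < a := by
          rw [ha, h]
          positivity
        exact_mod_cast this
      rw [sign_pos h3, h]
      rfl
    · have h3 : (a : ℝ) < 0 := by
        have : a < 0 := by
          rw [ha, h]
          have : 0 < (2 : ℤ) ^ f * ∏ q ∈ P0, ((q : ℕ) : ℤ) := by positivity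
          linarith
        exact_mod_cast this
      rw [sign_neg h3, h]
      rfl
  -- the terms
  have e2 : ∀ p ∈ P0, gamW (p : ℕ) (resW (p : ℕ) (WG.map (Rat.castHom ℚ_[(p : ℕ)])
      (cl ((a : ℤ) : ℚ)))) = ((((p : ℕ) : ZMod 8) - 1) +
      (if IsSquare (((ε * 2 ^ f * ∏ q ∈ P0.erase p, ((q : ℕ) : ℤ) : ℤ)) : ZMod (p : ℕ))
          then 0 else 4)) := by
    intro p hp
    have h3 : a = ((p : ℕ) : ℤ) ^ 1 * (ε * 2 ^ f * ∏ q ∈ P0.erase p, ((q : ℕ) : ℤ)) := by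
      rw [ha, ← Finset.mul_prod_erase P0 _ hp]
      ring
    have h4 : ¬ ((p : ℕ) : ℤ) ∣ ε * 2 ^ f * ∏ q ∈ P0.erase p, ((q : ℕ) : ℤ) := by
      apply rrecip_notdvd ε hε f _ p p.2 (Or.inl (h2 p hp))
      intro q hq heq
      exact (Finset.mem_erase.1 hq).1 (Subtype.ext heq)
    have h5 := rrecip_val (p : ℕ) 1 h3 h4
    have h6 : ((a : ℤ) : ℚ_[(p : ℕ)]) ≠ 0 := by exact_mod_cast ha0
    rw [WG.map_cl, map_intCast, resW_cl (h2 p hp) h6, h5.1, h5.2, if_neg (by decide),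
      gamW_cl (h2 p hp)]
    intro h7
    apply h4
    exact (ZMod.intCast_zmod_eq_zero_iff_dvd _ _).1 h7
  have e3 : ∀ p ∈ P, p ∉ P0 → gamW (p : ℕ) (resW (p : ℕ) (WG.map (Rat.castHom ℚ_[(p : ℕ)])
      (cl ((a : ℤ) : ℚ)))) = 0 := by
    intro p _ hp
    by_cases hp2 : (p : ℕ) ≠ 2
    · have h3 : a = ((p : ℕ) : ℤ) ^ 0 * a := by ring
      have h4 : ¬ ((p : ℕ) : ℤ) ∣ a := by
        rw [ha]
        apply rrecip_notdvd ε hε f _ p p.2 (Or.inl hp2)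
        intro q hq heq
        apply hp
        have : q = p := Subtype.ext heq
        rw [← this]
        exact hq
      have h5 := rrecip_val (p : ℕ) 0 h3 h4
      have h6 : ((a : ℤ) : ℚ_[(p : ℕ)]) ≠ 0 := by exact_mod_cast ha0
      rw [WG.map_cl, map_intCast, resW_cl hp2 h6, h5.1, if_pos (by decide), map_zero]
    · unfold resW
      rw [dif_neg hp2]
      rw [AddMonoidHom.zero_apply, map_zero]
  have e4 : ∑ p ∈ P, gamW (p : ℕ) (resW (p : ℕ) (WG.map (Rat.castHom ℚ_[(p : ℕ)])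
      (cl ((a : ℤ) : ℚ)))) = ∑ p ∈ P0, ((((p : ℕ) : ZMod 8) - 1) +
      (if IsSquare (((ε * 2 ^ f * ∏ q ∈ P0.erase p, ((q : ℕ) : ℤ) : ℤ)) : ZMod (p : ℕ))
          then 0 else 4)) := by
    rw [← Finset.sum_subset hP e3]
    exact Finset.sum_congr rfl e2
  -- the 2-adic invariant
  have h3 : a = (2 : ℤ) ^ f * (ε * ∏ q ∈ P0, ((q : ℕ) : ℤ)) := by
    rw [ha]
    ring
  have h4 : ¬ (2 : ℤ) ∣ ε * ∏ q ∈ P0, ((q : ℕ) : ℤ) := by
    have := rrecip_notdvd ε hε 0 P0 2 Nat.prime_two (Or.inr rfl) h2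
    simpa using this
  have h5 := rrecip_eight f h3 h4
  have h6 : ((a : ℤ) : ℚ_[2]) ≠ 0 := by exact_mod_cast ha0
  have e5 : gam2W (WG.map (Rat.castHom ℚ_[2]) (cl ((a : ℤ) : ℚ))) =
      ((ε * ∏ q ∈ P0, ((q : ℕ) : ℤ) : ℤ) : ZMod 8) +
      (if f = 1 ∧ (((ε * ∏ q ∈ P0, ((q : ℕ) : ℤ) : ℤ) : ZMod 8) = 3 ∨
          ((ε * ∏ q ∈ P0, ((q : ℕ) : ℤ) : ℤ) : ZMod 8) = 5) then 4 else 0) := by
    rw [WG.map_cl, map_intCast, gam2W_cl h6]
    unfold odd8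
    rw [h5.1, h5.2]
    have h7 : (¬ Even ((f : ℕ) : ℤ)) ↔ f = 1 := by
      rcases hf with h | h
      · rw [h]
        simp
      · rw [h]
        simp
    simp only [h7]
  rw [e1, e4, e5]
  have h8 := recip_arith ε hε f hf P0 h2
  convert h8 using 2
  refine Finset.sum_congr rfl (fun p _ => ?_)
  congr

/-- every class of a nonzero rational number is of this form -/
theorem rrecip_exists (a : ℚ) (ha : a ≠ 0) : ∃ (ε : ℤ) (f : ℕ) (P0 : Finset Nat.Primes),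
    (ε = 1 ∨ ε = -1) ∧ (f = 0 ∨ f = 1) ∧ (∀ p ∈ P0, (p : ℕ) ≠ 2) ∧
    cl a = cl (((ε * 2 ^ f * ∏ q ∈ P0, ((q : ℕ) : ℤ) : ℤ)) : ℚ) := by
  have hden : (a.den : ℚ) ≠ 0 := by exact_mod_cast a.den_ne_zero
  set N : ℤ := a.num * a.den with hN
  have hN0 : N ≠ 0 := by
    rw [hN]
    exact mul_ne_zero (Rat.num_ne_zero.2 ha) (by exact_mod_cast a.den_ne_zero)
  have h1 : a * (a.den : ℚ) ^ 2 = (N : ℚ) := by
    rw [hN]
    push_cast
    rw [pow_two, ← mul_assoc, Rat.mul_den_eq_num]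
  obtain ⟨s, b, hsb, hs⟩ := Nat.sq_mul_squarefree N.natAbs
  have hs0 : s ≠ 0 := hs.ne_zero
  have hb0 : b ≠ 0 := by
    rintro rfl
    rw [zero_pow (by norm_num), zero_mul] at hsb
    exact hN0 (Int.natAbs_eq_zero.1 hsb.symm)
  obtain ⟨ε, hε, hNε⟩ : ∃ ε : ℤ, (ε = 1 ∨ ε = -1) ∧ N = ε * (N.natAbs : ℤ) := by
    rcases Int.natAbs_eq N with h | h
    · exact ⟨1, Or.inl rfl, by rw [one_mul]; exact h⟩
    · exact ⟨-1, Or.inr rfl, by rw [neg_one_mul]; exact h⟩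
  have h2 : (N : ℚ) = ((ε * (s : ℤ) : ℤ) : ℚ) * (b : ℚ) ^ 2 := by
    rw [hNε, ← hsb]
    push_cast
    ring
  have h3 : cl a = cl (((ε * (s : ℤ) : ℤ)) : ℚ) := by
    rw [← cl_mul_sq a hden, h1, h2, cl_mul_sq _ (by exact_mod_cast hb0)]
  obtain ⟨f, m, hf, hm2, hfm⟩ : ∃ f m : ℕ, (f = 0 ∨ f = 1) ∧ ¬ 2 ∣ m ∧ s = 2 ^ f * m := by
    by_cases h : 2 ∣ s
    · obtain ⟨m, hm⟩ := h
      refine ⟨1, m, Or.inr rfl, ?_, by rw [pow_one]; exact hm⟩
      intro h4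
      obtain ⟨m', hm'⟩ := h4
      have h5 := hs 2 ⟨m', by rw [hm, hm']; ring⟩
      exact absurd (Nat.isUnit_iff.1 h5) (by norm_num)
    · exact ⟨0, s, Or.inl rfl, h, by rw [pow_zero, one_mul]⟩
  have hmsq : Squarefree m := hs.squarefree_of_dvd ⟨2 ^ f, by rw [hfm]; ring⟩
  obtain ⟨P0, hP0, hprod⟩ : ∃ P0 : Finset Nat.Primes, (∀ p ∈ P0, (p : ℕ) ∣ m) ∧
      ∏ q ∈ P0, (q : ℕ) = m := by
    classical
    refine ⟨m.primeFactors.attach.image
      (fun q => (⟨q.1, Nat.prime_of_mem_primeFactors q.2⟩ : Nat.Primes)), ?_, ?_⟩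
    · intro p hp
      obtain ⟨q, _, rfl⟩ := Finset.mem_image.1 hp
      exact Nat.dvd_of_mem_primeFactors q.2
    · rw [Finset.prod_image]
      · have h4 := Finset.prod_attach m.primeFactors (fun q => q)
        rw [Nat.prod_primeFactors_of_squarefree hmsq] at h4
        exact h4
      · intro q _ q' _ h
        exact Subtype.ext (congrArg (fun z : Nat.Primes => (z : ℕ)) h)
  refine ⟨ε, f, P0, hε, hf, ?_, ?_⟩
  · intro p hp hp2
    have h4 := hP0 p hp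
    rw [hp2] at h4
    exact hm2 h4
  · have h4 : ∏ q ∈ P0, ((q : ℕ) : ℤ) = (m : ℤ) := by
      rw [← Nat.cast_prod, hprod]
    rw [h3, h4, hfm]
    congr 1
    push_cast
    ring

/-- Reciprocity: signature + the sum over the odd primes of the invariants of the residues is the
2-adic invariant, modulo 8. -/
theorem recip (x : WG ℚ) : ∃ P0 : Finset Nat.Primes, ∀ P : Finset Nat.Primes, P0 ⊆ P →
    ((sgnW (WG.map (Rat.castHom ℝ) x) : ℤ) : ZMod 8) +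
      ∑ p ∈ P, gamW (p : ℕ) (resW (p : ℕ) (WG.map (Rat.castHom ℚ_[(p : ℕ)]) x)) =
    gam2W (WG.map (Rat.castHom ℚ_[2]) x) := by
  induction x using WG.induction with
  | h0 =>
    refine ⟨∅, fun P _ => ?_⟩
    simp
  | h1 a ha =>
    obtain ⟨ε, f, P0, hε, hf, h2, hcl⟩ := rrecip_exists a ha
    refine ⟨P0, fun P hP => ?_⟩
    rw [hcl]
    exact rrecip_key ε hε f hf P0 h2 P hP
  | h2 x ih =>
    obtain ⟨P0, h⟩ := ih
    refine ⟨P0, fun P hP => ?_⟩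
    have h1 := h P hP
    simp only [map_neg, Int.cast_neg, Finset.sum_neg_distrib]
    rw [← h1]
    ring
  | h3 x y ihx ihy =>
    classical
    obtain ⟨P0, hx⟩ := ihx
    obtain ⟨P1, hy⟩ := ihy
    refine ⟨P0 ∪ P1, fun P hP => ?_⟩
    have h1 := hx P (Finset.subset_union_left.trans hP)
    have h2 := hy P (Finset.subset_union_right.trans hP)
    simp only [map_add, Int.cast_add, Finset.sum_add_distrib]
    rw [← h1, ← h2]
    ring

end SpinWA
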