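import Pool.Agent.H.MP_83e36b_nt.sp.RGam

/-!
# Forms of even rank over the field with `l = 1 mod 8` elements

PROOF. `-1` is a square in `ZMod l`, so `cl u + cl u = cl u + cl (-u) = 0`. The class of `u` only
depends on the square class of `u`. Let `k` be the number of nonsquares. `gamW`:
`card * (l - 1) + 4 k = 0` in `ZMod 8`, so `k` is even, and `card - k` is even, so the sum
is `0`.
-/

open Matrix

namespace SpinWA

theorem UEll_two {l : ℕ} [Fact l.Prime] (hl : l % 8 = 1) : (2 : ZMod l) ≠ 0 := by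
  intro h
  have h1 : ((2 : ℕ) : ZMod l) = 0 := by exact_mod_cast h
  rw [ZMod.natCast_eq_zero_iff] at h1
  have h2 := Nat.le_of_dvd (by norm_num) h1
  have h3 := (Fact.out : l.Prime).two_le
  have h4 : l = 2 := le_antisymm h2 h3
  rw [h4] at hl
  norm_num at hl

theorem UEll_tors {l : ℕ} [Fact l.Prime] (hl : l % 8 = 1) (u : ZMod l) :
    cl u + cl u = 0 := by
  have h1 : IsSquare (-1 : ZMod l) := by
    rw [ZMod.exists_sq_eq_neg_one_iff]
    omega
  obtain ⟨i, hi⟩ := h1
  have hi0 : i ≠ 0 := by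
    intro h
    rw [h, mul_zero] at hi
    exact one_ne_zero (neg_eq_zero.1 hi)
  have h2 : cl (-u) = cl u := by
    have h3 := cl_mul_sq u hi0
    have h4 : u * i ^ 2 = -u := by rw [pow_two, ← hi]; ring
    rw [h4] at h3
    exact h3
  have h5 := cl_neg (UEll_two hl) u
  rw [h2] at h5
  exact h5

theorem UEll_sq {l : ℕ} [Fact l.Prime] {u : ZMod l} (hu : u ≠ 0) (h : IsSquare u) :
    cl u = cl 1 := by
  obtain ⟨r, rfl⟩ := h
  have hr : r ≠ 0 := fun h0 => hu (by rw [h0, mul_zero])
  have := cl_mul_sq (1 : ZMod l) hr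
  rw [one_mul, pow_two] at this
  exact this

theorem UEll_nonsq {l : ℕ} [Fact l.Prime] (hl : l % 8 = 1) {u v : ZMod l} (hu : u ≠ 0)
    (hv : v ≠ 0) (h : ¬ IsSquare u) (h' : ¬ IsSquare v) : cl v = cl u := by
  have hc : ringChar (ZMod l) ≠ 2 := by
    rw [ZMod.ringChar_zmod_n]
    intro h4
    rw [h4] at hl
    norm_num at hl
  have h1 : quadraticChar (ZMod l) u = -1 := by
    rw [quadraticChar_neg_one_iff_not_isSquare]
    exact h
  have h2 : quadraticChar (ZMod l) v = -1 := by
    rw [quadraticChar_neg_one_iff_not_isSquare]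
    exact h'
  have h3 : IsSquare (u * v) := by
    rw [← quadraticChar_one_iff_isSquare (mul_ne_zero hu hv), map_mul, h1, h2]
    norm_num
  obtain ⟨r, hr⟩ := h3
  have hr0 : r ≠ 0 := by
    intro h0
    rw [h0, mul_zero] at hr
    exact mul_ne_zero hu hv hr
  have h5 := cl_mul_sq u (div_ne_zero hr0 hu)
  have h6 : u * (r / u) ^ 2 = v := by
    field_simp
    rw [pow_two, ← hr]
  rw [h6] at h5
  exact h5

theorem UEll_even_smul {A : Type*} [AddCommGroup A] {c : A} (hc : c + c = 0) {k : ℕ}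
    (hk : Even k) : k • c = 0 := by
  obtain ⟨m, rfl⟩ := hk
  rw [add_smul, ← smul_add, hc, smul_zero]

theorem even_rank_zero {l : ℕ} [Fact l.Prime] (hl : l % 8 = 1) {ι : Type*} [Fintype ι]
    (hι : Even (Fintype.card ι)) {u : ι → ZMod l} (hu : ∀ i, u i ≠ 0)
    (h : gamW l (∑ i, cl (u i)) = 0) : ∑ i, cl (u i) = 0 := by
  classical
  have hl2 : l ≠ 2 := by
    intro h4
    rw [h4] at hl
    norm_num at hl
  have hl1 : ((l : ℕ) : ZMod 8) = 1 := by
    rw [← ZMod.natCast_mod, hl]
    norm_num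
  obtain ⟨c, hcc, hc⟩ : ∃ c : WG (ZMod l), c + c = 0 ∧
      ∀ v : ZMod l, v ≠ 0 → ¬ IsSquare v → cl v = c := by
    by_cases hex : ∃ ν : ZMod l, ν ≠ 0 ∧ ¬ IsSquare ν
    · obtain ⟨ν, hν, hν'⟩ := hex
      exact ⟨cl ν, UEll_tors hl ν, fun v hv hv' => UEll_nonsq hl hν hv hν' hv'⟩
    · exact ⟨0, by simp, fun v hv hv' => absurd ⟨v, hv, hv'⟩ hex⟩
  have hsum : ∑ i, cl (u i) = ∑ i, (if IsSquare (u i) then cl (1 : ZMod l) else c) := by
    refine Finset.sum_congr rfl (fun i _ => ?_)
    by_cases hs : IsSquare (u i)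
    · rw [if_pos hs]
      exact UEll_sq (hu i) hs
    · rw [if_neg hs]
      exact hc _ (hu i) hs
  have hgam : gamW l (∑ i, cl (u i)) = ∑ i, (if IsSquare (u i) then (0 : ZMod 8) else 4) := by
    rw [map_sum]
    refine Finset.sum_congr rfl (fun i _ => ?_)
    rw [gamW_cl hl2 (hu i), hl1, sub_self, zero_add]
  rw [hgam, Finset.sum_ite, Finset.sum_const_zero, zero_add, Finset.sum_const] at h
  have hk : Even (Finset.univ.filter (fun i => ¬ IsSquare (u i))).card := by
    rw [nsmul_eq_mul] at h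
    have h1 : (((Finset.univ.filter (fun i => ¬ IsSquare (u i))).card * 4 : ℕ) : ZMod 8) = 0 := by
      push_cast
      exact h
    rw [ZMod.natCast_eq_zero_iff] at h1
    rw [Nat.even_iff]
    omega
  have hk2 : Even (Finset.univ.filter (fun i => IsSquare (u i))).card := by
    have h1 := Finset.card_filter_add_card_filter_not (s := (Finset.univ : Finset ι))
      (fun i => IsSquare (u i))
    rw [Finset.card_univ] at h1
    rw [Nat.even_iff] at *
    omega
  rw [hsum, Finset.sum_ite, Finset.sum_const, Finset.sum_const,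
    UEll_even_smul (UEll_tors hl 1) hk2, UEll_even_smul hcc hk, add_zero]

end SpinWA
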