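import Pool.Agent.H.MP_83e36b_nt.sp.KResG
import Pool.Agent.H.MP_83e36b_nt.sp.KEll
import Pool.Agent.H.MP_83e36b_nt.sp.RRecip
import Pool.Agent.H.MP_83e36b_nt.sp.RMilnor
import Pool.Agent.H.MP_83e36b_nt.sp.UEll
import Pool.Agent.H.MP_83e36b_nt.sp.RFin
import Pool.Agent.H.MP_83e36b_nt.sp.KSq

/-!
# The core theorem, second part: the prime `l`, reciprocity, Milnor's theorem

PROOF. (F) Let `D0` be the finite set of the primes `p` with `some p ∉ S`, `p ∉ T` and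
`‖dM G‖_p < 1` (finite since `dM G ≠ 0`, `norm_eq_one_finite`); for `p ∈ D0` the numbers `b`, `dA G`, `dB G` are
`p`-units; let `u p ∈ ZMod p` be the reduction of `b dA G dB G` (nonzero; `PadicInt.toZMod` of the
element of `ℤ_[p]`). Let `B` = the primes in `S` and `T`; `B`, `D0` are disjoint, `2 ∉ D0`. By
`exists_ell` there is a prime `l`, larger than all elements of `B ∪ D0`, `l ≡ 1` mod 8, `l ≡ 1` mod
`p` for the odd `p ∈ B`, `l ≡ u p` mod `p` for `p ∈ D0`.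
(G) `l` is a square in `Cpl v`, `v ∈ S` (`ell_square`). So over `Cpl v` `(-2 l) • hk1 G` and `(-2 * 1) • hk1 G` have the same class
(`cls_smul_mul_sq`) and with `x = coreF c l G - R0`: `WG.map (emb v) x = 0` for `v ∈ S`
(`coreF_map`, `hloc`; `det (hk1 G) = ± b dM G ≠ 0`, `det_hk1`).
(H) For `p` with `some p ∉ S`, `p ≠ l`: `resW p (WG.map x) = 0`: by `hR` and, for `p ∈ T`, the hypothesis
`hT` (`‖l - 1‖_p < 1`), for `p ∉ T` by `res_good` (for the lift of `G`, `c`, `l` to `ℤ_[p]`; `l` is a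
`p`-unit since `l ≠ p`; if `dM G` is not a unit then `p ∈ D0` and
`l b dA dB ≡ (u p)^2` is a square modulo `p`).
(I) `p = l`: `l ∉ B ∪ D0`, so `some l ∉ S`, `l ∉ T`, `dM G`, `b`, `c` are `l`-units and `G` is
`l`-integral: by `res_ell` (and `hR`) `resW l (WG.map x) = ∑ cl (u_i)` over `i : Fin (k+1)`, `k + 1`
even.
(J) `recip x` gives `P0`; use it for `P = P0 ∪ {l}`: the signature term is 0 and the 2-adic term is 0,
since `WG.map x = 0` at `none` and at `2` (`none, some 2 ∈ S`); the terms of the primes `p ≠ l` are 0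
(if `some p ∈ S` then `WG.map x = 0` at `p`). So `gamW l (∑ cl (u_i)) = 0` and by `even_rank_zero`
`∑ cl (u_i) = 0`. By `milnor` (`v2W_eq_zero`) `x = 0`.
Note: `emb (some p) = Rat.castHom ℚ_[p]`, `emb none = Rat.castHom ℝ` (by definition).
-/

open Topology Matrix Polynomial

namespace SpinWA

private theorem kstep_dM {p : ℕ} [Fact p.Prime] {k : ℕ} (G : Fin (k + 1) → ℚ)
    (G' : Fin (k + 1) → ℤ_[p]) (h : ∀ i, (G' i : ℚ_[p]) = (G i : ℚ_[p])) :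
    ((dM G' : ℤ_[p]) : ℚ_[p]) = ((dM G : ℚ) : ℚ_[p]) := by
  have h1 := dM_map (algebraMap ℤ_[p] ℚ_[p]) G'
  have h2 := dM_map (Rat.castHom ℚ_[p]) G
  have h3 : (fun i => algebraMap ℤ_[p] ℚ_[p] (G' i)) = fun i => (Rat.castHom ℚ_[p]) (G i) :=
    funext h
  rw [h3, ← h2] at h1
  exact h1

private theorem kstep_dA {p : ℕ} [Fact p.Prime] {k : ℕ} (G : Fin (k + 1) → ℚ)
    (G' : Fin (k + 1) → ℤ_[p]) (h : ∀ i, (G' i : ℚ_[p]) = (G i : ℚ_[p])) :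
    ((dA G' : ℤ_[p]) : ℚ_[p]) = ((dA G : ℚ) : ℚ_[p]) := by
  have h1 := dA_map (algebraMap ℤ_[p] ℚ_[p]) G'
  have h2 := dA_map (Rat.castHom ℚ_[p]) G
  have h3 : (fun i => algebraMap ℤ_[p] ℚ_[p] (G' i)) = fun i => (Rat.castHom ℚ_[p]) (G i) :=
    funext h
  rw [h3, ← h2] at h1
  exact h1

private theorem kstep_dB {p : ℕ} [Fact p.Prime] {k : ℕ} (G : Fin (k + 1) → ℚ)
    (G' : Fin (k + 1) → ℤ_[p]) (h : ∀ i, (G' i : ℚ_[p]) = (G i : ℚ_[p])) :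
    ((dB G' : ℤ_[p]) : ℚ_[p]) = ((dB G : ℚ) : ℚ_[p]) := by
  have h1 := dB_map (algebraMap ℤ_[p] ℚ_[p]) G'
  have h2 := dB_map (Rat.castHom ℚ_[p]) G
  have h3 : (fun i => algebraMap ℤ_[p] ℚ_[p] (G' i)) = fun i => (Rat.castHom ℚ_[p]) (G i) :=
    funext h
  rw [h3, ← h2] at h1
  exact h1

private theorem kstep_unit {p : ℕ} [Fact p.Prime] {u : ℤ_[p]} (h : ‖(u : ℚ_[p])‖ = 1) :
    IsUnit u := by
  rw [PadicInt.isUnit_iff, PadicInt.norm_def]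
  exact h

/-- The reduction of a rational number modulo a prime. -/
private noncomputable def kstep_red (p : ℕ) [Fact p.Prime] (x : ℚ) : ZMod p :=
  open Classical in
  if h : ‖(x : ℚ_[p])‖ ≤ 1 then PadicInt.toZMod (⟨(x : ℚ_[p]), h⟩ : ℤ_[p]) else 0

private theorem kstep_red_eq {p : ℕ} [Fact p.Prime] {x : ℚ} {w : ℤ_[p]}
    (h : (w : ℚ_[p]) = (x : ℚ_[p])) : kstep_red p x = PadicInt.toZMod w := by
  have h1 : ‖(x : ℚ_[p])‖ ≤ 1 := by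
    rw [← h]
    exact PadicInt.norm_le_one w
  unfold kstep_red
  rw [dif_pos h1]
  congr 1
  exact Subtype.ext h.symm

private theorem kstep_red_ne {p : ℕ} [Fact p.Prime] {x : ℚ} (h : ‖(x : ℚ_[p])‖ = 1) :
    kstep_red p x ≠ 0 := by
  have h1 : kstep_red p x = PadicInt.toZMod (⟨(x : ℚ_[p]), h.le⟩ : ℤ_[p]) := kstep_red_eq rfl
  rw [h1, ← runit_isUnit_iff]
  exact kstep_unit h

private theorem kstep_good {p : ℕ} [Fact p.Prime] (hp : p ≠ 2) {k : ℕ} (hev : Even (k + 1))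
    (c : ℚ) (l : ℕ) (hc : ‖(c : ℚ_[p])‖ = 1) (hl : ‖(l : ℚ_[p])‖ = 1)
    (G : Fin (k + 1) → ℚ) (hM : dM G ≠ 0) (hb : ‖(G 0 : ℚ_[p])‖ = 1)
    (hG : ∀ i, ‖(G i : ℚ_[p])‖ ≤ 1)
    (hcase : ‖((dM G : ℚ) : ℚ_[p])‖ = 1 ∨
      (‖((dA G : ℚ) : ℚ_[p])‖ = 1 ∧ ‖((dB G : ℚ) : ℚ_[p])‖ = 1 ∧
        (l : ZMod p) = kstep_red p (G 0 * dA G * dB G))) :
    resW p (coreF (c : ℚ_[p]) (((l : ℕ) : ℚ) : ℚ_[p]) fun i => (G i : ℚ_[p])) = 0 := by
  set G' : Fin (k + 1) → ℤ_[p] := fun i => ⟨(G i : ℚ_[p]), hG i⟩ with hG'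
  have hGG : ∀ i, (G' i : ℚ_[p]) = (G i : ℚ_[p]) := fun i => rfl
  have eM := kstep_dM G G' hGG
  have eA := kstep_dA G G' hGG
  have eB := kstep_dB G G' hGG
  set c' : ℤ_[p] := ⟨(c : ℚ_[p]), hc.le⟩ with hc'
  have hcu : IsUnit c' := kstep_unit (u := c') hc
  have hlcoe : (((l : ℕ) : ℤ_[p]) : ℚ_[p]) = ((l : ℕ) : ℚ_[p]) := PadicInt.coe_natCast l
  have hlu : IsUnit ((l : ℕ) : ℤ_[p]) := kstep_unit (by rw [hlcoe]; exact hl)
  have h0 : IsUnit (G' 0) := kstep_unit (u := G' 0) hb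
  have hM' : dM G' ≠ 0 := by
    intro h
    rw [h, PadicInt.coe_zero] at eM
    apply hM
    exact_mod_cast eM.symm
  have key := res_good hp hev hcu hlu G' h0 hM' (by
    rcases hcase with h1 | ⟨h1, h2, h3⟩
    · left
      exact kstep_unit (by rw [eM]; exact h1)
    · right
      refine ⟨kstep_unit (by rw [eA]; exact h1), kstep_unit (by rw [eB]; exact h2), ?_⟩
      have h4 : ((G' 0 * dA G' * dB G' : ℤ_[p]) : ℚ_[p]) =
          ((G 0 * dA G * dB G : ℚ) : ℚ_[p]) := by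
        rw [PadicInt.coe_mul, PadicInt.coe_mul, eA, eB, hGG 0]
        push_cast
        ring
      have h5 : ((l : ℕ) : ℤ_[p]) * G' 0 * dA G' * dB G' =
          ((l : ℕ) : ℤ_[p]) * (G' 0 * dA G' * dB G') := by ring
      rw [h5, map_mul, ← kstep_red_eq h4, ← h3, map_natCast]
      exact ⟨_, rfl⟩)
  have e1 : (((l : ℕ) : ℚ) : ℚ_[p]) = (((l : ℕ) : ℤ_[p]) : ℚ_[p]) := by
    rw [hlcoe]
    push_cast
    rfl
  rw [e1]
  exact key

private theorem kstep_ell {l : ℕ} [Fact l.Prime] (hl : l ≠ 2) {k : ℕ} (c : ℚ)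
    (hc : ‖(c : ℚ_[l])‖ = 1) (G : Fin (k + 1) → ℚ) (hb : ‖(G 0 : ℚ_[l])‖ = 1)
    (hG : ∀ i, ‖(G i : ℚ_[l])‖ ≤ 1) (hM : ‖((dM G : ℚ) : ℚ_[l])‖ = 1) :
    ∃ u : Fin (k + 1) → ZMod l, (∀ i, u i ≠ 0) ∧
      resW l (coreF (c : ℚ_[l]) (((l : ℕ) : ℚ) : ℚ_[l]) fun i => (G i : ℚ_[l])) =
        ∑ i, cl (u i) := by
  set G' : Fin (k + 1) → ℤ_[l] := fun i => ⟨(G i : ℚ_[l]), hG i⟩ with hG'
  have hGG : ∀ i, (G' i : ℚ_[l]) = (G i : ℚ_[l]) := fun i => rfl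
  have eM := kstep_dM G G' hGG
  set c' : ℤ_[l] := ⟨(c : ℚ_[l]), hc.le⟩ with hc'
  have hcu : IsUnit c' := kstep_unit (u := c') hc
  have h0 : IsUnit (G' 0) := kstep_unit (u := G' 0) hb
  have e1 : (((l : ℕ) : ℚ) : ℚ_[l]) = ((l : ℕ) : ℚ_[l]) := by
    push_cast
    rfl
  rw [e1]
  exact res_ell hl hcu G' h0 (kstep_unit (by rw [eM]; exact hM))

theorem core_step {k : ℕ} (h1k : 1 ≤ k) (hev : Even (k + 1)) (S : Finset Pl) (hS : none ∈ S)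
    (hSp : ∀ p : Nat.Primes, ((p : ℕ) ≤ k + 1 ∨ (p : ℕ) = 2) → some p ∈ S) (c b : ℚ)
    (hc0 : c ≠ 0) (hb : b ≠ 0) (hc : ∀ p : Nat.Primes, some p ∉ S → ‖(c : ℚ_[(p : ℕ)])‖ = 1)
    (R0 : WG ℚ) (hR : ∀ p : Nat.Primes, some p ∉ S →
      resW (p : ℕ) (WG.map (Rat.castHom ℚ_[(p : ℕ)]) R0) = 0)
    (G : Fin (k + 1) → ℚ) (T : Finset Nat.Primes) (hG0 : G 0 = b) (hTS : ∀ p ∈ T, some p ∉ S)
    (hM : (hk G).det ≠ 0)
    (hT : ∀ p ∈ T, ∀ l : ℚ, ‖(l : ℚ_[(p : ℕ)]) - 1‖ < 1 →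
        resW (p : ℕ) (coreF (c : ℚ_[(p : ℕ)]) (l : ℚ_[(p : ℕ)])
          fun i => (G i : ℚ_[(p : ℕ)])) = 0)
    (hgood : ∀ p : Nat.Primes, some p ∉ S → p ∉ T → ‖(b : ℚ_[(p : ℕ)])‖ = 1 ∧
        (∀ i, ‖(G i : ℚ_[(p : ℕ)])‖ ≤ 1) ∧
        (‖((dM G : ℚ) : ℚ_[(p : ℕ)])‖ = 1 ∨
          (‖((dA G : ℚ) : ℚ_[(p : ℕ)])‖ = 1 ∧ ‖((dB G : ℚ) : ℚ_[(p : ℕ)])‖ = 1)))
    (hloc : ∀ v ∈ S, coreF (emb v c) 1 (fun i => emb v (G i)) = WG.map (emb v) R0) :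
    ∃ l : ℚ, l ≠ 0 ∧ (∀ v ∈ S, ∃ r : Cpl v, r ≠ 0 ∧ r ^ 2 = emb v l) ∧ coreF c l G = R0 := by
  classical
  have hM' : dM G ≠ 0 := hM
  have hb' : G 0 ≠ 0 := by rw [hG0]; exact hb
  have hd1 : (hk1 G).det ≠ 0 := by
    rw [det_hk1]
    refine mul_ne_zero (mul_ne_zero (pow_ne_zero _ (neg_ne_zero.mpr one_ne_zero)) ?_) hM
    exact hb'
  have hp2 : ∀ p : Nat.Primes, some p ∉ S → (p : ℕ) ≠ 2 := fun p hp h => hp (hSp p (Or.inr h))
  set D : Finset Nat.Primes := (norm_eq_one_finite (dM G) hM').toFinset.filter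
    (fun p => some p ∉ S ∧ p ∉ T) with hD
  set B : Finset Nat.Primes := S.eraseNone ∪ T with hB
  have hmemB : ∀ p, p ∈ B ↔ (some p ∈ S ∨ p ∈ T) := by
    intro p
    rw [hB, Finset.mem_union, Finset.mem_eraseNone]
  have hmemD : ∀ p, p ∈ D ↔ (‖((dM G : ℚ) : ℚ_[(p : ℕ)])‖ ≠ 1 ∧ some p ∉ S ∧ p ∉ T) := by
    intro p
    rw [hD, Finset.mem_filter, Set.Finite.mem_toFinset]
    rfl
  have hBD : Disjoint B D := by
    rw [Finset.disjoint_left]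
    intro p h1 h2
    rw [hmemB] at h1
    rw [hmemD] at h2
    rcases h1 with h1 | h1
    · exact h2.2.1 h1
    · exact h2.2.2 h1
  have hDunit : ∀ p ∈ D, ‖((G 0 * dA G * dB G : ℚ) : ℚ_[(p : ℕ)])‖ = 1 := by
    intro p hp
    rw [hmemD] at hp
    obtain ⟨g1, -, g3⟩ := hgood p hp.2.1 hp.2.2
    rcases g3 with g3 | ⟨g3, g4⟩
    · exact absurd g3 hp.1
    · rw [Rat.cast_mul, Rat.cast_mul, norm_mul, norm_mul, g3, g4, hG0, g1, one_mul, one_mul]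
  obtain ⟨l, hlp, hlL, hl8, hlB, hlD⟩ := exists_ell B D hBD
    (fun p hp => hp2 p ((hmemD p).1 hp).2.1)
    (fun p => kstep_red (p : ℕ) (G 0 * dA G * dB G)) (fun p hp => kstep_red_ne (hDunit p hp))
    ((B ∪ D).sup fun p => (p : ℕ))
  obtain ⟨q, hql⟩ : ∃ q : Nat.Primes, (q : ℕ) = l := ⟨⟨l, hlp⟩, rfl⟩
  subst hql
  have hqBD : q ∉ B ∪ D := by
    intro h
    have h1 : (q : ℕ) ≤ (B ∪ D).sup fun p => (p : ℕ) :=
      Finset.le_sup (f := fun p : Nat.Primes => (p : ℕ)) h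
    exact absurd h1 (not_le.mpr hlL)
  rw [Finset.mem_union, not_or] at hqBD
  obtain ⟨hqB, hqD⟩ := hqBD
  rw [hmemB, not_or] at hqB
  obtain ⟨hqS, hqT⟩ := hqB
  have hl0 : ((q : ℕ) : ℚ) ≠ 0 := by exact_mod_cast hlp.ne_zero
  have hsq := ell_square S (q : ℕ) hlp hl8 (fun p hp h2 => hlB p ((hmemB p).2 (Or.inl hp)) h2)
  refine ⟨((q : ℕ) : ℚ), hl0, hsq, ?_⟩
  -- compatibility of the class with the maps
  have hcomp : ∀ v : Pl, WG.map (emb v) (coreF c ((q : ℕ) : ℚ) G) =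
      coreF (emb v c) (emb v ((q : ℕ) : ℚ)) fun i => emb v (G i) := fun v =>
    coreF_map (emb v) two_ne_zero two_ne_zero c ((q : ℕ) : ℚ) G hM hd1 hl0
  -- (G)
  have hzero : ∀ v ∈ S, WG.map (emb v) (coreF c ((q : ℕ) : ℚ) G - R0) = 0 := by
    intro v hv
    obtain ⟨r, hr, hr2⟩ := hsq v hv
    rw [map_sub, hcomp v, ← hloc v hv, sub_eq_zero]
    have hs1 : (hk1 fun i => emb v (G i))ᵀ = hk1 fun i => emb v (G i) := by
      ext i j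
      simp only [hk1, Matrix.transpose_apply, Matrix.of_apply]
      rw [add_comm (j : ℕ)]
    have hdv : (hk1 fun i => emb v (G i)).det ≠ 0 := by
      rw [← hk1_det_map]
      exact (map_ne_zero (emb v)).mpr hd1
    unfold coreF
    congr 1
    rw [← hr2, mul_one]
    exact cls_smul_mul_sq two_ne_zero hs1 hdv (neg_ne_zero.mpr two_ne_zero) hr
  -- (H)
  have hres : ∀ p : Nat.Primes, some p ∉ S → p ≠ q →
      resW (p : ℕ) (WG.map (Rat.castHom ℚ_[(p : ℕ)]) (coreF c ((q : ℕ) : ℚ) G - R0)) = 0 := by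
    intro p hpS hpq
    rw [map_sub, map_sub, hR p hpS, sub_zero]
    have h1 : WG.map (Rat.castHom ℚ_[(p : ℕ)]) (coreF c ((q : ℕ) : ℚ) G) =
        coreF (c : ℚ_[(p : ℕ)]) ((((q : ℕ) : ℕ) : ℚ) : ℚ_[(p : ℕ)])
          fun i => (G i : ℚ_[(p : ℕ)]) := hcomp (some p)
    rw [h1]
    by_cases hpT : p ∈ T
    · exact hT p hpT ((q : ℕ) : ℚ) (norm_sub_one_lt p (q : ℕ)
        (hlB p ((hmemB p).2 (Or.inr hpT)) (hp2 p hpS)))
    · obtain ⟨g1, g2, g3⟩ := hgood p hpS hpT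
      apply kstep_good (hp2 p hpS) hev c (q : ℕ) (hc p hpS) (norm_prime_eq_one p q hpq) G hM'
        (by rw [hG0]; exact g1) g2
      by_cases h5 : ‖((dM G : ℚ) : ℚ_[(p : ℕ)])‖ = 1
      · exact Or.inl h5
      · rcases g3 with g3 | ⟨g3, g4⟩
        · exact Or.inl g3
        · exact Or.inr ⟨g3, g4, hlD p ((hmemD p).2 ⟨h5, hpS, hpT⟩)⟩
  -- (I)
  have hq2 : (q : ℕ) ≠ 2 := hp2 q hqS
  have hdq : ‖((dM G : ℚ) : ℚ_[(q : ℕ)])‖ = 1 := by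
    by_contra h
    exact hqD ((hmemD q).2 ⟨h, hqS, hqT⟩)
  obtain ⟨g1, g2, -⟩ := hgood q hqS hqT
  obtain ⟨u, hu, hures⟩ := kstep_ell (l := (q : ℕ)) hq2 c (hc q hqS) G (by rw [hG0]; exact g1)
    g2 hdq
  have hresq : resW (q : ℕ) (WG.map (Rat.castHom ℚ_[(q : ℕ)]) (coreF c ((q : ℕ) : ℚ) G - R0)) =
      ∑ i, cl (u i) := by
    rw [map_sub, map_sub, hR q hqS, sub_zero, ← hures]
    exact congrArg (resW (q : ℕ)) (hcomp (some q))
  -- (J)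
  have hzp : ∀ p : Nat.Primes, some p ∈ S →
      WG.map (Rat.castHom ℚ_[(p : ℕ)]) (coreF c ((q : ℕ) : ℚ) G - R0) = 0 := fun p hp =>
    hzero (some p) hp
  have hz0 : WG.map (Rat.castHom ℝ) (coreF c ((q : ℕ) : ℚ) G - R0) = 0 := hzero none hS
  have hz2 : WG.map (Rat.castHom ℚ_[2]) (coreF c ((q : ℕ) : ℚ) G - R0) = 0 :=
    hzp ⟨2, Nat.prime_two⟩ (hSp ⟨2, Nat.prime_two⟩ (Or.inr rfl))
  obtain ⟨P0, hP0⟩ := recip (coreF c ((q : ℕ) : ℚ) G - R0)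
  have hrec := hP0 (insert q P0) (Finset.subset_insert _ _)
  rw [hz0, hz2, map_zero, map_zero, Int.cast_zero, zero_add,
    Finset.sum_eq_single_of_mem q (Finset.mem_insert_self _ _)] at hrec
  · rw [hresq] at hrec
    have hsum : ∑ i, cl (u i) = 0 :=
      even_rank_zero (l := (q : ℕ)) hl8 (by rw [Fintype.card_fin]; exact hev) hu hrec
    have hx : coreF c ((q : ℕ) : ℚ) G - R0 = 0 := by
      apply milnor
      · rw [hz0, map_zero]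
      · exact v2W_eq_zero hz2
      · intro p _
        by_cases hpS : some p ∈ S
        · rw [hzp p hpS, map_zero]
        · by_cases hpq : p = q
          · rw [hpq, hresq, hsum]
          · exact hres p hpS hpq
    exact sub_eq_zero.mp hx
  · intro p _ hpq
    by_cases hpS : some p ∈ S
    · rw [hzp p hpS, map_zero, map_zero]
    · rw [hres p hpS hpq, map_zero]

end SpinWA
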