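import Pool.Agent.H.MP_83e36b_nt.sp.KSetup
import Pool.Agent.H.MP_83e36b_nt.sp.KStep
import Pool.Agent.H.MP_83e36b_nt.sp.KCoreS
import Pool.Agent.H.MP_83e36b_nt.sp.LCls

/-!
# The core theorem

PROOF. `coreF_nhds`: `a ↦ (2 : K) • hk a` and `a ↦ (-2 * 1) • hk1 a` are continuous, symmetric, with
nonzero determinant at `g` (`det_hk1`: `det (hk1 g) = ± g_0 det (hk g)`), use `cls_nhds`; the summands
`cl 2 + cl (2 c cf a 0)` agree since `a 0 = g 0` (`cf a 0 = a 0`).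
`core`: for `v ∈ S` let `U' v ⊆ U v` be an open neighbourhood of `g v` on which the conclusion of
`coreF_nhds` holds. `core_setup` gives `G`, `T` (with `G 0 = b`, so `emb v (G 0) = g v 0`); by
`coreF_nhds` and `hcl` the hypothesis `hloc` of `core_step` holds. `core_step` gives `l`, and
`core_scale` (with the open sets `U' v`) gives `κ`, `G'`.
-/

open Topology Matrix Polynomial

namespace SpinWA

private theorem KCore_nhds {K : Type*} [NontriviallyNormedField K] [CompleteSpace K] [CharZero K]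
    {n : ℕ} (g : Fin n → K) (hd : (hk g).det ≠ 0) (h0 : cf g 0 ≠ 0) :
    ∀ᶠ a in 𝓝 g, (hk a).det ≠ 0 ∧ cf a 0 ≠ 0 ∧ cls ((2 : K) • hk a) = cls ((2 : K) • hk g) ∧
      cls ((-2 : K) • hk1 a) = cls ((-2 : K) • hk1 g) := by
  have h2 : (2 : K) ≠ 0 := two_ne_zero
  have e1 : ∀ᶠ a in 𝓝 g, (hk a).det ≠ 0 :=
    (Continuous.matrix_det continuous_hk).continuousAt.eventually_ne hd
  have e2 : ∀ᶠ a in 𝓝 g, cf a 0 ≠ 0 := (continuous_cf 0).continuousAt.eventually_ne h0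
  have hd1 : (hk1 g).det ≠ 0 := by
    rw [det_hk1]
    exact mul_ne_zero (mul_ne_zero (pow_ne_zero _ (neg_ne_zero.mpr one_ne_zero)) h0) hd
  have hs : ∀ (c : K) (a : Fin n → K), (c • hk a)ᵀ = c • hk a := fun c a => by
    rw [Matrix.transpose_smul, hk_transpose]
  have hs1 : ∀ (c : K) (a : Fin n → K), (c • hk1 a)ᵀ = c • hk1 a := fun c a => by
    rw [Matrix.transpose_smul, hk1_transpose]
  have hd2 : ((2 : K) • hk g).det ≠ 0 := by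
    rw [Matrix.det_smul]
    exact mul_ne_zero (pow_ne_zero _ h2) hd
  have hd3 : ((-2 : K) • hk1 g).det ≠ 0 := by
    rw [Matrix.det_smul]
    exact mul_ne_zero (pow_ne_zero _ (neg_ne_zero.mpr h2)) hd1
  have e3 := (continuous_hk.const_smul (2 : K)).continuousAt.eventually
    (cls_nhds h2 (hs 2 g) hd2)
  have e4 := (continuous_hk1.const_smul (-2 : K)).continuousAt.eventually
    (cls_nhds h2 (hs1 (-2) g) hd3)
  filter_upwards [e1, e2, e3, e4] with a h3 h4 h5 h6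
  exact ⟨h3, h4, (h5 (hs 2 a)).2, (h6 (hs1 (-2) a)).2⟩

private theorem KCore_cf {K : Type*} [CommRing K] {k : ℕ} (a : Fin (k + 1) → K) :
    cf a 0 = a 0 := by
  unfold cf
  rw [dif_pos (Nat.succ_pos k)]
  rfl

theorem coreF_nhds {K : Type*} [NontriviallyNormedField K] [CompleteSpace K] [CharZero K]
    {k : ℕ} (c : K) (g : Fin (k + 1) → K) (hd : (hk g).det ≠ 0) (h0 : g 0 ≠ 0) :
    ∀ᶠ a in 𝓝 g, a 0 = g 0 → coreF c 1 a = coreF c 1 g := by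
  filter_upwards [KCore_nhds g hd (by rw [KCore_cf]; exact h0)] with a ha h1
  unfold coreF
  rw [KCore_cf, KCore_cf, h1, mul_one, ha.2.2.1, ha.2.2.2]

/-- The classes `cls (2 • hk a)`, `cls ((-2) • hk1 a)` are locally constant. -/
theorem cls_hk_nhds {K : Type*} [NontriviallyNormedField K] [CompleteSpace K] [CharZero K]
    {n : ℕ} (g : Fin n → K) (hd : (hk g).det ≠ 0) (h0 : cf g 0 ≠ 0) :
    ∀ᶠ a in 𝓝 g, (hk a).det ≠ 0 ∧ cf a 0 ≠ 0 ∧ cls ((2 : K) • hk a) = cls ((2 : K) • hk g) ∧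
      cls ((-2 : K) • hk1 a) = cls ((-2 : K) • hk1 g) :=
  KCore_nhds g hd h0

theorem core {k : ℕ} (h1k : 1 ≤ k) (hev : Even (k + 1)) (S : Finset Pl) (hS : none ∈ S)
    (hSp : ∀ p : Nat.Primes, ((p : ℕ) ≤ k + 1 ∨ (p : ℕ) = 2) → some p ∈ S) (c b : ℚ)
    (hc0 : c ≠ 0) (hb : b ≠ 0) (hc : ∀ p : Nat.Primes, some p ∉ S → ‖(c : ℚ_[(p : ℕ)])‖ = 1)
    (R0 : WG ℚ) (hR : ∀ p : Nat.Primes, some p ∉ S →
      resW (p : ℕ) (WG.map (Rat.castHom ℚ_[(p : ℕ)]) R0) = 0)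
    (g : ∀ v, Fin (k + 1) → Cpl v) (hg0 : ∀ v ∈ S, g v 0 = emb v b)
    (hgd : ∀ v ∈ S, (hk (g v)).det ≠ 0)
    (hcl : ∀ v ∈ S, coreF (emb v c) 1 (g v) = WG.map (emb v) R0)
    (U : ∀ v, Set (Fin (k + 1) → Cpl v)) (hU : ∀ v ∈ S, U v ∈ 𝓝 (g v))
    (W : ∀ v, Set (Cpl v)) (hW : ∀ v ∈ S, W v ∈ 𝓝 (1 : Cpl v)) :
    ∃ (κ : ℚ) (G : Fin (k + 1) → ℚ), κ ≠ 0 ∧ G 0 = b * κ ^ 2 ∧ (hk G).det ≠ 0 ∧
      coreF c 1 G = R0 ∧ ∀ v ∈ S, (fun i => emb v (G i)) ∈ U v ∧ emb v κ ∈ W v := by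
  have h0 : ∀ v ∈ S, g v 0 ≠ 0 := fun v hv => by
    rw [hg0 v hv]
    exact (map_ne_zero (emb v)).mpr hb
  have hV : ∀ v, ∃ V : Set (Fin (k + 1) → Cpl v), v ∈ S → (g v ∈ V ∧ IsOpen V ∧ V ⊆ U v ∧
      ∀ a ∈ V, a 0 = g v 0 → coreF (emb v c) 1 a = coreF (emb v c) 1 (g v)) := by
    intro v
    by_cases hv : v ∈ S
    · have h1 := coreF_nhds (emb v c) (g v) (hgd v hv) (h0 v hv)
      obtain ⟨V, hVs, hVo, hVm⟩ := mem_nhds_iff.mp (Filter.inter_mem (hU v hv) h1)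
      exact ⟨V, fun _ => ⟨hVm, hVo, fun a ha => (hVs ha).1, fun a ha => (hVs ha).2⟩⟩
    · exact ⟨Set.univ, fun h => absurd h hv⟩
  choose V hV using hV
  obtain ⟨G, T, hG0, hGU, hTS, hM, hT, hgood⟩ := core_setup h1k hev S hS hSp c b hb hc g hg0 hgd V
    (fun v hv => (hV v hv).2.1.mem_nhds (hV v hv).1)
  have hloc : ∀ v ∈ S, coreF (emb v c) 1 (fun i => emb v (G i)) = WG.map (emb v) R0 :=
    fun v hv => by
      rw [(hV v hv).2.2.2 _ (hGU v hv) (by rw [hG0, hg0 v hv]), hcl v hv]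
  obtain ⟨l, hl, hls, hlc⟩ := core_step h1k hev S hS hSp c b hc0 hb hc R0 hR G T hG0 hTS hM hT
    hgood hloc
  obtain ⟨κ, G', hκ, hG'0, hG'd, hG'c, hG'U⟩ := core_scale hev S hS c l hc0 hl G hM
    (by rw [hG0]; exact hb) hls V (fun v hv => (hV v hv).2.1.mem_nhds (hGU v hv)) W hW
  exact ⟨κ, G', hκ, by rw [hG'0, hG0], hG'd, hG'c.trans hlc,
    fun v hv => ⟨(hV v hv).2.2.1 (hG'U v hv).1, (hG'U v hv).2⟩⟩

end SpinWA
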