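import Pool.Agent.H.MP_83e36b_nt.sp.ZWa
import Pool.Agent.H.MP_83e36b_nt.sp.XLoc

/-!
# Weak approximation for the variety of trace forms

PROOF. `n = 2 m + e`, `Q_v = Q.map (emb v)`.
(1) `x_loc` for every place `v` (with `U v` for `v ∈ S`, `Set.univ` for `v ∉ S`) gives `g v`, `y v`, `C v`
with `(C v)ᵀ Q_v (C v) = gamM (dbl e (g v))`, and neighbourhoods `U1 v`, `U2 v`, `U3 v` of `g v`, `y v`,
`C v` such that the last conclusion of `x_loc` holds on `U1 v × U2 v × U3 v`.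
(2) `z_wa` for the set of places `S ∪ {none}` gives `G`, `C'`, and `wa_fun` gives a rational `y`
with `emb v ∘ y ∈ U2 v` for `v ∈ S ∪ {none}`.
(3) `X' = xop e G y`: `det (kryM X') ≠ 0` (its image in `Cpl none` is nonzero; `xop_map`,
`kryM_det_map`), `det (hk (dbl e G)) ≠ 0` (`det_hk_dbl`, `det (C'ᵀ Q C') ≠ 0`). `bwd`:
`a' = cpc X'`, `B' = C' * kryM X'`: `B'ᵀ Q B' = (kryM X')ᵀ gamM (dbl e G) (kryM X') = hk a'`. The embedded
pair `(a', B')` is the pair of the embedded `(G, y, C')` (`cpc_map`, `xop_map`, `kryM_map`,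
`Matrix.map_mul`): in `U v`.
-/

open Topology Matrix Polynomial

namespace SpinWA

private theorem XWa_box {α β γ : Type*} [TopologicalSpace α] [TopologicalSpace β]
    [TopologicalSpace γ] {p : α × β × γ → Prop} {a : α} {b : β} {c : γ}
    (h : ∀ᶠ q in 𝓝 (a, b, c), p q) :
    ∃ U1 ∈ 𝓝 a, ∃ U2 ∈ 𝓝 b, ∃ U3 ∈ 𝓝 c, ∀ x ∈ U1, ∀ y ∈ U2, ∀ z ∈ U3, p (x, y, z) := by
  rw [Filter.Eventually, mem_nhds_prod_iff] at h
  obtain ⟨U1, hU1, W, hW, h2⟩ := h
  rw [mem_nhds_prod_iff] at hW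
  obtain ⟨U2, hU2, U3, hU3, h3⟩ := hW
  exact ⟨U1, hU1, U2, hU2, U3, hU3, fun x hx y hy z hz =>
    h2 (Set.mk_mem_prod hx (h3 (Set.mk_mem_prod hy hz)))⟩

theorem x_wa {m e : ℕ} (he : e ≤ 1) (hm : 2 ≤ m)
    {Q : Matrix (Fin (2 * m + e)) (Fin (2 * m + e)) ℚ} (hQ : Qᵀ = Q) (hd : Q.det ≠ 0)
    (S : Finset Pl)
    (x : ∀ v, (Fin (2 * m + e) → Cpl v) × Matrix (Fin (2 * m + e)) (Fin (2 * m + e)) (Cpl v))
    (hx : ∀ v, (x v).2ᵀ * Q.map (emb v) * (x v).2 = hk (x v).1 ∧ (x v).2.det ≠ 0)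
    (U : ∀ v, Set ((Fin (2 * m + e) → Cpl v) ×
      Matrix (Fin (2 * m + e)) (Fin (2 * m + e)) (Cpl v)))
    (hU : ∀ v ∈ S, U v ∈ 𝓝 (x v)) :
    ∃ (a : Fin (2 * m + e) → ℚ) (B : Matrix (Fin (2 * m + e)) (Fin (2 * m + e)) ℚ),
      Bᵀ * Q * B = hk a ∧ B.det ≠ 0 ∧
      ∀ v ∈ S, ((fun i => emb v (a i)), B.map (emb v)) ∈ U v := by
  classical
  have hQv : ∀ v, (Q.map (emb v))ᵀ = Q.map (emb v) := by
    intro v
    rw [← Matrix.transpose_map, hQ]
  have hdv : ∀ v, (Q.map (emb v)).det ≠ 0 := by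
    intro v
    have h1 : (Q.map (emb v)).det = emb v Q.det := by
      rw [RingHom.map_det, RingHom.mapMatrix_apply]
    rw [h1]
    exact (map_ne_zero (emb v)).2 hd
  have hU' : ∀ v, (if v ∈ S then U v else Set.univ) ∈ 𝓝 (x v) := by
    intro v
    split_ifs with hv
    · exact hU v hv
    · exact Filter.univ_mem
  have hloc := fun v => x_loc (emb v) he (hQv v) (hdv v) (x v) (hx v).1 (hx v).2 (hU' v)
  choose g y C hC hCd hev using hloc
  have hnb : ∀ v, ∃ U1 ∈ 𝓝 (g v), ∃ U2 ∈ 𝓝 (y v), ∃ U3 ∈ 𝓝 (C v),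
      ∀ a ∈ U1, ∀ b ∈ U2, ∀ c ∈ U3, (kryM (xop e a b)).det ≠ 0 ∧
        (cpc (xop e a b), c * kryM (xop e a b)) ∈ (if v ∈ S then U v else Set.univ) := by
    intro v
    obtain ⟨U1, hU1, U2, hU2, U3, hU3, h1⟩ := XWa_box (hev v)
    refine ⟨U1, hU1, U2, hU2, U3, hU3, fun a ha b hb c hc => ?_⟩
    have h4 := h1 a ha b hb c hc
    dsimp only at h4
    exact h4
  choose U1 hU1 U2 hU2 U3 hU3 hmem using hnb
  obtain ⟨G, C', hG, hC'd, hGC⟩ := z_wa he hm hQ hd (insert none S) g C hC hCd U1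
    (fun v _ => hU1 v) U3 (fun v _ => hU3 v)
  obtain ⟨y', hy'⟩ := wa_fun (insert none S) y U2 (fun v _ => hU2 v)
  have hall : ∀ v ∈ insert none S,
      (kryM ((xop e G y').map (emb v))).det ≠ 0 ∧
      (cpc ((xop e G y').map (emb v)), C'.map (emb v) * kryM ((xop e G y').map (emb v))) ∈
        (if v ∈ S then U v else Set.univ) := by
    intro v hv
    have h1 := hmem v _ (hGC v hv).1 _ (hy' v hv) _ (hGC v hv).2
    rw [← xop_map] at h1
    exact h1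
  have hX : (kryM (xop e G y')).det ≠ 0 := by
    intro h0
    apply (hall none (Finset.mem_insert_self _ _)).1
    rw [← kryM_det_map, h0, map_zero]
  have hgam : (gamM (dbl e G)).det ≠ 0 := by
    rw [← hG, Matrix.det_mul, Matrix.det_mul, Matrix.det_transpose]
    exact mul_ne_zero (mul_ne_zero hC'd hd) hC'd
  have hhk : (hk (dbl e G)).det ≠ 0 := (det_hk_dbl he G).2 hgam
  refine ⟨cpc (xop e G y'), C' * kryM (xop e G y'), ?_, ?_, ?_⟩
  · rw [← bwd he G y' hhk hX, ← hG, Matrix.transpose_mul]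
    simp only [Matrix.mul_assoc]
  · rw [Matrix.det_mul]
    exact mul_ne_zero hC'd hX
  · intro v hv
    have h1 := (hall v (Finset.mem_insert_of_mem hv)).2
    rw [if_pos hv] at h1
    have e1 : (fun i => emb v (cpc (xop e G y') i)) = cpc ((xop e G y').map (emb v)) := by
      funext i
      exact cpc_map (emb v) _ i
    rw [e1, Matrix.map_mul, kryM_map]
    exact h1

end SpinWA
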