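import Pool.Agent.H.MP_83e36b_nt.sp.WRefl
import Pool.Agent.H.MP_83e36b_nt.sp.WDiag

/-!
# Isometries are products of reflections

PROOF (weak Cartan-Dieudonne): take an orthogonal basis `v_i` with `q (v_i) ≠ 0`
(`exists_diag`: the columns of `P` with `Pᵀ Q P = diagonal d`). Show by induction on `k ≤ n` (order
the index type by `Fin n` after reindexing, or do induction over a `Finset` of indices) that some
product `R` of reflections satisfies `R O v_i = v_i` for the first `k` indices: let `O' = R O`,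
`w = O' v_k`. `w` is orthogonal to the `v_i`, `i < k` (since `O'` is an isometry fixing them),
`q w = q v_k`, and `q (w - v_k) + q (w + v_k) = 4 q (v_k) ≠ 0`. If `q (w - v_k) ≠ 0` the reflection
in `w - v_k` maps `w` to `v_k` and fixes the `v_i`, `i < k` (they are orthogonal to `w - v_k`).
Otherwise `q (w + v_k) ≠ 0`, the reflection in `w + v_k` maps `w` to `-v_k`, and then the
reflection in `v_k` maps it to `v_k`; both fix the `v_i`, `i < k`. At the end `R O = 1`, so
`O = R⁻¹` is a product of reflections (reverse the list, `rf_mul_self`).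
-/

open Matrix

namespace SpinWA

variable {ι K : Type*} [Fintype ι] [DecidableEq ι] [Field K]

omit [DecidableEq ι] in
theorem WCD_symm {Q : Matrix ι ι K} (hQ : Qᵀ = Q) (x y : ι → K) :
    x ⬝ᵥ (Q *ᵥ y) = y ⬝ᵥ (Q *ᵥ x) := by
  rw [dotProduct_mulVec, ← mulVec_transpose, hQ, dotProduct_comm]

omit [DecidableEq ι] in
theorem WCD_isom {Q O : Matrix ι ι K} (hO : Oᵀ * Q * O = Q) (x y : ι → K) :
    (O *ᵥ x) ⬝ᵥ (Q *ᵥ (O *ᵥ y)) = x ⬝ᵥ (Q *ᵥ y) := by
  conv_rhs => rw [← hO]
  rw [← mulVec_mulVec, ← mulVec_mulVec, dotProduct_mulVec x, vecMul_transpose]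

theorem WCD_rev {Q : Matrix ι ι K} (hQ : Qᵀ = Q) (l : List (ι → K))
    (hl : ∀ x ∈ l, qf Q x ≠ 0) :
    (l.reverse.map (rf Q)).prod * (l.map (rf Q)).prod = 1 := by
  induction l with
  | nil => simp
  | cons x t ih =>
    have h1 := ih (fun y hy => hl y (List.mem_cons_of_mem x hy))
    have h2 := rf_mul_self hQ (hl x List.mem_cons_self)
    rw [List.reverse_cons, List.map_append, List.prod_append, List.map_cons, List.map_nil,
      List.prod_cons, List.prod_nil, List.map_cons, List.prod_cons, mul_one]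
    calc (t.reverse.map (rf Q)).prod * rf Q x * (rf Q x * (t.map (rf Q)).prod)
        = (t.reverse.map (rf Q)).prod * ((rf Q x * rf Q x) * (t.map (rf Q)).prod) := by
          simp only [mul_assoc]
      _ = 1 := by rw [h2, one_mul, h1]

theorem WCD_step (h2 : (2 : K) ≠ 0) {Q : Matrix ι ι K} (hQ : Qᵀ = Q)
    {O : Matrix ι ι K} (hO : Oᵀ * Q * O = Q) (v : ι → ι → K)
    (hv0 : ∀ i j, i ≠ j → v i ⬝ᵥ (Q *ᵥ v j) = 0) (hv1 : ∀ i, qf Q (v i) ≠ 0) (s : Finset ι) :
    ∃ l : List (ι → K), (∀ x ∈ l, qf Q x ≠ 0) ∧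
      ∀ i ∈ s, ((l.map (rf Q)).prod * O) *ᵥ v i = v i := by
  induction s using Finset.induction_on with
  | empty => exact ⟨[], by simp, by simp⟩
  | insert k s hk ih =>
    obtain ⟨l, hl, hs⟩ := ih
    have hR := (refl_prod_isom hQ l hl).1
    set R := (l.map (rf Q)).prod with hRdef
    have hO' : (R * O)ᵀ * Q * (R * O) = Q := by
      rw [transpose_mul]
      calc Oᵀ * Rᵀ * Q * (R * O) = Oᵀ * (Rᵀ * Q * R) * O := by simp only [Matrix.mul_assoc]
        _ = Q := by rw [hR, hO]
    set w := (R * O) *ᵥ v k with hw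
    have hwq : qf Q w = qf Q (v k) := by
      unfold qf
      rw [hw]
      exact WCD_isom hO' (v k) (v k)
    have hws : ∀ i ∈ s, v i ⬝ᵥ (Q *ᵥ w) = 0 := by
      intro i hi
      have h1 := WCD_isom hO' (v i) (v k)
      rw [hs i hi] at h1
      rw [hw, h1]
      apply hv0
      intro hik
      rw [hik] at hi
      exact hk hi
    have hvs : ∀ i ∈ s, v i ⬝ᵥ (Q *ᵥ v k) = 0 := by
      intro i hi
      apply hv0
      intro hik
      rw [hik] at hi
      exact hk hi
    have hpar := qf_add_sub Q w (v k)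
    by_cases hc : qf Q (w - v k) = 0
    · have hc2 : qf Q (w + v k) ≠ 0 := by
        intro h0
        rw [h0, hc, hwq, add_zero, ← two_mul, ← mul_assoc] at hpar
        exact (mul_ne_zero (mul_ne_zero h2 h2) (hv1 k)) hpar.symm
      refine ⟨v k :: (w + v k) :: l, ?_, ?_⟩
      · intro x hx
        rcases List.mem_cons.1 hx with rfl | hx
        · exact hv1 k
        · rcases List.mem_cons.1 hx with rfl | hx
          · exact hc2
          · exact hl x hx
      · intro i hi
        rw [List.map_cons, List.map_cons, List.prod_cons, List.prod_cons, ← hRdef]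
        have e : (rf Q (v k) * (rf Q (w + v k) * R)) * O
            = rf Q (v k) * (rf Q (w + v k) * (R * O)) := by simp only [Matrix.mul_assoc]
        rw [e, ← mulVec_mulVec, ← mulVec_mulVec]
        rcases Finset.mem_insert.1 hi with rfl | hi
        · rw [← hw, rf_swap_neg hQ hwq hc2]
          exact rf_self (hv1 _)
        · have f1 : rf Q (w + v k) *ᵥ v i = v i := by
            apply rf_fix hQ
            rw [WCD_symm hQ, mulVec_add, dotProduct_add, hws i hi, hvs i hi, add_zero]
          have f2 : rf Q (v k) *ᵥ v i = v i := by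
            apply rf_fix hQ
            rw [WCD_symm hQ]
            exact hvs i hi
          rw [hs i hi, f1, f2]
    · refine ⟨(w - v k) :: l, ?_, ?_⟩
      · intro x hx
        rcases List.mem_cons.1 hx with rfl | hx
        · exact hc
        · exact hl x hx
      · intro i hi
        rw [List.map_cons, List.prod_cons, ← hRdef, Matrix.mul_assoc, ← mulVec_mulVec]
        rcases Finset.mem_insert.1 hi with rfl | hi
        · rw [← hw, rf_swap hQ hwq hc]
        · have f1 : rf Q (w - v k) *ᵥ v i = v i := by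
            apply rf_fix hQ
            rw [WCD_symm hQ, mulVec_sub, dotProduct_sub, hws i hi, hvs i hi, sub_zero]
          rw [hs i hi, f1]

/-- Every isometry is a product of reflections. -/
theorem exists_refl_prod (h2 : (2 : K) ≠ 0) {Q : Matrix ι ι K} (hQ : Qᵀ = Q) (hd : Q.det ≠ 0)
    {O : Matrix ι ι K} (hO : Oᵀ * Q * O = Q) :
    ∃ l : List (ι → K), (∀ x ∈ l, qf Q x ≠ 0) ∧ O = (l.map (rf Q)).prod := by
  obtain ⟨d, hd0, P, hP, hPQ⟩ := exists_diag h2 hQ hd
  have hv : ∀ i j, (fun k => P k i) ⬝ᵥ (Q *ᵥ (fun k => P k j)) = diagonal d i j := by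
    intro i j
    rw [← hPQ, Matrix.mul_assoc, Matrix.mul_apply]
    rfl
  obtain ⟨l, hl, hs⟩ := WCD_step h2 hQ hO (fun i k => P k i)
    (fun i j hij => by rw [hv i j, diagonal_apply_ne _ hij])
    (fun i => by
      unfold qf
      rw [hv i i, diagonal_apply_eq]
      exact hd0 i) Finset.univ
  set R := (l.map (rf Q)).prod with hRdef
  have hRO : R * O * P = P := by
    ext k i
    have h1 := congrFun (hs i (Finset.mem_univ i)) k
    rw [Matrix.mul_apply]
    exact h1
  have hRO1 : R * O = 1 := by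
    have hPu : P * P⁻¹ = 1 := Matrix.mul_nonsing_inv P (isUnit_iff_ne_zero.2 hP)
    calc R * O = R * O * (P * P⁻¹) := by rw [hPu, Matrix.mul_one]
      _ = (R * O * P) * P⁻¹ := by rw [Matrix.mul_assoc (R * O)]
      _ = 1 := by rw [hRO, hPu]
  refine ⟨l.reverse, fun x hx => hl x (List.mem_reverse.1 hx), ?_⟩
  have hrev := WCD_rev hQ l hl
  rw [← hRdef] at hrev
  calc O = ((l.reverse.map (rf Q)).prod * R) * O := by rw [hrev, Matrix.one_mul]
    _ = (l.reverse.map (rf Q)).prod * (R * O) := by rw [Matrix.mul_assoc]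
    _ = (l.reverse.map (rf Q)).prod := by rw [hRO1, Matrix.mul_one]

end SpinWA
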