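import Pool.Agent.H.MP_83e36b_nt.sp.KDef
import Pool.Agent.H.MP_83e36b_nt.sp.KKryB

/-!
# Scaling of the variable

PROOF. `ĝ(w) = π^n g(w/π)`, `ĝ_i = π^(n-i) g_i`, `D = diag(π^i)`: `D * cmp ĝ = π • (cmp g * D)` (check
entries), so `cmp ĝ = π • D⁻¹ (cmp g) D` and `psum ĝ k = π^k psum g k`. Hence
`hk ĝ = D hk(g) D`, `hk1 ĝ = π • (D hk1(g) D)`. Classes: congruence by `D` (`Cong`, `cls_cong`).
For `π = ρ ^ 2 μ`... see the statements: `cls_hk1_scale` has the factor `π`.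
-/

open Matrix Polynomial

namespace SpinWA

variable {K : Type*} [Field K] {n : ℕ}

/-- The coefficients of `π^n g(w/π)`. -/
def scl (π : K) (g : Fin n → K) : Fin n → K := fun i => π ^ (n - (i : ℕ)) * g i

theorem kscale_cmp (π : K) (g : Fin n → K) :
    (diagonal fun i : Fin n => π ^ (i : ℕ)) * cmp (scl π g) =
      π • (cmp g * (diagonal fun i : Fin n => π ^ (i : ℕ))) := by
  ext i j
  rw [Matrix.diagonal_mul, Matrix.smul_apply, Matrix.mul_diagonal, smul_eq_mul]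
  unfold cmp scl
  rw [Matrix.of_apply, Matrix.of_apply]
  by_cases hj : (j : ℕ) + 1 = n
  · rw [if_pos hj, if_pos hj]
    have h1 : π ^ (i : ℕ) * π ^ (n - (i : ℕ)) = π ^ n := by
      rw [← pow_add]
      congr 1
      have := i.2
      omega
    have h2 : π * π ^ (j : ℕ) = π ^ n := by rw [← pow_succ', hj]
    linear_combination -(g i) * h1 + g i * h2
  · rw [if_neg hj, if_neg hj]
    by_cases hi : (i : ℕ) = j + 1
    · rw [if_pos hi, hi, pow_succ]
      ring
    · rw [if_neg hi]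
      ring

theorem kscale_pow (π : K) (g : Fin n → K) (j : ℕ) :
    (diagonal fun i : Fin n => π ^ (i : ℕ)) * cmp (scl π g) ^ j =
      π ^ j • (cmp g ^ j * (diagonal fun i : Fin n => π ^ (i : ℕ))) := by
  induction j with
  | zero => rw [pow_zero, pow_zero, pow_zero, Matrix.mul_one, Matrix.one_mul, one_smul]
  | succ j ih =>
    rw [pow_succ, ← Matrix.mul_assoc, ih, Matrix.smul_mul, Matrix.mul_assoc, kscale_cmp,
      Matrix.mul_smul, smul_smul, ← Matrix.mul_assoc, ← pow_succ, ← pow_succ]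

theorem kscale_det {π : K} (hπ : π ≠ 0) :
    (diagonal fun i : Fin n => π ^ (i : ℕ)).det ≠ 0 := by
  rw [Matrix.det_diagonal]
  exact Finset.prod_ne_zero_iff.mpr fun i _ => pow_ne_zero _ hπ

theorem psum_scl {π : K} (hπ : π ≠ 0) (g : Fin n → K) (j : ℕ) :
    psum (scl π g) j = π ^ j * psum g j := by
  have hu : IsUnit (diagonal fun i : Fin n => π ^ (i : ℕ)).det :=
    isUnit_iff_ne_zero.2 (kscale_det hπ)
  have h := kscale_pow π g j
  generalize (diagonal fun i : Fin n => π ^ (i : ℕ)) = D at h hu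
  have h1 : cmp (scl π g) ^ j = D⁻¹ * (π ^ j • (cmp g ^ j * D)) := by
    rw [← h, ← Matrix.mul_assoc, Matrix.nonsing_inv_mul _ hu, Matrix.one_mul]
  unfold psum
  rw [h1, Matrix.mul_smul, Matrix.trace_smul, Matrix.trace_mul_comm, Matrix.mul_assoc,
    Matrix.mul_nonsing_inv _ hu, Matrix.mul_one, smul_eq_mul]

theorem hk_scl {π : K} (hπ : π ≠ 0) (g : Fin n → K) :
    hk (scl π g) = (diagonal fun i : Fin n => π ^ (i : ℕ)) * hk g *
      (diagonal fun i : Fin n => π ^ (i : ℕ)) := by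
  ext i j
  rw [Matrix.mul_diagonal, Matrix.diagonal_mul]
  unfold hk
  rw [Matrix.of_apply, Matrix.of_apply, psum_scl hπ, pow_add]
  ring

theorem hk1_scl {π : K} (hπ : π ≠ 0) (g : Fin n → K) :
    hk1 (scl π g) = π • ((diagonal fun i : Fin n => π ^ (i : ℕ)) * hk1 g *
      (diagonal fun i : Fin n => π ^ (i : ℕ))) := by
  ext i j
  rw [Matrix.smul_apply, Matrix.mul_diagonal, Matrix.diagonal_mul, smul_eq_mul]
  unfold hk1
  rw [Matrix.of_apply, Matrix.of_apply, psum_scl hπ, pow_succ, pow_add]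
  ring

theorem det_hk_scl {π : K} (hπ : π ≠ 0) (g : Fin n → K) :
    (hk (scl π g)).det ≠ 0 ↔ (hk g).det ≠ 0 := by
  rw [hk_scl hπ, Matrix.det_mul, Matrix.det_mul]
  have h := kscale_det (n := n) hπ
  constructor
  · intro h1 h2
    apply h1
    rw [h2, mul_zero, zero_mul]
  · intro h1
    exact mul_ne_zero (mul_ne_zero h h1) h

/-- Scaling by a diagonal matrix. -/
theorem kscale_cong (h2 : (2 : K) ≠ 0) {A : Matrix (Fin n) (Fin n) K} (hA : Aᵀ = A)
    (hd : A.det ≠ 0) {π c : K} (hπ : π ≠ 0) (hc : c ≠ 0) :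
    cls (c • ((diagonal fun i : Fin n => π ^ (i : ℕ)) * A *
      (diagonal fun i : Fin n => π ^ (i : ℕ)))) = cls (c • A) := by
  symm
  apply cls_cong h2
  · rw [Matrix.transpose_smul, hA]
  · rw [Matrix.det_smul]
    exact mul_ne_zero (pow_ne_zero _ hc) hd
  · refine ⟨_, kscale_det hπ, ?_⟩
    rw [Matrix.diagonal_transpose, Matrix.mul_smul, Matrix.smul_mul]

theorem cls_hk_scl (h2 : (2 : K) ≠ 0) {π : K} (hπ : π ≠ 0) (g : Fin n → K)
    (hd : (hk g).det ≠ 0) {c : K} (hc : c ≠ 0) : cls (c • hk (scl π g)) = cls (c • hk g) := by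
  rw [hk_scl hπ]
  exact kscale_cong h2 (hk_transpose g) hd hπ hc

theorem cls_hk1_scl (h2 : (2 : K) ≠ 0) {π : K} (hπ : π ≠ 0) (g : Fin n → K)
    (hd : (hk1 g).det ≠ 0) {c : K} (hc : c ≠ 0) :
    cls (c • hk1 (scl π g)) = cls ((c * π) • hk1 g) := by
  rw [hk1_scl hπ, smul_smul]
  exact kscale_cong h2 (hk1_transpose g) hd hπ (mul_ne_zero hc hπ)

theorem cls_smul_mul_sq (h2 : (2 : K) ≠ 0) {A : Matrix (Fin n) (Fin n) K} (hA : Aᵀ = A)
    (hd : A.det ≠ 0) {c r : K} (hc : c ≠ 0) (hr : r ≠ 0) :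
    cls ((c * r ^ 2) • A) = cls (c • A) := by
  have h1 : (c * r ^ 2) • A = r ^ 2 • (c • A) := by rw [smul_smul, mul_comm]
  rw [h1]
  apply cls_smul_sq h2 _ _ hr
  · rw [Matrix.transpose_smul, hA]
  · rw [Matrix.det_smul]
    exact mul_ne_zero (pow_ne_zero _ hc) hd

theorem cf_scl (π : K) (g : Fin n → K) : cf (scl π g) 0 = π ^ n * cf g 0 := by
  unfold cf scl
  rcases Nat.eq_zero_or_pos n with rfl | hn
  · simp
  · rw [dif_pos hn, dif_pos hn]
    simp

end SpinWA
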