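import Pool.Agent.H.MP_83e36b_nt.sp.WRect
import Pool.Agent.H.MP_83e36b_nt.sp.PMap
import Pool.Agent.H.MP_83e36b_nt.sp.KKryB

/-!
# The polynomial `X g(X)`

`rA g` = the matrix of `K[X]_{≤ m} → K[X]/g × K`, `f ↦ (f mod g, f(0))`.

PROOF. `red_hk_red`: `redM g` has the columns `e_0, …, e_{m-1}` and `(-g_i)_i`, i.e. column `j` is
`C^j e_0` (`C = cmp g`, `j ≤ m`), so entry `(i, j)` of `(redM g)ᵀ (hk g) (redM g)` is
`e_0ᵀ (C^i)ᵀ (hk g) C^j e_0 = e_0ᵀ (hk g) C^{i+j} e_0` (`hk g * C` is symmetric: `hk_mul_cmp`,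
`hk1_transpose`) and `e_0ᵀ (hk g) C^k e_0 = psum g k` for all `k` (linear recursion, or: `C^k =
∑ y_l C^l`, `l < m`). `psum_cons`: `psum (cons 0 g) k = psum g k + (if k = 0 then 1 else 0)`: the
companion matrix of `X g`: let `R = redM g`; `R cmp(cons 0 g) = cmp(g) R` (reduction modulo `g`
commutes with the multiplication by `X`) and `e_0ᵀ cmp(cons 0 g) = 0` (row 0 of `cmp (cons 0 g)` is
zero since its constant coefficient is 0). If `g_0 ≠ 0` then `rA g` (square) is invertible and
conjugates `cmp (cons 0 g)` to `cmp g ⊕ 0`, taking traces of powers gives the claim. For general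
`g` (over a commutative ring): `cmp (cons 0 g)` is block lower triangular: its first row is zero and
deleting the first row and column gives `cmp g` exactly. So the trace of its `k`-th power is
`0^k + Tr ((cmp g)^k)`.
`hk_cons`: combine: entry `(i, j)`: `psum g (i+j) + [i + j = 0]`. `rA_det`: expand along the last
row `e_0ᵀ`: the minor of `redM g` without the column 0 is the matrix with columns
`e_1, …, e_{m-1}, (-g_i)`, of determinant `± g_0` (for `m = 0`: everything is trivial, `cf g 0 = 1`).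
Only the square of the determinant is needed. `det_hk_cons`: determinants of `hk_cons`, `rect_det`.
`cls_hk_cons`: `cls_rect` for `2 • hk_cons` and `cls_blocks_one`.
`cls_gam_aux`: matrix `(2 psum g (i+j) + [i+j=0])` is `rAᵀ (2 hk g ⊕ 1) rA`; used for `e = 1`.
-/

open Matrix Polynomial

namespace SpinWA

/-- The matrix of `f ↦ (f mod g, f(0))`. -/
def rA {R : Type*} [CommRing R] {m : ℕ} (g : Fin m → R) : Matrix (Fin m ⊕ Fin 1) (Fin (m + 1)) R :=
  Matrix.of (Sum.elim (fun i => redM g i) (fun _ => e0 R (m + 1)))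

section
variable {R : Type*} [CommRing R] {m : ℕ}

private theorem DRed_cmp_pow_e0 (g : Fin m → R) (j : Fin m) :
    cmp g ^ (j : ℕ) *ᵥ e0 R m = fun i => if i = j then 1 else 0 := by
  ext i
  have h1 := congrFun (congrFun (kryM_cmp g) i) j
  rw [Matrix.one_apply] at h1
  exact h1

private theorem DRed_col (g : Fin m → R) (j : Fin (m + 1)) :
    (fun i => redM g i j) = cmp g ^ (j : ℕ) *ᵥ e0 R m := by
  have hjle : (j : ℕ) ≤ m := Nat.lt_succ_iff.mp j.isLt
  rcases Nat.lt_or_ge (j : ℕ) m with hj | hj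
  · have h1 : cmp g ^ (j : ℕ) *ᵥ e0 R m = fun i => if i = ⟨j, hj⟩ then 1 else 0 :=
      DRed_cmp_pow_e0 g ⟨j, hj⟩
    rw [h1]
    ext i
    unfold redM
    rw [Matrix.of_apply, if_neg (Nat.ne_of_lt hj)]
    congr 1
    rw [Fin.ext_iff]
  · have hjm : (j : ℕ) = m := le_antisymm hjle hj
    rcases Nat.eq_zero_or_pos m with hm | hm
    · subst hm
      ext i
      exact i.elim0
    · have hm1 : m - 1 < m := Nat.sub_lt hm Nat.one_pos
      have h1 : cmp g ^ (m - 1) *ᵥ e0 R m = fun i => if i = ⟨m - 1, hm1⟩ then 1 else 0 :=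
        DRed_cmp_pow_e0 g ⟨m - 1, hm1⟩
      have h2 : cmp g ^ (j : ℕ) *ᵥ e0 R m = cmp g *ᵥ (cmp g ^ (m - 1) *ᵥ e0 R m) := by
        rw [Matrix.mulVec_mulVec, ← pow_succ', Nat.sub_add_cancel hm, hjm]
      rw [h2, h1]
      ext i
      have h3 : (cmp g *ᵥ fun i : Fin m => if i = ⟨m - 1, hm1⟩ then (1 : R) else 0) i =
          cmp g i ⟨m - 1, hm1⟩ := by
        unfold Matrix.mulVec dotProduct
        rw [Finset.sum_eq_single (⟨m - 1, hm1⟩ : Fin m)]
        · beta_reduce
          rw [if_pos rfl, mul_one]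
        · intro b _ hb
          beta_reduce
          rw [if_neg hb, mul_zero]
        · intro hb
          exact absurd (Finset.mem_univ _) hb
      rw [h3]
      unfold redM cmp
      rw [Matrix.of_apply, Matrix.of_apply, if_pos hjm,
        if_pos (show ((⟨m - 1, hm1⟩ : Fin m) : ℕ) + 1 = m from Nat.sub_add_cancel hm)]

private theorem DRed_w (g : Fin m → R) (k : ℕ) :
    (fun j : Fin m => psum g (j : ℕ)) ⬝ᵥ (cmp g ^ k *ᵥ e0 R m) = psum g k := by
  obtain ⟨y, hy⟩ := commute_cmp g (M := cmp g ^ k) (by rw [← pow_succ, ← pow_succ'])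
  have h1 : cmp g ^ k *ᵥ e0 R m = y := by
    rw [hy, Matrix.sum_mulVec]
    ext i
    rw [Finset.sum_apply]
    rw [Finset.sum_eq_single i]
    · rw [Matrix.smul_mulVec, DRed_cmp_pow_e0, Pi.smul_apply, if_pos rfl, smul_eq_mul, mul_one]
    · intro b _ hb
      rw [Matrix.smul_mulVec, DRed_cmp_pow_e0, Pi.smul_apply, if_neg (Ne.symm hb), smul_zero]
    · intro hb
      exact absurd (Finset.mem_univ _) hb
  rw [h1]
  unfold psum
  rw [hy, Matrix.trace_sum]
  unfold dotProduct
  refine Finset.sum_congr rfl fun i _ => ?_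
  rw [Matrix.trace_smul, smul_eq_mul, mul_comm]

private theorem DRed_skew_pow (g : Fin m → R) (i : ℕ) :
    (cmp g ^ i)ᵀ * hk g = hk g * cmp g ^ i := by
  have h0 : (cmp g)ᵀ * hk g = hk g * cmp g := by
    have h1 := hk1_transpose g
    rw [← hk_mul_cmp, Matrix.transpose_mul, hk_transpose] at h1
    exact h1
  rw [Matrix.transpose_pow]
  induction i with
  | zero => simp
  | succ i ih =>
    rw [pow_succ, Matrix.mul_assoc, h0, ← Matrix.mul_assoc, ih, Matrix.mul_assoc, ← pow_succ]

private theorem DRed_e0_hk (g : Fin m → R) :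
    e0 R m ᵥ* hk g = fun j : Fin m => psum g (j : ℕ) := by
  ext j
  unfold Matrix.vecMul dotProduct
  have hm : 0 < m := lt_of_le_of_lt (Nat.zero_le _) j.isLt
  rw [Finset.sum_eq_single (⟨0, hm⟩ : Fin m)]
  · have h1 : e0 R m ⟨0, hm⟩ = 1 := if_pos rfl
    rw [h1, one_mul]
    change psum g (0 + (j : ℕ)) = psum g (j : ℕ)
    rw [Nat.zero_add]
  · intro b _ hb
    unfold e0
    rw [if_neg, zero_mul]
    intro hb0
    exact hb (Fin.ext hb0)
  · intro hb
    exact absurd (Finset.mem_univ _) hb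

theorem red_hk_red (g : Fin m → R) :
    (redM g)ᵀ * hk g * redM g = Matrix.of fun i j : Fin (m + 1) => psum g ((i : ℕ) + j) := by
  ext i j
  have h1 : ((redM g)ᵀ * hk g * redM g) i j =
      (cmp g ^ (i : ℕ) *ᵥ e0 R m) ⬝ᵥ (hk g *ᵥ (cmp g ^ (j : ℕ) *ᵥ e0 R m)) := by
    rw [Matrix.mul_assoc, ← DRed_col g i, ← DRed_col g j]
    rfl
  have h2 : (cmp g ^ (i : ℕ) *ᵥ e0 R m) ⬝ᵥ (hk g *ᵥ (cmp g ^ (j : ℕ) *ᵥ e0 R m)) =
      e0 R m ⬝ᵥ (((cmp g ^ (i : ℕ))ᵀ * hk g) *ᵥ (cmp g ^ (j : ℕ) *ᵥ e0 R m)) := by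
    rw [← Matrix.mulVec_mulVec, Matrix.dotProduct_mulVec (e0 R m),
      Matrix.vecMul_transpose]
  rw [h1, h2, DRed_skew_pow, ← Matrix.mulVec_mulVec, Matrix.mulVec_mulVec _ (cmp g ^ (i : ℕ)),
    ← pow_add, Matrix.dotProduct_mulVec, DRed_e0_hk, DRed_w, Matrix.of_apply]

private theorem DRed_redM_succ (g : Fin m → R) (i j : Fin m) : redM g i j.succ = cmp g i j := by
  unfold redM cmp
  rw [Matrix.of_apply, Matrix.of_apply, Fin.val_succ]

private theorem DRed_redM_castSucc (g : Fin m → R) (i j : Fin m) :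
    redM g i j.castSucc = if i = j then 1 else 0 := by
  unfold redM
  rw [Matrix.of_apply, Fin.val_castSucc, if_neg (Nat.ne_of_lt j.isLt)]
  congr 1
  rw [Fin.ext_iff]

private theorem DRed_redM_last (g : Fin m → R) (i : Fin m) : redM g i (Fin.last m) = - g i := by
  unfold redM
  rw [Matrix.of_apply, Fin.val_last, if_pos rfl]

private theorem DRed_cc_zero (g : Fin m → R) (j : Fin (m + 1)) :
    cmp (Fin.cons 0 g : Fin (m + 1) → R) 0 j = 0 := by
  unfold cmp
  rw [Matrix.of_apply, Fin.cons_zero, neg_zero, Fin.val_zero,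
    if_neg (Nat.succ_ne_zero (j : ℕ)).symm, ite_self]

private theorem DRed_cc_succ (g : Fin m → R) (i j : Fin m) :
    cmp (Fin.cons 0 g : Fin (m + 1) → R) i.succ j.succ = cmp g i j := by
  unfold cmp
  rw [Matrix.of_apply, Matrix.of_apply, Fin.cons_succ, Fin.val_succ, Fin.val_succ]
  simp only [Nat.add_right_cancel_iff]

private theorem DRed_cc_castSucc (g : Fin m → R) (k : Fin (m + 1)) (j : Fin m) :
    cmp (Fin.cons 0 g : Fin (m + 1) → R) k j.castSucc = if k = j.succ then 1 else 0 := by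
  unfold cmp
  have h1 : ¬ ((j.castSucc : Fin (m + 1)) : ℕ) + 1 = m + 1 := by
    rw [Fin.val_castSucc]
    have := j.isLt
    omega
  rw [Matrix.of_apply, if_neg h1, Fin.val_castSucc]
  congr 1
  rw [Fin.ext_iff, Fin.val_succ]

private theorem DRed_cc_last (g : Fin m → R) (k : Fin (m + 1)) :
    cmp (Fin.cons 0 g : Fin (m + 1) → R) k (Fin.last m) = - (Fin.cons 0 g : Fin (m + 1) → R) k := by
  unfold cmp
  rw [Matrix.of_apply, Fin.val_last, if_pos rfl]

theorem redM_cmp (g : Fin m → R) :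
    redM g * cmp (Fin.cons 0 g : Fin (m + 1) → R) = cmp g * redM g := by
  ext i j
  rw [Matrix.mul_apply, Matrix.mul_apply]
  refine Fin.lastCases ?_ (fun j => ?_) j
  · rw [Fin.sum_univ_succ, DRed_cc_zero, mul_zero, zero_add]
    refine Finset.sum_congr rfl fun k _ => ?_
    rw [DRed_cc_last, Fin.cons_succ, DRed_redM_succ, DRed_redM_last]
  · rw [Finset.sum_eq_single j.succ, Finset.sum_eq_single j]
    · rw [DRed_cc_castSucc, if_pos rfl, mul_one, DRed_redM_succ, DRed_redM_castSucc, if_pos rfl,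
        mul_one]
    · intro b _ hb
      rw [DRed_redM_castSucc, if_neg hb, mul_zero]
    · intro hb
      exact absurd (Finset.mem_univ _) hb
    · intro b _ hb
      rw [DRed_cc_castSucc, if_neg hb, mul_zero]
    · intro hb
      exact absurd (Finset.mem_univ _) hb

private theorem DRed_cc_pow (g : Fin m → R) (k : ℕ) (i j : Fin m) :
    (cmp (Fin.cons 0 g : Fin (m + 1) → R) ^ k) i.succ j.succ = (cmp g ^ k) i j := by
  induction k generalizing j with
  | zero =>
    rw [pow_zero, pow_zero, Matrix.one_apply, Matrix.one_apply]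
    congr 1
    rw [Fin.succ_inj]
  | succ k ih =>
    rw [pow_succ, pow_succ, Matrix.mul_apply, Matrix.mul_apply, Fin.sum_univ_succ,
      DRed_cc_zero, mul_zero, zero_add]
    refine Finset.sum_congr rfl fun l _ => ?_
    rw [ih, DRed_cc_succ]

theorem psum_cons (g : Fin m → R) (k : ℕ) :
    psum (Fin.cons 0 g : Fin (m + 1) → R) k = psum g k + (if k = 0 then 1 else 0) := by
  unfold psum Matrix.trace
  rw [Fin.sum_univ_succ, add_comm]
  congr 1
  · refine Finset.sum_congr rfl fun i _ => ?_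
    rw [Matrix.diag_apply, Matrix.diag_apply, DRed_cc_pow]
  · rw [Matrix.diag_apply]
    cases k with
    | zero => rw [pow_zero, Matrix.one_apply_eq, if_pos rfl]
    | succ k =>
      rw [pow_succ', Matrix.mul_apply, if_neg (Nat.succ_ne_zero k)]
      refine Finset.sum_eq_zero fun l _ => ?_
      rw [DRed_cc_zero, zero_mul]

/-- `c H_g ⊕ 1` in the coordinates of `K[X]_{≤ m}`. -/
theorem rA_form (g : Fin m → R) (c d : R) :
    (rA g)ᵀ * fromBlocks (c • hk g) 0 0 (diagonal fun _ : Fin 1 => d) * rA g =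
      Matrix.of fun i j : Fin (m + 1) => c * psum g ((i : ℕ) + j) +
        (if (i : ℕ) + j = 0 then d else 0) := by
  have h0 : rA g = fromRows (redM g) (Matrix.of fun _ : Fin 1 => e0 R (m + 1)) := by
    ext i j
    rcases i with i | i
    · rfl
    · rfl
  rw [h0, Matrix.transpose_fromRows, Matrix.fromCols_mul_fromBlocks, Matrix.fromCols_mul_fromRows,
    Matrix.mul_zero, Matrix.mul_zero, add_zero, zero_add, Matrix.mul_smul, Matrix.smul_mul,
    red_hk_red]
  ext i j
  rw [Matrix.add_apply, Matrix.smul_apply, Matrix.of_apply, Matrix.of_apply, smul_eq_mul]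
  congr 1
  rw [Matrix.mul_apply]
  simp only [Matrix.mul_diagonal, Matrix.transpose_apply, Matrix.of_apply, Finset.univ_unique,
    Finset.sum_singleton]
  unfold e0
  by_cases hi : (i : ℕ) = 0
  · by_cases hj : (j : ℕ) = 0
    · rw [if_pos hi, if_pos hj, if_pos (show (i : ℕ) + (j : ℕ) = 0 by omega), one_mul, mul_one]
    · rw [if_neg hj, if_neg (show ¬ (i : ℕ) + (j : ℕ) = 0 by omega), mul_zero]
  · rw [if_neg hi, if_neg (show ¬ (i : ℕ) + (j : ℕ) = 0 by omega), zero_mul, zero_mul]

private theorem DRed_det_cmp (g : Fin m → R) : (cmp g).det ^ 2 = cf g 0 ^ 2 := by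
  cases m with
  | zero =>
    rw [Matrix.det_fin_zero]
    unfold cf
    simp
  | succ m =>
    have h1 : (cmp g).det = (-1) ^ m * (- g 0) := by
      rw [Matrix.det_succ_row_zero, Finset.sum_eq_single (Fin.last m)]
      · have h2 : (cmp g).submatrix Fin.succ (Fin.last m).succAbove = 1 := by
          ext i j
          rw [Matrix.submatrix_apply, Fin.succAbove_last, Matrix.one_apply]
          unfold cmp
          have h3 : ¬ ((j.castSucc : Fin (m + 1)) : ℕ) + 1 = m + 1 := by
            rw [Fin.val_castSucc]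
            have := j.isLt
            omega
          rw [Matrix.of_apply, if_neg h3, Fin.val_castSucc, Fin.val_succ]
          congr 1
          rw [Fin.ext_iff, Nat.add_right_cancel_iff]
        rw [h2, Matrix.det_one, mul_one, Fin.val_last]
        congr 1
        unfold cmp
        rw [Matrix.of_apply, Fin.val_last, if_pos rfl]
      · intro b _ hb
        have h3 : ¬ (b : ℕ) + 1 = m + 1 := by
          intro h
          exact hb (Fin.ext (by rw [Fin.val_last]; omega))
        have h4 : cmp g 0 b = 0 := by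
          unfold cmp
          rw [Matrix.of_apply, if_neg h3, Fin.val_zero, if_neg (Nat.succ_ne_zero _).symm]
        rw [h4, mul_zero, zero_mul]
      · intro hb
        exact absurd (Finset.mem_univ _) hb
    rw [h1, mul_pow, ← pow_mul, mul_comm m 2, pow_mul, neg_one_sq, one_pow, one_mul, neg_sq]
    unfold cf
    rw [dif_pos (Nat.succ_pos m)]
    rfl

theorem rA_det (g : Fin m → R) : ((rA g).submatrix id finSumFinEquiv).det ^ 2 = cf g 0 ^ 2 := by
  set B : Matrix (Fin (m + 1)) (Fin (m + 1)) R := (rA g).submatrix finSumFinEquiv.symm id with hB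
  have h1 : (rA g).submatrix id finSumFinEquiv = B.submatrix finSumFinEquiv finSumFinEquiv := by
    rw [hB, Matrix.submatrix_submatrix]
    congr 1
    funext x
    simp
  have hlast : finSumFinEquiv.symm (Fin.last m) = (Sum.inr 0 : Fin m ⊕ Fin 1) := by
    rw [Equiv.symm_apply_eq]
    apply Fin.ext
    simp
  have hcast : ∀ i : Fin m, finSumFinEquiv.symm i.castSucc = (Sum.inl i : Fin m ⊕ Fin 1) := by
    intro i
    rw [Equiv.symm_apply_eq]
    apply Fin.ext
    simp
  have h2 : B.det = (-1) ^ m * (cmp g).det := by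
    rw [Matrix.det_succ_row B (Fin.last m), Finset.sum_eq_single 0]
    · have h3 : B.submatrix (Fin.last m).succAbove (0 : Fin (m + 1)).succAbove = cmp g := by
        ext i j
        rw [Matrix.submatrix_apply, Fin.succAbove_last, Fin.succAbove_zero, hB,
          Matrix.submatrix_apply, hcast, id, ← DRed_redM_succ]
        rfl
      have h4 : B (Fin.last m) 0 = 1 := by
        rw [hB, Matrix.submatrix_apply, hlast]
        rfl
      rw [h3, h4, mul_one, Fin.val_last, Fin.val_zero, add_zero]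
    · intro b _ hb
      have h4 : B (Fin.last m) b = 0 := by
        rw [hB, Matrix.submatrix_apply, hlast]
        change e0 R (m + 1) b = 0
        unfold e0
        rw [if_neg]
        intro h
        exact hb (Fin.ext h)
      rw [h4, mul_zero, zero_mul]
    · intro hb
      exact absurd (Finset.mem_univ _) hb
  rw [h1, Matrix.det_submatrix_equiv_self, h2, mul_pow, ← pow_mul, mul_comm m 2, pow_mul,
    neg_one_sq, one_pow, one_mul, DRed_det_cmp]

end

section
variable {K : Type*} [Field K] {m : ℕ}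

private theorem DRed_form (g : Fin m → K) (c : K) :
    (rA g)ᵀ * fromBlocks (c • hk g) 0 0 (diagonal fun _ : Fin 1 => c) * rA g =
      c • hk (Fin.cons 0 g : Fin (m + 1) → K) := by
  rw [rA_form]
  ext i j
  rw [Matrix.of_apply, Matrix.smul_apply, smul_eq_mul]
  unfold hk
  rw [Matrix.of_apply, psum_cons, mul_add, mul_ite, mul_one, mul_zero]

theorem hk_cons (g : Fin m → K) : (rA g)ᵀ * fromBlocks (hk g) 0 0 (diagonal fun _ : Fin 1 => 1) *
    rA g = hk (Fin.cons 0 g : Fin (m + 1) → K) := by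
  have h1 := DRed_form g 1
  rw [one_smul, one_smul] at h1
  exact h1

theorem det_hk_cons (g : Fin m → K) :
    (hk (Fin.cons 0 g : Fin (m + 1) → K)).det = cf g 0 ^ 2 * (hk g).det := by
  rw [rect_det (rA g) finSumFinEquiv (hk_cons g), rA_det, Matrix.det_fromBlocks_zero₂₁,
    Matrix.det_diagonal]
  simp

theorem cls_hk_cons (h2 : (2 : K) ≠ 0) (g : Fin m → K) (hd : (hk g).det ≠ 0) (h0 : cf g 0 ≠ 0) :
    cls ((2 : K) • hk (Fin.cons 0 g : Fin (m + 1) → K)) = cls ((2 : K) • hk g) + cl 2 := by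
  have hd2 : ((2 : K) • hk g).det ≠ 0 := by
    rw [Matrix.det_smul]
    exact mul_ne_zero (pow_ne_zero _ h2) hd
  have hs2 : ((2 : K) • hk g)ᵀ = (2 : K) • hk g := by
    rw [Matrix.transpose_smul, hk_transpose]
  have hA : ((2 : K) • hk (Fin.cons 0 g : Fin (m + 1) → K)).det ≠ 0 := by
    rw [Matrix.det_smul, det_hk_cons]
    exact mul_ne_zero (pow_ne_zero _ h2) (mul_ne_zero (pow_ne_zero _ h0) hd)
  have hB : (fromBlocks ((2 : K) • hk g) 0 0 (diagonal fun _ : Fin 1 => (2 : K)))ᵀ =
      fromBlocks ((2 : K) • hk g) 0 0 (diagonal fun _ : Fin 1 => (2 : K)) := by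
    rw [Matrix.fromBlocks_transpose, hs2, Matrix.diagonal_transpose, Matrix.transpose_zero,
      Matrix.transpose_zero]
  rw [cls_rect h2 (rA g) finSumFinEquiv (DRed_form g 2) hA hB, cls_blocks_one h2 hs2 hd2 h2]

end

end SpinWA
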