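import Pool.Agent.H.MP_83e36b_nt.sp.KDef
import Pool.Agent.H.MP_83e36b_nt.sp.DRed
import Pool.Agent.H.MP_83e36b_nt.sp.CRoot

/-!
# The polynomial `u^m - θ u`

PROOF. `m = k + 1` even, so `k ≥ 1` is odd. `a = lineP 0 (-θ) 0 = Fin.cons 0 a1` with
`a1 : Fin k → F`, `a1 i = if i = 0 then -θ else 0`, `monicPoly a1 = X^k - C θ`, `cf a1 0 = -θ`.
By `det_hk_cons`: `dM a = (-θ)^2 det (hk a1)`. By `psum_cons` (`i + j + 1 ≥ 1`) the leading
minor of `hk1 a` is `hk1 a1`: `psum a (i+j+1) = psum a1 (i+j+1)`, so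
`dB a = det (hk1 a1) = (-1)^k (-θ) det (hk a1) = θ det (hk a1)` (`det_hk1`, `k` odd). The product is
`θ (θ det (hk a1))^2`. `det (hk a1) ≠ 0` by `det_hk_ne_zero_of_separable`:
`X^k - C θ` is separable since `(k : F) ≠ 0` and `θ ≠ 0` (`Polynomial.separable_X_pow_sub_C` or
`X_pow_sub_C_separable...`).
-/

open Matrix Polynomial

namespace SpinWA

/-- The coefficients of `X^k - θ`. -/
def KMod_a {F : Type*} [Field F] (k : ℕ) (θ : F) : Fin k → F := fun i =>
  if (i : ℕ) = 0 then -θ else 0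

theorem KMod_line {F : Type*} [Field F] (k : ℕ) (θ : F) :
    (lineP 0 (-θ) 0 : Fin (k + 1) → F) = Fin.cons 0 (KMod_a k θ) := by
  funext i
  refine Fin.cases ?_ (fun i => ?_) i
  · rw [Fin.cons_zero]
    simp [lineP]
  · rw [Fin.cons_succ]
    unfold lineP KMod_a
    rw [if_neg (by rw [Fin.val_succ]; omega)]
    by_cases h : (i : ℕ) = 0
    · rw [if_pos (by rw [Fin.val_succ]; omega), if_pos h]
    · rw [if_neg (by rw [Fin.val_succ]; omega), if_neg h, Pi.zero_apply]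

theorem KMod_monic {F : Type*} [Field F] {k : ℕ} (hk : 0 < k) (θ : F) :
    AnWA.monicPoly (KMod_a k θ) = X ^ k - C θ := by
  unfold AnWA.monicPoly
  rw [Finset.sum_eq_single (⟨0, hk⟩ : Fin k)]
  · simp [KMod_a, sub_eq_add_neg]
  · intro i _ hi
    have h : (i : ℕ) ≠ 0 := fun h => hi (Fin.ext h)
    simp [KMod_a, h]
  · intro h
    exact absurd (Finset.mem_univ _) h

theorem KMod_cf {F : Type*} [Field F] {k : ℕ} (hk : 0 < k) (θ : F) :
    cf (KMod_a k θ) 0 = -θ := by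
  unfold cf
  rw [dif_pos hk]
  simp [KMod_a]

theorem lineP_mod {F : Type*} [Field F] {k : ℕ} (hev : Even (k + 1)) (hkF : (k : F) ≠ 0) {θ : F}
    (hθ : θ ≠ 0) :
    dM (lineP 0 (-θ) 0 : Fin (k + 1) → F) ≠ 0 ∧ dB (lineP 0 (-θ) 0 : Fin (k + 1) → F) ≠ 0 ∧
      ∃ s : F, s ≠ 0 ∧ dM (lineP 0 (-θ) 0 : Fin (k + 1) → F) *
        dB (lineP 0 (-θ) 0 : Fin (k + 1) → F) = θ * s ^ 2 := by
  have hk : 0 < k := by
    rcases Nat.eq_zero_or_pos k with h | h
    · exact absurd (by rw [h, Nat.cast_zero]) hkF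
    · exact h
  have hodd : Odd k := by
    rcases Nat.even_or_odd k with h | h
    · exact absurd hev (Nat.not_even_iff_odd.2 h.add_one)
    · exact h
  have hsep : (AnWA.monicPoly (KMod_a k θ)).Separable := by
    rw [KMod_monic hk]
    exact Polynomial.separable_X_pow_sub_C θ hkF hθ
  have hD : (SpinWA.hk (KMod_a k θ)).det ≠ 0 := det_hk_ne_zero_of_separable _ hsep
  have hM : dM (lineP 0 (-θ) 0 : Fin (k + 1) → F) = (-θ) ^ 2 * (SpinWA.hk (KMod_a k θ)).det := by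
    unfold dM
    rw [KMod_line, det_hk_cons, KMod_cf hk]
  have hB : dB (lineP 0 (-θ) 0 : Fin (k + 1) → F) = θ * (SpinWA.hk (KMod_a k θ)).det := by
    unfold dB
    have h1 : (hk1 (lineP 0 (-θ) 0 : Fin (k + 1) → F)).submatrix (Fin.castSucc : Fin k → Fin (k + 1))
        Fin.castSucc = hk1 (KMod_a k θ) := by
      ext i j
      rw [Matrix.submatrix_apply, KMod_line]
      unfold hk1
      rw [Matrix.of_apply, Matrix.of_apply, psum_cons, Fin.val_castSucc, Fin.val_castSucc,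
        if_neg (Nat.succ_ne_zero _), add_zero]
    rw [h1, det_hk1, KMod_cf hk, hodd.neg_one_pow]
    ring
  rw [hM, hB]
  refine ⟨mul_ne_zero (pow_ne_zero 2 (neg_ne_zero.2 hθ)) hD, mul_ne_zero hθ hD,
    θ * (SpinWA.hk (KMod_a k θ)).det, mul_ne_zero hθ hD, ?_⟩
  ring

end SpinWA
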