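import Pool.Agent.H.MP_83e36b_nt.sp.KGen
import Pool.Agent.H.MP_83e36b_nt.sp.LWa

/-!
# The core theorem, part 1a: choice of the line

PROOF. By `wa_fun` choose `r1 : Fin (k+1) → ℚ` close to `g v`, `v ∈ S`.
`gen_coprime` for `b`, `r1` gives `d ≠ 0`. Choose `s ∈ ℚ` with `d.eval s ≠ 0` so close to
`1` at all `v ∈ S` that `r = s • r1` is close to `g v` (in the real component `none ∈ S` choose a
target point near 1 which is not one of the finitely many roots of `d` in `ℝ`, and a neighbourhood of it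
without roots; at the other `v ∈ S` the target point is 1; `wa_rat`). So `dM (lineP (C b) X (C ∘ r))`
and `dA … * dB …` are coprime in `ℚ[X]`: `A F + B E = 1` (the vector in `gen_coprime` is
`fun i => C (s * r1 i)`). The neighbourhoods `V v` of `g v 1` (the coordinate with index 1, which exists
since `k ≥ 1`): `lineP b t r` embedded has the entry 0 equal to `b = g v 0`, the entry 1 equal to
`t`, the entries with index `≥ 2` equal to `r_i`, close to `g v i`. Precisely: `U v` contains a product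
of neighbourhoods `U_i` of the `g v i`; choose `r1`, `s` such that `s r1_i ∈ U_i` for all `i`, and
`V v = U_1`. (To get `s r1_i ∈ U_i` choose first neighbourhoods `U'_i` of `g v i` and `U''` of 1 with
`U'' * U'_i ⊆ U_i` by continuity of the multiplication.)
-/

open Topology Matrix Polynomial

namespace SpinWA

theorem KLine_scalar (S : Finset Pl) (hS : none ∈ S) (d : ℚ[X]) (hd : d ≠ 0)
    (W : ∀ v, Set (Cpl v)) (hW : ∀ v ∈ S, W v ∈ 𝓝 (1 : Cpl v)) :
    ∃ s : ℚ, d.eval s ≠ 0 ∧ ∀ v ∈ S, emb v s ∈ W v := by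
  have hinj : Function.Injective (emb none) := (emb none).injective
  have hd' : d.map (emb none) ≠ 0 := (Polynomial.map_ne_zero_iff hinj).2 hd
  have hfin : {x : Cpl none | (d.map (emb none)).IsRoot x}.Finite :=
    Polynomial.finite_setOfPred_isRoot hd'
  have h1 : interior (W none) ∈ 𝓝 (1 : Cpl none) := interior_mem_nhds.2 (hW none hS)
  have hinf : (interior (W none)).Infinite := infinite_of_mem_nhds (1 : Cpl none) h1
  obtain ⟨x0, hx0, hx0'⟩ := hinf.exists_notMem_finite hfin
  have hev : Continuous fun x : Cpl none => (d.map (emb none)).eval x :=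
    Polynomial.continuous _
  have hopen : IsOpen (interior (W none) ∩ {x : Cpl none | (d.map (emb none)).eval x ≠ 0}) :=
    isOpen_interior.inter (isOpen_ne_fun hev continuous_const)
  let x : ∀ v, Cpl v := fun v => match v with
    | none => x0
    | some _ => 1
  let U : ∀ v, Set (Cpl v) := fun v => match v with
    | none => interior (W none) ∩ {x : Cpl none | (d.map (emb none)).eval x ≠ 0}
    | some p => W (some p)
  have hU : ∀ v ∈ S, U v ∈ 𝓝 (x v) := by
    intro v hv
    cases v with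
    | none => exact hopen.mem_nhds ⟨hx0, hx0'⟩
    | some p => exact hW (some p) hv
  obtain ⟨s, hs⟩ := wa_rat S x U hU
  refine ⟨s, ?_, ?_⟩
  · intro h0
    have h2 : (d.map (emb none)).eval (emb none s) ≠ 0 := (hs none hS).2
    apply h2
    rw [Polynomial.eval_map_apply, h0, map_zero]
  · intro v hv
    cases v with
    | none => exact interior_subset (hs none hv).1
    | some p => exact hs (some p) hv

theorem exists_line {k : ℕ} (h1k : 1 ≤ k) (S : Finset Pl) (hS : none ∈ S) (b : ℚ) (hb : b ≠ 0)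
    (g : ∀ v, Fin (k + 1) → Cpl v) (hg0 : ∀ v ∈ S, g v 0 = emb v b)
    (U : ∀ v, Set (Fin (k + 1) → Cpl v)) (hU : ∀ v ∈ S, U v ∈ 𝓝 (g v)) :
    ∃ (r : Fin (k + 1) → ℚ) (A B : ℚ[X]) (V : ∀ v, Set (Cpl v)),
      A * dM (lineP (C b) X fun i : Fin (k + 1) => C (r i)) +
        B * (dA (lineP (C b) X fun i : Fin (k + 1) => C (r i)) *
          dB (lineP (C b) X fun i : Fin (k + 1) => C (r i))) = 1 ∧
      (∀ v ∈ S, V v ∈ 𝓝 (g v 1)) ∧
      ∀ t : ℚ, (∀ v ∈ S, emb v t ∈ V v) → ∀ v ∈ S, (fun i => emb v (lineP b t r i)) ∈ U v := by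
  classical
  have h1 : ∀ v : Pl, ∃ t : Fin (k + 1) → Set (Cpl v), v ∈ S →
      ((∀ i, t i ∈ 𝓝 (g v i)) ∧ Set.pi Set.univ t ⊆ U v) := by
    intro v
    by_cases hv : v ∈ S
    · have h2 := hU v hv
      rw [nhds_pi, Filter.mem_pi'] at h2
      obtain ⟨I, t, ht, hI⟩ := h2
      refine ⟨t, fun _ => ⟨ht, ?_⟩⟩
      intro z hz
      exact hI fun i _ => hz i (Set.mem_univ i)
    · exact ⟨fun _ => Set.univ, fun h => absurd h hv⟩
  choose T hT using h1
  have h2 : ∀ (v : Pl) (i : Fin (k + 1)), ∃ P Q : Set (Cpl v), v ∈ S →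
      (P ∈ 𝓝 (1 : Cpl v) ∧ Q ∈ 𝓝 (g v i) ∧ ∀ x ∈ P, ∀ y ∈ Q, x * y ∈ T v i) := by
    intro v i
    by_cases hv : v ∈ S
    · have h3 : T v i ∈ 𝓝 ((1 : Cpl v) * g v i) := by
        rw [one_mul]
        exact (hT v hv).1 i
      have h4 : Filter.Tendsto (fun p : Cpl v × Cpl v => p.1 * p.2) (𝓝 ((1 : Cpl v), g v i))
          (𝓝 ((1 : Cpl v) * g v i)) := continuous_mul.continuousAt
      have h5 := h4 h3
      rw [Filter.mem_map, nhds_prod_eq, Filter.mem_prod_iff] at h5
      obtain ⟨P, hP, Q, hQ, hPQ⟩ := h5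
      exact ⟨P, Q, fun _ => ⟨hP, hQ, fun x hx y hy => hPQ (Set.mk_mem_prod hx hy)⟩⟩
    · exact ⟨Set.univ, Set.univ, fun h => absurd h hv⟩
  choose P Q hPQ using h2
  have h3 : ∀ i, ∃ r : ℚ, ∀ v ∈ S, emb v r ∈ Q v i := fun i =>
    wa_rat S (fun v => g v i) (fun v => Q v i) fun v hv => (hPQ v i hv).2.1
  choose r1 hr1 using h3
  obtain ⟨d, hd, hcop⟩ := gen_coprime h1k hb r1
  obtain ⟨s, hs, hsW⟩ := KLine_scalar S hS d hd (fun v => ⋂ i, P v i) (fun v hv =>
    Filter.iInter_mem.2 fun i => (hPQ v i hv).1)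
  obtain ⟨A, B, hAB⟩ := hcop s hs
  refine ⟨fun i => s * r1 i, A, B, fun v => T v 1, hAB, fun v hv => (hT v hv).1 1, ?_⟩
  intro t ht v hv
  refine (hT v hv).2 ?_
  intro i _
  by_cases hi0 : (i : ℕ) = 0
  · have hi : i = 0 := Fin.ext (by simpa using hi0)
    subst hi
    have e1 : lineP b t (fun i => s * r1 i) 0 = b := by
      unfold lineP
      rw [if_pos]
      simp
    change emb v (lineP b t (fun i => s * r1 i) 0) ∈ T v 0
    rw [e1, ← hg0 v hv]
    exact mem_of_mem_nhds ((hT v hv).1 0)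
  · by_cases hi1 : (i : ℕ) = 1
    · have hone : ((1 : Fin (k + 1)) : ℕ) = 1 := by
        rw [Fin.val_one', Nat.mod_eq_of_lt (by omega)]
      have hi : i = 1 := Fin.ext (by rw [hi1, hone])
      subst hi
      have e1 : lineP b t (fun i => s * r1 i) (1 : Fin (k + 1)) = t := by
        unfold lineP
        rw [if_neg hi0, if_pos hone]
      change emb v (lineP b t (fun i => s * r1 i) 1) ∈ T v 1
      rw [e1]
      exact ht v hv
    · have e1 : lineP b t (fun i => s * r1 i) i = s * r1 i := by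
        unfold lineP
        rw [if_neg hi0, if_neg hi1]
      change emb v (lineP b t (fun i => s * r1 i) i) ∈ T v i
      rw [e1, map_mul]
      have h6 := hsW v hv
      rw [Set.mem_iInter] at h6
      exact (hPQ v i hv).2.2 _ (h6 i) _ (hr1 i v hv)

end SpinWA
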