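import Pool.Agent.H.MP_83e36b_nt.sp.PMap

/-!
# The line of polynomials and the minors

Definitions used in the core theorem, and their compatibility with ring homomorphisms.
PROOF of the lemmas: `hk_map`, `hk1_map`, `RingHom.map_det`, `Matrix.submatrix_map`.
-/

open Matrix Polynomial

namespace SpinWA

section
variable {R R' : Type*} [CommRing R] [CommRing R'] {n k : ℕ}

/-- The coefficient vector `(b, t, r_2, …, r_{n-1})`. -/
def lineP (b t : R) (r : Fin n → R) : Fin n → R := fun i =>
  if (i : ℕ) = 0 then b else if (i : ℕ) = 1 then t else r i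

/-- The determinant of the trace form. -/
def dM (a : Fin n → R) : R := (hk a).det

/-- The leading minor of the trace form. -/
def dA (a : Fin (k + 1) → R) : R :=
  ((hk a).submatrix (Fin.castSucc : Fin k → Fin (k + 1)) Fin.castSucc).det

/-- The leading minor of the twisted trace form. -/
def dB (a : Fin (k + 1) → R) : R :=
  ((hk1 a).submatrix (Fin.castSucc : Fin k → Fin (k + 1)) Fin.castSucc).det

theorem lineP_map (φ : R →+* R') (b t : R) (r : Fin n → R) (i : Fin n) :
    φ (lineP b t r i) = lineP (φ b) (φ t) (fun i => φ (r i)) i := by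
  unfold lineP; split_ifs <;> rfl

theorem dM_map (φ : R →+* R') (a : Fin n → R) : φ (dM a) = dM fun i => φ (a i) := by
  unfold dM
  exact hk_det_map φ a

theorem dA_map (φ : R →+* R') (a : Fin (k + 1) → R) : φ (dA a) = dA fun i => φ (a i) := by
  unfold dA
  rw [RingHom.map_det, RingHom.mapMatrix_apply, ← Matrix.submatrix_map, hk_map]

theorem dB_map (φ : R →+* R') (a : Fin (k + 1) → R) : φ (dB a) = dB fun i => φ (a i) := by
  unfold dB
  rw [RingHom.map_det, RingHom.mapMatrix_apply, ← Matrix.submatrix_map, hk1_map]

private theorem lineP_eval (b t : R) (r : Fin (k + 1) → R) :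
    (fun i => (lineP (C b) X (fun i : Fin (k + 1) => C (r i)) i).eval t) = lineP b t r := by
  funext i
  unfold lineP
  split_ifs <;> simp

/-- Evaluation of the polynomials of the line at a number `t`. -/
theorem eval_dM (b t : R) (r : Fin (k + 1) → R) :
    (dM (lineP (C b) X fun i : Fin (k + 1) => C (r i))).eval t = dM (lineP b t r) := by
  rw [← coe_evalRingHom, dM_map]
  exact congrArg dM (lineP_eval b t r)

theorem eval_dA (b t : R) (r : Fin (k + 1) → R) :
    (dA (lineP (C b) X fun i : Fin (k + 1) => C (r i))).eval t = dA (lineP b t r) := by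
  rw [← coe_evalRingHom, dA_map]
  exact congrArg dA (lineP_eval b t r)

theorem eval_dB (b t : R) (r : Fin (k + 1) → R) :
    (dB (lineP (C b) X fun i : Fin (k + 1) => C (r i))).eval t = dB (lineP b t r) := by
  rw [← coe_evalRingHom, dB_map]
  exact congrArg dB (lineP_eval b t r)

end

end SpinWA
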