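import Pool.Agent.H.MP_83e36b_nt.sp.PDefs

/-!
# Diagonalisation over the `p`-adic integers

PROOF. `exists_diag_int`: induction on `Fin n` (then reindex). `A` symmetric over `ℤ_[p]`,
`det A` a unit, `p ≠ 2`. Modulo `p` (the map `PadicInt.toZMod`, a ring homomorphism to a field of
characteristic `≠ 2`; an element is a unit iff its image is nonzero) some vector `x` has
`xᵀ A x` a unit: if all diagonal entries are nonunits some `A i j` (`i ≠ j`) is a unit since
`det A` is a unit, take `x = e_i + e_j`: `A i i + A j j + 2 A i j` is a unit. `x` has an entry `1`,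
so it is the first column of an invertible matrix `P0` (a permutation matrix times a unipotent
one). Then `P0ᵀ A P0` has a unit `u` at the place (0,0) and
`P1 = [[1, -u⁻¹ v],[0, 1]]` splits it off: `u ⊕ A'`, `det A' = det A (det P0)^2 / u` a unit.
-/

open Matrix

namespace SpinWA

section
variable {R : Type*} [CommRing R]

/-- Diagonalisability of all unimodular symmetric matrices with index type `κ`. -/
def udiagP (R : Type*) [CommRing R] (κ : Type) [Fintype κ] [DecidableEq κ] : Prop :=
  ∀ A : Matrix κ κ R, Aᵀ = A → IsUnit A.det → ∃ (P : Matrix κ κ R) (u : κ → R), IsUnit P.det ∧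
      (∀ i, IsUnit (u i)) ∧ Pᵀ * A * P = diagonal u

/-- Some entry of each row is a unit. -/
theorem udiag_row [IsLocalRing R] {κ : Type} [Fintype κ] [DecidableEq κ] (A : Matrix κ κ R)
    (hd : IsUnit A.det) (i : κ) : ∃ j, IsUnit (A i j) := by
  by_contra hcon
  push Not at hcon
  have h1 : ((IsLocalRing.residue R).mapMatrix A).det = 0 := by
    apply Matrix.det_eq_zero_of_row_eq_zero i
    intro j
    rw [RingHom.mapMatrix_apply, Matrix.map_apply, IsLocalRing.residue_eq_zero_iff,
      IsLocalRing.mem_maximalIdeal]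
    exact hcon j
  rw [← RingHom.map_det, IsLocalRing.residue_eq_zero_iff, IsLocalRing.mem_maximalIdeal] at h1
  exact h1 hd

/-- After a change of basis a given diagonal entry is a unit. -/
theorem udiag_unit [IsLocalRing R] (h2 : IsUnit (2 : R)) {κ : Type} [Fintype κ] [DecidableEq κ]
    (A : Matrix κ κ R) (hA : Aᵀ = A) (hd : IsUnit A.det) (i : κ) :
    ∃ Q : Matrix κ κ R, IsUnit Q.det ∧ IsUnit ((Qᵀ * A * Q) i i) := by
  obtain ⟨j, hj⟩ := udiag_row A hd i
  by_cases hij : j = i
  · subst hij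
    refine ⟨1, by rw [Matrix.det_one]; exact isUnit_one, ?_⟩
    rw [Matrix.transpose_one, Matrix.one_mul, Matrix.mul_one]
    exact hj
  · have hsym : A j i = A i j := by
      have := congrFun (congrFun hA i) j
      rwa [Matrix.transpose_apply] at this
    have key : ∀ c : R, ((Matrix.transvection j i c)ᵀ * A * Matrix.transvection j i c) i i
        = A i i + 2 * c * A i j + c ^ 2 * A j j := by
      intro c
      rw [Matrix.mul_transvection_apply_same, Matrix.transvection, Matrix.transpose_add,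
        Matrix.transpose_one, Matrix.transpose_single, Matrix.add_mul, Matrix.one_mul]
      rw [Matrix.add_apply, Matrix.add_apply, Matrix.single_mul_apply_same,
        Matrix.single_mul_apply_same, hsym]
      ring
    have h4 : IsUnit ((A i i + 2 * 1 * A i j + 1 ^ 2 * A j j)
        - (A i i + 2 * (-1) * A i j + (-1) ^ 2 * A j j)) := by
      have : (A i i + 2 * 1 * A i j + 1 ^ 2 * A j j)
        - (A i i + 2 * (-1) * A i j + (-1) ^ 2 * A j j) = 2 * 2 * A i j := by ring
      rw [this]
      exact (h2.mul h2).mul hj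
    rw [sub_eq_add_neg] at h4
    rcases IsLocalRing.isUnit_or_isUnit_of_isUnit_add h4 with h5 | h5
    · refine ⟨Matrix.transvection j i 1, ?_, ?_⟩
      · rw [Matrix.det_transvection_of_ne _ _ hij]; exact isUnit_one
      · rw [key]; exact h5
    · refine ⟨Matrix.transvection j i (-1), ?_, ?_⟩
      · rw [Matrix.det_transvection_of_ne _ _ hij]; exact isUnit_one
      · rw [key]; exact (IsUnit.neg_iff _).mp h5

theorem udiag_congr {κ κ' : Type} [Fintype κ] [DecidableEq κ] [Fintype κ'] [DecidableEq κ']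
    (e : κ ≃ κ') (h : udiagP R κ) : udiagP R κ' := by
  intro A hA hd
  obtain ⟨P, u, hP, hu, hPA⟩ := h (A.submatrix e e) (by rw [transpose_submatrix, hA])
    (by rw [det_submatrix_equiv_self]; exact hd)
  refine ⟨P.submatrix e.symm e.symm, u ∘ e.symm, by rw [det_submatrix_equiv_self]; exact hP,
    fun i => hu _, ?_⟩
  have h1 : A = (A.submatrix e e).submatrix e.symm e.symm := by
    rw [submatrix_submatrix]
    simp
  rw [h1, transpose_submatrix, submatrix_mul_equiv, submatrix_mul_equiv, hPA,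
    submatrix_diagonal_equiv]

theorem udiag_step [IsLocalRing R] (h2 : IsUnit (2 : R)) {κ : Type} [Fintype κ] [DecidableEq κ]
    (ih : udiagP R κ) : udiagP R (Unit ⊕ κ) := by
  intro A hA hd
  obtain ⟨Q, hQ, hu⟩ := udiag_unit h2 A hA hd (Sum.inl ())
  obtain ⟨B, hB⟩ : ∃ B, B = Qᵀ * A * Q := ⟨_, rfl⟩
  rw [← hB] at hu
  have hBT : Bᵀ = B := by
    rw [hB, transpose_mul, transpose_mul, transpose_transpose, hA, Matrix.mul_assoc]
  have hBd : IsUnit B.det := by
    rw [hB, det_mul, det_mul, det_transpose]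
    exact (hQ.mul hd).mul hQ
  -- blocks
  set a := B.toBlocks₁₁ with ha
  set v := B.toBlocks₁₂ with hv
  set D := B.toBlocks₂₂ with hD
  have hv' : B.toBlocks₂₁ = vᵀ := by
    rw [hv]
    ext i j
    simp only [toBlocks₂₁, toBlocks₁₂, of_apply, transpose_apply]
    exact (congrFun (congrFun hBT (Sum.inr i)) (Sum.inl j)).symm
  have hB2 : B = fromBlocks a v vᵀ D := by
    rw [← hv']; exact (fromBlocks_toBlocks B).symm
  have haT : aᵀ = a := by
    ext i j
    rfl
  have hau : IsUnit a.det := by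
    rw [det_unique]
    exact hu
  have hDT : Dᵀ = D := by
    rw [hD]
    ext i j
    simp only [toBlocks₂₂, of_apply, transpose_apply]
    exact congrFun (congrFun hBT (Sum.inr i)) (Sum.inr j)
  have haiT : (a⁻¹)ᵀ = a⁻¹ := by rw [transpose_nonsing_inv, haT]
  have hP1 : (fromBlocks 1 (-(a⁻¹ * v)) 0 1 : Matrix (Unit ⊕ κ) (Unit ⊕ κ) R)ᵀ * B *
      (fromBlocks 1 (-(a⁻¹ * v)) 0 1) = fromBlocks a 0 0 (D - vᵀ * a⁻¹ * v) := by
    rw [hB2, fromBlocks_transpose, fromBlocks_multiply, fromBlocks_multiply]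
    have e1 : a * (a⁻¹ * v) = v := by rw [mul_nonsing_inv_cancel_left _ _ hau]
    have e2 : (vᵀ * a⁻¹) * a = vᵀ := by rw [nonsing_inv_mul_cancel_right _ _ hau]
    have e3 : (a⁻¹ * v)ᵀ = vᵀ * a⁻¹ := by rw [transpose_mul, haiT]
    congr 1
    · simp
    · simp only [transpose_one, transpose_zero, Matrix.one_mul, Matrix.zero_mul, add_zero,
        Matrix.mul_neg, Matrix.mul_one]
      rw [e1]; simp
    · simp only [transpose_one, transpose_neg, Matrix.one_mul, Matrix.mul_zero, add_zero,
        Matrix.mul_one, Matrix.neg_mul]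
      rw [e3, e2]; simp
    · simp only [transpose_one, transpose_neg, Matrix.one_mul,
        Matrix.mul_one, Matrix.neg_mul, Matrix.mul_neg]
      rw [e3, e2]
      simp only [neg_add_cancel, Matrix.zero_mul, neg_zero, zero_add]
      rw [neg_add_eq_sub]
  have hdet : IsUnit (D - vᵀ * a⁻¹ * v).det := by
    have h1 := congrArg Matrix.det hP1
    rw [det_mul, det_mul, det_transpose, det_fromBlocks_zero₂₁, det_one, det_one,
      det_fromBlocks_zero₂₁] at h1
    have h2 : IsUnit (a.det * (D - vᵀ * a⁻¹ * v).det) := by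
      rw [← h1]
      simpa using hBd
    exact isUnit_of_mul_isUnit_right h2
  obtain ⟨P, u, hP, huu, hPA⟩ := ih (D - vᵀ * a⁻¹ * v) (by
    rw [transpose_sub, transpose_mul, transpose_mul, transpose_transpose, haiT, hDT,
      Matrix.mul_assoc]) hdet
  refine ⟨Q * (fromBlocks 1 (-(a⁻¹ * v)) 0 1) * (fromBlocks 1 0 0 P),
    Sum.elim (fun _ => B (Sum.inl ()) (Sum.inl ())) u, ?_, ?_, ?_⟩
  · rw [det_mul, det_mul, det_fromBlocks_zero₂₁, det_fromBlocks_zero₂₁, det_one, det_one]
    simpa using hQ.mul hP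
  · rintro (i | i)
    · exact hu
    · exact huu i
  · have h1 : (Q * (fromBlocks 1 (-(a⁻¹ * v)) 0 1) * (fromBlocks 1 0 0 P) :
        Matrix (Unit ⊕ κ) (Unit ⊕ κ) R)ᵀ * A *
        (Q * (fromBlocks 1 (-(a⁻¹ * v)) 0 1) * (fromBlocks 1 0 0 P))
        = (fromBlocks 1 0 0 P)ᵀ * ((fromBlocks 1 (-(a⁻¹ * v)) 0 1)ᵀ * (Qᵀ * A * Q) *
          (fromBlocks 1 (-(a⁻¹ * v)) 0 1)) * (fromBlocks 1 0 0 P) := by
      simp only [transpose_mul, Matrix.mul_assoc]
    rw [h1, ← hB, hP1, fromBlocks_transpose, fromBlocks_multiply, fromBlocks_multiply]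
    simp only [transpose_one, transpose_zero, Matrix.one_mul, Matrix.mul_one, Matrix.mul_zero,
      Matrix.zero_mul, add_zero, zero_add]
    rw [hPA]
    have h3 : a = diagonal (fun _ => B (Sum.inl ()) (Sum.inl ())) := by
      ext i j
      rfl
    rw [h3, fromBlocks_diagonal]

theorem udiag_fin [IsLocalRing R] (h2 : IsUnit (2 : R)) (n : ℕ) : udiagP R (Fin n) := by
  induction n with
  | zero =>
    intro A _ _
    refine ⟨1, fun _ => 1, by rw [det_one]; exact isUnit_one, fun _ => isUnit_one, ?_⟩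
    ext i
    exact i.elim0
  | succ n ih =>
    exact udiag_congr ((Equiv.sumComm Unit (Fin n)).trans
      ((Equiv.optionEquivSumPUnit (Fin n)).symm.trans (finSuccEquiv n).symm)) (udiag_step h2 ih)

end

variable {ι : Type*} [Fintype ι] [DecidableEq ι]

theorem exists_diag_int {p : ℕ} [Fact p.Prime] (hp : p ≠ 2) {A : Matrix ι ι ℤ_[p]} (hA : Aᵀ = A)
    (hd : IsUnit A.det) : ∃ (P : Matrix ι ι ℤ_[p]) (u : ι → ℤ_[p]), IsUnit P.det ∧
      (∀ i, IsUnit (u i)) ∧ Pᵀ * A * P = diagonal u := by
  have h2 : IsUnit (2 : ℤ_[p]) := by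
    have h1 : IsUnit ((2 : ℕ) : ℤ_[p]) := by
      rw [PadicInt.isUnit_iff, PadicInt.norm_natCast_eq_one_iff]
      have hpp := (Fact.out : p.Prime)
      exact (Nat.coprime_primes hpp Nat.prime_two).mpr hp
    exact_mod_cast h1
  obtain ⟨e⟩ := Fintype.truncEquivFin ι
  obtain ⟨P, u, hP, hu, hPA⟩ := udiag_fin h2 (Fintype.card ι) (A.submatrix e.symm e.symm)
    (by rw [transpose_submatrix, hA]) (by rw [det_submatrix_equiv_self]; exact hd)
  refine ⟨P.submatrix e e, u ∘ e, by rw [det_submatrix_equiv_self]; exact hP,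
    fun i => hu _, ?_⟩
  have h1 : A = (A.submatrix e.symm e.symm).submatrix e e := by
    rw [submatrix_submatrix]
    simp
  rw [h1, transpose_submatrix, submatrix_mul_equiv, submatrix_mul_equiv, hPA,
    submatrix_diagonal_equiv]

end SpinWA
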