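import Pool.Agent.H.MP_83e36b_nt.sp.RRes
import Pool.Agent.H.MP_83e36b_nt.sp.RGam
import Pool.Agent.H.MP_83e36b_nt.sp.WApi
import Pool.Agent.H.MP_83e36b_nt.sp.UDiag

/-!
# Unimodular forms over the `p`-adic integers

PROOF. Diagonalise over `ℤ_[p]` (`exists_diag_int`), then
`res_unimodular`: `cls (A.map coe) = ∑ cl (u_i)`, with `u_i` units: valuation `0`.
`res_smul_unimodular`: `cls (p • A.map coe) = ∑ cl (p u_i)`, residues `cl (toZMod u_i)`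
(`unitMod_pow_mul`, `valuation_pow_mul`).
`res_minor`: `cls_schur` and `res_unimodular` for the leading block.
-/

open Matrix

namespace SpinWA

variable {ι : Type*} [Fintype ι] [DecidableEq ι]

theorem uuni_two {p : ℕ} [Fact p.Prime] : (2 : ℚ_[p]) ≠ 0 := two_ne_zero

theorem uuni_inj {p : ℕ} [Fact p.Prime] {a : ℤ_[p]} (ha : a ≠ 0) :
    algebraMap ℤ_[p] ℚ_[p] a ≠ 0 := by
  intro h
  apply ha
  apply IsFractionRing.injective ℤ_[p] ℚ_[p]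
  rw [h, map_zero]

theorem uuni_map_det {p : ℕ} [Fact p.Prime] (A : Matrix ι ι ℤ_[p]) :
    (A.map (algebraMap ℤ_[p] ℚ_[p])).det = algebraMap ℤ_[p] ℚ_[p] A.det :=
  (RingHom.map_det (algebraMap ℤ_[p] ℚ_[p]) A).symm

theorem uuni_diag {p : ℕ} [Fact p.Prime] (hp : p ≠ 2) {A : Matrix ι ι ℤ_[p]} (hA : Aᵀ = A)
    (hd : IsUnit A.det) : ∃ (P : Matrix ι ι ℚ_[p]) (u : ι → ℤ_[p]), P.det ≠ 0 ∧
      (∀ i, IsUnit (u i)) ∧ Pᵀ * A.map (algebraMap ℤ_[p] ℚ_[p]) * P =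
        diagonal (fun i => algebraMap ℤ_[p] ℚ_[p] (u i)) := by
  obtain ⟨P, u, hP, hu, h⟩ := exists_diag_int hp hA hd
  refine ⟨P.map (algebraMap ℤ_[p] ℚ_[p]), u, ?_, hu, ?_⟩
  · rw [uuni_map_det]
    exact uuni_inj hP.ne_zero
  · have h1 := congrArg (fun M : Matrix ι ι ℤ_[p] => M.map (algebraMap ℤ_[p] ℚ_[p])) h
    simp only [Matrix.map_mul, Matrix.diagonal_map (map_zero (algebraMap ℤ_[p] ℚ_[p]))] at h1
    rw [← h1, Matrix.transpose_map]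

theorem res_unimodular {p : ℕ} [Fact p.Prime] (hp : p ≠ 2) {A : Matrix ι ι ℤ_[p]} (hA : Aᵀ = A)
    (hd : IsUnit A.det) : resW p (cls (A.map (algebraMap ℤ_[p] ℚ_[p]))) = 0 := by
  obtain ⟨P, u, hP, hu, h⟩ := uuni_diag hp hA hd
  have hne : ∀ i, algebraMap ℤ_[p] ℚ_[p] (u i) ≠ 0 := fun i => uuni_inj (hu i).ne_zero
  rw [cls_eq_sum uuni_two hne ⟨P, hP, h⟩, map_sum]
  apply Finset.sum_eq_zero
  intro i _
  rw [resW_cl hp (hne i)]
  have h1 := valuation_pow_mul p 0 (u i) (hu i)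
  rw [zpow_zero, one_mul] at h1
  have h2 : (algebraMap ℤ_[p] ℚ_[p] (u i)).valuation = 0 := h1
  rw [h2, if_pos (by simp)]

theorem res_smul_unimodular {p : ℕ} [Fact p.Prime] (hp : p ≠ 2) {A : Matrix ι ι ℤ_[p]}
    (hA : Aᵀ = A) (hd : IsUnit A.det) : ∃ u : ι → ZMod p, (∀ i, u i ≠ 0) ∧
      resW p (cls ((p : ℚ_[p]) • A.map (algebraMap ℤ_[p] ℚ_[p]))) = ∑ i, cl (u i) := by
  obtain ⟨P, u, hP, hu, h⟩ := uuni_diag hp hA hd
  have hp0 : (p : ℚ_[p]) ≠ 0 := by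
    have := (Fact.out : p.Prime).ne_zero
    exact_mod_cast this
  have hne : ∀ i, (p : ℚ_[p]) * algebraMap ℤ_[p] ℚ_[p] (u i) ≠ 0 := fun i =>
    mul_ne_zero hp0 (uuni_inj (hu i).ne_zero)
  have hc : Cong ((p : ℚ_[p]) • A.map (algebraMap ℤ_[p] ℚ_[p]))
      (diagonal (fun i => (p : ℚ_[p]) * algebraMap ℤ_[p] ℚ_[p] (u i))) := by
    refine ⟨P, hP, ?_⟩
    rw [Matrix.mul_smul, Matrix.smul_mul, h, ← diagonal_smul]
    rfl
  refine ⟨fun i => PadicInt.toZMod (u i), fun i => ((hu i).map PadicInt.toZMod).ne_zero, ?_⟩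
  rw [cls_eq_sum uuni_two hne hc, map_sum]
  apply Finset.sum_congr rfl
  intro i _
  rw [resW_cl hp (hne i)]
  have h1 := valuation_pow_mul p 1 (u i) (hu i)
  have h2 := unitMod_pow_mul p 1 (u i) (hu i)
  rw [zpow_one] at h1 h2
  have h3 : ((p : ℚ_[p]) * algebraMap ℤ_[p] ℚ_[p] (u i)).valuation = 1 := h1
  have h4 : unitMod p ((p : ℚ_[p]) * algebraMap ℤ_[p] ℚ_[p] (u i)) = PadicInt.toZMod (u i) := h2
  rw [h3, if_neg (by decide), h4]

theorem res_minor {p : ℕ} [Fact p.Prime] (hp : p ≠ 2) {n : ℕ}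
    {A : Matrix (Fin (n + 1)) (Fin (n + 1)) ℤ_[p]} (hA : Aᵀ = A) (hd : A.det ≠ 0)
    (hd1 : IsUnit (A.submatrix (Fin.castSucc : Fin n → Fin (n + 1)) Fin.castSucc).det) :
    resW p (cls (A.map (algebraMap ℤ_[p] ℚ_[p]))) =
      resW p (cl (algebraMap ℤ_[p] ℚ_[p] (A.det *
        (A.submatrix (Fin.castSucc : Fin n → Fin (n + 1)) Fin.castSucc).det))) := by
  have hs : (A.map (algebraMap ℤ_[p] ℚ_[p])).submatrix (Fin.castSucc : Fin n → Fin (n + 1))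
      Fin.castSucc = (A.submatrix (Fin.castSucc : Fin n → Fin (n + 1)) Fin.castSucc).map
        (algebraMap ℤ_[p] ℚ_[p]) := rfl
  have h1 : ((A.map (algebraMap ℤ_[p] ℚ_[p])).submatrix (Fin.castSucc : Fin n → Fin (n + 1))
      Fin.castSucc).det ≠ 0 := by
    rw [hs, uuni_map_det]
    exact uuni_inj hd1.ne_zero
  have h2 : (A.map (algebraMap ℤ_[p] ℚ_[p])).det ≠ 0 := by
    rw [uuni_map_det]
    exact uuni_inj hd
  have h3 : (A.map (algebraMap ℤ_[p] ℚ_[p]))ᵀ = A.map (algebraMap ℤ_[p] ℚ_[p]) := by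
    rw [← Matrix.transpose_map, hA]
  have h4 : (A.submatrix (Fin.castSucc : Fin n → Fin (n + 1)) Fin.castSucc)ᵀ =
      A.submatrix (Fin.castSucc : Fin n → Fin (n + 1)) Fin.castSucc := by
    rw [Matrix.transpose_submatrix, hA]
  rw [cls_schur uuni_two h3 h2 h1, map_add, hs, res_unimodular hp h4 hd1, zero_add, uuni_map_det,
    uuni_map_det, map_mul]

end SpinWA
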