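import Pool.Agent.H.MP_83e36b_nt.sp.WCancel

/-!
# Congruent diagonal forms have the same class in the Witt group

PROOF. Induction on `n`; `n = 0` trivial. Let `Pᵀ diag(d) P = diag(d')`, `x = P e_0`; then
`d'_0 = ∑ d_i x_i ^ 2 ≠ 0`, `x ≠ 0`. Lemma A: if `d'_0 = ∑ d_i x_i ^ 2` is a nonzero value of
`diag(d)` (all `d_i ≠ 0`), then there is `r : Fin n → K`, `r_i ≠ 0`, with
`Cong (diagonal d) (diagonal (cons d'_0 r))` and `∑ cl (d i) = cl d'_0 + ∑ cl (r i)`. Proof of
Lemma A by induction on `n`: write `s = ∑_{i≥1} d_i x_i^2` (the part without the index 0).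
If `s = 0`: `d'_0 = d_0 x_0^2`, take `r = tail of d`. If `s ≠ 0`: by induction the tail of `d` is
congruent to `(s, r')`, `r' : Fin (n-1) → K`, with equal classes. If `x_0 = 0`: `d'_0 = s`, reorder
`(d_0, s, r')` to `(s, d_0, r')`. If `x_0 ≠ 0`: `(d_0, s) ~ (d_0 x_0^2, s)` and
`(d_0 x_0^2, s) ~ (d_0 x_0^2 + s, d_0 x_0^2 s (d_0 x_0^2 + s))`, a congruence of 2x2 matrices
(`P = [[1, -s],[1, d_0 x_0^2]]`), and the classes agree by `cl_mul_sq` and `cl_add`.
Then `Cong (diag (cons d'_0 r)) (diag d')` and by `cong_cancel_diag` `Cong (diag r) (diag (tail d'))`;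
use the induction hypothesis.
-/

open Matrix

namespace SpinWA

variable {K : Type*} [Field K]

theorem wchain_blocks {ι κ : Type*} [Fintype ι] [DecidableEq ι] [Fintype κ] [DecidableEq κ]
    {d d' : ι → K} {e e' : κ → K} (h : Cong (diagonal d) (diagonal d'))
    (h' : Cong (diagonal e) (diagonal e')) :
    Cong (diagonal (Sum.elim d e)) (diagonal (Sum.elim d' e')) := by
  obtain ⟨P, hP, hPe⟩ := h
  obtain ⟨R, hR, hRe⟩ := h'
  refine ⟨fromBlocks P 0 0 R, ?_, ?_⟩
  · rw [det_fromBlocks_zero₂₁]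
    exact mul_ne_zero hP hR
  · rw [← fromBlocks_diagonal, ← fromBlocks_diagonal, fromBlocks_transpose, fromBlocks_multiply,
      fromBlocks_multiply, ← hPe, ← hRe]
    simp

theorem wchain_scale {ι : Type*} [Fintype ι] [DecidableEq ι] (d : ι → K) {e : ι → K}
    (he : ∀ i, e i ≠ 0) : Cong (diagonal d) (diagonal fun i => d i * e i ^ 2) := by
  refine ⟨diagonal e, ?_, ?_⟩
  · rw [det_diagonal]
    exact Finset.prod_ne_zero_iff.2 fun i _ => he i
  · rw [diagonal_transpose, diagonal_mul_diagonal, diagonal_mul_diagonal]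
    congr 1
    funext i
    ring

/-- `Fin (n + 1)` as a sum. -/
def wchainOne (n : ℕ) : Fin (n + 1) ≃ Unit ⊕ Fin n where
  toFun := Fin.cases (Sum.inl ()) Sum.inr
  invFun := Sum.elim (fun _ => 0) Fin.succ
  left_inv i := by
    refine Fin.cases ?_ (fun j => ?_) i
    · rfl
    · rfl
  right_inv i := by
    rcases i with i | i
    · rfl
    · rfl

/-- `Fin (n + 2)` as a sum. -/
def wchainTwo (n : ℕ) : Fin (n + 2) ≃ Fin 2 ⊕ Fin n where
  toFun := Fin.cases (Sum.inl 0) (Fin.cases (Sum.inl 1) Sum.inr)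
  invFun := Sum.elim (fun i => if i = 0 then 0 else 1) (fun i => i.succ.succ)
  left_inv i := by
    refine Fin.cases ?_ (fun j => ?_) i
    · rfl
    · refine Fin.cases ?_ (fun k => ?_) j
      · rfl
      · rfl
  right_inv i := by
    rcases i with i | i
    · fin_cases i
      · rfl
      · rfl
    · rfl

theorem wchain_cons {n : ℕ} {a a' : K} {d d' : Fin n → K}
    (h : Cong (diagonal fun _ : Unit => a) (diagonal fun _ : Unit => a'))
    (h' : Cong (diagonal d) (diagonal d')) :
    Cong (diagonal (Fin.cons a d : Fin (n + 1) → K)) (diagonal (Fin.cons a' d')) := by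
  have h1 := (wchain_blocks h h').reindex (wchainOne n)
  rw [submatrix_diagonal_equiv, submatrix_diagonal_equiv] at h1
  have e : ∀ (b : K) (f : Fin n → K), Sum.elim (fun _ : Unit => b) f ∘ wchainOne n =
      (Fin.cons b f : Fin (n + 1) → K) := by
    intro b f
    funext i
    refine Fin.cases ?_ (fun j => ?_) i
    · rfl
    · rfl
  rwa [e, e] at h1

theorem wchain_pair {n : ℕ} {a b a' b' : K} {d : Fin n → K}
    (h : Cong (diagonal ![a, b]) (diagonal ![a', b'])) :
    Cong (diagonal (Fin.cons a (Fin.cons b d : Fin (n + 1) → K) : Fin (n + 2) → K))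
      (diagonal (Fin.cons a' (Fin.cons b' d : Fin (n + 1) → K))) := by
  have h1 := (wchain_blocks h (Cong.refl (diagonal d))).reindex (wchainTwo n)
  rw [submatrix_diagonal_equiv, submatrix_diagonal_equiv] at h1
  have e : ∀ (b c : K), Sum.elim ![b, c] d ∘ wchainTwo n =
      (Fin.cons b (Fin.cons c d : Fin (n + 1) → K) : Fin (n + 2) → K) := by
    intro b c
    funext i
    refine Fin.cases ?_ (fun j => ?_) i
    · rfl
    · refine Fin.cases ?_ (fun k => ?_) j
      · rfl
      · rfl
  rwa [e, e] at h1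

theorem wchain_swap (a b : K) : Cong (diagonal ![a, b]) (diagonal ![b, a]) := by
  refine ⟨!![0, 1; 1, 0], ?_, ?_⟩
  · rw [det_fin_two_of]
    simp
  · ext i j
    fin_cases i <;> fin_cases j <;> simp [Matrix.mul_apply, Fin.sum_univ_two]

theorem wchain_add {a b : K} (hab : a + b ≠ 0) :
    Cong (diagonal ![a, b]) (diagonal ![a + b, a * b * (a + b)]) := by
  refine ⟨!![1, -b; 1, a], ?_, ?_⟩
  · rw [det_fin_two_of]
    have : 1 * a - -b * 1 = a + b := by ring
    rw [this]
    exact hab
  · ext i j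
    fin_cases i <;> fin_cases j <;> simp [Matrix.mul_apply, Fin.sum_univ_two] <;> ring

theorem wchain_value : ∀ (n : ℕ) (d x : Fin (n + 1) → K), (∀ i, d i ≠ 0) →
    ∑ i, d i * x i ^ 2 ≠ 0 → ∃ r : Fin n → K, (∀ i, r i ≠ 0) ∧
      Cong (diagonal d) (diagonal (Fin.cons (∑ i, d i * x i ^ 2) r)) ∧
      ∑ i, cl (d i) = cl (∑ i, d i * x i ^ 2) + ∑ i, cl (r i) := by
  intro n
  induction n with
  | zero =>
    intro d x hd hc
    rw [Fin.sum_univ_one] at hc
    have hx : x 0 ≠ 0 := by
      intro h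
      apply hc
      rw [h]
      ring
    refine ⟨Fin.elim0, fun i => i.elim0, ?_, ?_⟩
    · have h1 := wchain_scale d (e := x) (fun i => by rw [Fin.fin_one_eq_zero i]; exact hx)
      have h2 : (fun i => d i * x i ^ 2) =
          (Fin.cons (∑ i, d i * x i ^ 2) Fin.elim0 : Fin 1 → K) := by
        funext i
        rw [Fin.fin_one_eq_zero i, Fin.cons_zero, Fin.sum_univ_one]
      rwa [h2] at h1
    · rw [Fin.sum_univ_one, Fin.sum_univ_one, Finset.univ_eq_empty, Finset.sum_empty, add_zero,
        cl_mul_sq _ hx]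
  | succ m ih =>
    intro d x hd hc
    obtain ⟨c, hcdef⟩ : ∃ c, c = ∑ i, d i * x i ^ 2 := ⟨_, rfl⟩
    obtain ⟨s, hsdef⟩ : ∃ s, s = ∑ i : Fin (m + 1), d i.succ * x i.succ ^ 2 := ⟨_, rfl⟩
    have hcs : c = d 0 * x 0 ^ 2 + s := by rw [hcdef, hsdef, Fin.sum_univ_succ]
    rw [← hcdef] at hc ⊢
    have hdc : (Fin.cons (d 0) (fun i : Fin (m + 1) => d i.succ) : Fin (m + 2) → K) = d := by
      funext i
      refine Fin.cases ?_ (fun j => ?_) i
      · rfl
      · rfl
    by_cases hs : s = 0
    · have hx : x 0 ≠ 0 := by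
        intro h
        apply hc
        rw [hcs, hs, h]
        ring
      rw [hs, add_zero] at hcs
      refine ⟨fun i => d i.succ, fun i => hd _, ?_, ?_⟩
      · have h1 := wchain_cons (wchain_scale (fun _ : Unit => d 0) (e := fun _ => x 0)
          (fun _ => hx)) (Cong.refl (diagonal fun i : Fin (m + 1) => d i.succ))
        rw [hdc, ← hcs] at h1
        exact h1
      · rw [Fin.sum_univ_succ, hcs, cl_mul_sq _ hx]
    · obtain ⟨r, hr, hr1, hr2⟩ := ih (fun i => d i.succ) (fun i => x i.succ) (fun i => hd _)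
        (by rw [← hsdef]; exact hs)
      rw [← hsdef] at hr1 hr2
      have h0 : Cong (diagonal d)
          (diagonal (Fin.cons (d 0) (Fin.cons s r : Fin (m + 1) → K) : Fin (m + 2) → K)) := by
        have h1 := wchain_cons (Cong.refl (diagonal fun _ : Unit => d 0)) hr1
        rw [hdc] at h1
        exact h1
      by_cases hx : x 0 = 0
      · have hc' : c = s := by rw [hcs, hx]; ring
        refine ⟨Fin.cons (d 0) r, ?_, ?_, ?_⟩
        · intro i
          refine Fin.cases ?_ (fun j => ?_) i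
          · exact hd 0
          · exact hr j
        · rw [hc']
          exact h0.trans (wchain_pair (wchain_swap _ _))
        · rw [Fin.sum_univ_succ, hr2, Fin.sum_univ_succ, hc']
          simp only [Fin.cons_zero, Fin.cons_succ]
          abel
      · obtain ⟨a, ha⟩ : ∃ a, a = d 0 * x 0 ^ 2 := ⟨_, rfl⟩
        have ha0 : a ≠ 0 := by
          rw [ha]
          exact mul_ne_zero (hd 0) (pow_ne_zero 2 hx)
        rw [← ha] at hcs
        have hc' : a + s ≠ 0 := by rw [← hcs]; exact hc
        refine ⟨Fin.cons (a * s * (a + s)) r, ?_, ?_, ?_⟩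
        · intro i
          refine Fin.cases ?_ (fun j => ?_) i
          · exact mul_ne_zero (mul_ne_zero ha0 hs) hc'
          · exact hr j
        · rw [hcs]
          refine h0.trans (Cong.trans ?_ (wchain_pair (wchain_add hc')))
          have h1 := wchain_cons (wchain_scale (fun _ : Unit => d 0) (e := fun _ => x 0)
            (fun _ => hx)) (Cong.refl (diagonal (Fin.cons s r : Fin (m + 1) → K)))
          rw [← ha] at h1
          exact h1
        · rw [Fin.sum_univ_succ, hr2, Fin.sum_univ_succ, hcs]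
          simp only [Fin.cons_zero, Fin.cons_succ]
          have h1 := cl_add ha0 hs hc'
          have h2 : cl (d 0) = cl a := by rw [ha, cl_mul_sq _ hx]
          rw [h2, ← add_assoc, h1, add_assoc]

/-- Congruent diagonal matrices have the same class. -/
theorem diag_wd (h2 : (2 : K) ≠ 0) {n : ℕ} {d d' : Fin n → K} (hd : ∀ i, d i ≠ 0)
    (hd' : ∀ i, d' i ≠ 0) (h : Cong (diagonal d) (diagonal d')) :
    ∑ i, cl (d i) = ∑ i, cl (d' i) := by
  induction n with
  | zero => rw [Finset.univ_eq_empty, Finset.sum_empty, Finset.sum_empty]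
  | succ m ih =>
    obtain ⟨P, hP, hPe⟩ := h
    have h00 : ∑ i, d i * P i 0 ^ 2 = d' 0 := by
      have h1 := congrFun (congrFun hPe 0) 0
      rw [diagonal_apply_eq, Matrix.mul_apply] at h1
      rw [← h1]
      refine Finset.sum_congr rfl fun i _ => ?_
      rw [mul_diagonal, transpose_apply]
      ring
    obtain ⟨r, hr, hr1, hr2⟩ := wchain_value m d (fun i => P i 0) hd (by rw [h00]; exact hd' 0)
    rw [h00] at hr1 hr2
    have hdc : (Fin.cons (d' 0) (fun i : Fin m => d' i.succ) : Fin (m + 1) → K) = d' := by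
      funext i
      refine Fin.cases ?_ (fun j => ?_) i
      · rfl
      · rfl
    have h3 : Cong (diagonal (Fin.cons (d' 0) r : Fin (m + 1) → K))
        (diagonal (Fin.cons (d' 0) (fun i : Fin m => d' i.succ))) := by
      rw [hdc]
      exact hr1.symm.trans ⟨P, hP, hPe⟩
    have h4 := ih hr (fun i => hd' _) (cong_cancel_diag h2 (hd' 0) h3)
    rw [hr2, h4, Fin.sum_univ_succ]

end SpinWA
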