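import Pool.Agent.H.MP_83e36b_nt.sp.KKryB

/-!
# The matrix `hk a` is the matrix of the trace form

PROOF. Let `f = monicPoly a` (monic of degree `n`), `A = AdjoinRoot f` with the power basis
`AdjoinRoot.powerBasis'` (`1, x, …, x^(n-1)`, dimension `f.natDegree = n`; reindex by
`finCongr`). The matrix of the multiplication by `x = root f` in this basis is `cmp a`
(`x * x^j = x^(j+1)` and `x^n = - ∑ a_i x^i`), so the trace of `x^k` is `Tr ((cmp a)^k)`
(`Algebra.trace_eq_matrix_trace`, `Algebra.leftMulMatrix` is an algebra homomorphism). (`n = 0`: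
nothing to prove since `Fin 0` is empty in `hk_eq_trace`.)
-/

open Matrix Polynomial

namespace SpinWA

private theorem TrF_degree {R : Type*} [CommRing R] [Nontrivial R] {n : ℕ} (a : Fin n → R) :
    (∑ i, C (a i) * X ^ (i : ℕ) : R[X]).degree < (n : ℕ) := by
  exact degree_sum_fin_lt a

private theorem TrF_monic {R : Type*} [CommRing R] [Nontrivial R] {n : ℕ} (a : Fin n → R) :
    (AnWA.monicPoly a).Monic :=
  monic_X_pow_add (TrF_degree a)

private theorem TrF_natDegree {R : Type*} [CommRing R] [Nontrivial R] {n : ℕ} (a : Fin n → R) :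
    (AnWA.monicPoly a).natDegree = n := by
  apply natDegree_eq_of_degree_eq_some
  unfold AnWA.monicPoly
  rw [degree_add_eq_left_of_degree_lt, degree_X_pow]
  rw [degree_X_pow]
  exact TrF_degree a

private theorem TrF_coeff {R : Type*} [CommRing R] {n : ℕ} (a : Fin n → R) (i : Fin n) :
    (AnWA.monicPoly a).coeff i = a i := by
  unfold AnWA.monicPoly
  rw [coeff_add, coeff_X_pow, if_neg (by omega), zero_add, finsetSum_coeff]
  rw [Finset.sum_eq_single i]
  · rw [coeff_C_mul, coeff_X_pow, if_pos rfl, mul_one]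
  · intro j _ hj
    rw [coeff_C_mul, coeff_X_pow, if_neg (fun e => hj (Fin.ext e.symm)), mul_zero]
  · intro h
    exact absurd (Finset.mem_univ i) h

/-- Powers of the companion matrix, up to reindexing. -/
private theorem TrF_aux {K : Type*} [Field K] {n m : ℕ} (h : m = n) (a : Fin n → K) (q : K[X])
    (hq : ∀ i : Fin n, q.coeff i = a i) (M : Matrix (Fin m) (Fin m) K)
    (hM : M = Matrix.of fun i j : Fin m =>
      if (j : ℕ) + 1 = m then -q.coeff (i : ℕ) else if (i : ℕ) = j + 1 then 1 else 0) (k : ℕ) :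
    (M ^ k).trace = psum a k := by
  subst h
  have e : M = cmp a := by
    rw [hM]
    ext i j
    simp only [cmp, Matrix.of_apply, hq]
  rw [e]
  rfl

theorem trace_root_pow {K : Type*} [Field K] {n : ℕ} (hn : 0 < n) (a : Fin n → K) (k : ℕ) :
    Algebra.trace K (AdjoinRoot (AnWA.monicPoly a)) (AdjoinRoot.root (AnWA.monicPoly a) ^ k) =
      psum a k := by
  have hmon : (AnWA.monicPoly a).Monic := TrF_monic a
  have hf : AnWA.monicPoly a ≠ 0 := hmon.ne_zero
  have hdim : (AdjoinRoot.powerBasis hf).dim = n := by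
    rw [AdjoinRoot.powerBasis_dim]
    exact TrF_natDegree a
  have hgen : (AdjoinRoot.powerBasis hf).gen = AdjoinRoot.root (AnWA.monicPoly a) :=
    AdjoinRoot.powerBasis_gen hf
  rw [← hgen, Algebra.trace_eq_matrix_trace (AdjoinRoot.powerBasis hf).basis, map_pow]
  refine TrF_aux hdim a (AnWA.monicPoly a) (fun i => TrF_coeff a i) _ ?_ k
  rw [PowerBasis.leftMulMatrix, PowerBasis.minpolyGen_eq,
    AdjoinRoot.minpoly_powerBasis_gen_of_monic hmon hf]

theorem hk_eq_trace {K : Type*} [Field K] {n : ℕ} (a : Fin n → K) (i j : Fin n) :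
    hk a i j = Algebra.trace K (AdjoinRoot (AnWA.monicPoly a))
      (AdjoinRoot.root (AnWA.monicPoly a) ^ (i : ℕ) *
        AdjoinRoot.root (AnWA.monicPoly a) ^ (j : ℕ)) := by
  have hn : 0 < n := lt_of_le_of_lt (Nat.zero_le _) i.2
  rw [← pow_add, trace_root_pow hn]
  rfl

end SpinWA
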