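import Pool.Agent.H.MP_83e36b_nt.sp.TDef
import Pool.Agent.H.MP_83e36b_nt.sp.TrF
import Pool.Agent.H.MP_83e36b_nt.sp.XWa

/-!
# Weak approximation for the variety `X_Q`
-/

open Polynomial Matrix Topology

namespace SpinWA

theorem trForm_eq_hk {K : Type*} [Field K] {n : ℕ} (a : Fin n → K) : trForm a = hk a := by
  ext i j
  rw [hk_eq_trace]
  rfl

theorem trForm_map {K : Type*} [Field K] (φ : ℚ →+* K) {n : ℕ} (a : Fin n → ℚ) :
    (trForm a).map φ = trForm fun i => φ (a i) := by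
  rw [trForm_eq_hk, trForm_eq_hk, hk_map]

/-- The map `X_Q(ℚ) → X_Q(K)` for a field `K` containing `ℚ`. -/
noncomputable def mapX {n : ℕ} {Q : Matrix (Fin n) (Fin n) ℚ} (K : Type*) [Field K] [Algebra ℚ K]
    (x : XTr Q ℚ) : XTr Q K :=
  ⟨((fun i => algebraMap ℚ K (x.1.1 i)), x.1.2.map (algebraMap ℚ K)), by
    obtain ⟨h1, h2⟩ := x.2
    refine ⟨?_, ?_⟩
    · show (x.1.2.map (algebraMap ℚ K))ᵀ * Q.map (algebraMap ℚ K) * x.1.2.map (algebraMap ℚ K) =
        trForm fun i => algebraMap ℚ K (x.1.1 i)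
      rw [← trForm_map, ← h1, Matrix.map_mul, Matrix.map_mul, Matrix.transpose_map]
      congr 2
    · show IsUnit (x.1.2.map (algebraMap ℚ K)).det
      have h3 : (x.1.2.map (algebraMap ℚ K)).det = algebraMap ℚ K x.1.2.det := by
        rw [RingHom.map_det]; rfl
      rw [h3]
      exact h2.map _⟩

/-- The local points as a family over all places. -/
noncomputable def glue {n : ℕ} {Q : Matrix (Fin n) (Fin n) ℚ} (xr : XTr Q ℝ)
    (xp : ∀ p : Nat.Primes, XTr Q ℚ_[(p : ℕ)]) :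
    ∀ v : Pl, (Fin n → Cpl v) × Matrix (Fin n) (Fin n) (Cpl v)
  | none => xr.1
  | some p => (xp p).1

theorem dense_XTr {n : ℕ} (hn : 4 ≤ n) {Q : Matrix (Fin n) (Fin n) ℚ} (hQ : Qᵀ = Q)
    (hd : Q.det ≠ 0) :
    DenseRange (fun x : XTr Q ℚ => ((mapX ℝ x, fun p : Nat.Primes => mapX ℚ_[(p : ℕ)] x) :
      XTr Q ℝ × ∀ p : Nat.Primes, XTr Q ℚ_[(p : ℕ)])) := by
  obtain ⟨m, e, he, hm, rfl⟩ : ∃ m e : ℕ, e ≤ 1 ∧ 2 ≤ m ∧ n = 2 * m + e :=
    ⟨n / 2, n % 2, by omega, by omega, by omega⟩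
  rintro ⟨xr, xp⟩
  rw [mem_closure_iff_nhds]
  intro t ht
  rw [nhds_prod_eq, Filter.mem_prod_iff] at ht
  obtain ⟨t1, ht1, t2, ht2, ht12⟩ := ht
  rw [nhds_pi, Filter.mem_pi] at ht2
  obtain ⟨I, hI, s, hs, hst⟩ := ht2
  obtain ⟨u1, hu1, hu1t⟩ := mem_nhds_subtype _ _ _ |>.1 ht1
  have hs' : ∀ p, ∃ u ∈ 𝓝 (xp p).1, Subtype.val ⁻¹' u ⊆ s p := fun p =>
    (mem_nhds_subtype _ _ _).1 (hs p)
  choose u hu hus using hs'
  let U : ∀ v : Pl, Set ((Fin (2 * m + e) → Cpl v) ×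
      Matrix (Fin (2 * m + e)) (Fin (2 * m + e)) (Cpl v)) := fun v =>
    match v with
    | none => u1
    | some p => u p
  have hQr : Q.map (algebraMap ℚ ℝ) = Q.map (emb none) := rfl
  obtain ⟨a, B, hB, hBd, hU⟩ := x_wa he hm hQ hd (insert none (hI.toFinset.image some))
    (glue xr xp) (fun v => by
      match v with
      | none =>
        obtain ⟨h1, h2⟩ := xr.2
        refine ⟨?_, ?_⟩
        · rw [← trForm_eq_hk]
          exact h1
        · exact h2.ne_zero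
      | some p =>
        obtain ⟨h1, h2⟩ := (xp p).2
        refine ⟨?_, ?_⟩
        · rw [← trForm_eq_hk]
          exact h1
        · exact h2.ne_zero) U (fun v _ => by
      match v with
      | none => exact hu1
      | some p => exact hu p)
  have hx : (a, B) ∈ XTr Q ℚ := by
    refine ⟨?_, isUnit_iff_ne_zero.2 hBd⟩
    rw [trForm_eq_hk]
    have : Q.map (algebraMap ℚ ℚ) = Q := by
      ext i j
      simp
    rw [this]
    exact hB
  refine ⟨_, ht12 (Set.mem_prod.2 ⟨hu1t ?_, hst ?_⟩), ⟨⟨(a, B), hx⟩, rfl⟩⟩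
  · exact hU none (Finset.mem_insert_self _ _)
  · intro p hp
    refine hus p ?_
    exact hU (some p) (Finset.mem_insert_of_mem (Finset.mem_image_of_mem _ (hI.mem_toFinset.2 hp)))

end SpinWA
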