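import Pool.Agent.H.MP_83e36b_nt.sp.LWa
import Pool.Agent.H.MP_83e36b_nt.sp.WCD

/-!
# Weak approximation for the special orthogonal group

PROOF. If `n = 0` take `O = 1`. Otherwise choose a rational vector `z` with `qf Q z ≠ 0`
(`exists_qf_ne`). For `v ∈ S` write `O v` (an isometry of `Q_v = Q.map (emb v)`) as a product of
reflections in vectors `x_{v,1}, …, x_{v,k_v}` (`exists_refl_prod`); by `refl_prod_isom` its
determinant is `(-1)^(k_v) = 1`, so `k_v` is even (characteristic 0). Adding pairs `z, z` at the end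
(`rf_mul_self`: the product does not change) we may assume that all the `k_v`, `v ∈ S`, are equal to
one even number `k`. The map `(x_1, …, x_k) ↦ rf Q x_1 ⋯ rf Q x_k` is continuous at
points with `qf Q x_j ≠ 0` (the entries of `rf Q x` are polynomials in `x` divided by `qf Q x`).
By `wa_fun` (index type `Fin k × Fin n`) there are rational vectors `x_j`, close to `x_{v,j}` for
`v ∈ S`, with `qf ≠ 0`, so the product `O` of the reflections `rf Q x_j` is close to `O v` at
`v ∈ S`. It is an isometry of determinant `(-1)^k = 1` (`refl_prod_isom`).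
(If `S` is empty take `O = 1`; to have `qf Q x_j ≠ 0` over `ℚ` add `none` to `S` with `O = 1`, or
use that `emb v` maps `qf Q x_j` to `qf Q_v x_j ≠ 0` for one `v ∈ S`.)
Compatibility: `(rf Q x).map (emb v) = rf (Q.map (emb v)) (fun i => emb v (x i))`.
-/

open Topology Matrix

namespace SpinWA

theorem lso_list {α : Type*} (l : List α) {k : ℕ} (h : l.length = k) :
    ∃ g : Fin k → α, (List.finRange k).map g = l := by
  subst h
  exact ⟨l.get, by rw [← List.ofFn_eq_map, List.ofFn_get]⟩

theorem lso_qf_map {K L : Type*} [Field K] [Field L] (φ : K →+* L) {n : ℕ}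
    (Q : Matrix (Fin n) (Fin n) K) (x : Fin n → K) :
    φ (qf Q x) = qf (Q.map φ) fun i => φ (x i) := by
  simp only [qf, dotProduct, mulVec, map_sum, map_mul, map_apply]

theorem lso_rf_map {K L : Type*} [Field K] [Field L] (φ : K →+* L) {n : ℕ}
    (Q : Matrix (Fin n) (Fin n) K) (x : Fin n → K) :
    (rf Q x).map φ = rf (Q.map φ) fun i => φ (x i) := by
  ext i j
  simp only [rf, Matrix.map_apply, Matrix.sub_apply, Matrix.smul_apply, vecMulVec_apply, map_sub,
    smul_eq_mul, map_mul, map_div₀, map_ofNat, lso_qf_map, mulVec, dotProduct, map_sum]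
  congr 1
  rw [one_apply, one_apply]
  split_ifs <;> simp

theorem lso_pad {K : Type*} [Field K] {n : ℕ} {Q : Matrix (Fin n) (Fin n) K} (hQ : Qᵀ = Q)
    {z : Fin n → K} (hz : qf Q z ≠ 0) (m : ℕ) :
    ((List.replicate (2 * m) z).map (rf Q)).prod = 1 := by
  rw [List.map_replicate, List.prod_replicate, pow_mul, pow_two, rf_mul_self hQ hz, one_pow]

theorem lso_tendsto {K : Type*} [NontriviallyNormedField K] {n : ℕ}
    {Q : Matrix (Fin n) (Fin n) K} {x : Fin n → K} (hx : qf Q x ≠ 0) :
    Filter.Tendsto (rf Q) (𝓝 x) (𝓝 (rf Q x)) := by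
  have h1 : Continuous fun y : Fin n → K => Q *ᵥ y :=
    Continuous.matrix_mulVec continuous_const continuous_id
  have h2 : Continuous (qf Q) := by
    unfold qf
    exact Continuous.dotProduct continuous_id h1
  have h3 : ContinuousAt (fun y : Fin n → K => 2 / qf Q y) x :=
    continuousAt_const.div h2.continuousAt hx
  have h4 : Continuous fun y : Fin n → K => vecMulVec y (Q *ᵥ y) :=
    Continuous.matrix_vecMulVec continuous_id h1
  exact continuousAt_const.sub (h3.smul h4.continuousAt)

theorem lso_local {n : ℕ} {Q : Matrix (Fin n) (Fin n) ℚ} (hQ : Qᵀ = Q) (hd : Q.det ≠ 0)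
    (S : Finset Pl) (O : ∀ v, Matrix (Fin n) (Fin n) (Cpl v))
    (hO : ∀ v ∈ S, (O v)ᵀ * Q.map (emb v) * O v = Q.map (emb v)) (hO1 : ∀ v ∈ S, (O v).det = 1)
    (v : Pl) : ∃ l : List (Fin n → Cpl v), (∀ x ∈ l, qf (Q.map (emb v)) x ≠ 0) ∧
      Even l.length ∧ (v ∈ S → O v = (l.map (rf (Q.map (emb v)))).prod) := by
  by_cases hv : v ∈ S
  · have hQv : (Q.map (emb v))ᵀ = Q.map (emb v) := by rw [← transpose_map, hQ]
    have hdv : (Q.map (emb v)).det ≠ 0 := by
      have h1 : (Q.map (emb v)).det = emb v Q.det := by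
        rw [RingHom.map_det]
        rfl
      rw [h1]
      exact (map_ne_zero _).2 hd
    obtain ⟨l, hl1, hl2⟩ := exists_refl_prod (two_ne_zero : (2 : Cpl v) ≠ 0) hQv hdv (hO v hv)
    refine ⟨l, hl1, ?_, fun _ => hl2⟩
    have h2 := (refl_prod_isom hQv l hl1).2
    rw [← hl2, hO1 v hv] at h2
    refine (neg_one_pow_eq_one_iff_even (R := Cpl v) ?_).1 h2.symm
    intro h3
    have h4 : (2 : Cpl v) = 0 := by linear_combination -h3
    exact two_ne_zero h4
  · exact ⟨[], by simp, by simp, fun h => absurd h hv⟩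

theorem so_wa {n : ℕ} {Q : Matrix (Fin n) (Fin n) ℚ} (hQ : Qᵀ = Q) (hd : Q.det ≠ 0)
    (S : Finset Pl) (O : ∀ v, Matrix (Fin n) (Fin n) (Cpl v))
    (hO : ∀ v ∈ S, (O v)ᵀ * Q.map (emb v) * O v = Q.map (emb v)) (hO1 : ∀ v ∈ S, (O v).det = 1)
    (U : ∀ v, Set (Matrix (Fin n) (Fin n) (Cpl v))) (hU : ∀ v ∈ S, U v ∈ 𝓝 (O v)) :
    ∃ O' : Matrix (Fin n) (Fin n) ℚ, O'ᵀ * Q * O' = Q ∧ O'.det = 1 ∧
      ∀ v ∈ S, O'.map (emb v) ∈ U v := by
  classical
  rcases Nat.eq_zero_or_pos n with hn | hn
  · subst hn
    refine ⟨1, by simp, by simp, fun v hv => ?_⟩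
    have h1 := mem_of_mem_nhds (hU v hv)
    rwa [Subsingleton.elim (O v) ((1 : Matrix (Fin 0) (Fin 0) ℚ).map (emb v))] at h1
  have _ : Nonempty (Fin n) := ⟨⟨0, hn⟩⟩
  obtain ⟨z, hz⟩ := exists_qf_ne (two_ne_zero : (2 : ℚ) ≠ 0) hQ hd
  choose l hl1 hl2 hl3 using lso_local hQ hd S O hO hO1
  obtain ⟨k, hk⟩ : ∃ k, k = ∑ v ∈ insert none S, (l v).length := ⟨_, rfl⟩
  have hkeven : Even k := by
    rw [hk]
    exact Finset.even_sum _ fun v _ => hl2 v
  have hkle : ∀ v ∈ insert none S, (l v).length ≤ k := by
    intro v hv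
    rw [hk]
    exact Finset.single_le_sum (f := fun v => (l v).length) (fun _ _ => Nat.zero_le _) hv
  have hQv : ∀ v, (Q.map (emb v))ᵀ = Q.map (emb v) := fun v => by rw [← transpose_map, hQ]
  have hg : ∀ v : Pl, ∃ g : Fin k → Fin n → Cpl v, v ∈ insert none S →
      ((∀ j, qf (Q.map (emb v)) (g j) ≠ 0) ∧
        (v ∈ S → O v = ((List.finRange k).map fun j => rf (Q.map (emb v)) (g j)).prod)) := by
    intro v
    by_cases hv : v ∈ insert none S
    · have hzv : qf (Q.map (emb v)) (fun i => emb v (z i)) ≠ 0 := by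
        rw [← lso_qf_map]
        exact (map_ne_zero _).2 hz
      obtain ⟨m, hm⟩ : ∃ m, k - (l v).length = 2 * m := by
        have h1 : Even (k - (l v).length) := (Nat.even_sub (hkle v hv)).2
          (iff_of_true hkeven (hl2 v))
        obtain ⟨m, hm⟩ := h1
        exact ⟨m, by omega⟩
      obtain ⟨g, hg⟩ := lso_list (l v ++ List.replicate (2 * m) fun i => emb v (z i)) (k := k)
        (by
          rw [List.length_append, List.length_replicate, ← hm]
          have := hkle v hv
          omega)
      refine ⟨g, fun _ => ⟨fun j => ?_, fun hvS => ?_⟩⟩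
      · have h1 : g j ∈ (List.finRange k).map g := List.mem_map.2 ⟨j, List.mem_finRange j, rfl⟩
        rw [hg, List.mem_append] at h1
        rcases h1 with h1 | h1
        · exact hl1 v _ h1
        · rw [List.eq_of_mem_replicate h1]
          exact hzv
      · have h1 : ((List.finRange k).map fun j => rf (Q.map (emb v)) (g j)) =
            ((List.finRange k).map g).map (rf (Q.map (emb v))) := by
          rw [List.map_map]
          rfl
        rw [h1, hg, List.map_append, List.prod_append, lso_pad (hQv v) hzv, mul_one]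
        exact hl3 v hvS
    · exact ⟨fun _ _ => 0, fun h => absurd h hv⟩
  choose g hg using hg
  obtain ⟨r, hr⟩ := wa_fun (insert none S) (fun v (p : Fin k × Fin n) => g v p.1 p.2)
    (fun v => {y | (∀ j, qf (Q.map (emb v)) (fun i => y (j, i)) ≠ 0) ∧
      (v ∈ S → ((List.finRange k).map fun j =>
        rf (Q.map (emb v)) (fun i => y (j, i))).prod ∈ U v)}) (by
    intro v hv
    obtain ⟨h1, h2⟩ := hg v hv
    have hc : ∀ j : Fin k, Continuous fun y : Fin k × Fin n → Cpl v =>
        (fun i => y (j, i) : Fin n → Cpl v) := by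
      intro j
      exact continuous_pi fun i => continuous_apply (j, i)
    have hqc : Continuous (qf (Q.map (emb v))) := by
      unfold qf
      exact Continuous.dotProduct continuous_id
        (Continuous.matrix_mulVec continuous_const continuous_id)
    have h3 : ∀ᶠ y in 𝓝 (fun p : Fin k × Fin n => g v p.1 p.2),
        ∀ j, qf (Q.map (emb v)) (fun i => y (j, i)) ≠ 0 := by
      rw [Filter.eventually_all]
      intro j
      exact (hqc.comp (hc j)).continuousAt.eventually_ne (h1 j)
    have h4 : ∀ᶠ y in 𝓝 (fun p : Fin k × Fin n => g v p.1 p.2),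
        (v ∈ S → ((List.finRange k).map fun j =>
          rf (Q.map (emb v)) (fun i => y (j, i))).prod ∈ U v) := by
      by_cases hvS : v ∈ S
      · have h5 : Filter.Tendsto (fun y : Fin k × Fin n → Cpl v => ((List.finRange k).map fun j =>
            rf (Q.map (emb v)) (fun i => y (j, i))).prod)
            (𝓝 (fun p : Fin k × Fin n => g v p.1 p.2))
            (𝓝 ((List.finRange k).map fun j => rf (Q.map (emb v)) (g v j)).prod) := by
          apply tendsto_list_prod
          intro j _
          have h6 : Filter.Tendsto (fun y : Fin k × Fin n → Cpl v =>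
              (fun i => y (j, i) : Fin n → Cpl v)) (𝓝 (fun p : Fin k × Fin n => g v p.1 p.2))
              (𝓝 (g v j)) := (hc j).tendsto _
          exact (lso_tendsto (h1 j)).comp h6
        rw [← h2 hvS] at h5
        filter_upwards [h5 (hU v hvS)] with y hy
        exact fun _ => hy
      · exact Filter.Eventually.of_forall fun y h => absurd h hvS
    exact h3.and h4)
  have hqr : ∀ j : Fin k, qf Q (fun i => r (j, i)) ≠ 0 := by
    intro j h
    have h1 := (hr none (Finset.mem_insert_self _ _)).1 j
    apply h1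
    have h2 := lso_qf_map (emb none) Q (fun i => r (j, i))
    rw [h, map_zero] at h2
    exact h2.symm
  have hlr : ∀ x ∈ (List.finRange k).map (fun j => (fun i => r (j, i) : Fin n → ℚ)),
      qf Q x ≠ 0 := by
    intro x hx
    obtain ⟨j, -, rfl⟩ := List.mem_map.1 hx
    exact hqr j
  obtain ⟨e1, e2⟩ := refl_prod_isom hQ _ hlr
  refine ⟨_, e1, ?_, ?_⟩
  · rw [e2, List.length_map, List.length_finRange, hkeven.neg_one_pow]
  · intro v hv
    have h1 := (hr v (Finset.mem_insert_of_mem hv)).2 hv
    have h2 : ((((List.finRange k).map (fun j => (fun i => r (j, i) : Fin n → ℚ))).map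
        (rf Q)).prod).map (emb v) = ((List.finRange k).map fun j =>
          rf (Q.map (emb v)) (fun i => emb v (r (j, i)))).prod := by
      rw [← RingHom.mapMatrix_apply, map_list_prod, List.map_map, List.map_map]
      congr 1
      apply List.map_congr_left
      intro j _
      exact lso_rf_map (emb v) Q _
    rw [h2]
    exact h1

end SpinWA
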