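import Pool.Agent.H.MP_83e36b_nt.sp.PMap
import Pool.Agent.H.MP_83e36b_nt.sp.KKry
import Pool.Agent.H.MP_83e36b_nt.sp.KKryB
import Pool.Agent.H.MP_83e36b_nt.sp.CId

/-!
# Parity: polynomials of the form `s ^ e g(s ^ 2)`

Let `n = 2 m + e`, `e ≤ 1`, `P = monicPoly (dbl e g) = X^e g(X^2)`, `D = sgM = diag((-1)^i)`.

PROOF. `dbl_iff`: a vector `a : Fin n → K` with `a_i = 0` whenever `n + i` is odd is `dbl e g` with
`g_l = a_{2l+e}`. `sg_cmp`: the entries of `cmp a` are zero if `i + j` is even (entries `(j+1, j)`, and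
`- a_i` at `(i, n-1)`, zero if `n + i` is odd), so `D C D = - C`. `psum_dbl_odd`:
`Tr (C^k) = Tr (D C^k D) = (-1)^k Tr (C^k)`, characteristic 0. `sg_hk`: `D H D = H` since
`psum (i + j) = 0` for `i + j` odd; `gamM a = D H`. `gamM_symm`. -/

open Matrix Polynomial

namespace SpinWA

variable {K : Type*} [Field K] {m e : ℕ}

/-- The diagonal matrix of signs. -/
def sgM (K : Type*) [Field K] (n : ℕ) : Matrix (Fin n) (Fin n) K :=
  diagonal fun i => (-1) ^ (i : ℕ)

theorem sgM_mul_self (n : ℕ) : sgM K n * sgM K n = 1 := by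
  unfold sgM
  rw [diagonal_mul_diagonal]
  ext i j
  by_cases hij : i = j
  · subst hij
    simp only [diagonal_apply_eq, one_apply_eq]
    rw [← mul_pow]
    simp
  · simp [hij]

theorem gamM_eq {n : ℕ} (a : Fin n → K) : gamM a = sgM K n * hk a := by
  ext i j
  unfold sgM gamM hk
  rw [diagonal_mul]
  simp

theorem dbl_iff (he : e ≤ 1) (a : Fin (2 * m + e) → K)
    (h : ∀ i : Fin (2 * m + e), Odd (2 * m + e + i) → a i = 0) : ∃ g : Fin m → K, a = dbl e g := by
  refine ⟨fun l => a ⟨2 * l + e, by have := l.2; omega⟩, ?_⟩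
  funext i
  unfold dbl
  by_cases hi : (i : ℕ) % 2 = e % 2 ∧ (i : ℕ) / 2 < m
  · rw [dif_pos hi]
    congr 1
    apply Fin.ext
    simp only
    omega
  · rw [dif_neg hi]
    apply h i
    have hi2 := i.2
    rw [Nat.odd_iff]
    omega

/-- The entries of the companion matrix with `i + j` even are zero. -/
private theorem CParA_entry (he : e ≤ 1) (g : Fin m → K) (i j : Fin (2 * m + e))
    (h : (i + j : ℕ) % 2 = 0) : cmp (dbl e g) i j = 0 := by
  unfold cmp
  simp only [of_apply]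
  have hi := i.2
  have hj := j.2
  split_ifs with h1 h2
  · rw [neg_eq_zero]
    unfold dbl
    rw [dif_neg]
    intro hc
    omega
  · omega
  · rfl

theorem sg_cmp (he : e ≤ 1) (g : Fin m → K) :
    sgM K (2 * m + e) * cmp (dbl e g) * sgM K (2 * m + e) = - cmp (dbl e g) := by
  ext i j
  unfold sgM
  rw [mul_diagonal, diagonal_mul, Matrix.neg_apply]
  rcases Nat.even_or_odd ((i : ℕ) + j) with hij | hij
  · rw [CParA_entry he g i j (Nat.even_iff.mp hij)]
    simp
  · have : ((-1 : K) ^ (i : ℕ)) * (-1) ^ (j : ℕ) = -1 := by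
      rw [← pow_add]
      exact hij.neg_one_pow
    calc (-1 : K) ^ (i : ℕ) * cmp (dbl e g) i j * (-1) ^ (j : ℕ)
        = ((-1 : K) ^ (i : ℕ) * (-1) ^ (j : ℕ)) * cmp (dbl e g) i j := by ring
      _ = - cmp (dbl e g) i j := by rw [this]; ring

/-- Conjugation of powers by the diagonal sign matrix. -/
private theorem CParA_pow (he : e ≤ 1) (g : Fin m → K) (k : ℕ) :
    sgM K (2 * m + e) * cmp (dbl e g) ^ k * sgM K (2 * m + e) = (- cmp (dbl e g)) ^ k := by
  induction k with
  | zero => simp [sgM_mul_self]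
  | succ k ih =>
    rw [pow_succ, pow_succ, ← ih, ← sg_cmp he g]
    calc sgM K (2 * m + e) * (cmp (dbl e g) ^ k * cmp (dbl e g)) * sgM K (2 * m + e)
        = sgM K (2 * m + e) * cmp (dbl e g) ^ k * 1 * cmp (dbl e g) * sgM K (2 * m + e) := by
          simp only [Matrix.mul_one, Matrix.mul_assoc]
      _ = sgM K (2 * m + e) * cmp (dbl e g) ^ k * (sgM K (2 * m + e) * sgM K (2 * m + e)) *
            cmp (dbl e g) * sgM K (2 * m + e) := by rw [sgM_mul_self]
      _ = _ := by simp only [Matrix.mul_assoc]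

theorem psum_dbl_odd [CharZero K] (he : e ≤ 1) (g : Fin m → K) {k : ℕ} (hk : Odd k) :
    psum (dbl e g) k = 0 := by
  have h1 : (sgM K (2 * m + e) * cmp (dbl e g) ^ k * sgM K (2 * m + e)).trace
      = psum (dbl e g) k := by
    rw [trace_mul_comm, ← Matrix.mul_assoc, sgM_mul_self, Matrix.one_mul]
    rfl
  rw [CParA_pow he g k, hk.neg_pow, trace_neg] at h1
  have h2 : (cmp (dbl e g) ^ k).trace = psum (dbl e g) k := rfl
  rw [h2] at h1
  exact self_eq_neg.mp h1.symm

theorem sg_hk [CharZero K] (he : e ≤ 1) (g : Fin m → K) :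
    sgM K (2 * m + e) * hk (dbl e g) * sgM K (2 * m + e) = hk (dbl e g) := by
  ext i j
  unfold sgM
  rw [mul_diagonal, diagonal_mul]
  unfold hk
  simp only [of_apply]
  rcases Nat.even_or_odd ((i : ℕ) + j) with hij | hij
  · have : ((-1 : K) ^ (i : ℕ)) * (-1) ^ (j : ℕ) = 1 := by
      rw [← pow_add]
      exact hij.neg_one_pow
    calc (-1 : K) ^ (i : ℕ) * psum (dbl e g) (i + j) * (-1) ^ (j : ℕ)
        = ((-1 : K) ^ (i : ℕ) * (-1) ^ (j : ℕ)) * psum (dbl e g) (i + j) := by ring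
      _ = psum (dbl e g) (i + j) := by rw [this]; ring
  · rw [psum_dbl_odd he g hij]
    simp

theorem gamM_transpose [CharZero K] (he : e ≤ 1) (g : Fin m → K) :
    (gamM (dbl e g))ᵀ = gamM (dbl e g) := by
  rw [gamM_eq, transpose_mul, hk_transpose]
  have hD : (sgM K (2 * m + e))ᵀ = sgM K (2 * m + e) := by
    unfold sgM
    exact diagonal_transpose _
  rw [hD]
  calc hk (dbl e g) * sgM K (2 * m + e)
      = (sgM K (2 * m + e) * sgM K (2 * m + e)) * hk (dbl e g) * sgM K (2 * m + e) := by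
        rw [sgM_mul_self, Matrix.one_mul]
    _ = sgM K (2 * m + e) * (sgM K (2 * m + e) * hk (dbl e g) * sgM K (2 * m + e)) := by
        simp only [Matrix.mul_assoc]
    _ = sgM K (2 * m + e) * hk (dbl e g) := by rw [sg_hk he g]

end SpinWA
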