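import Pool.Agent.H.MP_83e36b_nt.sp.DRed
import Pool.Agent.H.MP_83e36b_nt.sp.CParA

/-!
# Power sums of `s ^ e g(s ^ 2)` and reordering of `gamM (dbl e g)`

PROOF. Let `P = dbl e g`, `n = 2 m + e`. `psum_dbl_even`: `psum P (2 k) = 2 psum g k + [k = 0] e`:
for `e = 0`, `P(s) = g(s^2)`: in the reordered basis
`1, s^2, …, s^{2m-2}; s, s^3, …, s^{2m-1}` of `K[s]/P(s)` the square of `cmp P` is block diagonal
`cmp g ⊕ cmp g` (check on entries: `(cmp P)^2 e_j = e_{j+2}` for `j + 2 < n`, and for `j = n - 2, n - 1`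
it is the image of the last columns: `- ∑_l g_l e_{2l}`, `- ∑_l g_l e_{2l+1}`); so the trace of
`(cmp P)^(2k)` is `2 psum g k` (`m = 0`: trivial). For `e = 1`: `P = s g(s^2)`, i.e.
`dbl 1 g = Fin.cons 0 (dbl 0 g)` (up to the definitional equality `2 m + 1 = (2 m + 0) + 1`), and
`psum_cons`. `gam_reindex`: the equivalence `σ` maps `inl i` to `2 i` (`i < m + e`) and `inr i` to
`2 i + 1` (`i < m`); the entries: `gamM P (2i) (2j) = psum P (2(i+j)) = 2 psum g (i+j) + e [i+j=0]`,
`gamM P (2i+1) (2j+1) = - psum P (2(i+j+1)) = -2 psum g (i+j+1)`; the mixed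
entries vanish by `psum_dbl_odd`.
-/

open Matrix Polynomial

namespace SpinWA

variable {K : Type*} [Field K] [CharZero K] {m e : ℕ}

/-- The reordering: even numbers first. -/
private noncomputable def CDbl_eq (he : e ≤ 1) : Fin (m + e) ⊕ Fin m ≃ Fin (2 * m + e) :=
  Equiv.ofBijective
    (Sum.elim (fun i : Fin (m + e) => (⟨2 * (i : ℕ), by have := i.2; omega⟩ : Fin (2 * m + e)))
      (fun i : Fin m => (⟨2 * (i : ℕ) + 1, by have := i.2; omega⟩ : Fin (2 * m + e))))
    (by
      constructor
      · intro x y h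
        cases x with
        | inl a =>
          cases y with
          | inl b =>
            have h2 := congrArg Fin.val h
            simp only [Sum.elim_inl] at h2
            exact congrArg Sum.inl (Fin.ext (by omega))
          | inr b =>
            have h2 := congrArg Fin.val h
            simp only [Sum.elim_inl, Sum.elim_inr] at h2
            omega
        | inr a =>
          cases y with
          | inl b =>
            have h2 := congrArg Fin.val h
            simp only [Sum.elim_inl, Sum.elim_inr] at h2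
            omega
          | inr b =>
            have h2 := congrArg Fin.val h
            simp only [Sum.elim_inr] at h2
            exact congrArg Sum.inr (Fin.ext (by omega))
      · intro j
        have hj := j.2
        rcases Nat.even_or_odd' (j : ℕ) with ⟨c, hc | hc⟩
        · exact ⟨Sum.inl ⟨c, by omega⟩, Fin.ext (by simp only [Sum.elim_inl]; omega)⟩
        · exact ⟨Sum.inr ⟨c, by omega⟩, Fin.ext (by simp only [Sum.elim_inr]; omega)⟩)

omit [CharZero K] in
private theorem CDbl_val (g : Fin m → K) (l : Fin m) (i : Fin (2 * m + 0))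
    (h : (i : ℕ) = 2 * l) : dbl 0 g i = g l := by
  unfold dbl
  have hl := l.2
  rw [dif_pos ⟨by omega, by omega⟩]
  congr 1
  apply Fin.ext
  simp only
  omega

omit [CharZero K] in
private theorem CDbl_val' (g : Fin m → K) (i : Fin (2 * m + 0)) (l : ℕ)
    (h : (i : ℕ) = 2 * l + 1) : dbl 0 g i = 0 := by
  unfold dbl
  rw [dif_neg]
  rintro ⟨h1, -⟩
  omega

omit [CharZero K] in
private theorem CDbl_sq (a : Fin (2 * m + 0) → K) (i j j' : Fin (2 * m + 0))
    (h : (j' : ℕ) = j + 1) : (cmp a * cmp a) i j = cmp a i j' := by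
  rw [Matrix.mul_apply, Finset.sum_eq_single j']
  · have h1 := j'.2
    have h2 : cmp a j' j = 1 := by
      unfold cmp
      rw [Matrix.of_apply, if_neg (by omega), if_pos h]
    rw [h2, mul_one]
  · intro b _ hb
    have h1 := j'.2
    have h2 : cmp a b j = 0 := by
      unfold cmp
      rw [Matrix.of_apply, if_neg (by omega), if_neg]
      intro h3
      exact hb (Fin.ext (by omega))
    rw [h2, mul_zero]
  · intro h1
    exact absurd (Finset.mem_univ _) h1

omit [CharZero K] in
private theorem CDbl_sq_last (g : Fin m → K) (i j : Fin (2 * m + 0))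
    (h : (j : ℕ) + 1 = 2 * m + 0) : (cmp (dbl 0 g) * cmp (dbl 0 g)) i j =
      - (if h : 0 < (i : ℕ) then dbl 0 g ⟨(i : ℕ) - 1, by have := i.2; omega⟩ else 0) := by
  have h0 : ∀ b, cmp (dbl 0 g) b j = - dbl 0 g b := by
    intro b
    unfold cmp
    rw [Matrix.of_apply, if_pos h]
  have hlast : dbl 0 g j = 0 := CDbl_val' g j (m - 1) (by omega)
  rw [Matrix.mul_apply]
  split_ifs with hi
  · rw [Finset.sum_eq_single (⟨(i : ℕ) - 1, by have := i.2; omega⟩ : Fin (2 * m + 0))]
    · rw [h0]
      have h2 : cmp (dbl 0 g) i ⟨(i : ℕ) - 1, by have := i.2; omega⟩ = 1 := by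
        have := i.2
        unfold cmp
        rw [Matrix.of_apply, if_neg (by simp only; omega), if_pos (by simp only; omega)]
      rw [h2, one_mul]
    · intro b _ hb
      by_cases hbj : b = j
      · rw [h0, hbj, hlast, neg_zero, mul_zero]
      · have h2 : cmp (dbl 0 g) i b = 0 := by
          unfold cmp
          rw [Matrix.of_apply, if_neg, if_neg]
          · intro h3
            exact hb (Fin.ext (by simp only; omega))
          · intro h3
            exact hbj (Fin.ext (by omega))
        rw [h2, zero_mul]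
    · intro h1
      exact absurd (Finset.mem_univ _) h1
  · rw [neg_zero]
    apply Finset.sum_eq_zero
    intro b _
    by_cases hbj : b = j
    · rw [h0, hbj, hlast, neg_zero, mul_zero]
    · have h2 : cmp (dbl 0 g) i b = 0 := by
        unfold cmp
        rw [Matrix.of_apply, if_neg, if_neg]
        · omega
        · intro h3
          exact hbj (Fin.ext (by omega))
      rw [h2, zero_mul]

omit [CharZero K] in
private theorem CDbl_blocks (g : Fin m → K) :
    (cmp (dbl 0 g) * cmp (dbl 0 g)).submatrix (CDbl_eq (m := m) (e := 0) (by norm_num))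
      (CDbl_eq (m := m) (e := 0) (by norm_num)) = fromBlocks (cmp g) 0 0 (cmp g) := by
  ext x y
  rw [Matrix.submatrix_apply]
  cases x with
  | inl a =>
    cases y with
    | inl b =>
      have ha := a.2
      have hb := b.2
      rw [fromBlocks_apply₁₁]
      have h1 := CDbl_sq (dbl 0 g) (CDbl_eq (m := m) (e := 0) (by norm_num) (Sum.inl a))
        (CDbl_eq (m := m) (e := 0) (by norm_num) (Sum.inl b)) ⟨2 * (b : ℕ) + 1, by omega⟩ rfl
      rw [h1]
      unfold cmp
      rw [Matrix.of_apply, Matrix.of_apply]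
      by_cases h2 : (b : ℕ) + 1 = m
      · rw [if_pos (by simp only; omega), if_pos h2]
        congr 1
        exact CDbl_val g a _ rfl
      · rw [if_neg (by simp only; omega), if_neg h2]
        by_cases h3 : (a : ℕ) = b + 1
        · rw [if_pos h3, if_pos]
          show 2 * (a : ℕ) = 2 * (b : ℕ) + 1 + 1
          omega
        · rw [if_neg h3, if_neg]
          show ¬ (2 * (a : ℕ) = 2 * (b : ℕ) + 1 + 1)
          omega
    | inr b =>
      have ha := a.2
      have hb := b.2
      rw [fromBlocks_apply₁₂, Matrix.zero_apply]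
      by_cases h2 : (b : ℕ) + 1 = m
      · rw [CDbl_sq_last g _ _ (by show 2 * (b : ℕ) + 1 + 1 = 2 * m + 0; omega)]
        split_ifs with hi
        · rw [CDbl_val' g _ ((a : ℕ) - 1), neg_zero]
          have hi' : 0 < 2 * (a : ℕ) := hi
          show 2 * (a : ℕ) - 1 = 2 * ((a : ℕ) - 1) + 1
          omega
        · exact neg_zero
      · have h1 := CDbl_sq (dbl 0 g) (CDbl_eq (m := m) (e := 0) (by norm_num) (Sum.inl a))
          (CDbl_eq (m := m) (e := 0) (by norm_num) (Sum.inr b)) ⟨2 * (b : ℕ) + 2, by omega⟩ rfl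
        rw [h1]
        unfold cmp
        rw [Matrix.of_apply, if_neg (by simp only; omega), if_neg]
        show ¬ (2 * (a : ℕ) = 2 * (b : ℕ) + 2 + 1)
        omega
  | inr a =>
    cases y with
    | inl b =>
      have ha := a.2
      have hb := b.2
      rw [fromBlocks_apply₂₁, Matrix.zero_apply]
      have h1 := CDbl_sq (dbl 0 g) (CDbl_eq (m := m) (e := 0) (by norm_num) (Sum.inr a))
        (CDbl_eq (m := m) (e := 0) (by norm_num) (Sum.inl b)) ⟨2 * (b : ℕ) + 1, by omega⟩ rfl
      rw [h1]
      unfold cmp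
      rw [Matrix.of_apply]
      by_cases h2 : (b : ℕ) + 1 = m
      · rw [if_pos (by simp only; omega), CDbl_val' g _ a rfl, neg_zero]
      · rw [if_neg (by simp only; omega), if_neg]
        show ¬ (2 * (a : ℕ) + 1 = 2 * (b : ℕ) + 1 + 1)
        omega
    | inr b =>
      have ha := a.2
      have hb := b.2
      rw [fromBlocks_apply₂₂]
      by_cases h2 : (b : ℕ) + 1 = m
      · rw [CDbl_sq_last g _ _ (by show 2 * (b : ℕ) + 1 + 1 = 2 * m + 0; omega),
          dif_pos (by show 0 < 2 * (a : ℕ) + 1; omega)]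
        unfold cmp
        rw [Matrix.of_apply, if_pos h2]
        congr 1
        exact CDbl_val g a _ (by show 2 * (a : ℕ) + 1 - 1 = 2 * (a : ℕ); omega)
      · have h1 := CDbl_sq (dbl 0 g) (CDbl_eq (m := m) (e := 0) (by norm_num) (Sum.inr a))
          (CDbl_eq (m := m) (e := 0) (by norm_num) (Sum.inr b)) ⟨2 * (b : ℕ) + 2, by omega⟩ rfl
        rw [h1]
        unfold cmp
        rw [Matrix.of_apply, Matrix.of_apply, if_neg (by simp only; omega), if_neg h2]
        by_cases h3 : (a : ℕ) = b + 1
        · rw [if_pos h3, if_pos]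
          show 2 * (a : ℕ) + 1 = 2 * (b : ℕ) + 2 + 1
          omega
        · rw [if_neg h3, if_neg]
          show ¬ (2 * (a : ℕ) + 1 = 2 * (b : ℕ) + 2 + 1)
          omega

omit [CharZero K] in
private theorem CDbl_zero (g : Fin m → K) (k : ℕ) : psum (dbl 0 g) (2 * k) = 2 * psum g k := by
  have h1 : ∀ k : ℕ, ((cmp (dbl 0 g) * cmp (dbl 0 g)) ^ k).submatrix
      (CDbl_eq (m := m) (e := 0) (by norm_num)) (CDbl_eq (m := m) (e := 0) (by norm_num)) =
      fromBlocks (cmp g ^ k) 0 0 (cmp g ^ k) := by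
    intro k
    induction k with
    | zero =>
      rw [pow_zero, pow_zero, Matrix.submatrix_one_equiv]
      exact fromBlocks_one.symm
    | succ k ih =>
      rw [pow_succ, pow_succ, ← Matrix.submatrix_mul_equiv _ _ _
        (CDbl_eq (m := m) (e := 0) (by norm_num)) _, ih, CDbl_blocks, fromBlocks_multiply]
      simp only [Matrix.zero_mul, Matrix.mul_zero, add_zero, zero_add]
  have h2 : ((cmp (dbl 0 g) * cmp (dbl 0 g)) ^ k).trace = 2 * psum g k := by
    have h3 := congrArg Matrix.trace (h1 k)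
    have h5 : (fromBlocks (cmp g ^ k) 0 0 (cmp g ^ k)).trace =
        (cmp g ^ k).trace + (cmp g ^ k).trace := by
      unfold Matrix.trace
      rw [Fintype.sum_sum_type]
      rfl
    rw [h5] at h3
    have h4 : (((cmp (dbl 0 g) * cmp (dbl 0 g)) ^ k).submatrix
      (CDbl_eq (m := m) (e := 0) (by norm_num))
      (CDbl_eq (m := m) (e := 0) (by norm_num))).trace =
      ((cmp (dbl 0 g) * cmp (dbl 0 g)) ^ k).trace := by
      unfold Matrix.trace
      exact Equiv.sum_comp (CDbl_eq (m := m) (e := 0) (by norm_num))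
        (fun i => ((cmp (dbl 0 g) * cmp (dbl 0 g)) ^ k) i i)
    rw [h4] at h3
    rw [h3]
    unfold psum
    ring
  rw [← h2]
  unfold psum
  rw [pow_mul, pow_two]

theorem psum_dbl_even (he : e ≤ 1) (g : Fin m → K) (k : ℕ) :
    psum (dbl e g) (2 * k) = 2 * psum g k + (if k = 0 then (e : K) else 0) := by
  rcases Nat.le_one_iff_eq_zero_or_eq_one.1 he with rfl | rfl
  · rw [CDbl_zero]
    simp
  · have h1 : (dbl 1 g : Fin (2 * m + 1) → K) =
        (Fin.cons 0 (dbl 0 g) : Fin ((2 * m + 0) + 1) → K) := by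
      funext i
      refine Fin.cases ?_ (fun i => ?_) i
      · rw [Fin.cons_zero]
        unfold dbl
        rw [dif_neg]
        rintro ⟨h2, -⟩
        simp at h2
      · rw [Fin.cons_succ]
        unfold dbl
        by_cases h2 : (i : ℕ) % 2 = 0 ∧ (i : ℕ) / 2 < m
        · have h3 : ((i.succ : ℕ)) % 2 = 1 % 2 ∧ ((i.succ : ℕ)) / 2 < m := by
            rw [Fin.val_succ]
            omega
          rw [dif_pos h3, dif_pos h2]
          congr 1
          apply Fin.ext
          show ((i.succ : ℕ)) / 2 = (i : ℕ) / 2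
          rw [Fin.val_succ]
          omega
        · have h3 : ¬ (((i.succ : ℕ)) % 2 = 1 % 2 ∧ ((i.succ : ℕ)) / 2 < m) := by
            rw [Fin.val_succ]
            have := i.2
            omega
          rw [dif_neg h3, dif_neg h2]
    have h4 := psum_cons (dbl 0 g) (2 * k)
    rw [← h1, CDbl_zero] at h4
    have h5 : psum (dbl 1 g) (2 * k) = 2 * psum g k + (if 2 * k = 0 then 1 else 0) := h4
    rw [h5]
    by_cases hk : k = 0
    · rw [if_pos (by omega), if_pos hk, Nat.cast_one]
    · rw [if_neg (by omega), if_neg hk]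

theorem gam_reindex (he : e ≤ 1) : ∃ σ : Fin (m + e) ⊕ Fin m ≃ Fin (2 * m + e),
    ∀ g : Fin m → K, (gamM (dbl e g)).submatrix σ σ =
      fromBlocks (Matrix.of fun i j : Fin (m + e) => 2 * psum g ((i : ℕ) + j) +
        (if (i : ℕ) + j = 0 then (e : K) else 0)) 0 0 ((-2 : K) • hk1 g) := by
  refine ⟨CDbl_eq he, fun g => ?_⟩
  ext x y
  rw [Matrix.submatrix_apply]
  unfold gamM
  rw [Matrix.of_apply]
  cases x with
  | inl a =>
    cases y with
    | inl b =>
      rw [fromBlocks_apply₁₁, Matrix.of_apply]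
      have h1 : (-1 : K) ^ (2 * (a : ℕ)) = 1 := by rw [pow_mul]; simp
      have h2 : 2 * (a : ℕ) + 2 * (b : ℕ) = 2 * ((a : ℕ) + b) := by ring
      show (-1 : K) ^ (2 * (a : ℕ)) * psum (dbl e g) (2 * (a : ℕ) + 2 * (b : ℕ)) = _
      rw [h1, one_mul, h2, psum_dbl_even he]
    | inr b =>
      rw [fromBlocks_apply₁₂, Matrix.zero_apply]
      show (-1 : K) ^ (2 * (a : ℕ)) * psum (dbl e g) (2 * (a : ℕ) + (2 * (b : ℕ) + 1)) = 0
      rw [psum_dbl_odd he g ⟨(a : ℕ) + b, by ring⟩, mul_zero]
  | inr a =>
    cases y with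
    | inl b =>
      rw [fromBlocks_apply₂₁, Matrix.zero_apply]
      show (-1 : K) ^ (2 * (a : ℕ) + 1) * psum (dbl e g) (2 * (a : ℕ) + 1 + 2 * (b : ℕ)) = 0
      rw [psum_dbl_odd he g ⟨(a : ℕ) + b, by ring⟩, mul_zero]
    | inr b =>
      rw [fromBlocks_apply₂₂, Matrix.smul_apply]
      have h1 : (-1 : K) ^ (2 * (a : ℕ) + 1) = -1 := by rw [pow_succ, pow_mul]; simp
      have h2 : 2 * (a : ℕ) + 1 + (2 * (b : ℕ) + 1) = 2 * ((a : ℕ) + b + 1) := by ring
      show (-1 : K) ^ (2 * (a : ℕ) + 1) * psum (dbl e g) (2 * (a : ℕ) + 1 + (2 * (b : ℕ) + 1)) = _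
      rw [h1, h2, psum_dbl_even he, if_neg (by omega), add_zero]
      unfold hk1
      rw [Matrix.of_apply, smul_eq_mul]
      ring

end SpinWA
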