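import Pool.Agent.H.MP_83e36b_nt.sp.CParA

/-!
# Parity: symmetry of the operators

Let `n = 2 m + e`, `e ≤ 1`, `P = monicPoly (dbl e g) = X^e g(X^2)`, `D = sgM = diag((-1)^i)`,
`C = cmp (dbl e g)`, `S = cmS (dbl e g)`, `H = hk (dbl e g)`.

PROOF. `sg_cmS`: `D S D = - S`:
for the first summand `P'(C)`, `P''(C)`: `P(-X) = (-1)^n P(X)` so `P'(-X) = -(-1)^n P'(X)` and
`P''(-X) = (-1)^n P''(X)`; `D p(C) D = p(D C D) = p(-C)` for polynomials `p` (`D^2 = 1`), so
`D P''(C) P'(C)⁻¹ D = - P''(C) P'(C)⁻¹` (no invertibility needed: `D A⁻¹ D = (D A D)⁻¹`); for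
`cmN` the entries `(i, j)` are zero if `i + j` is even by `psum_dbl_odd`.
`gam_cmp_antisymm`: `Γ = gamM a = D H`; `(Γ C)ᵀ = (D H C)ᵀ = H C D` (`H C = hk1` is symmetric)
and `D (H C) D = (D H D)(D C D) = - H C`, so `H C D = - D H C = - Γ C`.
`gam_cmS_symm`: same with `H S` antisymmetric and `D (H S) D = - H S`.
`even_of_symm`: let `M = ∑_k y_k C^k` with `Γ M` symmetric. `Γ C^k = (-1)^k (C^k)ᵀ Γ` by
`gam_cmp_antisymm` and `Γᵀ = Γ`, so `(Γ C^k)ᵀ = (-1)^k Γ C^k`, and
`∑ y_k Γ C^k = ∑ (-1)^k y_k Γ C^k`; `Γ` is invertible (`det Γ = ± det H ≠ 0`), so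
`∑_k (y_k - (-1)^k y_k) C^k = 0` and `pow_cmp_indep` gives `2 y_k = 0` for odd `k`. So
`M = ∑_{l < m + e} y_{2l} C^{2l}`.
-/

open Matrix Polynomial

namespace SpinWA

variable {K : Type*} [Field K] {m e : ℕ}

private theorem CParB_conj_aeval {n : ℕ} {D A : Matrix (Fin n) (Fin n) K} (hD : D * D = 1)
    (p : K[X]) : D * aeval A p * D = aeval (D * A * D) p := by
  have hpow : ∀ k : ℕ, D * A ^ k * D = (D * A * D) ^ k := by
    intro k
    induction k with
    | zero => rw [pow_zero, pow_zero, Matrix.mul_one, hD]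
    | succ k ih =>
      rw [pow_succ, pow_succ, ← ih]
      calc D * (A ^ k * A) * D = D * A ^ k * 1 * A * D := by
            simp only [Matrix.mul_one, Matrix.mul_assoc]
        _ = D * A ^ k * (D * D) * A * D := by rw [hD]
        _ = _ := by simp only [Matrix.mul_assoc]
  induction p using Polynomial.induction_on' with
  | add p q hp hq => rw [map_add, Matrix.mul_add, Matrix.add_mul, hp, hq, map_add]
  | monomial k c =>
    rw [aeval_monomial, aeval_monomial, ← Algebra.smul_def, ← Algebra.smul_def, ← hpow,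
      Matrix.mul_smul, Matrix.smul_mul]

private theorem CParB_inv_neg {n : ℕ} (B : Matrix (Fin n) (Fin n) K) : (-B)⁻¹ = -B⁻¹ := by
  by_cases h : IsUnit B.det
  · apply Matrix.inv_eq_left_inv
    rw [neg_mul_neg, Matrix.nonsing_inv_mul _ h]
  · have h' : ¬ IsUnit (-B).det := by
      intro h1
      apply h
      rw [Matrix.det_neg] at h1
      exact isUnit_of_mul_isUnit_right h1
    rw [Matrix.nonsing_inv_apply_not_isUnit _ h', Matrix.nonsing_inv_apply_not_isUnit _ h,
      neg_zero]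

private theorem CParB_conj_inv {n : ℕ} {D : Matrix (Fin n) (Fin n) K} (hD : D * D = 1)
    (A : Matrix (Fin n) (Fin n) K) : D * A⁻¹ * D = (D * A * D)⁻¹ := by
  have h1 : D⁻¹ = D := Matrix.inv_eq_left_inv hD
  rw [Matrix.mul_inv_rev, Matrix.mul_inv_rev, h1, Matrix.mul_assoc]

private theorem CParB_comp (_he : e ≤ 1) (g : Fin m → K) :
    (AnWA.monicPoly (dbl e g)).comp (-X) =
      C ((-1) ^ (2 * m + e)) * AnWA.monicPoly (dbl e g) := by
  unfold AnWA.monicPoly
  rw [add_comp, pow_comp, X_comp, mul_add, neg_pow, Polynomial.sum_comp, Finset.mul_sum]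
  congr 1
  · rw [C_pow, C_neg, C_1]
  · refine Finset.sum_congr rfl fun i _ => ?_
    rw [mul_comp, C_comp, pow_comp, X_comp, neg_pow]
    by_cases hi : dbl e g i = 0
    · rw [hi, C_0, zero_mul, zero_mul, mul_zero]
    · have h1 : (i : ℕ) % 2 = e % 2 := by
        by_contra h2
        apply hi
        unfold dbl
        rw [dif_neg]
        intro h3
        exact h2 h3.1
      have h3 : ((-1 : K[X]) ^ (i : ℕ)) = (-1) ^ (2 * m + e) := by
        rw [neg_one_pow_eq_pow_mod_two, neg_one_pow_eq_pow_mod_two (n := 2 * m + e), h1]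
        congr 1
        omega
      rw [h3, C_pow, C_neg, C_1]
      ring

private theorem CParB_der1 (he : e ≤ 1) (g : Fin m → K) :
    (derivative (AnWA.monicPoly (dbl e g))).comp (-X) =
      C (-(-1) ^ (2 * m + e)) * derivative (AnWA.monicPoly (dbl e g)) := by
  have h := congrArg derivative (CParB_comp he g)
  rw [derivative_comp, derivative_neg, derivative_X, derivative_C_mul] at h
  rw [C_neg, neg_mul, ← h]
  ring

private theorem CParB_der2 (he : e ≤ 1) (g : Fin m → K) :
    (derivative (derivative (AnWA.monicPoly (dbl e g)))).comp (-X) =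
      C ((-1) ^ (2 * m + e)) * derivative (derivative (AnWA.monicPoly (dbl e g))) := by
  have h := congrArg derivative (CParB_der1 he g)
  rw [derivative_comp, derivative_neg, derivative_X, derivative_C_mul, C_neg] at h
  have h2 : (derivative (derivative (AnWA.monicPoly (dbl e g)))).comp (-X) =
      -(-1 * (derivative (derivative (AnWA.monicPoly (dbl e g)))).comp (-X)) := by ring
  rw [h2, h]
  ring

private theorem CParB_aeval_neg {n : ℕ} (A : Matrix (Fin n) (Fin n) K) (p : K[X]) :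
    aeval (-A) p = aeval A (p.comp (-X)) := by
  rw [aeval_comp, map_neg, aeval_X]

private theorem CParB_cmN [CharZero K] (he : e ≤ 1) (g : Fin m → K) :
    sgM K (2 * m + e) * cmN (dbl e g) * sgM K (2 * m + e) = - cmN (dbl e g) := by
  ext i j
  unfold sgM
  rw [mul_diagonal, diagonal_mul, Matrix.neg_apply]
  rcases Nat.even_or_odd ((i : ℕ) + j) with hij | hij
  · have h0 : cmN (dbl e g) i j = 0 := by
      unfold cmN
      rw [of_apply]
      have hij' := Nat.even_iff.mp hij
      have h1 : ¬ ((i : ℕ) + 1 = j) := by omega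
      rw [if_neg h1]
      by_cases h2 : (i : ℕ) < j
      · rw [if_pos h2]
        have h3 : Odd ((j : ℕ) - 1 - i) := by
          rw [Nat.odd_iff]
          omega
        rw [psum_dbl_odd he g h3, sub_zero]
      · rw [if_neg h2, sub_zero]
    rw [h0, mul_zero, zero_mul, neg_zero]
  · have : ((-1 : K) ^ (i : ℕ)) * (-1) ^ (j : ℕ) = -1 := by
      rw [← pow_add]
      exact hij.neg_one_pow
    calc (-1 : K) ^ (i : ℕ) * cmN (dbl e g) i j * (-1) ^ (j : ℕ)
        = ((-1 : K) ^ (i : ℕ) * (-1) ^ (j : ℕ)) * cmN (dbl e g) i j := by ring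
      _ = - cmN (dbl e g) i j := by rw [this]; ring

theorem sg_cmS [CharZero K] (he : e ≤ 1) (g : Fin m → K) :
    sgM K (2 * m + e) * cmS (dbl e g) * sgM K (2 * m + e) = - cmS (dbl e g) := by
  have hD := sgM_mul_self (K := K) (2 * m + e)
  unfold cmS
  rw [Matrix.mul_add, Matrix.add_mul, CParB_cmN he g, neg_add]
  congr 1
  rw [Matrix.mul_smul, Matrix.smul_mul, ← smul_neg]
  congr 1
  have h1 : sgM K (2 * m + e) * (aeval (cmp (dbl e g)) (derivative (derivative
      (AnWA.monicPoly (dbl e g)))) *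
      (aeval (cmp (dbl e g)) (derivative (AnWA.monicPoly (dbl e g))))⁻¹) * sgM K (2 * m + e) =
      (sgM K (2 * m + e) * aeval (cmp (dbl e g)) (derivative (derivative
      (AnWA.monicPoly (dbl e g)))) * sgM K (2 * m + e)) *
      (sgM K (2 * m + e) * (aeval (cmp (dbl e g)) (derivative (AnWA.monicPoly (dbl e g))))⁻¹ *
        sgM K (2 * m + e)) := by
    generalize aeval (cmp (dbl e g)) (derivative (derivative (AnWA.monicPoly (dbl e g)))) = A
    generalize (aeval (cmp (dbl e g)) (derivative (AnWA.monicPoly (dbl e g))))⁻¹ = B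
    calc sgM K (2 * m + e) * (A * B) * sgM K (2 * m + e)
        = sgM K (2 * m + e) * A * 1 * B * sgM K (2 * m + e) := by
          simp only [Matrix.mul_one, Matrix.mul_assoc]
      _ = sgM K (2 * m + e) * A * (sgM K (2 * m + e) * sgM K (2 * m + e)) * B *
          sgM K (2 * m + e) := by rw [hD]
      _ = _ := by simp only [Matrix.mul_assoc]
  rw [h1, CParB_conj_inv hD, CParB_conj_aeval hD, CParB_conj_aeval hD, sg_cmp he g,
    CParB_aeval_neg, CParB_aeval_neg, CParB_der1 he g, CParB_der2 he g, map_mul, map_mul,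
    aeval_C, aeval_C]
  rcases Nat.even_or_odd (2 * m + e) with hn | hn
  · rw [hn.neg_one_pow, map_one, map_neg, map_one, one_mul, neg_mul, one_mul, CParB_inv_neg,
      Matrix.mul_neg]
  · rw [hn.neg_one_pow, neg_neg, map_one, map_neg, map_one, one_mul, neg_mul, one_mul,
      Matrix.neg_mul]

private theorem CParB_sg_transpose : (sgM K (2 * m + e))ᵀ = sgM K (2 * m + e) := by
  unfold sgM
  exact diagonal_transpose _

/-- If `D (H A) D = - H A` then `H A D = - D H A`. -/
private theorem CParB_anti [CharZero K] (he : e ≤ 1) (g : Fin m → K)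
    {A : Matrix (Fin (2 * m + e)) (Fin (2 * m + e)) K}
    (hA : sgM K (2 * m + e) * A * sgM K (2 * m + e) = -A) :
    hk (dbl e g) * A * sgM K (2 * m + e) = -(sgM K (2 * m + e) * (hk (dbl e g) * A)) := by
  have hD := sgM_mul_self (K := K) (2 * m + e)
  have hH := sg_hk he g
  calc hk (dbl e g) * A * sgM K (2 * m + e)
      = (sgM K (2 * m + e) * sgM K (2 * m + e)) * (hk (dbl e g) * 1 * A) *
          sgM K (2 * m + e) := by rw [hD, Matrix.one_mul, Matrix.mul_one]
    _ = (sgM K (2 * m + e) * sgM K (2 * m + e)) *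
          (hk (dbl e g) * (sgM K (2 * m + e) * sgM K (2 * m + e)) * A) *
          sgM K (2 * m + e) := by rw [hD]
    _ = sgM K (2 * m + e) * ((sgM K (2 * m + e) * hk (dbl e g) * sgM K (2 * m + e)) *
          (sgM K (2 * m + e) * A * sgM K (2 * m + e))) := by simp only [Matrix.mul_assoc]
    _ = -(sgM K (2 * m + e) * (hk (dbl e g) * A)) := by
        rw [hH, hA, Matrix.mul_neg, Matrix.mul_neg]

theorem gam_cmp_antisymm [CharZero K] (he : e ≤ 1) (g : Fin m → K) :
    (gamM (dbl e g) * cmp (dbl e g))ᵀ = - (gamM (dbl e g) * cmp (dbl e g)) := by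
  have h1 := CParB_anti he g (sg_cmp he g)
  rw [gamM_eq, Matrix.mul_assoc, Matrix.transpose_mul, CParB_sg_transpose, ← h1, hk_mul_cmp,
    hk1_transpose]

theorem gam_cmS_symm [CharZero K] (he : e ≤ 1) (g : Fin m → K) (h : (hk (dbl e g)).det ≠ 0) :
    (gamM (dbl e g) * cmS (dbl e g))ᵀ = gamM (dbl e g) * cmS (dbl e g) := by
  have h1 := CParB_anti he g (sg_cmS he g)
  rw [gamM_eq, Matrix.mul_assoc, Matrix.transpose_mul, CParB_sg_transpose,
    hk_cmS_antisymm _ h, Matrix.neg_mul, h1, neg_neg]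

private theorem CParB_pow [CharZero K] (he : e ≤ 1) (g : Fin m → K) (k : ℕ) :
    (gamM (dbl e g) * cmp (dbl e g) ^ k)ᵀ =
      ((-1 : K) ^ k) • (gamM (dbl e g) * cmp (dbl e g) ^ k) := by
  have h1 : (cmp (dbl e g))ᵀ * gamM (dbl e g) = -(gamM (dbl e g) * cmp (dbl e g)) := by
    have h2 := gam_cmp_antisymm he g
    rwa [Matrix.transpose_mul, gamM_transpose he g] at h2
  rw [Matrix.transpose_mul, gamM_transpose he g, Matrix.transpose_pow]
  induction k with
  | zero => rw [pow_zero, pow_zero, pow_zero, Matrix.one_mul, Matrix.mul_one, one_smul]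
  | succ k ih =>
    rw [pow_succ, Matrix.mul_assoc, h1, Matrix.mul_neg, ← Matrix.mul_assoc, ih, Matrix.smul_mul,
      Matrix.mul_assoc, ← pow_succ, pow_succ (-1 : K), mul_neg_one, neg_smul]

private theorem CParB_gam_det {n : ℕ} (a : Fin n → K) (h : (hk a).det ≠ 0) :
    (gamM a).det ≠ 0 := by
  rw [gamM_eq, Matrix.det_mul]
  apply mul_ne_zero _ h
  intro h1
  have h2 := congrArg Matrix.det (sgM_mul_self (K := K) n)
  rw [Matrix.det_mul, h1, mul_zero, Matrix.det_one] at h2
  exact zero_ne_one h2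

theorem even_of_symm [CharZero K] (he : e ≤ 1) (g : Fin m → K) (h : (hk (dbl e g)).det ≠ 0)
    {M : Matrix (Fin (2 * m + e)) (Fin (2 * m + e)) K}
    (hM : M * cmp (dbl e g) = cmp (dbl e g) * M) (hs : (gamM (dbl e g) * M)ᵀ = gamM (dbl e g) * M) :
    ∃ y : Fin (m + e) → K, M = ∑ l, y l • cmp (dbl e g) ^ (2 * (l : ℕ)) := by
  obtain ⟨y, hy⟩ := commute_cmp (dbl e g) hM
  have h1 : gamM (dbl e g) * ∑ k : Fin (2 * m + e),
      (y k - (-1) ^ (k : ℕ) * y k) • cmp (dbl e g) ^ (k : ℕ) = 0 := by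
    have h2 : gamM (dbl e g) * ∑ k : Fin (2 * m + e),
        (y k - (-1) ^ (k : ℕ) * y k) • cmp (dbl e g) ^ (k : ℕ) =
        gamM (dbl e g) * M - (gamM (dbl e g) * M)ᵀ := by
      rw [hy, Matrix.mul_sum, Matrix.mul_sum, Matrix.transpose_sum, ← Finset.sum_sub_distrib]
      refine Finset.sum_congr rfl fun k _ => ?_
      rw [Matrix.mul_smul, Matrix.mul_smul, Matrix.transpose_smul, CParB_pow he g, smul_smul,
        ← sub_smul]
      congr 1
      ring
    rw [h2, hs, sub_self]
  have hu : IsUnit (gamM (dbl e g)).det := isUnit_iff_ne_zero.2 (CParB_gam_det _ h)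
  have h2 : ∑ k : Fin (2 * m + e),
      (y k - (-1) ^ (k : ℕ) * y k) • cmp (dbl e g) ^ (k : ℕ) = 0 := by
    have h3 := congrArg (fun A => (gamM (dbl e g))⁻¹ * A) h1
    simp only [← Matrix.mul_assoc, Matrix.nonsing_inv_mul _ hu, Matrix.one_mul,
      Matrix.mul_zero] at h3
    exact h3
  have h3 := pow_cmp_indep (dbl e g) h2
  have hodd : ∀ k : Fin (2 * m + e), Odd (k : ℕ) → y k = 0 := by
    intro k hk
    have h4 := congrFun h3 k
    simp only [hk.neg_one_pow, Pi.zero_apply] at h4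
    have h5 : (2 : K) * y k = 0 := by linear_combination h4
    exact (mul_eq_zero.1 h5).resolve_left two_ne_zero
  refine ⟨fun l => y ⟨2 * l, by have := l.2; omega⟩, ?_⟩
  rw [hy]
  symm
  apply Finset.sum_of_injOn (fun l : Fin (m + e) => (⟨2 * l, by have := l.2; omega⟩ :
    Fin (2 * m + e)))
  · intro a _ b _ hab
    have h5 := congrArg Fin.val hab
    apply Fin.ext
    simp only at h5
    omega
  · intro a _
    exact Finset.mem_coe.2 (Finset.mem_univ _)
  · intro k _ hk
    rcases Nat.even_or_odd (k : ℕ) with hk2 | hk2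
    · exfalso
      apply hk
      obtain ⟨l, hl⟩ := hk2
      have hkl := k.2
      refine ⟨⟨l, by omega⟩, Finset.mem_coe.2 (Finset.mem_univ _), ?_⟩
      apply Fin.ext
      show 2 * l = (k : ℕ)
      omega
    · rw [hodd k hk2, zero_smul]
  · intro l _
    rfl

theorem gam_even_symm [CharZero K] (he : e ≤ 1) (g : Fin m → K) (y : Fin (m + e) → K) :
    (gamM (dbl e g) * ∑ l, y l • cmp (dbl e g) ^ (2 * (l : ℕ)))ᵀ =
      gamM (dbl e g) * ∑ l, y l • cmp (dbl e g) ^ (2 * (l : ℕ)) := by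
  rw [Matrix.mul_sum, Matrix.transpose_sum]
  refine Finset.sum_congr rfl fun l _ => ?_
  rw [Matrix.mul_smul, Matrix.transpose_smul, CParB_pow he g, (even_two_mul _).neg_one_pow,
    one_smul]

end SpinWA
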