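import Pool.Agent.H.MP_83e36b_nt.sp.DRoot
import Pool.Agent.H.MP_ffe2f0_al.NComm

/-!
# The quadratic form of the second duality

PROOF. Check after the embedding of `K` in an algebraic closure (`hk_map`, `hk1_map`, `Wop_map`,
`Aop_map`, `Matrix.map_injective`), where root coordinates `x`, `y = cons 0 x` exist
(`exists_roots_cons`), `V = vandermonde y` invertible, `hk P = Vᵀ V` (`vand_hk`),
`Wop = V⁻¹ Wrt V` (`vand_Wop`). With `M = cm(y)`, `Mᵀ = - M` (`NoetherAn.cm_transpose`),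
`D = diag(y)`: `(-2) • (hk P * Wop) = Vᵀ (-2 Wrt) V = Vᵀ (8 M D M + ρ e_0 e_0ᵀ) V
= -8 (M V)ᵀ D (M V) + ρ Vᵀ e_0 e_0ᵀ V`. `e_0ᵀ V` = row 0 of `V` = `e_0ᵀ` (`y_0 = 0`), so the last term is
`ρ e_0 e_0ᵀ`. As `y_0 = 0`, `(M V)ᵀ D (M V) = Zᵀ diag(x) Z` where `Z` = rows `1..k` of
`M V = V cmS(P)` (`vand_cmS`), `Z = (rows 1..k of V) cmS(P) = vandermonde x * redM g * cmS P`
(`red_vand`). And `(vandermonde x)ᵀ diag(x) (vandermonde x) = hk g * cmp g = hk1 g` (`vand_cmp`,
`vand_hk`, `hk_mul_cmp`). So the first term is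
`-8 (redM g cmS P)ᵀ (hk1 g) (redM g cmS P) = (2 redM g cmS P)ᵀ ((-2) • hk1 g) (2 redM g cmS P)`.
This is the right hand side (multiply out the blocks: `Matrix.of (Sum.elim …)` is
`Matrix.fromRows`, `Matrix.fromBlocks` with zero off-diagonal blocks).
`hk_Wop_transpose`: the right hand side is symmetric.
-/

open Matrix Polynomial

namespace SpinWA

private theorem DForm_Aop {L : Type*} [Field L] {k : ℕ} (g : Fin k → L) :
    Aop g = fromRows ((2 : L) • (redM g * cmS (Fin.cons 0 g : Fin (k + 1) → L)))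
      (Matrix.of fun _ : Fin 1 => e0 L (k + 1)) := by
  ext i j
  rcases i with i | i
  · rfl
  · rfl

private theorem DForm_lhs {L : Type*} [Field L] {k : ℕ} (g : Fin k → L) (ρ : L) :
    (Aop g)ᵀ * fromBlocks ((-2 : L) • hk1 g) 0 0 (diagonal fun _ : Fin 1 => ρ) * Aop g =
      (-8 : L) • ((redM g * cmS (Fin.cons 0 g : Fin (k + 1) → L))ᵀ * hk1 g *
        (redM g * cmS (Fin.cons 0 g : Fin (k + 1) → L))) +
      ρ • vecMulVec (e0 L (k + 1)) (e0 L (k + 1)) := by
  rw [DForm_Aop, Matrix.transpose_fromRows, Matrix.fromCols_mul_fromBlocks,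
    Matrix.fromCols_mul_fromRows, Matrix.mul_zero, Matrix.mul_zero, add_zero, zero_add]
  congr 1
  · simp only [Matrix.transpose_smul, Matrix.smul_mul, Matrix.mul_smul, smul_smul]
    norm_num
  · ext i j
    rw [Matrix.mul_apply]
    simp only [Matrix.mul_diagonal, Matrix.transpose_apply, Matrix.of_apply, Finset.univ_unique,
      Finset.sum_singleton, Matrix.smul_apply, vecMulVec_apply, smul_eq_mul]
    ring

private theorem DForm_root {L : Type*} [Field L] [CharZero L] {k : ℕ} (g x : Fin k → L) (ρ : L)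
    (hx : Function.Injective (Fin.cons 0 x : Fin (k + 1) → L)) (hx' : Function.Injective x)
    (hg : AnWA.monicPoly g = ∏ i, (X - C (x i)))
    (hP : AnWA.monicPoly (Fin.cons 0 g : Fin (k + 1) → L) =
      ∏ i, (X - C ((Fin.cons 0 x : Fin (k + 1) → L) i))) :
    (Aop g)ᵀ * fromBlocks ((-2 : L) • hk1 g) 0 0 (diagonal fun _ : Fin 1 => ρ) * Aop g =
      (-2 : L) • (hk (Fin.cons 0 g : Fin (k + 1) → L) * Wop g ρ) := by
  rw [DForm_lhs]
  set P : Fin (k + 1) → L := Fin.cons 0 g with hPdef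
  set y : Fin (k + 1) → L := Fin.cons 0 x with hydef
  set V := vandermonde y with hV
  have h1 : hk1 g = (vandermonde x)ᵀ * diagonal x * vandermonde x := by
    rw [← hk_mul_cmp, ← vand_hk x g hx' hg, Matrix.mul_assoc, vand_cmp x g hg, Matrix.mul_assoc]
  have h2 : vandermonde x * (redM g * cmS P) = (NoetherAn.cm y * V).submatrix Fin.succ id := by
    rw [← Matrix.mul_assoc, red_vand g x hg, ← vand_cmS y P hx hP]
    ext i j
    rfl
  have h3 : (redM g * cmS P)ᵀ * hk1 g * (redM g * cmS P) =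
      (NoetherAn.cm y * V)ᵀ * diagonal y * (NoetherAn.cm y * V) := by
    have h4 : (redM g * cmS P)ᵀ * hk1 g * (redM g * cmS P) =
        (vandermonde x * (redM g * cmS P))ᵀ * diagonal x *
          (vandermonde x * (redM g * cmS P)) := by
      rw [h1, Matrix.transpose_mul (vandermonde x)]
      simp only [Matrix.mul_assoc]
    rw [h4, h2]
    ext i j
    rw [Matrix.mul_apply, Matrix.mul_apply, Fin.sum_univ_succ]
    simp only [Matrix.mul_diagonal, Matrix.transpose_apply, Matrix.submatrix_apply, id]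
    rw [hydef]
    simp only [Fin.cons_zero, Fin.cons_succ, mul_zero, zero_mul, zero_add]
  have h5 : e0 L (k + 1) ᵥ* V = e0 L (k + 1) := by
    ext j
    rw [Matrix.vecMul, dotProduct, Fin.sum_univ_succ]
    have h6 : ∀ i : Fin k, e0 L (k + 1) i.succ = 0 := by
      intro i
      unfold e0
      rw [if_neg (by simp)]
    have h7 : e0 L (k + 1) 0 = 1 := by
      unfold e0
      rw [if_pos (by simp)]
    simp only [h6, zero_mul, Finset.sum_const_zero, add_zero, h7, one_mul]
    rw [hV, vandermonde_apply, hydef, Fin.cons_zero]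
    unfold e0
    by_cases hj : (j : ℕ) = 0
    · rw [if_pos hj, hj, pow_zero]
    · rw [if_neg hj, zero_pow hj]
  have h8 : hk P * Wop g ρ = Vᵀ * Wrt x ρ * V := by
    rw [← vand_hk y P hx hP, Matrix.mul_assoc, vand_Wop g x ρ hx hg, Matrix.mul_assoc]
  have h9 : Vᵀ * (NoetherAn.cm y * diagonal y * NoetherAn.cm y) * V =
      - ((NoetherAn.cm y * V)ᵀ * diagonal y * (NoetherAn.cm y * V)) := by
    rw [Matrix.transpose_mul, NoetherAn.cm_transpose]
    simp only [Matrix.mul_assoc, Matrix.neg_mul, Matrix.mul_neg, neg_neg]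
  have h10 : Vᵀ * vecMulVec (e0 L (k + 1)) (e0 L (k + 1)) * V =
      vecMulVec (e0 L (k + 1)) (e0 L (k + 1)) := by
    rw [Matrix.mul_vecMulVec, Matrix.vecMulVec_mul, h5, Matrix.mulVec_transpose, h5]
  rw [h8]
  unfold Wrt
  rw [← hydef, Matrix.mul_sub, Matrix.sub_mul, Matrix.mul_smul, Matrix.smul_mul, Matrix.mul_smul,
    Matrix.smul_mul, h9, h10, h3]
  ext i j
  simp only [Matrix.add_apply, Matrix.smul_apply, Matrix.sub_apply, Matrix.neg_apply, smul_eq_mul]
  ring

variable {K : Type*} [Field K] [CharZero K] {k : ℕ}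

theorem Aop_form (g : Fin k → K) (ρ : K) (hd : (hk g).det ≠ 0) (h0 : cf g 0 ≠ 0) :
    (Aop g)ᵀ * fromBlocks ((-2 : K) • hk1 g) 0 0 (diagonal fun _ : Fin 1 => ρ) * Aop g =
      (-2 : K) • (hk (Fin.cons 0 g : Fin (k + 1) → K) * Wop g ρ) := by
  let φ : K →+* AlgebraicClosure K := algebraMap K (AlgebraicClosure K)
  have hφ : Function.Injective φ := φ.injective
  have : CharZero (AlgebraicClosure K) := charZero_of_injective_algebraMap hφ
  obtain ⟨x, hx, hx', _, hg, hP⟩ := exists_roots_cons φ g hd h0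
  have h1 := DForm_root (fun i => φ (g i)) x (φ ρ) hx hx' hg hP
  have hc : (fun i => φ ((Fin.cons 0 g : Fin (k + 1) → K) i))
      = (Fin.cons 0 (fun i => φ (g i)) : Fin (k + 1) → AlgebraicClosure K) := by
    funext i
    refine Fin.cases ?_ (fun i => ?_) i
    · simp
    · simp
  apply Matrix.map_injective hφ
  change (_ : Matrix _ _ K).map φ = (_ : Matrix _ _ K).map φ
  rw [Matrix.map_mul, Matrix.map_mul, Aop_map φ, Matrix.transpose_map, Aop_map φ,
    Matrix.fromBlocks_map, Matrix.map_smul' φ _ _ (map_mul φ),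
    Matrix.map_smul' φ _ _ (map_mul φ), hk1_map φ, Matrix.map_mul,
    hk_map φ, Wop_map φ, hc, Matrix.map_zero _ (map_zero φ), Matrix.map_zero _ (map_zero φ),
    Matrix.diagonal_map (map_zero φ), map_neg, map_ofNat]
  exact h1

theorem hk_Wop_transpose (g : Fin k → K) (ρ : K) (hd : (hk g).det ≠ 0) (h0 : cf g 0 ≠ 0) :
    (hk (Fin.cons 0 g : Fin (k + 1) → K) * Wop g ρ)ᵀ =
      hk (Fin.cons 0 g : Fin (k + 1) → K) * Wop g ρ := by
  have h1 := Aop_form g ρ hd h0
  rw [DForm_lhs] at h1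
  have h2 := congrArg Matrix.transpose h1
  rw [Matrix.transpose_smul] at h2
  have h3 : ((-8 : K) • ((redM g * cmS (Fin.cons 0 g : Fin (k + 1) → K))ᵀ * hk1 g *
        (redM g * cmS (Fin.cons 0 g : Fin (k + 1) → K))) +
      ρ • vecMulVec (e0 K (k + 1)) (e0 K (k + 1)))ᵀ =
      (-8 : K) • ((redM g * cmS (Fin.cons 0 g : Fin (k + 1) → K))ᵀ * hk1 g *
        (redM g * cmS (Fin.cons 0 g : Fin (k + 1) → K))) +
      ρ • vecMulVec (e0 K (k + 1)) (e0 K (k + 1)) := by
    generalize redM g * cmS (Fin.cons 0 g : Fin (k + 1) → K) = Z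
    rw [Matrix.transpose_add, Matrix.transpose_smul, Matrix.transpose_smul,
      Matrix.transpose_mul, Matrix.transpose_mul, Matrix.transpose_transpose, hk1_transpose,
      Matrix.transpose_vecMulVec, Matrix.mul_assoc Zᵀ]
  rw [h3, h1] at h2
  have h4 : (-2 : K) ≠ 0 := neg_ne_zero.mpr two_ne_zero
  exact (smul_right_injective _ h4 h2).symm

end SpinWA
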