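import Pool.Agent.H.MP_83e36b_nt.sp.DRed
import Pool.Agent.H.MP_83e36b_nt.sp.CRootS

/-!
# The second duality in root coordinates

Notation: `g : Fin k → K`, `P = Fin.cons 0 g` (the polynomial `X g(X)`), `x : Fin k → K` the roots of
`g`, `y = Fin.cons 0 x : Fin (k+1) → K`, `V = vandermonde y`, `E = Matrix.single 0 0 1`.

PROOF. `monicPoly_cons`: `X^(k+1) + ∑ P_i X^i = X (X^k + ∑ g_i X^i)` (`Fin.sum_univ_succ`).
`exists_roots_cons`: `exists_roots` for `g`: `x` injective, `x_i ≠ 0` since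
`cf g 0 = ± ∏ x_i ≠ 0` (if some `x_i = 0` then the constant coefficient of `∏ (X - x_i)` is 0; for
`k = 0` nothing to prove), so `y` is injective; the product formula for `P` follows from
`monicPoly_cons` and `Fin.prod_univ_succ`.
`vand_Wop`: `V cmS(P) = cm(y) V` (`vand_cmS`), `V cmp(P) = diag(y) V` (`vand_cmp`). The vector
`κ_i = cf g i / cf g 0` satisfies `∑_i κ_i y_j^i = g(y_j)/g(0)`, which is `1` for `j = 0` (`y_0 = 0`)
and `0` for the others: `V κ = δ_0`; and `e_0ᵀ = ` the row 0 of `V` (`y_0^j = 0^j`). So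
`V (κ e_0ᵀ) = δ_0 e_0ᵀ = E V`.
`red_vand`: `vandermonde x * redM g` = the rows `1, …, k` of `V`: column `j < k`: `x_i^j`; column `k`:
`- ∑_l g_l x_i^l = x_i^k`.
-/

open Matrix Polynomial

namespace SpinWA

variable {K : Type*} [Field K] {k : ℕ}

theorem monicPoly_cons (g : Fin k → K) :
    AnWA.monicPoly (Fin.cons 0 g : Fin (k + 1) → K) = X * AnWA.monicPoly g := by
  unfold AnWA.monicPoly
  rw [Fin.sum_univ_succ, Fin.cons_zero, map_zero, zero_mul, zero_add, mul_add, Finset.mul_sum,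
    pow_succ']
  congr 1
  refine Finset.sum_congr rfl fun i _ => ?_
  rw [Fin.cons_succ, Fin.val_succ, pow_succ']
  ring

theorem DRoot_eval (g : Fin k → K) (z : K) :
    (AnWA.monicPoly g).eval z = ∑ i : Fin (k + 1), z ^ (i : ℕ) * cf g i := by
  unfold AnWA.monicPoly
  rw [Fin.sum_univ_castSucc, eval_add, eval_pow, eval_X, eval_finsetSum, add_comm]
  congr 1
  · refine Finset.sum_congr rfl fun i _ => ?_
    rw [eval_mul, eval_C, eval_pow, eval_X, Fin.val_castSucc]
    unfold cf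
    rw [dif_pos i.isLt]
    ring
  · unfold cf
    rw [Fin.val_last, dif_neg (lt_irrefl k), if_pos rfl, mul_one]

theorem DRoot_eval_zero (g : Fin k → K) : (AnWA.monicPoly g).eval 0 = cf g 0 := by
  rw [DRoot_eval, Fin.sum_univ_succ, Finset.sum_eq_zero]
  · simp
  · intro i _
    rw [Fin.val_succ, zero_pow (Nat.succ_ne_zero _), zero_mul]

theorem DRoot_cf (g x : Fin k → K) (hg : AnWA.monicPoly g = ∏ i, (X - C (x i))) :
    cf g 0 = ∏ i, (- x i) := by
  rw [← DRoot_eval_zero, hg, eval_prod]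
  refine Finset.prod_congr rfl fun i _ => ?_
  simp

theorem DRoot_prod (g x : Fin k → K) (hg : AnWA.monicPoly g = ∏ i, (X - C (x i))) :
    AnWA.monicPoly (Fin.cons 0 g : Fin (k + 1) → K) =
      ∏ i, (X - C ((Fin.cons 0 x : Fin (k + 1) → K) i)) := by
  rw [monicPoly_cons, hg, Fin.prod_univ_succ, Fin.cons_zero, map_zero, sub_zero]
  congr 1

theorem exists_roots_cons {L : Type*} [Field L] [IsAlgClosed L] (φ : K →+* L)
    (g : Fin k → K) (h : (hk g).det ≠ 0) (h0 : cf g 0 ≠ 0) :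
    ∃ x : Fin k → L, Function.Injective (Fin.cons 0 x : Fin (k + 1) → L) ∧
      Function.Injective x ∧ (∀ i, x i ≠ 0) ∧
      AnWA.monicPoly (fun i => φ (g i)) = ∏ i, (X - C (x i)) ∧
      AnWA.monicPoly (Fin.cons 0 (fun i => φ (g i)) : Fin (k + 1) → L) =
        ∏ i, (X - C ((Fin.cons 0 x : Fin (k + 1) → L) i)) := by
  obtain ⟨x, hx, hf⟩ := exists_roots φ g h
  have h1 : cf (fun i => φ (g i)) 0 ≠ 0 := by
    rw [← cf_map]
    exact (map_ne_zero φ).2 h0
  have hne : ∀ i, x i ≠ 0 := by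
    intro i hi
    apply h1
    rw [DRoot_cf _ _ hf]
    exact Finset.prod_eq_zero (Finset.mem_univ i) (by rw [hi, neg_zero])
  refine ⟨x, ?_, hx, hne, hf, DRoot_prod _ _ hf⟩
  rw [Fin.cons_injective_iff]
  refine ⟨?_, hx⟩
  rintro ⟨i, hi⟩
  exact hne i hi

/-- The operator `Wop` in root coordinates. -/
noncomputable def Wrt (x : Fin k → K) (ρ : K) : Matrix (Fin (k + 1)) (Fin (k + 1)) K :=
  (-4 : K) • (NoetherAn.cm (Fin.cons 0 x : Fin (k + 1) → K) *
    diagonal (Fin.cons 0 x : Fin (k + 1) → K) * NoetherAn.cm (Fin.cons 0 x : Fin (k + 1) → K)) -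
    (ρ / 2) • vecMulVec (e0 K (k + 1)) (e0 K (k + 1))

theorem vand_Wop [CharZero K] (g x : Fin k → K) (ρ : K)
    (hx : Function.Injective (Fin.cons 0 x : Fin (k + 1) → K))
    (hg : AnWA.monicPoly g = ∏ i, (X - C (x i))) :
    vandermonde (Fin.cons 0 x : Fin (k + 1) → K) * Wop g ρ =
      Wrt x ρ * vandermonde (Fin.cons 0 x : Fin (k + 1) → K) := by
  have hP := DRoot_prod g x hg
  have hne : ∀ i, x i ≠ 0 := by
    rw [Fin.cons_injective_iff] at hx
    intro i hi
    exact hx.1 ⟨i, hi⟩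
  have hc : cf g 0 ≠ 0 := by
    rw [DRoot_cf g x hg]
    exact Finset.prod_ne_zero_iff.2 fun i _ => neg_ne_zero.2 (hne i)
  have hS := vand_cmS _ _ hx hP
  have hC := vand_cmp _ _ hP
  have hk1 : vandermonde (Fin.cons 0 x : Fin (k + 1) → K) *ᵥ
      (fun i : Fin (k + 1) => cf g i / cf g 0) = e0 K (k + 1) := by
    ext j
    have h1 : (vandermonde (Fin.cons 0 x : Fin (k + 1) → K) *ᵥ
        (fun i : Fin (k + 1) => cf g i / cf g 0)) j =
        (AnWA.monicPoly g).eval ((Fin.cons 0 x : Fin (k + 1) → K) j) / cf g 0 := by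
      rw [DRoot_eval, Finset.sum_div]
      unfold Matrix.mulVec dotProduct
      refine Finset.sum_congr rfl fun i _ => ?_
      beta_reduce
      rw [vandermonde_apply, mul_div_assoc]
    rw [h1]
    refine Fin.cases ?_ (fun j => ?_) j
    · rw [Fin.cons_zero, DRoot_eval_zero, div_self hc]
      simp [e0]
    · rw [Fin.cons_succ, hg, eval_prod, Finset.prod_eq_zero (Finset.mem_univ j) (by simp),
        zero_div]
      simp [e0]
  have hk2 : e0 K (k + 1) ᵥ* vandermonde (Fin.cons 0 x : Fin (k + 1) → K) = e0 K (k + 1) := by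
    ext j
    unfold Matrix.vecMul dotProduct
    rw [Finset.sum_eq_single (0 : Fin (k + 1))]
    · beta_reduce
      rw [vandermonde_apply, Fin.cons_zero]
      unfold e0
      rw [if_pos (Fin.val_zero _), one_mul]
      by_cases h : (j : ℕ) = 0
      · rw [if_pos h, h, pow_zero]
      · rw [if_neg h, zero_pow h]
    · intro b _ hb
      have hb0 : ¬ (b : ℕ) = 0 := fun h => hb (Fin.ext h)
      unfold e0
      rw [if_neg hb0, zero_mul]
    · intro h
      exact absurd (Finset.mem_univ _) h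
  unfold Wop Wrt
  rw [Matrix.mul_sub, Matrix.sub_mul, Matrix.mul_smul, Matrix.mul_smul, Matrix.smul_mul,
    Matrix.smul_mul, Matrix.mul_vecMulVec, Matrix.vecMulVec_mul, hk1, hk2]
  congr 2
  rw [← Matrix.mul_assoc, ← Matrix.mul_assoc, hS, Matrix.mul_assoc (NoetherAn.cm _), hC,
    ← Matrix.mul_assoc, Matrix.mul_assoc _ _ (cmS _), hS, ← Matrix.mul_assoc]

theorem red_vand (g x : Fin k → K) (hg : AnWA.monicPoly g = ∏ i, (X - C (x i))) :
    vandermonde x * redM g =
      (vandermonde (Fin.cons 0 x : Fin (k + 1) → K)).submatrix Fin.succ id := by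
  ext i j
  rw [Matrix.submatrix_apply, vandermonde_apply, Fin.cons_succ, id, Matrix.mul_apply]
  have hjle : (j : ℕ) ≤ k := Nat.lt_succ_iff.mp j.isLt
  rcases Nat.lt_or_ge (j : ℕ) k with hj | hj
  · rw [Finset.sum_eq_single (⟨j, hj⟩ : Fin k)]
    · unfold redM
      rw [Matrix.of_apply, if_neg (Nat.ne_of_lt hj), if_pos rfl, mul_one, vandermonde_apply]
    · intro b _ hb
      unfold redM
      rw [Matrix.of_apply, if_neg (Nat.ne_of_lt hj), if_neg (fun h => hb (Fin.ext h)), mul_zero]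
    · intro h
      exact absurd (Finset.mem_univ _) h
  · have hjk : (j : ℕ) = k := le_antisymm hjle hj
    rw [hjk, croot_eval x g hg i, ← Finset.sum_neg_distrib]
    refine Finset.sum_congr rfl fun l _ => ?_
    unfold redM
    rw [Matrix.of_apply, if_pos hjk, vandermonde_apply]
    ring

end SpinWA
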