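import Pool.Agent.H.MP_83e36b_nt.sp.DRoot
import Pool.Agent.H.MP_ffe2f0_al.NComm

/-!
# Uniqueness in the second duality

PROOF. Let `P = Fin.cons 0 g`, `H = hk P`. Embed `K` in an algebraic closure `L`; root coordinates
`x`, `y = cons 0 x`, `V = vandermonde y` (`exists_roots_cons`), `H = Vᵀ V`. Let `Σ = V S V⁻¹`,
`𝒲 = V W V⁻¹`. `Σᵀ = - Σ` (as `Vᵀ Σ V = H S`), `𝒲ᵀ = 𝒲`, `-4 Σ 𝒲 Σ = diag(y)`,
`𝒲 Σ - Σ 𝒲 = J - 1`, `J` the all-one matrix (`V e_0 = 1`, `(psum P ·) V⁻¹ = e_0ᵀ Vᵀ V V⁻¹ = 1ᵀ`).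
`Σ` is antisymmetric of odd size `k + 1`: `det Σ = 0`; take `z ≠ 0` with `Σ z = 0`. Then
`diag(y) z = 0`, so `z` is a multiple of the unit vector `δ_0` (`y_i ≠ 0` for `i ≥ 1`), hence
`Σ δ_0 = 0`: the column 0 of `Σ` is zero, and so is the row 0. Let `Σ1`, `𝒲1` be the blocks of the
indices `≥ 1` and `β_j = 𝒲_{0,j}` (`j ≥ 1`). From the block of `-4 Σ 𝒲 Σ = diag(y)`:
`-4 Σ1 𝒲1 Σ1 = diag(x)`, so `Σ1` is invertible; let `Y = Σ1⁻¹` (antisymmetric):
`𝒲1 = -(1/4) Y diag(x) Y`. The block of the commutator: `𝒲1 Σ1 - Σ1 𝒲1 = J - 1`, i.e.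
`-(1/4) (Y diag(x) - diag(x) Y) = J - 1`: `(x_i - x_j) Y_{ij} = 4` for `i ≠ j` and `Y_{ii} = 0`:
`Y = 4 cm(x)`. So `cm(x)` is invertible and `det (cmS g) = det (cm x) ≠ 0`
(`vand_cmS` for `g`, `x`; `cmS_map`, `RingHom.map_det`). And `𝒲1 = -4 cm(x) diag(x) cm(x)`. The entry
`(0, j)` of the commutator, `j ≥ 1`: `(β Σ1)_j = 1`, so `β = 1ᵀ Y = 4 1ᵀ cm(x)`. On the other side
`-4 cm(y) diag(y) cm(y)` has the block `-4 cm(x) diag(x) cm(x)` and the row 0
`-4 ∑_l (-1/x_l) x_l cm(x)_{lj} = 4 (1ᵀ cm(x))_j`, and it is symmetric. So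
`𝒲 + 4 cm(y) diag(y) cm(y) = α E`, `E = e_0 e_0ᵀ`, `α ∈ L`, i.e. `𝒲 = Wrt x (-2 α)` and (with
`vand_Wop` over `L`) `W = Wop g (-2 α)` over `L`. Since `Wop g ρ = -4 S_P C_P S_P - (ρ/2) κ e_0ᵀ` with
`κ_0 = cf g 0 / cf g 0 = 1`, `α` is the entry `(0,0)` of `W + 4 S_P C_P S_P`, an element of `K`.
Take `ρ = -2 (W + 4 S_P C_P S_P) 0 0 ∈ K`.
-/

open Matrix Polynomial

namespace SpinWA

variable {K : Type*} [Field K] [CharZero K] {k : ℕ}

/-- The uniqueness in root coordinates. -/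
private theorem DUniq_core {L : Type*} [Field L] [CharZero L] (hk2 : Even k) (x : Fin k → L)
    (hx0 : ∀ i, x i ≠ 0) (hx : Function.Injective x)
    (S W : Matrix (Fin (k + 1)) (Fin (k + 1)) L) (hS : Sᵀ = - S) (hW : Wᵀ = W)
    (hN : (-4 : L) • (S * W * S) = diagonal (Fin.cons 0 x : Fin (k + 1) → L))
    (hc : W * S - S * W = Matrix.of (fun _ _ => (1 : L)) - 1) :
    (NoetherAn.cm x).det ≠ 0 ∧ ∃ ρ : L, W = Wrt x ρ := by
  have hdet : S.det = 0 := by
    have h1 := Matrix.det_transpose S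
    have ho : Odd (k + 1) := hk2.add_one
    rw [hS, Matrix.det_neg, Fintype.card_fin, ho.neg_one_pow, neg_one_mul] at h1
    exact self_eq_neg.mp h1.symm
  obtain ⟨z, hz, hSz⟩ := Matrix.exists_mulVec_eq_zero_iff.2 hdet
  have hDz : diagonal (Fin.cons 0 x : Fin (k + 1) → L) *ᵥ z = 0 := by
    rw [← hN, Matrix.smul_mulVec, ← Matrix.mulVec_mulVec, hSz, Matrix.mulVec_zero, smul_zero]
  have hzi : ∀ i : Fin k, z i.succ = 0 := by
    intro i
    have h1 := congrFun hDz i.succ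
    rw [Matrix.mulVec_diagonal, Fin.cons_succ] at h1
    exact (mul_eq_zero.1 h1).resolve_left (hx0 i)
  have hz0 : z 0 ≠ 0 := by
    intro h
    apply hz
    funext i
    exact Fin.cases h hzi i
  have hcol : ∀ i, S i 0 = 0 := by
    intro i
    have h1 := congrFun hSz i
    rw [Matrix.mulVec, dotProduct, Fin.sum_univ_succ] at h1
    rw [Finset.sum_eq_zero (fun j _ => by rw [hzi j, mul_zero]), add_zero] at h1
    exact (mul_eq_zero.1 h1).resolve_right hz0
  have hrow : ∀ j, S 0 j = 0 := by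
    intro j
    have h1 := congrFun (congrFun hS j) 0
    rw [Matrix.transpose_apply, Matrix.neg_apply, hcol, neg_zero] at h1
    exact h1
  obtain ⟨S1, hS1⟩ : ∃ S1 : Matrix (Fin k) (Fin k) L, S1 = S.submatrix Fin.succ Fin.succ :=
    ⟨_, rfl⟩
  obtain ⟨W1, hW1⟩ : ∃ W1 : Matrix (Fin k) (Fin k) L, W1 = W.submatrix Fin.succ Fin.succ :=
    ⟨_, rfl⟩
  have s1 : ∀ i j, S1 i j = S i.succ j.succ := fun i j => by rw [hS1]; rfl
  have w1 : ∀ i j, W1 i j = W i.succ j.succ := fun i j => by rw [hW1]; rfl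
  have e1 : ∀ i b : Fin k, (S * W) i.succ b.succ = (S1 * W1) i b := by
    intro i b
    rw [Matrix.mul_apply, Fin.sum_univ_succ, hcol, zero_mul, zero_add, Matrix.mul_apply]
    exact Finset.sum_congr rfl fun a _ => by rw [s1, w1]
  have e2 : ∀ i j : Fin k, (S * W * S) i.succ j.succ = (S1 * W1 * S1) i j := by
    intro i j
    rw [Matrix.mul_apply, Fin.sum_univ_succ, hrow, mul_zero, zero_add, Matrix.mul_apply]
    exact Finset.sum_congr rfl fun a _ => by rw [s1, e1]
  have e3 : ∀ i j : Fin k, (W * S) i.succ j.succ = (W1 * S1) i j := by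
    intro i j
    rw [Matrix.mul_apply, Fin.sum_univ_succ, hrow, mul_zero, zero_add, Matrix.mul_apply]
    exact Finset.sum_congr rfl fun a _ => by rw [s1, w1]
  have hN1 : (-4 : L) • (S1 * W1 * S1) = diagonal x := by
    ext i j
    have h1 := congrFun (congrFun hN i.succ) j.succ
    rw [Matrix.smul_apply, e2] at h1
    rw [Matrix.smul_apply, h1]
    by_cases hij : i = j
    · subst hij
      rw [Matrix.diagonal_apply_eq, Matrix.diagonal_apply_eq, Fin.cons_succ]
    · rw [Matrix.diagonal_apply_ne _ hij,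
        Matrix.diagonal_apply_ne _ (fun h => hij (Fin.succ_injective _ h))]
  have hc1 : W1 * S1 - S1 * W1 = Matrix.of (fun _ _ => (1 : L)) - 1 := by
    ext i j
    have h1 := congrFun (congrFun hc i.succ) j.succ
    rw [Matrix.sub_apply, e1, e3, Matrix.sub_apply, Matrix.of_apply] at h1
    rw [Matrix.sub_apply, h1, Matrix.sub_apply, Matrix.of_apply]
    congr 1
    by_cases hij : i = j
    · subst hij
      rw [Matrix.one_apply_eq, Matrix.one_apply_eq]
    · rw [Matrix.one_apply_ne hij,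
        Matrix.one_apply_ne (fun h => hij (Fin.succ_injective _ h))]
  have hβ : ∀ j : Fin k, ∑ a : Fin k, W 0 a.succ * S1 a j = 1 := by
    intro j
    have h1 := congrFun (congrFun hc 0) j.succ
    have hz2 : (S * W) 0 j.succ = 0 := by
      rw [Matrix.mul_apply]
      exact Finset.sum_eq_zero (fun a _ => by rw [hrow, zero_mul])
    have hz3 : (W * S) 0 j.succ = ∑ a : Fin k, W 0 a.succ * S1 a j := by
      rw [Matrix.mul_apply, Fin.sum_univ_succ, hrow, mul_zero, zero_add]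
      exact Finset.sum_congr rfl fun a _ => by rw [s1]
    rw [Matrix.sub_apply, hz2, hz3, sub_zero,
      Matrix.sub_apply, Matrix.of_apply, Matrix.one_apply_ne (Fin.succ_ne_zero j).symm,
      sub_zero] at h1
    exact h1
  have hS1u : IsUnit S1.det := by
    rw [isUnit_iff_ne_zero]
    intro h
    have h1 := congrArg Matrix.det hN1
    rw [Matrix.det_smul, Matrix.det_mul, h, mul_zero, mul_zero, Matrix.det_diagonal] at h1
    exact (Finset.prod_ne_zero_iff.2 fun i _ => hx0 i) h1.symm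
  have hS1T : S1ᵀ = - S1 := by
    ext i j
    have h1 := congrFun (congrFun hS i.succ) j.succ
    rw [Matrix.transpose_apply, Matrix.neg_apply] at h1
    rw [Matrix.transpose_apply, Matrix.neg_apply, s1 j i, s1 i j]
    exact h1
  obtain ⟨Y, hY⟩ : ∃ Y : Matrix (Fin k) (Fin k) L, Y = S1⁻¹ := ⟨_, rfl⟩
  have hYS : Y * S1 = 1 := by rw [hY]; exact Matrix.nonsing_inv_mul _ hS1u
  have hSY : S1 * Y = 1 := by rw [hY]; exact Matrix.mul_nonsing_inv _ hS1u
  have hYT : Yᵀ = - Y := by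
    have h1 := congrArg Matrix.transpose hSY
    rw [Matrix.transpose_mul, hS1T, Matrix.transpose_one, Matrix.mul_neg] at h1
    have h2 := congrArg (fun M => M * Y) h1
    simp only [Matrix.neg_mul, Matrix.mul_assoc, hSY, Matrix.mul_one, Matrix.one_mul] at h2
    exact neg_eq_iff_eq_neg.1 h2
  have hcomm : diagonal x * Y - Y * diagonal x =
      (4 : L) • (Matrix.of (fun _ _ => (1 : L)) - 1) := by
    have h1 : diagonal x * Y = (-4 : L) • (S1 * W1) := by
      rw [← hN1, Matrix.smul_mul, Matrix.mul_assoc (S1 * W1), hSY, Matrix.mul_one]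
    have h2 : Y * diagonal x = (-4 : L) • (W1 * S1) := by
      rw [← hN1, Matrix.mul_smul, Matrix.mul_assoc S1, ← Matrix.mul_assoc Y, hYS, Matrix.one_mul]
    rw [h1, h2, ← hc1, ← smul_sub, ← neg_sub (W1 * S1), smul_neg, ← neg_smul, neg_neg]
  have hYcm : Y = (4 : L) • NoetherAn.cm x := by
    ext i j
    rw [Matrix.smul_apply, NoetherAn.cm, Matrix.of_apply, smul_eq_mul]
    by_cases hij : i = j
    · subst hij
      have h1 := congrFun (congrFun hYT i) i
      rw [Matrix.transpose_apply, Matrix.neg_apply] at h1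
      rw [self_eq_neg.mp h1, sub_self, _root_.inv_zero, mul_zero]
    · have h1 := congrFun (congrFun hcomm i) j
      rw [Matrix.sub_apply, Matrix.diagonal_mul, Matrix.mul_diagonal, Matrix.smul_apply,
        Matrix.sub_apply, Matrix.of_apply, Matrix.one_apply_ne hij, sub_zero, smul_eq_mul,
        mul_one] at h1
      have h2 : x i - x j ≠ 0 := sub_ne_zero.2 fun h => hij (hx h)
      rw [← div_eq_mul_inv, eq_div_iff h2, ← h1]
      ring
  have hcmdet : (NoetherAn.cm x).det ≠ 0 := by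
    intro h
    have h1 := congrArg Matrix.det hYS
    rw [hYcm, Matrix.det_mul, Matrix.det_smul, h, mul_zero, zero_mul, Matrix.det_one] at h1
    exact zero_ne_one h1
  refine ⟨hcmdet, ?_⟩
  have hW1' : W1 = (-4 : L) • (NoetherAn.cm x * diagonal x * NoetherAn.cm x) := by
    have h1 : Y * diagonal x * Y = (-4 : L) • W1 := by
      rw [← hN1, Matrix.mul_smul, Matrix.smul_mul, Matrix.mul_assoc S1, ← Matrix.mul_assoc Y, hYS,
        Matrix.one_mul, Matrix.mul_assoc, hSY, Matrix.mul_one]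
    have h2 : Y * diagonal x * Y =
        (16 : L) • (NoetherAn.cm x * diagonal x * NoetherAn.cm x) := by
      rw [hYcm, Matrix.smul_mul, Matrix.smul_mul, Matrix.mul_smul, smul_smul]
      norm_num
    have h3 : W1 = (-4 : L)⁻¹ • ((-4 : L) • W1) := by
      rw [smul_smul, inv_mul_cancel₀ (by norm_num), one_smul]
    rw [h3, ← h1, h2, smul_smul]
    congr 1
    norm_num
  have hβ' : ∀ j : Fin k, W 0 j.succ = 4 * ∑ a, NoetherAn.cm x a j := by
    intro j
    have h1 : W 0 j.succ = ∑ b : Fin k, (∑ a : Fin k, W 0 a.succ * S1 a b) * Y b j := by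
      have h2 : ∀ a : Fin k, ∑ b : Fin k, W 0 a.succ * S1 a b * Y b j =
          W 0 a.succ * (1 : Matrix (Fin k) (Fin k) L) a j := by
        intro a
        rw [← hSY, Matrix.mul_apply, Finset.mul_sum]
        exact Finset.sum_congr rfl fun b _ => by ring
      simp only [Finset.sum_mul]
      rw [Finset.sum_comm, Finset.sum_congr rfl fun a _ => h2 a,
        Finset.sum_eq_single j (fun a _ ha => by rw [Matrix.one_apply_ne ha, mul_zero])
          (fun h => absurd (Finset.mem_univ _) h), Matrix.one_apply_eq, mul_one]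
    rw [h1, Finset.mul_sum]
    refine Finset.sum_congr rfl fun b _ => ?_
    rw [hβ b, one_mul, hYcm, Matrix.smul_apply, smul_eq_mul]
  obtain ⟨M, hM⟩ : ∃ M : Matrix (Fin (k + 1)) (Fin (k + 1)) L,
      M = (-4 : L) • (NoetherAn.cm (Fin.cons 0 x : Fin (k + 1) → L) *
        diagonal (Fin.cons 0 x : Fin (k + 1) → L) *
        NoetherAn.cm (Fin.cons 0 x : Fin (k + 1) → L)) := ⟨_, rfl⟩
  have hcmss : ∀ i j : Fin k, NoetherAn.cm (Fin.cons 0 x : Fin (k + 1) → L) i.succ j.succ =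
      NoetherAn.cm x i j := by
    intro i j
    simp only [NoetherAn.cm, Matrix.of_apply, Fin.cons_succ]
  have hM1 : ∀ i j : Fin k, M i.succ j.succ = W i.succ j.succ := by
    intro i j
    rw [← w1, hW1', hM, Matrix.smul_apply, Matrix.smul_apply, Matrix.mul_apply, Matrix.mul_apply,
      Fin.sum_univ_succ, Matrix.mul_diagonal, Fin.cons_zero, mul_zero, zero_mul, zero_add]
    congr 1
    refine Finset.sum_congr rfl fun a _ => ?_
    rw [Matrix.mul_diagonal, Matrix.mul_diagonal, Fin.cons_succ, hcmss, hcmss]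
  have hM0 : ∀ j : Fin k, M 0 j.succ = W 0 j.succ := by
    intro j
    rw [hβ', hM, Matrix.smul_apply, Matrix.mul_apply, Fin.sum_univ_succ, Matrix.mul_diagonal,
      Fin.cons_zero, mul_zero, zero_mul, zero_add, smul_eq_mul]
    have h1 : ∀ a : Fin k, (NoetherAn.cm (Fin.cons 0 x : Fin (k + 1) → L) *
        diagonal (Fin.cons 0 x : Fin (k + 1) → L)) 0 a.succ *
        NoetherAn.cm (Fin.cons 0 x : Fin (k + 1) → L) a.succ j.succ = - NoetherAn.cm x a j := by
      intro a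
      rw [Matrix.mul_diagonal, hcmss, Fin.cons_succ]
      have h2 : NoetherAn.cm (Fin.cons 0 x : Fin (k + 1) → L) 0 a.succ = (0 - x a)⁻¹ := by
        simp only [NoetherAn.cm, Matrix.of_apply, Fin.cons_succ, Fin.cons_zero]
      rw [h2, zero_sub, inv_neg, neg_mul, inv_mul_cancel₀ (hx0 a), neg_one_mul]
    rw [Finset.sum_congr rfl fun a _ => h1 a, Finset.sum_neg_distrib]
    ring
  have hMT : Mᵀ = M := by
    rw [hM, Matrix.transpose_smul, Matrix.transpose_mul, Matrix.transpose_mul,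
      NoetherAn.cm_transpose, Matrix.diagonal_transpose, Matrix.neg_mul, Matrix.mul_neg,
      Matrix.mul_neg, neg_neg, Matrix.mul_assoc]
  have hsym : ∀ N : Matrix (Fin (k + 1)) (Fin (k + 1)) L, Nᵀ = N → ∀ i j, N i j = N j i := by
    intro N hN i j
    have h1 := congrFun (congrFun hN j) i
    rwa [Matrix.transpose_apply] at h1
  refine ⟨-2 * (W 0 0 - M 0 0), ?_⟩
  unfold Wrt
  rw [← hM]
  ext i j
  rw [Matrix.sub_apply, Matrix.smul_apply, Matrix.vecMulVec_apply, smul_eq_mul]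
  refine Fin.cases ?_ (fun i => ?_) i
  · refine Fin.cases ?_ (fun j => ?_) j
    · simp [e0]
      ring
    · rw [hM0]
      simp [e0]
  · refine Fin.cases ?_ (fun j => ?_) j
    · rw [hsym W hW, hsym M hMT, hM0]
      simp [e0]
    · rw [hM1]
      simp [e0]

/-- The first row of `hk g`. -/
private theorem DUniq_e0_hk {R : Type*} [CommRing R] {n : ℕ} (a : Fin n → R) :
    e0 R n ᵥ* hk a = fun j : Fin n => psum a (j : ℕ) := by
  funext j
  have hn : 0 < n := lt_of_le_of_lt (Nat.zero_le _) j.isLt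
  rw [Matrix.vecMul, dotProduct, Finset.sum_eq_single (⟨0, hn⟩ : Fin n)]
  · simp [e0, hk]
  · intro i _ hi
    have hi0 : (i : ℕ) ≠ 0 := fun h => hi (Fin.ext h)
    simp [e0, hi0]
  · intro hh
    exact absurd (Finset.mem_univ _) hh

theorem Wop_unique (hk2 : Even k) (g : Fin k → K) (hd : (hk g).det ≠ 0) (h0 : cf g 0 ≠ 0)
    (S W : Matrix (Fin (k + 1)) (Fin (k + 1)) K)
    (hS : (hk (Fin.cons 0 g : Fin (k + 1) → K) * S)ᵀ =
      - (hk (Fin.cons 0 g : Fin (k + 1) → K) * S))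
    (hW : (hk (Fin.cons 0 g : Fin (k + 1) → K) * W)ᵀ = hk (Fin.cons 0 g : Fin (k + 1) → K) * W)
    (hN : (-4 : K) • (S * W * S) = cmp (Fin.cons 0 g : Fin (k + 1) → K))
    (hc : W * S - S * W = vecMulVec (e0 K (k + 1))
      (fun i : Fin (k + 1) => psum (Fin.cons 0 g : Fin (k + 1) → K) (i : ℕ)) - 1) :
    ∃ ρ : K, W = Wop g ρ ∧ (cmS g).det ≠ 0 := by
  let φ : K →+* AlgebraicClosure K := algebraMap K (AlgebraicClosure K)
  have hφ : Function.Injective φ := φ.injective
  have hL : CharZero (AlgebraicClosure K) := charZero_of_injective_algebraMap hφ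
  obtain ⟨x, hy, hx, hx0, hg, hP⟩ := exists_roots_cons φ g hd h0
  obtain ⟨P, hPd⟩ : ∃ P : Fin (k + 1) → K, P = Fin.cons 0 g := ⟨_, rfl⟩
  obtain ⟨PL, hPL⟩ : ∃ PL : Fin (k + 1) → AlgebraicClosure K,
    PL = Fin.cons 0 (fun i => φ (g i)) := ⟨_, rfl⟩
  obtain ⟨y, hyd⟩ : ∃ y : Fin (k + 1) → AlgebraicClosure K, y = Fin.cons 0 x := ⟨_, rfl⟩
  have hPmap : (fun i => φ (P i)) = PL := by
    rw [hPd, hPL]
    funext i
    refine Fin.cases ?_ (fun i => ?_) i
    · simp
    · simp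
  rw [← hPL, ← hyd] at hP
  rw [← hyd] at hy
  rw [← hPd] at hS hW hN hc
  obtain ⟨V, hVd⟩ : ∃ V, V = vandermonde y := ⟨_, rfl⟩
  have hVu : IsUnit V.det := by
    rw [hVd]
    exact (det_vandermonde_ne_zero_iff.2 hy).isUnit
  have hVV : V⁻¹ * V = 1 := Matrix.nonsing_inv_mul _ hVu
  have hVV' : V * V⁻¹ = 1 := Matrix.mul_nonsing_inv _ hVu
  have hH : Vᵀ * V = hk PL := by
    rw [hVd]
    exact vand_hk y PL hy hP
  have hCV : V * cmp PL = diagonal y * V := by
    rw [hVd]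
    exact vand_cmp y PL hP
  have hVe : V *ᵥ e0 (AlgebraicClosure K) (k + 1) = fun _ => 1 := by
    rw [hVd]
    exact vand_e0 y
  -- the matrices over the algebraic closure
  obtain ⟨SL, hSL⟩ : ∃ SL, SL = S.map φ := ⟨_, rfl⟩
  obtain ⟨WL, hWL⟩ : ∃ WL, WL = W.map φ := ⟨_, rfl⟩
  have hS' : (hk PL * SL)ᵀ = - (hk PL * SL) := by
    have h1 := congrArg (fun M : Matrix (Fin (k + 1)) (Fin (k + 1)) K => M.map φ) hS
    simp only [Matrix.transpose_map, Matrix.map_mul, Matrix.map_neg φ (map_neg φ)] at h1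
    rw [hk_map, hPmap, ← hSL] at h1
    exact h1
  have hW' : (hk PL * WL)ᵀ = hk PL * WL := by
    have h1 := congrArg (fun M : Matrix (Fin (k + 1)) (Fin (k + 1)) K => M.map φ) hW
    simp only [Matrix.transpose_map, Matrix.map_mul] at h1
    rw [hk_map, hPmap, ← hWL] at h1
    exact h1
  have hN' : (-4 : AlgebraicClosure K) • (SL * WL * SL) = cmp PL := by
    have h1 := congrArg (fun M : Matrix (Fin (k + 1)) (Fin (k + 1)) K => M.map φ) hN
    rw [cmp_map, hPmap] at h1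
    rw [← h1, hSL, hWL]
    ext i j
    rw [Matrix.smul_apply, Matrix.map_apply, Matrix.smul_apply, ← Matrix.map_mul,
      ← Matrix.map_mul, Matrix.map_apply, smul_eq_mul, smul_eq_mul, map_mul, map_neg,
      show φ 4 = 4 from map_ofNat φ 4]
  have hc' : WL * SL - SL * WL = vecMulVec (e0 (AlgebraicClosure K) (k + 1))
      (fun i : Fin (k + 1) => psum PL (i : ℕ)) - 1 := by
    have h1 := congrArg (fun M : Matrix (Fin (k + 1)) (Fin (k + 1)) K => M.map φ) hc
    have h2 : (W * S - S * W).map φ = WL * SL - SL * WL := by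
      rw [Matrix.map_sub φ (map_sub φ), Matrix.map_mul, Matrix.map_mul, hSL, hWL]
    rw [h2] at h1
    rw [h1]
    ext i j
    rw [Matrix.map_apply, Matrix.sub_apply, Matrix.sub_apply, map_sub, Matrix.vecMulVec_apply,
      Matrix.vecMulVec_apply, map_mul, e0_map, psum_map, hPmap, Matrix.one_apply,
      Matrix.one_apply]
    split_ifs <;> simp
  -- root coordinates
  obtain ⟨Sg, hSg⟩ : ∃ Sg, Sg = V * SL * V⁻¹ := ⟨_, rfl⟩
  obtain ⟨Ω, hΩ⟩ : ∃ Ω, Ω = V * WL * V⁻¹ := ⟨_, rfl⟩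
  have hSgV : Sg * V = V * SL := by rw [hSg, Matrix.mul_assoc, hVV, Matrix.mul_one]
  have hΩV : Ω * V = V * WL := by rw [hΩ, Matrix.mul_assoc, hVV, Matrix.mul_one]
  have hcancel : ∀ A B : Matrix (Fin (k + 1)) (Fin (k + 1)) (AlgebraicClosure K),
      A * V = B * V → A = B := by
    intro A B h
    have h1 := congrArg (fun M => M * V⁻¹) h
    simpa only [Matrix.mul_assoc, hVV', Matrix.mul_one] using h1
  have hcancel' : ∀ A B : Matrix (Fin (k + 1)) (Fin (k + 1)) (AlgebraicClosure K),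
      Vᵀ * A = Vᵀ * B → A = B := by
    intro A B h
    have h1 := congrArg Matrix.transpose h
    rw [Matrix.transpose_mul, Matrix.transpose_mul, Matrix.transpose_transpose] at h1
    have h2 := hcancel _ _ h1
    have h3 := congrArg Matrix.transpose h2
    rwa [Matrix.transpose_transpose, Matrix.transpose_transpose] at h3
  have hSgT : Sgᵀ = - Sg := by
    apply hcancel
    apply hcancel'
    have h1 : Vᵀ * (Sg * V) = hk PL * SL := by
      rw [hSgV, ← Matrix.mul_assoc, hH]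
    have h2 : Vᵀ * (Sgᵀ * V) = (Vᵀ * (Sg * V))ᵀ := by
      rw [Matrix.transpose_mul, Matrix.transpose_mul, Matrix.transpose_transpose,
        Matrix.mul_assoc]
    rw [h2, h1, hS', Matrix.neg_mul, Matrix.mul_neg, h1]
  have hΩT : Ωᵀ = Ω := by
    apply hcancel
    apply hcancel'
    have h1 : Vᵀ * (Ω * V) = hk PL * WL := by
      rw [hΩV, ← Matrix.mul_assoc, hH]
    have h2 : Vᵀ * (Ωᵀ * V) = (Vᵀ * (Ω * V))ᵀ := by
      rw [Matrix.transpose_mul, Matrix.transpose_mul, Matrix.transpose_transpose,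
        Matrix.mul_assoc]
    rw [h2, h1, hW', ← h1]
  have hSgN : (-4 : AlgebraicClosure K) • (Sg * Ω * Sg) =
      diagonal (Fin.cons 0 x : Fin (k + 1) → AlgebraicClosure K) := by
    rw [← hyd]
    apply hcancel
    rw [← hCV, ← hN', Matrix.smul_mul, Matrix.mul_smul, Matrix.mul_assoc (Sg * Ω), hSgV,
      ← Matrix.mul_assoc, Matrix.mul_assoc Sg, hΩV, ← Matrix.mul_assoc, hSgV, Matrix.mul_assoc V,
      Matrix.mul_assoc V, Matrix.mul_assoc SL]
  have hpsV : (fun i : Fin (k + 1) => psum PL (i : ℕ)) =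
      (fun _ : Fin (k + 1) => (1 : AlgebraicClosure K)) ᵥ* V := by
    rw [← DUniq_e0_hk PL, ← hH, ← Matrix.vecMul_vecMul, Matrix.vecMul_transpose, hVe]
  have hSgc : Ω * Sg - Sg * Ω = Matrix.of (fun _ _ => (1 : AlgebraicClosure K)) - 1 := by
    apply hcancel
    have h1 : (Ω * Sg - Sg * Ω) * V = V * (WL * SL - SL * WL) := by
      rw [Matrix.sub_mul, Matrix.mul_sub, Matrix.mul_assoc Ω, hSgV, ← Matrix.mul_assoc, hΩV,
        Matrix.mul_assoc Sg, hΩV, ← Matrix.mul_assoc Sg, hSgV, Matrix.mul_assoc, Matrix.mul_assoc]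
    rw [h1, hc', Matrix.mul_sub, Matrix.mul_one, Matrix.sub_mul, Matrix.one_mul,
      Matrix.mul_vecMulVec, hVe, hpsV]
    congr 1
    rw [← Matrix.vecMulVec_mul]
    congr 1
    ext i j
    simp [Matrix.vecMulVec_apply]
  obtain ⟨hcm, ρL, hρL⟩ := DUniq_core hk2 x hx0 hx Sg Ω hSgT hΩT hSgN hSgc
  have hgd : (cmS g).det ≠ 0 := by
    have h1 := vand_cmS x (fun i => φ (g i)) hx hg
    have h2 := congrArg Matrix.det h1
    rw [Matrix.det_mul, Matrix.det_mul, mul_comm] at h2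
    have h3 := mul_right_cancel₀ (det_vandermonde_ne_zero_iff.2 hx) h2
    intro h4
    apply hcm
    rw [← h3, ← cmS_map, ← RingHom.mapMatrix_apply, ← RingHom.map_det, h4, map_zero]
  have hWop : WL = Wop (fun i => φ (g i)) ρL := by
    have h1 := vand_Wop (fun i => φ (g i)) x ρL (by rw [← hyd]; exact hy) hg
    rw [← hyd, ← hVd, ← hρL, hΩV] at h1
    have h2 := congrArg (fun M => V⁻¹ * M) h1
    simpa only [← Matrix.mul_assoc, hVV, Matrix.one_mul] using h2.symm
  -- the number ρ is in K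
  have hρ : φ (-2 * (W - (-4 : K) • (cmS P * cmp P * cmS P)) 0 0) = ρL := by
    have h1 := congrFun (congrFun hWop 0) 0
    unfold Wop at h1
    rw [Matrix.sub_apply, Matrix.smul_apply (ρL / 2), Matrix.vecMulVec_apply, ← hPL] at h1
    have hcf : cf (fun i => φ (g i)) 0 ≠ 0 := by
      rw [← cf_map]
      exact (map_ne_zero φ).2 h0
    have h2 : cf (fun i => φ (g i)) ((0 : Fin (k + 1)) : ℕ) / cf (fun i => φ (g i)) 0 = 1 :=
      div_self hcf
    have h3 : e0 (AlgebraicClosure K) (k + 1) 0 = 1 := by simp [e0]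
    rw [h2, h3, one_mul, smul_eq_mul, mul_one] at h1
    have h4 : ((-4 : AlgebraicClosure K) • (cmS PL * cmp PL * cmS PL)) 0 0 =
        φ (((-4 : K) • (cmS P * cmp P * cmS P)) 0 0) := by
      rw [← hPmap, ← cmS_map, ← cmp_map, ← Matrix.map_mul, ← Matrix.map_mul, Matrix.smul_apply,
        Matrix.smul_apply, Matrix.map_apply, smul_eq_mul, smul_eq_mul, map_mul, map_neg,
        show φ 4 = 4 from map_ofNat φ 4]
    rw [h4] at h1
    have h5 : φ (W 0 0) = WL 0 0 := by rw [hWL]; rfl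
    rw [Matrix.sub_apply, map_mul, map_sub, h5, h1, map_neg, show φ 2 = 2 from map_ofNat φ 2]
    ring
  refine ⟨-2 * (W - (-4 : K) • (cmS P * cmp P * cmS P)) 0 0, ?_, hgd⟩
  apply Matrix.map_injective hφ
  show W.map φ = (Wop g _).map φ
  rw [Wop_map, hρ, ← hWL, hWop]

end SpinWA
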