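import Pool.Agent.H.MP_83e36b_nt.sp.KDef

/-!
# Degrees in the parameter of the line

PROOF. Let `m = k + 1`, `a = lineP (C b) X (C ∘ r) : Fin m → R[X]`. Say that a polynomial `f` in `R[X]`
has weight `≤ d` (`d : ℤ`) if `k * j ≤ d` for all `j` with `f.coeff j ≠ 0`. This is
stable under sums (same `d`), products (`d + d'`), negation; `0` has every weight; constants have
weight `≤ 0`, `X` has weight `≤ k`. The entries of `cmp a` at `(i, j)` have weight `≤ 1 + j - i`:
for `i = j + 1` the entry 1 has weight `≤ 0`; for `j = k` the entry is `- a_i`, which has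
weight `≤ m - i = 1 + j - i`: for `i ≠ 1` it is a constant and `0 ≤ m - i`, for `i = 1` it is `-X`, and
`k ≤ m - 1`. By induction the entries of `(cmp a)^l` have weight `≤ l + j - i`, so `psum a l` has
weight `≤ l`. By the Leibniz formula `dA a` has weight `≤ ∑_{i<k} (i + σ(i)) = k (k - 1)`, so its
degree is `≤ k - 1`; `dB a` has weight `≤ ∑_{i<k} (i + σ(i) + 1) = k (k-1) + k = k^2`, so its
degree is `≤ k`.
-/

open Matrix Polynomial

namespace SpinWA

variable {R : Type*} [CommRing R] {k : ℕ}

/-- The weight of `f` is at most `d`. -/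
private def kwtW (k : ℕ) (f : R[X]) (d : ℤ) : Prop := ∀ j : ℕ, f.coeff j ≠ 0 → (k : ℤ) * j ≤ d

private theorem kwt_mono {f : R[X]} {d e : ℤ} (h : kwtW k f d) (hde : d ≤ e) : kwtW k f e :=
  fun j hj => (h j hj).trans hde

private theorem kwt_zero (d : ℤ) : kwtW k (0 : R[X]) d := fun j hj => absurd (coeff_zero j) hj

private theorem kwt_add {f g : R[X]} {d : ℤ} (hf : kwtW k f d) (hg : kwtW k g d) :
    kwtW k (f + g) d := by
  intro j hj
  by_cases h : f.coeff j = 0
  · rw [coeff_add, h, zero_add] at hj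
    exact hg j hj
  · exact hf j h

private theorem kwt_sum {ι : Type*} (s : Finset ι) {f : ι → R[X]} {d : ℤ}
    (h : ∀ i ∈ s, kwtW k (f i) d) : kwtW k (∑ i ∈ s, f i) d := by
  classical
  induction s using Finset.induction_on with
  | empty =>
    rw [Finset.sum_empty]
    exact kwt_zero d
  | insert a s ha ih =>
    rw [Finset.sum_insert ha]
    exact kwt_add (h a (Finset.mem_insert_self a s))
      (ih fun i hi => h i (Finset.mem_insert_of_mem hi))

private theorem kwt_mul {f g : R[X]} {d e : ℤ} (hf : kwtW k f d) (hg : kwtW k g e) :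
    kwtW k (f * g) (d + e) := by
  intro j hj
  rw [coeff_mul] at hj
  obtain ⟨x, hx, hx0⟩ := Finset.exists_ne_zero_of_sum_ne_zero hj
  have h1 : f.coeff x.1 ≠ 0 := left_ne_zero_of_mul hx0
  have h2 : g.coeff x.2 ≠ 0 := right_ne_zero_of_mul hx0
  have h3 := hf _ h1
  have h4 := hg _ h2
  have h5 : x.1 + x.2 = j := Finset.HasAntidiagonal.mem_antidiagonal.1 hx
  rw [← h5]
  push_cast
  linarith

private theorem kwt_C (c : R) : kwtW k (C c) 0 := by
  intro j hj
  have h : j = 0 := by
    by_contra h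
    rw [coeff_C, if_neg h] at hj
    exact hj rfl
  rw [h]
  simp

private theorem kwt_one : kwtW k (1 : R[X]) 0 := by
  rw [← C_1]
  exact kwt_C 1

private theorem kwt_X : kwtW k (X : R[X]) k := by
  intro j hj
  have h : j = 1 := by
    by_contra h
    rw [coeff_X, if_neg (fun h' => h h'.symm)] at hj
    exact hj rfl
  rw [h]
  simp

private theorem kwt_neg {f : R[X]} {d : ℤ} (hf : kwtW k f d) : kwtW k (-f) d := by
  intro j hj
  rw [coeff_neg] at hj
  exact hf j (fun h => hj (by rw [h, neg_zero]))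

private theorem kwt_prod {ι : Type*} (s : Finset ι) {f : ι → R[X]} {d : ι → ℤ}
    (h : ∀ i ∈ s, kwtW k (f i) (d i)) : kwtW k (∏ i ∈ s, f i) (∑ i ∈ s, d i) := by
  classical
  induction s using Finset.induction_on with
  | empty =>
    rw [Finset.prod_empty, Finset.sum_empty]
    exact kwt_one
  | insert a s ha ih =>
    rw [Finset.prod_insert ha, Finset.sum_insert ha]
    exact kwt_mul (h a (Finset.mem_insert_self a s))
      (ih fun i hi => h i (Finset.mem_insert_of_mem hi))

private theorem kwt_cmp (b : R) (r : Fin (k + 1) → R) (i j : Fin (k + 1)) :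
    kwtW k (cmp (lineP (C b) X fun i : Fin (k + 1) => C (r i)) i j) (1 + j - i) := by
  unfold cmp
  rw [Matrix.of_apply]
  split_ifs with h1 h2
  · apply kwt_neg
    have hj : (j : ℤ) = k := by
      have : (j : ℕ) = k := by omega
      exact_mod_cast this
    have hi : (i : ℤ) ≤ k := by
      have := i.2
      have h3 : (i : ℕ) ≤ k := by omega
      exact_mod_cast h3
    unfold lineP
    split_ifs with h3 h4
    · exact kwt_mono (kwt_C b) (by rw [hj, h3]; omega)
    · exact kwt_mono kwt_X (by rw [hj, h4]; push_cast; linarith)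
    · exact kwt_mono (kwt_C (r i)) (by rw [hj]; linarith)
  · refine kwt_mono kwt_one ?_
    rw [h2]
    push_cast
    linarith
  · exact kwt_zero _

private theorem kwt_pow (b : R) (r : Fin (k + 1) → R) (l : ℕ) : ∀ (i j : Fin (k + 1)),
    kwtW k ((cmp (lineP (C b) X fun i : Fin (k + 1) => C (r i)) ^ l) i j) (l + j - i) := by
  induction l with
  | zero =>
    intro i j
    rw [pow_zero, Matrix.one_apply]
    split_ifs with h
    · refine kwt_mono kwt_one ?_
      rw [h]
      simp
    · exact kwt_zero _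
  | succ l ih =>
    intro i j
    rw [pow_succ, Matrix.mul_apply]
    apply kwt_sum
    intro p _
    refine kwt_mono (kwt_mul (ih i p) (kwt_cmp b r p j)) ?_
    push_cast
    linarith

private theorem kwt_psum (b : R) (r : Fin (k + 1) → R) (l : ℕ) :
    kwtW k (psum (lineP (C b) X fun i : Fin (k + 1) => C (r i)) l) l := by
  unfold psum Matrix.trace
  apply kwt_sum
  intro i _
  refine kwt_mono (kwt_pow b r l i i) ?_
  linarith

private theorem kwt_gauss (m : ℕ) :
    (∑ i ∈ Finset.range m, (i : ℤ)) + ∑ i ∈ Finset.range m, (i : ℤ) = (m : ℤ) * (m - 1) := by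
  induction m with
  | zero => simp
  | succ m ih =>
    rw [Finset.sum_range_succ]
    push_cast
    push_cast at ih
    linear_combination ih

private theorem kwt_det {m : ℕ} (M : Matrix (Fin m) (Fin m) R[X]) (e : ℤ)
    (h : ∀ i j, kwtW k (M i j) (i + j + e)) :
    kwtW k M.det ((m : ℤ) * (m - 1) + m * e) := by
  rw [Matrix.det_apply']
  apply kwt_sum
  intro σ _
  have h1 : kwtW k (∏ i, M (σ i) i) (∑ i : Fin m, (((σ i : ℕ) : ℤ) + (i : ℕ) + e)) :=
    kwt_prod _ fun i _ => h (σ i) i
  have h2 : ∑ i : Fin m, (((σ i : ℕ) : ℤ) + (i : ℕ) + e) = (m : ℤ) * (m - 1) + m * e := by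
    rw [Finset.sum_add_distrib, Finset.sum_add_distrib,
      Equiv.sum_comp σ (fun i : Fin m => ((i : ℕ) : ℤ)), Finset.sum_const, Finset.card_univ,
      Fintype.card_fin, nsmul_eq_mul, Fin.sum_univ_eq_sum_range (fun i => (i : ℤ)) m]
    rw [kwt_gauss m]
  rw [← h2]
  have h4 : kwtW k (((Equiv.Perm.sign σ : ℤ) : R[X])) 0 := by
    have h5 : (((Equiv.Perm.sign σ : ℤ) : R[X])) = C (((Equiv.Perm.sign σ : ℤ) : R)) :=
      (map_intCast (C : R →+* R[X]) _).symm
    rw [h5]
    exact kwt_C _
  have h6 := kwt_mul h4 h1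
  rwa [zero_add] at h6

private theorem kwt_natDegree (h1k : 1 ≤ k) {f : R[X]} {d : ℕ}
    (h : kwtW k f ((k : ℤ) * d)) : f.natDegree ≤ d := by
  rw [natDegree_le_iff_coeff_eq_zero]
  intro j hj
  by_contra hcon
  have h1 := h j hcon
  have h2 : (0 : ℤ) < k := by exact_mod_cast h1k
  have h3 := le_of_mul_le_mul_left h1 h2
  have h4 : j ≤ d := by exact_mod_cast h3
  omega

theorem natDegree_dA (h1k : 1 ≤ k) (b : R) (r : Fin (k + 1) → R) :
    (dA (lineP (C b) X fun i : Fin (k + 1) => C (r i))).natDegree ≤ k - 1 := by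
  apply kwt_natDegree h1k
  unfold dA
  have h := kwt_det (k := k) ((hk (lineP (C b) X fun i : Fin (k + 1) => C (r i))).submatrix
    (Fin.castSucc : Fin k → Fin (k + 1)) Fin.castSucc) 0 (by
      intro i j
      rw [Matrix.submatrix_apply]
      unfold hk
      rw [Matrix.of_apply]
      refine kwt_mono (kwt_psum b r _) ?_
      simp)
  refine kwt_mono h ?_
  have h2 : ((k - 1 : ℕ) : ℤ) = (k : ℤ) - 1 := by
    push_cast [h1k]
    ring
  rw [h2]
  linarith

theorem natDegree_dB (h1k : 1 ≤ k) (b : R) (r : Fin (k + 1) → R) :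
    (dB (lineP (C b) X fun i : Fin (k + 1) => C (r i))).natDegree ≤ k := by
  apply kwt_natDegree h1k
  unfold dB
  have h := kwt_det (k := k) ((hk1 (lineP (C b) X fun i : Fin (k + 1) => C (r i))).submatrix
    (Fin.castSucc : Fin k → Fin (k + 1)) Fin.castSucc) 1 (by
      intro i j
      rw [Matrix.submatrix_apply]
      unfold hk1
      rw [Matrix.of_apply]
      refine kwt_mono (kwt_psum b r _) ?_
      simp)
  refine kwt_mono h ?_
  nlinarith

end SpinWA
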