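import Pool.Agent.H.MP_83e36b_nt.sp.KTri
import Pool.Agent.H.MP_83e36b_nt.sp.KWt

/-!
# Generic coprimality on the line

PROOF. Let `R = ℚ[X]` (variable `s`), and in `R[X]` (variable `t`) let
`Fs = dM a`, `Es = dA a * dB a` for `a = lineP (C (C b)) X (fun i => C (X * C (r i)))`. By `KWt`
`natDegree Es ≤ (k - 1) + k = 2 k - 1`. Let `N = natDegree Fs` and
`d = resultant Fs Es N (2 k - 1)` in `ℚ[X]`. For `s ∈ ℚ`, applying the evaluation
`evalRingHom s : ℚ[X] → ℚ` to the coefficients (`Polynomial.mapRingHom`; `dM_map`, `dA_map`,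
`dB_map`, `lineP_map`) `Fs`, `Es` become `F_s = dM (lineP (C b) X (C (s r_i)))`, `E_s = …`, and by
`resultant_map_map` `d.eval s = resultant F_s E_s N (2 k - 1)`. If it is nonzero, then
`exists_mul_add_mul_eq_C_resultant` (degrees `≤ N`, `≤ 2 k - 1`, and `2 k - 1 ≠ 0`) gives
`F_s p + E_s q = C (d.eval s)`, a unit: coprime.
`d ≠ 0`: take `s = 0`: `E_0 = ± (k+1) (k X)^(k-1) (k X)^k = C c * X^(2k-1)`, `c ≠ 0` (`KTri`),
`F_0.coeff 0 = F_0.eval 0 = dM (lineP b 0 0) = ± (k+1)^(k+1) b^k ≠ 0` (`eval_dM`), so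
`resultant F_0 (C c * X^(2k-1)) N (2k-1) = c^N * (F_0.coeff 0)^(2k-1) ≠ 0`
(`resultant_C_mul_right`, `resultant_X_pow_right`).
-/

open Matrix Polynomial

namespace SpinWA

theorem KGen_line_map {k : ℕ} (b : ℚ) (r : Fin (k + 1) → ℚ) (s : ℚ) :
    (fun i : Fin (k + 1) => mapRingHom (evalRingHom s)
      (lineP (C (C b)) X (fun i : Fin (k + 1) => C (X * C (r i))) i)) =
      lineP (C b) X fun i : Fin (k + 1) => C (s * r i) := by
  funext i
  rw [lineP_map]
  simp only [coe_mapRingHom, map_C, map_X, coe_evalRingHom, eval_C, eval_mul, eval_X]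

theorem KGen_res_ne {k N : ℕ} (h1k : 1 ≤ k) {b : ℚ} (hb : b ≠ 0)
    (hN : (dM (lineP (C b) X fun _ : Fin (k + 1) => C ((0 : ℚ) * 0))).natDegree ≤ N) :
    resultant (dM (lineP (C b) X fun _ : Fin (k + 1) => C ((0 : ℚ) * 0)))
      (dA (lineP (C b) X fun _ : Fin (k + 1) => C ((0 : ℚ) * 0)) *
          dB (lineP (C b) X fun _ : Fin (k + 1) => C ((0 : ℚ) * 0))) N (2 * k - 1) ≠ 0 := by
  have h0 : (fun _ : Fin (k + 1) => (C ((0 : ℚ) * 0) : ℚ[X])) = 0 := by
    funext i; simp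
  have hk : (k : ℚ) ≠ 0 := by exact_mod_cast (by omega : k ≠ 0)
  have hk1 : (k : ℚ) + 1 ≠ 0 := by positivity
  have hcoe : (dM (lineP (C b) X fun _ : Fin (k + 1) => C ((0 : ℚ) * 0))).coeff 0 ≠ 0 := by
    rw [coeff_zero_eq_eval_zero, eval_dM]
    have h1 : (fun i : Fin (k + 1) => (0 : ℚ) * 0) = 0 := by funext i; simp
    rw [h1]
    rcases dM_tri (R := ℚ) h1k b with h | h <;> rw [h]
    · positivity
    · exact neg_ne_zero.2 (by positivity)
  have hE : ∃ c : ℚ, c ≠ 0 ∧ (dA (lineP (C b) X fun _ : Fin (k + 1) => C ((0 : ℚ) * 0)) *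
          dB (lineP (C b) X fun _ : Fin (k + 1) => C ((0 : ℚ) * 0))) = C c * X ^ (2 * k - 1) := by
    rw [h0]
    have e1 : (((k : ℚ[X]) + 1) * ((k : ℚ[X]) * X) ^ (k - 1)) * ((k : ℚ[X]) * X) ^ k =
        C (((k : ℚ) + 1) * (k : ℚ) ^ (2 * k - 1)) * X ^ (2 * k - 1) := by
      have e2 : 2 * k - 1 = (k - 1) + k := by omega
      rw [e2]
      simp only [mul_pow, pow_add, C_mul, C_add, C_pow, C_1, map_natCast]
      ring
    have hc : ((k : ℚ) + 1) * (k : ℚ) ^ (2 * k - 1) ≠ 0 := mul_ne_zero hk1 (pow_ne_zero _ hk)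
    rcases dA_tri (R := ℚ[X]) h1k (C b) X with hA | hA <;>
      rcases dB_tri (R := ℚ[X]) h1k (C b) X with hB | hB <;> rw [hA, hB]
    · exact ⟨_, hc, e1⟩
    · exact ⟨_, neg_ne_zero.2 hc, by rw [mul_neg, e1, C_neg, neg_mul]⟩
    · exact ⟨_, neg_ne_zero.2 hc, by rw [neg_mul, e1, C_neg, neg_mul]⟩
    · exact ⟨_, hc, by rw [neg_mul_neg, e1]⟩
  obtain ⟨c, hc, hE⟩ := hE
  rw [hE, resultant_C_mul_right, resultant_X_pow_right _ _ _ hN]
  exact mul_ne_zero (pow_ne_zero _ hc) (mul_ne_zero (pow_ne_zero _ (by norm_num))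
    (pow_ne_zero _ hcoe))

theorem gen_coprime {k : ℕ} (h1k : 1 ≤ k) {b : ℚ} (hb : b ≠ 0) (r : Fin (k + 1) → ℚ) :
    ∃ d : ℚ[X], d ≠ 0 ∧ ∀ s : ℚ, d.eval s ≠ 0 →
      IsCoprime (dM (lineP (C b) X fun i : Fin (k + 1) => C (s * r i)))
        (dA (lineP (C b) X fun i : Fin (k + 1) => C (s * r i)) *
          dB (lineP (C b) X fun i : Fin (k + 1) => C (s * r i))) := by
  set Fs : ℚ[X][X] := dM (lineP (C (C b)) X (fun i : Fin (k + 1) => C (X * C (r i)))) with hFs
  set As : ℚ[X][X] := dA (lineP (C (C b)) X (fun i : Fin (k + 1) => C (X * C (r i)))) with hAs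
  set Bs : ℚ[X][X] := dB (lineP (C (C b)) X (fun i : Fin (k + 1) => C (X * C (r i)))) with hBs
  have hA : As.natDegree ≤ k - 1 := natDegree_dA h1k (C b) (fun i => X * C (r i))
  have hB : Bs.natDegree ≤ k := natDegree_dB h1k (C b) (fun i => X * C (r i))
  have hE : (As * Bs).natDegree ≤ 2 * k - 1 := by
    refine natDegree_mul_le.trans ?_
    omega
  have mF : ∀ s : ℚ, Fs.map (evalRingHom s) =
      dM (lineP (C b) X fun i : Fin (k + 1) => C (s * r i)) := by
    intro s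
    have h := dM_map (mapRingHom (evalRingHom s))
      (lineP (C (C b)) X (fun i : Fin (k + 1) => C (X * C (r i))))
    rw [KGen_line_map] at h
    exact h
  have mA : ∀ s : ℚ, As.map (evalRingHom s) =
      dA (lineP (C b) X fun i : Fin (k + 1) => C (s * r i)) := by
    intro s
    have h := dA_map (mapRingHom (evalRingHom s))
      (lineP (C (C b)) X (fun i : Fin (k + 1) => C (X * C (r i))))
    rw [KGen_line_map] at h
    exact h
  have mB : ∀ s : ℚ, Bs.map (evalRingHom s) =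
      dB (lineP (C b) X fun i : Fin (k + 1) => C (s * r i)) := by
    intro s
    have h := dB_map (mapRingHom (evalRingHom s))
      (lineP (C (C b)) X (fun i : Fin (k + 1) => C (X * C (r i))))
    rw [KGen_line_map] at h
    exact h
  have hd : ∀ s : ℚ, (resultant Fs (As * Bs) Fs.natDegree (2 * k - 1)).eval s =
      resultant (dM (lineP (C b) X fun i : Fin (k + 1) => C (s * r i)))
        (dA (lineP (C b) X fun i : Fin (k + 1) => C (s * r i)) *
          dB (lineP (C b) X fun i : Fin (k + 1) => C (s * r i))) Fs.natDegree (2 * k - 1) := by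
    intro s
    rw [← mF s, ← mA s, ← mB s, ← Polynomial.map_mul, resultant_map_map, coe_evalRingHom]
  refine ⟨resultant Fs (As * Bs) Fs.natDegree (2 * k - 1), ?_, ?_⟩
  · intro h0
    have h1 := hd 0
    rw [h0, eval_zero] at h1
    have h2 : (fun i : Fin (k + 1) => (C ((0 : ℚ) * r i) : ℚ[X])) =
        fun _ : Fin (k + 1) => C ((0 : ℚ) * 0) := by
      funext i; simp
    rw [h2] at h1
    refine KGen_res_ne h1k hb ?_ h1.symm
    rw [← h2, ← mF 0]
    exact natDegree_map_le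
  · intro s hs
    rw [hd s] at hs
    obtain ⟨p, q, -, -, hpq⟩ := exists_mul_add_mul_eq_C_resultant
      (m := Fs.natDegree) (n := 2 * k - 1)
      (dM (lineP (C b) X fun i : Fin (k + 1) => C (s * r i)))
      (dA (lineP (C b) X fun i : Fin (k + 1) => C (s * r i)) *
          dB (lineP (C b) X fun i : Fin (k + 1) => C (s * r i)))
      (by rw [← mF s]; exact natDegree_map_le)
      (by rw [← mA s, ← mB s, ← Polynomial.map_mul]; exact natDegree_map_le.trans hE)
      (Or.inr (by omega))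
    set ρ := resultant (dM (lineP (C b) X fun i : Fin (k + 1) => C (s * r i)))
        (dA (lineP (C b) X fun i : Fin (k + 1) => C (s * r i)) *
          dB (lineP (C b) X fun i : Fin (k + 1) => C (s * r i))) Fs.natDegree (2 * k - 1) with hρ
    refine ⟨C ρ⁻¹ * p, C ρ⁻¹ * q, ?_⟩
    have : C ρ⁻¹ * (dM (lineP (C b) X fun i : Fin (k + 1) => C (s * r i)) * p +
        (dA (lineP (C b) X fun i : Fin (k + 1) => C (s * r i)) *
          dB (lineP (C b) X fun i : Fin (k + 1) => C (s * r i))) * q) = 1 := by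
      rw [hpq, ← C_mul, inv_mul_cancel₀ hs, C_1]
    rw [← this]
    ring

end SpinWA
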