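import Pool.Agent.H.MP_83e36b_nt.sp.PMap
import Pool.Agent.H.MP_83e36b_nt.sp.KKryB
import Pool.Agent.H.MP_ffe2f0_al.NNewton

/-!
# Newton's identities for `psum`

PROOF. `psum_rec`: `aeval_cmp` multiplied by `(cmp a)^j`, traces. `psum_newton`: over an infinite
field this is `NoetherAn.newton'` applied to `M = cmp a` with `charpoly_cmp` (there: for `k < n`,
`∑_{b ≤ k} coeff (n - k + b) * Tr (M^b) = (n - k) coeff (n - k)`; with `Tr (M^0) = n` this gives
`∑_{b=1}^{k} coeff (n-k+b) Tr (M^b) = - k coeff (n-k)`; the case `k = n` is `psum_rec` with `j = 0`: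
`∑_{b=0}^{n} coeff b Tr (M^b) = 0`). For a general commutative ring `R`: the identity holds for the
generic vector `X_i` of `MvPolynomial (Fin n) ℤ`, which embeds in its fraction field (infinite), and
can be specialised by the ring homomorphism `MvPolynomial.eval₂Hom (Int.castRingHom R) a`
(`psum_map`, `cf_map`).
-/

open Matrix Polynomial

namespace SpinWA

variable {R : Type*} [CommRing R] {n : ℕ}

private theorem knewton_coeff (a : Fin n → R) (i : ℕ) : (AnWA.monicPoly a).coeff i = cf a i := by
  unfold AnWA.monicPoly cf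
  rw [coeff_add, finsetSum_coeff, coeff_X_pow]
  by_cases hi : i < n
  · rw [if_neg (by omega), zero_add, dif_pos hi, Finset.sum_eq_single (⟨i, hi⟩ : Fin n)]
    · simp
    · intro b _ hb
      have hb' : (b : ℕ) ≠ i := fun h => hb (Fin.ext h)
      rw [coeff_C_mul, coeff_X_pow, if_neg (Ne.symm hb'), mul_zero]
    · intro h
      exact absurd (Finset.mem_univ _) h
  · rw [dif_neg hi, Finset.sum_eq_zero, add_zero]
    intro b _
    have hb' : (b : ℕ) ≠ i := fun h => hi (h ▸ b.2)
    rw [coeff_C_mul, coeff_X_pow, if_neg (Ne.symm hb'), mul_zero]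

theorem psum_rec (a : Fin n → R) (j : ℕ) :
    psum a (n + j) = - ∑ i : Fin n, a i * psum a (i + j) := by
  have h := aeval_cmp a
  unfold AnWA.monicPoly at h
  rw [map_add, map_pow, aeval_X, map_sum] at h
  have h1 : ∀ i : Fin n, aeval (cmp a) (C (a i) * X ^ (i : ℕ)) = a i • cmp a ^ (i : ℕ) :=
    fun i => by
      rw [map_mul, aeval_C, map_pow, aeval_X, Algebra.smul_def]
  rw [Finset.sum_congr rfl fun i _ => h1 i] at h
  have h2 : cmp a ^ n = -∑ i, a i • cmp a ^ (i : ℕ) := eq_neg_of_add_eq_zero_left h
  unfold psum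
  rw [pow_add, h2, neg_mul, Matrix.trace_neg, Finset.sum_mul, Matrix.trace_sum]
  congr 1
  refine Finset.sum_congr rfl fun i _ => ?_
  rw [Matrix.smul_mul, Matrix.trace_smul, smul_eq_mul, pow_add]

/-- Newton's identities: for `1 ≤ j ≤ n`,
`p_j + a_{n-1} p_{j-1} + … + a_{n-j+1} p_1 + j a_{n-j} = 0`. -/
theorem psum_newton (a : Fin n → R) {j : ℕ} (h1 : 1 ≤ j) (hj : j ≤ n) :
    ∑ b ∈ Finset.range j, cf a (n - j + (b + 1)) * psum a (b + 1) + j * cf a (n - j) = 0 := by
  have key : ∀ {K : Type} [Field K] [Infinite K] (a : Fin n → K),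
      ∑ b ∈ Finset.range j, cf a (n - j + (b + 1)) * psum a (b + 1) + j * cf a (n - j) = 0 := by
    intro K _ _ a
    rcases Nat.lt_or_ge j n with hjn | hjn
    · have h := NoetherAn.newton' (cmp a) hjn
      rw [charpoly_cmp, Finset.sum_range_succ'] at h
      simp only [knewton_coeff] at h
      rw [pow_zero, Matrix.trace_one, Fintype.card_fin, add_zero, Nat.cast_sub hj] at h
      have h2 : ∑ b ∈ Finset.range j, cf a (n - j + (b + 1)) * psum a (b + 1) =
          ∑ b ∈ Finset.range j, cf a (n - j + (b + 1)) * trace (cmp a ^ (b + 1)) := rfl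
      rw [h2]
      linear_combination h
    · have hjn' : j = n := le_antisymm hj hjn
      subst hjn'
      have h := psum_rec a 0
      have h3 : ∑ b ∈ Finset.range (j + 1), cf a b * psum a b = 0 := by
        rw [Finset.sum_range_succ, Finset.sum_range]
        have h4 : ∑ i : Fin j, cf a i * psum a i = ∑ i : Fin j, a i * psum a (i + 0) := by
          refine Finset.sum_congr rfl fun i _ => ?_
          rw [add_zero]
          congr 1
          unfold cf
          rw [dif_pos i.2]
        have h5 : cf a j = 1 := by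
          unfold cf
          rw [dif_neg (lt_irrefl _), if_pos rfl]
        rw [h4, h5]
        rw [add_zero] at h
        rw [h]
        ring
      rw [Finset.sum_range_succ'] at h3
      rw [Nat.sub_self]
      have h6 : ∑ b ∈ Finset.range j, cf a (0 + (b + 1)) * psum a (b + 1) =
          ∑ b ∈ Finset.range j, cf a (b + 1) * psum a (b + 1) :=
        Finset.sum_congr rfl fun b _ => by rw [zero_add]
      rw [h6]
      rw [psum_zero] at h3
      linear_combination h3
  have gen : ∑ b ∈ Finset.range j, cf (MvPolynomial.X : Fin n → MvPolynomial (Fin n) ℤ)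
      (n - j + (b + 1)) * psum (MvPolynomial.X : Fin n → MvPolynomial (Fin n) ℤ) (b + 1) +
      j * cf (MvPolynomial.X : Fin n → MvPolynomial (Fin n) ℤ) (n - j) = 0 := by
    have hinj := IsFractionRing.injective (MvPolynomial (Fin n) ℤ)
      (FractionRing (MvPolynomial (Fin n) ℤ))
    have : Infinite (FractionRing (MvPolynomial (Fin n) ℤ)) := Infinite.of_injective _ hinj
    apply hinj
    rw [map_zero, map_add, map_sum, map_mul, map_natCast, cf_map]
    simp only [map_mul, cf_map, psum_map]
    exact key _
  have h := congrArg (MvPolynomial.eval₂Hom (Int.castRingHom R) a) gen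
  rw [map_zero, map_add, map_sum, map_mul, map_natCast, cf_map] at h
  simp only [map_mul, cf_map, psum_map, MvPolynomial.eval₂Hom_X'] at h
  exact h

end SpinWA
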