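import Pool.Agent.H.MP_83e36b_nt.sp.KDef
import Pool.Agent.H.MP_83e36b_nt.sp.KScale
import Pool.Agent.H.MP_83e36b_nt.sp.UUni
import Pool.Agent.H.MP_83e36b_nt.sp.RFin

/-!
# Residues at the good primes

PROOF. Write `m = k + 1` (even), `H = hk G`, `H1 = hk1 G` over `ℤ_[p]`; over `ℚ_[p]` the matrices are
the images (`hk_map`, `hk1_map`). `cl 2`, `cl (2 c G_0)` are classes of units: residue 0
(`resW_cl_unit`). `det H1 = (-1)^m G_0 dM G = G_0 dM G` (`det_hk1`, over `ℚ_[p]`).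
`res_good`, case 1 (`dM G` a unit): `2 • H`, `(-2 l) • H1` have unit determinants: `res_unimodular`.
Case 2: by `res_minor` (the leading minors `2^k dA G`, `(-2 l)^k dB G` are units) the residues are
those of `cl (2^m dM * 2^k dA)` and `cl ((-2 l)^m G_0 dM * (-2 l)^k dB)`, i.e. up to squares
(`cl_mul_sq`, `m + k = 2 k + 1`) `cl (2 dM dA)` and `cl (-2 l G_0 dM dB)`. As
`l G_0 dA dB` is the square of some `r ≠ 0` in `ℚ_[p]` (`isSquare_of_toZMod`),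
`-2 l G_0 dM dB = - (2 dM dA) (r / dA)^2`, and `cl x + cl (-x) = 0` (`cl_neg`), `x = 2 dM dA`.
`res_ell`: `(-2 l) • H1 = l • ((-2) • H1)` with `(-2) • H1` unimodular: `res_smul_unimodular`; the
other terms have residue zero.
-/

open Matrix Polynomial

namespace SpinWA

private theorem kresg_two {p : ℕ} [Fact p.Prime] (hp : p ≠ 2) : IsUnit (2 : ℤ_[p]) := by
  have h1 : IsUnit ((2 : ℕ) : ℤ_[p]) := by
    rw [PadicInt.isUnit_iff, PadicInt.norm_def, PadicInt.coe_natCast]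
    rw [Padic.norm_natCast_eq_one_iff]
    exact (Nat.coprime_primes (Fact.out : p.Prime) Nat.prime_two).mpr hp
  exact_mod_cast h1

private theorem kresg_hk_symm {R : Type*} [CommRing R] {n : ℕ} (a : Fin n → R) :
    (hk a)ᵀ = hk a := by
  ext i j
  simp only [hk, Matrix.transpose_apply, Matrix.of_apply, add_comm]

private theorem kresg_hk1_symm {R : Type*} [CommRing R] {n : ℕ} (a : Fin n → R) :
    (hk1 a)ᵀ = hk1 a := by
  ext i j
  simp only [hk1, Matrix.transpose_apply, Matrix.of_apply, add_comm (i : ℕ) (j : ℕ)]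

private theorem kresg_smul_symm {R : Type*} [CommRing R] {n : ℕ} (c : R)
    {A : Matrix (Fin n) (Fin n) R} (hA : Aᵀ = A) : (c • A)ᵀ = c • A := by
  rw [Matrix.transpose_smul, hA]

private theorem kresg_hk_map {p : ℕ} [Fact p.Prime] {n : ℕ} (c : ℤ_[p]) (G : Fin n → ℤ_[p]) :
    (c • hk G).map (algebraMap ℤ_[p] ℚ_[p]) = (c : ℚ_[p]) • hk fun i => (G i : ℚ_[p]) := by
  have h := hk_map (algebraMap ℤ_[p] ℚ_[p]) G
  have h1 : (fun i => (G i : ℚ_[p])) = fun i => algebraMap ℤ_[p] ℚ_[p] (G i) := rfl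
  rw [h1, ← h]
  ext i j
  simp only [Matrix.map_apply, Matrix.smul_apply, smul_eq_mul, map_mul]
  rfl

private theorem kresg_hk1_map {p : ℕ} [Fact p.Prime] {n : ℕ} (c : ℤ_[p]) (G : Fin n → ℤ_[p]) :
    (c • hk1 G).map (algebraMap ℤ_[p] ℚ_[p]) = (c : ℚ_[p]) • hk1 fun i => (G i : ℚ_[p]) := by
  have h := hk1_map (algebraMap ℤ_[p] ℚ_[p]) G
  have h1 : (fun i => (G i : ℚ_[p])) = fun i => algebraMap ℤ_[p] ℚ_[p] (G i) := rfl
  rw [h1, ← h]
  ext i j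
  simp only [Matrix.map_apply, Matrix.smul_apply, smul_eq_mul, map_mul]
  rfl

private theorem kresg_det_gen {p : ℕ} [Fact p.Prime] {k : ℕ}
    (G : Fin (k + 1) → ℤ_[p]) : (hk1 G).det = (-1) ^ (k + 1) * G 0 * dM G := by
  apply IsFractionRing.injective ℤ_[p] ℚ_[p]
  have h1 := det_hk1 (K := ℚ_[p]) (fun i => algebraMap ℤ_[p] ℚ_[p] (G i))
  rw [← hk1_map, ← hk_map, uuni_map_det, uuni_map_det] at h1
  rw [h1, map_mul, map_mul, map_pow, map_neg, map_one]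
  rfl

private theorem kresg_det {p : ℕ} [Fact p.Prime] {k : ℕ} (hev : Even (k + 1))
    (G : Fin (k + 1) → ℤ_[p]) : (hk1 G).det = G 0 * dM G := by
  rw [kresg_det_gen, hev.neg_one_pow, one_mul]

private theorem kresg_unit {p : ℕ} [Fact p.Prime] {u : ℤ_[p]} (hu : IsUnit u) :
    resW p (cl (u : ℚ_[p])) = 0 := by
  apply resW_cl_unit
  have := PadicInt.isUnit_iff.mp hu
  rwa [PadicInt.norm_def] at this

private theorem kresg_det_smul {R : Type*} [CommRing R] {n : ℕ} (c : R)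
    (A : Matrix (Fin n) (Fin n) R) : (c • A).det = c ^ n * A.det := by
  rw [Matrix.det_smul, Fintype.card_fin]

private theorem kresg_sub_smul {R : Type*} [CommRing R] {k : ℕ} (c : R)
    (A : Matrix (Fin (k + 1)) (Fin (k + 1)) R) :
    ((c • A).submatrix (Fin.castSucc : Fin k → Fin (k + 1)) Fin.castSucc).det =
      c ^ k * (A.submatrix (Fin.castSucc : Fin k → Fin (k + 1)) Fin.castSucc).det := by
  have h : (c • A).submatrix (Fin.castSucc : Fin k → Fin (k + 1)) Fin.castSucc =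
      c • A.submatrix (Fin.castSucc : Fin k → Fin (k + 1)) Fin.castSucc := rfl
  rw [h, kresg_det_smul]

private theorem kresg_core {p : ℕ} [Fact p.Prime] (hp : p ≠ 2) {k : ℕ} {c : ℤ_[p]} (l : ℚ_[p])
    (hc : IsUnit c) (G : Fin (k + 1) → ℤ_[p]) (h0 : IsUnit (G 0)) :
    resW p (coreF (c : ℚ_[p]) l fun i => (G i : ℚ_[p])) =
      resW p (cls ((2 : ℚ_[p]) • hk fun i => (G i : ℚ_[p]))) +
        resW p (cls ((-2 * l) • hk1 fun i => (G i : ℚ_[p]))) := by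
  unfold coreF
  rw [map_add, map_add, map_add]
  have h2 := kresg_two hp
  have e1 : resW p (cl (2 : ℚ_[p])) = 0 := by
    have h := kresg_unit h2
    rwa [show ((2 : ℤ_[p]) : ℚ_[p]) = 2 from rfl] at h
  have e2 : resW p (cl (2 * (c : ℚ_[p]) * cf (fun i => (G i : ℚ_[p])) 0)) = 0 := by
    have h := kresg_unit ((h2.mul hc).mul h0)
    have h3 : ((2 * c * G 0 : ℤ_[p]) : ℚ_[p]) =
        2 * (c : ℚ_[p]) * cf (fun i => (G i : ℚ_[p])) 0 := by
      rw [PadicInt.coe_mul, PadicInt.coe_mul]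
      rfl
    rwa [h3] at h
  rw [e1, e2, zero_add, zero_add]

theorem res_good {p : ℕ} [Fact p.Prime] (hp : p ≠ 2) {k : ℕ} (hev : Even (k + 1)) {c l : ℤ_[p]}
    (hc : IsUnit c) (hl : IsUnit l) (G : Fin (k + 1) → ℤ_[p]) (h0 : IsUnit (G 0))
    (hM : dM G ≠ 0)
    (hcase : IsUnit (dM G) ∨ (IsUnit (dA G) ∧ IsUnit (dB G) ∧
      IsSquare (PadicInt.toZMod (l * G 0 * dA G * dB G)))) :
    resW p (coreF (c : ℚ_[p]) (l : ℚ_[p]) fun i => (G i : ℚ_[p])) = 0 := by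
  have h2 := kresg_two hp
  have hm2l : IsUnit (-2 * l) := h2.neg.mul hl
  have hcoe : (-2 * (l : ℚ_[p])) = ((-2 * l : ℤ_[p]) : ℚ_[p]) := by
    rw [PadicInt.coe_mul]
    rfl
  have hcoe2 : (2 : ℚ_[p]) = ((2 : ℤ_[p]) : ℚ_[p]) := rfl
  rw [kresg_core hp _ hc G h0, hcoe, hcoe2, ← kresg_hk_map, ← kresg_hk1_map]
  have s1 := kresg_smul_symm (2 : ℤ_[p]) (kresg_hk_symm G)
  have s2 := kresg_smul_symm (-2 * l : ℤ_[p]) (kresg_hk1_symm G)
  have d1 : ((2 : ℤ_[p]) • hk G).det = 2 ^ (k + 1) * dM G := kresg_det_smul _ _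
  have d2 : ((-2 * l : ℤ_[p]) • hk1 G).det = (-2 * l) ^ (k + 1) * (G 0 * dM G) := by
    rw [kresg_det_smul, kresg_det hev]
  have m1 : (((2 : ℤ_[p]) • hk G).submatrix (Fin.castSucc : Fin k → Fin (k + 1))
      Fin.castSucc).det = 2 ^ k * dA G := kresg_sub_smul _ _
  have m2 : (((-2 * l : ℤ_[p]) • hk1 G).submatrix (Fin.castSucc : Fin k → Fin (k + 1))
      Fin.castSucc).det = (-2 * l) ^ k * dB G := kresg_sub_smul _ _
  rcases hcase with hu | ⟨hA, hB, hsq⟩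
  · rw [res_unimodular hp s1 (by rw [d1]; exact (h2.pow _).mul hu),
      res_unimodular hp s2 (by rw [d2]; exact (hm2l.pow _).mul (h0.mul hu)), add_zero]
  · have n1 : ((2 : ℤ_[p]) • hk G).det ≠ 0 := by
      rw [d1]
      exact mul_ne_zero (h2.pow _).ne_zero hM
    have n2 : ((-2 * l : ℤ_[p]) • hk1 G).det ≠ 0 := by
      rw [d2]
      exact mul_ne_zero (hm2l.pow _).ne_zero (mul_ne_zero h0.ne_zero hM)
    have u1 : IsUnit (((2 : ℤ_[p]) • hk G).submatrix (Fin.castSucc : Fin k → Fin (k + 1))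
        Fin.castSucc).det := by
      rw [m1]
      exact (h2.pow _).mul hA
    have u2 : IsUnit (((-2 * l : ℤ_[p]) • hk1 G).submatrix (Fin.castSucc : Fin k → Fin (k + 1))
        Fin.castSucc).det := by
      rw [m2]
      exact (hm2l.pow _).mul hB
    rw [res_minor hp s1 n1 u1, res_minor hp s2 n2 u2, d1, d2, m1, m2]
    obtain ⟨r, hr, hrsq⟩ := isSquare_of_toZMod hp (((hl.mul h0).mul hA).mul hB) hsq
    have hA0 : ((dA G : ℤ_[p]) : ℚ_[p]) ≠ 0 := runit_coe_ne p _ hA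
    have hl0 : (l : ℚ_[p]) ≠ 0 := runit_coe_ne p _ hl
    have htwo : (2 : ℚ_[p]) ≠ 0 := two_ne_zero
    have e1 : algebraMap ℤ_[p] ℚ_[p] (2 ^ (k + 1) * dM G * (2 ^ k * dA G)) =
        (2 * ((dM G : ℤ_[p]) : ℚ_[p]) * ((dA G : ℤ_[p]) : ℚ_[p])) * (2 ^ k) ^ 2 := by
      change ((2 ^ (k + 1) * dM G * (2 ^ k * dA G) : ℤ_[p]) : ℚ_[p]) = _
      simp only [PadicInt.coe_mul, PadicInt.coe_pow]
      rw [← hcoe2]
      ring
    have e2 : algebraMap ℤ_[p] ℚ_[p] ((-2 * l) ^ (k + 1) * (G 0 * dM G) * ((-2 * l) ^ k * dB G)) =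
        (-(2 * ((dM G : ℤ_[p]) : ℚ_[p]) * ((dA G : ℤ_[p]) : ℚ_[p]))) *
          ((-2 * (l : ℚ_[p])) ^ k * (r / ((dA G : ℤ_[p]) : ℚ_[p]))) ^ 2 := by
      have h5 : ((l * G 0 * dA G * dB G : ℤ_[p]) : ℚ_[p]) =
        (l : ℚ_[p]) * (G 0 : ℚ_[p]) * ((dA G : ℤ_[p]) : ℚ_[p]) * ((dB G : ℤ_[p]) : ℚ_[p]) := by
        push_cast
        ring
      rw [h5] at hrsq
      change (((-2 * l) ^ (k + 1) * (G 0 * dM G) * ((-2 * l) ^ k * dB G) : ℤ_[p]) : ℚ_[p]) = _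
      rw [mul_pow _ (r / ((dA G : ℤ_[p]) : ℚ_[p])), div_pow, hrsq, PadicInt.coe_mul,
        PadicInt.coe_mul, PadicInt.coe_mul, PadicInt.coe_mul, PadicInt.coe_pow, PadicInt.coe_pow,
        ← hcoe, pow_succ]
      generalize (-2 * (l : ℚ_[p])) ^ k = z
      field_simp
    rw [e1, e2, cl_mul_sq _ (pow_ne_zero _ htwo), cl_mul_sq _ (mul_ne_zero (pow_ne_zero _
      (mul_ne_zero (neg_ne_zero.mpr htwo) hl0)) (div_ne_zero hr hA0)), ← map_add,
      cl_neg htwo, map_zero]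

theorem res_ell {l : ℕ} [Fact l.Prime] (hl : l ≠ 2) {k : ℕ} {c : ℤ_[l]}
    (hc : IsUnit c) (G : Fin (k + 1) → ℤ_[l]) (h0 : IsUnit (G 0)) (hM : IsUnit (dM G)) :
    ∃ u : Fin (k + 1) → ZMod l, (∀ i, u i ≠ 0) ∧
      resW l (coreF (c : ℚ_[l]) ((l : ℕ) : ℚ_[l]) fun i => (G i : ℚ_[l])) = ∑ i, cl (u i) := by
  have h2 := kresg_two hl
  have hcoe2 : (2 : ℚ_[l]) = ((2 : ℤ_[l]) : ℚ_[l]) := rfl
  have s1 := kresg_smul_symm (2 : ℤ_[l]) (kresg_hk_symm G)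
  have s2 := kresg_smul_symm (-2 : ℤ_[l]) (kresg_hk1_symm G)
  have d1 : ((2 : ℤ_[l]) • hk G).det = 2 ^ (k + 1) * dM G := kresg_det_smul _ _
  have d2 : IsUnit ((-2 : ℤ_[l]) • hk1 G).det := by
    rw [kresg_det_smul, kresg_det_gen]
    exact (h2.neg.pow _).mul ((((isUnit_one).neg).pow _).mul h0 |>.mul hM)
  obtain ⟨u, hu, h⟩ := res_smul_unimodular hl s2 d2
  refine ⟨u, hu, ?_⟩
  rw [kresg_core hl _ hc G h0]
  have e1 : resW l (cls ((2 : ℚ_[l]) • hk fun i => (G i : ℚ_[l]))) = 0 := by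
    have h3 := res_unimodular hl s1 (by rw [d1]; exact (h2.pow _).mul hM)
    rwa [kresg_hk_map] at h3
  have h4 : ((-2 : ℤ_[l]) : ℚ_[l]) = -2 := by
    push_cast
    rfl
  rw [e1, zero_add, ← h, kresg_hk1_map, smul_smul, h4, mul_comm (-2 : ℚ_[l])]

end SpinWA
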