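import Pool.Agent.H.MP_83e36b_nt.sp.KResG
import Pool.Agent.H.MP_83e36b_nt.sp.KMod

/-!
# Residues at the primes where the parameter is large

PROOF. `m = k + 1` even, `π = p^(2N) = (p^N)^2`, `Ĝ = scl π G`: `Ĝ_i = π^(m-i) G_i`. By the hypotheses
`Ĝ_i ∈ p ℤ_p` for `i ≠ 1` and `Ĝ_1 = -θ`, `θ` a unit of `ℤ_p` with `θ ≡ c` modulo `p`. So `Ĝ` is
integral and its reduction modulo `p` is `lineP 0 (-θ) 0`. By `lineP_mod` (`k < p`, so `k ≠ 0` in
`ZMod p`) and `dM_map`, `dB_map` for `PadicInt.toZMod`: `dM Ĝ`, `dB Ĝ` are units and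
`dM Ĝ * dB Ĝ ≡ θ s^2`. In particular `dM G ≠ 0` (`det_hk_scl`).
`cls (2 • hk G) = cls (2 • hk Ĝ)` (`cls_hk_scl`), residue 0 by `res_unimodular`.
`cls ((-2 l) • hk1 G) = cls ((-2 l) • hk1 Ĝ)`: `cls_hk1_scl` with the factor `π = (p^N)^2` a square
(`cls_smul_mul_sq`). Its residue is, by `res_minor`, that of
`cl ((-2 l)^m det (hk1 Ĝ) (-2 l)^k dB Ĝ)`, `det (hk1 Ĝ) = Ĝ_0 dM Ĝ` (`det_hk1`, `m` even),
`Ĝ_0 = π^m G_0`, so up to squares it is `cl (-2 l G_0 (dM Ĝ dB Ĝ))`. (Careful: `l` is a unit, since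
`‖l - 1‖ < 1`, as is `2`; `(-2 l) • hk1 Ĝ` is the image of an integral matrix.) Now `l` is a square
(`isSquare_of_norm`), and `dM Ĝ dB Ĝ / c` is a unit whose reduction `θ s^2/θ = s^2` is a square, so
it is a square (`isSquare_of_toZMod`). So the class is `cl (-2 c G_0)`, and
`cl (2 c G_0) + cl (-2 c G_0) = 0` (`cl_neg`). `cl 2`: residue 0 (`resW_cl_unit`).
-/

open Matrix Polynomial

namespace SpinWA

/-- Integers of norm less than one have reduction zero. -/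
private theorem KResT_red {p : ℕ} [Fact p.Prime] {x : ℤ_[p]} (h : ‖x‖ < 1) :
    PadicInt.toZMod x = 0 := by
  by_contra h1
  have h2 := (runit_isUnit_iff p x).2 h1
  rw [PadicInt.isUnit_iff] at h2
  exact absurd h2 h.ne

/-- The scaled polynomial is integral, with known reduction. -/
private theorem KResT_int {p : ℕ} [Fact p.Prime] {k : ℕ} {c π : ℚ_[p]} (hc : ‖c‖ = 1)
    (G : Fin (k + 1) → ℚ_[p])
    (h1 : ∀ i : Fin (k + 1), (i : ℕ) = 1 → ‖G i * π ^ k + c‖ < 1)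
    (hi : ∀ i : Fin (k + 1), (i : ℕ) ≠ 1 → ‖G i * π ^ (k + 1 - (i : ℕ))‖ < 1) :
    ∃ (g : Fin (k + 1) → ℤ_[p]) (c' : ℤ_[p]), (c' : ℚ_[p]) = c ∧ IsUnit c' ∧
      (∀ i, ((g i : ℤ_[p]) : ℚ_[p]) = scl π G i) ∧
      (fun i => PadicInt.toZMod (g i)) = lineP 0 (-(PadicInt.toZMod c')) 0 := by
  have hint : ∀ i : Fin (k + 1), ‖scl π G i‖ ≤ 1 := by
    intro i
    unfold scl
    rw [mul_comm]
    by_cases h : (i : ℕ) = 1
    · have h2 := h1 i h
      have e : G i * π ^ (k + 1 - (i : ℕ)) = (G i * π ^ k + c) + (-c) := by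
        rw [h, Nat.add_sub_cancel]; ring
      rw [e]
      refine (Padic.nonarchimedean _ _).trans ?_
      rw [norm_neg, hc]
      exact max_le h2.le le_rfl
    · exact (hi i h).le
  refine ⟨fun i => ⟨scl π G i, hint i⟩, ⟨c, hc.le⟩, rfl, ?_, fun i => rfl, ?_⟩
  · rw [PadicInt.isUnit_iff, PadicInt.norm_def]
    exact hc
  · funext i
    unfold lineP
    by_cases h : (i : ℕ) = 1
    · rw [if_neg (by omega), if_pos h, eq_neg_iff_add_eq_zero, ← map_add]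
      apply KResT_red
      rw [PadicInt.norm_def]
      show ‖scl π G i + c‖ < 1
      have h2 := h1 i h
      unfold scl
      rw [h, Nat.add_sub_cancel, mul_comm]
      exact h2
    · have e : (if (i : ℕ) = 0 then (0 : ZMod p) else if (i : ℕ) = 1 then
          (-(PadicInt.toZMod (⟨c, hc.le⟩ : ℤ_[p]))) else (0 : Fin (k + 1) → ZMod p) i) = 0 := by
        split_ifs <;> rfl
      rw [e]
      apply KResT_red
      rw [PadicInt.norm_def]
      show ‖scl π G i‖ < 1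
      have h2 := hi i h
      unfold scl
      rw [mul_comm]
      exact h2

/-- The determinants of the scaled polynomial. -/
private theorem KResT_units {p : ℕ} [Fact p.Prime] {k : ℕ} (hev : Even (k + 1)) (hkp : k + 1 < p)
    {g : Fin (k + 1) → ℤ_[p]} {c' : ℤ_[p]} (hc' : IsUnit c')
    (hg : (fun i => PadicInt.toZMod (g i)) = lineP 0 (-(PadicInt.toZMod c')) 0) :
    IsUnit (dM g) ∧ IsUnit (dB g) ∧
      ∃ s : ZMod p, s ≠ 0 ∧ PadicInt.toZMod (dM g * dB g) = PadicInt.toZMod c' * s ^ 2 := by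
  have hk0 : 0 < k := by
    rcases Nat.eq_zero_or_pos k with h | h
    · subst h
      exact absurd hev (by decide)
    · exact h
  have hkF : (k : ZMod p) ≠ 0 := by
    intro h
    rw [ZMod.natCast_eq_zero_iff] at h
    have := Nat.le_of_dvd hk0 h
    omega
  have hθ : PadicInt.toZMod c' ≠ 0 := (runit_isUnit_iff p c').1 hc'
  obtain ⟨hM, hB, s, hs, hMB⟩ := lineP_mod hev hkF hθ
  have e1 : PadicInt.toZMod (dM g) = dM (lineP 0 (-(PadicInt.toZMod c')) 0 : Fin (k + 1) → ZMod p) := by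
    rw [dM_map, hg]
  have e2 : PadicInt.toZMod (dB g) = dB (lineP 0 (-(PadicInt.toZMod c')) 0 : Fin (k + 1) → ZMod p) := by
    rw [dB_map, hg]
  refine ⟨?_, ?_, s, hs, ?_⟩
  · rw [runit_isUnit_iff, e1]; exact hM
  · rw [runit_isUnit_iff, e2]; exact hB
  · rw [map_mul, e1, e2]; exact hMB

theorem res_T {p : ℕ} [Fact p.Prime] (hp : p ≠ 2) {k : ℕ} (hev : Even (k + 1)) (hkp : k + 1 < p)
    {c l : ℚ_[p]} (hc : ‖c‖ = 1) (hl : ‖l - 1‖ < 1) (N : ℕ) (G : Fin (k + 1) → ℚ_[p])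
    (h0 : G 0 ≠ 0)
    (h1 : ∀ i : Fin (k + 1), (i : ℕ) = 1 → ‖G i * ((p : ℚ_[p]) ^ (2 * N)) ^ k + c‖ < 1)
    (hi : ∀ i : Fin (k + 1), (i : ℕ) ≠ 1 →
      ‖G i * ((p : ℚ_[p]) ^ (2 * N)) ^ (k + 1 - (i : ℕ))‖ < 1) :
    (hk G).det ≠ 0 ∧ resW p (coreF c l G) = 0 := by
  have hpF : (p : ℚ_[p]) ≠ 0 := runit_p_ne p
  obtain ⟨q, hq0, hq⟩ : ∃ q : ℚ_[p], q ≠ 0 ∧ (p : ℚ_[p]) ^ (2 * N) = q ^ 2 :=
    ⟨(p : ℚ_[p]) ^ N, pow_ne_zero _ hpF, by rw [← pow_mul, mul_comm]⟩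
  rw [hq] at h1 hi
  set π : ℚ_[p] := q ^ 2 with hπdef
  have hπ : π ≠ 0 := pow_ne_zero _ hq0
  obtain ⟨g, c', hcc', hc'u, hg, hred⟩ := KResT_int hc G h1 hi
  obtain ⟨hMu, hBu, s, hs, hMB⟩ := KResT_units hev hkp hc'u hred
  have h2F : (2 : ℚ_[p]) ≠ 0 := two_ne_zero
  -- the unit `2`
  have h2u : IsUnit (2 : ℤ_[p]) := by
    rw [runit_isUnit_iff, map_ofNat]
    intro h
    have h3 : ((2 : ℕ) : ZMod p) = 0 := by exact_mod_cast h
    rw [ZMod.natCast_eq_zero_iff] at h3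
    exact hp ((Nat.prime_dvd_prime_iff_eq (Fact.out : p.Prime) Nat.prime_two).1 h3)
  have hn2 : ‖(2 : ℚ_[p])‖ = 1 := by
    have h3 := PadicInt.isUnit_iff.1 h2u
    rw [PadicInt.norm_def] at h3
    exact h3
  -- `l` is a unit and a square
  obtain ⟨rl, hrl0, hrl⟩ := isSquare_of_norm hp hl
  have hln : ‖l‖ ≤ 1 := by
    have e : l = (l - 1) + 1 := by ring
    rw [e]
    refine (Padic.nonarchimedean _ _).trans ?_
    rw [norm_one]
    exact max_le hl.le le_rfl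
  obtain ⟨l', hl'⟩ : ∃ l' : ℤ_[p], (l' : ℚ_[p]) = l := ⟨⟨l, hln⟩, rfl⟩
  have hl'u : IsUnit l' := by
    rw [runit_isUnit_iff]
    have h4 : PadicInt.toZMod (l' - 1) = 0 := by
      apply KResT_red
      rw [PadicInt.norm_def, PadicInt.coe_sub, PadicInt.coe_one, hl']
      exact hl
    rw [map_sub, map_one, sub_eq_zero] at h4
    rw [h4]
    exact one_ne_zero
  have hl0 : l ≠ 0 := by rw [← hrl]; exact pow_ne_zero _ hrl0
  have h2l : (-2 * l : ℚ_[p]) ≠ 0 := mul_ne_zero (neg_ne_zero.2 h2F) hl0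
  have hc0 : c ≠ 0 := by
    intro h
    rw [h, norm_zero] at hc
    exact zero_ne_one hc
  -- the matrices over the integers
  have ehk : hk (scl π G) = (hk g).map (algebraMap ℤ_[p] ℚ_[p]) := by
    rw [hk_map]
    congr 1
    funext i
    exact (hg i).symm
  have ehk1 : hk1 (scl π G) = (hk1 g).map (algebraMap ℤ_[p] ℚ_[p]) := by
    rw [hk1_map]
    congr 1
    funext i
    exact (hg i).symm
  have hdetS : (hk (scl π G)).det = algebraMap ℤ_[p] ℚ_[p] (dM g) := by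
    rw [ehk, uuni_map_det]
    rfl
  have hdetS0 : (hk (scl π G)).det ≠ 0 := by
    rw [hdetS]
    exact uuni_inj hMu.ne_zero
  have hdet : (hk G).det ≠ 0 := (det_hk_scl hπ G).1 hdetS0
  refine ⟨hdet, ?_⟩
  have hcf : cf G 0 = G 0 := by
    unfold cf
    rw [dif_pos (Nat.succ_pos k)]
    rfl
  have hcfS : cf (scl π G) 0 = π ^ (k + 1) * G 0 := by rw [cf_scl, hcf]
  have hsgn : ((-1 : ℚ_[p])) ^ (k + 1) = 1 := hev.neg_one_pow
  have hdet1 : (hk1 G).det ≠ 0 := by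
    rw [det_hk1, hcf, hsgn, one_mul]
    exact mul_ne_zero h0 hdet
  have hdet1S : (hk1 (scl π G)).det = π ^ (k + 1) * G 0 * algebraMap ℤ_[p] ℚ_[p] (dM g) := by
    rw [det_hk1, hcfS, hsgn, one_mul, hdetS]
  have hdet1g : algebraMap ℤ_[p] ℚ_[p] (hk1 g).det =
      π ^ (k + 1) * G 0 * algebraMap ℤ_[p] ℚ_[p] (dM g) := by
    rw [← hdet1S, ehk1, uuni_map_det]
  have hdet1g0 : (hk1 g).det ≠ 0 := by
    intro h
    rw [h, map_zero] at hdet1g
    exact mul_ne_zero (mul_ne_zero (pow_ne_zero _ hπ) h0) (uuni_inj hMu.ne_zero) hdet1g.symm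
  -- the first term
  have t1 : resW p (cl 2) = 0 := resW_cl_unit hn2
  -- the third term
  have t3 : resW p (cls ((2 : ℚ_[p]) • hk G)) = 0 := by
    rw [← cls_hk_scl h2F hπ G hdet h2F, ehk]
    have e : (2 : ℚ_[p]) • (hk g).map (algebraMap ℤ_[p] ℚ_[p]) =
        ((2 : ℤ_[p]) • hk g).map (algebraMap ℤ_[p] ℚ_[p]) := by
      ext i j
      simp only [Matrix.smul_apply, Matrix.map_apply, smul_eq_mul, map_mul, map_ofNat]
    rw [e]
    apply res_unimodular hp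
    · rw [transpose_smul, hk_transpose]
    · rw [det_smul]
      exact (h2u.pow _).mul hMu
  -- the unit `dM dB / c`
  obtain ⟨d, hd⟩ := hc'u.exists_right_inv
  have hdu : IsUnit d := IsUnit.of_mul_eq_one c' (by rw [mul_comm]; exact hd)
  obtain ⟨r, hr0, hr⟩ := isSquare_of_toZMod hp (a := dM g * dB g * d) ((hMu.mul hBu).mul hdu) (by
    have h5 : PadicInt.toZMod c' * PadicInt.toZMod d = 1 := by rw [← map_mul, hd, map_one]
    refine ⟨s, ?_⟩
    rw [map_mul, hMB]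
    linear_combination s ^ 2 * h5)
  have hMBc : algebraMap ℤ_[p] ℚ_[p] (dM g) * algebraMap ℤ_[p] ℚ_[p] (dB g) = c * r ^ 2 := by
    rw [hr, ← hcc']
    show ((dM g : ℤ_[p]) : ℚ_[p]) * ((dB g : ℤ_[p]) : ℚ_[p]) = _
    have h6 : ((c' : ℤ_[p]) : ℚ_[p]) * (d : ℚ_[p]) = 1 := by
      rw [← PadicInt.coe_mul, hd, PadicInt.coe_one]
    rw [PadicInt.coe_mul, PadicInt.coe_mul]
    linear_combination (-((dM g : ℤ_[p]) : ℚ_[p]) * ((dB g : ℤ_[p]) : ℚ_[p])) * h6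
  -- the fourth term
  have t4 : resW p (cls ((-2 * l) • hk1 G)) = resW p (cl (-(2 * c * G 0))) := by
    have e1 : cls ((-2 * l) • hk1 G) = cls ((-2 * l) • hk1 (scl π G)) := by
      rw [cls_hk1_scl h2F hπ G hdet1 h2l, hπdef,
        cls_smul_mul_sq h2F (hk1_transpose G) hdet1 h2l hq0]
    have e2 : (-2 * l) • hk1 (scl π G) =
        ((-2 * l') • hk1 g).map (algebraMap ℤ_[p] ℚ_[p]) := by
      rw [ehk1]
      ext i j
      simp only [Matrix.smul_apply, Matrix.map_apply, smul_eq_mul, map_mul, map_neg, map_ofNat]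
      rw [← hl']
      rfl
    have h2lu : IsUnit (-2 * l' : ℤ_[p]) := (h2u.neg).mul hl'u
    have hsub : (((-2 * l') • hk1 g).submatrix (Fin.castSucc : Fin k → Fin (k + 1))
        Fin.castSucc).det = (-2 * l') ^ k * dB g := by
      have e3 : ((-2 * l') • hk1 g).submatrix (Fin.castSucc : Fin k → Fin (k + 1)) Fin.castSucc
          = (-2 * l') • (hk1 g).submatrix (Fin.castSucc : Fin k → Fin (k + 1)) Fin.castSucc := rfl
      rw [e3, det_smul, Fintype.card_fin]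
      rfl
    have hfull : ((-2 * l') • hk1 g).det = (-2 * l') ^ (k + 1) * (hk1 g).det := by
      rw [det_smul, Fintype.card_fin]
    rw [e1, e2, res_minor hp (by rw [transpose_smul, hk1_transpose])
      (by rw [hfull]; exact mul_ne_zero (h2lu.pow _).ne_zero hdet1g0)
      (by rw [hsub]; exact (h2lu.pow _).mul hBu)]
    congr 1
    have e4 : algebraMap ℤ_[p] ℚ_[p] (((-2 * l') • hk1 g).det *
        (((-2 * l') • hk1 g).submatrix (Fin.castSucc : Fin k → Fin (k + 1))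
        Fin.castSucc).det) = (-(2 * c * G 0)) * ((-2 * l) ^ k * rl * q ^ (k + 1) * r) ^ 2 := by
      rw [hfull, hsub]
      have e5 : algebraMap ℤ_[p] ℚ_[p] l' = l := hl'
      simp only [map_mul, map_pow, map_neg, map_ofNat, e5, hdet1g]
      rw [hπdef]
      have e6 : (-2 * l) ^ (k + 1) * ((q ^ 2) ^ (k + 1) * G 0 * algebraMap ℤ_[p] ℚ_[p] (dM g)) *
          ((-2 * l) ^ k * algebraMap ℤ_[p] ℚ_[p] (dB g)) =
          (-2 * l) ^ (k + 1) * (-2 * l) ^ k * (q ^ 2) ^ (k + 1) * G 0 *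
          (algebraMap ℤ_[p] ℚ_[p] (dM g) * algebraMap ℤ_[p] ℚ_[p] (dB g)) := by ring
      rw [e6, hMBc]
      have e7 : ((-2 * l) ^ k * rl * q ^ (k + 1) * r) ^ 2 =
          ((-2 * l) ^ k) ^ 2 * l * (q ^ (k + 1)) ^ 2 * r ^ 2 := by rw [← hrl]; ring
      rw [e7]
      ring
    rw [e4, cl_mul_sq]
    exact mul_ne_zero (mul_ne_zero (mul_ne_zero (pow_ne_zero _ h2l) hrl0) (pow_ne_zero _ hq0)) hr0
  unfold coreF
  rw [map_add, map_add, map_add, t1, t3, t4, hcf, zero_add, add_zero, ← map_add, cl_neg h2F,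
    map_zero]

end SpinWA
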