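import Pool.Agent.H.MP_83e36b_nt.sp.PDefs

/-!
# Choice of the parameter

PROOF. Let `S'` be the set of the primes in `S`. Choose rationals `y_p` close to `x_p` for `p ∈ S'`
(`ℚ` is dense in `ℚ_[p]`), a positive integer `E` with all prime factors in `S'` such that
`E y_p` is `p`-integral for all `p ∈ S'` (product of powers of the `p ∈ S'`). For `N ≥ N0` let
`D = ∏_{q ∈ T} q^(2 N e)`. We look for `t = u / (D E)` with an integer `u`. Conditions: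
(i) `p ∈ S'`: `‖t - y_p‖_p` small: since `‖D‖_p = 1` this is implied by `u ≡ D E y_p` modulo `p^K`,
`K` large but independent of `N` (`p^{-K} < ε ‖E‖_p`);
(ii) `p ∈ T`: `t p^(2Ne) = u / (E ∏_{q ∈ T, q ≠ p} q^(2Ne))` must be `≡ -c` modulo `p`, i.e.
`u ≡ - c E ∏_{q ≠ p} q^(2Ne)` modulo `p` (a class modulo `p` since `c` is a `p`-unit);
(iii) `p ∉ S' ∪ T`: `‖t‖_p ≤ 1` automatically.
(iv) the real place: `|t - x_∞| < ε`.
By the Chinese remainder theorem (i), (ii) are satisfied by all `u` in one residue class modulo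
`M = ∏_{p ∈ S'} p^K ∏_{p ∈ T} p`, which does not depend on `N`. There is such a `u` with
`|u - D E x_∞| ≤ M`, so `|t - x_∞| ≤ M / (D E) < ε` for `N` large, since `D ≥ 2^(2Ne)`, `T ≠ ∅`,
`e > 0`.
It may be convenient to use `ZMod`/`PadicInt` reductions (`PadicInt.appr`, `zmod_cast...`) or to
choose integers `z_p` with `‖E y_p - z_p‖_p` small.
-/

open Topology

namespace SpinWA

private theorem KT_nat {p : ℕ} [Fact p.Prime] {z : ℚ_[p]} (hz : ‖z‖ ≤ 1) (n : ℕ) :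
    ∃ a : ℕ, ‖z - (a : ℚ_[p])‖ ≤ (p : ℝ) ^ (-n : ℤ) := by
  refine ⟨PadicInt.appr (⟨z, hz⟩ : ℤ_[p]) n, ?_⟩
  have h := PadicInt.appr_spec n (⟨z, hz⟩ : ℤ_[p])
  rw [← PadicInt.norm_le_pow_iff_mem_span_pow] at h
  exact h

private theorem KT_one (q p : Nat.Primes) (h : p ≠ q) :
    ‖(((p : ℕ) : ℚ_[(q : ℕ)]))‖ = 1 := by
  rw [Padic.norm_natCast_eq_one_iff]
  exact (Nat.coprime_primes q.2 p.2).2 (fun h1 => h (Subtype.ext h1.symm))

private theorem KT_prod (A : Finset Nat.Primes) (f : Nat.Primes → ℕ) (q : Nat.Primes)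
    (h : q ∉ A) : ‖((∏ p ∈ A, (p : ℕ) ^ f p : ℕ) : ℚ_[(q : ℕ)])‖ = 1 := by
  rw [Nat.cast_prod, norm_prod]
  apply Finset.prod_eq_one
  intro p hp
  rw [Nat.cast_pow, norm_pow, KT_one q p (fun h1 => h (h1 ▸ hp)), one_pow]

/-- Approximation with integers. -/
private theorem KT_crt (F : Finset Nat.Primes) (κ : Nat.Primes → ℕ)
    (z : ∀ p : Nat.Primes, ℚ_[(p : ℕ)]) (hz : ∀ p ∈ F, ‖z p‖ ≤ 1) (r : ℝ) :
    ∃ u : ℤ, |(u : ℝ) - r| ≤ ((∏ p ∈ F, (p : ℕ) ^ κ p : ℕ) : ℝ) ∧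
      ∀ p ∈ F, ‖z p - (u : ℚ_[(p : ℕ)])‖ ≤ ((p : ℕ) : ℝ) ^ (-(κ p) : ℤ) := by
  classical
  have hex : ∀ p : Nat.Primes, ∃ a : ℕ, p ∈ F →
      ‖z p - (a : ℚ_[(p : ℕ)])‖ ≤ ((p : ℕ) : ℝ) ^ (-(κ p) : ℤ) := by
    intro p
    by_cases hp : p ∈ F
    · obtain ⟨a, ha⟩ := KT_nat (hz p hp) (κ p)
      exact ⟨a, fun _ => ha⟩
    · exact ⟨0, fun h => absurd h hp⟩
  choose a ha using hex
  obtain ⟨k, hk⟩ := Nat.chineseRemainderOfFinset a (fun p : Nat.Primes => (p : ℕ) ^ κ p) F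
    (fun p _ => pow_ne_zero _ p.2.ne_zero)
    (fun p _ q _ hpq => Nat.Coprime.pow _ _ ((Nat.coprime_primes p.2 q.2).2
      (fun h1 => hpq (Subtype.ext h1))))
  set M : ℕ := ∏ p ∈ F, (p : ℕ) ^ κ p with hM
  have hMpos : 0 < M := Finset.prod_pos fun p _ => pow_pos p.2.pos _
  have hMR : (0 : ℝ) < (M : ℝ) := by exact_mod_cast hMpos
  refine ⟨(k : ℤ) + M * ⌊(r - k) / M⌋, ?_, ?_⟩
  · have h1 := Int.floor_le ((r - k) / M)
    have h2 := Int.lt_floor_add_one ((r - k) / M)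
    rw [le_div_iff₀ hMR] at h1
    rw [div_lt_iff₀ hMR] at h2
    rw [abs_le]
    push_cast
    constructor <;> nlinarith
  · intro p hp
    have h1 : (((p : ℕ) ^ κ p : ℕ) : ℤ) ∣ ((k : ℤ) + M * ⌊(r - k) / M⌋) - a p := by
      have h2 : (((p : ℕ) ^ κ p : ℕ) : ℤ) ∣ (k : ℤ) - a p := by
        have h3 := (Nat.modEq_iff_dvd.1 (hk p hp).symm)
        exact h3
      have h4 : (((p : ℕ) ^ κ p : ℕ) : ℤ) ∣ (M : ℤ) := by
        exact_mod_cast Finset.dvd_prod_of_mem (fun p : Nat.Primes => (p : ℕ) ^ κ p) hp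
      have h5 : ((k : ℤ) + M * ⌊(r - k) / M⌋) - a p = ((k : ℤ) - a p) + M * ⌊(r - k) / M⌋ := by
        ring
      rw [h5]
      exact dvd_add h2 (h4.mul_right _)
    have h6 : ‖((((k : ℤ) + M * ⌊(r - k) / M⌋) - a p : ℤ) : ℚ_[(p : ℕ)])‖ ≤
        ((p : ℕ) : ℝ) ^ (-(κ p) : ℤ) := by
      rw [Padic.norm_int_le_pow_iff_dvd]
      exact_mod_cast h1
    have h7 : z p - (((k : ℤ) + M * ⌊(r - k) / M⌋ : ℤ) : ℚ_[(p : ℕ)]) =
        (z p - (a p : ℚ_[(p : ℕ)])) -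
          ((((k : ℤ) + M * ⌊(r - k) / M⌋) - a p : ℤ) : ℚ_[(p : ℕ)]) := by
      push_cast
      ring
    rw [h7]
    have h8 := Padic.nonarchimedean (z p - (a p : ℚ_[(p : ℕ)]))
      (-((((k : ℤ) + M * ⌊(r - k) / M⌋) - a p : ℤ) : ℚ_[(p : ℕ)]))
    rw [← sub_eq_add_neg, norm_neg] at h8
    exact h8.trans (max_le (ha p hp) h6)

/-- The statement without `Cpl`. -/
private theorem KT_main (S T : Finset Nat.Primes) (hT : T.Nonempty) (hST : ∀ p ∈ T, p ∉ S)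
    (x : ∀ p : Nat.Primes, ℚ_[(p : ℕ)]) (r : ℝ) (K : ℕ) (c : ℚ)
    (hc : ∀ p ∈ T, ‖(c : ℚ_[(p : ℕ)])‖ = 1) {e : ℕ} (he : 0 < e) (N0 : ℕ) :
    ∃ (t : ℚ) (N : ℕ), N0 ≤ N ∧ (∀ p ∈ S, ‖(t : ℚ_[(p : ℕ)]) - x p‖ ≤ (1 / 2) ^ K) ∧
      |(t : ℝ) - r| ≤ (1 / 2) ^ K ∧
      (∀ p : Nat.Primes, p ∉ S → p ∉ T → ‖(t : ℚ_[(p : ℕ)])‖ ≤ 1) ∧
      ∀ p ∈ T, ‖(t : ℚ_[(p : ℕ)]) * (((p : ℕ) : ℚ_[(p : ℕ)]) ^ (2 * N)) ^ e +
        (c : ℚ_[(p : ℕ)])‖ < 1 := by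
  classical
  -- common denominators
  have hLex : ∃ L : ℕ, ∀ p ∈ S, ‖x p‖ ≤ 2 ^ L := by
    have h1 : ∀ p : Nat.Primes, ∃ L : ℕ, ‖x p‖ ≤ 2 ^ L := fun p => by
      obtain ⟨L, hL⟩ := pow_unbounded_of_one_lt ‖x p‖ (by norm_num : (1 : ℝ) < 2)
      exact ⟨L, hL.le⟩
    choose L hL using h1
    refine ⟨S.sup L, fun p hp => (hL p).trans ?_⟩
    exact pow_le_pow_right₀ (by norm_num) (Finset.le_sup hp)
  obtain ⟨L, hL⟩ := hLex
  set E : ℕ := ∏ p ∈ S, (p : ℕ) ^ L with hE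
  have hEpos : 0 < E := Finset.prod_pos fun p _ => pow_pos p.2.pos _
  set κ : Nat.Primes → ℕ := fun p => if p ∈ S then K + L else 1 with hκ
  set M : ℕ := ∏ p ∈ S ∪ T, (p : ℕ) ^ κ p with hM
  set N : ℕ := max N0 (M * 2 ^ K) with hN
  set D : ℕ := ∏ q ∈ T, (q : ℕ) ^ (2 * N * e) with hD
  have hDpos : 0 < D := Finset.prod_pos fun p _ => pow_pos p.2.pos _
  set D' : Nat.Primes → ℕ := fun p => ∏ q ∈ T.erase p, (q : ℕ) ^ (2 * N * e) with hD'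
  have hDD : ∀ p ∈ T, D = (p : ℕ) ^ (2 * N * e) * D' p := fun p hp =>
    (Finset.mul_prod_erase T (fun q : Nat.Primes => (q : ℕ) ^ (2 * N * e)) hp).symm
  -- norms
  have nE : ∀ p : Nat.Primes, p ∉ S → ‖(E : ℚ_[(p : ℕ)])‖ = 1 := fun p hp =>
    KT_prod S (fun _ => L) p hp
  have nD : ∀ p : Nat.Primes, p ∉ T → ‖(D : ℚ_[(p : ℕ)])‖ = 1 := fun p hp =>
    KT_prod T (fun _ => 2 * N * e) p hp
  have nD' : ∀ p : Nat.Primes, ‖(D' p : ℚ_[(p : ℕ)])‖ = 1 := fun p =>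
    KT_prod (T.erase p) (fun _ => 2 * N * e) p (Finset.notMem_erase p T)
  have nES : ∀ p ∈ S, ‖(E : ℚ_[(p : ℕ)])‖ = (((p : ℕ) : ℝ) ^ L)⁻¹ := by
    intro p hp
    have h1 : E = (p : ℕ) ^ L * ∏ q ∈ S.erase p, (q : ℕ) ^ L :=
      (Finset.mul_prod_erase S (fun q : Nat.Primes => (q : ℕ) ^ L) hp).symm
    rw [h1, Nat.cast_mul, norm_mul, KT_prod (S.erase p) (fun _ => L) p
      (Finset.notMem_erase p S), mul_one, Nat.cast_pow, norm_pow, Padic.norm_p, inv_pow]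
  -- the targets
  obtain ⟨u, hu1, hu2⟩ := KT_crt (S ∪ T) κ
    (fun p => if p ∈ S then (D : ℚ_[(p : ℕ)]) * E * x p else - (c : ℚ_[(p : ℕ)]) * E * D' p)
    (by
      intro p hp
      by_cases hpS : p ∈ S
      · rw [if_pos hpS, norm_mul, norm_mul, nD p (fun h => hST p h hpS), one_mul, nES p hpS]
        have h2 : ‖x p‖ ≤ ((p : ℕ) : ℝ) ^ L :=
          (hL p hpS).trans (pow_le_pow_left₀ (by norm_num) (by exact_mod_cast p.2.two_le) L)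
        have h3 : (0 : ℝ) < ((p : ℕ) : ℝ) ^ L := pow_pos (by exact_mod_cast p.2.pos) L
        calc (((p : ℕ) : ℝ) ^ L)⁻¹ * ‖x p‖ ≤ (((p : ℕ) : ℝ) ^ L)⁻¹ * ((p : ℕ) : ℝ) ^ L :=
              mul_le_mul_of_nonneg_left h2 (by positivity)
          _ = 1 := inv_mul_cancel₀ h3.ne'
      · have hpT : p ∈ T := (Finset.mem_union.1 hp).resolve_left hpS
        rw [if_neg hpS, norm_mul, norm_mul, norm_neg, hc p hpT, nE p hpS, nD' p]
        norm_num) (D * E * r)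
  have hDE : (0 : ℝ) < (D : ℝ) * E := by positivity
  have tp : ∀ p : Nat.Primes, (((u : ℚ) / (D * E) : ℚ) : ℚ_[(p : ℕ)]) =
      (u : ℚ_[(p : ℕ)]) / (D * E) := by
    intro p
    push_cast
    rfl
  have hD0 : ∀ p : Nat.Primes, (D : ℚ_[(p : ℕ)]) ≠ 0 := fun p => by
    exact_mod_cast hDpos.ne'
  have hE0 : ∀ p : Nat.Primes, (E : ℚ_[(p : ℕ)]) ≠ 0 := fun p => by
    exact_mod_cast hEpos.ne'
  refine ⟨(u : ℚ) / (D * E), N, le_max_left _ _, ?_, ?_, ?_, ?_⟩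
  · intro p hp
    have h1 := hu2 p (Finset.mem_union_left _ hp)
    simp only [hκ, if_pos hp] at h1
    have h2 : (((u : ℚ) / (D * E) : ℚ) : ℚ_[(p : ℕ)]) - x p =
        -((D : ℚ_[(p : ℕ)]) * E * x p - u) / (D * E) := by
      rw [tp]
      have := hD0 p
      have := hE0 p
      field_simp
      ring
    rw [h2, norm_div, norm_neg, norm_mul, nD p (fun h => hST p h hp), one_mul, nES p hp]
    have hp1 : (0 : ℝ) < ((p : ℕ) : ℝ) := by exact_mod_cast p.2.pos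
    have hp2 : (2 : ℝ) ≤ ((p : ℕ) : ℝ) := by exact_mod_cast p.2.two_le
    have h3 : ((p : ℕ) : ℝ) ^ (-((K + L : ℕ) : ℤ)) = (((p : ℕ) : ℝ) ^ K)⁻¹ *
        (((p : ℕ) : ℝ) ^ L)⁻¹ := by
      rw [zpow_neg, zpow_natCast, pow_add, mul_inv]
    rw [h3] at h1
    rw [div_le_iff₀ (by positivity)]
    refine h1.trans (mul_le_mul_of_nonneg_right ?_ (by positivity))
    rw [one_div, inv_pow]
    exact inv_anti₀ (by positivity) (pow_le_pow_left₀ (by norm_num) hp2 K)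
  · have h1 : (((u : ℚ) / (D * E) : ℚ) : ℝ) - r = ((u : ℝ) - D * E * r) / (D * E) := by
      push_cast
      field_simp
    rw [h1, abs_div, abs_of_pos hDE, div_le_iff₀ hDE]
    refine hu1.trans ?_
    have h2 : M * 2 ^ K ≤ D := by
      obtain ⟨q, hq⟩ := hT
      calc M * 2 ^ K ≤ N := le_max_right _ _
        _ ≤ 2 ^ N := Nat.lt_two_pow_self.le
        _ ≤ 2 ^ (2 * N * e) := Nat.pow_le_pow_right (by norm_num) (by nlinarith)
        _ ≤ (q : ℕ) ^ (2 * N * e) := Nat.pow_le_pow_left q.2.two_le _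
        _ ≤ D := Finset.single_le_prod' (f := fun q : Nat.Primes => (q : ℕ) ^ (2 * N * e))
            (fun p _ => Nat.one_le_pow _ _ p.2.pos) hq
    have h3 : (M : ℝ) * 2 ^ K ≤ D := by exact_mod_cast h2
    have h4 : (1 : ℝ) ≤ E := by exact_mod_cast hEpos
    have h5 : (M : ℝ) = (1 / 2) ^ K * (M * 2 ^ K) := by
      rw [one_div, inv_pow]
      have : (2 : ℝ) ^ K ≠ 0 := by positivity
      field_simp
    rw [h5]
    refine mul_le_mul_of_nonneg_left ?_ (by positivity)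
    nlinarith
  · intro p hpS hpT
    rw [tp, norm_div, norm_mul, nD p hpT, nE p hpS, mul_one, div_one]
    exact Padic.norm_int_le_one u
  · intro p hp
    have hpS := hST p hp
    have h1 := hu2 p (Finset.mem_union_right _ hp)
    simp only [hκ, if_neg hpS] at h1
    have hp0 : (((p : ℕ) : ℚ_[(p : ℕ)])) ≠ 0 := by exact_mod_cast p.2.ne_zero
    have hD'0 : (D' p : ℚ_[(p : ℕ)]) ≠ 0 := by
      intro h
      have := nD' p
      rw [h, norm_zero] at this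
      norm_num at this
    have h2 : (((u : ℚ) / (D * E) : ℚ) : ℚ_[(p : ℕ)]) *
        (((p : ℕ) : ℚ_[(p : ℕ)]) ^ (2 * N)) ^ e + (c : ℚ_[(p : ℕ)]) =
        -(- (c : ℚ_[(p : ℕ)]) * E * D' p - u) / (E * D' p) := by
      rw [tp, hDD p hp, Nat.cast_mul, Nat.cast_pow, ← pow_mul]
      have := hE0 p
      have : (((p : ℕ) : ℚ_[(p : ℕ)])) ^ (2 * N * e) ≠ 0 := pow_ne_zero _ hp0
      field_simp
      ring
    rw [h2, norm_div, norm_neg, norm_mul, nE p hpS, nD' p, mul_one, div_one]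
    refine h1.trans_lt ?_
    rw [Nat.cast_one, zpow_neg, zpow_one]
    exact inv_lt_one_of_one_lt₀ (by exact_mod_cast p.2.one_lt)

theorem exists_t (S : Finset Pl) (T : Finset Nat.Primes) (hT : T.Nonempty)
    (hST : ∀ p ∈ T, some p ∉ S) (x : ∀ v, Cpl v) (U : ∀ v, Set (Cpl v))
    (hU : ∀ v ∈ S, U v ∈ 𝓝 (x v)) (c : ℚ)
    (hc : ∀ p ∈ T, ‖(c : ℚ_[(p : ℕ)])‖ = 1) {e : ℕ} (he : 0 < e) (N0 : ℕ) :
    ∃ (t : ℚ) (N : ℕ), N0 ≤ N ∧ (∀ v ∈ S, emb v t ∈ U v) ∧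
      (∀ p : Nat.Primes, some p ∉ S → p ∉ T → ‖(t : ℚ_[(p : ℕ)])‖ ≤ 1) ∧
      ∀ p ∈ T, ‖(t : ℚ_[(p : ℕ)]) * (((p : ℕ) : ℚ_[(p : ℕ)]) ^ (2 * N)) ^ e +
        (c : ℚ_[(p : ℕ)])‖ < 1 := by
  classical
  -- uniform neighbourhoods
  have hK : ∃ K : ℕ, ∀ v ∈ S, ∀ y : Cpl v, ‖y - x v‖ ≤ (1 / 2) ^ K → y ∈ U v := by
    have h1 : ∀ v : Pl, ∃ K : ℕ, v ∈ S → ∀ y : Cpl v, ‖y - x v‖ ≤ (1 / 2) ^ K → y ∈ U v := by
      intro v
      by_cases hv : v ∈ S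
      · obtain ⟨ε, hε, hsub⟩ := Metric.mem_nhds_iff.1 (hU v hv)
        obtain ⟨K, hK⟩ := exists_pow_lt_of_lt_one hε (by norm_num : (1 / 2 : ℝ) < 1)
        refine ⟨K, fun _ y hy => hsub ?_⟩
        rw [Metric.mem_ball, dist_eq_norm]
        exact hy.trans_lt hK
      · exact ⟨0, fun h => absurd h hv⟩
    choose K hK using h1
    refine ⟨S.sup K, fun v hv y hy => hK v hv y (hy.trans ?_)⟩
    exact pow_le_pow_of_le_one (by norm_num) (by norm_num) (Finset.le_sup hv)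
  obtain ⟨K, hK⟩ := hK
  obtain ⟨t, N, hN, h1, h2, h3, h4⟩ := KT_main (Finset.eraseNone S) T hT
    (fun p hp h => hST p hp (Finset.mem_eraseNone.1 h)) (fun p => (x (some p) : ℚ_[(p : ℕ)]))
    (x none : ℝ) K c hc he N0
  refine ⟨t, N, hN, ?_, ?_, h4⟩
  · intro v hv
    refine hK v hv _ ?_
    cases v with
    | none => exact h2
    | some p => exact h1 p (Finset.mem_eraseNone.2 hv)
  · intro p hpS hpT
    exact h3 p (fun h => hpS (Finset.mem_eraseNone.1 h)) hpT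

end SpinWA
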