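import Pool.Agent.H.MP_83e36b_nt.sp.KLine
import Pool.Agent.H.MP_83e36b_nt.sp.KResT
import Pool.Agent.H.MP_83e36b_nt.sp.KT
import Pool.Agent.H.MP_83e36b_nt.sp.PCont

/-!
# The core theorem, first part: choice of the polynomial

PROOF. Write `m = k + 1`.
(A) Shrink the neighbourhoods: `det (hk a) ≠ 0` for `a ∈ U v`, `v ∈ S` (`continuous_hk`,
`Continuous.matrix_det`).
(B) `exists_line` gives `r`, `A`, `B`, `V`: with `F = dM (lineP (C b) X (C ∘ r))`, `E = dA … * dB …`: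
`A F + B E = 1`.
(C) `T` = a finite set of primes `p` with `some p ∉ S`, containing all such `p` for which `b` is not a
`p`-unit, or some `r_i` or some coefficient of `A` or `B` is not `p`-integral, and at least one prime
(there are infinitely many primes). [For a nonzero rational `x`, `‖x‖_p = 1` for all but finitely many
`p`: `p` not dividing numerator and denominator.]
(D) `N0` so large that for all `p ∈ T`, `i ≠ 1`, `N ≥ N0`: `‖G_i (p^(2N))^(m-i)‖ < 1` where `G_0 = b`,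
`G_i = r_i` (`m - i ≥ 1`): `‖p^(2N)‖ → 0`. `exists_t` with `e = k`, the points `g v 1`, the
neighbourhoods `V v` gives `t`, `N`.
(E) `G = lineP b t r`. `det (hk G) ≠ 0`: its image in `Cpl none` is nonzero (`hk_det_map`).
For `p ∈ T`: `res_T` for `G` over `ℚ_[p]` (`k + 1 < p` and `p ≠ 2` since `some p ∉ S`).
For `p` with `some p ∉ S`, `p ∉ T`: `b` is a unit, `G` is `p`-integral; `A(t)`, `B(t)` are `p`-integral
(`t` is) and `A(t) F(t) + B(t) E(t) = 1`, with `F(t) = dM G`, `E(t) = dA G dB G` (`eval_dM`,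
`eval_dA`, `eval_dB`), which are `p`-integral (polynomial expressions in `p`-integral numbers: `dM_map`
for the ring homomorphism `ℤ_[p] → ℚ_[p]` and an integral lift of `G`). If `‖dM G‖ < 1` then
`‖E(t)‖ = 1` (ultrametric), so `‖dA G‖ = ‖dB G‖ = 1`; otherwise `‖dM G‖ = 1`.
-/

open Topology Matrix Polynomial

namespace SpinWA

/-- A rational number is integral at almost all primes. -/
private theorem KSetup_fin (x : ℚ) : {p : Nat.Primes | 1 < ‖(x : ℚ_[(p : ℕ)])‖}.Finite := by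
  have h1 : {p : Nat.Primes | (p : ℕ) ∈ x.den.primeFactors}.Finite :=
    (x.den.primeFactors.finite_toSet).preimage (Subtype.val_injective.injOn)
  refine h1.subset fun p hp => ?_
  rw [Set.mem_ofPred_eq] at hp ⊢
  rw [Nat.mem_primeFactors]
  refine ⟨p.2, ?_, x.den_nz⟩
  by_contra h
  exact absurd (Padic.norm_rat_le_one h) (not_le.2 hp)

/-- A nonzero rational number is a unit at almost all primes. -/
private theorem KSetup_unit {x : ℚ} (hx : x ≠ 0) :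
    {p : Nat.Primes | ‖(x : ℚ_[(p : ℕ)])‖ ≠ 1}.Finite := by
  refine ((KSetup_fin x).union (KSetup_fin x⁻¹)).subset fun p hp => ?_
  rw [Set.mem_ofPred_eq] at hp
  rcases lt_or_gt_of_ne hp with h | h
  · right
    rw [Set.mem_ofPred_eq, Rat.cast_inv, norm_inv]
    have h0 : (x : ℚ_[(p : ℕ)]) ≠ 0 := by exact_mod_cast hx
    exact one_lt_inv_iff₀.2 ⟨norm_pos_iff.2 h0, h⟩
  · exact Or.inl h

/-- Integral polynomials at integral points. -/
private theorem KSetup_eval {p : ℕ} [Fact p.Prime] (A : ℚ[X]) {t : ℚ} (ht : ‖(t : ℚ_[p])‖ ≤ 1)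
    (hA : ∀ i ∈ Finset.range (A.natDegree + 1), ‖((A.coeff i : ℚ) : ℚ_[p])‖ ≤ 1) :
    ‖((A.eval t : ℚ) : ℚ_[p])‖ ≤ 1 := by
  have h1 : ((A.eval t : ℚ) : ℚ_[p]) ∈ PadicInt.subring p := by
    rw [Polynomial.eval_eq_sum_range, Rat.cast_sum]
    refine Subring.sum_mem _ fun i hi => ?_
    rw [Rat.cast_mul, Rat.cast_pow]
    exact Subring.mul_mem _ (hA i hi) (Subring.pow_mem _ ht i)
  exact h1

/-- High powers of `p` absorb any number. -/
private theorem KSetup_small {p : ℕ} [Fact p.Prime] (x : ℚ_[p]) :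
    ∃ N0 : ℕ, ∀ N, N0 ≤ N → ∀ e, 0 < e → ‖x * ((p : ℚ_[p]) ^ (2 * N)) ^ e‖ < 1 := by
  obtain ⟨N0, hN0⟩ := pow_unbounded_of_one_lt ‖x‖ (one_lt_two : (1 : ℝ) < 2)
  refine ⟨N0, fun N hN e he => ?_⟩
  have hp2 : (2 : ℝ) ≤ p := by exact_mod_cast (Fact.out : p.Prime).two_le
  rw [norm_mul, norm_pow, norm_pow, Padic.norm_p, ← pow_mul]
  have h1 : ((p : ℝ)⁻¹) ^ (2 * N * e) ≤ (2 : ℝ)⁻¹ ^ N0 := by
    have h2 : ((p : ℝ)⁻¹) ^ (2 * N * e) ≤ (2 : ℝ)⁻¹ ^ (2 * N * e) :=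
      pow_le_pow_left₀ (by positivity) (inv_anti₀ (by norm_num) hp2) _
    refine h2.trans (pow_le_pow_of_le_one (by norm_num) (by norm_num) ?_)
    nlinarith
  calc ‖x‖ * ((p : ℝ)⁻¹) ^ (2 * N * e) ≤ ‖x‖ * (2 : ℝ)⁻¹ ^ N0 :=
        mul_le_mul_of_nonneg_left h1 (norm_nonneg _)
    _ < (2 : ℝ) ^ N0 * (2 : ℝ)⁻¹ ^ N0 := mul_lt_mul_of_pos_right hN0 (by positivity)
    _ = 1 := by rw [← mul_pow]; norm_num

/-- The invariants of an integral vector are integral. -/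
private theorem KSetup_int {p : ℕ} [Fact p.Prime] {k : ℕ} {G : Fin (k + 1) → ℚ}
    (hG : ∀ i, ‖(G i : ℚ_[p])‖ ≤ 1) :
    ‖((dM G : ℚ) : ℚ_[p])‖ ≤ 1 ∧ ‖((dA G : ℚ) : ℚ_[p])‖ ≤ 1 ∧ ‖((dB G : ℚ) : ℚ_[p])‖ ≤ 1 := by
  set g : Fin (k + 1) → ℤ_[p] := fun i => ⟨(G i : ℚ_[p]), hG i⟩ with hg
  have e0 : (fun i => algebraMap ℤ_[p] ℚ_[p] (g i)) = fun i => (Rat.castHom ℚ_[p]) (G i) := rfl
  have e1 : ((dM G : ℚ) : ℚ_[p]) = ((dM g : ℤ_[p]) : ℚ_[p]) := by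
    have h1 := dM_map (algebraMap ℤ_[p] ℚ_[p]) g
    have h2 := dM_map (Rat.castHom ℚ_[p]) G
    rw [e0, ← h2] at h1
    exact h1.symm
  have e2 : ((dA G : ℚ) : ℚ_[p]) = ((dA g : ℤ_[p]) : ℚ_[p]) := by
    have h1 := dA_map (algebraMap ℤ_[p] ℚ_[p]) g
    have h2 := dA_map (Rat.castHom ℚ_[p]) G
    rw [e0, ← h2] at h1
    exact h1.symm
  have e3 : ((dB G : ℚ) : ℚ_[p]) = ((dB g : ℤ_[p]) : ℚ_[p]) := by
    have h1 := dB_map (algebraMap ℤ_[p] ℚ_[p]) g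
    have h2 := dB_map (Rat.castHom ℚ_[p]) G
    rw [e0, ← h2] at h1
    exact h1.symm
  rw [e1, e2, e3]
  exact ⟨PadicInt.norm_le_one _, PadicInt.norm_le_one _, PadicInt.norm_le_one _⟩

/-- The ultrametric alternative. -/
private theorem KSetup_alt {p : ℕ} [Fact p.Prime] {a M b x y : ℚ_[p]} (ha : ‖a‖ ≤ 1)
    (hM : ‖M‖ ≤ 1) (hb : ‖b‖ ≤ 1) (hx : ‖x‖ ≤ 1) (hy : ‖y‖ ≤ 1)
    (h : a * M + b * (x * y) = 1) : ‖M‖ = 1 ∨ (‖x‖ = 1 ∧ ‖y‖ = 1) := by
  rcases hM.lt_or_eq with h1 | h1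
  · right
    have h2 : ‖a * M‖ < 1 := by
      rw [norm_mul]
      calc ‖a‖ * ‖M‖ ≤ 1 * ‖M‖ := mul_le_mul_of_nonneg_right ha (norm_nonneg _)
        _ < 1 := by rw [one_mul]; exact h1
    have h3 : ¬ ‖b * (x * y)‖ < 1 := by
      intro h4
      have h5 := Padic.nonarchimedean (a * M) (b * (x * y))
      rw [h, norm_one] at h5
      exact absurd h5 (not_le.2 (max_lt h2 h4))
    rw [norm_mul, norm_mul, not_lt] at h3
    have hb0 := norm_nonneg b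
    have hx0 := norm_nonneg x
    have hy0 := norm_nonneg y
    have h6 : ‖x‖ * ‖y‖ ≤ 1 := mul_le_one₀ hx hy0 hy
    have h7 : 1 ≤ ‖x‖ * ‖y‖ :=
      h3.trans (mul_le_of_le_one_left (mul_nonneg hx0 hy0) hb)
    constructor
    · refine le_antisymm hx ?_
      nlinarith
    · refine le_antisymm hy ?_
      nlinarith
  · exact Or.inl h1

theorem core_setup {k : ℕ} (h1k : 1 ≤ k) (hev : Even (k + 1)) (S : Finset Pl) (hS : none ∈ S)
    (hSp : ∀ p : Nat.Primes, ((p : ℕ) ≤ k + 1 ∨ (p : ℕ) = 2) → some p ∈ S) (c b : ℚ)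
    (hb : b ≠ 0) (hc : ∀ p : Nat.Primes, some p ∉ S → ‖(c : ℚ_[(p : ℕ)])‖ = 1)
    (g : ∀ v, Fin (k + 1) → Cpl v) (hg0 : ∀ v ∈ S, g v 0 = emb v b)
    (hgd : ∀ v ∈ S, (hk (g v)).det ≠ 0) (U : ∀ v, Set (Fin (k + 1) → Cpl v))
    (hU : ∀ v ∈ S, U v ∈ 𝓝 (g v)) :
    ∃ (G : Fin (k + 1) → ℚ) (T : Finset Nat.Primes), G 0 = b ∧
      (∀ v ∈ S, (fun i => emb v (G i)) ∈ U v) ∧ (∀ p ∈ T, some p ∉ S) ∧ (hk G).det ≠ 0 ∧
      (∀ p ∈ T, ∀ l : ℚ, ‖(l : ℚ_[(p : ℕ)]) - 1‖ < 1 →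
        resW (p : ℕ) (coreF (c : ℚ_[(p : ℕ)]) (l : ℚ_[(p : ℕ)])
          fun i => (G i : ℚ_[(p : ℕ)])) = 0) ∧
      (∀ p : Nat.Primes, some p ∉ S → p ∉ T → ‖(b : ℚ_[(p : ℕ)])‖ = 1 ∧
        (∀ i, ‖(G i : ℚ_[(p : ℕ)])‖ ≤ 1) ∧
        (‖((dM G : ℚ) : ℚ_[(p : ℕ)])‖ = 1 ∨
          (‖((dA G : ℚ) : ℚ_[(p : ℕ)])‖ = 1 ∧ ‖((dB G : ℚ) : ℚ_[(p : ℕ)])‖ = 1))) := by
  classical
  -- (A) shrink the neighbourhoods
  set U' : ∀ v, Set (Fin (k + 1) → Cpl v) := fun v => U v ∩ {a | (hk a).det ≠ 0} with hU'def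
  have hU' : ∀ v ∈ S, U' v ∈ 𝓝 (g v) := by
    intro v hv
    refine Filter.inter_mem (hU v hv) ?_
    have h1 : Continuous fun a : Fin (k + 1) → Cpl v => (hk a).det := continuous_hk.matrix_det
    exact (isOpen_ne_fun h1 continuous_const).mem_nhds (hgd v hv)
  -- (B) the line
  obtain ⟨r, A, B, V, hAB, hV, hline⟩ := exists_line h1k S hS b hb g hg0 U' hU'
  -- (C) the primes
  have hfin : {p : Nat.Primes | some p ∈ S}.Finite :=
    S.finite_toSet.preimage ((Option.some_injective _).injOn)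
  obtain ⟨p0, hp0⟩ : ∃ p0 : Nat.Primes, some p0 ∉ S := by
    have h1 : {p : Nat.Primes | some p ∈ S}ᶜ.Nonempty := (hfin.infinite_compl).nonempty
    obtain ⟨p0, hp0⟩ := h1
    exact ⟨p0, hp0⟩
  set Bad : Set Nat.Primes := {p : Nat.Primes | ‖(b : ℚ_[(p : ℕ)])‖ ≠ 1} ∪
    (⋃ i : Fin (k + 1), {p : Nat.Primes | 1 < ‖(r i : ℚ_[(p : ℕ)])‖}) ∪
    (⋃ i ∈ Finset.range (A.natDegree + 1),
      {p : Nat.Primes | 1 < ‖((A.coeff i : ℚ) : ℚ_[(p : ℕ)])‖}) ∪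
    (⋃ i ∈ Finset.range (B.natDegree + 1),
      {p : Nat.Primes | 1 < ‖((B.coeff i : ℚ) : ℚ_[(p : ℕ)])‖}) with hBad
  have hBadfin : Bad.Finite := by
    refine ((KSetup_unit hb).union ?_ |>.union ?_ |>.union ?_)
    · exact Set.finite_iUnion fun i => KSetup_fin (r i)
    · exact Set.Finite.biUnion (Finset.finite_toSet _) fun i _ => KSetup_fin _
    · exact Set.Finite.biUnion (Finset.finite_toSet _) fun i _ => KSetup_fin _
  set T : Finset Nat.Primes := insert p0 (hBadfin.toFinset.filter fun p => some p ∉ S) with hTdef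
  have hT : T.Nonempty := ⟨p0, Finset.mem_insert_self _ _⟩
  have hST : ∀ p ∈ T, some p ∉ S := by
    intro p hp
    rcases Finset.mem_insert.1 hp with rfl | hp
    · exact hp0
    · exact (Finset.mem_filter.1 hp).2
  have hnot : ∀ p : Nat.Primes, some p ∉ S → p ∉ T → p ∉ Bad := by
    intro p hpS hpT hpB
    exact hpT (Finset.mem_insert_of_mem (Finset.mem_filter.2
      ⟨hBadfin.mem_toFinset.2 hpB, hpS⟩))
  -- (D) the parameter
  have hN : ∀ (p : Nat.Primes) (x : ℚ), ∃ N0 : ℕ, ∀ N, N0 ≤ N → ∀ e, 0 < e →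
      ‖(x : ℚ_[(p : ℕ)]) * (((p : ℕ) : ℚ_[(p : ℕ)]) ^ (2 * N)) ^ e‖ < 1 :=
    fun p x => KSetup_small _
  choose N1 hN1 using hN
  set N0 : ℕ := T.sup fun p => (Finset.univ : Finset (Fin (k + 1))).sup fun i =>
    max (N1 p b) (N1 p (r i)) with hN0
  have hN0b : ∀ p ∈ T, N1 p b ≤ N0 := by
    intro p hp
    refine le_trans ?_ (Finset.le_sup (f := fun p => (Finset.univ : Finset (Fin (k + 1))).sup
      fun i => max (N1 p b) (N1 p (r i))) hp)
    exact le_trans (le_max_left _ _) (Finset.le_sup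
      (f := fun i : Fin (k + 1) => max (N1 p b) (N1 p (r i))) (Finset.mem_univ 0))
  have hN0r : ∀ p ∈ T, ∀ i, N1 p (r i) ≤ N0 := by
    intro p hp i
    refine le_trans ?_ (Finset.le_sup (f := fun p => (Finset.univ : Finset (Fin (k + 1))).sup
      fun i => max (N1 p b) (N1 p (r i))) hp)
    exact le_trans (le_max_right _ _) (Finset.le_sup
      (f := fun i : Fin (k + 1) => max (N1 p b) (N1 p (r i))) (Finset.mem_univ i))
  obtain ⟨t, N, hNN, ht1, ht2, ht3⟩ := exists_t S T hT hST (fun v => g v 1) V hV c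
    (fun p hp => hc p (hST p hp)) (e := k) (by omega) N0
  -- (E) the polynomial
  set G : Fin (k + 1) → ℚ := lineP b t r with hG
  have hG0 : G 0 = b := by
    rw [hG]
    unfold lineP
    rw [if_pos (by simp)]
  have hG1 : ∀ i : Fin (k + 1), (i : ℕ) = 1 → G i = t := by
    intro i hi
    rw [hG]
    unfold lineP
    rw [if_neg (by omega), if_pos hi]
  have hGi : ∀ i : Fin (k + 1), (i : ℕ) ≠ 1 → G i = b ∨ G i = r i := by
    intro i hi
    rw [hG]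
    unfold lineP
    by_cases h0 : (i : ℕ) = 0
    · left; rw [if_pos h0]
    · right; rw [if_neg h0, if_neg hi]
  have hmem := hline t ht1
  refine ⟨G, T, hG0, fun v hv => (hmem v hv).1, hST, ?_, ?_, ?_⟩
  · have h1 := (hmem none hS).2
    intro h0
    apply h1
    rw [← hG, ← hk_det_map, h0, map_zero]
  · intro p hp l hl
    have hpS := hST p hp
    have hp2 : (p : ℕ) ≠ 2 := fun h => hpS (hSp p (Or.inr h))
    have hpk : k + 1 < (p : ℕ) := by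
      by_contra h
      exact hpS (hSp p (Or.inl (by omega)))
    refine (res_T hp2 hev hpk (hc p hpS) hl N (fun i => (G i : ℚ_[(p : ℕ)])) ?_ ?_ ?_).2
    · show (G 0 : ℚ_[(p : ℕ)]) ≠ 0
      rw [hG0]
      exact_mod_cast hb
    · intro i hi
      show ‖(G i : ℚ_[(p : ℕ)]) * (((p : ℕ) : ℚ_[(p : ℕ)]) ^ (2 * N)) ^ k + _‖ < 1
      rw [hG1 i hi]
      exact ht3 p hp
    · intro i hi
      have hi' : 0 < k + 1 - (i : ℕ) := by
        have := i.2
        omega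
      show ‖(G i : ℚ_[(p : ℕ)]) * (((p : ℕ) : ℚ_[(p : ℕ)]) ^ (2 * N)) ^ (k + 1 - (i : ℕ))‖ < 1
      rcases hGi i hi with h | h
      · rw [h]
        exact hN1 p b N ((hN0b p hp).trans hNN) _ hi'
      · rw [h]
        exact hN1 p (r i) N ((hN0r p hp i).trans hNN) _ hi'
  · intro p hpS hpT
    have hpB := hnot p hpS hpT
    simp only [hBad, Set.mem_union, Set.mem_iUnion, Set.mem_ofPred_eq, not_or, not_exists,
      not_lt, not_not] at hpB
    obtain ⟨⟨⟨hb1, hr1⟩, hA1⟩, hB1⟩ := hpB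
    have ht := ht2 p hpS hpT
    have hGint : ∀ i, ‖(G i : ℚ_[(p : ℕ)])‖ ≤ 1 := by
      intro i
      by_cases hi : (i : ℕ) = 1
      · rw [hG1 i hi]; exact ht
      · rcases hGi i hi with h | h
        · rw [h, hb1]
        · rw [h]; exact hr1 i
    refine ⟨hb1, hGint, ?_⟩
    obtain ⟨iM, iA, iB⟩ := KSetup_int hGint
    have hev1 := congrArg (fun P : ℚ[X] => P.eval t) hAB
    simp only [eval_add, eval_mul, eval_one] at hev1
    rw [eval_dM, eval_dA, eval_dB, ← hG] at hev1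
    have hev2 : ((A.eval t : ℚ) : ℚ_[(p : ℕ)]) * ((dM G : ℚ) : ℚ_[(p : ℕ)]) +
        ((B.eval t : ℚ) : ℚ_[(p : ℕ)]) *
          (((dA G : ℚ) : ℚ_[(p : ℕ)]) * ((dB G : ℚ) : ℚ_[(p : ℕ)])) = 1 := by
      exact_mod_cast congrArg (fun x : ℚ => (x : ℚ_[(p : ℕ)])) hev1
    exact KSetup_alt (KSetup_eval A ht hA1) iM (KSetup_eval B ht hB1) iA iB hev2

end SpinWA
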