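import Pool.Agent.H.MP_83e36b_nt.sp.KDef
import Pool.Agent.H.MP_83e36b_nt.sp.KNewton

/-!
# Trinomials

PROOF. `det_antitri`: if `M i j = 0` for `i + j + 1 < n` then `M` with the columns reversed
(`Fin.rev`, `Matrix.submatrix id Fin.revPerm`) is triangular: `det M = ± ∏ M i (rev i)`
(`Matrix.det_permute'`, `Matrix.det_of_upperTriangular` or `det_of_lowerTriangular`).
Let `m = k + 1 ≥ 2`, `a = lineP b t 0`: `X^m + t X + b`. By `psum_newton`: `T_0 = m`, `T_j = 0` for
`1 ≤ j < k`, `T_k = - k t` (coefficients `a_{m-i} = 0` for `1 ≤ i < k`, `a_{m-k} = a_1 = t`).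
`dB_tri`: the entries `T_{i+j+1}`, `i, j < k`, vanish for `i + j + 1 < k` and are `- k t` for
`i + j + 1 = k`: `det = ± (-k t)^k`. `dA_tri`: the entries `T_{i+j}`, `i, j < k`: the row 0 is
`(m, 0, …, 0)` (as `T_j = 0` for `1 ≤ j < k`); expand; the rest (`1 ≤ i, j < k`) vanishes for
`i + j < k` and is `- k t` for `i + j = k`: `det = ± m (-k t)^(k-1)`.
`dM_tri`: `t = 0`: `T_0 = m`, `T_j = 0` for `0 < j < m`, `T_m = - m b`, entries `T_{i+j}`,
`i, j < m`: row 0 is `(m, 0, …, 0)`, the rest (`1 ≤ i, j ≤ k`) vanishes for `i + j < m` and is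
`- m b` for `i + j = m`: `det = ± m (- m b)^k`.
-/

open Matrix Polynomial

namespace SpinWA

variable {R : Type*} [CommRing R] {n k : ℕ}

theorem det_antitri (M : Matrix (Fin n) (Fin n) R) (c : R)
    (h0 : ∀ i j : Fin n, (i : ℕ) + j + 1 < n → M i j = 0)
    (h1 : ∀ i j : Fin n, (i : ℕ) + j + 1 = n → M i j = c) : M.det = c ^ n ∨ M.det = - c ^ n := by
  have hN : (M.submatrix id (Fin.revPerm : Equiv.Perm (Fin n))).det = c ^ n := by
    have ht : (M.submatrix id (Fin.revPerm : Equiv.Perm (Fin n))).BlockTriangular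
        OrderDual.toDual := by
      intro i j hij
      have hij' : i < j := hij
      rw [Matrix.submatrix_apply]
      apply h0
      have hr : ((Fin.revPerm j : Fin n) : ℕ) = n - (j + 1) := Fin.val_rev j
      rw [hr, id]
      have h3 := j.isLt
      have h4 : (i : ℕ) < j := hij'
      omega
    rw [Matrix.det_of_isLowerTriangular _ ht]
    have h2 : ∀ i : Fin n, (M.submatrix id (Fin.revPerm : Equiv.Perm (Fin n))) i i = c := by
      intro i
      rw [Matrix.submatrix_apply]
      apply h1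
      have hr : ((Fin.revPerm i : Fin n) : ℕ) = n - (i + 1) := Fin.val_rev i
      rw [hr, id]
      have h3 := i.isLt
      omega
    rw [Finset.prod_congr rfl fun i _ => h2 i, Finset.prod_const, Finset.card_univ,
      Fintype.card_fin]
  rw [Matrix.det_permute'] at hN
  rcases Int.units_eq_one_or (Equiv.Perm.sign (Fin.revPerm : Equiv.Perm (Fin n))) with h | h
  · left
    rw [h] at hN
    simpa using hN
  · right
    rw [h] at hN
    rw [← hN]
    simp

private theorem KTri_neg_pow (x : R) (m : ℕ) : (-x) ^ m = x ^ m ∨ (-x) ^ m = - x ^ m := by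
  rcases Nat.even_or_odd m with h | h
  · exact Or.inl (Even.neg_pow h x)
  · exact Or.inr (Odd.neg_pow h x)

private theorem KTri_cf_zero (b t : R) : cf (lineP b t 0 : Fin (k + 1) → R) 0 = b := by
  simp [cf, lineP]

private theorem KTri_cf_one (h1k : 1 ≤ k) (b t : R) :
    cf (lineP b t 0 : Fin (k + 1) → R) 1 = t := by
  have h : 1 < k + 1 := by omega
  simp only [cf, lineP, dif_pos h]
  simp

private theorem KTri_cf_top (b t : R) : cf (lineP b t 0 : Fin (k + 1) → R) (k + 1) = 1 := by
  simp [cf]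

private theorem KTri_cf_mid (b t : R) {i : ℕ} (h2 : 2 ≤ i) (hi : i < k + 1) :
    cf (lineP b t 0 : Fin (k + 1) → R) i = 0 := by
  simp only [cf, lineP, dif_pos hi]
  rw [if_neg (by omega), if_neg (by omega)]
  rfl

private theorem KTri_psum0 (a : Fin n → R) : psum a 0 = (n : R) := by
  simp [psum]

private theorem KTri_psum (b t : R) {j : ℕ} (h1 : 1 ≤ j) (hj : j ≤ k) :
    psum (lineP b t 0 : Fin (k + 1) → R) j =
      - ((j : R) * cf (lineP b t 0 : Fin (k + 1) → R) (k + 1 - j)) := by
  obtain ⟨j, rfl⟩ : ∃ j', j = j' + 1 := ⟨j - 1, by omega⟩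
  have h := psum_newton (lineP b t 0 : Fin (k + 1) → R) h1 (hj.trans (Nat.le_succ k))
  rw [Finset.sum_range_succ] at h
  have h3 : ∑ c ∈ Finset.range j, cf (lineP b t 0 : Fin (k + 1) → R) (k + 1 - (j + 1) + (c + 1)) *
      psum (lineP b t 0 : Fin (k + 1) → R) (c + 1) = 0 := by
    refine Finset.sum_eq_zero fun c hc => ?_
    rw [Finset.mem_range] at hc
    rw [KTri_cf_mid b t (by omega) (by omega), zero_mul]
  have h4 : k + 1 - (j + 1) + (j + 1) = k + 1 := by omega
  rw [h3, h4, KTri_cf_top, zero_add, one_mul] at h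
  exact eq_neg_of_add_eq_zero_left h

private theorem KTri_psum_mid (b t : R) {j : ℕ} (h1 : 1 ≤ j) (hj : j < k) :
    psum (lineP b t 0 : Fin (k + 1) → R) j = 0 := by
  rw [KTri_psum b t h1 hj.le, KTri_cf_mid b t (by omega) (by omega), mul_zero, neg_zero]

private theorem KTri_psum_k (h1k : 1 ≤ k) (b t : R) :
    psum (lineP b t 0 : Fin (k + 1) → R) k = - ((k : R) * t) := by
  have h : k + 1 - k = 1 := by omega
  rw [KTri_psum b t h1k le_rfl, h, KTri_cf_one h1k]

private theorem KTri_psum_top (b : R) :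
    psum (lineP b 0 0 : Fin (k + 1) → R) (k + 1) = - (((k : R) + 1) * b) := by
  have h := psum_newton (lineP b 0 0 : Fin (k + 1) → R) (Nat.le_add_left 1 k) le_rfl
  rw [Finset.sum_range_succ] at h
  have h3 : ∑ c ∈ Finset.range k, cf (lineP b 0 0 : Fin (k + 1) → R) (k + 1 - (k + 1) + (c + 1)) *
      psum (lineP b 0 0 : Fin (k + 1) → R) (c + 1) = 0 := by
    refine Finset.sum_eq_zero fun c hc => ?_
    rw [Finset.mem_range] at hc
    have h5 : k + 1 - (k + 1) + (c + 1) = c + 1 := by omega
    rw [h5]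
    rcases Nat.eq_zero_or_pos c with h6 | h6
    · subst h6
      rw [KTri_cf_one (by omega), zero_mul]
    · rw [KTri_cf_mid b 0 (by omega) (by omega), zero_mul]
  have h4 : k + 1 - (k + 1) + (k + 1) = k + 1 := by omega
  have h5 : k + 1 - (k + 1) = 0 := by omega
  rw [h3, h4, h5, KTri_cf_top, KTri_cf_zero, zero_add, one_mul] at h
  rw [eq_neg_of_add_eq_zero_left h]
  push_cast
  ring

/-- Expansion along the row 0. -/
private theorem KTri_expand {m : ℕ} (M : Matrix (Fin (m + 1)) (Fin (m + 1)) R)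
    (h : ∀ j : Fin m, M 0 j.succ = 0) :
    M.det = M 0 0 * (M.submatrix Fin.succ Fin.succ).det := by
  rw [Matrix.det_succ_row_zero, Fin.sum_univ_succ]
  rw [Finset.sum_eq_zero fun j _ => by rw [h j]; ring]
  simp [Fin.succAbove_zero]

theorem dB_tri (h1k : 1 ≤ k) (b t : R) :
    dB (lineP b t 0 : Fin (k + 1) → R) = ((k : R) * t) ^ k ∨
      dB (lineP b t 0 : Fin (k + 1) → R) = - ((k : R) * t) ^ k := by
  have h := det_antitri
    ((hk1 (lineP b t 0 : Fin (k + 1) → R)).submatrix (Fin.castSucc : Fin k → Fin (k + 1))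
      Fin.castSucc) (- ((k : R) * t))
    (fun i j hij => by
      simp only [hk1, Matrix.submatrix_apply, Matrix.of_apply, Fin.val_castSucc]
      exact KTri_psum_mid b t (by omega) hij)
    (fun i j hij => by
      simp only [hk1, Matrix.submatrix_apply, Matrix.of_apply, Fin.val_castSucc]
      rw [hij]
      exact KTri_psum_k h1k b t)
  unfold dB
  rcases h with h | h <;> rcases KTri_neg_pow ((k : R) * t) k with h' | h' <;>
    rw [h, h'] <;> simp

theorem dA_tri (h1k : 1 ≤ k) (b t : R) :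
    dA (lineP b t 0 : Fin (k + 1) → R) = ((k : R) + 1) * ((k : R) * t) ^ (k - 1) ∨
      dA (lineP b t 0 : Fin (k + 1) → R) = - (((k : R) + 1) * ((k : R) * t) ^ (k - 1)) := by
  obtain ⟨l, rfl⟩ : ∃ l, k = l + 1 := ⟨k - 1, by omega⟩
  unfold dA
  rw [KTri_expand _ (fun j => by
    simp only [hk, Matrix.submatrix_apply, Matrix.of_apply, Fin.val_castSucc, Fin.val_zero,
      Fin.val_succ]
    exact KTri_psum_mid b t (by omega) (by have := j.isLt; omega))]
  have h := det_antitri
    ((((hk (lineP b t 0 : Fin (l + 1 + 1) → R)).submatrix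
      (Fin.castSucc : Fin (l + 1) → Fin (l + 1 + 1)) Fin.castSucc)).submatrix
        (Fin.succ : Fin l → Fin (l + 1)) Fin.succ) (- (((l + 1 : ℕ) : R) * t))
    (fun i j hij => by
      simp only [hk, Matrix.submatrix_apply, Matrix.of_apply, Fin.val_castSucc, Fin.val_succ]
      exact KTri_psum_mid b t (by omega) (by omega))
    (fun i j hij => by
      simp only [hk, Matrix.submatrix_apply, Matrix.of_apply, Fin.val_castSucc, Fin.val_succ]
      have h5 : (i : ℕ) + 1 + (j + 1) = l + 1 := by omega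
      rw [h5]
      exact KTri_psum_k h1k b t)
  have h00 : ((hk (lineP b t 0 : Fin (l + 1 + 1) → R)).submatrix
      (Fin.castSucc : Fin (l + 1) → Fin (l + 1 + 1)) Fin.castSucc) 0 0 =
        (((l + 1 : ℕ) : R) + 1) := by
    simp only [hk, Matrix.submatrix_apply, Matrix.of_apply, Fin.val_castSucc, Fin.val_zero]
    rw [add_zero, KTri_psum0]
    push_cast
    ring
  rw [h00]
  have h6 : l + 1 - 1 = l := rfl
  rw [h6]
  rcases h with h | h <;> rcases KTri_neg_pow (((l + 1 : ℕ) : R) * t) l with h' | h' <;>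
    rw [h, h'] <;> simp

theorem dM_tri (h1k : 1 ≤ k) (b : R) :
    dM (lineP b 0 0 : Fin (k + 1) → R) = ((k : R) + 1) ^ (k + 1) * b ^ k ∨
      dM (lineP b 0 0 : Fin (k + 1) → R) = - (((k : R) + 1) ^ (k + 1) * b ^ k) := by
  have hz : ∀ j : ℕ, 1 ≤ j → j < k + 1 → psum (lineP b 0 0 : Fin (k + 1) → R) j = 0 := by
    intro j h1 hj
    rcases Nat.lt_or_ge j k with h | h
    · exact KTri_psum_mid b 0 h1 h
    · obtain rfl : j = k := by omega
      rw [KTri_psum_k h1k b 0, mul_zero, neg_zero]
  unfold dM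
  rw [KTri_expand _ (fun j => by
    simp only [hk, Matrix.of_apply, Fin.val_zero, Fin.val_succ]
    exact hz _ (by omega) (by have := j.isLt; omega))]
  have h := det_antitri
    ((hk (lineP b 0 0 : Fin (k + 1) → R)).submatrix
        (Fin.succ : Fin k → Fin (k + 1)) Fin.succ) (- (((k : R) + 1) * b))
    (fun i j hij => by
      simp only [hk, Matrix.submatrix_apply, Matrix.of_apply, Fin.val_succ]
      exact hz _ (by omega) (by omega))
    (fun i j hij => by
      simp only [hk, Matrix.submatrix_apply, Matrix.of_apply, Fin.val_succ]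
      have h5 : (i : ℕ) + 1 + (j + 1) = k + 1 := by omega
      rw [h5]
      exact KTri_psum_top b)
  have h00 : (hk (lineP b 0 0 : Fin (k + 1) → R)) 0 0 = ((k : R) + 1) := by
    simp only [hk, Matrix.of_apply, Fin.val_zero]
    rw [add_zero, KTri_psum0]
    push_cast
    ring
  rw [h00]
  rcases h with h | h <;> rcases KTri_neg_pow (((k : R) + 1) * b) k with h' | h' <;>
    rw [h, h', mul_pow]
  · left; ring
  · right; ring
  · right; ring
  · left; ring

end SpinWA
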