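import Pool.Agent.H.MP_83e36b_nt.sp.WDef

/-!
# Forms near a given form are congruent to it by a matrix near 1

PROOF. Let `Sym` be the (closed, finite-dimensional) submodule of symmetric matrices of
`Matrix (Fin n) (Fin n) K`, with the normed space structure coming from
`Matrix.normedAddCommGroup`, `Matrix.normedSpace` (local instances; the topology is the usual one)
and `F : Matrix → Sym`, `F C = Cᵀ A C` (with `LinearMap.codRestrict` or a continuous linear
projection `M ↦ (M + Mᵀ)/2`). `F` is strictly differentiable at `1` with derivative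
`X ↦ Xᵀ A + A X` (expand: `F (C + X) - F C` is the linear part plus the quadratic term `Xᵀ A X`; or
compose `HasStrictFDerivAt` of bounded bilinear maps), which is surjective onto `Sym`: for `Y`
symmetric take `X = 1/2 A⁻¹ Y`: `Xᵀ A = 1/2 Y A⁻¹ A = Y/2`, `A X = Y/2`. All spaces are complete
(finite-dimensional over the complete field `K`, `FiniteDimensional.complete`). By
`HasStrictFDerivAt.map_nhds_eq_of_surj` the image of a neighbourhood of `1` is a neighbourhood of
`F 1 = A` in `Sym`.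
Alternative proof: the power series `(1 + E)^{1/2}` with `E = A⁻¹ (A' - A)`, `C = (1 + E)^{1/2}`
satisfies `Cᵀ A = A C` and `A C^2 = A'`; or Newton iteration.
`cls_nhds`, `det_nhds` are stated in `LCls.lean`.
-/

open Topology Matrix

namespace SpinWA

/-- the submodule of the symmetric matrices -/
def lcongSym (K : Type*) [Field K] (n : ℕ) : Submodule K (Fin n → Fin n → K) where
  carrier := {M | (Matrix.of M)ᵀ = Matrix.of M}
  add_mem' := by
    intro a b ha hb
    change (Matrix.of a + Matrix.of b)ᵀ = Matrix.of a + Matrix.of b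
    rw [transpose_add, (ha : (Matrix.of a)ᵀ = Matrix.of a), (hb : (Matrix.of b)ᵀ = Matrix.of b)]
  zero_mem' := transpose_zero
  smul_mem' := by
    intro c a ha
    change (c • Matrix.of a)ᵀ = c • Matrix.of a
    rw [transpose_smul, (ha : (Matrix.of a)ᵀ = Matrix.of a)]

/-- the symmetrization -/
def lcongPi (K : Type*) [Field K] (n : ℕ) : Matrix (Fin n) (Fin n) K →ₗ[K] lcongSym K n where
  toFun M := ⟨((2 : K)⁻¹ • (M + Mᵀ) : Matrix (Fin n) (Fin n) K), by
    change ((2 : K)⁻¹ • (M + Mᵀ))ᵀ = (2 : K)⁻¹ • (M + Mᵀ)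
    rw [transpose_smul, transpose_add, transpose_transpose, add_comm]⟩
  map_add' a b := by
    apply Subtype.ext
    change (2 : K)⁻¹ • (a + b + (a + b)ᵀ) = (2 : K)⁻¹ • (a + aᵀ) + (2 : K)⁻¹ • (b + bᵀ)
    rw [transpose_add, ← smul_add]
    congr 1
    abel
  map_smul' c a := by
    apply Subtype.ext
    change (2 : K)⁻¹ • (c • a + (c • a)ᵀ) = c • ((2 : K)⁻¹ • (a + aᵀ))
    rw [transpose_smul, ← smul_add, smul_comm]

theorem lcongPi_of_sym {K : Type*} [Field K] (h2 : (2 : K) ≠ 0) {n : ℕ}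
    {M : Matrix (Fin n) (Fin n) K} (h : Mᵀ = M) : (lcongPi K n M).1 = M := by
  change (2 : K)⁻¹ • (M + Mᵀ) = M
  rw [h, ← two_smul K M, smul_smul, inv_mul_cancel₀ h2, one_smul]

/-- the bilinear map -/
def lcongB {K : Type*} [Field K] {n : ℕ} (A : Matrix (Fin n) (Fin n) K) :
    (Fin n → Fin n → K) →ₗ[K] (Fin n → Fin n → K) →ₗ[K] lcongSym K n :=
  LinearMap.mk₂ K (fun X Y => lcongPi K n ((Matrix.of X)ᵀ * A * Matrix.of Y))
    (fun X X' Y => by
      change lcongPi K n ((Matrix.of X + Matrix.of X')ᵀ * A * Matrix.of Y) = _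
      rw [transpose_add, Matrix.add_mul, Matrix.add_mul, map_add])
    (fun c X Y => by
      change lcongPi K n ((c • Matrix.of X)ᵀ * A * Matrix.of Y) = _
      rw [transpose_smul, smul_mul_assoc, smul_mul_assoc, map_smul])
    (fun X Y Y' => by
      change lcongPi K n ((Matrix.of X)ᵀ * A * (Matrix.of Y + Matrix.of Y')) = _
      rw [Matrix.mul_add, map_add])
    (fun c X Y => by
      change lcongPi K n ((Matrix.of X)ᵀ * A * (c • Matrix.of Y)) = _
      rw [mul_smul_comm, map_smul])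

theorem cong_nhds {K : Type*} [NontriviallyNormedField K] [CompleteSpace K] (h2 : (2 : K) ≠ 0)
    {n : ℕ} {A : Matrix (Fin n) (Fin n) K} (hA : Aᵀ = A) (hd : A.det ≠ 0)
    {U : Set (Matrix (Fin n) (Fin n) K)} (hU : U ∈ 𝓝 (1 : Matrix (Fin n) (Fin n) K)) :
    ∃ V ∈ 𝓝 A, ∀ A' ∈ V, A'ᵀ = A' → ∃ C ∈ U, Cᵀ * A * C = A' := by
  have _ : CompleteSpace (lcongSym K n) := FiniteDimensional.complete K _
  obtain ⟨B, hB⟩ : ∃ B : (Fin n → Fin n → K) →L[K] (Fin n → Fin n → K) →L[K] lcongSym K n,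
      ∀ X Y : Fin n → Fin n → K, B X Y = lcongPi K n ((Matrix.of X)ᵀ * A * Matrix.of Y) :=
    ⟨(lcongB A).toContinuousBilinearMap, fun X Y => rfl⟩
  obtain ⟨I, hI⟩ : ∃ I : Fin n → Fin n → K, Matrix.of I = 1 :=
    ⟨(1 : Matrix (Fin n) (Fin n) K), rfl⟩
  have hF := B.hasStrictFDerivAt_of_bilinear
    (hasStrictFDerivAt_id (𝕜 := K) I) (hasStrictFDerivAt_id (𝕜 := K) I)
  have hAu : IsUnit A.det := hd.isUnit
  have hmap := hF.map_nhds_eq_of_surj (by
    rw [LinearMap.range_eq_top]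
    intro Y
    obtain ⟨Y0, hY0⟩ : ∃ Y0 : Matrix (Fin n) (Fin n) K, Y0 = Matrix.of Y.1 := ⟨_, rfl⟩
    have hY : Y0ᵀ = Y0 := by
      rw [hY0]
      exact Y.2
    obtain ⟨Z, hZ⟩ : ∃ Z : Fin n → Fin n → K, Matrix.of Z = (2 : K)⁻¹ • (A⁻¹ * Y0) :=
      ⟨((2 : K)⁻¹ • (A⁻¹ * Y0) : Matrix (Fin n) (Fin n) K), rfl⟩
    refine ⟨Z, ?_⟩
    change B I Z + B Z I = Y
    rw [hB, hB, ← map_add, hI, hZ]
    have h3 : (1 : Matrix (Fin n) (Fin n) K)ᵀ * A * ((2 : K)⁻¹ • (A⁻¹ * Y0)) +
        ((2 : K)⁻¹ • (A⁻¹ * Y0))ᵀ * A * 1 = Y0 := by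
      rw [transpose_one, one_mul, mul_one, mul_smul_comm, ← mul_assoc, mul_nonsing_inv _ hAu,
        one_mul, transpose_smul, transpose_mul, hY, transpose_nonsing_inv, hA, smul_mul_assoc,
        mul_assoc, nonsing_inv_mul _ hAu, mul_one, ← smul_add, ← two_smul K Y0, smul_smul,
        inv_mul_cancel₀ h2, one_smul]
    rw [h3]
    exact Subtype.ext ((lcongPi_of_sym h2 hY).trans hY0))
  have hU' : (U : Set (Fin n → Fin n → K)) ∈ 𝓝 I := by
    have h6 : I = (1 : Matrix (Fin n) (Fin n) K) := hI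
    rw [h6]
    exact hU
  have h1 : (fun C => B (id C) (id C)) '' (U : Set (Fin n → Fin n → K)) ∈
      𝓝 (B (id I) (id I)) := by
    rw [← hmap]
    exact Filter.image_mem_map hU'
  have h4 : B (id I) (id I) = (⟨A, hA⟩ : lcongSym K n) := by
    apply Subtype.ext
    rw [id, hB, hI, transpose_one, one_mul, mul_one]
    exact lcongPi_of_sym h2 hA
  rw [h4, nhds_subtype_eq_comap, Filter.mem_comap] at h1
  obtain ⟨V, hV, hVU⟩ := h1
  refine ⟨V, hV, fun A' hA' hs => ?_⟩
  obtain ⟨C, hC, hCA⟩ := hVU (show (⟨A', hs⟩ : lcongSym K n) ∈ _ from hA')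
  refine ⟨Matrix.of C, hC, ?_⟩
  have h5 := congrArg Subtype.val hCA
  simp only [id, hB] at h5
  rw [lcongPi_of_sym h2] at h5
  · exact h5
  · rw [transpose_mul, transpose_mul, transpose_transpose, hA, mul_assoc]

end SpinWA
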