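import Pool.Agent.H.MP_83e36b_nt.sp.LSo
import Pool.Agent.H.MP_83e36b_nt.sp.LCls

/-!
# Approximation of isometries between forms

PROOF. `Q_v = Q.map (emb v)`. If `n = 0` everything is trivial (matrices of size 0 are equal).
For `v ∈ S`: `δ_v = det (C v) ≠ 0`. Choose `W v` a neighbourhood of
`δ_v` so small that `w' ≠ - w` for `w, w' ∈ W v` (e.g. a ball of radius `‖δ_v‖` (times `1/2`)
around `δ_v`, `2 ≠ 0`; in the p-adic case for `p = 2` take a ball of radius `‖2 δ_v‖ / 2`).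
By `cong_mul_nhds` for the neighbourhood
`{C' | C' ∈ interior (U v), det C' ∈ W v}` of `C v` we get a neighbourhood `V v` of
`(C v)ᵀ Q_v (C v)` such that every symmetric `B ∈ V v` is `C'ᵀ Q_v C'` with such a `C'`.
Now let `A`, `δ`, be as in the statement, `C0ᵀ Q C0 = A`, `det C0 ≠ 0` (`Cong Q A`). Then
`(det C0)^2 det Q = det A = δ^2 det Q`, so `det C0 = ± δ`. If `det C0 = - δ` replace `C0` by
`rf Q z * C0` for a rational vector `z` with `qf Q z ≠ 0` (`exists_qf_ne`, `rf_isom`, `rf_det`). So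
`det C0 = δ`. For `v ∈ S` let `C'_v` be as above for `B = A.map (emb v)`. Its determinant is in `W v`
and its square times `det Q_v` is `det A`, so it is `± δ`, and `δ ∈ W v`: it is `δ`. The matrix
`O v = C'_v (C0)⁻¹` is an isometry of `Q_v` of determinant 1, and the set
`{O | O * C0 ∈ U v}` is a neighbourhood of `O v`. By `so_wa` there is a rational isometry `O'` in
these neighbourhoods; take `O' * C0`.
-/

open Topology Matrix

namespace SpinWA

/-- Two square roots near a nonzero number are not opposite. -/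
private theorem LIc_ball {K : Type*} [NontriviallyNormedField K] {d w w' : K}
    (hw : w ∈ Metric.ball d (‖2 * d‖ / 2)) (hw' : w' ∈ Metric.ball d (‖2 * d‖ / 2)) :
    w' ≠ - w := by
  intro h
  rw [Metric.mem_ball, dist_eq_norm] at hw hw'
  have h1 : 2 * d = -((w - d) + (w' - d)) := by rw [h]; ring
  have h2 : ‖2 * d‖ ≤ ‖w - d‖ + ‖w' - d‖ := by
    rw [h1, norm_neg]
    exact norm_add_le _ _
  linarith

/-- Determinants of isometries. -/
private theorem LIc_det {K : Type*} [Field K] {n : ℕ} {Q A C : Matrix (Fin n) (Fin n) K} {δ : K}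
    (hd : Q.det ≠ 0) (h : Cᵀ * Q * C = A) (hδ : δ ^ 2 * Q.det = A.det) :
    C.det = δ ∨ C.det = -δ := by
  have h1 : C.det ^ 2 * Q.det = δ ^ 2 * Q.det := by
    rw [hδ, ← h, det_mul, det_mul, det_transpose]
    ring
  exact sq_eq_sq_iff_eq_or_eq_neg.1 (mul_right_cancel₀ hd h1)

/-- A congruence with the prescribed determinant. -/
private theorem LIc_sign {n : ℕ} (hn : n ≠ 0) {Q A : Matrix (Fin n) (Fin n) ℚ} {δ : ℚ}
    (hQ : Qᵀ = Q) (hd : Q.det ≠ 0) (h : Cong Q A) (hδ : δ ^ 2 * Q.det = A.det) :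
    ∃ C : Matrix (Fin n) (Fin n) ℚ, C.det ≠ 0 ∧ C.det = δ ∧ Cᵀ * Q * C = A := by
  obtain ⟨C, hC, hCA⟩ := h
  rcases LIc_det hd hCA hδ with h1 | h1
  · exact ⟨C, hC, h1, hCA⟩
  · haveI : Nonempty (Fin n) := ⟨⟨0, Nat.pos_of_ne_zero hn⟩⟩
    obtain ⟨z, hz⟩ := exists_qf_ne (two_ne_zero) hQ hd
    refine ⟨rf Q z * C, ?_, ?_, ?_⟩
    · rw [det_mul, rf_det hQ hz]
      simpa using hC
    · rw [det_mul, rf_det hQ hz, h1]
      ring
    · calc (rf Q z * C)ᵀ * Q * (rf Q z * C) = Cᵀ * ((rf Q z)ᵀ * Q * rf Q z) * C := by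
            rw [transpose_mul]
            simp only [Matrix.mul_assoc]
        _ = A := by rw [rf_isom hQ hz, hCA]

/-- The quotient of two congruences is an isometry of determinant one. -/
private theorem LIc_quot {K : Type*} [Field K] {n : ℕ} {Q A C C' : Matrix (Fin n) (Fin n) K}
    (hC : C.det ≠ 0) (h : Cᵀ * Q * C = A) (h' : C'ᵀ * Q * C' = A) (hdet : C'.det = C.det) :
    (C' * C⁻¹)ᵀ * Q * (C' * C⁻¹) = Q ∧ (C' * C⁻¹).det = 1 ∧ (C' * C⁻¹) * C = C' := by
  have hu : IsUnit C.det := isUnit_iff_ne_zero.2 hC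
  have h1 : C * C⁻¹ = 1 := Matrix.mul_nonsing_inv C hu
  have h2 : C⁻¹ * C = 1 := Matrix.nonsing_inv_mul C hu
  have h3 : (C⁻¹)ᵀ * Cᵀ = 1 := by rw [← Matrix.transpose_mul, h1, Matrix.transpose_one]
  refine ⟨?_, ?_, ?_⟩
  · calc (C' * C⁻¹)ᵀ * Q * (C' * C⁻¹) = (C⁻¹)ᵀ * (C'ᵀ * Q * C') * C⁻¹ := by
          rw [transpose_mul]
          simp only [Matrix.mul_assoc]
      _ = (C⁻¹)ᵀ * (Cᵀ * Q * C) * C⁻¹ := by rw [h', h]
      _ = ((C⁻¹)ᵀ * Cᵀ) * Q * (C * C⁻¹) := by simp only [Matrix.mul_assoc]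
      _ = Q := by rw [h1, h3, Matrix.one_mul, Matrix.mul_one]
  · have h4 := congrArg Matrix.det h1
    rw [det_mul, det_one] at h4
    rw [det_mul, hdet, h4]
  · rw [Matrix.mul_assoc, h2, Matrix.mul_one]

theorem ic_wa {n : ℕ} {Q : Matrix (Fin n) (Fin n) ℚ} (hQ : Qᵀ = Q) (hd : Q.det ≠ 0)
    (S : Finset Pl) (C : ∀ v, Matrix (Fin n) (Fin n) (Cpl v)) (hC : ∀ v ∈ S, (C v).det ≠ 0)
    (U : ∀ v, Set (Matrix (Fin n) (Fin n) (Cpl v))) (hU : ∀ v ∈ S, U v ∈ 𝓝 (C v)) :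
    ∃ (V : ∀ v, Set (Matrix (Fin n) (Fin n) (Cpl v))) (W : ∀ v, Set (Cpl v)),
      (∀ v ∈ S, V v ∈ 𝓝 ((C v)ᵀ * Q.map (emb v) * C v)) ∧ (∀ v ∈ S, W v ∈ 𝓝 (C v).det) ∧
      ∀ (A : Matrix (Fin n) (Fin n) ℚ) (δ : ℚ), Aᵀ = A → (∀ v ∈ S, A.map (emb v) ∈ V v) →
        Cong Q A → δ ^ 2 * Q.det = A.det → (∀ v ∈ S, emb v δ ∈ W v) →
        ∃ C' : Matrix (Fin n) (Fin n) ℚ, C'ᵀ * Q * C' = A ∧ ∀ v ∈ S, C'.map (emb v) ∈ U v := by
  by_cases hn : n = 0
  · subst hn
    refine ⟨fun _ => Set.univ, fun _ => Set.univ, fun _ _ => Filter.univ_mem,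
      fun _ _ => Filter.univ_mem, ?_⟩
    intro A δ _ _ _ _ _
    refine ⟨1, Subsingleton.elim _ _, fun v hv => ?_⟩
    have h1 : (1 : Matrix (Fin 0) (Fin 0) ℚ).map (emb v) = C v := Subsingleton.elim _ _
    rw [h1]
    exact mem_of_mem_nhds (hU v hv)
  -- the local data
  have hQv : ∀ v : Pl, (Q.map (emb v))ᵀ = Q.map (emb v) := by
    intro v
    rw [← transpose_map, hQ]
  have hdv : ∀ v : Pl, (Q.map (emb v)).det ≠ 0 := by
    intro v
    have : (Q.map (emb v)).det = emb v Q.det := (RingHom.map_det (emb v) Q).symm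
    rw [this]
    simpa using hd
  set W : ∀ v, Set (Cpl v) := fun v => Metric.ball (C v).det (‖2 * (C v).det‖ / 2) with hW
  have hWn : ∀ v ∈ S, W v ∈ 𝓝 (C v).det := by
    intro v hv
    apply Metric.ball_mem_nhds
    have h2 : (2 : Cpl v) * (C v).det ≠ 0 := mul_ne_zero two_ne_zero (hC v hv)
    have := norm_pos_iff.2 h2
    linarith
  set U' : ∀ v, Set (Matrix (Fin n) (Fin n) (Cpl v)) :=
    fun v => interior (U v) ∩ {C' | C'.det ∈ W v} with hU'
  have hU'n : ∀ v ∈ S, U' v ∈ 𝓝 (C v) := by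
    intro v hv
    refine Filter.inter_mem (interior_mem_nhds.2 (hU v hv)) ?_
    have hc : Continuous fun M : Matrix (Fin n) (Fin n) (Cpl v) => M.det :=
      Continuous.matrix_det continuous_id
    exact hc.continuousAt (hWn v hv)
  refine ⟨fun v => {B | Bᵀ = B → ∃ C' ∈ U' v, C'ᵀ * Q.map (emb v) * C' = B}, W, ?_, hWn, ?_⟩
  · intro v hv
    exact cong_mul_nhds two_ne_zero (hQv v) (hdv v) (hC v hv) (hU'n v hv)
  intro A δ hA hAV hcong hδ hδW
  obtain ⟨C1, hC1, hC1δ, hC1A⟩ := LIc_sign hn hQ hd hcong hδ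
  have hAv : ∀ v : Pl, (C1.map (emb v))ᵀ * Q.map (emb v) * C1.map (emb v) = A.map (emb v) := by
    intro v
    rw [← hC1A, Matrix.map_mul, Matrix.map_mul, transpose_map]
  have hC1v : ∀ v : Pl, (C1.map (emb v)).det = emb v δ := by
    intro v
    have : (C1.map (emb v)).det = emb v C1.det := (RingHom.map_det (emb v) C1).symm
    rw [this, hC1δ]
  have hC1v0 : ∀ v : Pl, (C1.map (emb v)).det ≠ 0 := by
    intro v
    rw [hC1v, ← hC1δ]
    simpa using hC1
  have hloc : ∀ v, v ∈ S → ∃ C' ∈ U' v, C'ᵀ * Q.map (emb v) * C' = A.map (emb v) := by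
    intro v hv
    apply hAV v hv
    rw [← transpose_map, hA]
  have hloc2 : ∀ v : Pl, ∃ C' : Matrix (Fin n) (Fin n) (Cpl v), v ∈ S →
      C' ∈ interior (U v) ∧ C'ᵀ * Q.map (emb v) * C' = A.map (emb v) ∧
        C'.det = (C1.map (emb v)).det := by
    intro v
    by_cases hv : v ∈ S
    · obtain ⟨C', hC', hCA⟩ := hloc v hv
      refine ⟨C', fun _ => ⟨hC'.1, hCA, ?_⟩⟩
      have hAdet : (emb v δ) ^ 2 * (Q.map (emb v)).det = (A.map (emb v)).det := by
        have h1 : (Q.map (emb v)).det = emb v Q.det := (RingHom.map_det (emb v) Q).symm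
        have h2 : (A.map (emb v)).det = emb v A.det := (RingHom.map_det (emb v) A).symm
        rw [h1, h2, ← hδ, map_mul, map_pow]
      rw [hC1v]
      rcases LIc_det (hdv v) hCA hAdet with h1 | h1
      · exact h1
      · exact absurd h1 (LIc_ball (hδW v hv) hC'.2)
    · exact ⟨1, fun h => absurd h hv⟩
  choose D hD using hloc2
  obtain ⟨O', hO', -, hO'U⟩ := so_wa hQ hd S (fun v => D v * (C1.map (emb v))⁻¹)
    (fun v hv => (LIc_quot (hC1v0 v) (hAv v) (hD v hv).2.1 (hD v hv).2.2).1)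
    (fun v hv => (LIc_quot (hC1v0 v) (hAv v) (hD v hv).2.1 (hD v hv).2.2).2.1)
    (fun v => {O | O * C1.map (emb v) ∈ U v}) (by
      intro v hv
      have h3 := (LIc_quot (hC1v0 v) (hAv v) (hD v hv).2.1 (hD v hv).2.2).2.2
      have hc : Continuous fun M : Matrix (Fin n) (Fin n) (Cpl v) => M * C1.map (emb v) :=
        Continuous.matrix_mul continuous_id continuous_const
      have h4 : U v ∈ 𝓝 ((D v * (C1.map (emb v))⁻¹) * C1.map (emb v)) := by
        rw [h3]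
        exact mem_interior_iff_mem_nhds.1 (hD v hv).1
      exact hc.continuousAt h4)
  refine ⟨O' * C1, ?_, ?_⟩
  · calc (O' * C1)ᵀ * Q * (O' * C1) = C1ᵀ * (O'ᵀ * Q * O') * C1 := by
          rw [transpose_mul]
          simp only [Matrix.mul_assoc]
      _ = A := by rw [hO', hC1A]
  · intro v hv
    have h5 := hO'U v hv
    rw [Matrix.map_mul]
    exact h5

end SpinWA
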