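import Pool.Agent.H.MP_83e36b_nt.sp.KCore

/-!
# Even degree

PROOF. `m = k + 1` even, `cf (g v) 0 = g v 0`. Let `R0 = R + cl 2 + cl 2 - e • cl 1`; its residues outside
`S` vanish (`some 2 ∈ S`, so `2`, `1` are units at `p`, `some p ∉ S`: `resW_cl_unit`, `WG.map_cl`).
Choose `t0 ∈ ℚ`, `t0 ≠ 0`, close to `τ v` for `v ∈ S` (`wa_rat`, `none ∈ S`); `b = c t0^2 ≠ 0`. Let
`g' v = Function.update (g v) 0 (emb v b)`: close to `g v` since `g v 0 = c τ_v^2`. For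
this fix first: an open neighbourhood `U' v ⊆ U v` of `g v` where the classes
`cls (2 • hk a)`, `cls ((-2) • hk1 a)` are constant and `det (hk a) ≠ 0` (`cls_hk_nhds`), and a
neighbourhood `W' v` of `τ v` and `W'' v` of `1` with `W' v * W'' v ⊆ W v`; `t0 ∈ W' v` so close to
`τ v` that `g' v ∈ U' v`. Then `coreF (emb v c) 1 (g' v) = cl 2 + cl (2 c b) + cls (2 • hk (g v)) +
cls ((-2 * 1) • hk1 (g v))`, `cl (2 c b) = cl (2 (c t0)^2) = cl 2` (`cl_mul_sq`), so by `hcl` it is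
`WG.map (emb v) R0` (`WG.map_cl`). `core` (with `U' v`, `W'' v`) gives `κ`, `G` with
`G 0 = b κ^2 = c (t0 κ)^2`; `t = t0 κ`. `coreF c 1 G = R0`, where again `cl (2 c G_0) = cl 2`, gives
the class identity for `G`.
-/

open Topology Matrix Polynomial

namespace SpinWA

private theorem StarE_cf {K : Type*} [CommRing K] {k : ℕ} (a : Fin (k + 1) → K) :
    cf a 0 = a 0 := by
  unfold cf
  rw [dif_pos (Nat.succ_pos k)]
  rfl

private theorem StarE_cl {K : Type*} [Field K] {c t : K} (hc : c ≠ 0) (ht : t ≠ 0) :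
    cl (2 * c * (c * t ^ 2)) = cl (2 : K) := by
  have h : 2 * c * (c * t ^ 2) = 2 * (c * t) ^ 2 := by ring
  rw [h, cl_mul_sq _ (mul_ne_zero hc ht)]

private theorem StarE_norm_two (p : Nat.Primes) (hp : (p : ℕ) ≠ 2) : ‖(2 : ℚ_[(p : ℕ)])‖ = 1 := by
  have h1 : ((2 : ℕ) : ℚ_[(p : ℕ)]) = 2 := by norm_cast
  rw [← h1, Padic.norm_natCast_eq_one_iff]
  exact (Nat.coprime_primes p.2 Nat.prime_two).mpr hp

private theorem StarE_res (e : ℕ) (S : Finset Pl)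
    (hSp : ∀ p : Nat.Primes, (p : ℕ) = 2 → some p ∈ S)
    (R : WG ℚ) (hR : ∀ p : Nat.Primes, some p ∉ S →
      resW (p : ℕ) (WG.map (Rat.castHom ℚ_[(p : ℕ)]) R) = 0)
    (p : Nat.Primes) (hp : some p ∉ S) :
    resW (p : ℕ) (WG.map (Rat.castHom ℚ_[(p : ℕ)]) (R + cl 2 + cl 2 - e • cl 1)) = 0 := by
  have h2 : resW (p : ℕ) (WG.map (Rat.castHom ℚ_[(p : ℕ)]) (cl (2 : ℚ))) = 0 := by
    rw [WG.map_cl]
    refine resW_cl_unit ?_
    rw [map_ofNat]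
    exact StarE_norm_two p fun h => hp (hSp p h)
  have h1 : resW (p : ℕ) (WG.map (Rat.castHom ℚ_[(p : ℕ)]) (cl (1 : ℚ))) = 0 := by
    rw [WG.map_cl, map_one]
    exact resW_cl_unit norm_one
  rw [map_sub, map_add, map_add, map_nsmul, map_sub, map_add, map_add, map_nsmul, hR p hp, h2, h1,
    smul_zero, sub_zero, add_zero, add_zero]

theorem star_even {k : ℕ} (h1k : 1 ≤ k) (hev : Even (k + 1)) (e : ℕ) (S : Finset Pl)
    (hS : none ∈ S)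
    (hSp : ∀ p : Nat.Primes, ((p : ℕ) ≤ k + 1 ∨ (p : ℕ) = 2) → some p ∈ S) (c : ℚ)
    (hc0 : c ≠ 0) (hc : ∀ p : Nat.Primes, some p ∉ S → ‖(c : ℚ_[(p : ℕ)])‖ = 1)
    (R : WG ℚ) (hR : ∀ p : Nat.Primes, some p ∉ S →
      resW (p : ℕ) (WG.map (Rat.castHom ℚ_[(p : ℕ)]) R) = 0)
    (g : ∀ v, Fin (k + 1) → Cpl v) (τ : ∀ v, Cpl v)
    (hgd : ∀ v ∈ S, (hk (g v)).det ≠ 0) (hτ0 : ∀ v ∈ S, τ v ≠ 0)
    (hτ : ∀ v ∈ S, cf (g v) 0 = emb v c * τ v ^ 2)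
    (hcl : ∀ v ∈ S, e • cl 1 + cls ((2 : Cpl v) • hk (g v)) + cls ((-2 : Cpl v) • hk1 (g v)) =
      WG.map (emb v) R)
    (U : ∀ v, Set (Fin (k + 1) → Cpl v)) (hU : ∀ v ∈ S, U v ∈ 𝓝 (g v))
    (W : ∀ v, Set (Cpl v)) (hW : ∀ v ∈ S, W v ∈ 𝓝 (τ v)) :
    ∃ (G : Fin (k + 1) → ℚ) (t : ℚ), (hk G).det ≠ 0 ∧ t ≠ 0 ∧ cf G 0 = c * t ^ 2 ∧
      e • cl 1 + cls ((2 : ℚ) • hk G) + cls ((-2 : ℚ) • hk1 G) = R ∧
      ∀ v ∈ S, (fun i => emb v (G i)) ∈ U v ∧ emb v t ∈ W v := by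
  classical
  have hcv : ∀ v, emb v c ≠ 0 := fun v => (map_ne_zero (emb v)).mpr hc0
  -- neighbourhoods
  have hV : ∀ v, ∃ V : Set (Fin (k + 1) → Cpl v), v ∈ S → (g v ∈ V ∧ IsOpen V ∧ V ⊆ U v ∧
      ∀ a ∈ V, (hk a).det ≠ 0 ∧ cls ((2 : Cpl v) • hk a) = cls ((2 : Cpl v) • hk (g v)) ∧
        cls ((-2 : Cpl v) • hk1 a) = cls ((-2 : Cpl v) • hk1 (g v))) := by
    intro v
    by_cases hv : v ∈ S
    · have h1 := cls_hk_nhds (g v) (hgd v hv) (by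
        rw [hτ v hv]
        exact mul_ne_zero (hcv v) (pow_ne_zero _ (hτ0 v hv)))
      obtain ⟨V, hVs, hVo, hVm⟩ := mem_nhds_iff.mp (Filter.inter_mem (hU v hv) h1)
      exact ⟨V, fun _ => ⟨hVm, hVo, fun a ha => (hVs ha).1, fun a ha =>
        ⟨(hVs ha).2.1, (hVs ha).2.2.2.1, (hVs ha).2.2.2.2⟩⟩⟩
    · exact ⟨Set.univ, fun h => absurd h hv⟩
  choose V hV using hV
  have hN : ∀ v, ∃ W1 W2 : Set (Cpl v), v ∈ S → (W1 ∈ 𝓝 (τ v) ∧ W2 ∈ 𝓝 (1 : Cpl v) ∧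
      ∀ x ∈ W1, ∀ y ∈ W2, x * y ∈ W v) := by
    intro v
    by_cases hv : v ∈ S
    · have h1 : ContinuousAt (fun p : Cpl v × Cpl v => p.1 * p.2) (τ v, 1) :=
        continuous_mul.continuousAt
      have h2 : W v ∈ 𝓝 ((fun p : Cpl v × Cpl v => p.1 * p.2) (τ v, 1)) := by
        simp only [mul_one]
        exact hW v hv
      have h3 := h1 h2
      rw [Filter.mem_map, nhds_prod_eq, Filter.mem_prod_iff] at h3
      obtain ⟨W1, hW1, W2, hW2, h4⟩ := h3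
      exact ⟨W1, W2, fun _ => ⟨hW1, hW2, fun x hx y hy => h4 (Set.mk_mem_prod hx hy)⟩⟩
    · exact ⟨Set.univ, Set.univ, fun h => absurd h hv⟩
  choose W1 W2 hN using hN
  have hup : ∀ v ∈ S, Function.update (g v) 0 (emb v c * τ v ^ 2) = g v := fun v hv => by
    rw [← hτ v hv, StarE_cf, Function.update_eq_self]
  have hcont : ∀ v, Continuous fun t : Cpl v =>
      (Function.update (g v) 0 (emb v c * t ^ 2) : Fin (k + 1) → Cpl v) := fun v =>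
    continuous_const.update 0 (continuous_const.mul (continuous_pow 2))
  obtain ⟨t0, ht0⟩ := wa_rat S τ (fun v => W1 v ∩ {t : Cpl v | t ≠ 0 ∧
      (Function.update (g v) 0 (emb v c * t ^ 2) : Fin (k + 1) → Cpl v) ∈ V v}) fun v hv => by
    refine Filter.inter_mem (hN v hv).1 ?_
    refine Filter.Eventually.and (isOpen_ne.mem_nhds (hτ0 v hv)) ?_
    refine (hcont v).continuousAt.eventually_mem ?_
    rw [hup v hv]
    exact (hV v hv).2.1.mem_nhds (hV v hv).1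
  have ht00 : t0 ≠ 0 := by
    intro h
    apply (ht0 none hS).2.1
    rw [h, map_zero]
  have hb : c * t0 ^ 2 ≠ 0 := mul_ne_zero hc0 (pow_ne_zero _ ht00)
  have hbv : ∀ v, emb v (c * t0 ^ 2) = emb v c * emb v t0 ^ 2 := fun v => by
    rw [map_mul, map_pow]
  have hgV : ∀ v ∈ S, (Function.update (g v) 0 (emb v (c * t0 ^ 2)) : Fin (k + 1) → Cpl v) ∈ V v :=
    fun v hv => by
      rw [hbv]
      exact (ht0 v hv).2.2
  obtain ⟨κ, G, hκ, hG0, hGd, hGc, hGU⟩ := core h1k hev S hS hSp c (c * t0 ^ 2) hc0 hb hc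
    (R + cl 2 + cl 2 - e • cl 1) (StarE_res e S (fun p hp => hSp p (Or.inr hp)) R hR)
    (fun v => (Function.update (g v) 0 (emb v (c * t0 ^ 2)) : Fin (k + 1) → Cpl v))
    (fun v _ => Function.update_self _ _ _)
    (fun v hv => ((hV v hv).2.2.2 _ (hgV v hv)).1)
    (fun v hv => by
      obtain ⟨-, h1, h2⟩ := (hV v hv).2.2.2 _ (hgV v hv)
      have h3 : emb v t0 ≠ 0 := (map_ne_zero (emb v)).mpr ht00
      rw [hbv] at h1 h2
      unfold coreF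
      rw [StarE_cf, Function.update_self, hbv, StarE_cl (hcv v) h3, mul_one, h1, h2, map_sub,
        map_add, map_add, map_nsmul, ← hcl v hv, WG.map_cl, WG.map_cl, map_one, map_ofNat]
      abel)
    V (fun v hv => (hV v hv).2.1.mem_nhds (hgV v hv)) W2 (fun v hv => (hN v hv).2.1)
  have hG0' : cf G 0 = c * (t0 * κ) ^ 2 := by
    rw [StarE_cf, hG0]
    ring
  refine ⟨G, t0 * κ, hGd, mul_ne_zero ht00 hκ, hG0', ?_, fun v hv => ⟨(hV v hv).2.2.1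
    (hGU v hv).1, ?_⟩⟩
  · unfold coreF at hGc
    rw [hG0', StarE_cl hc0 (mul_ne_zero ht00 hκ), mul_one] at hGc
    have h1 : e • cl (1 : ℚ) + cls ((2 : ℚ) • hk G) + cls ((-2 : ℚ) • hk1 G) =
        e • cl 1 - cl 2 - cl 2 +
          (cl 2 + cl 2 + cls ((2 : ℚ) • hk G) + cls ((-2 : ℚ) • hk1 G)) := by abel
    rw [h1, hGc]
    abel
  · rw [map_mul]
    exact (hN v hv).2.2 _ (ht0 v hv).1 _ (hGU v hv).2

end SpinWA
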