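import Pool.Agent.H.MP_83e36b_nt.sp.StarLoc

/-!
# Odd degree

`m = k + 1 + 1` is odd, `k + 1` even.

PROOF. (1) `star_loc` for every `v ∈ S` (`K = Cpl v`, `φ = emb v`, `c = emb v c`) gives `g' v`, `η v`.
With `R0 = R - e • cl 1` the class identity and `hcl` give
`coreF (emb v c) 1 (g' v) = WG.map (emb v) R0`. The residues of `R0` outside `S` vanish (`hR`,
`resW_cl_unit` for `cl 1`, `WG.map_cl`).
(2) For `v ∈ S` choose an open neighbourhood `N1 v` of `g' v` and a neighbourhood `N2 v` of `η v` such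
that the last conclusion of `star_loc` holds on `N1 v × N2 v`, and `cls (2 • hk a)`,
`cls ((-2) • hk1 a)` are constant for `a ∈ N1 v` (`cls_hk_nhds`) and `cl (2 c cf a 0)` is constant
(`cl_nhds`). Choose `b ∈ ℚ`, `b ≠ 0`, close to `g' v 0` and `η ∈ ℚ`, `emb v η ∈ N2 v`, `v ∈ S`
(`wa_rat`, `none ∈ S`), and let `g'' v = Function.update (g' v) 0 (emb v b) ∈ N1 v`
(`cf a 0 = a 0`). So `coreF (emb v c) 1 (g'' v) = coreF (emb v c) 1 (g' v)`. `core` (with the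
neighbourhoods `N1 v`, which are neighbourhoods of `g'' v`) gives `κ` and `G'` with
`G' 0 = b κ^2 ≠ 0`, `coreF c 1 G' = R0`, `emb ∘ G' ∈ N1 v`.
(3) `ρ = 2 c G'_0 η^2`, `W' = Wop G' ρ`, `a' = cpc W'`, `t = A' η`,
`A' = ((Aop G').submatrix id finSumFinEquiv).det`. The embedded objects are the corresponding
objects of the embedded `G'`, `η` (`Wop_map`, `cpc_map`, `kryM_det_map`, `cmS_map`, `Aop_map`,
`cf_map`, `hk_det_map`, `RingHom.map_det`), so `emb ∘ a' ∈ U v`, `emb v t ∈ W v`, and the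
determinants are nonzero over `ℚ` (`none ∈ S`). `bwd2` gives `R'` with
`R'ᵀ (hk a') R' = hk (cons 0 G')`, `cmp a' R' = R' W'`. `det_second` over `ℚ`:
`2 cf G' 0 cf a' 0 = A'^2 ρ = A'^2 2 c cf G' 0 η^2`, so `cf a' 0 = c (A' η)^2 = c t^2`, nonzero.
`cls_second` over `ℚ` (`ρ ≠ 0`): `e • cl 1 + cls (2 • hk a') + cls ((-2) • hk1 a') = e • cl 1 +
cls (2 • hk G') + cl 2 + cls ((-2) • hk1 G') + cl ρ`, `cl ρ = cl (2 c cf G' 0)` (`cl_mul_sq`): it is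
`e • cl 1 + coreF c 1 G' = R`. The result is `G = a'`, `t`.
-/

open Topology Matrix Polynomial

namespace SpinWA

private theorem StarO_cf {R : Type*} [CommRing R] {k : ℕ} (a : Fin (k + 1) → R) :
    cf a 0 = a 0 := by
  unfold cf
  rw [dif_pos (Nat.succ_pos k)]
  rfl

private theorem StarO_loc {K : Type} [NontriviallyNormedField K] [CompleteSpace K] [CharZero K]
    {k : ℕ} (h1k : 1 ≤ k) (hev : Even (k + 1)) (φ : ℚ →+* K) {c : K}
    (hc : c ≠ 0) (g : Fin (k + 1 + 1) → K) {τ : K} (hgd : (hk g).det ≠ 0) (hτ0 : τ ≠ 0)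
    (hτ : cf g 0 = c * τ ^ 2) {U : Set (Fin (k + 1 + 1) → K)} (hU : U ∈ 𝓝 g)
    {W : Set K} (hW : W ∈ 𝓝 τ) :
    ∃ (g' : Fin (k + 1) → K) (η : K) (N1 : Set (Fin (k + 1) → K))
      (N2 : Set K), IsOpen N1 ∧ g' ∈ N1 ∧ N2 ∈ 𝓝 η ∧ g' 0 ≠ 0 ∧ η ≠ 0 ∧
      cls ((2 : K) • hk g) + cls ((-2 : K) • hk1 g) = coreF c 1 g' ∧
      (∀ a ∈ N1, (hk a).det ≠ 0 ∧ coreF c 1 a = coreF c 1 g') ∧
      ∀ a ∈ N1, ∀ y ∈ N2, (hk a).det ≠ 0 ∧ cf a 0 ≠ 0 ∧
        y ≠ 0 ∧ (cmS a).det ≠ 0 ∧ (kryM (Wop a (2 * c * cf a 0 * y ^ 2))).det ≠ 0 ∧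
        cpc (Wop a (2 * c * cf a 0 * y ^ 2)) ∈ U ∧
        ((Aop a).submatrix id finSumFinEquiv).det ≠ 0 ∧
        ((Aop a).submatrix id finSumFinEquiv).det * y ∈ W := by
  obtain ⟨g', η, h1, h2, h3, h4, h5⟩ := star_loc φ h1k hev g hc hgd hτ0 hτ hU hW
  have t2 : (2 : K) ≠ 0 := two_ne_zero
  have h0 : g' 0 ≠ 0 := by
    rw [← StarO_cf g']
    exact h2
  obtain ⟨M1, hM1, M2, hM2, hM⟩ := mem_nhds_prod_iff.1 h5
  have h6 := cls_hk_nhds g' h1 h2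
  have h7 : ∀ᶠ a in 𝓝 g', cl (2 * c * cf a 0) = cl (2 * c * cf g' 0) := by
    have hcont : Continuous fun a : Fin (k + 1) → K => 2 * c * cf a 0 := by
      simp only [StarO_cf]
      exact continuous_const.mul (continuous_apply 0)
    exact hcont.continuousAt.eventually
      (cl_nhds t2 (mul_ne_zero (mul_ne_zero t2 hc) h2))
  have h8 : M1 ∩ {a | ((hk a).det ≠ 0 ∧ cf a 0 ≠ 0 ∧
      cls ((2 : K) • hk a) = cls ((2 : K) • hk g') ∧
      cls ((-2 : K) • hk1 a) = cls ((-2 : K) • hk1 g')) ∧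
      cl (2 * c * cf a 0) = cl (2 * c * cf g' 0)} ∈ 𝓝 g' :=
    Filter.inter_mem hM1 (h6.and h7)
  refine ⟨g', η, interior (M1 ∩ {a | ((hk a).det ≠ 0 ∧ cf a 0 ≠ 0 ∧
      cls ((2 : K) • hk a) = cls ((2 : K) • hk g') ∧
      cls ((-2 : K) • hk1 a) = cls ((-2 : K) • hk1 g')) ∧
      cl (2 * c * cf a 0) = cl (2 * c * cf g' 0)}), M2, isOpen_interior,
      mem_interior_iff_mem_nhds.2 h8, hM2, h0, h3, ?_, ?_, ?_⟩
  · rw [h4]
    unfold coreF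
    rw [mul_one]
    abel
  · intro a ha
    obtain ⟨-, ⟨h9, -, h11, h12⟩, h13⟩ := interior_subset ha
    refine ⟨h9, ?_⟩
    unfold coreF
    rw [mul_one, h11, h12, h13]
  · intro a ha y hy
    have h9 := hM (Set.mk_mem_prod (interior_subset ha).1 hy)
    exact h9

private theorem StarO_fin {k : ℕ} (e : ℕ) (S : Finset Pl) (hS : none ∈ S) (c : ℚ)
    (R : WG ℚ) (U : ∀ v, Set (Fin (k + 1 + 1) → Cpl v)) (W : ∀ v, Set (Cpl v))
    (G : Fin (k + 1) → ℚ) (η : ℚ) (hGd : (hk G).det ≠ 0) (hG0 : cf G 0 ≠ 0) (hη : η ≠ 0)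
    (hc0 : c ≠ 0) (hcore : coreF c 1 G = R - e • cl 1)
    (h : ∀ v ∈ S, (cmS fun i => emb v (G i)).det ≠ 0 ∧
      (kryM (Wop (fun i => emb v (G i))
        (2 * emb v c * cf (fun i => emb v (G i)) 0 * emb v η ^ 2))).det ≠ 0 ∧
      cpc (Wop (fun i => emb v (G i))
        (2 * emb v c * cf (fun i => emb v (G i)) 0 * emb v η ^ 2)) ∈ U v ∧
      ((Aop fun i => emb v (G i)).submatrix id finSumFinEquiv).det ≠ 0 ∧
      ((Aop fun i => emb v (G i)).submatrix id finSumFinEquiv).det * emb v η ∈ W v) :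
    ∃ (G : Fin (k + 1 + 1) → ℚ) (t : ℚ), (hk G).det ≠ 0 ∧ t ≠ 0 ∧ cf G 0 = c * t ^ 2 ∧
      e • cl 1 + cls ((2 : ℚ) • hk G) + cls ((-2 : ℚ) • hk1 G) = R ∧
      ∀ v ∈ S, (fun i => emb v (G i)) ∈ U v ∧ emb v t ∈ W v := by
  have hρe : ∀ v, emb v (2 * c * cf G 0 * η ^ 2) =
      2 * emb v c * cf (fun i => emb v (G i)) 0 * emb v η ^ 2 := by
    intro v
    rw [map_mul, map_mul, map_mul, map_pow, cf_map, map_ofNat]
  have hAe : ∀ v, emb v ((Aop G).submatrix id finSumFinEquiv).det =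
      ((Aop fun i => emb v (G i)).submatrix id finSumFinEquiv).det := by
    intro v
    rw [RingHom.map_det, RingHom.mapMatrix_apply, ← Matrix.submatrix_map, Aop_map]
  have hSe : ∀ v, emb v (cmS G).det = (cmS fun i => emb v (G i)).det := by
    intro v
    rw [RingHom.map_det, RingHom.mapMatrix_apply, cmS_map]
  have hKe : ∀ v, emb v (kryM (Wop G (2 * c * cf G 0 * η ^ 2))).det =
      (kryM (Wop (fun i => emb v (G i))
        (2 * emb v c * cf (fun i => emb v (G i)) 0 * emb v η ^ 2))).det := by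
    intro v
    rw [kryM_det_map, Wop_map, hρe]
  obtain ⟨n1, n2, -, n4, -⟩ := h none hS
  have hSd : (cmS G).det ≠ 0 := by
    intro h1
    rw [← hSe, h1, map_zero] at n1
    exact n1 rfl
  have hKd : (kryM (Wop G (2 * c * cf G 0 * η ^ 2))).det ≠ 0 := by
    intro h1
    rw [← hKe, h1, map_zero] at n2
    exact n2 rfl
  have hAd : ((Aop G).submatrix id finSumFinEquiv).det ≠ 0 := by
    intro h1
    rw [← hAe, h1, map_zero] at n4
    exact n4 rfl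
  have hρ : 2 * c * cf G 0 * η ^ 2 ≠ 0 :=
    mul_ne_zero (mul_ne_zero (mul_ne_zero two_ne_zero hc0) hG0) (pow_ne_zero 2 hη)
  obtain ⟨R', hR', r1, r2⟩ := bwd2 G (2 * c * cf G 0 * η ^ 2) hGd hG0 hSd hKd
  have hdet := det_second G (2 * c * cf G 0 * η ^ 2) hGd hG0 _ R' hR' r1 r2
  set A' : ℚ := ((Aop G).submatrix id finSumFinEquiv).det with hA'
  set a' : Fin (k + 1 + 1) → ℚ := cpc (Wop G (2 * c * cf G 0 * η ^ 2)) with ha'
  have hcf : cf a' 0 = c * (A' * η) ^ 2 := by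
    have h1 : (2 * cf G 0) * cf a' 0 = (2 * cf G 0) * (c * (A' * η) ^ 2) := by
      rw [hdet]
      ring
    exact mul_left_cancel₀ (mul_ne_zero two_ne_zero hG0) h1
  have ht : A' * η ≠ 0 := mul_ne_zero hAd hη
  have hcf0 : cf a' 0 ≠ 0 := by
    rw [hcf]
    exact mul_ne_zero hc0 (pow_ne_zero 2 ht)
  obtain ⟨q1, q2⟩ := cls_second G hρ hGd hG0 a' hcf0 R' hR' r1 r2
  refine ⟨a', A' * η, q1, ht, hcf, ?_, ?_⟩
  · rw [add_assoc, q2, cl_mul_sq _ hη]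
    unfold coreF at hcore
    rw [mul_one] at hcore
    have h1 : cls ((2 : ℚ) • hk G) + cl 2 + (cls ((-2 : ℚ) • hk1 G) + cl (2 * c * cf G 0)) =
        cl 2 + cl (2 * c * cf G 0) + cls ((2 : ℚ) • hk G) + cls ((-2 : ℚ) • hk1 G) := by
      abel
    rw [h1, hcore]
    abel
  · intro v hv
    obtain ⟨-, -, m3, -, m5⟩ := h v hv
    constructor
    · have h1 : (fun i => emb v (a' i)) = cpc (Wop (fun i => emb v (G i))
          (2 * emb v c * cf (fun i => emb v (G i)) 0 * emb v η ^ 2)) := by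
        funext i
        rw [ha', cpc_map, Wop_map, hρe]
      rw [h1]
      exact m3
    · rw [map_mul, hA', hAe]
      exact m5

theorem star_odd {k : ℕ} (h1k : 1 ≤ k) (hev : Even (k + 1)) (e : ℕ) (S : Finset Pl)
    (hS : none ∈ S)
    (hSp : ∀ p : Nat.Primes, ((p : ℕ) ≤ k + 1 ∨ (p : ℕ) = 2) → some p ∈ S) (c : ℚ)
    (hc0 : c ≠ 0) (hc : ∀ p : Nat.Primes, some p ∉ S → ‖(c : ℚ_[(p : ℕ)])‖ = 1)
    (R : WG ℚ) (hR : ∀ p : Nat.Primes, some p ∉ S →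
      resW (p : ℕ) (WG.map (Rat.castHom ℚ_[(p : ℕ)]) R) = 0)
    (g : ∀ v, Fin (k + 1 + 1) → Cpl v) (τ : ∀ v, Cpl v)
    (hgd : ∀ v ∈ S, (hk (g v)).det ≠ 0) (hτ0 : ∀ v ∈ S, τ v ≠ 0)
    (hτ : ∀ v ∈ S, cf (g v) 0 = emb v c * τ v ^ 2)
    (hcl : ∀ v ∈ S, e • cl 1 + cls ((2 : Cpl v) • hk (g v)) + cls ((-2 : Cpl v) • hk1 (g v)) =
      WG.map (emb v) R)
    (U : ∀ v, Set (Fin (k + 1 + 1) → Cpl v)) (hU : ∀ v ∈ S, U v ∈ 𝓝 (g v))
    (W : ∀ v, Set (Cpl v)) (hW : ∀ v ∈ S, W v ∈ 𝓝 (τ v)) :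
    ∃ (G : Fin (k + 1 + 1) → ℚ) (t : ℚ), (hk G).det ≠ 0 ∧ t ≠ 0 ∧ cf G 0 = c * t ^ 2 ∧
      e • cl 1 + cls ((2 : ℚ) • hk G) + cls ((-2 : ℚ) • hk1 G) = R ∧
      ∀ v ∈ S, (fun i => emb v (G i)) ∈ U v ∧ emb v t ∈ W v := by
  have hce : ∀ v, emb v c ≠ 0 := fun v => (map_ne_zero (emb v)).2 hc0
  have hR0 : ∀ p : Nat.Primes, some p ∉ S →
      resW (p : ℕ) (WG.map (Rat.castHom ℚ_[(p : ℕ)]) (R - e • cl 1)) = 0 := by
    intro p hp
    rw [map_sub, map_sub, hR p hp, map_nsmul, map_nsmul, WG.map_cl, map_one,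
      resW_cl_unit (norm_one), nsmul_zero, sub_zero]
  have hex : ∀ v : Pl, ∃ (g' : Fin (k + 1) → Cpl v) (η : Cpl v)
      (N1 : Set (Fin (k + 1) → Cpl v)) (N2 : Set (Cpl v)), v ∈ S →
      (IsOpen N1 ∧ g' ∈ N1 ∧ N2 ∈ 𝓝 η ∧ g' 0 ≠ 0 ∧ η ≠ 0 ∧
      cls ((2 : Cpl v) • hk (g v)) + cls ((-2 : Cpl v) • hk1 (g v)) = coreF (emb v c) 1 g' ∧
      (∀ a ∈ N1, (hk a).det ≠ 0 ∧ coreF (emb v c) 1 a = coreF (emb v c) 1 g') ∧
      ∀ a ∈ N1, ∀ y ∈ N2, (hk a).det ≠ 0 ∧ cf a 0 ≠ 0 ∧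
        y ≠ 0 ∧ (cmS a).det ≠ 0 ∧ (kryM (Wop a (2 * emb v c * cf a 0 * y ^ 2))).det ≠ 0 ∧
        cpc (Wop a (2 * emb v c * cf a 0 * y ^ 2)) ∈ U v ∧
        ((Aop a).submatrix id finSumFinEquiv).det ≠ 0 ∧
        ((Aop a).submatrix id finSumFinEquiv).det * y ∈ W v) := by
    intro v
    by_cases hv : v ∈ S
    · obtain ⟨g', η, N1, N2, h1⟩ := StarO_loc h1k hev (emb v) (hce v) (g v) (hgd v hv) (hτ0 v hv)
        (hτ v hv) (hU v hv) (hW v hv)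
      exact ⟨g', η, N1, N2, fun _ => h1⟩
    · exact ⟨0, 0, ∅, ∅, fun h => absurd h hv⟩
  choose g' η N1 N2 hN using hex
  -- the rational number `b`
  have hb1 : ∀ v ∈ S, {y : Cpl v | Function.update (g' v) 0 y ∈ N1 v ∧ y ≠ 0} ∈ 𝓝 (g' v 0) := by
    intro v hv
    obtain ⟨h1, h2, -, h4, -⟩ := hN v hv
    have h5 : ∀ᶠ y in 𝓝 (g' v 0), Function.update (g' v) 0 y ∈ N1 v := by
      have hcont : Continuous fun y : Cpl v => Function.update (g' v) 0 y :=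
        continuous_const.update 0 continuous_id
      have h6 : N1 v ∈ 𝓝 (Function.update (g' v) 0 (g' v 0)) := by
        rw [Function.update_eq_self]
        exact h1.mem_nhds h2
      exact hcont.continuousAt h6
    exact h5.and (eventually_ne_nhds h4)
  obtain ⟨b, hb⟩ := wa_rat S (fun v => g' v 0) _ hb1
  have hη1 : ∀ v ∈ S, N2 v ∈ 𝓝 (η v) := fun v hv => (hN v hv).2.2.1
  obtain ⟨y, hy⟩ := wa_rat S η N2 hη1
  have hb0 : b ≠ 0 := by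
    intro h1
    apply (hb none hS).2
    rw [h1, map_zero]
  obtain ⟨κ, G, hκ, hG0, hGd, hcore, hG⟩ := core h1k hev S hS hSp c b hc0 hb0 hc
    (R - e • cl 1) hR0 (fun v => Function.update (g' v) 0 (emb v b))
    (fun v _ => Function.update_self 0 _ _)
    (fun v hv => ((hN v hv).2.2.2.2.2.2.1 _ (hb v hv).1).1)
    (fun v hv => by
      rw [((hN v hv).2.2.2.2.2.2.1 _ (hb v hv).1).2, ← (hN v hv).2.2.2.2.2.1, map_sub,
        ← hcl v hv, map_nsmul, WG.map_cl, map_one]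
      abel)
    N1 (fun v hv => (hN v hv).1.mem_nhds (hb v hv).1)
    (fun _ => Set.univ) (fun _ _ => Filter.univ_mem)
  have hGc : cf G 0 ≠ 0 := by
    rw [StarO_cf, hG0]
    exact mul_ne_zero hb0 (pow_ne_zero 2 hκ)
  have hloc := fun v hv => (hN v hv).2.2.2.2.2.2.2 _ (hG v hv).1 _ (hy v hv)
  have hy0 : y ≠ 0 := by
    intro h1
    apply (hloc none hS).2.2.1
    rw [h1, map_zero]
  refine StarO_fin e S hS c R U W G y hGd hGc hy0 hc0 hcore fun v hv => ?_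
  obtain ⟨-, -, -, h4, h5, h6, h7, h8⟩ := hloc v hv
  exact ⟨h4, h5, h6, h7, h8⟩

end SpinWA
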