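import Mathlib
import Pool.Agent.H.MP_83e36b_nt.Statement

/-!
# The variety of polynomials with a basis of prescribed trace form

For a symmetric invertible rational matrix `Q` of size `n` let `X_Q` be the variety of pairs
`(f, B)`, where `f = X^n + a_{n-1} X^(n-1) + ... + a_0` is a monic polynomial of degree `n` and `B` is an
invertible matrix of size `n` with `Bᵀ Q B` = the matrix of the trace form `Tr (u v)` of the algebra
`K[X]/(f)` in the basis `1, x, ..., x^(n-1)`.
-/

open Polynomial Matrix

namespace SpinWA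

/-- The matrix of the trace form `(u, v) ↦ Tr (u v)` of the `R`-algebra `R[X]/(f)`,
`f = X^n + a_{n-1} X^(n-1) + ... + a_0`, in the basis `1, x, ..., x^(n-1)`: the entry `(i, j)` is
`Tr (x^i x^j)`. -/
noncomputable def trForm {R : Type*} [CommRing R] {n : ℕ} (a : Fin n → R) :
    Matrix (Fin n) (Fin n) R :=
  Matrix.of fun i j => Algebra.trace R (AdjoinRoot (AnWA.monicPoly a))
    (AdjoinRoot.root (AnWA.monicPoly a) ^ (i : ℕ) * AdjoinRoot.root (AnWA.monicPoly a) ^ (j : ℕ))

/-- The points with coordinates in the `ℚ`-algebra `R` of the variety `X_Q` of the pairs `(f, B)`,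
`f = X^n + a_{n-1} X^(n-1) + ... + a_0`, `B` an invertible matrix with
`Bᵀ Q B` = matrix of the trace form of `R[X]/(f)`: the set of the pairs `((a_0, ..., a_{n-1}), B)`.
If `R` is a topological ring it carries the subspace topology. -/
def XTr {n : ℕ} (Q : Matrix (Fin n) (Fin n) ℚ) (R : Type*) [CommRing R] [Algebra ℚ R] :
    Set ((Fin n → R) × Matrix (Fin n) (Fin n) R) :=
  {x | x.2ᵀ * Q.map (algebraMap ℚ R) * x.2 = trForm x.1 ∧ IsUnit x.2.det}

end SpinWA
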