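import Pool.Agent.H.MP_83e36b_nt.sp.StarE
import Pool.Agent.H.MP_83e36b_nt.sp.StarO
import Pool.Agent.H.MP_83e36b_nt.sp.CCls
import Pool.Agent.H.MP_83e36b_nt.sp.LIc
import Pool.Agent.H.MP_83e36b_nt.sp.KSq

/-!
# Weak approximation for the variety `Cᵀ Q C = gamM (dbl e g)`

PROOF. Let `c = det Q`. Let `S'` be a finite set of places containing `S`, `none`, all primes `≤ m + 1`
and 2, all primes `p` with `‖c‖_p ≠ 1` (finitely many) and the finite set of primes of `res_finite`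
for `cls Q`. For `v ∈ S'`: `det (gamM (dbl e (g v))) = (2^m det (hk (g v)) cf (g v) 0 ^ e)^2 cf (g v) 0`
(`det_gam`) is `det (C v)^2 c ≠ 0`, so `det (hk (g v)) ≠ 0`, `cf (g v) 0 ≠ 0` and
`τ v = det (C v) / (2^m det (hk (g v)) cf (g v) 0 ^ e) ≠ 0` satisfies `cf (g v) 0 = c τ_v^2`. The class:
`cls_gam` and `cls (gamM …) = cls (Q.map (emb v)) = WG.map (emb v) (cls Q)` (`cls_cong`, `map_cls`).
Apply `ic_wa` to `S'`, `C`, `W`: neighbourhoods `V v` of `gamM (dbl e (g v))` and `W' v` of `det (C v)`.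
Choose open neighbourhoods `U' v ⊆ U v` of `g v` and `T' v` of `τ v` such that for `a ∈ U' v`,
`t ∈ T' v`: `gamM (dbl e a) ∈ V v` and `2^m det (hk a) cf a 0 ^ e t ∈ W' v` (continuity:
`continuous_gamM`, `continuous_dbl`, `continuous_hk`, `continuous_cf`). (For `v ∈ S' \ S` replace
`U v`, `W v` by `Set.univ`.) `star_even` (`m = k + 1`) resp. `star_odd` (`m = k + 1 + 1`) for
`R = cls Q` gives `G`, `t`. Let `A = gamM (dbl e G)`, `δ = 2^m det (hk G) cf G 0 ^ e t`: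
`δ^2 det Q = (2^m det (hk G) cf G 0 ^ e)^2 c t^2 = det A` (`det_gam`). `cls A = cls Q` (`cls_gam`), so
`Cong Q A` (`cong_of_cls`; `gamM_transpose`). `A.map (emb v) = gamM (dbl e (emb ∘ G)) ∈ V v`
(`gamM_map`, `dbl_map`), `emb v δ ∈ W' v`. So `ic_wa` gives `C'`; `det C' ≠ 0` since `det A ≠ 0`.
-/

open Topology Matrix Polynomial

namespace SpinWA

theorem zwab_star {m : ℕ} (hm : 2 ≤ m) (e : ℕ) (S : Finset Pl)
    (hS : none ∈ S)
    (hSp : ∀ p : Nat.Primes, ((p : ℕ) ≤ m + 1 ∨ (p : ℕ) = 2) → some p ∈ S) (c : ℚ)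
    (hc0 : c ≠ 0) (hc : ∀ p : Nat.Primes, some p ∉ S → ‖(c : ℚ_[(p : ℕ)])‖ = 1)
    (R : WG ℚ) (hR : ∀ p : Nat.Primes, some p ∉ S →
      resW (p : ℕ) (WG.map (Rat.castHom ℚ_[(p : ℕ)]) R) = 0)
    (g : ∀ v, Fin m → Cpl v) (τ : ∀ v, Cpl v)
    (hgd : ∀ v ∈ S, (hk (g v)).det ≠ 0) (hτ0 : ∀ v ∈ S, τ v ≠ 0)
    (hτ : ∀ v ∈ S, cf (g v) 0 = emb v c * τ v ^ 2)
    (hcl : ∀ v ∈ S, e • cl 1 + cls ((2 : Cpl v) • hk (g v)) + cls ((-2 : Cpl v) • hk1 (g v)) =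
      WG.map (emb v) R)
    (U : ∀ v, Set (Fin m → Cpl v)) (hU : ∀ v ∈ S, U v ∈ 𝓝 (g v))
    (W : ∀ v, Set (Cpl v)) (hW : ∀ v ∈ S, W v ∈ 𝓝 (τ v)) :
    ∃ (G : Fin m → ℚ) (t : ℚ), (hk G).det ≠ 0 ∧ t ≠ 0 ∧ cf G 0 = c * t ^ 2 ∧
      e • cl 1 + cls ((2 : ℚ) • hk G) + cls ((-2 : ℚ) • hk1 G) = R ∧
      ∀ v ∈ S, (fun i => emb v (G i)) ∈ U v ∧ emb v t ∈ W v := by
  rcases Nat.even_or_odd m with hev | hod
  · obtain ⟨k, rfl⟩ : ∃ k, m = k + 1 := ⟨m - 1, by omega⟩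
    exact star_even (by omega) hev e S hS (fun p hp => hSp p (by omega)) c hc0 hc R hR g τ hgd hτ0
      hτ hcl U hU W hW
  · obtain ⟨k, rfl⟩ : ∃ k, m = k + 1 + 1 := ⟨m - 2, by omega⟩
    have hev : Even (k + 1) := by
      rcases hod with ⟨r, hr⟩
      exact ⟨r, by omega⟩
    have h1k : 1 ≤ k := by
      rcases hod with ⟨r, hr⟩
      omega
    exact star_odd h1k hev e S hS (fun p hp => hSp p (by omega)) c hc0 hc R hR g τ hgd hτ0
      hτ hcl U hU W hW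

theorem z_wa {m e : ℕ} (he : e ≤ 1) (hm : 2 ≤ m)
    {Q : Matrix (Fin (2 * m + e)) (Fin (2 * m + e)) ℚ} (hQ : Qᵀ = Q) (hd : Q.det ≠ 0)
    (S : Finset Pl) (g : ∀ v, Fin m → Cpl v)
    (C : ∀ v, Matrix (Fin (2 * m + e)) (Fin (2 * m + e)) (Cpl v))
    (hC : ∀ v, (C v)ᵀ * Q.map (emb v) * C v = gamM (dbl e (g v))) (hCd : ∀ v, (C v).det ≠ 0)
    (U : ∀ v, Set (Fin m → Cpl v)) (hU : ∀ v ∈ S, U v ∈ 𝓝 (g v))
    (W : ∀ v, Set (Matrix (Fin (2 * m + e)) (Fin (2 * m + e)) (Cpl v)))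
    (hW : ∀ v ∈ S, W v ∈ 𝓝 (C v)) :
    ∃ (G : Fin m → ℚ) (C' : Matrix (Fin (2 * m + e)) (Fin (2 * m + e)) ℚ),
      C'ᵀ * Q * C' = gamM (dbl e G) ∧ C'.det ≠ 0 ∧
      ∀ v ∈ S, (fun i => emb v (G i)) ∈ U v ∧ C'.map (emb v) ∈ W v := by
  classical
  obtain ⟨P0, hP0⟩ := res_finite (cls Q)
  have hfin1 : {p : Nat.Primes | (p : ℕ) ≤ m + 1}.Finite := by
    have : Set.InjOn (fun p : Nat.Primes => (p : ℕ)) {p : Nat.Primes | (p : ℕ) ≤ m + 1} :=
      fun a _ b _ h => Subtype.ext h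
    refine Set.Finite.of_finite_image ((Set.finite_Iic (m + 1)).subset ?_) this
    rintro _ ⟨p, hp, rfl⟩
    exact hp
  have hfin2 := norm_eq_one_finite Q.det hd
  obtain ⟨S', hS'⟩ : ∃ S' : Finset Pl, S' = S ∪ {none} ∪ (hfin1.toFinset.image some) ∪
    (hfin2.toFinset.image some) ∪ (P0.image some) := ⟨_, rfl⟩
  have hSS' : ∀ v ∈ S, v ∈ S' := fun v hv => by
    rw [hS']; simp [hv]
  have hnone : none ∈ S' := by rw [hS']; simp
  have hSp : ∀ p : Nat.Primes, ((p : ℕ) ≤ m + 1 ∨ (p : ℕ) = 2) → some p ∈ S' := by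
    intro p hp
    have : (p : ℕ) ≤ m + 1 := by omega
    rw [hS']
    simp [this]
  have hcn : ∀ p : Nat.Primes, some p ∉ S' → ‖((Q.det : ℚ) : ℚ_[(p : ℕ)])‖ = 1 := by
    intro p hp
    by_contra h
    apply hp
    rw [hS']
    simp only [Finset.mem_union, Finset.mem_image, Set.Finite.mem_toFinset, Set.mem_ofPred_eq]
    exact Or.inl (Or.inr ⟨p, h, rfl⟩)
  have hR : ∀ p : Nat.Primes, some p ∉ S' →
      resW (p : ℕ) (WG.map (Rat.castHom ℚ_[(p : ℕ)]) (cls Q)) = 0 := by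
    intro p hp
    refine hP0 p fun h => hp ?_
    rw [hS']
    simp only [Finset.mem_union, Finset.mem_image]
    exact Or.inr ⟨p, h, rfl⟩
  have h2 : ∀ v : Pl, (2 : Cpl v) ≠ 0 := fun v => two_ne_zero
  have hdetQ : ∀ v, (Q.map (emb v)).det = emb v Q.det := fun v => by
    rw [RingHom.map_det]; rfl
  have hQt : ∀ v, (Q.map (emb v))ᵀ = Q.map (emb v) := fun v => by
    rw [← Matrix.transpose_map, hQ]
  have hdet : ∀ v, (2 ^ m * (hk (g v)).det * cf (g v) 0 ^ e) ^ 2 * cf (g v) 0 =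
      (C v).det ^ 2 * emb v Q.det := fun v => by
    rw [← det_gam he, ← hC v, Matrix.det_mul, Matrix.det_mul, Matrix.det_transpose, hdetQ]
    ring
  have hne : ∀ v, (2 ^ m * (hk (g v)).det * cf (g v) 0 ^ e) ^ 2 * cf (g v) 0 ≠ 0 := fun v => by
    rw [hdet]
    exact mul_ne_zero (pow_ne_zero _ (hCd v)) ((_root_.map_ne_zero _).2 hd)
  have hg0 : ∀ v, cf (g v) 0 ≠ 0 := fun v h => hne v (by rw [h, mul_zero])
  have hgd : ∀ v, (hk (g v)).det ≠ 0 := fun v h => hne v (by rw [h]; ring)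
  have hD : ∀ v, 2 ^ m * (hk (g v)).det * cf (g v) 0 ^ e ≠ 0 := fun v =>
    mul_ne_zero (mul_ne_zero (pow_ne_zero _ (h2 v)) (hgd v)) (pow_ne_zero _ (hg0 v))
  obtain ⟨τ, hτdef⟩ : ∃ τ : ∀ v, Cpl v, ∀ v, τ v = (C v).det /
    (2 ^ m * (hk (g v)).det * cf (g v) 0 ^ e) := ⟨_, fun v => rfl⟩
  have hτ0 : ∀ v, τ v ≠ 0 := fun v => by
    rw [hτdef]; exact div_ne_zero (hCd v) (hD v)
  have hDτ : ∀ v, 2 ^ m * (hk (g v)).det * cf (g v) 0 ^ e * τ v = (C v).det := fun v => by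
    rw [hτdef, mul_comm, div_mul_cancel₀ _ (hD v)]
  have hτ : ∀ v, cf (g v) 0 = emb v Q.det * τ v ^ 2 := fun v => by
    have h1 := hdet v
    rw [← hDτ v] at h1
    have h3 : (2 ^ m * (hk (g v)).det * cf (g v) 0 ^ e) ^ 2 ≠ 0 := pow_ne_zero _ (hD v)
    apply mul_left_cancel₀ h3
    rw [h1]
    ring
  have hcl : ∀ v, e • cl 1 + cls ((2 : Cpl v) • hk (g v)) + cls ((-2 : Cpl v) • hk1 (g v)) =
      WG.map (emb v) (cls Q) := fun v => by
    rw [← cls_gam he (g v) (hgd v) (hg0 v), map_cls (by norm_num) (h2 v) (emb v) hQ hd]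
    refine (cls_cong (h2 v) (hQt v) ?_ ⟨C v, hCd v, hC v⟩).symm
    rw [hdetQ]
    exact (_root_.map_ne_zero _).2 hd
  obtain ⟨V, W', hV, hW', hic⟩ := ic_wa hQ hd S' C (fun v _ => hCd v)
    (fun v => if v ∈ S then W v else Set.univ) (fun v _ => by
      by_cases hv : v ∈ S
      · simp only [hv, if_true]; exact hW v hv
      · simp only [hv, if_false]; exact Filter.univ_mem)
  have hnb : ∀ v ∈ S', ∃ U1 ∈ 𝓝 (g v), ∃ T1 ∈ 𝓝 (τ v), ∀ a ∈ U1, gamM (dbl e a) ∈ V v ∧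
      ∀ t ∈ T1, 2 ^ m * (hk a).det * cf a 0 ^ e * t ∈ W' v := by
    intro v hv
    have c1 : Continuous fun a : Fin m → Cpl v => gamM (dbl e a) :=
      continuous_gamM.comp (continuous_dbl e)
    have c2 : Continuous fun p : (Fin m → Cpl v) × Cpl v =>
        2 ^ m * (hk p.1).det * cf p.1 0 ^ e * p.2 := by
      have d1 : Continuous fun p : (Fin m → Cpl v) × Cpl v => (hk p.1).det :=
        (continuous_hk.comp continuous_fst).matrix_det
      have d2 : Continuous fun p : (Fin m → Cpl v) × Cpl v => cf p.1 0 :=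
        (continuous_cf 0).comp continuous_fst
      fun_prop
    have e1 : ∀ᶠ a in 𝓝 (g v), gamM (dbl e a) ∈ V v := by
      refine c1.continuousAt.eventually_mem ?_
      rw [← hC v]
      exact hV v hv
    have e2 : ∀ᶠ p in 𝓝 (g v, τ v), 2 ^ m * (hk p.1).det * cf p.1 0 ^ e * p.2 ∈ W' v := by
      refine c2.continuousAt.eventually_mem ?_
      show W' v ∈ 𝓝 (2 ^ m * (hk (g v)).det * cf (g v) 0 ^ e * τ v)
      rw [hDτ v]
      exact hW' v hv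
    rw [nhds_prod_eq] at e2
    obtain ⟨pa, hpa, pb, hpb, hp⟩ := Filter.eventually_prod_iff.1 e2
    refine ⟨{a | pa a ∧ gamM (dbl e a) ∈ V v}, hpa.and e1, {t | pb t}, hpb, ?_⟩
    rintro a ⟨ha1, ha2⟩
    exact ⟨ha2, fun t ht => hp ha1 ht⟩
  choose! U1 hU1 T1 hT1 hUT using hnb
  obtain ⟨G, t, hGd, ht0, hG0, hGc, hG⟩ := zwab_star hm e S' hnone hSp Q.det hd hcn (cls Q) hR g τ
    (fun v _ => hgd v) (fun v _ => hτ0 v) (fun v _ => hτ v) (fun v _ => hcl v)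
    (fun v => U1 v ∩ (if v ∈ S then U v else Set.univ)) (fun v hv => by
      refine Filter.inter_mem (hU1 v hv) ?_
      by_cases hv' : v ∈ S
      · simp only [hv', if_true]; exact hU v hv'
      · simp only [hv', if_false]; exact Filter.univ_mem) T1 hT1
  have hGc0 : cf G 0 ≠ 0 := by
    rw [hG0]; exact mul_ne_zero hd (pow_ne_zero _ ht0)
  have hAt : (gamM (dbl e G))ᵀ = gamM (dbl e G) := gamM_transpose he G
  have hAd : (gamM (dbl e G)).det ≠ 0 := by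
    rw [det_gam he]
    exact mul_ne_zero (pow_ne_zero _ (mul_ne_zero (mul_ne_zero (by positivity) hGd)
      (pow_ne_zero _ hGc0))) hGc0
  have hcong : Cong Q (gamM (dbl e G)) := by
    refine cong_of_cls (by norm_num) hQ hd hAt hAd ?_
    rw [cls_gam he G hGd hGc0, hGc]
  have hmap : ∀ v, (gamM (dbl e G)).map (emb v) = gamM (dbl e fun i => emb v (G i)) := fun v => by
    rw [gamM_map]
    congr 1
    funext i
    rw [dbl_map]
  have hδm : ∀ v, emb v (2 ^ m * (hk G).det * cf G 0 ^ e * t) =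
      2 ^ m * (hk fun i => emb v (G i)).det * cf (fun i => emb v (G i)) 0 ^ e * emb v t := fun v => by
    rw [map_mul, map_mul, map_mul, map_pow, map_pow, hk_det_map, cf_map, map_ofNat]
  obtain ⟨C', hC', hC'W⟩ := hic (gamM (dbl e G)) (2 ^ m * (hk G).det * cf G 0 ^ e * t) hAt
    (fun v hv => by
      rw [hmap v]
      exact (hUT v hv _ (hG v hv).1.1).1) hcong (by
      rw [det_gam he]
      rw [hG0]
      ring) (fun v hv => by
      rw [hδm v]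
      exact (hUT v hv _ (hG v hv).1.1).2 _ (hG v hv).2)
  refine ⟨G, C', hC', ?_, fun v hv => ⟨?_, ?_⟩⟩
  · intro h
    apply hAd
    rw [← hC', Matrix.det_mul, h, mul_zero]
  · have := (hG v (hSS' v hv)).1.2
    simpa only [hv, if_true] using this
  · have := hC'W v (hSS' v hv)
    simpa only [hv, if_true] using this

end SpinWA
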